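import Pool.Agent.W_d33b62f_h37.Df

/-!
# MP_d33b62_nt, full question (helper20): the inequality of Chebyshev for the numbers of representations
-/

set_option autoImplicit false

noncomputable section

open Finset

namespace Pool.Agent.W33f

theorem Dat.Fam.mono {k : ℕ} {D : Dat k} {Y B₁ B₂ B' : ℕ} {C η₁ η₂ : ℝ} {xi : ℤ × ℤ} (h : D.Fam Y B₂ B' C η₂ xi)
    (hB : B₁ ≤ B₂) (hη : η₂ ≤ η₁) (hY : 1 ≤ Real.log Y) : D.Fam Y B₁ B' C η₁ xi :=
  ⟨h.gcd, h.ap, h.eq, h.cl, (pow_le_pow_right₀ hY hB).trans h.lo, h.hi, h.good0.trans (by linarith),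
    fun l => (h.good l).trans (by linarith)⟩

theorem VV_pos (k w : ℕ) (z : ℝ) (hw : 2 * k ≤ w) : 0 < VV k w z := by
  refine Finset.prod_pos fun p hp => ?_
  unfold Pw at hp
  rw [Finset.mem_filter] at hp
  have h1 : (0 : ℝ) < p := by exact_mod_cast hp.2.1.pos
  have h2 : (k : ℝ) < p := by exact_mod_cast (show k < p by omega)
  have h3 : (k : ℝ) / p < 1 := by rwa [div_lt_one h1]
  linarith

theorem VV_le_one (k w : ℕ) (z : ℝ) (hw : 2 * k ≤ w) : VV k w z ≤ 1 := by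
  refine Finset.prod_le_one (fun p hp => ?_) fun p hp => ?_
  · unfold Pw at hp
    rw [Finset.mem_filter] at hp
    have h1 : (0 : ℝ) < p := by exact_mod_cast hp.2.1.pos
    have h2 : (k : ℝ) < p := by exact_mod_cast (show k < p by omega)
    have h3 : (k : ℝ) / p < 1 := by rwa [div_lt_one h1]
    linarith
  · have : (0 : ℝ) ≤ k / p := by positivity
    linarith

theorem cheb {ι κ : Type*} (N : Finset ι) (J : Finset κ) (R : κ → ι → ℕ) (m : κ → ℝ) (cl : κ → ℕ) (K : κ → κ → ℝ)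
    (V e η C₃ : ℝ) (hV : 0 ≤ V) (he0 : 0 < e) (he : e ≤ 1 / 8) (hη : η ≤ e) (hC0 : 0 < C₃)
    (hC : C₃ / e ≤ ∑ x ∈ J, m x) (hA : (N.card : ℝ) ≤ (1 + e) * V)
    (hB : ∀ x ∈ J, (1 - e) * (m x * V) ≤ ∑ n ∈ N, (R x n : ℝ))
    (hCc : ∀ x ∈ J, ∀ y ∈ J, cl x ≠ cl y → ∑ n ∈ N, (R x n * R y n : ℝ) ≤ (1 + e) * (m x * m y * K x y * V))
    (hD : ∀ x ∈ J, ∑ y ∈ J with cl y = cl x, ∑ n ∈ N, (R x n * R y n : ℝ) ≤ C₃ * (m x * V))
    (hS : ∑ x ∈ J, ∑ y ∈ J, (if cl x = cl y then 0 else m x * m y * K x y) ≤ (1 + η) * (∑ x ∈ J, m x) ^ 2) :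
    ((#{n ∈ N | ∀ x ∈ J, R x n = 0} : ℕ) : ℝ) ≤ 8 * e * V := by
  classical
  set μ := ∑ x ∈ J, m x with hμ
  have hμ0 : 0 < μ := lt_of_lt_of_le (div_pos hC0 he0) hC
  have hCμ : C₃ ≤ e * μ := by
    rw [div_le_iff₀ he0] at hC
    linarith
  -- the second moment
  have h2 : ∑ n ∈ N, (∑ x ∈ J, (R x n : ℝ)) ^ 2 ≤ (1 + e) * (1 + η) * μ ^ 2 * V + C₃ * μ * V := by
    have e1 : ∑ n ∈ N, (∑ x ∈ J, (R x n : ℝ)) ^ 2 = ∑ x ∈ J, ∑ y ∈ J, ∑ n ∈ N, (R x n * R y n : ℝ) := by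
      calc ∑ n ∈ N, (∑ x ∈ J, (R x n : ℝ)) ^ 2 = ∑ n ∈ N, ∑ x ∈ J, ∑ y ∈ J, (R x n * R y n : ℝ) := by
            refine Finset.sum_congr rfl fun n _ => ?_
            rw [sq, Finset.sum_mul_sum]
        _ = _ := by
            rw [Finset.sum_comm]
            refine Finset.sum_congr rfl fun x _ => ?_
            rw [Finset.sum_comm]
    have e2 : ∀ x ∈ J, ∑ y ∈ J, ∑ n ∈ N, (R x n * R y n : ℝ) ≤
        (1 + e) * V * (∑ y ∈ J, (if cl x = cl y then 0 else m x * m y * K x y)) + C₃ * (m x * V) := by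
      intro x hx
      rw [← Finset.sum_filter_add_sum_filter_not J (fun y => cl y = cl x), add_comm]
      refine add_le_add ?_ (hD x hx)
      rw [Finset.mul_sum, ← Finset.sum_filter_add_sum_filter_not J (fun y => cl y = cl x)
        (fun y => (1 + e) * V * (if cl x = cl y then 0 else m x * m y * K x y))]
      have e3 : ∑ y ∈ J with cl y = cl x, (1 + e) * V * (if cl x = cl y then 0 else m x * m y * K x y) = 0 := by
        refine Finset.sum_eq_zero fun y hy => ?_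
        rw [Finset.mem_filter] at hy
        rw [if_pos hy.2.symm, mul_zero]
      rw [e3, zero_add]
      refine Finset.sum_le_sum fun y hy => ?_
      rw [Finset.mem_filter] at hy
      rw [if_neg (fun h => hy.2 h.symm)]
      refine (hCc x hx y hy.1 (fun h => hy.2 h.symm)).trans (le_of_eq ?_)
      ring
    rw [e1]
    refine (Finset.sum_le_sum e2).trans ?_
    rw [Finset.sum_add_distrib, ← Finset.mul_sum, ← Finset.mul_sum, ← Finset.sum_mul, ← hμ]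
    have e4 : (1 + e) * V * ∑ x ∈ J, ∑ y ∈ J, (if cl x = cl y then 0 else m x * m y * K x y) ≤
        (1 + e) * V * ((1 + η) * μ ^ 2) := mul_le_mul_of_nonneg_left hS (by positivity)
    linarith
  -- the first moment
  have h1 : (1 - e) * μ * V ≤ ∑ n ∈ N, ∑ x ∈ J, (R x n : ℝ) := by
    rw [Finset.sum_comm]
    refine le_trans (le_of_eq ?_) (Finset.sum_le_sum hB)
    rw [← Finset.mul_sum, ← Finset.sum_mul, ← hμ]
    ring
  have h3 : ∑ n ∈ N, (∑ x ∈ J, (R x n : ℝ) - μ) ^ 2 ≤ 8 * e * V * μ ^ 2 := by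
    have e1 : ∑ n ∈ N, (∑ x ∈ J, (R x n : ℝ) - μ) ^ 2 =
        ∑ n ∈ N, (∑ x ∈ J, (R x n : ℝ)) ^ 2 - 2 * μ * ∑ n ∈ N, ∑ x ∈ J, (R x n : ℝ) + N.card * μ ^ 2 := by
      simp only [sub_sq, Finset.sum_add_distrib, Finset.sum_sub_distrib, Finset.sum_const, nsmul_eq_mul]
      rw [Finset.mul_sum]
      congr 2
      refine Finset.sum_congr rfl fun n _ => ?_
      ring
    rw [e1]
    have e2 : 2 * μ * ((1 - e) * μ * V) ≤ 2 * μ * ∑ n ∈ N, ∑ x ∈ J, (R x n : ℝ) :=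
      mul_le_mul_of_nonneg_left h1 (by positivity)
    have e3 : (N.card : ℝ) * μ ^ 2 ≤ (1 + e) * V * μ ^ 2 := mul_le_mul_of_nonneg_right hA (by positivity)
    have hX : 0 ≤ V * μ ^ 2 := by positivity
    have e4 : C₃ * μ * V ≤ e * (V * μ ^ 2) := by
      calc C₃ * μ * V ≤ (e * μ) * μ * V := by gcongr
        _ = _ := by ring
    have e5 : (1 + e) * (1 + η) * (V * μ ^ 2) ≤ (1 + e) * (1 + e) * (V * μ ^ 2) := by gcongr
    have e6 : e * e * (V * μ ^ 2) ≤ e * 1 * (V * μ ^ 2) := by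
      gcongr
      linarith
    nlinarith
  have h4 : ((#{n ∈ N | ∀ x ∈ J, R x n = 0} : ℕ) : ℝ) * μ ^ 2 ≤ ∑ n ∈ N, (∑ x ∈ J, (R x n : ℝ) - μ) ^ 2 := by
    calc ((#{n ∈ N | ∀ x ∈ J, R x n = 0} : ℕ) : ℝ) * μ ^ 2 = ∑ n ∈ N with ∀ x ∈ J, R x n = 0, μ ^ 2 := by
          rw [Finset.sum_const, nsmul_eq_mul]
      _ ≤ ∑ n ∈ N with ∀ x ∈ J, R x n = 0, (∑ x ∈ J, (R x n : ℝ) - μ) ^ 2 := by
          refine Finset.sum_le_sum fun n hn => ?_
          rw [Finset.mem_filter] at hn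
          rw [Finset.sum_eq_zero fun x hx => by rw [hn.2 x hx, Nat.cast_zero]]
          rw [zero_sub, neg_sq]
      _ ≤ _ := Finset.sum_le_sum_of_subset_of_nonneg (Finset.filter_subset _ _) fun n _ _ => sq_nonneg _
  have h5 := h4.trans h3
  exact le_of_mul_le_mul_right h5 (by positivity)

end Pool.Agent.W33f
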