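import Pool.Agent.W_d33b62t5_h98.CrD
import Pool.Agent.W_d33b62t5_h98.CrC

/-!
# Counts on circles and lines mod p (MP_d33b62; helper25, first version of CrA)
-/

set_option autoImplicit false

open Finset

namespace Pool.Agent.Wd33b62cv

open Pool.Agent.Wd33b62c (cr_circ cr_circ0)

theorem crA_sqrt (p : ℕ) [Fact p.Prime] (hp : p ≠ 2) (a : ZMod p) :
    (((univ : Finset (ZMod p)).filter (fun x => x ^ 2 = a)).card : ℤ) = quadraticChar (ZMod p) a + 1 := by
  have h2 : ringChar (ZMod p) ≠ 2 := by rw [ZMod.ringChar_zmod_n]; exact hp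
  have := quadraticChar_card_sqrts h2 a
  rw [← this]
  congr 2
  ext x
  simp

theorem crA_two (p : ℕ) [Fact p.Prime] (hp : p ≠ 2) : (2 : ZMod p) ≠ 0 := by
  intro h
  have h1 : ((2 : ℕ) : ZMod p) = 0 := by exact_mod_cast h
  rw [ZMod.natCast_eq_zero_iff] at h1
  exact hp ((Nat.prime_dvd_prime_iff_eq (Fact.out : p.Prime) Nat.prime_two).1 h1)


theorem crA_circ (p : ℕ) [Fact p.Prime] (hp : p ≠ 2) (c : ZMod p) :
    ((univ : Finset (ZMod p × ZMod p)).filter (fun q => q.1 ^ 2 + q.2 ^ 2 = c)).card ≤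
      p + 1 + (if c = 0 then (p - 2) else 0) := by
  have hp3 : 3 ≤ p := by
    have := (Fact.out : p.Prime).two_le
    omega
  have hchi : ZMod.χ₄ p = 1 ∨ ZMod.χ₄ p = -1 := by
    have hodd : p % 2 = 1 := by
      rcases (Fact.out : p.Prime).eq_two_or_odd with h | h
      · exact absurd h hp
      · exact h
    rcases (show p % 4 = 1 ∨ p % 4 = 3 by omega) with h | h
    · left; exact ZMod.χ₄_nat_one_mod_four h
    · right; exact ZMod.χ₄_nat_three_mod_four h
  split_ifs with hc
  · subst hc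
    have := cr_circ0 p hp
    have h1 : (((univ : Finset (ZMod p × ZMod p)).filter (fun q => q.1 ^ 2 + q.2 ^ 2 = 0)).card : ℤ) ≤ 2 * p - 1 := by
      rw [this]
      rcases hchi with h | h <;> rw [h] <;> (have : (3 : ℤ) ≤ p := by exact_mod_cast hp3) <;> linarith
    omega
  · have := cr_circ p hp c hc
    have h1 : (((univ : Finset (ZMod p × ZMod p)).filter (fun q => q.1 ^ 2 + q.2 ^ 2 = c)).card : ℤ) ≤ p + 1 := by
      rw [this]
      rcases hchi with h | h <;> rw [h] <;> linarith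
    omega

theorem crA_sq2 (p : ℕ) [Fact p.Prime] (hp : p ≠ 2) (a : ZMod p) :
    ((univ : Finset (ZMod p)).filter (fun x => x ^ 2 = a)).card ≤ 2 := by
  have := crA_sqrt p hp a
  have h1 : quadraticChar (ZMod p) a ≤ 1 := by
    by_cases h : a = 0
    · rw [h]; simp
    · rcases quadraticChar_dichotomy h with h | h <;> rw [h]; norm_num
  have h2 : (((univ : Finset (ZMod p)).filter (fun x => x ^ 2 = a)).card : ℤ) ≤ 2 := by
    rw [this]; linarith
  exact_mod_cast h2

theorem crA_line (p : ℕ) [Fact p.Prime] (l1 l2 : ZMod p) (hl : ¬ (l1 = 0 ∧ l2 = 0)) :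
    ((univ : Finset (ZMod p × ZMod p)).filter (fun z => l1 * z.1 + l2 * z.2 = 0)) ⊆
      (univ : Finset (ZMod p)).image (fun t => (t * l2, - t * l1)) := by
  rintro ⟨z1, z2⟩ hz
  simp only [mem_filter, mem_univ, true_and] at hz
  simp only [mem_image, mem_univ, true_and, Prod.mk.injEq]
  by_cases h : l2 = 0
  · have h1 : l1 ≠ 0 := fun h' => hl ⟨h', h⟩
    refine ⟨- z2 / l1, ?_, ?_⟩
    · rw [h] at hz ⊢
      have : l1 * z1 = 0 := by linear_combination hz
      rw [(mul_eq_zero.1 this).resolve_left h1]; ring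
    · field_simp
  · refine ⟨z1 / l2, ?_, ?_⟩
    · field_simp
    · field_simp
      linear_combination -hz

end Pool.Agent.Wd33b62cv
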