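import Mathlib

/-!
# MP_d33b62_nt, full question (helper37): definitions for the analytic part
-/

set_option autoImplicit false

noncomputable section

open Finset

namespace Pool.Agent.W33f

/-- The norm form on pairs of integers. -/
def nm (z : ℤ × ℤ) : ℤ := z.1 ^ 2 + z.2 ^ 2

/-- Multiplication of Gaussian integers. -/
def gm (u v : ℤ × ℤ) : ℤ × ℤ := (u.1 * v.1 - u.2 * v.2, u.1 * v.2 + u.2 * v.1)

/-- `W` is divisible exactly by the primes `≤ w`, and its `2`-part is `8`. -/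
def Wok (w W : ℕ) : Prop := (∀ p : ℕ, p.Prime → (p ∣ W ↔ p ≤ w)) ∧ 8 ∣ W ∧ ¬ 16 ∣ W

/-- The primes `w < p < z`. -/
def Pw (w : ℕ) (z : ℝ) : Finset ℕ := (range ⌈z⌉₊).filter fun p => p.Prime ∧ w < p

/-- The sieve product of dimension `k`. -/
def VV (k w : ℕ) (z : ℝ) : ℝ := ∏ p ∈ Pw w z, (1 - (k : ℝ) / p)

/-- No prime `w < p < z` divides any `n + h l`. -/
def Rou {k : ℕ} (h : Fin k → ℕ) (w : ℕ) (z : ℝ) (n : ℤ) : Prop :=
  ∀ p ∈ Pw w z, ∀ l, ¬ ((p : ℤ) ∣ n + h l)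

/-- `∏_{p ∣ m, p > w} (1 + C / p)`. -/
def EE (C : ℝ) (w : ℕ) (m : ℤ) : ℝ := ∏ p ∈ m.natAbs.primeFactors.filter (w < ·), (1 + C / p)

/-- The expected number of representations by one circle of curvature `a`: `2 ϖ / (W a)`, `ϖ = π / 4`. -/
def mu (W a : ℕ) : ℝ := Real.pi / (2 * W * a)

/-- The local data. -/
structure Dat (k : ℕ) where
  w : ℕ
  W : ℕ
  h : Fin k → ℕ
  i : Fin k
  rho : ℤ × ℤ
  b : ℕ
  a0 : ℕ
  al : ℕ

/-- Consistency of the local data. -/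
structure Dat.ok {k : ℕ} (D : Dat k) : Prop where
  wok : Wok D.w D.W
  hw : 10 ^ 6 ≤ D.w
  hh : ∀ l, D.h l ≤ 10 ^ 6
  inj : Function.Injective D.h
  a0p : D.a0.Prime
  a05 : 5 ≤ D.a0
  a0w : D.a0 ≤ D.w
  hb : ∀ l, Nat.Coprime (D.b + D.h l) D.W
  hal : Nat.Coprime D.al D.W
  hal2 : D.al + D.a0 ≡ 2 [MOD 8]
  hrho : 2 * nm D.rho ≡ (D.b + D.h D.i + D.al : ℕ) [ZMOD (4 * D.W : ℕ)]
  hrhoN : IsCoprime (nm D.rho) (D.W : ℤ)
  hrho1 : IsCoprime D.rho.1 (D.W : ℤ)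

/-- The curvature of the circle `ξ` (neighbour of the base circle). -/
def Dat.a {k : ℕ} (D : Dat k) (xi : ℤ × ℤ) : ℕ := (nm xi - D.a0).toNat

/-- The circle `ξ` belongs to the admissible circles of level `Y`. -/
structure Dat.Fam {k : ℕ} (D : Dat k) (Y : ℕ) (B B' : ℕ) (C η : ℝ) (xi : ℤ × ℤ) : Prop where
  gcd : Int.gcd xi.1 xi.2 = 1
  ap : (D.a xi).Prime
  eq : nm xi = D.a xi + D.a0
  cl : D.a xi ≡ D.al [MOD 4 * D.W]
  lo : (Real.log Y) ^ B ≤ D.a xi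
  hi : (D.a xi : ℝ) ≤ (Real.log Y) ^ B'
  good0 : EE C D.w (D.a xi + D.a0) ≤ 1 + η
  good : ∀ l, EE C D.w (D.a xi + D.h D.i - D.h l) ≤ 1 + η

/-- The points `z` which represent `n + h i` as the curvature of a neighbour of the circle `ξ`. -/
def Dat.ZS {k : ℕ} (D : Dat k) (xi : ℤ × ℤ) (n : ℤ) : Set (ℤ × ℤ) :=
  {z | z.1 ≡ D.rho.1 [ZMOD D.W] ∧ z.2 ≡ D.rho.2 [ZMOD D.W] ∧ |z.2| < z.1 ∧ Int.gcd z.1 z.2 = 1 ∧
    (D.a xi : ℤ) ∣ (xi.1 - xi.2) * z.1 + (xi.1 + xi.2) * z.2 ∧ 2 * nm z = n + D.h D.i + D.a xi}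

open Classical in
/-- The rough integers of the class `b` in `(Y, 2 Y]`. -/
def Dat.N1 {k : ℕ} (D : Dat k) (Y : ℕ) (z : ℝ) : Finset ℕ :=
  (Ioc Y (2 * Y)).filter fun n => n ≡ D.b [MOD 4 * D.W] ∧ Rou D.h D.w z n

/-- The number of representations by the circle `ξ`. -/
def Dat.R {k : ℕ} (D : Dat k) (xi : ℤ × ℤ) (n : ℕ) : ℕ := (D.ZS xi n).ncard

/-- The constant in the exponent-one products. -/
def CC (k : ℕ) : ℝ := 10 * k + 20

end Pool.Agent.W33f
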