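import Pool.Agent.W_d33b62f_h37.FDd

/-!
# MP_d33b62_nt, full question, T8 (D): the sum over `m`
-/

set_option autoImplicit false

noncomputable section

open Finset

namespace Pool.Agent.W33f

open Pool.Agent.Wb58c63 (PI mem_PI VP below ap aw Pr XM Sd Er)
open Pool.Agent.Wd33b62 (mertens_split)

/-- The summand. -/
def fdm (m : ℕ) : ℝ := (2 : ℝ) ^ m.primeFactors.card * (∏ p ∈ m.primeFactors, (1 + 4 / (p : ℝ))) / m

theorem fdm_nonneg (m : ℕ) : 0 ≤ fdm m := by
  unfold fdm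
  refine div_nonneg (mul_nonneg (by positivity) (prod_nonneg fun p _ => by positivity)) (by positivity)

theorem fdm_one : fdm 1 = 1 := by
  unfold fdm; simp

theorem fdm_mul {m n : ℕ} (h : m.Coprime n) : fdm (m * n) = fdm m * fdm n := by
  unfold fdm
  rw [h.primeFactors_mul, card_union_of_disjoint h.disjoint_primeFactors,
    prod_union h.disjoint_primeFactors, pow_add]
  push_cast
  ring

theorem fdm_pow {p : ℕ} (hp : p.Prime) (n : ℕ) :
    fdm (p ^ (n + 1)) = 2 * (1 + 4 / (p : ℝ)) / p * (1 / (p : ℝ)) ^ n := by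
  unfold fdm
  rw [Nat.primeFactors_prime_pow (Nat.succ_ne_zero n) hp]
  simp only [card_singleton, pow_one, prod_singleton]
  have : (p : ℝ) ≠ 0 := by exact_mod_cast hp.ne_zero
  push_cast
  rw [one_div, inv_pow]
  field_simp
  ring

theorem fdm_summable {p : ℕ} (hp : p.Prime) : Summable fun n : ℕ => fdm (p ^ n) := by
  rw [← summable_nat_add_iff 1]
  simp only [fdm_pow hp]
  apply Summable.mul_left
  apply summable_geometric_of_lt_one (by positivity)
  have : (2 : ℝ) ≤ p := by exact_mod_cast hp.two_le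
  rw [div_lt_one (by linarith)]; linarith

theorem fdm_tsum {p : ℕ} (hp : p.Prime) : ∑' n : ℕ, fdm (p ^ n) ≤ Real.exp (2 / p + 10 / (p * (p - 1))) := by
  have h2 : (2 : ℝ) ≤ p := by exact_mod_cast hp.two_le
  rw [(fdm_summable hp).tsum_eq_zero_add]
  simp only [fdm_pow hp, pow_zero, fdm_one]
  rw [tsum_mul_left, tsum_geometric_of_lt_one (by positivity) (by rw [div_lt_one (by linarith)]; linarith)]
  have e : 2 * (1 + 4 / (p : ℝ)) / p * (1 - 1 / (p : ℝ))⁻¹ = 2 / p + 10 / (p * (p - 1)) := by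
    have h1 : (p : ℝ) ≠ 0 := by linarith
    have h3 : (p : ℝ) - 1 ≠ 0 := by linarith
    have h4 : 1 - 1 / (p : ℝ) = (p - 1) / p := by field_simp
    rw [h4, inv_div]
    field_simp
    ring
  rw [e]
  have := Real.add_one_le_exp (2 / (p : ℝ) + 10 / (p * (p - 1)))
  linarith

/-- `∑ 1 / (n (n - 1)) ≤ 1`. -/
theorem fdm_tel (s : Finset ℕ) (hs : ∀ p ∈ s, 2 ≤ p) : ∑ p ∈ s, 10 / ((p : ℝ) * (p - 1)) ≤ 10 := by
  have h1 : ∀ N : ℕ, ∑ p ∈ Icc 2 (N + 2), 10 / ((p : ℝ) * (p - 1)) = 10 - 10 / ((N : ℝ) + 2) := by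
    intro N
    induction N with
    | zero => norm_num
    | succ N ih =>
      rw [sum_Icc_succ_top (by omega), ih]
      push_cast
      have h1 : (N : ℝ) + 2 ≠ 0 := by positivity
      have h3 : (N : ℝ) + 3 ≠ 0 := by positivity
      have e1 : (N : ℝ) + 2 + 1 - 1 = N + 2 := by ring
      have e2 : (N : ℝ) + 2 + 1 = N + 3 := by ring
      have e3 : (N : ℝ) + 1 + 2 = N + 3 := by ring
      rw [e1, e2, e3]
      field_simp
      ring
  have h2 : s ⊆ Icc 2 (s.sup id + 2) := by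
    intro p hp
    rw [mem_Icc]
    exact ⟨hs p hp, (le_sup (f := id) hp).trans (Nat.le_add_right _ _)⟩
  calc ∑ p ∈ s, 10 / ((p : ℝ) * (p - 1)) ≤ ∑ p ∈ Icc 2 (s.sup id + 2), 10 / ((p : ℝ) * (p - 1)) := by
        apply sum_le_sum_of_subset_of_nonneg h2
        intro p hp _
        have : (2 : ℝ) ≤ p := by exact_mod_cast (mem_Icc.1 hp).1
        apply div_nonneg (by norm_num)
        apply mul_nonneg <;> linarith
    _ = 10 - 10 / (((s.sup id : ℕ) : ℝ) + 2) := h1 _
    _ ≤ 10 := by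
        have : (0 : ℝ) ≤ 10 / (((s.sup id : ℕ) : ℝ) + 2) := by positivity
        linarith

/-- The sum over the complementary factor `m'` in the exceptional part.

Proof. `≤ ∏_{p ≡ 1 mod 4, w < p ≤ X} (1 + 2 (1 + 4 / p) / (p - 1)) ≤ exp (∑ 2 / p + C ∑ 1 / p ^ 2)`, `mertens_split`. -/
theorem m_sum : ∃ C : ℝ, 0 < C ∧ ∀ w : ℕ, 2 ≤ w → ∀ X : ℝ, (w : ℝ) ≤ X →
    ∑ m ∈ (Icc 1 ⌊X⌋₊).filter (fun m => ∀ p ∈ m.primeFactors, w < p ∧ p % 4 = 1),
      (2 : ℝ) ^ m.primeFactors.card * (∏ p ∈ m.primeFactors, (1 + 4 / (p : ℝ))) / m ≤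
      C * (Real.log X / Real.log w) := by
  obtain ⟨C, hC, H⟩ := mertens_split
  refine ⟨2 * Real.exp (2 * (C / Real.log 2) + 10), by positivity, fun w hw X hX => ?_⟩
  have hw2 : (2 : ℝ) ≤ w := by exact_mod_cast hw
  have hX2 : (2 : ℝ) ≤ X := hw2.trans hX
  set s : Finset ℕ := (range (⌊X⌋₊ + 1)).filter (fun p => w < p ∧ p % 4 = 1) with hs
  have h1 := (EulerProduct.summable_and_hasSum_factoredNumbers_prod_filter_prime_tsum (f := fdm) fdm_one
    (fun {m n} h => fdm_mul h) (fun {p} hp => by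
      have := fdm_summable hp
      refine this.congr fun n => ?_
      rw [Real.norm_of_nonneg (fdm_nonneg _)]) s).2
  have h2 : HasSum ((Nat.factoredNumbers s).indicator fdm)
      (∏ p ∈ s with Nat.Prime p, ∑' (n : ℕ), fdm (p ^ n)) := hasSum_subtype_iff_indicator.1 h1
  have h3 := sum_le_hasSum ((Icc 1 ⌊X⌋₊).filter (fun m => ∀ p ∈ m.primeFactors, w < p ∧ p % 4 = 1))
    (fun i _ => Set.indicator_nonneg (fun m _ => fdm_nonneg m) i) h2
  have h4 : ∑ m ∈ (Icc 1 ⌊X⌋₊).filter (fun m => ∀ p ∈ m.primeFactors, w < p ∧ p % 4 = 1),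
      (2 : ℝ) ^ m.primeFactors.card * (∏ p ∈ m.primeFactors, (1 + 4 / (p : ℝ))) / m =
      ∑ m ∈ (Icc 1 ⌊X⌋₊).filter (fun m => ∀ p ∈ m.primeFactors, w < p ∧ p % 4 = 1),
        (Nat.factoredNumbers s).indicator fdm m := by
    refine sum_congr rfl fun m hm => ?_
    rw [mem_filter, mem_Icc] at hm
    rw [Set.indicator_of_mem]
    · rfl
    · rw [Nat.mem_factoredNumbers]
      refine ⟨by omega, fun p hp => ?_⟩
      have hp' : p ∈ m.primeFactors := List.mem_toFinset.2 hp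
      rw [hs, mem_filter, mem_range]
      refine ⟨?_, hm.2 p hp'⟩
      have : p ≤ m := Nat.le_of_dvd (by omega) (Nat.dvd_of_mem_primeFactors hp')
      omega
  rw [h4]
  refine h3.trans ?_
  have h5 : ∏ p ∈ s with Nat.Prime p, ∑' (n : ℕ), fdm (p ^ n) ≤
      ∏ p ∈ s with Nat.Prime p, Real.exp (2 / p + 10 / (p * (p - 1))) := by
    apply prod_le_prod
    · intro p _
      exact tsum_nonneg fun n => fdm_nonneg _
    · intro p hp
      exact fdm_tsum (mem_filter.1 hp).2
  refine h5.trans ?_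
  rw [← Real.exp_sum, sum_add_distrib]
  have h6 : ∑ p ∈ s with Nat.Prime p, 10 / ((p : ℝ) * (p - 1)) ≤ 10 :=
    fdm_tel _ fun p hp => (mem_filter.1 hp).2.two_le
  have h7 : ∑ p ∈ s with Nat.Prime p, 2 / (p : ℝ) ≤ Real.log (Real.log (X + 1) / Real.log w) + 2 * (C / Real.log 2) := by
    have h8 := H w (X + 1) hw2 (by linarith)
    have h9 : s.filter Nat.Prime ⊆ (PI (w : ℝ) (X + 1)).filter (fun p => p % 4 = 1) := by
      intro p hp
      rw [hs, mem_filter, mem_filter, mem_range] at hp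
      rw [mem_filter, mem_PI]
      refine ⟨⟨hp.2, ?_, ?_⟩, hp.1.2.2⟩
      · exact_mod_cast hp.1.2.1.le
      · have h10 : p ≤ ⌊X⌋₊ := by omega
        have h11 : (p : ℝ) ≤ X := (Nat.cast_le.2 h10).trans (Nat.floor_le (by linarith))
        linarith
    have h12 : ∑ p ∈ s with Nat.Prime p, 2 / (p : ℝ) ≤ 2 * ∑ p ∈ (PI (w : ℝ) (X + 1)).filter (fun p => p % 4 = 1), (1 : ℝ) / p := by
      rw [mul_sum]
      calc ∑ p ∈ s with Nat.Prime p, 2 / (p : ℝ) = ∑ p ∈ s with Nat.Prime p, 2 * (1 / (p : ℝ)) := by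
            refine sum_congr rfl fun p _ => by ring
        _ ≤ _ := sum_le_sum_of_subset_of_nonneg h9 fun p _ _ => by positivity
    have h13 := (abs_le.1 h8).2
    have h14 : C / Real.log w ≤ C / Real.log 2 := by
      apply div_le_div_of_nonneg_left hC.le (Real.log_pos (by norm_num))
      exact Real.log_le_log (by norm_num) hw2
    linarith
  have h15 : Real.log (X + 1) ≤ 2 * Real.log X := by
    have : Real.log (X + 1) ≤ Real.log (X ^ 2) := Real.log_le_log (by linarith) (by nlinarith)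
    rwa [Real.log_pow, Nat.cast_ofNat] at this
  have hlw : 0 < Real.log w := Real.log_pos (by linarith)
  have hlX : 0 < Real.log (X + 1) := Real.log_pos (by linarith)
  calc Real.exp (∑ p ∈ s with Nat.Prime p, 2 / (p : ℝ) + ∑ p ∈ s with Nat.Prime p, 10 / ((p : ℝ) * (p - 1)))
      ≤ Real.exp (Real.log (Real.log (X + 1) / Real.log w) + (2 * (C / Real.log 2) + 10)) := by
        apply Real.exp_le_exp.2; linarith
    _ = (Real.log (X + 1) / Real.log w) * Real.exp (2 * (C / Real.log 2) + 10) := by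
        rw [Real.exp_add, Real.exp_log (by positivity)]
    _ ≤ (2 * Real.log X / Real.log w) * Real.exp (2 * (C / Real.log 2) + 10) := by gcongr
    _ = 2 * Real.exp (2 * (C / Real.log 2) + 10) * (Real.log X / Real.log w) := by ring

end Pool.Agent.W33f
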