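import Pool.Agent.W_d33b62f_h37.FDd

/-!
# MP_d33b62_nt, full question, T8 (D): the sum over `r`
-/

set_option autoImplicit false

noncomputable section

open Finset

namespace Pool.Agent.W33f

open Pool.Agent.Wb58c63 (PI mem_PI VP below ap aw Pr XM Sd Er)

/-- The sum over the inert prime `r` (`mertens_all`, `log ((1/2 + η) / (1/2 - 3 η)) ≤ 20 η`). -/
theorem r_sum (η : ℝ) (hη : 0 < η) (hη1 : η ≤ 1 / 40) : ∃ T₀ : ℝ, 2 ≤ T₀ ∧ ∀ T : ℝ, T₀ ≤ T →
    ∑ r ∈ PI (T ^ (1 / 2 - 3 * η)) (T ^ (1 / 2 + η)), (1 : ℝ) / r ≤ 30 * η := by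
  obtain ⟨C, hC, h⟩ := Pool.Agent.Wd33b62.mertens_all
  obtain ⟨a, ha⟩ : ∃ a : ℝ, a = 1 / 2 - 3 * η := ⟨_, rfl⟩
  obtain ⟨b, hb⟩ : ∃ b : ℝ, b = 1 / 2 + η := ⟨_, rfl⟩
  have ha0 : 17 / 40 ≤ a := by rw [ha]; linarith
  have hab : a ≤ b := by rw [ha, hb]; linarith
  have hb0 : 0 < b := by linarith
  rw [← ha, ← hb]
  refine ⟨max 2 (Real.exp (max (2 * Real.log 2 + 2) (C / (4 * η)) * (5 / 2))), le_max_left _ _, fun T hT => ?_⟩
  obtain ⟨L, hL⟩ : ∃ L : ℝ, L = max (2 * Real.log 2 + 2) (C / (4 * η)) := ⟨_, rfl⟩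
  rw [← hL] at hT
  have hL1 : 2 * Real.log 2 + 2 ≤ L := by rw [hL]; exact le_max_left _ _
  have hL2 : C / (4 * η) ≤ L := by rw [hL]; exact le_max_right _ _
  have hlog2 : 0 < Real.log 2 := Real.log_pos (by norm_num)
  have hL0 : 0 < L := by linarith
  have hT2 : 2 ≤ T := (le_max_left _ _).trans hT
  have hT0 : 0 < T := by linarith
  have hTe : Real.exp (L * (5 / 2)) ≤ T := (le_max_right _ _).trans hT
  have hlT : L * (5 / 2) ≤ Real.log T := (Real.le_log_iff_exp_le hT0).2 hTe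
  have hlu : Real.log (T ^ a) = a * Real.log T := Real.log_rpow hT0 a
  have hlz : Real.log (T ^ b) = b * Real.log T := Real.log_rpow hT0 b
  have hlT0 : 0 < Real.log T := by nlinarith
  have h1 : L ≤ a * Real.log T := by nlinarith
  have h2 : (2 : ℝ) ≤ T ^ a := by
    rw [← Real.log_le_log_iff (by norm_num) (Real.rpow_pos_of_pos hT0 a), hlu]
    linarith
  have h3 : T ^ a ≤ T ^ b := Real.rpow_le_rpow_of_exponent_le (by linarith) hab
  have h4 := (abs_le.1 (h (T ^ a) (T ^ b) h2 h3)).2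
  rw [hlu, hlz, mul_div_mul_right _ _ hlT0.ne'] at h4
  have h5 : Real.log (b / a) ≤ 10 * η := by
    have h6 : Real.log (b / a) ≤ b / a - 1 := Real.log_le_sub_one_of_pos (by positivity)
    have h7 : b / a - 1 ≤ 10 * η := by
      rw [div_sub_one (by positivity), div_le_iff₀ (by positivity)]
      have : b - a = 4 * η := by rw [ha, hb]; ring
      rw [this]
      nlinarith
    linarith
  have h6 : C / (a * Real.log T) ≤ 4 * η := by
    rw [div_le_iff₀ (by positivity)]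
    have h8 : C ≤ L * (4 * η) := by rwa [div_le_iff₀ (by positivity)] at hL2
    have h9 : L * (4 * η) ≤ a * Real.log T * (4 * η) := mul_le_mul_of_nonneg_right h1 (by positivity)
    linarith
  linarith

end Pool.Agent.W33f
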