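import Pool.Agent.W_d33b62f_h37.FDd

/-!
# MP_d33b62_nt, full question, T8 (D): the Euler product of the inert primes
-/

set_option autoImplicit false

noncomputable section

open Finset

namespace Pool.Agent.W33f

open Pool.Agent.Wb58c63 (PI mem_PI VP below ap aw Pr XM Sd Er)

theorem FD2v_exp (x : ℝ) (h0 : 0 ≤ x) (h1 : x ≤ 1 / 2) : Real.exp (-(x + x ^ 2)) ≤ 1 - x := by
  have h2 : 0 ≤ x + x ^ 2 := by positivity
  have h3 := Real.quadratic_le_exp_of_nonneg h2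
  have h4 : 0 < Real.exp (x + x ^ 2) := Real.exp_pos _
  rw [Real.exp_neg, inv_le_comm₀ h4 (by linarith)]
  refine le_trans ?_ h3
  rw [inv_le_iff_one_le_mul₀ (by linarith)]
  have h5 : 0 ≤ 1 - x - x ^ 2 - x ^ 3 := by nlinarith [sq_nonneg x, mul_nonneg h0 h0, mul_nonneg h0 (mul_nonneg h0 h0)]
  have h6 : (1 + (x + x ^ 2) + (x + x ^ 2) ^ 2 / 2) * (1 - x) = 1 + x ^ 2 * (1 - x - x ^ 2 - x ^ 3) / 2 := by ring
  rw [h6]
  have : 0 ≤ x ^ 2 * (1 - x - x ^ 2 - x ^ 3) := mul_nonneg (sq_nonneg x) h5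
  linarith

theorem FD2v_tel (N : ℕ) : ∑ n ∈ Ico 3 (N + 3), 2 / (((n : ℝ) - 1) * ((n : ℝ) - 2)) ≤ 2 - 2 / ((N : ℝ) + 1) := by
  induction N with
  | zero => simp
  | succ N ih =>
    rw [show N + 1 + 3 = (N + 3) + 1 by ring, Finset.sum_Ico_succ_top (by omega)]
    have h1 : (2 : ℝ) / ((((N + 3 : ℕ) : ℝ) - 1) * (((N + 3 : ℕ) : ℝ) - 2)) = 2 / ((N : ℝ) + 1) - 2 / ((N : ℝ) + 1 + 1) := by
      push_cast
      have h2 : (N : ℝ) + 1 ≠ 0 := by positivity
      have h3 : (N : ℝ) + 1 + 1 ≠ 0 := by positivity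
      have e1 : (N : ℝ) + 3 - 1 = N + 1 + 1 := by ring
      have e2 : (N : ℝ) + 3 - 2 = N + 1 := by ring
      rw [e1, e2]
      field_simp
      ring
    rw [h1]
    push_cast
    linarith

theorem FD2v_sum (P : Finset ℕ) (hP : ∀ p ∈ P, 3 ≤ p) :
    ∑ p ∈ P, 2 / (((p : ℝ) - 1) * ((p : ℝ) - 2)) ≤ 2 := by
  have h1 : P ⊆ Ico 3 (P.sup id + 1 + 3) := by
    intro p hp
    have h2 : p ≤ P.sup id := Finset.le_sup (f := id) hp
    rw [mem_Ico]
    have := hP p hp
    omega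
  refine (Finset.sum_le_sum_of_subset_of_nonneg h1 ?_).trans ((FD2v_tel _).trans ?_)
  · intro n hn _
    rw [mem_Ico] at hn
    have h3 : (3 : ℝ) ≤ n := by exact_mod_cast hn.1
    have h4 : 0 < ((n : ℝ) - 1) * ((n : ℝ) - 2) := mul_pos (by linarith) (by linarith)
    positivity
  · have : (0 : ℝ) ≤ 2 / (((P.sup id + 1 : ℕ) : ℝ) + 1) := by positivity
    linarith

/-- `∏ (1 - 1 / (p - 1)) ≥ c √(log w / log z)` over the primes `≡ 3 mod 4` of `(w, z)` (`mertens_inert`). -/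
theorem Pin_VP : ∃ c : ℝ, 0 < c ∧ ∀ (w : ℕ) (z : ℝ), 2 ≤ w → (w : ℝ) + 1 ≤ z →
    c * √(Real.log w / Real.log z) ≤ VP (fun p => 1 / ((p : ℝ) - 1)) (Pin w z) := by
  obtain ⟨C, hC, hM⟩ := Pool.Agent.Wd33b62.mertens_inert
  have hl2 : 0 < Real.log 2 := Real.log_pos (by norm_num)
  refine ⟨Real.exp (-(C / Real.log 2 + 2)), Real.exp_pos _, ?_⟩
  intro w z hw hz
  have hw2 : (2 : ℝ) ≤ w := by exact_mod_cast hw
  have hm := (abs_le.1 (hM ((w : ℝ) + 1) z (by linarith) hz)).2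
  have hP3 : ∀ p ∈ Pin w z, 3 ≤ p := by
    intro p hp
    unfold Pin at hp
    rw [Finset.mem_filter] at hp
    omega
  have h1 : Real.exp (-(∑ p ∈ Pin w z, (1 : ℝ) / p + 2)) ≤ VP (fun p => 1 / ((p : ℝ) - 1)) (Pin w z) := by
    have h2 : Real.exp (-(∑ p ∈ Pin w z, ((1 / ((p : ℝ) - 1)) + (1 / ((p : ℝ) - 1)) ^ 2))) ≤
        VP (fun p => 1 / ((p : ℝ) - 1)) (Pin w z) := by
      unfold VP
      rw [← Finset.sum_neg_distrib, Real.exp_sum]
      apply Finset.prod_le_prod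
      · intro p _
        exact (Real.exp_pos _).le
      · intro p hp
        have h3 : (3 : ℝ) ≤ p := by exact_mod_cast hP3 p hp
        apply FD2v_exp
        · apply div_nonneg zero_le_one; linarith
        · rw [div_le_div_iff₀ (by linarith) (by norm_num)]; linarith
    refine le_trans (Real.exp_le_exp.2 ?_) h2
    have h4 := FD2v_sum (Pin w z) hP3
    have h5 : ∑ p ∈ Pin w z, ((1 / ((p : ℝ) - 1)) + (1 / ((p : ℝ) - 1)) ^ 2) ≤
        ∑ p ∈ Pin w z, ((1 : ℝ) / p + 2 / (((p : ℝ) - 1) * ((p : ℝ) - 2))) := by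
      apply Finset.sum_le_sum
      intro p hp
      have h3 : (3 : ℝ) ≤ p := by exact_mod_cast hP3 p hp
      have e1 : (1 : ℝ) / ((p : ℝ) - 1) = 1 / p + 1 / (p * (p - 1)) := by
        have : (p : ℝ) ≠ 0 := by linarith
        have : (p : ℝ) - 1 ≠ 0 := by linarith
        field_simp
        ring
      have e2 : (1 : ℝ) / (p * (p - 1)) ≤ 1 / (((p : ℝ) - 1) * ((p : ℝ) - 2)) := by
        apply one_div_le_one_div_of_le (mul_pos (by linarith) (by linarith))
        nlinarith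
      have e3 : ((1 : ℝ) / ((p : ℝ) - 1)) ^ 2 ≤ 1 / (((p : ℝ) - 1) * ((p : ℝ) - 2)) := by
        rw [div_pow, one_pow]
        apply one_div_le_one_div_of_le (mul_pos (by linarith) (by linarith))
        nlinarith
      have e4 : (2 : ℝ) / (((p : ℝ) - 1) * ((p : ℝ) - 2)) = 1 / (((p : ℝ) - 1) * ((p : ℝ) - 2)) +
          1 / (((p : ℝ) - 1) * ((p : ℝ) - 2)) := by ring
      rw [e4]
      nlinarith
    have h6 : ∑ p ∈ Pin w z, ((1 : ℝ) / p + 2 / (((p : ℝ) - 1) * ((p : ℝ) - 2))) =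
        ∑ p ∈ Pin w z, (1 : ℝ) / p + ∑ p ∈ Pin w z, 2 / (((p : ℝ) - 1) * ((p : ℝ) - 2)) :=
      Finset.sum_add_distrib
    linarith
  refine le_trans ?_ h1
  have hsum : ∑ p ∈ Pin w z, (1 : ℝ) / p ≤ 1 / 2 * Real.log (Real.log z / Real.log ((w : ℝ) + 1)) +
      C / Real.log ((w : ℝ) + 1) := by
    unfold Pin
    linarith
  have hlw : Real.log 2 ≤ Real.log w := Real.log_le_log (by norm_num) hw2
  have hlw1 : Real.log w ≤ Real.log ((w : ℝ) + 1) := Real.log_le_log (by linarith) (by linarith)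
  have hlz : Real.log ((w : ℝ) + 1) ≤ Real.log z := Real.log_le_log (by linarith) hz
  have hCl : C / Real.log ((w : ℝ) + 1) ≤ C / Real.log 2 := by
    apply div_le_div_of_nonneg_left hC.le hl2 (by linarith)
  have hlog : Real.log (Real.log z / Real.log ((w : ℝ) + 1)) ≤ Real.log (Real.log z / Real.log w) := by
    apply Real.log_le_log (div_pos (by linarith) (by linarith))
    apply div_le_div_of_nonneg_left (by linarith) (by linarith) hlw1
  have hsq : √(Real.log w / Real.log z) = Real.exp (-(1 / 2 * Real.log (Real.log z / Real.log w))) := by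
    have hpos : 0 < Real.log w / Real.log z := div_pos (by linarith) (by linarith)
    have e1 : Real.log (Real.log z / Real.log w) = - Real.log (Real.log w / Real.log z) := by
      rw [← Real.log_inv, inv_div]
    rw [e1, Real.sqrt_eq_rpow, Real.rpow_def_of_pos hpos]
    congr 1
    ring
  rw [hsq, ← Real.exp_add]
  apply Real.exp_le_exp.2
  linarith

end Pool.Agent.W33f
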