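import Pool.Agent.W_d33b62f_h37.FD2a
import Pool.Agent.W_d33b62f_h37.FD2b
import Pool.Agent.W_d33b62_h36.MM5
import Pool.Agent.W_d33b62_h36.BV4

/-!
# MP_d33b62_nt, full question, T8 (D): the main lower bound
-/

set_option autoImplicit false

noncomputable section

open Finset

namespace Pool.Agent.W33f

open Pool.Agent.Wb58c63 (PI mem_PI VP below ap aw Pr XM Sd Er)
open Pool.Agent.Wd33b62 (lamHF GGh RegH EB half_sieve RegH_inert BVC XM_ge')

/-- **FD2.**

Proof. `half_sieve η` gives `θ, K₁`; `RegH_inert K₁ 1` gives `u₀` (take `w ≥ u₀`), for `P = Pin w z`, `u₁ = w + 1`. `D = DT η T`,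
`z = zT η T`, `log D = (1 + η) log z`. `GGh ≥ √η / 2 * VP ≥ (√η / 2) c √(log w / log z)` (`Pin_VP`), `log z ≤ log T / 2`.
`X = T ^ (η / 2)`: `Es_sum`: `∑ 1 / φ(e) ≥ c √(η / 2) √(log T / log w)`. Product `≥ c' η`. Error: `BVC 2 1 η (4 W)` (`k ≥ k₀`),
`X D = T ^ (1/2 - 3/2 η) ≤ T ^ (1/2 - η)`: `≤ C T / (log T) ^ 2`, and `XM k T ≥ c T` (`XM_ge'`). -/
theorem FD2 : ∃ c : ℝ, 0 < c ∧ ∀ η : ℝ, 0 < η → η ≤ 1 / 40 → ∃ w₀ : ℕ, ∀ w ≥ w₀, ∀ W, Wok w W → ∃ (k : ℕ) (T₀ : ℝ), 2 ≤ T₀ ∧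
    ∀ T : ℝ, T₀ ≤ T → ∀ a₀ E al : ℕ, FDok w W a₀ E al →
      c * η * (XM k T / (4 * W).totient) ≤
        ∑ e ∈ Es w (T ^ (η / 2)), ∑ q ∈ (Pr T).filter (fun q => q ≡ al [MOD 4 * W] ∧ e ∣ mq a₀ E q ∧
          ∀ p ∈ Pin w (zT η T), ¬ p ∣ mq a₀ E q), ap k T q := by
  obtain ⟨c1, hc1, H1⟩ := Pin_VP
  obtain ⟨c2, hc2, H2⟩ := Es_sum
  obtain ⟨c3, hc3, H3⟩ := XM_ge'
  refine ⟨c1 * c2 / 4, by positivity, fun η hη hη1 => ?_⟩
  obtain ⟨θ, K₁, hθ, hθη, hK₁, Hs⟩ := half_sieve η hη (by linarith)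
  obtain ⟨u₀, hu₀, Hr⟩ := RegH_inert K₁ hK₁ 1
  refine ⟨⌈u₀⌉₊ + 2, fun w hw W hW => ?_⟩
  have hwu : u₀ ≤ w := (Nat.le_ceil u₀).trans (by exact_mod_cast (by omega : ⌈u₀⌉₊ ≤ w))
  have hw2 : 2 ≤ w := by omega
  have hW0 : 0 < W := by
    rcases Nat.eq_zero_or_pos W with h | h
    · exact absurd (h ▸ dvd_zero 16) hW.2.2
    · exact h
  obtain ⟨k, hk⟩ := BVC 2 1 le_rfl η hη (by linarith) (4 * W) (by omega)
  obtain ⟨C, hC, Hb⟩ := hk k le_rfl
  obtain ⟨X₀, hX₀, HX⟩ := H2 w hw2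
  obtain ⟨Y₀, hY₀, HY⟩ := H3 k
  have hφ : (0 : ℝ) < (4 * W).totient := by
    exact_mod_cast Nat.totient_pos.2 (by omega)
  -- exponents
  have he1 : 0 < 1 / 2 - 2 * η := by linarith
  have he2 : 0 < (1 / 2 - 2 * η) / (1 + η) := by positivity
  -- the bound for large `T`
  set L : ℝ := 1 + C * (4 * W).totient / (c1 * c2 / 4 * η * c3) with hL
  have hL1 : 1 ≤ L := by
    rw [hL]
    have : 0 ≤ C * (4 * W).totient / (c1 * c2 / 4 * η * c3) := by positivity
    linarith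
  refine ⟨k, max (max (max 3 w) (max Y₀ (X₀ ^ (1 / (η / 2))))) (max (((w : ℝ) + 1) ^ (1 / ((1 / 2 - 2 * η) / (1 + η))))
    (Real.exp L)), ?_, fun T hT a₀ E al hok => ?_⟩
  · exact le_max_of_le_left (le_max_of_le_left (le_max_of_le_left (by norm_num)))
  have hT3 : 3 ≤ T := (le_max_left _ _).trans ((le_max_left _ _).trans ((le_max_left _ _).trans hT))
  have hTw : (w : ℝ) ≤ T := (le_max_right _ _).trans ((le_max_left _ _).trans ((le_max_left _ _).trans hT))
  have hTY : Y₀ ≤ T := (le_max_left _ _).trans ((le_max_right _ _).trans ((le_max_left _ _).trans hT))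
  have hTX : X₀ ^ (1 / (η / 2)) ≤ T := (le_max_right _ _).trans ((le_max_right _ _).trans ((le_max_left _ _).trans hT))
  have hTz : ((w : ℝ) + 1) ^ (1 / ((1 / 2 - 2 * η) / (1 + η))) ≤ T :=
    (le_max_left _ _).trans ((le_max_right _ _).trans hT)
  have hTL : Real.exp L ≤ T := (le_max_right _ _).trans ((le_max_right _ _).trans hT)
  have hT0 : 0 < T := by linarith
  have hT1 : 1 ≤ T := by linarith
  have hlT : L ≤ Real.log T := (Real.le_log_iff_exp_le hT0).2 hTL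
  have hlT1 : 1 ≤ Real.log T := hL1.trans hlT
  have hlT0 : 0 < Real.log T := by linarith
  have hlw : 0 < Real.log w := Real.log_pos (by exact_mod_cast hw2)
  -- the parameters
  have hD1 : 1 < DT η T := by
    unfold DT
    exact Real.one_lt_rpow (by linarith) he1
  have hlD : Real.log (DT η T) = (1 / 2 - 2 * η) * Real.log T := by
    unfold DT
    rw [Real.log_rpow hT0]
  have hlz : Real.log (zT η T) = (1 / 2 - 2 * η) / (1 + η) * Real.log T := by
    unfold zT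
    rw [Real.log_rpow hT0]
  have hzw : (w : ℝ) + 1 ≤ zT η T := by
    unfold zT
    calc (w : ℝ) + 1 = (((w : ℝ) + 1) ^ (1 / ((1 / 2 - 2 * η) / (1 + η)))) ^ ((1 / 2 - 2 * η) / (1 + η)) := by
          rw [← Real.rpow_mul (by positivity), one_div_mul_cancel he2.ne', Real.rpow_one]
      _ ≤ T ^ ((1 / 2 - 2 * η) / (1 + η)) := Real.rpow_le_rpow (by positivity) hTz he2.le
  have hzD : zT η T ≤ DT η T := by
    unfold zT DT
    apply Real.rpow_le_rpow_of_exponent_le hT1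
    rw [div_le_iff₀ (by linarith)]
    nlinarith
  have hX0 : X₀ ≤ T ^ (η / 2) := by
    calc X₀ = (X₀ ^ (1 / (η / 2))) ^ (η / 2) := by
          rw [← Real.rpow_mul (by linarith), one_div_mul_cancel (by positivity), Real.rpow_one]
      _ ≤ T ^ (η / 2) := Real.rpow_le_rpow (by positivity) hTX (by positivity)
  have hX1 : 1 ≤ T ^ (η / 2) := Real.one_le_rpow hT1 (by positivity)
  have hXD : T ^ (η / 2) * DT η T = T ^ (1 / 2 - 3 / 2 * η) := by
    unfold DT
    rw [← Real.rpow_add hT0]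
    congr 1
    ring
  have hXD1 : T ^ (η / 2) * DT η T ≤ T ^ (1 / 2 - η) := by
    rw [hXD]
    exact Real.rpow_le_rpow_of_exponent_le hT1 (by linarith)
  have hXDT : T ^ (η / 2) * DT η T ≤ T := by
    refine hXD1.trans ?_
    calc T ^ (1 / 2 - η) ≤ T ^ (1 : ℝ) := Real.rpow_le_rpow_of_exponent_le hT1 (by linarith)
      _ = T := Real.rpow_one T
  -- the half-dimensional sieve
  have hPin : ∀ p ∈ Pin w (zT η T), p.Prime ∧ p % 4 = 3 ∧ (w : ℝ) + 1 ≤ p ∧ (p : ℝ) < zT η T := by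
    intro p hp
    unfold Pin at hp
    rw [mem_filter, mem_PI] at hp
    exact ⟨hp.1.1, hp.2, hp.1.2.1, hp.1.2.2⟩
  have hw1 : u₀ ≤ (w : ℝ) + 1 := by linarith
  have hw2' : (2 : ℝ) ≤ w := by exact_mod_cast hw2
  have hreg : RegH (fun p => 1 / ((p : ℝ) - 1)) (Pin w (zT η T)) K₁ ((w : ℝ) + 1) := by
    have := Hr ((w : ℝ) + 1) (Pin w (zT η T)) hw1 fun p hp => ⟨(hPin p hp).1, (hPin p hp).2.1, (hPin p hp).2.2.1⟩
    simpa using this
  have hg : ∀ p ∈ Pin w (zT η T), 0 ≤ (fun p : ℕ => 1 / ((p : ℝ) - 1)) p ∧ (fun p : ℕ => 1 / ((p : ℝ) - 1)) p < 1 := by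
    intro p hp
    have h1 := (hPin p hp).2.2.1
    have h2 : (1 : ℝ) < (p : ℝ) - 1 := by linarith
    refine ⟨by positivity, ?_⟩
    show 1 / ((p : ℝ) - 1) < 1
    rw [div_lt_one (by linarith)]
    exact h2
  have hG := Hs (fun p => 1 / ((p : ℝ) - 1)) (Pin w (zT η T)) ((w : ℝ) + 1) (zT η T) (DT η T) (by linarith) hzw hg
    (fun p hp => (hPin p hp).2.2) hreg (by
      rw [hlD, hlz]
      have : (1 + η) ≠ 0 := by linarith
      field_simp) hD1
  have hV := H1 w (zT η T) hw2 hzw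
  have hE := HX (T ^ (η / 2)) hX0
  have hlX : Real.log (T ^ (η / 2)) = η / 2 * Real.log T := Real.log_rpow hT0 _
  have hlz0 : 0 < Real.log (zT η T) := by
    rw [hlz]
    positivity
  have hlz2 : 2 * Real.log (zT η T) ≤ Real.log T := by
    rw [hlz]
    have : (1 / 2 - 2 * η) / (1 + η) ≤ 1 / 2 := by
      rw [div_le_iff₀ (by linarith)]
      nlinarith
    nlinarith
  -- the product
  have hprod : c1 * c2 / 2 * η ≤ (∑ e ∈ Es w (T ^ (η / 2)), 1 / (e.totient : ℝ)) *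
      GGh (fun p => 1 / ((p : ℝ) - 1)) θ false (DT η T) (Pin w (zT η T)) := by
    have h1 : √η / 2 * (c1 * √(Real.log w / Real.log (zT η T))) ≤
        GGh (fun p => 1 / ((p : ℝ) - 1)) θ false (DT η T) (Pin w (zT η T)) :=
      (mul_le_mul_of_nonneg_left hV (by positivity)).trans hG
    have h2 : c2 * √(η / 2 * Real.log T / Real.log w) ≤ ∑ e ∈ Es w (T ^ (η / 2)), 1 / (e.totient : ℝ) := by
      rw [hlX] at hE
      exact hE
    have h3 := mul_le_mul h2 h1 (by positivity) ((by positivity : (0 : ℝ) ≤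
      c2 * √(η / 2 * Real.log T / Real.log w)).trans h2)
    refine le_trans ?_ h3
    have h4 : √(η / 2 * Real.log T / Real.log w) * √(Real.log w / Real.log (zT η T)) =
        √(η / 2 * (Real.log T / Real.log (zT η T))) := by
      rw [← Real.sqrt_mul (by positivity)]
      congr 1
      field_simp
    have h5 : √η ≤ √(η / 2 * (Real.log T / Real.log (zT η T))) := by
      apply Real.sqrt_le_sqrt
      have : 2 ≤ Real.log T / Real.log (zT η T) := by
        rw [le_div_iff₀ hlz0]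
        exact hlz2
      nlinarith
    have h6 : √η * √η = η := Real.mul_self_sqrt hη.le
    have h7 : 0 ≤ √η := Real.sqrt_nonneg η
    calc c1 * c2 / 2 * η = c1 * c2 / 2 * √η * √η := by rw [mul_assoc, h6]
      _ ≤ c1 * c2 / 2 * √η * √(η / 2 * (Real.log T / Real.log (zT η T))) := by
          apply mul_le_mul_of_nonneg_left h5
          positivity
      _ = c2 * √(η / 2 * Real.log T / Real.log w) * (√η / 2 * (c1 * √(Real.log w / Real.log (zT η T)))) := by
          rw [← h4]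
          ring
  -- the error
  have herr : ∑ d ∈ (Icc 1 ⌊T ^ (η / 2) * DT η T⌋₊).filter (fun d => Squarefree d ∧ d.Coprime (4 * W)),
      EB k T (4 * W * d) ≤ C * T / Real.log T ^ 2 := by
    have := Hb T ⌊T ^ (η / 2) * DT η T⌋₊ hT3 ((Nat.floor_le (by positivity)).trans hXD1)
    simpa using this
  have hlow := FDlow hok k T (T ^ (η / 2)) (DT η T) (zT η T) θ hT1 hTw hθ.le hX1 hD1 hzD hXDT
  refine le_trans ?_ hlow
  have hXM := HY T hTY
  have hXM0 : 0 < XM k T := lt_of_lt_of_le (by positivity) hXM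
  have hq0 : 0 < XM k T / (4 * W).totient := by positivity
  -- `C T / log ^ 2 ≤ (c1 c2 / 4) η XM / φ`
  have herr2 : C * T / Real.log T ^ 2 ≤ c1 * c2 / 4 * η * (XM k T / (4 * W).totient) := by
    have h1 : c1 * c2 / 4 * η * (c3 * T / (4 * W).totient) ≤ c1 * c2 / 4 * η * (XM k T / (4 * W).totient) := by
      apply mul_le_mul_of_nonneg_left _ (by positivity)
      gcongr
    refine le_trans ?_ h1
    rw [div_le_iff₀ (by positivity)]
    have h2 : C * (4 * W).totient / (c1 * c2 / 4 * η * c3) ≤ Real.log T := by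
      have : L - 1 ≤ Real.log T := by linarith
      rw [hL] at this
      linarith
    have h3 : Real.log T ≤ Real.log T ^ 2 := by nlinarith
    have h4 : C * (4 * W).totient / (c1 * c2 / 4 * η * c3) ≤ Real.log T ^ 2 := h2.trans h3
    rw [div_le_iff₀ (by positivity)] at h4
    have h5 : C * (4 * W).totient * T ≤ Real.log T ^ 2 * (c1 * c2 / 4 * η * c3) * T :=
      mul_le_mul_of_nonneg_right h4 hT0.le
    have e : c1 * c2 / 4 * η * (c3 * T / (4 * W).totient) * Real.log T ^ 2 =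
        Real.log T ^ 2 * (c1 * c2 / 4 * η * c3) * T / (4 * W).totient := by
      field_simp
    rw [e, le_div_iff₀ hφ]
    linarith
  have hmain := mul_le_mul_of_nonneg_left hprod hq0.le
  have e1 : XM k T / (4 * W).totient * ((∑ e ∈ Es w (T ^ (η / 2)), 1 / (e.totient : ℝ)) *
      GGh (fun p => 1 / ((p : ℝ) - 1)) θ false (DT η T) (Pin w (zT η T))) =
      XM k T / (4 * W).totient * (∑ e ∈ Es w (T ^ (η / 2)), 1 / (e.totient : ℝ)) *
      GGh (fun p => 1 / ((p : ℝ) - 1)) θ false (DT η T) (Pin w (zT η T)) := by ring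
  rw [e1] at hmain
  have e2 : XM k T / (4 * W).totient * (c1 * c2 / 2 * η) = c1 * c2 / 4 * η * (XM k T / (4 * W).totient) +
      c1 * c2 / 4 * η * (XM k T / (4 * W).totient) := by ring
  rw [e2] at hmain
  linarith

end Pool.Agent.W33f
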