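import Pool.Agent.W_d33b62f_h37.FD2c
import Pool.Agent.W_d33b62_h36.HD2

/-!
# MP_d33b62_nt, full question, T8 (D): the lower bound sieve for the primes `q`
-/

set_option autoImplicit false

noncomputable section

open Finset

namespace Pool.Agent.W33f

open Pool.Agent.Wb58c63 (PI mem_PI VP below ap aw Pr XM Sd Er)
open Pool.Agent.Wd33b62 (lamHF GGh RegH EB)

private theorem mem_Pin {w : ℕ} {z : ℝ} {p : ℕ} (hp : p ∈ Pin w z) : p.Prime ∧ w < p ∧ (p : ℝ) < z ∧ p % 4 = 3 := by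
  unfold Pin at hp
  rw [Finset.mem_filter, mem_PI] at hp
  obtain ⟨⟨h1, h2, h3⟩, h4⟩ := hp
  exact ⟨h1, by exact_mod_cast (by linarith : (w : ℝ) < p), h3, h4⟩

private theorem mem_Es {w : ℕ} {X : ℝ} (hX : 0 ≤ X) {e : ℕ} (he : e ∈ Es w X) : 1 ≤ e ∧ (e : ℝ) ≤ X ∧ Squarefree e ∧
    ∀ p ∈ e.primeFactors, w < p ∧ p % 4 = 1 := by
  unfold Es at he
  rw [Finset.mem_filter, Finset.mem_Icc] at he
  exact ⟨he.1.1, (Nat.le_floor_iff hX).1 he.1.2, he.2.1, he.2.2⟩

private theorem EB_nonneg (k : ℕ) (T : ℝ) (d : ℕ) : 0 ≤ EB k T d := by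
  unfold EB
  positivity

private theorem prod_dvd_iff {S : Finset ℕ} (hS : ∀ p ∈ S, p.Prime) (m : ℕ) : (∏ p ∈ S, p) ∣ m ↔ ∀ p ∈ S, p ∣ m := by
  constructor
  · intro h p hp
    exact (Finset.dvd_prod_of_mem _ hp).trans h
  · intro h
    exact Finset.prod_primes_dvd m (fun p hp => (hS p hp).prime) h

private theorem coprime_eS {w : ℕ} {z X : ℝ} (hX : 0 ≤ X) {e : ℕ} (he : e ∈ Es w X) {S : Finset ℕ} (hS : S ⊆ Pin w z) :
    e.Coprime (∏ p ∈ S, p) := by
  refine Nat.Coprime.prod_right fun p hp => ?_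
  have h1 := mem_Pin (hS hp)
  refine (Nat.Prime.coprime_iff_not_dvd h1.1).2 (fun h => ?_) |>.symm
  have h2 := (mem_Es hX he).2.2.2 p (Nat.mem_primeFactors.2 ⟨h1.1, h, by have := (mem_Es hX he).1; omega⟩)
  omega

private theorem sf_prod {S : Finset ℕ} (hS : ∀ p ∈ S, p.Prime) : Squarefree (∏ p ∈ S, p) := by
  classical
  induction S using Finset.induction_on with
  | empty => simp
  | insert p S hp ih =>
    rw [Finset.prod_insert hp]
    have h1 := ih fun q hq => hS q (Finset.mem_insert_of_mem hq)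
    have h2 := hS p (Finset.mem_insert_self _ _)
    rw [Nat.squarefree_mul]
    · exact ⟨h2.squarefree, h1⟩
    · refine Nat.Coprime.prod_right fun q hq => ?_
      refine (Nat.coprime_primes h2 (hS q (Finset.mem_insert_of_mem hq))).2 ?_
      rintro rfl
      exact hp hq

private theorem primeFactors_prod' {S : Finset ℕ} (hS : ∀ p ∈ S, p.Prime) : (∏ p ∈ S, p).primeFactors = S := by
  exact Nat.primeFactors_prod hS

/-- the number `d = e ∏ S` -/
private theorem dS {w W a₀ E al : ℕ} (h : FDok w W a₀ E al) {z X D : ℝ} (hX : 1 ≤ X) (hD : 1 < D) {e : ℕ} (he : e ∈ Es w X)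
    {S : Finset ℕ} (hS : S ⊆ Pin w z) (hSD : ((∏ p ∈ S, p : ℕ) : ℝ) < D) :
    e * ∏ p ∈ S, p ∈ (Icc 1 ⌊X * D⌋₊).filter (fun d => Squarefree d ∧ d.Coprime (4 * W)) ∧
      (∀ p : ℕ, p.Prime → p ∣ e * ∏ p ∈ S, p → w < p) ∧
      ((4 * W * (e * ∏ p ∈ S, p)).totient : ℝ) = (4 * W).totient * (e.totient * ∏ p ∈ S, ((p : ℝ) - 1)) := by
  have hX0 : 0 ≤ X := by linarith
  have hPr : ∀ p ∈ S, p.Prime := fun p hp => (mem_Pin (hS hp)).1
  obtain ⟨e1, e2, e3, e4⟩ := mem_Es hX0 he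
  have hcop := coprime_eS hX0 he hS
  have hdw : ∀ p : ℕ, p.Prime → p ∣ e * ∏ p ∈ S, p → w < p := by
    intro p hp hpd
    rcases (Nat.Prime.dvd_mul hp).1 hpd with h1 | h1
    · exact (e4 p (Nat.mem_primeFactors.2 ⟨hp, h1, by omega⟩)).1
    · have h2 : p ∈ (∏ p ∈ S, p).primeFactors :=
        Nat.mem_primeFactors.2 ⟨hp, h1, (Finset.prod_pos fun p hp => (hPr p hp).pos).ne'⟩
      rw [primeFactors_prod' hPr] at h2
      exact (mem_Pin (hS h2)).2.1
  have hcop4 : (e * ∏ p ∈ S, p).Coprime (4 * W) := by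
    rw [Nat.coprime_iff_gcd_eq_one]
    by_contra hne
    obtain ⟨p, hp, hpd⟩ := Nat.exists_prime_and_dvd hne
    have h1 := hdw p hp (hpd.trans (Nat.gcd_dvd_left _ _))
    have h2 := hpd.trans (Nat.gcd_dvd_right _ _)
    rcases (Nat.Prime.dvd_mul hp).1 h2 with h3 | h3
    · have h4 : p ∣ 2 := hp.dvd_of_dvd_pow (show p ∣ 2 ^ 2 by simpa using h3)
      have := Nat.le_of_dvd (by norm_num) h4
      have := h.a05
      have := h.a0w
      omega
    · have := (h.wok.1 p hp).1 h3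
      omega
  have hpos : 0 < ∏ p ∈ S, p := Finset.prod_pos fun p hp => (hPr p hp).pos
  refine ⟨?_, hdw, ?_⟩
  · rw [Finset.mem_filter, Finset.mem_Icc]
    refine ⟨⟨Nat.mul_pos e1 hpos, ?_⟩, ?_, hcop4⟩
    · rw [Nat.le_floor_iff (by positivity)]
      push_cast at hSD ⊢
      exact mul_le_mul e2 hSD.le (Finset.prod_nonneg fun p _ => Nat.cast_nonneg p) hX0
    · rw [Nat.squarefree_mul hcop]
      exact ⟨e3, sf_prod hPr⟩
  · rw [Nat.totient_mul hcop4.symm, Nat.totient_mul hcop, Nat.cast_mul, Nat.cast_mul,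
      Pool.Agent.Wb58c63.ArA_totient_prod S hPr]

/-- The inner sum for one `e` and one `S`. -/
private theorem inner {w W a₀ E al : ℕ} (h : FDok w W a₀ E al) (k : ℕ) {T X D z : ℝ} (hT : 1 ≤ T) (hwT : (w : ℝ) ≤ T)
    (hX : 1 ≤ X) (hD : 1 < D) (hXD : X * D ≤ T) {e : ℕ} (he : e ∈ Es w X)
    {S : Finset ℕ} (hS : S ⊆ Pin w z) (hSD : ((∏ p ∈ S, p : ℕ) : ℝ) < D) :
    |∑ q ∈ (Pr T).filter (fun q => q ≡ al [MOD 4 * W] ∧ e ∣ mq a₀ E q ∧ ∀ p ∈ S, p ∣ mq a₀ E q), ap k T q -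
      XM k T / (4 * W).totient * (1 / (e.totient : ℝ)) * ∏ p ∈ S, (1 / ((p : ℝ) - 1))| ≤
      EB k T (4 * W * (e * ∏ p ∈ S, p)) := by
  have hX0 : 0 ≤ X := by linarith
  have hPr : ∀ p ∈ S, p.Prime := fun p hp => (mem_Pin (hS hp)).1
  obtain ⟨d1, d2, d3⟩ := dS h hX hD he hS hSD
  rw [Finset.mem_filter, Finset.mem_Icc, Nat.le_floor_iff (by positivity)] at d1
  obtain ⟨N, hN, hN1⟩ := FDcls h (e * ∏ p ∈ S, p) (by omega) d2
  have e1 : (Pr T).filter (fun q => q ≡ al [MOD 4 * W] ∧ e ∣ mq a₀ E q ∧ ∀ p ∈ S, p ∣ mq a₀ E q) =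
      (Pr T).filter (fun q => q ≡ N [MOD 4 * W * (e * ∏ p ∈ S, p)]) := by
    refine Finset.filter_congr fun q _ => ?_
    rw [← hN1 q]
    refine and_congr_right fun _ => ?_
    rw [← prod_dvd_iff hPr]
    constructor
    · rintro ⟨h1, h2⟩
      exact (coprime_eS hX0 he hS).mul_dvd_of_dvd_of_dvd h1 h2
    · intro h1
      exact ⟨(dvd_mul_right _ _).trans h1, (dvd_mul_left _ _).trans h1⟩
  have e2 : XM k T / (4 * W).totient * (1 / (e.totient : ℝ)) * ∏ p ∈ S, (1 / ((p : ℝ) - 1)) =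
      XM k T / ((4 * W * (e * ∏ p ∈ S, p)).totient : ℝ) := by
    rw [d3, Finset.prod_div_distrib, Finset.prod_const_one]
    rw [div_mul_div_comm, div_mul_div_comm, mul_one, mul_one, mul_assoc]
  rw [e1, e2]
  have hW0 : 0 < 4 * W := by
    rcases Nat.eq_zero_or_pos W with h0 | h0
    · exact absurd (h0 ▸ dvd_zero 16) h.wok.2.2
    · omega
  refine Pool.Agent.Wd33b62.Er_le_EB k T hT _ N (Nat.mul_pos hW0 d1.1.1) ?_ hN
  intro p hp hpd
  rcases (Nat.Prime.dvd_mul hp).1 hpd with h1 | h1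
  · have hpw : p ≤ w := by
      rcases (Nat.Prime.dvd_mul hp).1 h1 with h3 | h3
      · have h4 : p ∣ 2 := hp.dvd_of_dvd_pow (show p ∣ 2 ^ 2 by simpa using h3)
        have := Nat.le_of_dvd (by norm_num) h4
        have := h.a05
        have := h.a0w
        omega
      · exact (h.wok.1 p hp).1 h3
    exact le_trans (by exact_mod_cast hpw) hwT
  · have h2 : (p : ℝ) ≤ (e * ∏ p ∈ S, p : ℕ) := by exact_mod_cast Nat.le_of_dvd d1.1.1 h1
    exact h2.trans (d1.1.2.trans hXD)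

/-- **The sieve inequality summed over `e`.**

Proof. `1[no p ∈ Pin divides m] ≥ ∑_{S ⊆ Pin, ∏ S ∣ m} lamHF θ false D S` (`sieve_ineqH` for the set of the `p ∈ Pin` which divide `m`;
compare `HasExp`-free use: `∑ S ∈ (Pin.filter (· ∣ m)).powerset`). For `e ∈ Es`, `S ⊆ Pin` with nonzero coefficient `∏ S < D`
(`lamHF_false_support`, `z ≤ D`); `e` and `∏ S` are coprime, `d = e ∏ S ≤ X D` is squarefree, coprime to `4 W`, and determines `(e, S)`
(primes `≡ 1` and `≡ 3` mod `4`). `FDcls`, `Sd = XM / φ(4 W d) + Er`, `|Er| ≤ EB k T (4 W d)` (`Er_le_EB`; the primes of `4 W d` are `≤ T`),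
`φ(4 W d) = φ(4 W) φ(e) ∏_{p ∈ S} (p - 1)`, `|lamHF| ≤ 1`. -/
theorem FDlow {w W a₀ E al : ℕ} (h : FDok w W a₀ E al) (k : ℕ) (T X D z θ : ℝ) (hT : 1 ≤ T) (hwT : (w : ℝ) ≤ T)
    (hθ : 0 ≤ θ) (hX : 1 ≤ X) (hD : 1 < D) (hz : z ≤ D) (hXD : X * D ≤ T) :
    XM k T / (4 * W).totient * (∑ e ∈ Es w X, 1 / (e.totient : ℝ)) *
        GGh (fun p => 1 / ((p : ℝ) - 1)) θ false D (Pin w z) -
        ∑ d ∈ (Icc 1 ⌊X * D⌋₊).filter (fun d => Squarefree d ∧ d.Coprime (4 * W)), EB k T (4 * W * d) ≤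
      ∑ e ∈ Es w X, ∑ q ∈ (Pr T).filter (fun q => q ≡ al [MOD 4 * W] ∧ e ∣ mq a₀ E q ∧
        ∀ p ∈ Pin w z, ¬ p ∣ mq a₀ E q), ap k T q := by
  classical
  have hX0 : 0 ≤ X := by linarith
  -- the sieve inequality for one `e`
  have h1 : ∀ e ∈ Es w X, ∑ S ∈ (Pin w z).powerset, lamHF θ false D S *
      (∑ q ∈ (Pr T).filter (fun q => q ≡ al [MOD 4 * W] ∧ e ∣ mq a₀ E q ∧ ∀ p ∈ S, p ∣ mq a₀ E q), ap k T q) ≤
      ∑ q ∈ (Pr T).filter (fun q => q ≡ al [MOD 4 * W] ∧ e ∣ mq a₀ E q ∧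
        ∀ p ∈ Pin w z, ¬ p ∣ mq a₀ E q), ap k T q := by
    intro e _
    have e1 : ∑ q ∈ (Pr T).filter (fun q => q ≡ al [MOD 4 * W] ∧ e ∣ mq a₀ E q ∧
        ∀ p ∈ Pin w z, ¬ p ∣ mq a₀ E q), ap k T q =
        ∑ q ∈ (Pr T).filter (fun q => q ≡ al [MOD 4 * W] ∧ e ∣ mq a₀ E q),
          ap k T q * (if (Pin w z).filter (fun p => p ∣ mq a₀ E q) = ∅ then (1 : ℝ) else 0) := by
      rw [Finset.sum_filter, Finset.sum_filter]
      refine Finset.sum_congr rfl fun q _ => ?_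
      have e2 : ((Pin w z).filter (fun p => p ∣ mq a₀ E q) = ∅) ↔ ∀ p ∈ Pin w z, ¬ p ∣ mq a₀ E q := by
        rw [Finset.filter_eq_empty_iff]
      by_cases hq : q ≡ al [MOD 4 * W] ∧ e ∣ mq a₀ E q
      · rw [if_pos hq]
        by_cases hq2 : ∀ p ∈ Pin w z, ¬ p ∣ mq a₀ E q
        · rw [if_pos ⟨hq.1, hq.2, hq2⟩, if_pos (e2.2 hq2), mul_one]
        · rw [if_neg (fun h => hq2 h.2.2), if_neg (fun h => hq2 (e2.1 h)), mul_zero]
      · rw [if_neg hq, if_neg (fun h => hq ⟨h.1, h.2.1⟩)]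
    have e3 : ∑ S ∈ (Pin w z).powerset, lamHF θ false D S *
        (∑ q ∈ (Pr T).filter (fun q => q ≡ al [MOD 4 * W] ∧ e ∣ mq a₀ E q ∧ ∀ p ∈ S, p ∣ mq a₀ E q), ap k T q) =
        ∑ q ∈ (Pr T).filter (fun q => q ≡ al [MOD 4 * W] ∧ e ∣ mq a₀ E q),
          ap k T q * ∑ S ∈ ((Pin w z).filter (fun p => p ∣ mq a₀ E q)).powerset, lamHF θ false D S := by
      calc ∑ S ∈ (Pin w z).powerset, lamHF θ false D S *
          (∑ q ∈ (Pr T).filter (fun q => q ≡ al [MOD 4 * W] ∧ e ∣ mq a₀ E q ∧ ∀ p ∈ S, p ∣ mq a₀ E q), ap k T q) =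
          ∑ S ∈ (Pin w z).powerset, ∑ q ∈ (Pr T).filter (fun q => q ≡ al [MOD 4 * W] ∧ e ∣ mq a₀ E q),
            (if ∀ p ∈ S, p ∣ mq a₀ E q then ap k T q * lamHF θ false D S else 0) := by
            refine Finset.sum_congr rfl fun S _ => ?_
            rw [← Finset.sum_filter, Finset.filter_filter, Finset.mul_sum]
            refine Finset.sum_congr ?_ fun q _ => mul_comm _ _
            refine Finset.filter_congr fun q _ => ?_
            tauto
        _ = ∑ q ∈ (Pr T).filter (fun q => q ≡ al [MOD 4 * W] ∧ e ∣ mq a₀ E q), ∑ S ∈ (Pin w z).powerset,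
            (if ∀ p ∈ S, p ∣ mq a₀ E q then ap k T q * lamHF θ false D S else 0) := Finset.sum_comm
        _ = _ := by
            refine Finset.sum_congr rfl fun q _ => ?_
            rw [← Finset.sum_filter, Finset.mul_sum]
            refine Finset.sum_congr ?_ fun _ _ => rfl
            ext S
            rw [Finset.mem_filter, Finset.mem_powerset, Finset.mem_powerset]
            constructor
            · rintro ⟨a, b⟩ p hp
              exact Finset.mem_filter.2 ⟨a hp, b p hp⟩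
            · intro a
              exact ⟨fun p hp => (Finset.mem_filter.1 (a hp)).1, fun p hp => (Finset.mem_filter.1 (a hp)).2⟩
    rw [e1, e3]
    refine Finset.sum_le_sum fun q _ => ?_
    exact mul_le_mul_of_nonneg_left (Pool.Agent.Wd33b62.sieve_ineqH θ _ D).2
      (Pool.Agent.Wb58c63.ap_nonneg k T hT q)
  refine le_trans ?_ (Finset.sum_le_sum h1)
  -- the single terms
  have h2 : ∀ e ∈ Es w X, ∀ S ∈ (Pin w z).powerset,
      lamHF θ false D S * (XM k T / (4 * W).totient * (1 / (e.totient : ℝ)) * ∏ p ∈ S, (1 / ((p : ℝ) - 1))) -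
        (if ((∏ p ∈ S, p : ℕ) : ℝ) < D then EB k T (4 * W * (e * ∏ p ∈ S, p)) else 0) ≤
      lamHF θ false D S *
      (∑ q ∈ (Pr T).filter (fun q => q ≡ al [MOD 4 * W] ∧ e ∣ mq a₀ E q ∧ ∀ p ∈ S, p ∣ mq a₀ E q), ap k T q) := by
    intro e he S hS
    rw [Finset.mem_powerset] at hS
    by_cases hSD : ((∏ p ∈ S, p : ℕ) : ℝ) < D
    · rw [if_pos hSD]
      have h3 := inner h k hT hwT hX hD hXD he hS hSD
      have h4 := Pool.Agent.Wd33b62.abs_lamHF_le θ false D S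
      have h5 := abs_mul (lamHF θ false D S) (∑ q ∈ (Pr T).filter (fun q => q ≡ al [MOD 4 * W] ∧ e ∣ mq a₀ E q ∧
        ∀ p ∈ S, p ∣ mq a₀ E q), ap k T q -
          XM k T / (4 * W).totient * (1 / (e.totient : ℝ)) * ∏ p ∈ S, (1 / ((p : ℝ) - 1)))
      have h6 := mul_le_mul h4 h3 (abs_nonneg _) zero_le_one
      rw [← h5, one_mul] at h6
      have h7 := neg_le_of_abs_le h6
      linarith
    · rw [if_neg hSD]
      have h3 : lamHF θ false D S = 0 := by
        by_contra hne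
        exact hSD (Pool.Agent.Wd33b62.lamHF_false_support θ hθ D hD S (fun p hp => (mem_Pin (hS hp)).1.one_lt.le)
          (fun p hp => (mem_Pin (hS hp)).2.2.1.trans_le hz) hne)
      rw [h3]
      simp
  refine le_trans ?_ (Finset.sum_le_sum fun e he => Finset.sum_le_sum (h2 e he))
  simp only [Finset.sum_sub_distrib]
  refine sub_le_sub (le_of_eq ?_) ?_
  · unfold GGh
    rw [Finset.mul_sum, Finset.sum_comm]
    refine Finset.sum_congr rfl fun S _ => ?_
    rw [Finset.mul_sum, Finset.sum_mul]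
    refine Finset.sum_congr rfl fun e _ => ?_
    ring
  · rw [← Finset.sum_product']
    rw [← Finset.sum_filter]
    have hinj : Set.InjOn (fun x : ℕ × Finset ℕ => x.1 * ∏ p ∈ x.2, p)
        (((Es w X ×ˢ (Pin w z).powerset).filter fun x => ((∏ p ∈ x.2, p : ℕ) : ℝ) < D : Finset (ℕ × Finset ℕ)) :
          Set (ℕ × Finset ℕ)) := by
      rintro ⟨e, S⟩ hx ⟨e', S'⟩ hx' hEq
      rw [Finset.mem_coe, Finset.mem_filter, Finset.mem_product, Finset.mem_powerset] at hx hx'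
      dsimp only at hx hx' hEq
      have key : ∀ (e : ℕ) (S : Finset ℕ), e ∈ Es w X → S ⊆ Pin w z →
          (e * ∏ p ∈ S, p).primeFactors.filter (fun p => p % 4 = 3) = S := by
        intro e S he hS
        have hPr : ∀ p ∈ S, p.Prime := fun p hp => (mem_Pin (hS hp)).1
        have hpos : (∏ p ∈ S, p) ≠ 0 := (Finset.prod_pos fun p hp => (hPr p hp).pos).ne'
        have he1 := (mem_Es hX0 he).1
        rw [Nat.primeFactors_mul (by omega) hpos, primeFactors_prod' hPr, Finset.filter_union]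
        have h8 : e.primeFactors.filter (fun p => p % 4 = 3) = ∅ := by
          rw [Finset.filter_eq_empty_iff]
          intro p hp
          have := ((mem_Es hX0 he).2.2.2 p hp).2
          omega
        have h9 : S.filter (fun p => p % 4 = 3) = S := by
          rw [Finset.filter_true_of_mem]
          intro p hp
          exact (mem_Pin (hS hp)).2.2.2
        rw [h8, h9, Finset.empty_union]
      have hSS : S = S' := by
        rw [← key e S hx.1.1 hx.1.2, ← key e' S' hx'.1.1 hx'.1.2, hEq]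
      subst hSS
      have hPr : ∀ p ∈ S, p.Prime := fun p hp => (mem_Pin (hx.1.2 hp)).1
      have hpos : 0 < (∏ p ∈ S, p) := Finset.prod_pos fun p hp => (hPr p hp).pos
      have := Nat.eq_of_mul_eq_mul_right hpos hEq
      rw [this]
    rw [← Finset.sum_image (f := fun d => EB k T (4 * W * d)) hinj]
    refine Finset.sum_le_sum_of_subset_of_nonneg ?_ fun d _ _ => EB_nonneg _ _ _
    intro d hd
    rw [Finset.mem_image] at hd
    obtain ⟨⟨e, S⟩, hx, rfl⟩ := hd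
    rw [Finset.mem_filter, Finset.mem_product, Finset.mem_powerset] at hx
    exact (dS h hX hD hx.1.1 hx.1.2 hx.2).1

end Pool.Agent.W33f
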