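import Pool.Agent.W_d33b62f_h37.FDd

/-!
# MP_d33b62_nt, full question, T8 (D): the lower bound sieve for the primes `q`
-/

set_option autoImplicit false

noncomputable section

open Finset

namespace Pool.Agent.W33f

open Pool.Agent.Wb58c63 (PI mem_PI VP below ap aw Pr XM Sd Er)
open Pool.Agent.Wd33b62 (lamHF GGh RegH EB)

/-- For `q ≡ al mod 4 W`: `q + a₀ = 2 E m`, `m` coprime to `W`, `m ≡ 1 mod 4`. -/
theorem FDm {w W a₀ E al : ℕ} (h : FDok w W a₀ E al) (q : ℕ) (hq : q ≡ al [MOD 4 * W]) :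
    q + a₀ = 2 * E * mq a₀ E q ∧ (mq a₀ E q).Coprime W ∧ mq a₀ E q % 4 = 1 := by
  obtain ⟨m₀, hm₀, hal⟩ := h.m0
  obtain ⟨W', hW'⟩ := h.EW
  have hE0 : E ≠ 0 := h.E0
  have h1 : q + a₀ ≡ 2 * E * m₀ [MOD 4 * W] := (Nat.ModEq.add_right a₀ hq).trans hal
  have hW4 : 4 * W = 2 * E * (2 * W') := by rw [hW']; ring
  have hdv : 2 * E ∣ q + a₀ := by
    have h2 : 2 * E ∣ 4 * W := ⟨2 * W', hW4⟩
    have h3 := h1.of_dvd h2
    have h4 : 2 * E * m₀ ≡ 0 [MOD 2 * E] := by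
      rw [Nat.modEq_zero_iff_dvd]
      exact Dvd.intro _ rfl
    exact (Nat.modEq_zero_iff_dvd).1 (h3.trans h4)
  have hm : q + a₀ = 2 * E * mq a₀ E q := (Nat.mul_div_cancel' hdv).symm
  have h2E : 2 * E ≠ 0 := by positivity
  have h5 : mq a₀ E q ≡ m₀ [MOD 2 * W'] := by
    rw [hm, hW4] at h1
    exact Nat.ModEq.mul_left_cancel' h2E h1
  refine ⟨hm, ?_, ?_⟩
  · refine Nat.coprime_of_dvd fun p hp hpm hpW => ?_
    have hpW' : p ∣ W' := by
      by_cases hpE : p ∣ E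
      · have h6 := h.EW2 p hp hpE
        rw [hW', mul_comm] at h6
        exact Nat.dvd_of_mul_dvd_mul_left (Nat.pos_of_ne_zero hE0) h6
      · rw [hW'] at hpW
        exact ((Nat.Prime.dvd_mul hp).1 hpW).resolve_left hpE
    have h7 : mq a₀ E q ≡ m₀ [MOD p] := h5.of_dvd (hpW'.mul_left 2)
    have h8 : p ∣ m₀ := (h7.dvd_iff dvd_rfl).1 hpm
    have h9 : p ∣ Nat.gcd m₀ W := Nat.dvd_gcd h8 hpW
    rw [hm₀] at h9
    exact hp.one_lt.ne' (Nat.dvd_one.1 h9)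
  · have h8W : 8 ∣ 4 * W := h.wok.2.1.mul_left 4
    have h10 : q + a₀ ≡ 2 [MOD 8] := (Nat.ModEq.add_right a₀ (hq.of_dvd h8W)).trans h.al2
    have hE4 := h.E4
    have h11 : 2 * (E * mq a₀ E q) ≡ 2 * 1 [MOD 2 * 4] := by
      rw [hm, mul_assoc] at h10
      exact h10
    have h12 : E * mq a₀ E q ≡ 1 [MOD 4] := Nat.ModEq.mul_left_cancel' two_ne_zero h11
    have h13 : E * mq a₀ E q ≡ 1 * mq a₀ E q [MOD 4] := Nat.ModEq.mul_right _ (show E % 4 = 1 % 4 from hE4)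
    have h14 : mq a₀ E q ≡ 1 [MOD 4] := by
      have := h13.symm.trans h12
      rwa [one_mul] at this
    exact h14

/-- `q ≡ al mod 4 W` and `d ∣ (q + a₀) / (2 E)` is one reduced class mod `4 W d` for `d` composed of primes `> w`
(`2 E ∣ q + a₀`; `q ≡ - a₀ mod d`; chinese remainder theorem). -/
theorem FDcls {w W a₀ E al : ℕ} (h : FDok w W a₀ E al) (d : ℕ) (hd0 : d ≠ 0) (hd : ∀ p : ℕ, p.Prime → p ∣ d → w < p) :
    ∃ N : ℕ, (4 * W * d).Coprime N ∧ ∀ q : ℕ, (q ≡ al [MOD 4 * W] ∧ d ∣ mq a₀ E q) ↔ q ≡ N [MOD 4 * W * d] := by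
  have h2W : 2 ∣ W := (Dvd.intro 4 rfl : 2 ∣ 8).trans h.wok.2.1
  have h4 : ∀ p : ℕ, p.Prime → p ∣ 4 * W → p ∣ W := by
    intro p hp hpd
    rcases (Nat.Prime.dvd_mul hp).1 hpd with h1 | h1
    · have h2 : p ∣ 2 ^ 2 := by norm_num; exact h1
      have h3 := (Nat.prime_dvd_prime_iff_eq hp Nat.prime_two).1 (hp.dvd_of_dvd_pow h2)
      rw [h3]
      exact h2W
    · exact h1
  have hco : Nat.Coprime (4 * W) d := by
    refine Nat.coprime_of_dvd fun p hp hpW hpd => ?_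
    have h1 := (h.wok.1 p hp).1 (h4 p hp hpW)
    have h2 := hd p hp hpd
    omega
  have hd1 : 1 ≤ d := Nat.one_le_iff_ne_zero.2 hd0
  obtain ⟨r, hr⟩ : ∃ r : ℕ, r = (d - 1) * a₀ := ⟨_, rfl⟩
  have hra : r + a₀ = d * a₀ := by
    rw [hr]
    obtain ⟨d', rfl⟩ := Nat.exists_eq_add_of_le hd1
    simp
    ring
  obtain ⟨N, hN1, hN2⟩ := Nat.chineseRemainder hco al r
  have hcoE : Nat.Coprime d (2 * E) := by
    refine Nat.Coprime.coprime_dvd_right ?_ hco.symm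
    obtain ⟨W', hW'⟩ := h.EW
    exact ⟨2 * W', by rw [hW']; ring⟩
  have hiff : ∀ q : ℕ, q ≡ al [MOD 4 * W] → (d ∣ mq a₀ E q ↔ q ≡ r [MOD d]) := by
    intro q hq
    have hm := (FDm h q hq).1
    have e1 : d ∣ mq a₀ E q ↔ d ∣ q + a₀ := by
      rw [hm]
      exact ⟨fun h1 => h1.mul_left _, fun h1 => hcoE.dvd_of_dvd_mul_left h1⟩
    rw [e1]
    constructor
    · intro h1
      have h2 : q + a₀ ≡ r + a₀ [MOD d] := by
        rw [hra]
        exact ((Nat.modEq_zero_iff_dvd).2 h1).trans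
          ((Nat.modEq_zero_iff_dvd).2 (Dvd.intro _ rfl)).symm
      exact Nat.ModEq.add_right_cancel' a₀ h2
    · intro h1
      have h2 := Nat.ModEq.add_right a₀ h1
      rw [hra] at h2
      exact (Nat.modEq_zero_iff_dvd).1 (h2.trans ((Nat.modEq_zero_iff_dvd).2 (Dvd.intro _ rfl)))
  refine ⟨N, ?_, fun q => ?_⟩
  · refine Nat.coprime_of_dvd fun p hp hpm hpN => ?_
    rcases (Nat.Prime.dvd_mul hp).1 hpm with h1 | h1
    · have h2 : p ∣ al := ((hN1.of_dvd h1).dvd_iff dvd_rfl).1 hpN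
      have h3 : p ∣ Nat.gcd al W := Nat.dvd_gcd h2 (h4 p hp h1)
      rw [h.al1] at h3
      exact hp.one_lt.ne' (Nat.dvd_one.1 h3)
    · have h2 : p ∣ r := ((hN2.of_dvd h1).dvd_iff dvd_rfl).1 hpN
      have h3 : p ∣ r + a₀ := by
        rw [hra]
        exact h1.mul_right _
      have h5 : p ∣ a₀ := (Nat.dvd_add_right h2).1 h3
      have h6 := (Nat.prime_dvd_prime_iff_eq hp h.a0p).1 h5
      have h7 := hd p hp h1
      have h8 := h.a0w
      omega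
  · rw [← Nat.modEq_and_modEq_iff_modEq_mul hco]
    constructor
    · rintro ⟨h1, h2⟩
      exact ⟨h1.trans hN1.symm, ((hiff q h1).1 h2).trans hN2.symm⟩
    · rintro ⟨h1, h2⟩
      have h3 := h1.trans hN1
      exact ⟨h3, (hiff q h3).2 (h2.trans hN2)⟩

end Pool.Agent.W33f
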