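import Pool.Agent.W_d33b62f_h37.FDd

/-!
# MP_d33b62_nt, full question, T8 (D): the sum over `e`
-/

set_option autoImplicit false

noncomputable section

open Finset

namespace Pool.Agent.W33f

open Pool.Agent.Wb58c63 (PI mem_PI VP below ap aw Pr XM Sd Er)

/-- Rankin's trick for the subsets of a finite set of primes. -/
theorem FD2e_rankin (P : Finset ℕ) (hP : ∀ p ∈ P, p.Prime) {δ X : ℝ} (hδ : 0 ≤ δ) (hX : 0 < X) :
    ∏ p ∈ P, (1 + 1 / (p : ℝ)) - X ^ (-δ) * ∏ p ∈ P, (1 + (p : ℝ) ^ δ / p) ≤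
      ∑ S ∈ P.powerset.filter (fun S => ((∏ p ∈ S, p : ℕ) : ℝ) ≤ X), ∏ p ∈ S, (1 / (p : ℝ)) := by
  rw [prod_one_add, prod_one_add, mul_sum, ← sum_sub_distrib, sum_filter]
  refine sum_le_sum fun S hS => ?_
  have hS' : ∀ p ∈ S, (0 : ℝ) < p := fun p hp => by
    exact_mod_cast (hP p (mem_powerset.1 hS hp)).pos
  have h0 : 0 ≤ ∏ p ∈ S, (1 / (p : ℝ)) := prod_nonneg fun p hp => by
    have := hS' p hp
    positivity
  have h1 : ∏ p ∈ S, ((p : ℝ) ^ δ / p) = ((∏ p ∈ S, p : ℕ) : ℝ) ^ δ * ∏ p ∈ S, (1 / (p : ℝ)) := by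
    rw [Nat.cast_prod, ← Real.finsetProd_rpow _ _ (fun p hp => (hS' p hp).le), ← prod_mul_distrib]
    exact prod_congr rfl fun p _ => by ring
  rw [h1]
  have h2 : 0 ≤ X ^ (-δ) := Real.rpow_nonneg hX.le _
  have h3 : 0 ≤ ((∏ p ∈ S, p : ℕ) : ℝ) ^ δ := Real.rpow_nonneg (Nat.cast_nonneg _) _
  split_ifs with h
  · have := mul_nonneg h2 (mul_nonneg h3 h0)
    linarith
  · push Not at h
    have h4 : 1 ≤ X ^ (-δ) * ((∏ p ∈ S, p : ℕ) : ℝ) ^ δ := by
      rw [Real.rpow_neg hX.le, ← div_eq_inv_mul, one_le_div (Real.rpow_pos_of_pos hX δ)]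
      exact Real.rpow_le_rpow hX.le h.le hδ
    have h5 := mul_le_mul_of_nonneg_right h4 h0
    linarith

/-- from subsets to numbers -/
theorem FD2e_sets (w : ℕ) (Y X : ℝ) :
    ∑ S ∈ ((PI ((w : ℝ) + 1) Y).filter (fun p => p % 4 = 1)).powerset.filter
        (fun S => ((∏ p ∈ S, p : ℕ) : ℝ) ≤ X), ∏ p ∈ S, (1 / (p : ℝ)) ≤
      ∑ e ∈ Es w X, 1 / (e.totient : ℝ) := by
  classical
  set P := (PI ((w : ℝ) + 1) Y).filter (fun p => p % 4 = 1) with hPdef
  have hP : ∀ p ∈ P, p.Prime ∧ w < p ∧ p % 4 = 1 := fun p hp => by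
    obtain ⟨h1, h2⟩ := mem_filter.1 hp
    obtain ⟨h3, h4, -⟩ := mem_PI.1 h1
    refine ⟨h3, ?_, h2⟩
    have : ((w + 1 : ℕ) : ℝ) ≤ p := by
      push_cast
      exact h4
    have : w + 1 ≤ p := by exact_mod_cast this
    omega
  set Q := P.powerset.filter (fun S => ((∏ p ∈ S, p : ℕ) : ℝ) ≤ X) with hQ
  have hprime : ∀ S ∈ Q, ∀ p ∈ S, p.Prime := fun S hS p hp =>
    (hP p (mem_powerset.1 (mem_filter.1 hS).1 hp)).1
  have hinj : Set.InjOn (fun S : Finset ℕ => ∏ p ∈ S, p) (Q : Set (Finset ℕ)) := by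
    intro S hS T hT h
    have h1 := Nat.primeFactors_prod (hprime S hS)
    have h2 := Nat.primeFactors_prod (hprime T hT)
    simp only at h
    rw [← h1, ← h2, h]
  have himg : Q.image (fun S : Finset ℕ => ∏ p ∈ S, p) ⊆ Es w X := by
    intro e he
    obtain ⟨S, hS, rfl⟩ := mem_image.1 he
    have hSP := mem_powerset.1 (mem_filter.1 hS).1
    have hpr := hprime S hS
    unfold Es
    rw [mem_filter, mem_Icc]
    refine ⟨⟨?_, ?_⟩, ?_, ?_⟩
    · exact Nat.one_le_iff_ne_zero.2 (prod_ne_zero_iff.2 fun p hp => (hpr p hp).ne_zero)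
    · exact Nat.le_floor (mem_filter.1 hS).2
    · refine Finset.squarefree_prod_of_pairwise_isCoprime (fun p hp q hq hpq => ?_)
        (fun p hp => (hpr p hp).squarefree)
      exact Nat.coprime_iff_isRelPrime.1 ((Nat.coprime_primes (hpr p hp) (hpr q hq)).2 hpq)
    · intro p hp
      rw [Nat.primeFactors_prod hpr] at hp
      exact (hP p (hSP hp)).2
  calc ∑ S ∈ Q, ∏ p ∈ S, (1 / (p : ℝ)) ≤ ∑ S ∈ Q, 1 / (((∏ p ∈ S, p).totient : ℕ) : ℝ) := by
        refine sum_le_sum fun S hS => ?_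
        have hpos : 0 < ∏ p ∈ S, p := prod_pos fun p hp => (hprime S hS p hp).pos
        have h1 : ∏ p ∈ S, (1 / (p : ℝ)) = 1 / ((∏ p ∈ S, p : ℕ) : ℝ) := by
          rw [prod_div_distrib, prod_const_one, Nat.cast_prod]
        rw [h1]
        apply one_div_le_one_div_of_le
        · exact_mod_cast Nat.totient_pos.2 hpos
        · exact_mod_cast Nat.totient_le _
    _ = ∑ e ∈ Q.image (fun S : Finset ℕ => ∏ p ∈ S, p), 1 / (e.totient : ℝ) := by
        rw [sum_image hinj]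
    _ ≤ _ := sum_le_sum_of_subset_of_nonneg himg fun e _ _ => by positivity

/-- **Lower bound for the sum over `e`.**

Proof. `φ(e) ≤ e`. With an absolute `s ≥ 1` and `P = X ^ (1 / s)`: the sum of `1 / e` over all squarefree `e` composed of primes `≡ 1 mod 4` of
`(w, P]` is `∏ (1 + 1 / p)`; the part with `e > X = P ^ s` is at most `∑ (1 / e) (e / P ^ s) ^ (1 / log P) = exp (-s) ∏ (1 + p ^ (1 / log P) / p)`
and `p ^ (1 / log P) ≤ 1 + 2 log p / log P` for `p ≤ P`, `∑_{p ≤ P} log p / p ≤ log P + C`, so this is `≤ exp (C' - s) ∏ (1 + 1 / p)`. Take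
`s` with `exp (C' - s) ≤ 1 / 2`. Then `mertens_split` / `PQ_split`. -/
theorem Es_sum : ∃ c : ℝ, 0 < c ∧ ∀ w : ℕ, 2 ≤ w → ∃ X₀ : ℝ, 2 ≤ X₀ ∧ ∀ X : ℝ, X₀ ≤ X →
    c * √(Real.log X / Real.log w) ≤ ∑ e ∈ Es w X, 1 / (e.totient : ℝ) := by
  obtain ⟨C₁, hC₁, hM⟩ := Pool.Agent.Wb58c63.mertens_one
  obtain ⟨c₀, C₀, hc₀, hC₀, hPQ⟩ := Pool.Agent.Wd33b62.PQ_split
  have hl2 : 0 < Real.log 2 := Real.log_pos (by norm_num)
  obtain ⟨s, hs⟩ : ∃ s, s = 2 + 2 * C₁ / Real.log 2 + Real.log 2 := ⟨_, rfl⟩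
  have hs2 : 2 ≤ s := by
    have : 0 ≤ 2 * C₁ / Real.log 2 := by positivity
    rw [hs]
    linarith
  have hs0 : 0 < s := by linarith
  refine ⟨c₀ / (2 * √(2 * s)), by positivity, fun w hw => ?_⟩
  have hw' : (2 : ℝ) ≤ w := by exact_mod_cast hw
  have hw1 : (3 : ℝ) ≤ (w : ℝ) + 1 := by linarith
  have hw0 : (0 : ℝ) < (w : ℝ) + 1 := by linarith
  refine ⟨((w : ℝ) + 1) ^ s, ?_, fun X hX => ?_⟩
  · calc (2 : ℝ) ≤ (w : ℝ) + 1 := by linarith
      _ = ((w : ℝ) + 1) ^ (1 : ℝ) := (Real.rpow_one _).symm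
      _ ≤ ((w : ℝ) + 1) ^ s := Real.rpow_le_rpow_of_exponent_le (by linarith) (by linarith)
  have hX0 : 0 < X := lt_of_lt_of_le (Real.rpow_pos_of_pos hw0 s) hX
  obtain ⟨Y, hY⟩ : ∃ Y, Y = X ^ (1 / s) := ⟨_, rfl⟩
  have hYw : (w : ℝ) + 1 ≤ Y := by
    have h := Real.rpow_le_rpow (Real.rpow_nonneg hw0.le s) hX (by positivity : 0 ≤ 1 / s)
    rw [← Real.rpow_mul hw0.le, mul_one_div_cancel hs0.ne', Real.rpow_one] at h
    rw [hY]
    exact h
  have hY0 : 0 < Y := by linarith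
  have hY2 : 2 ≤ Y := by linarith
  have hlY : 0 < Real.log Y := Real.log_pos (by linarith)
  have hlY2 : Real.log 2 ≤ Real.log Y := Real.log_le_log (by norm_num) hY2
  have hlX : Real.log X = s * Real.log Y := by
    rw [hY, Real.log_rpow hX0]
    field_simp
  set δ := 1 / Real.log Y with hδ
  have hδ0 : 0 < δ := by positivity
  set P := (PI ((w : ℝ) + 1) Y).filter (fun p => p % 4 = 1) with hP
  have hPp : ∀ p ∈ P, p.Prime ∧ (p : ℝ) < Y := fun p hp =>
    ⟨(mem_PI.1 (mem_filter.1 hp).1).1, (mem_PI.1 (mem_filter.1 hp).1).2.2⟩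
  have h1 := FD2e_rankin P (fun p hp => (hPp p hp).1) hδ0.le hX0
  have h2 := FD2e_sets w Y X
  rw [← hP] at h2
  -- `X ^ (-δ) = exp (- s)`
  have h3 : X ^ (-δ) = Real.exp (-s) := by
    rw [Real.rpow_def_of_pos hX0, hlX, hδ]
    congr 1
    field_simp
  -- the product
  have hp1 : ∀ p ∈ P, (p : ℝ) ^ δ ≤ 1 + 2 * δ * Real.log p := by
    intro p hp
    obtain ⟨hpp, hpY⟩ := hPp p hp
    have hp0 : (0 : ℝ) < p := by exact_mod_cast hpp.pos
    have hlp : 0 ≤ Real.log p := Real.log_nonneg (by exact_mod_cast hpp.one_lt.le)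
    have hlpY : Real.log p ≤ Real.log Y := Real.log_le_log hp0 hpY.le
    rw [Real.rpow_def_of_pos hp0]
    set x := Real.log p * δ with hx
    have hx0 : 0 ≤ x := mul_nonneg hlp hδ0.le
    have hx1 : x ≤ 1 := by
      rw [hx, hδ, mul_one_div, div_le_one hlY]
      exact hlpY
    have h5 := Real.abs_exp_sub_one_sub_id_le (x := x) (by rw [abs_of_nonneg hx0]; exact hx1)
    have h6 := (abs_le.1 h5).2
    have h7 : 2 * δ * Real.log p = 2 * x := by rw [hx]; ring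
    rw [h7]
    nlinarith
  have h4 : ∏ p ∈ P, (1 + (p : ℝ) ^ δ / p) ≤
      (∏ p ∈ P, (1 + 1 / (p : ℝ))) * Real.exp (2 + 2 * C₁ / Real.log 2) := by
    have h5 : ∏ p ∈ P, (1 + (p : ℝ) ^ δ / p) ≤
        ∏ p ∈ P, ((1 + 1 / (p : ℝ)) * Real.exp (2 * δ * (Real.log p / p))) := by
      refine prod_le_prod (fun p hp => ?_) fun p hp => ?_
      · have := Real.rpow_nonneg (Nat.cast_nonneg (α := ℝ) p) δ
        positivity
      · have hp0 : (0 : ℝ) < p := by exact_mod_cast (hPp p hp).1.pos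
        have hlp : 0 ≤ Real.log p := Real.log_nonneg (by exact_mod_cast (hPp p hp).1.one_lt.le)
        have h6 := div_le_div_of_nonneg_right (hp1 p hp) hp0.le
        have h7 := Real.add_one_le_exp (2 * δ * (Real.log p / p))
        have h8 : 0 ≤ 2 * δ * (Real.log p / p) := by positivity
        have h9 : 0 ≤ 1 / (p : ℝ) := by positivity
        have h10 : (1 + 2 * δ * Real.log p) / (p : ℝ) = 1 / p + 2 * δ * (Real.log p / p) := by ring
        rw [h10] at h6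
        calc 1 + (p : ℝ) ^ δ / p ≤ (1 + 1 / (p : ℝ)) * (2 * δ * (Real.log p / p) + 1) := by
              nlinarith [mul_nonneg h9 h8]
          _ ≤ _ := mul_le_mul_of_nonneg_left h7 (by positivity)
    refine h5.trans ?_
    rw [prod_mul_distrib, ← Real.exp_sum]
    apply mul_le_mul_of_nonneg_left _ (prod_nonneg fun p _ => by positivity)
    apply Real.exp_le_exp.2
    rw [← mul_sum]
    have h6 : ∑ p ∈ P, Real.log p / p ≤ Real.log Y + C₁ := by
      have h7 := (abs_le.1 (hM Y hY2)).2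
      have h8 : ∑ p ∈ P, Real.log p / (p : ℝ) ≤ ∑ p ∈ PI 0 Y, Real.log p / (p : ℝ) := by
        apply sum_le_sum_of_subset_of_nonneg
        · intro p hp
          rw [mem_PI]
          exact ⟨(hPp p hp).1, Nat.cast_nonneg _, (hPp p hp).2⟩
        · intro p hp _
          have : 0 ≤ Real.log p := Real.log_nonneg (by exact_mod_cast (mem_PI.1 hp).1.one_lt.le)
          positivity
      linarith
    calc 2 * δ * ∑ p ∈ P, Real.log p / (p : ℝ) ≤ 2 * δ * (Real.log Y + C₁) :=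
          mul_le_mul_of_nonneg_left h6 (by positivity)
      _ = 2 + 2 * C₁ / Real.log Y := by
          rw [hδ]
          field_simp
      _ ≤ 2 + 2 * C₁ / Real.log 2 := by
          have := div_le_div_of_nonneg_left (by positivity : 0 ≤ 2 * C₁) hl2 hlY2
          linarith
  have hprod0 : 0 < ∏ p ∈ P, (1 + 1 / (p : ℝ)) := prod_pos fun p _ => by positivity
  have h5 : X ^ (-δ) * ∏ p ∈ P, (1 + (p : ℝ) ^ δ / p) ≤ (∏ p ∈ P, (1 + 1 / (p : ℝ))) / 2 := by
    rw [h3]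
    have h6 := mul_le_mul_of_nonneg_left h4 (Real.exp_pos (-s)).le
    refine h6.trans (le_of_eq ?_)
    have h7 : Real.exp (-s) * Real.exp (2 + 2 * C₁ / Real.log 2) = 1 / 2 := by
      rw [← Real.exp_add]
      have : -s + (2 + 2 * C₁ / Real.log 2) = - Real.log 2 := by rw [hs]; ring
      rw [this, Real.exp_neg, Real.exp_log (by norm_num)]
      norm_num
    calc Real.exp (-s) * ((∏ p ∈ P, (1 + 1 / (p : ℝ))) * Real.exp (2 + 2 * C₁ / Real.log 2)) =
          (∏ p ∈ P, (1 + 1 / (p : ℝ))) *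
            (Real.exp (-s) * Real.exp (2 + 2 * C₁ / Real.log 2)) := by ring
      _ = _ := by rw [h7]; ring
  have h6 : (∏ p ∈ P, (1 + 1 / (p : ℝ))) / 2 ≤ ∑ e ∈ Es w X, 1 / (e.totient : ℝ) := by linarith
  refine le_trans ?_ h6
  have h7 := (hPQ ((w : ℝ) + 1) Y (by linarith) hYw).1
  have h8 : Pool.Agent.Wd33b62.PQ ((w : ℝ) + 1) Y = ∏ p ∈ P, (1 + 1 / (p : ℝ)) := rfl
  rw [h8] at h7
  have hlw : 0 < Real.log w := Real.log_pos (by linarith)
  have hlw1 : Real.log ((w : ℝ) + 1) ≤ 2 * Real.log w := by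
    have : Real.log ((w : ℝ) + 1) ≤ Real.log ((w : ℝ) ^ 2) := by
      apply Real.log_le_log hw0
      nlinarith
    rw [Real.log_pow] at this
    exact_mod_cast this
  have hlw0 : 0 < Real.log ((w : ℝ) + 1) := Real.log_pos (by linarith)
  have h9 : √(Real.log X / Real.log w) / √(2 * s) ≤ √(Real.log Y / Real.log ((w : ℝ) + 1)) := by
    rw [← Real.sqrt_div' _ (by positivity)]
    apply Real.sqrt_le_sqrt
    rw [hlX, div_div, div_le_div_iff₀ (by positivity) hlw0]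
    have := mul_le_mul_of_nonneg_left hlw1 (by positivity : 0 ≤ s * Real.log Y)
    nlinarith
  have h10 : c₀ / (2 * √(2 * s)) * √(Real.log X / Real.log w) =
      c₀ * (√(Real.log X / Real.log w) / √(2 * s)) / 2 := by
    have : 0 < √(2 * s) := Real.sqrt_pos.2 (by positivity)
    field_simp
  rw [h10]
  apply div_le_div_of_nonneg_right _ (by norm_num)
  exact (mul_le_mul_of_nonneg_left h9 hc₀.le).trans h7

end Pool.Agent.W33f
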