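import Pool.Agent.W_d33b62_h47.T1

/-!
# An abstract sieve of dimension `κ` (MP_d33b62, section T1; helper47)
-/

set_option autoImplicit false

noncomputable section

open Finset

namespace Pool.Agent.W33f

open Pool.Agent.M58 Pool.Agent.Wd33b62k

/-- The coefficients of the lower bound sieve are bounded by `1`. -/
theorem abs_lam_le_one (P : ℕ → Finset ℕ) (b : ℕ → ℕ) (J : ℕ) (S : Finset ℕ) :
    |lam P b J S| ≤ 1 := by
  classical
  unfold lam lap
  by_cases h : ∀ j < J, (S ∩ P j).card ≤ b j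
  · rw [if_pos h]
    have h1 : ∑ j ∈ range J, (if (S ∩ P j).card = b j + 1 ∧
        ∀ i < J, i ≠ j → (S ∩ P i).card ≤ b i then (-1 : ℝ) ^ (S \ P j).card else 0) = 0 := by
      refine sum_eq_zero fun j hj => ?_
      rw [if_neg]
      rintro ⟨h1, _⟩
      have := h j (mem_range.1 hj)
      omega
    have h2 : ∀ t : ℝ, t = 0 → |(-1 : ℝ) ^ S.card - t| ≤ 1 := by
      rintro t rfl
      rw [sub_zero, abs_pow, abs_neg, abs_one, one_pow]
    exact h2 _ (by convert h1)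
  · rw [if_neg h]
    by_cases h1 : ∃ j ∈ range J, (S ∩ P j).card = b j + 1 ∧
        ∀ i < J, i ≠ j → (S ∩ P i).card ≤ b i
    · obtain ⟨j, hj, hc⟩ := h1
      have h2 : ∀ t : ℝ, t = (-1 : ℝ) ^ (S \ P j).card → |0 - t| ≤ 1 := by
        rintro t rfl
        rw [zero_sub, abs_neg, abs_pow, abs_neg, abs_one, one_pow]
      refine h2 _ ?_
      rw [sum_eq_single j]
      · rw [if_pos hc]
      · intro i hi hij
        rw [if_neg]
        rintro ⟨h3, _⟩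
        have := hc.2 i (mem_range.1 hi) hij
        omega
      · intro hj'
        exact absurd hj hj'
    · have h2 : ∀ t : ℝ, t = 0 → |0 - t| ≤ 1 := by
        rintro t rfl
        rw [sub_zero, abs_zero]
        exact zero_le_one
      refine h2 _ ?_
      refine sum_eq_zero fun j hj => ?_
      rw [if_neg]
      intro h3
      exact h1 ⟨j, hj, h3⟩

theorem abs_lm_le_one (z : ℝ) (b : ℕ) (S : Finset ℕ) : |lm' z b S| ≤ 1 :=
  abs_lam_le_one _ _ _ _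

theorem abs_lp_le_one (z : ℝ) (b : ℕ) (S : Finset ℕ) : |lp' z b S| ≤ 1 :=
  abs_lap_le _ _ _ _

open Classical in
/-- The product of the bad primes of `x`. -/
def nb {ι : Type} (P : Finset ℕ) (bad : ℕ → ι → Prop) (x : ι) : ℕ := ∏ p ∈ P.filter (fun p => bad p x), p

theorem dvd_nb {ι : Type} (P : Finset ℕ) (hP : ∀ p ∈ P, p.Prime) (bad : ℕ → ι → Prop) (x : ι) (q : ℕ)
    (hq : q.Prime) : q ∣ nb P bad x ↔ q ∈ P ∧ bad q x := by
  classical
  unfold nb
  rw [hq.prime.dvd_finsetProd_iff]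
  constructor
  · rintro ⟨p, hp, hd⟩
    rw [mem_filter] at hp
    have := (Nat.prime_dvd_prime_iff_eq hq (hP p hp.1)).1 hd
    subst this
    exact hp
  · rintro ⟨h1, h2⟩
    exact ⟨q, mem_filter.2 ⟨h1, h2⟩, dvd_rfl⟩

open Classical in
theorem filter_nb {ι : Type} (z : ℝ) (P : Finset ℕ) (hP : ∀ p ∈ P, p.Prime ∧ (p : ℝ) < z)
    (bad : ℕ → ι → Prop) (x : ι) :
    (PI 0 z).filter (· ∣ nb P bad x) = P.filter (fun p => bad p x) := by
  ext q
  rw [mem_filter, mem_filter, mem_PI]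
  constructor
  · rintro ⟨⟨h1, _, _⟩, h2⟩
    exact (dvd_nb P (fun p hp => (hP p hp).1) bad x q h1).1 h2
  · rintro ⟨h1, h2⟩
    have h3 := hP q h1
    exact ⟨⟨h3.1, Nat.cast_nonneg q, h3.2⟩, (dvd_nb P (fun p hp => (hP p hp).1) bad x q h3.1).2 ⟨h1, h2⟩⟩

open Classical in
theorem ind_nb {ι : Type} (z : ℝ) (P : Finset ℕ) (hP : ∀ p ∈ P, p.Prime ∧ (p : ℝ) < z)
    (bad : ℕ → ι → Prop) (x : ι) :
    ind (PI 0 z) (nb P bad x) = if ∀ p ∈ P, ¬ bad p x then 1 else 0 := by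
  unfold ind
  congr 1
  apply propext
  constructor
  · intro h p hp hb
    have h3 := hP p hp
    exact h p (mem_PI.2 ⟨h3.1, Nat.cast_nonneg p, h3.2⟩)
      ((dvd_nb P (fun p hp => (hP p hp).1) bad x p h3.1).2 ⟨hp, hb⟩)
  · intro h p hp hd
    rw [mem_PI] at hp
    have h3 := (dvd_nb P (fun p hp => (hP p hp).1) bad x p hp.1).1 hd
    exact h p h3.1 h3.2

open Classical in
/-- Exchange of the summations. -/
theorem sum_swap {ι : Type} (P : Finset ℕ) (A : Finset ι) (w : ι → ℝ) (bad : ℕ → ι → Prop)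
    (l : Finset ℕ → ℝ) :
    ∑ x ∈ A, w x * ∑ S ∈ (P.filter (fun p => bad p x)).powerset, l S =
      ∑ S ∈ P.powerset, l S * ∑ x ∈ A.filter (fun x => ∀ p ∈ S, bad p x), w x := by
  have h1 : ∀ x ∈ A, w x * ∑ S ∈ (P.filter (fun p => bad p x)).powerset, l S =
      ∑ S ∈ P.powerset, (if ∀ p ∈ S, bad p x then l S * w x else 0) := by
    intro x _
    rw [← sum_filter, mul_sum]
    have h2 : (P.filter (fun p => bad p x)).powerset = P.powerset.filter (fun S => ∀ p ∈ S, bad p x) := by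
      ext S
      rw [mem_powerset, mem_filter, mem_powerset]
      constructor
      · intro h
        exact ⟨h.trans (filter_subset _ _), fun p hp => (mem_filter.1 (h hp)).2⟩
      · rintro ⟨h, h'⟩ p hp
        exact mem_filter.2 ⟨h hp, h' p hp⟩
    rw [h2]
    exact sum_congr rfl fun S _ => mul_comm _ _
  rw [sum_congr rfl h1, sum_comm]
  refine sum_congr rfl fun S _ => ?_
  rw [← sum_filter, ← mul_sum]

/-- Restriction of the main term to subsets of `P`. -/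
theorem main_restrict (z : ℝ) (P : Finset ℕ) (hP : ∀ p ∈ P, p.Prime ∧ (p : ℝ) < z) (g : ℕ → ℝ)
    (l : Finset ℕ → ℝ) :
    ∑ S ∈ (PI 0 z).powerset, l S * ∏ p ∈ S, (if p ∈ P then g p else 0) =
      ∑ S ∈ P.powerset, l S * ∏ p ∈ S, g p := by
  classical
  have hsub : P ⊆ PI 0 z := fun p hp => mem_PI.2 ⟨(hP p hp).1, Nat.cast_nonneg p, (hP p hp).2⟩
  symm
  rw [← sum_subset (powerset_mono.2 hsub)]
  · refine sum_congr rfl fun S hS => ?_
    rw [mem_powerset] at hS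
    congr 1
    exact prod_congr rfl fun p hp => by rw [if_pos (hS hp)]
  · intro S _ hS
    rw [mem_powerset] at hS
    have : ∃ p ∈ S, p ∉ P := by
      by_contra hcon
      push Not at hcon
      exact hS hcon
    obtain ⟨p, hp, hpP⟩ := this
    rw [prod_eq_zero hp (by rw [if_neg hpP]), mul_zero]

theorem VP_restrict (z : ℝ) (P : Finset ℕ) (hP : ∀ p ∈ P, p.Prime ∧ (p : ℝ) < z) (g : ℕ → ℝ) :
    VP (fun p => if p ∈ P then g p else 0) (PI 0 z) = ∏ p ∈ P, (1 - g p) := by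
  classical
  have hsub : P ⊆ PI 0 z := fun p hp => mem_PI.2 ⟨(hP p hp).1, Nat.cast_nonneg p, (hP p hp).2⟩
  unfold VP
  symm
  rw [← prod_subset hsub]
  · exact prod_congr rfl fun p hp => by simp only [if_pos hp]
  · intro p _ hp
    simp only [if_neg hp, sub_zero]

open Classical in
/-- **The abstract sieve, weighted, with individual error terms.** -/
theorem sieveW (κ : ℝ) (hκ : 0 ≤ κ) : ∃ C : ℝ, 1 ≤ C ∧ ∀ (z : ℝ) (b : ℕ) (P : Finset ℕ) (g : ℕ → ℝ),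
    2 ≤ z → 1 ≤ b → (∀ p ∈ P, p.Prime ∧ (p : ℝ) < z ∧ 0 ≤ g p ∧ g p ≤ 3 / 4 ∧ g p ≤ κ / p) →
    ∀ (ι : Type) (A : Finset ι) (w : ι → ℝ) (bad : ℕ → ι → Prop) (X : ℝ) (E : Finset ℕ → ℝ),
      0 ≤ X → (∀ x ∈ A, 0 ≤ w x) →
      (∀ S ⊆ P, ((∏ p ∈ S, p : ℕ) : ℝ) ≤ z ^ (4 * b + 5) →
        |∑ x ∈ A.filter (fun x => ∀ p ∈ S, bad p x), w x - X * ∏ p ∈ S, g p| ≤ E S) →
      ∑ x ∈ A.filter (fun x => ∀ p ∈ P, ¬ bad p x), w x ≤
          X * (∏ p ∈ P, (1 - g p)) * (1 + C * Real.exp (-b)) +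
            ∑ S ∈ P.powerset.filter (fun S => ((∏ p ∈ S, p : ℕ) : ℝ) ≤ z ^ (4 * b + 5)), E S ∧
        X * (∏ p ∈ P, (1 - g p)) * (1 - C * Real.exp (-b)) -
            ∑ S ∈ P.powerset.filter (fun S => ((∏ p ∈ S, p : ℕ) : ℝ) ≤ z ^ (4 * b + 5)), E S ≤
          ∑ x ∈ A.filter (fun x => ∀ p ∈ P, ¬ bad p x), w x := by
  obtain ⟨C, hC1, hC⟩ := FLk κ hκ
  refine ⟨C, hC1, ?_⟩
  intro z b P g hz hb hg ι A w bad X E hX hw hE
  have hP : ∀ p ∈ P, p.Prime ∧ (p : ℝ) < z := fun p hp => ⟨(hg p hp).1, (hg p hp).2.1⟩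
  set g' : ℕ → ℝ := fun p => if p ∈ P then g p else 0 with hg'
  have hg1 : ∀ p, p.Prime → 0 ≤ g' p ∧ g' p ≤ 3 / 4 ∧ g' p ≤ κ / p := by
    intro p hp
    rw [hg']
    by_cases h : p ∈ P
    · simp only [if_pos h]
      exact (hg p h).2.2
    · simp only [if_neg h]
      exact ⟨le_rfl, by norm_num, by positivity⟩
  obtain ⟨f1, f2, f3⟩ := hC z b g' hz hb hg1
  rw [main_restrict z P hP g (lp' z b)] at f1 f2
  rw [main_restrict z P hP g (lm' z b)] at f3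
  rw [VP_restrict z P hP g] at f1 f2 f3
  have hsub : P ⊆ PI 0 z := fun p hp => mem_PI.2 ⟨(hP p hp).1, Nat.cast_nonneg p, (hP p hp).2⟩
  -- pointwise inequalities
  have hpt : ∀ x ∈ A, ∑ S ∈ (P.filter (fun p => bad p x)).powerset, lm' z b S ≤
      (if ∀ p ∈ P, ¬ bad p x then (1 : ℝ) else 0) ∧
      (if ∀ p ∈ P, ¬ bad p x then (1 : ℝ) else 0) ≤
        ∑ S ∈ (P.filter (fun p => bad p x)).powerset, lp' z b S := by
    intro x _
    have h1 := th_ineq (Pz z) (bz b) (Jz z) (nb P bad x) fun j _ => ⟨b + j, by rw [bz]; ring⟩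
    rw [blk_Pz z hz, ind_nb z P hP bad x] at h1
    have h2 : thm (Pz z) (bz b) (Jz z) (nb P bad x) = tm' z b (nb P bad x) := rfl
    have h3 : thp (Pz z) (bz b) (Jz z) (nb P bad x) = tp' z b (nb P bad x) := rfl
    rw [h2, h3, tm_eq z hz b, tp_eq z hz b, filter_nb z P hP bad x] at h1
    exact ⟨h1.1, h1.2.1⟩
  have hL : ∑ x ∈ A.filter (fun x => ∀ p ∈ P, ¬ bad p x), w x =
      ∑ x ∈ A, w x * (if ∀ p ∈ P, ¬ bad p x then (1 : ℝ) else 0) := by
    rw [sum_filter]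
    exact sum_congr rfl fun x _ => by split_ifs <;> simp
  -- the errors
  have herr : ∀ l : Finset ℕ → ℝ, (∀ S, |l S| ≤ 1) →
      (∀ S ⊆ P, l S ≠ 0 → ((∏ p ∈ S, p : ℕ) : ℝ) ≤ z ^ (4 * b + 5)) →
      |∑ S ∈ P.powerset, l S * ∑ x ∈ A.filter (fun x => ∀ p ∈ S, bad p x), w x -
        X * ∑ S ∈ P.powerset, l S * ∏ p ∈ S, g p| ≤
      ∑ S ∈ P.powerset.filter (fun S => ((∏ p ∈ S, p : ℕ) : ℝ) ≤ z ^ (4 * b + 5)), E S := by
    intro l hl hs
    rw [mul_sum, ← sum_sub_distrib]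
    refine (abs_sum_le_sum_abs _ _).trans ?_
    rw [sum_filter]
    refine sum_le_sum fun S hS => ?_
    rw [mem_powerset] at hS
    have h1 : l S * ∑ x ∈ A.filter (fun x => ∀ p ∈ S, bad p x), w x - X * (l S * ∏ p ∈ S, g p) =
        l S * (∑ x ∈ A.filter (fun x => ∀ p ∈ S, bad p x), w x - X * ∏ p ∈ S, g p) := by ring
    rw [h1, abs_mul]
    by_cases h2 : ((∏ p ∈ S, p : ℕ) : ℝ) ≤ z ^ (4 * b + 5)
    · rw [if_pos h2]
      have h3 := hE S hS h2
      have h4 := mul_le_mul (hl S) h3 (abs_nonneg _) zero_le_one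
      rw [one_mul] at h4
      exact h4
    · rw [if_neg h2]
      have h3 : l S = 0 := by
        by_contra h4
        exact h2 (hs S hS h4)
      rw [h3, abs_zero, zero_mul]
  have e1 := herr (lp' z b) (abs_lp_le_one z b) fun S hS h => lp_supp z hz b S (hS.trans hsub) h
  have e2 := herr (lm' z b) (abs_lm_le_one z b) fun S hS h => lm_supp z hz b S (hS.trans hsub) h
  rw [abs_le] at e1 e2
  constructor
  · have h1 : ∑ x ∈ A, w x * (if ∀ p ∈ P, ¬ bad p x then (1 : ℝ) else 0) ≤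
        ∑ x ∈ A, w x * ∑ S ∈ (P.filter (fun p => bad p x)).powerset, lp' z b S :=
      sum_le_sum fun x hx => mul_le_mul_of_nonneg_left (hpt x hx).2 (hw x hx)
    rw [sum_swap P A w bad (lp' z b)] at h1
    have h2 := mul_le_mul_of_nonneg_left f2 hX
    rw [hL]
    linarith [e1.2]
  · have h1 : ∑ x ∈ A, w x * ∑ S ∈ (P.filter (fun p => bad p x)).powerset, lm' z b S ≤
        ∑ x ∈ A, w x * (if ∀ p ∈ P, ¬ bad p x then (1 : ℝ) else 0) :=
      sum_le_sum fun x hx => mul_le_mul_of_nonneg_left (hpt x hx).1 (hw x hx)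
    rw [sum_swap P A w bad (lm' z b)] at h1
    have h2 := mul_le_mul_of_nonneg_left f3 hX
    rw [hL]
    linarith [e2.1]

/-- The number of the sets of primes with product at most `D`. -/
theorem card_sets (P : Finset ℕ) (hP : ∀ p ∈ P, p.Prime) (D : ℝ) (hD : 0 ≤ D) :
    (((P.powerset.filter (fun S => ((∏ p ∈ S, p : ℕ) : ℝ) ≤ D)).card : ℕ) : ℝ) ≤ D := by
  classical
  have h1 : (P.powerset.filter (fun S => ((∏ p ∈ S, p : ℕ) : ℝ) ≤ D)).card ≤ (Icc 1 ⌊D⌋₊).card := by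
    refine card_le_card_of_injOn (fun S => ∏ p ∈ S, p) ?_ ?_
    · intro S hS
      rw [mem_coe, mem_filter, mem_powerset] at hS
      rw [mem_coe, mem_Icc]
      refine ⟨Nat.one_le_iff_ne_zero.2 (prod_ne_zero_iff.2 fun p hp => (hP p (hS.1 hp)).ne_zero), ?_⟩
      exact Nat.le_floor hS.2
    · intro S hS T hT hST
      rw [mem_coe, mem_filter, mem_powerset] at hS hT
      simp only at hST
      have key : ∀ U V : Finset ℕ, U ⊆ P → V ⊆ P → ∏ p ∈ U, p = ∏ p ∈ V, p → U ⊆ V := by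
        intro U V hU hV h p hp
        have h2 : p ∣ ∏ q ∈ V, q := h ▸ dvd_prod_of_mem (fun q => q) hp
        rw [(hP p (hU hp)).prime.dvd_finsetProd_iff] at h2
        obtain ⟨q, hq, hd⟩ := h2
        have := (Nat.prime_dvd_prime_iff_eq (hP p (hU hp)) (hP q (hV hq))).1 hd
        rw [this]
        exact hq
      exact Subset.antisymm (key S T hS.1 hT.1 hST) (key T S hT.1 hS.1 hST.symm)
  rw [Nat.card_Icc, Nat.add_sub_cancel] at h1
  calc (((P.powerset.filter (fun S => ((∏ p ∈ S, p : ℕ) : ℝ) ≤ D)).card : ℕ) : ℝ) ≤ (⌊D⌋₊ : ℝ) := by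
        exact_mod_cast h1
    _ ≤ D := Nat.floor_le hD

open Classical in
/-- **The abstract sieve** with a constant error term. -/
theorem sieve (κ : ℝ) (hκ : 0 ≤ κ) : ∃ C : ℝ, 1 ≤ C ∧ ∀ (z : ℝ) (b : ℕ) (P : Finset ℕ) (g : ℕ → ℝ),
    2 ≤ z → 1 ≤ b → (∀ p ∈ P, p.Prime ∧ (p : ℝ) < z ∧ 0 ≤ g p ∧ g p ≤ 3 / 4 ∧ g p ≤ κ / p) →
    ∀ (ι : Type) (A : Finset ι) (bad : ℕ → ι → Prop) (X E : ℝ), 0 ≤ X → 0 ≤ E →
      (∀ S ⊆ P, ((∏ p ∈ S, p : ℕ) : ℝ) ≤ z ^ (4 * b + 5) →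
        |((A.filter (fun x => ∀ p ∈ S, bad p x)).card : ℝ) - X * ∏ p ∈ S, g p| ≤ E) →
      ((A.filter (fun x => ∀ p ∈ P, ¬ bad p x)).card : ℝ) ≤
          X * (∏ p ∈ P, (1 - g p)) * (1 + C * Real.exp (-b)) + E * z ^ (4 * b + 5) ∧
        X * (∏ p ∈ P, (1 - g p)) * (1 - C * Real.exp (-b)) - E * z ^ (4 * b + 5) ≤
          ((A.filter (fun x => ∀ p ∈ P, ¬ bad p x)).card : ℝ) := by
  obtain ⟨C, hC1, hC⟩ := sieveW κ hκ
  refine ⟨C, hC1, ?_⟩
  intro z b P g hz hb hg ι A bad X E hX hE h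
  have h1 := hC z b P g hz hb hg ι A (fun _ => 1) bad X (fun _ => E) hX (fun _ _ => zero_le_one) (by
    intro S hS hS'
    have := h S hS hS'
    rw [card_eq_sum_ones, Nat.cast_sum, Nat.cast_one] at this
    exact this)
  have h2 : ∑ _S ∈ P.powerset.filter (fun S => ((∏ p ∈ S, p : ℕ) : ℝ) ≤ z ^ (4 * b + 5)), E ≤
      E * z ^ (4 * b + 5) := by
    rw [sum_const, nsmul_eq_mul, mul_comm]
    exact mul_le_mul_of_nonneg_left (card_sets P (fun p hp => (hg p hp).1) _ (by positivity)) hE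
  have h3 : ((A.filter (fun x => ∀ p ∈ P, ¬ bad p x)).card : ℝ) =
      ∑ x ∈ A.filter (fun x => ∀ p ∈ P, ¬ bad p x), (1 : ℝ) := by
    rw [card_eq_sum_ones, Nat.cast_sum, Nat.cast_one]
  rw [h3]
  exact ⟨h1.1.trans (by linarith), le_trans (by linarith) h1.2⟩

end Pool.Agent.W33f
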