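import Pool.Agent.W_d33b62f_h37.FDd
import Pool.Agent.W_d33b62f_h37.Sv

/-!
# MP_d33b62_nt, full question, T8 (D): the upper bound sieve for two linear forms
-/

set_option autoImplicit false

noncomputable section

open Finset

namespace Pool.Agent.W33f

open Pool.Agent.Wb58c63 (PI mem_PI VP)

/-- The number of the integers of `(0, N]` in a class mod `q`. -/
theorem fd3a_mod (N q r : ℕ) (hq : 0 < q) :
    |(((Ioc 0 N).filter (fun n => n ≡ r [MOD q])).card : ℝ) - (N : ℝ) / q| ≤ 1 := by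
  have h1 := Nat.Ioc_filter_modEq_card 0 N hq r
  have hq0 : (0 : ℚ) < q := by exact_mod_cast hq
  have h2 : (((Ioc 0 N).filter (fun n => n ≡ r [MOD q])).card : ℚ) =
      max ((⌊(((N : ℕ) : ℚ) - (r : ℚ)) / (q : ℚ)⌋ : ℚ) - ⌊(((0 : ℕ) : ℚ) - (r : ℚ)) / (q : ℚ)⌋) 0 := by
    exact_mod_cast h1
  set u := (((N : ℕ) : ℚ) - (r : ℚ)) / (q : ℚ) with hu
  set v := (((0 : ℕ) : ℚ) - (r : ℚ)) / (q : ℚ) with hv
  have h3 : u - v = (N : ℚ) / q := by
    rw [hu, hv]
    push_cast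
    field_simp
    ring
  have h4 : (0 : ℚ) ≤ (N : ℚ) / q := by positivity
  have h5 : |(((Ioc 0 N).filter (fun n => n ≡ r [MOD q])).card : ℚ) - (N : ℚ) / q| ≤ 1 := by
    rw [h2, ← h3]
    have a1 := Int.floor_le u
    have a2 := Int.lt_floor_add_one u
    have a3 := Int.floor_le v
    have a4 := Int.lt_floor_add_one v
    rw [abs_le]
    constructor
    · have := le_max_left ((⌊u⌋ : ℚ) - ⌊v⌋) 0
      linarith
    · rcases max_choice ((⌊u⌋ : ℚ) - ⌊v⌋) 0 with h | h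
      · rw [h]
        linarith
      · rw [h]
        linarith
  have h6 := (Rat.cast_le (K := ℝ)).2 h5
  push_cast at h6
  exact h6

/-- The same, with a real bound. -/
theorem fd3a_real (X : ℝ) (hX : 0 ≤ X) (q r : ℕ) (hq : 0 < q) :
    |(((Icc 1 ⌊X⌋₊).filter (fun n => n ≡ r [MOD q])).card : ℝ) - X / q| ≤ 2 := by
  have h0 : (Icc 1 ⌊X⌋₊ : Finset ℕ) = Ioc 0 ⌊X⌋₊ := by
    ext n
    rw [mem_Icc, mem_Ioc]
    omega
  have h1 := fd3a_mod ⌊X⌋₊ q r hq
  rw [h0]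
  have hq1 : (1 : ℝ) ≤ q := by exact_mod_cast hq
  have h2 := Nat.floor_le hX
  have h3 := Nat.lt_floor_add_one X
  have h4 : |(⌊X⌋₊ : ℝ) / q - X / q| ≤ 1 := by
    rw [← sub_div, abs_div, abs_of_pos (show (0 : ℝ) < q by linarith), div_le_iff₀ (by linarith)]
    rw [abs_le]
    constructor <;> nlinarith
  calc _ = |((((Ioc 0 ⌊X⌋₊).filter (fun n => n ≡ r [MOD q])).card : ℝ) - (⌊X⌋₊ : ℝ) / q) +
        ((⌊X⌋₊ : ℝ) / q - X / q)| := by congr 1; ring
    _ ≤ _ := abs_add_le _ _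
    _ ≤ 2 := by linarith

open Classical in
/-- The number of the integers of `[1, X]` in given classes modulo the primes of `S`. -/
theorem fd3a_classes (X : ℝ) (hX : 0 ≤ X) (B : (p : ℕ) → Finset (ZMod p)) (S : Finset ℕ) (hS : ∀ p ∈ S, p.Prime) :
    ∀ (q r : ℕ), 0 < q → (∀ p ∈ S, Nat.Coprime q p) →
      |(((Icc 1 ⌊X⌋₊).filter (fun n => n ≡ r [MOD q] ∧ ∀ p ∈ S, (n : ZMod p) ∈ B p)).card : ℝ) -
        X / q * ∏ p ∈ S, ((B p).card : ℝ) / p| ≤ 2 * ∏ p ∈ S, ((B p).card : ℝ) := by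
  induction S using Finset.induction_on with
  | empty =>
    intro q r hq _
    simp only [notMem_empty, false_implies, implies_true, and_true, prod_empty, mul_one]
    exact fd3a_real X hX q r hq
  | insert p S hp ih =>
    intro q r hq hc
    have ih' := ih fun p' hp' => hS p' (mem_insert_of_mem hp')
    have hpp := hS p (mem_insert_self p S)
    have hpc := hc p (mem_insert_self p S)
    have : NeZero p := ⟨hpp.ne_zero⟩
    have key : ∀ β ∈ B p, ∃ r' : ℕ, ∀ n : ℕ, (n ≡ r [MOD q] ∧ (n : ZMod p) = β) ↔ n ≡ r' [MOD q * p] := by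
      intro β _
      obtain ⟨r', h1, h2⟩ := Nat.chineseRemainder hpc r β.val
      refine ⟨r', fun n => ?_⟩
      rw [← Nat.modEq_and_modEq_iff_modEq_mul hpc]
      constructor
      · rintro ⟨h3, h4⟩
        refine ⟨h3.trans h1.symm, ?_⟩
        refine Nat.ModEq.trans ?_ h2.symm
        rw [← ZMod.natCast_eq_natCast_iff, h4, ZMod.natCast_zmod_val]
      · rintro ⟨h3, h4⟩
        refine ⟨h3.trans h1, ?_⟩
        have h5 := h4.trans h2
        rw [← ZMod.natCast_eq_natCast_iff, ZMod.natCast_zmod_val] at h5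
        exact h5
    choose! r' hr' using key
    have h1 : (Icc 1 ⌊X⌋₊).filter (fun n => n ≡ r [MOD q] ∧ ∀ p' ∈ insert p S, (n : ZMod p') ∈ B p') =
        (B p).biUnion fun β => (Icc 1 ⌊X⌋₊).filter
          (fun n => n ≡ r' β [MOD q * p] ∧ ∀ p' ∈ S, (n : ZMod p') ∈ B p') := by
      ext n
      simp only [mem_filter, mem_biUnion, mem_insert, forall_eq_or_imp]
      constructor
      · rintro ⟨h2, h3, h4, h5⟩
        exact ⟨_, h4, h2, (hr' _ h4 n).1 ⟨h3, rfl⟩, h5⟩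
      · rintro ⟨β, h2, h3, h4, h5⟩
        have h6 := (hr' β h2 n).2 h4
        refine ⟨h3, h6.1, ?_, h5⟩
        rw [h6.2]
        exact h2
    rw [h1, card_biUnion, prod_insert hp, prod_insert hp]
    · push_cast
      have h2 : X / q * (((B p).card : ℝ) / p * ∏ x ∈ S, ((B x).card : ℝ) / x) =
          ∑ _β ∈ B p, X / ((q * p : ℕ) : ℝ) * ∏ x ∈ S, ((B x).card : ℝ) / x := by
        rw [sum_const, nsmul_eq_mul]
        push_cast
        have hq0 : (q : ℝ) ≠ 0 := by exact_mod_cast hq.ne'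
        have hp0 : (p : ℝ) ≠ 0 := by exact_mod_cast hpp.ne_zero
        field_simp
      rw [h2, ← sum_sub_distrib]
      refine (abs_sum_le_sum_abs _ _).trans ?_
      have h3 : 2 * (((B p).card : ℝ) * ∏ p ∈ S, ((B p).card : ℝ)) =
          ∑ _β ∈ B p, 2 * ∏ p ∈ S, ((B p).card : ℝ) := by
        rw [sum_const, nsmul_eq_mul]
        ring
      rw [h3]
      refine sum_le_sum fun β _ => ?_
      refine ih' (q * p) (r' β) (Nat.mul_pos hq hpp.pos) fun p' hp' => ?_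
      refine Nat.Coprime.mul_left (hc p' (mem_insert_of_mem hp')) ?_
      refine (Nat.coprime_primes hpp (hS p' (mem_insert_of_mem hp'))).2 ?_
      rintro rfl
      exact hp hp'
    · intro β hβ β' hβ' hne
      rw [Function.onFun, disjoint_left]
      intro n hn hn'
      rw [mem_filter] at hn hn'
      exact hne (((hr' β hβ n).2 hn.2.1).2.symm.trans ((hr' β' hβ' n).2 hn'.2.1).2)

open Classical in
/-- The bad classes mod `p`. -/
def fd3aB (A a₀ p : ℕ) : Finset (ZMod p) := if p ∣ A then {0} else {0, (a₀ : ZMod p) * (A : ZMod p)⁻¹}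

theorem fd3a_mem (A a₀ p r : ℕ) (hp : p.Prime) (h0 : ¬ p ∣ a₀) :
    (r : ZMod p) ∈ fd3aB A a₀ p ↔ (p : ℤ) ∣ (r : ℤ) * ((A : ℤ) * r - a₀) := by
  have := Fact.mk hp
  have ha : (a₀ : ZMod p) ≠ 0 := by
    rw [Ne, ZMod.natCast_eq_zero_iff]
    exact h0
  have h1 : (p : ℤ) ∣ (r : ℤ) * ((A : ℤ) * r - a₀) ↔ (r : ZMod p) * ((A : ZMod p) * r - a₀) = 0 := by
    rw [← ZMod.intCast_zmod_eq_zero_iff_dvd]
    push_cast
    rfl
  rw [h1]
  unfold fd3aB
  split_ifs with h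
  · have hA : (A : ZMod p) = 0 := (ZMod.natCast_eq_zero_iff _ _).2 h
    rw [hA, zero_mul, zero_sub, mem_singleton, mul_eq_zero, neg_eq_zero]
    constructor
    · intro h2
      exact Or.inl h2
    · rintro (h2 | h2)
      · exact h2
      · exact absurd h2 ha
  · have hA : (A : ZMod p) ≠ 0 := by
      rw [Ne, ZMod.natCast_eq_zero_iff]
      exact h
    rw [mem_insert, mem_singleton, mul_eq_zero, sub_eq_zero]
    refine or_congr Iff.rfl ?_
    constructor
    · intro h2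
      rw [h2]
      field_simp
    · intro h2
      rw [← h2]
      field_simp

theorem fd3a_card (A a₀ p : ℕ) (hp : p.Prime) (h0 : ¬ p ∣ a₀) :
    (fd3aB A a₀ p).card = if p ∣ A then 1 else 2 := by
  have := Fact.mk hp
  have ha : (a₀ : ZMod p) ≠ 0 := by
    rw [Ne, ZMod.natCast_eq_zero_iff]
    exact h0
  unfold fd3aB
  split_ifs with h
  · exact card_singleton _
  · have hA : (A : ZMod p) ≠ 0 := by
      rw [Ne, ZMod.natCast_eq_zero_iff]
      exact h
    rw [card_pair]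
    exact (mul_ne_zero ha (inv_ne_zero hA)).symm

theorem fd3a_one_le (S : Finset ℕ) (f : ℕ → ℝ) (h : ∀ p ∈ S, 1 ≤ f p) : 1 ≤ ∏ p ∈ S, f p :=
  Finset.prod_induction f (fun x => 1 ≤ x) (fun _ _ ha hb => one_le_mul_of_one_le_of_one_le ha hb) le_rfl h

theorem fd3a_mono (S T : Finset ℕ) (hST : S ⊆ T) (f : ℕ → ℝ) (h : ∀ p ∈ T, 1 ≤ f p) :
    ∏ p ∈ S, f p ≤ ∏ p ∈ T, f p := by
  classical
  rw [← prod_sdiff hST]
  have h1 := fd3a_one_le (T \ S) f fun p hp => h p (mem_sdiff.1 hp).1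
  have h2 := fd3a_one_le S f fun p hp => h p (hST hp)
  nlinarith

/-- The Euler product. -/
theorem fd3a_prod : ∃ C : ℝ, 0 < C ∧ ∀ w : ℕ, 4 ≤ w → ∀ X : ℝ, ((w : ℝ) + 1) ≤ X ^ (1 / 20 : ℝ) → 2 ≤ X → ∀ a₀ A : ℕ,
    a₀ ≠ 0 → a₀ ≤ w → A ≠ 0 →
      ∏ p ∈ PI ((w : ℝ) + 1) (X ^ (1 / 20 : ℝ)), (1 - ((fd3aB A a₀ p).card : ℝ) / p) ≤
        C * (Real.log w / Real.log X) ^ 2 * ∏ p ∈ A.primeFactors.filter (w < ·), (1 + 4 / (p : ℝ)) := by
  obtain ⟨C, hC, hM⟩ := Pool.Agent.Wd33b62.mertens_all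
  refine ⟨1600 * Real.exp (2 * C), by positivity, ?_⟩
  intro w hw X hX hX2 a₀ A h0 h1 hA
  set z := X ^ (1 / 20 : ℝ) with hz
  have hw4 : (4 : ℝ) ≤ w := by exact_mod_cast hw
  have hlw : 0 < Real.log w := Real.log_pos (by linarith)
  have hlX : 0 < Real.log X := Real.log_pos (by linarith)
  have hm := hM ((w : ℝ) + 1) z (by linarith) hX
  rw [abs_le] at hm
  have hp5 : ∀ p ∈ PI ((w : ℝ) + 1) z, p.Prime ∧ w < p := by
    intro p hp
    rw [mem_PI] at hp
    refine ⟨hp.1, ?_⟩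
    have : ((w + 1 : ℕ) : ℝ) ≤ p := by push_cast; exact hp.2.1
    have : w + 1 ≤ p := by exact_mod_cast this
    omega
  have hpa : ∀ p ∈ PI ((w : ℝ) + 1) z, ¬ p ∣ a₀ := by
    intro p hp hd
    have := Nat.le_of_dvd (Nat.pos_of_ne_zero h0) hd
    have := (hp5 p hp).2
    omega
  -- termwise bound
  have hterm : ∀ p ∈ PI ((w : ℝ) + 1) z, 1 - ((fd3aB A a₀ p).card : ℝ) / p ≤
      Real.exp (-(2 * (1 / (p : ℝ)))) * (if p ∣ A then (1 + 4 / (p : ℝ)) else 1) := by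
    intro p hp
    have hpp := hp5 p hp
    rw [fd3a_card A a₀ p hpp.1 (hpa p hp)]
    have hp0 : (0 : ℝ) < p := by exact_mod_cast hpp.1.pos
    have hp4 : (4 : ℝ) < p := by
      have : 4 < p := by omega
      exact_mod_cast this
    set x := 1 / (p : ℝ) with hx
    have hx0 : 0 < x := by positivity
    have hx1 : x ≤ 1 / 4 := by
      rw [hx]
      exact one_div_le_one_div_of_le (by norm_num) hp4.le
    split_ifs with h
    · have e1 : 1 - ((1 : ℕ) : ℝ) / p = 1 - x := by rw [hx]; push_cast; ring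
      have e2 : (1 + 4 / (p : ℝ)) = 1 + 4 * x := by rw [hx]; ring
      rw [e1, e2]
      have e3 := Real.add_one_le_exp (-(2 * x))
      nlinarith
    · have e1 : 1 - ((2 : ℕ) : ℝ) / p = 1 - 2 * x := by rw [hx]; push_cast; ring
      rw [e1, mul_one]
      have e3 := Real.add_one_le_exp (-(2 * x))
      linarith
  have hnn : ∀ p ∈ PI ((w : ℝ) + 1) z, 0 ≤ 1 - ((fd3aB A a₀ p).card : ℝ) / p := by
    intro p hp
    have hpp := hp5 p hp
    rw [fd3a_card A a₀ p hpp.1 (hpa p hp)]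
    have hp4 : (4 : ℝ) < p := by
      have : 4 < p := by omega
      exact_mod_cast this
    rw [sub_nonneg, div_le_one (by linarith)]
    split_ifs <;> push_cast <;> linarith
  refine (prod_le_prod hnn hterm).trans ?_
  rw [prod_mul_distrib, ← Real.exp_sum, sum_neg_distrib, ← mul_sum]
  have hprodA : ∏ p ∈ PI ((w : ℝ) + 1) z, (if p ∣ A then (1 + 4 / (p : ℝ)) else 1) ≤
      ∏ p ∈ A.primeFactors.filter (w < ·), (1 + 4 / (p : ℝ)) := by
    rw [← prod_filter]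
    refine fd3a_mono _ _ ?_ _ fun p _ => ?_
    · intro p hp
      rw [mem_filter] at hp
      rw [mem_filter, Nat.mem_primeFactors]
      have := hp5 p hp.1
      exact ⟨⟨this.1, hp.2, hA⟩, this.2⟩
    · have : (0 : ℝ) ≤ 4 / (p : ℝ) := by positivity
      linarith
  have hexp : Real.exp (-(2 * ∑ p ∈ PI ((w : ℝ) + 1) z, (1 : ℝ) / p)) ≤
      1600 * Real.exp (2 * C) * (Real.log w / Real.log X) ^ 2 := by
    have hlw1 : 0 < Real.log ((w : ℝ) + 1) := Real.log_pos (by linarith)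
    have hlz : Real.log z = Real.log X / 20 := by
      rw [hz, Real.log_rpow (by linarith)]
      ring
    have hlz0 : 0 < Real.log z := by rw [hlz]; positivity
    have h2 : Real.log ((w : ℝ) + 1) ≤ 2 * Real.log w := by
      have : Real.log ((w : ℝ) + 1) ≤ Real.log ((w : ℝ) ^ 2) := Real.log_le_log (by linarith) (by nlinarith)
      rw [Real.log_pow] at this
      push_cast at this
      exact this
    have h3 : C / Real.log ((w : ℝ) + 1) ≤ C := by
      rw [div_le_iff₀ hlw1]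
      have h4 : 1 ≤ Real.log ((w : ℝ) + 1) := by
        rw [Real.le_log_iff_exp_le (by linarith)]
        have := Real.exp_one_lt_d9
        linarith
      nlinarith
    have h4 : Real.exp (-(2 * ∑ p ∈ PI ((w : ℝ) + 1) z, (1 : ℝ) / p)) ≤
        Real.exp (2 * C - 2 * Real.log (Real.log z / Real.log ((w : ℝ) + 1))) := by
      rw [Real.exp_le_exp]
      linarith [hm.1]
    refine h4.trans ?_
    rw [Real.exp_sub]
    have h5 : Real.exp (2 * Real.log (Real.log z / Real.log ((w : ℝ) + 1))) =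
        (Real.log z / Real.log ((w : ℝ) + 1)) ^ 2 := by
      rw [two_mul, Real.exp_add, Real.exp_log (by positivity)]
      ring
    rw [h5, hlz]
    rw [div_le_iff₀ (by positivity)]
    have h6 : 1600 * Real.exp (2 * C) * (Real.log w / Real.log X) ^ 2 *
        (Real.log X / 20 / Real.log ((w : ℝ) + 1)) ^ 2 = Real.exp (2 * C) *
          (2 * Real.log w / Real.log ((w : ℝ) + 1)) ^ 2 := by
      field_simp
      ring
    rw [h6]
    have h7 : 1 ≤ 2 * Real.log w / Real.log ((w : ℝ) + 1) := by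
      rw [le_div_iff₀ hlw1]
      linarith
    have h8 : 1 ≤ (2 * Real.log w / Real.log ((w : ℝ) + 1)) ^ 2 := one_le_pow₀ h7
    have h9 := Real.exp_pos (2 * C)
    nlinarith
  exact mul_le_mul hexp hprodA (prod_nonneg fun p _ => by split_ifs <;> positivity) (by positivity)

/-- **FD3a.** `r ≡ ρ mod q`, `r (A r - a₀)` without prime factors in `(w, X ^ (1/20))`, uniformly in `A`.

Proof. `sieve` with `κ = 2`, `b = 1`, `z = X ^ (1/20)` (level `z ^ 9`), `P` = primes of `(w, z)`, `bad p r`: `p ∣ r (A r - a₀)`. For `p ∤ A`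
there are 2 bad classes mod `p` (`p ∤ a₀` as `a₀ ≤ w`), for `p ∣ A` one. `g p = 2 / p` or `1 / p`. Counting in classes mod `q ∏ S`
(`q` is composed of primes `≤ w`): `X / (q ∏ S) + O(1)` per class, `2 ^ |S|` classes. `∏ (1 - g) ≤ C (log w / log z) ^ 2 ∏_{p ∣ A} (1 + 4 / p)` (Mertens,
`w ≥ 4`). -/
theorem FD3a : ∃ C : ℝ, 0 < C ∧ ∀ w : ℕ, 4 ≤ w → ∀ q : ℕ, q ≠ 0 → (∀ p : ℕ, p.Prime → p ∣ q → p ≤ w) →
    ∃ X₀ : ℝ, 2 ≤ X₀ ∧ ∀ X : ℝ, X₀ ≤ X → ∀ a₀ A ρ : ℕ, a₀ ≠ 0 → a₀ ≤ w → A ≠ 0 →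
      (((Icc 1 ⌊X⌋₊).filter (fun r : ℕ => r ≡ ρ [MOD q] ∧ ∀ p ∈ PI ((w : ℝ) + 1) (X ^ (1 / 20 : ℝ)),
        ¬ (p : ℤ) ∣ (r : ℤ) * ((A : ℤ) * r - a₀))).card : ℝ) ≤
        C * (X / q) * (Real.log w / Real.log X) ^ 2 * ∏ p ∈ A.primeFactors.filter (w < ·), (1 + 4 / (p : ℝ)) := by
  classical
  obtain ⟨C₁, hC1, hC⟩ := sieve 2 (by norm_num)
  obtain ⟨C₂, hC2, hpr⟩ := fd3a_prod
  refine ⟨2 * C₁ * C₂ + 1, by positivity, ?_⟩
  intro w hw q hq hqw
  have hq0 : (0 : ℝ) < q := by exact_mod_cast Nat.pos_of_ne_zero hq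
  have e1 : ∀ᶠ x : ℝ in Filter.atTop, (w : ℝ) + 1 ≤ x ^ (1 / 20 : ℝ) :=
    (tendsto_rpow_atTop (by norm_num)).eventually (Filter.eventually_ge_atTop _)
  have e2 : ∀ᶠ x : ℝ in Filter.atTop, 2 * q * Real.log x ^ 2 ≤ x ^ (1 / 10 : ℝ) := by
    have h2 : (fun x : ℝ => Real.log x ^ 2) =o[Filter.atTop] fun x : ℝ => x ^ (1 / 10 : ℝ) := by
      have := isLittleO_log_rpow_rpow_atTop ((2 : ℕ) : ℝ) (show (0 : ℝ) < 1 / 10 by norm_num)
      refine this.congr_left fun x => ?_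
      rw [Real.rpow_natCast]
    have h3 := h2.bound (show 0 < 1 / (2 * (q : ℝ)) by positivity)
    filter_upwards [h3, Filter.eventually_ge_atTop (1 : ℝ)] with x hx hx1
    rw [Real.norm_of_nonneg (by positivity), Real.norm_of_nonneg (by positivity)] at hx
    rw [one_div, ← div_eq_inv_mul, le_div_iff₀ (by positivity)] at hx
    linarith
  obtain ⟨X₀, hX₀⟩ := ((e1.and (e2.and (Filter.eventually_ge_atTop (2 : ℝ))))).exists_forall_of_atTop
  refine ⟨max X₀ 2, le_max_right _ _, ?_⟩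
  intro X hX a₀ A ρ h0 h1 hA
  obtain ⟨a1, a2, a3⟩ := hX₀ X ((le_max_left _ _).trans hX)
  have hw4 : (4 : ℝ) ≤ w := by exact_mod_cast hw
  set z := X ^ (1 / 20 : ℝ) with hz
  have hz2 : 2 ≤ z := by linarith
  have hX0 : 0 < X := by linarith
  have hlX : 0 < Real.log X := Real.log_pos (by linarith)
  have hlw : 1 ≤ Real.log w := by
    rw [Real.le_log_iff_exp_le (by linarith)]
    have := Real.exp_one_lt_d9
    linarith
  have hp5 : ∀ p ∈ PI ((w : ℝ) + 1) z, p.Prime ∧ w < p := by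
    intro p hp
    rw [mem_PI] at hp
    refine ⟨hp.1, ?_⟩
    have : ((w + 1 : ℕ) : ℝ) ≤ p := by push_cast; exact hp.2.1
    have : w + 1 ≤ p := by exact_mod_cast this
    omega
  have hpa : ∀ p ∈ PI ((w : ℝ) + 1) z, ¬ p ∣ a₀ := by
    intro p hp hd
    have := Nat.le_of_dvd (Nat.pos_of_ne_zero h0) hd
    have := (hp5 p hp).2
    omega
  have hcard2 : ∀ p ∈ PI ((w : ℝ) + 1) z, (fd3aB A a₀ p).card ≤ 2 := by
    intro p hp
    rw [fd3a_card A a₀ p (hp5 p hp).1 (hpa p hp)]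
    split_ifs <;> norm_num
  have hP : ∀ p ∈ PI ((w : ℝ) + 1) z, p.Prime ∧ (p : ℝ) < z ∧ 0 ≤ ((fd3aB A a₀ p).card : ℝ) / p ∧
      ((fd3aB A a₀ p).card : ℝ) / p ≤ 3 / 4 ∧ ((fd3aB A a₀ p).card : ℝ) / p ≤ 2 / p := by
    intro p hp
    have h3 := hp5 p hp
    have hp4 : (4 : ℝ) < p := by
      have : 4 < p := by omega
      exact_mod_cast this
    have h4 : ((fd3aB A a₀ p).card : ℝ) ≤ 2 := by exact_mod_cast hcard2 p hp
    refine ⟨h3.1, (mem_PI.1 hp).2.2, by positivity, ?_, ?_⟩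
    · rw [div_le_iff₀ (by linarith)]
      linarith
    · exact div_le_div_of_nonneg_right h4 (by linarith)
  have hmain := hC z 1 (PI ((w : ℝ) + 1) z) (fun p => ((fd3aB A a₀ p).card : ℝ) / p) hz2 le_rfl hP ℕ
    ((Icc 1 ⌊X⌋₊).filter (fun r => r ≡ ρ [MOD q])) (fun (p r : ℕ) => (p : ℤ) ∣ (r : ℤ) * ((A : ℤ) * r - a₀))
    (X / q) (2 * z ^ 9) (by positivity) (by positivity) (by
      intro S hS hSD
      have h3 := fd3a_classes X hX0.le (fun p => fd3aB A a₀ p) S (fun p hp => (hP p (hS hp)).1) q ρ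
        (Nat.pos_of_ne_zero hq) (by
          intro p hp
          have h4 := hp5 p (hS hp)
          have h5 : Nat.Coprime p q := by
            rw [h4.1.coprime_iff_not_dvd]
            intro h6
            have := hqw p h4.1 h6
            omega
          exact h5.symm)
      have h5 : 2 * ∏ p ∈ S, ((fd3aB A a₀ p).card : ℝ) ≤ 2 * z ^ 9 := by
        refine mul_le_mul_of_nonneg_left (le_trans ?_ hSD) (by norm_num)
        push_cast
        refine prod_le_prod (fun p _ => Nat.cast_nonneg _) fun p hp => ?_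
        have h6 := hcard2 p (hS hp)
        have h7 := (hp5 p (hS hp)).2
        have : (fd3aB A a₀ p).card ≤ p := by omega
        exact_mod_cast this
      have h8 : (((Icc 1 ⌊X⌋₊).filter (fun r => r ≡ ρ [MOD q])).filter
          (fun r : ℕ => ∀ p ∈ S, (p : ℤ) ∣ (r : ℤ) * ((A : ℤ) * r - a₀))).card =
          ((Icc 1 ⌊X⌋₊).filter (fun n => n ≡ ρ [MOD q] ∧
            ∀ p ∈ S, (n : ZMod p) ∈ fd3aB A a₀ p)).card := by
        rw [filter_filter]
        congr 1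
        ext n
        rw [mem_filter, mem_filter]
        refine and_congr_right fun _ => and_congr_right fun _ => ?_
        refine forall₂_congr fun p hp => ?_
        exact (fd3a_mem A a₀ p n (hp5 p (hS hp)).1 (hpa p (hS hp))).symm
      rw [← h8] at h3
      refine le_trans (le_of_eq ?_) (h3.trans h5)
      congr!)
  have hN : ((Icc 1 ⌊X⌋₊).filter (fun r : ℕ => r ≡ ρ [MOD q] ∧ ∀ p ∈ PI ((w : ℝ) + 1) z,
        ¬ (p : ℤ) ∣ (r : ℤ) * ((A : ℤ) * r - a₀))).card = (((Icc 1 ⌊X⌋₊).filter (fun r => r ≡ ρ [MOD q])).filter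
      (fun r : ℕ => ∀ p ∈ PI ((w : ℝ) + 1) z, ¬ (p : ℤ) ∣ (r : ℤ) * ((A : ℤ) * r - a₀))).card := by
    rw [filter_filter]
  rw [hN]
  refine le_trans (le_of_eq ?_) (hmain.1.trans ?_)
  · congr!
  have h4 := hpr w hw X a1 a3 a₀ A h0 h1 hA
  set Q := ∏ p ∈ A.primeFactors.filter (w < ·), (1 + 4 / (p : ℝ)) with hQ
  set V := ∏ p ∈ PI ((w : ℝ) + 1) z, (1 - ((fd3aB A a₀ p).card : ℝ) / p) with hV
  have hQ1 : 1 ≤ Q := by
    rw [hQ]
    refine fd3a_one_le _ _ fun p _ => ?_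
    have : (0 : ℝ) ≤ 4 / (p : ℝ) := by positivity
    linarith
  have hV0 : 0 ≤ V := prod_nonneg fun p hp => by
    have := (hP p hp).2.2.2.1
    linarith
  have hE1 : 1 + C₁ * Real.exp (-((1 : ℕ) : ℝ)) ≤ 2 * C₁ := by
    have : Real.exp (-((1 : ℕ) : ℝ)) ≤ 1 := Real.exp_le_one_iff.2 (by norm_num)
    nlinarith
  have hXq : 0 < X / q := by positivity
  have h5 : X / q * V * (1 + C₁ * Real.exp (-((1 : ℕ) : ℝ))) ≤
      2 * C₁ * C₂ * (X / q) * (Real.log w / Real.log X) ^ 2 * Q := by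
    calc X / q * V * (1 + C₁ * Real.exp (-((1 : ℕ) : ℝ))) ≤ X / q * V * (2 * C₁) :=
          mul_le_mul_of_nonneg_left hE1 (by positivity)
      _ ≤ X / q * (C₂ * (Real.log w / Real.log X) ^ 2 * Q) * (2 * C₁) :=
          mul_le_mul_of_nonneg_right (mul_le_mul_of_nonneg_left h4 hXq.le) (by linarith)
      _ = _ := by ring
  have h6 : 2 * z ^ 9 * z ^ (4 * 1 + 5) ≤ (X / q) * (Real.log w / Real.log X) ^ 2 * Q := by
    have h7 : 2 * z ^ 9 * z ^ (4 * 1 + 5) = 2 * X ^ (9 / 10 : ℝ) := by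
      have : z ^ 9 * z ^ (4 * 1 + 5) = X ^ (9 / 10 : ℝ) := by
        rw [← pow_add, hz, ← Real.rpow_natCast, ← Real.rpow_mul hX0.le]
        congr 1
        norm_num
      rw [mul_assoc, this]
    rw [h7]
    have h8 : X = X ^ (9 / 10 : ℝ) * X ^ (1 / 10 : ℝ) := by
      rw [← Real.rpow_add hX0]
      norm_num
    have h9 : 2 * X ^ (9 / 10 : ℝ) ≤ (X / q) * (1 / Real.log X) ^ 2 := by
      rw [one_div, inv_pow, ← div_eq_mul_inv, div_div, le_div_iff₀ (by positivity)]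
      calc 2 * X ^ (9 / 10 : ℝ) * (q * Real.log X ^ 2) = X ^ (9 / 10 : ℝ) * (2 * q * Real.log X ^ 2) := by ring
        _ ≤ X ^ (9 / 10 : ℝ) * X ^ (1 / 10 : ℝ) := mul_le_mul_of_nonneg_left a2 (by positivity)
        _ = X := h8.symm
    refine h9.trans ?_
    have h10 : (1 / Real.log X) ^ 2 ≤ (Real.log w / Real.log X) ^ 2 :=
      pow_le_pow_left₀ (by positivity) (div_le_div_of_nonneg_right hlw hlX.le) 2
    calc (X / q) * (1 / Real.log X) ^ 2 ≤ (X / q) * (Real.log w / Real.log X) ^ 2 :=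
          mul_le_mul_of_nonneg_left h10 hXq.le
      _ ≤ (X / q) * (Real.log w / Real.log X) ^ 2 * Q := le_mul_of_one_le_right (by positivity) hQ1
  calc _ ≤ 2 * C₁ * C₂ * (X / q) * (Real.log w / Real.log X) ^ 2 * Q + (X / q) * (Real.log w / Real.log X) ^ 2 * Q :=
        add_le_add h5 h6
    _ = _ := by ring

end Pool.Agent.W33f
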