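import Pool.Agent.W_d33b62f_h37.FD3d
import Pool.Agent.W_d33b62f_h37.FD2b
import Pool.Agent.W_d33b62f_h37.FD3a

/-!
# MP_d33b62_nt, full question, T8 (D): the exceptional part
-/

set_option autoImplicit false

noncomputable section

open Finset

namespace Pool.Agent.W33f

open Pool.Agent.Wb58c63 (PI mem_PI VP below ap aw Pr XM Sd Er)

/-- Everything that has to hold for large `T`. -/
private theorem FD3_ev (η : ℝ) (hη : 0 < η) (w : ℕ) (X₀ T₁ : ℝ) : ∃ T₀ : ℝ, 2 ≤ T₀ ∧ ∀ T : ℝ, T₀ ≤ T →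
    T₁ ≤ T ∧ (w : ℝ) ≤ T ∧ 2 ≤ T ^ η ∧ X₀ ≤ T ^ (17 / 40 : ℝ) ∧ (w : ℝ) < T ^ (17 / 40 : ℝ) ∧ (w : ℝ) ≤ T ^ (7 * η) := by
  have h1 := tendsto_rpow_atTop (y := η) hη
  have h2 := tendsto_rpow_atTop (y := (17 / 40 : ℝ)) (by norm_num)
  have h3 := tendsto_rpow_atTop (y := 7 * η) (by positivity)
  have h : ∀ᶠ T : ℝ in Filter.atTop, T₁ ≤ T ∧ (w : ℝ) ≤ T ∧ 2 ≤ T ^ η ∧ X₀ ≤ T ^ (17 / 40 : ℝ) ∧
      (w : ℝ) < T ^ (17 / 40 : ℝ) ∧ (w : ℝ) ≤ T ^ (7 * η) := by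
    filter_upwards [Filter.eventually_ge_atTop T₁, Filter.eventually_ge_atTop (w : ℝ), h1.eventually_ge_atTop 2,
      h2.eventually_ge_atTop X₀, h2.eventually_gt_atTop (w : ℝ), h3.eventually_ge_atTop (w : ℝ)] with T a b c d e f
    exact ⟨a, b, c, d, e, f⟩
  obtain ⟨T₀, h0⟩ := Filter.eventually_atTop.1 h
  exact ⟨max 2 T₀, le_max_left _ _, fun T hT => h0 T (le_trans (le_max_right _ _) hT)⟩

private theorem FD3_z {η T : ℝ} (hη : 0 < η) (hη1 : η ≤ 1 / 40) (hT : 2 ≤ T) :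
    T ^ (1 / 2 - 3 * η) ≤ zT η T ∧ T ^ (17 / 40 : ℝ) ≤ T ^ (1 / 2 - 3 * η) := by
  constructor
  · unfold zT
    apply Real.rpow_le_rpow_of_exponent_le (by linarith)
    rw [le_div_iff₀ (by linarith)]
    nlinarith
  · apply Real.rpow_le_rpow_of_exponent_le (by linarith)
    linarith

/-- The size conditions. -/
private theorem FD3_mem {η T : ℝ} {w W a₀ E al : ℕ} (hη : 0 < η) (hη1 : η ≤ 1 / 40) (hT : 2 ≤ T) (hTη : 2 ≤ T ^ η)
    (ha : (a₀ : ℝ) ≤ T) (hE : E ≠ 0) {m r s : ℕ} (h : (m, r, s) ∈ Ex3 w W a₀ E al T (zT η T)) :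
    T ^ (1 / 2 - 3 * η) ≤ r ∧ (r : ℝ) < T ^ (1 / 2 + η) ∧ (m : ℝ) ≤ T ^ (7 * η) ∧ T ^ (17 / 40 : ℝ) ≤ s ∧
      (m : ℝ) * r * s ≤ 2 * T ∧ (s : ℝ) ≤ 2 * T / (E * m * r) := by
  obtain ⟨-, hm0, hrp, hsp, -, -, hz, hrs, q, -, -, hq2, -, hq4⟩ := h
  simp only at hm0 hrp hsp hz hrs hq4
  have hT0 : 0 < T := by linarith
  obtain ⟨hz1, hz2⟩ := FD3_z hη hη1 hT
  have hm1 : (1 : ℝ) ≤ m := by exact_mod_cast Nat.one_le_iff_ne_zero.2 hm0
  have hE1 : (1 : ℝ) ≤ E := by exact_mod_cast Nat.one_le_iff_ne_zero.2 hE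
  have hr0 : (0 : ℝ) < r := by exact_mod_cast hrp.pos
  have hs0 : (0 : ℝ) < s := by exact_mod_cast hsp.pos
  have hrs' : (r : ℝ) ≤ s := by exact_mod_cast hrs
  have hzr : T ^ (1 / 2 - 3 * η) ≤ r := le_trans hz1 hz
  have hq4' : (q : ℝ) + a₀ = 2 * E * (m * r * s) := by exact_mod_cast hq4
  have hall : (E : ℝ) * (m * r * s) ≤ 2 * T := by nlinarith
  have hmrs0 : (0 : ℝ) < m * r * s := by positivity
  have hmrs : (m : ℝ) * r * s ≤ 2 * T := by nlinarith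
  have hrr : (r : ℝ) ^ 2 ≤ 2 * T := by
    have : (r : ℝ) ^ 2 ≤ m * r * s := by
      have h1 : (r : ℝ) * r ≤ r * s := by nlinarith
      have h2 : (r : ℝ) * s ≤ m * (r * s) := by
        have : 0 < (r : ℝ) * s := by positivity
        nlinarith
      nlinarith
    linarith
  refine ⟨hzr, ?_, ?_, le_trans hz2 (le_trans hzr hrs'), hmrs, ?_⟩
  · -- `r < T ^ (1/2 + η)`
    have h1 : (T ^ (1 / 2 + η)) ^ 2 = T * (T ^ η) ^ 2 := by
      rw [← Real.rpow_natCast (T ^ (1 / 2 + η)) 2, ← Real.rpow_mul hT0.le, ← Real.rpow_natCast (T ^ η) 2, ← Real.rpow_mul hT0.le]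
      nth_rewrite 2 [← Real.rpow_one T]
      rw [← Real.rpow_add hT0]
      congr 1
      push_cast
      ring
    have h2 : (0 : ℝ) ≤ T ^ (1 / 2 + η) := Real.rpow_nonneg hT0.le _
    have h3 : (r : ℝ) ^ 2 < (T ^ (1 / 2 + η)) ^ 2 := by
      rw [h1]
      have h5 : (4 : ℝ) ≤ (T ^ η) ^ 2 := by nlinarith
      have h6 : T * 4 ≤ T * (T ^ η) ^ 2 := by gcongr
      linarith
    exact lt_of_pow_lt_pow_left₀ 2 h2 h3
  · -- `m ≤ T ^ (7 η)`
    have h1 : T ^ (1 / 2 - 3 * η) * T ^ (1 / 2 - 3 * η) = T * T ^ (-(6 * η)) := by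
      rw [← Real.rpow_add hT0]
      nth_rewrite 2 [← Real.rpow_one T]
      rw [← Real.rpow_add hT0]
      congr 1
      ring
    have hz0 : (0 : ℝ) < T ^ (1 / 2 - 3 * η) := Real.rpow_pos_of_pos hT0 _
    have h2 : T ^ (1 / 2 - 3 * η) * T ^ (1 / 2 - 3 * η) ≤ (r : ℝ) * s :=
      mul_le_mul hzr (le_trans hzr hrs') hz0.le hr0.le
    have h3 : (m : ℝ) * (T * T ^ (-(6 * η))) ≤ 2 * T := by
      rw [← h1]
      calc (m : ℝ) * (T ^ (1 / 2 - 3 * η) * T ^ (1 / 2 - 3 * η)) ≤ m * (r * s) := by gcongr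
        _ = m * r * s := by ring
        _ ≤ _ := hmrs
    have h4 : (m : ℝ) * T ^ (-(6 * η)) ≤ 2 := by
      have h5 : (m : ℝ) * T ^ (-(6 * η)) * T ≤ 2 * T := by linarith
      exact le_of_mul_le_mul_right h5 hT0
    have h6 : T ^ (7 * η) = T ^ (6 * η) * T ^ η := by
      rw [← Real.rpow_add hT0]
      congr 1
      ring
    have h7 : T ^ (-(6 * η)) * T ^ (6 * η) = 1 := by
      rw [← Real.rpow_add hT0]
      simp
    have h8 : (0 : ℝ) < T ^ (6 * η) := Real.rpow_pos_of_pos hT0 _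
    calc (m : ℝ) = m * (T ^ (-(6 * η)) * T ^ (6 * η)) := by rw [h7, mul_one]
      _ = m * T ^ (-(6 * η)) * T ^ (6 * η) := by ring
      _ ≤ 2 * T ^ (6 * η) := by gcongr
      _ = T ^ (6 * η) * 2 := by ring
      _ ≤ T ^ (6 * η) * T ^ η := by gcongr
      _ = _ := h6.symm
  · rw [le_div_iff₀ (by positivity)]
    nlinarith

/-- The class of `r'`. -/
private theorem FD3_cls {T z : ℝ} {w W a₀ E al : ℕ} (hF : FDok w W a₀ E al) {m r s s' : ℕ} (hw : (w : ℝ) < r)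
    (h : (m, r, s) ∈ Ex3 w W a₀ E al T z) (h' : (m, r, s') ∈ Ex3 w W a₀ E al T z) :
    s' ≡ s [MOD 2 * (W / E)] := by
  obtain ⟨hmp, hm0, hrp, -, -, -, -, -, q, -, -, -, hqc, hq4⟩ := h
  obtain ⟨-, -, -, -, -, -, -, -, q', -, -, -, hqc', hq4'⟩ := h'
  simp only at hmp hm0 hrp hq4 hq4'
  have h1 : 2 * E * (m * r * s') ≡ 2 * E * (m * r * s) [MOD 4 * W] := by
    rw [← hq4, ← hq4']
    exact Nat.ModEq.add_right _ (hqc'.trans hqc.symm)
  have h2 : 4 * W = 2 * E * (2 * (W / E)) := by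
    have := Nat.mul_div_cancel' hF.EW
    calc 4 * W = 4 * (E * (W / E)) := by rw [this]
      _ = _ := by ring
  rw [h2] at h1
  have h3 : m * r * s' ≡ m * r * s [MOD 2 * (W / E)] :=
    Nat.ModEq.mul_left_cancel' (by have := hF.E0; positivity) h1
  refine Nat.ModEq.cancel_left_of_coprime ?_ h3
  -- `m r` is coprime to `2 W / E`
  rw [← Nat.coprime_iff_gcd_eq_one]
  apply Nat.Coprime.symm
  refine Nat.coprime_of_dvd fun p hp hpm hpW => ?_
  have hpw : p ≤ w := by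
    rw [← hF.wok.1 p hp]
    rcases (Nat.Prime.dvd_mul hp).1 hpW with h4 | h4
    · exact h4.trans (dvd_trans (by norm_num) hF.wok.2.1)
    · exact h4.trans (Nat.div_dvd_of_dvd hF.EW)
  rcases (Nat.Prime.dvd_mul hp).1 hpm with h4 | h4
  · exact absurd (hmp p (Nat.mem_primeFactors.2 ⟨hp, h4, hm0⟩)).1 (by omega)
  · rw [Nat.prime_dvd_prime_iff_eq hp hrp] at h4
    subst h4
    have : w < p := by exact_mod_cast hw
    omega

/-- The number of `r'` for given `m'` and `r`. -/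
private theorem FD3_cnt {C X₀ η T : ℝ} {w W a₀ E al : ℕ} (hC : 0 < C) (hw4 : 4 ≤ w) (hη : 0 < η) (hη1 : η ≤ 1 / 40) (hT : 2 ≤ T)
    (hTη : 2 ≤ T ^ η) (hTw : (w : ℝ) ≤ T) (hX : X₀ ≤ T ^ (17 / 40 : ℝ)) (hTw' : (w : ℝ) < T ^ (17 / 40 : ℝ)) (hF : FDok w W a₀ E al)
    (hsv : ∀ X : ℝ, X₀ ≤ X → ∀ a₀ A ρ : ℕ, a₀ ≠ 0 → a₀ ≤ w → A ≠ 0 →
      (((Icc 1 ⌊X⌋₊).filter (fun r : ℕ => r ≡ ρ [MOD 2 * (W / E)] ∧ ∀ p ∈ PI ((w : ℝ) + 1) (X ^ (1 / 20 : ℝ)),
        ¬ (p : ℤ) ∣ (r : ℤ) * ((A : ℤ) * r - a₀))).card : ℝ) ≤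
        C * (X / (2 * (W / E) : ℕ)) * (Real.log w / Real.log X) ^ 2 * ∏ p ∈ A.primeFactors.filter (w < ·), (1 + 4 / (p : ℝ)))
    (F : Finset (ℕ × ℕ × ℕ)) (hFF : ∀ t ∈ F, t ∈ Ex3 w W a₀ E al T (zT η T)) (m r : ℕ) :
    (((F.filter fun t => (t.1, t.2.1) = (m, r)).card : ℕ) : ℝ) ≤
      32 * C * (T / W) * (Real.log w / Real.log T) ^ 2 * ((∏ p ∈ m.primeFactors, (1 + 4 / (p : ℝ))) / m) * (1 / r) := by
  have hT0 : 0 < T := by linarith
  have hprod : 0 ≤ ∏ p ∈ m.primeFactors, (1 + 4 / (p : ℝ)) := prod_nonneg fun p _ => by positivity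
  by_cases hne : (F.filter fun t => (t.1, t.2.1) = (m, r)) = ∅
  · rw [hne, card_empty, Nat.cast_zero]
    positivity
  obtain ⟨⟨m1, r1, s₀⟩, ht0⟩ := Finset.nonempty_iff_ne_empty.2 hne
  obtain ⟨ht1, ht2⟩ := mem_filter.1 ht0
  simp only [Prod.mk.injEq] at ht2
  rw [ht2.1, ht2.2] at ht1
  have hE0 := hF.E0
  have haT : (a₀ : ℝ) ≤ T := le_trans (by exact_mod_cast hF.a0w) hTw
  have hmem := fun s (h : (m, r, s) ∈ Ex3 w W a₀ E al T (zT η T)) => FD3_mem hη hη1 hT hTη haT hE0 h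
  have hx0 := hFF _ ht1
  obtain ⟨a1, a2, a3, a4, a5, a6⟩ := hmem s₀ hx0
  obtain ⟨hmp, hm0, hrp, hsp, -, -, -, -, -⟩ := id hx0
  simp only at hmp hm0 hrp hsp
  have hm1 : (1 : ℝ) ≤ m := by exact_mod_cast Nat.one_le_iff_ne_zero.2 hm0
  have hE1 : (1 : ℝ) ≤ E := by exact_mod_cast Nat.one_le_iff_ne_zero.2 hE0
  have hr0 : (0 : ℝ) < r := by exact_mod_cast hrp.pos
  have hW0 : W ≠ 0 := by
    rintro rfl
    exact hF.wok.2.2 (by simp)
  have hW1 : (1 : ℝ) ≤ W := by exact_mod_cast Nat.one_le_iff_ne_zero.2 hW0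
  have hrw : (w : ℝ) < r := lt_of_lt_of_le hTw' (le_trans (FD3_z hη hη1 hT).2 a1)
  have hw4' : (4 : ℝ) ≤ w := by exact_mod_cast hw4
  set X : ℝ := 2 * T / (E * m * r) with hXdef
  have hXbig : T ^ (17 / 40 : ℝ) ≤ X := le_trans a4 a6
  have hXT : X ≤ 2 * T := by
    rw [hXdef]
    apply div_le_self (by linarith)
    have hr1 : (1 : ℝ) ≤ r := by linarith
    nlinarith [mul_le_mul hE1 hm1 zero_le_one (by linarith : (0:ℝ) ≤ E)]
  have hX0 : 0 < X := lt_of_lt_of_le (Real.rpow_pos_of_pos hT0 _) hXbig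
  -- the sifting limit is small
  have hX20 : X ^ (1 / 20 : ℝ) ≤ T ^ (1 / 10 : ℝ) := by
    calc X ^ (1 / 20 : ℝ) ≤ (T ^ (2 : ℝ)) ^ (1 / 20 : ℝ) := by
          apply Real.rpow_le_rpow hX0.le _ (by norm_num)
          rw [Real.rpow_two]
          nlinarith
      _ = _ := by
          rw [← Real.rpow_mul hT0.le]
          norm_num
  have hT10 : T ^ (1 / 10 : ℝ) < T ^ (17 / 40 : ℝ) := Real.rpow_lt_rpow_of_exponent_lt (by linarith) (by norm_num)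
  have hT11 : T ^ (17 / 40 : ℝ) ≤ T := by
    conv_rhs => rw [← Real.rpow_one T]
    exact Real.rpow_le_rpow_of_exponent_le (by linarith) (by norm_num)
  -- the bound of the sieve
  have hS := hsv X (le_trans hX hXbig) a₀ (2 * E * (m * r)) s₀ hF.a0p.ne_zero hF.a0w
    (by have := hrp.ne_zero; positivity)
  -- the injection
  have hcard : (F.filter fun t => (t.1, t.2.1) = (m, r)).card ≤ ((Icc 1 ⌊X⌋₊).filter (fun s : ℕ => s ≡ s₀ [MOD 2 * (W / E)] ∧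
      ∀ p ∈ PI ((w : ℝ) + 1) (X ^ (1 / 20 : ℝ)), ¬ (p : ℤ) ∣ (s : ℤ) * (((2 * E * (m * r) : ℕ) : ℤ) * s - a₀))).card := by
    apply Finset.card_le_card_of_injOn (fun t => t.2.2)
    · rintro ⟨m2, r2, s⟩ ht
      obtain ⟨hb1, hb2⟩ := mem_filter.1 (mem_coe.1 ht)
      simp only [Prod.mk.injEq] at hb2
      rw [hb2.1, hb2.2] at hb1
      have hb := hFF _ hb1
      obtain ⟨b1, b2, b3, b4, b5, b6⟩ := hmem s hb
      refine mem_coe.2 (mem_filter.2 ⟨mem_Icc.2 ⟨?_, Nat.le_floor b6⟩, FD3_cls hF hrw hx0 hb, fun p hp hdvd => ?_⟩)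
      · obtain ⟨-, -, -, hsp2, -⟩ := hb
        exact hsp2.pos
      · obtain ⟨hpp, -, hpX⟩ := mem_PI.1 hp
        obtain ⟨-, -, -, hsp2, -, -, -, -, q, hqp, hTq, -, -, hq4⟩ := id hb
        simp only at hsp2 hq4
        have hq5 : ((2 * E * (m * r) : ℕ) : ℤ) * s - a₀ = q := by
          have : ((q + a₀ : ℕ) : ℤ) = (2 * E * (m * r * s) : ℕ) := by rw [hq4]
          push_cast at this ⊢
          linarith
        rw [hq5] at hdvd
        have hdvd' : p ∣ s * q := by exact_mod_cast hdvd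
        rcases (Nat.Prime.dvd_mul hpp).1 hdvd' with h4 | h4
        · rw [Nat.prime_dvd_prime_iff_eq hpp hsp2] at h4
          subst h4
          linarith
        · rw [Nat.prime_dvd_prime_iff_eq hpp hqp] at h4
          subst h4
          linarith
    · rintro ⟨m2, r2, s⟩ ht ⟨m3, r3, s'⟩ ht' heq
      obtain ⟨-, hb2⟩ := mem_filter.1 (mem_coe.1 ht)
      obtain ⟨-, hb3⟩ := mem_filter.1 (mem_coe.1 ht')
      simp only [Prod.mk.injEq] at hb2 hb3 heq ⊢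
      exact ⟨hb2.1.trans hb3.1.symm, hb2.2.trans hb3.2.symm, heq⟩
  have hcard' : (((F.filter fun t => (t.1, t.2.1) = (m, r)).card : ℕ) : ℝ) ≤ (((Icc 1 ⌊X⌋₊).filter (fun s : ℕ => s ≡ s₀ [MOD 2 * (W / E)] ∧
      ∀ p ∈ PI ((w : ℝ) + 1) (X ^ (1 / 20 : ℝ)), ¬ (p : ℤ) ∣ (s : ℤ) * (((2 * E * (m * r) : ℕ) : ℤ) * s - a₀))).card : ℝ) := by
    exact_mod_cast hcard
  refine hcard'.trans (hS.trans ?_)
  -- the three factors
  have hdiv : X / (2 * (W / E) : ℕ) = T / W * (1 / m) * (1 / r) := by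
    have h1 : ((W / E : ℕ) : ℝ) = W / E := Nat.cast_div hF.EW (by exact_mod_cast hE0)
    rw [hXdef]
    push_cast [h1]
    field_simp
  have hlog : (Real.log w / Real.log X) ^ 2 ≤ 16 * (Real.log w / Real.log T) ^ 2 := by
    have hlT : 0 < Real.log T := Real.log_pos (by linarith)
    have hlw : 0 ≤ Real.log w := Real.log_nonneg (by linarith)
    have h1 : Real.log T / 4 ≤ Real.log X := by
      have h2 : Real.log (T ^ (17 / 40 : ℝ)) ≤ Real.log X := Real.log_le_log (Real.rpow_pos_of_pos hT0 _) hXbig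
      rw [Real.log_rpow hT0] at h2
      linarith
    have h3 : Real.log w / Real.log X ≤ 4 * (Real.log w / Real.log T) := by
      calc Real.log w / Real.log X ≤ Real.log w / (Real.log T / 4) := by gcongr
        _ = _ := by field_simp
    have h4 : 0 ≤ Real.log w / Real.log X := div_nonneg hlw (by linarith)
    calc (Real.log w / Real.log X) ^ 2 ≤ (4 * (Real.log w / Real.log T)) ^ 2 := by gcongr
      _ = _ := by ring
  have hpr : ∏ p ∈ (2 * E * (m * r)).primeFactors.filter (w < ·), (1 + 4 / (p : ℝ)) ≤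
      2 * ∏ p ∈ m.primeFactors, (1 + 4 / (p : ℝ)) := by
    have hsub : (2 * E * (m * r)).primeFactors.filter (w < ·) ⊆ insert r m.primeFactors := by
      intro p hp
      obtain ⟨h1, h2⟩ := mem_filter.1 hp
      obtain ⟨h3, h4, -⟩ := Nat.mem_primeFactors.1 h1
      rw [mem_insert, Nat.mem_primeFactors]
      rcases (Nat.Prime.dvd_mul h3).1 h4 with h5 | h5
      · exfalso
        have : p ≤ w := by
          rcases (Nat.Prime.dvd_mul h3).1 h5 with h6 | h6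
          · have := Nat.le_of_dvd (by norm_num) h6
            omega
          · exact (hF.wok.1 p h3).1 (h6.trans hF.EW)
        omega
      · rcases (Nat.Prime.dvd_mul h3).1 h5 with h6 | h6
        · exact Or.inr ⟨h3, h6, hm0⟩
        · left
          rwa [Nat.prime_dvd_prime_iff_eq h3 hrp] at h6
    have h1 : ∏ p ∈ (2 * E * (m * r)).primeFactors.filter (w < ·), (1 + 4 / (p : ℝ)) ≤ ∏ p ∈ insert r m.primeFactors, (1 + 4 / (p : ℝ)) := by
      rw [← Finset.prod_sdiff hsub]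
      have ha : (1 : ℝ) ≤ ∏ p ∈ insert r m.primeFactors \ (2 * E * (m * r)).primeFactors.filter (w < ·), (1 + 4 / (p : ℝ)) := by
        calc (1 : ℝ) = ∏ p ∈ insert r m.primeFactors \ (2 * E * (m * r)).primeFactors.filter (w < ·), (1 : ℝ) := by
              rw [Finset.prod_const_one]
          _ ≤ _ := by
              apply Finset.prod_le_prod (fun _ _ => zero_le_one)
              intro p _
              have : (0 : ℝ) ≤ 4 / p := by positivity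
              linarith
      have hb : 0 ≤ ∏ p ∈ (2 * E * (m * r)).primeFactors.filter (w < ·), (1 + 4 / (p : ℝ)) := prod_nonneg fun p _ => by positivity
      nlinarith
    refine h1.trans ?_
    have h2 : ∏ p ∈ insert r m.primeFactors, (1 + 4 / (p : ℝ)) ≤ (1 + 4 / (r : ℝ)) * ∏ p ∈ m.primeFactors, (1 + 4 / (p : ℝ)) := by
      by_cases h : r ∈ m.primeFactors
      · rw [insert_eq_of_mem h]
        have : (0 : ℝ) ≤ 4 / r := by positivity
        nlinarith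
      · rw [prod_insert h]
    refine h2.trans ?_
    have h3 : 1 + 4 / (r : ℝ) ≤ 2 := by
      have : 4 / (r : ℝ) ≤ 1 := by
        rw [div_le_one hr0]
        linarith
      linarith
    gcongr
  rw [hdiv]
  calc C * (T / W * (1 / m) * (1 / r)) * (Real.log w / Real.log X) ^ 2 * ∏ p ∈ (2 * E * (m * r)).primeFactors.filter (w < ·), (1 + 4 / (p : ℝ))
      ≤ C * (T / W * (1 / m) * (1 / r)) * (16 * (Real.log w / Real.log T) ^ 2) * (2 * ∏ p ∈ m.primeFactors, (1 + 4 / (p : ℝ))) := by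
        gcongr
    _ = _ := by ring

/-- **FD3.**

Proof. For given `m'`, `r`: `r' ≤ X' = 2 T / (E m' r)` (if `T ≥ a₀`), `r' ≥ z`, `m' r r' ≡ m₀ mod 2 W / E`, `m' r` is coprime to `W`, so `r'` lies in a class
mod `2 W / E`; `r'` and `2 E m' r r' - a₀` have no prime factor below `X' ^ (1/20)`. `FD3a` with `A = 2 E m' r`, `X = X'`, `q = 2 W / E`:
`≤ C (T / (W m' r)) (log w / log T) ^ 2 ∏_{p ∣ m'} (1 + 4 / p) * 2` (`log X' ≥ log z ≥ log T / 4`). `z ≥ T ^ (1/2 - 3 η)`, `r ≤ √(2 T) < T ^ (1/2 + η)`,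
`m' ≤ 2 T / z ^ 2 ≤ T ^ (7 η)`. `r_sum`: `∑ 1 / r ≤ 30 η`; `m_sum`: `∑ 2 ^ ω(m') ... / m' ≤ C 7 η log T / log w`. Total
`C η ^ 2 (T / W) log w / log T`, and `φ(4 W) ≤ 4 W C / log w` (`phi_W` for `4 W`). -/
theorem FD3 : ∃ C : ℝ, 0 < C ∧ ∀ η : ℝ, 0 < η → η ≤ 1 / 40 → ∀ w : ℕ, 4 ≤ w → ∀ W, Wok w W → ∀ E : ℕ, E ≠ 0 → E ∣ W → ∃ T₀ : ℝ, 2 ≤ T₀ ∧
    ∀ T : ℝ, T₀ ≤ T → ∀ a₀ al : ℕ, FDok w W a₀ E al → (Ex3 w W a₀ E al T (zT η T)).Finite ∧
      ∑ᶠ t ∈ Ex3 w W a₀ E al T (zT η T), (2 : ℝ) ^ (t.1.primeFactors.card) ≤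
        C * η ^ 2 * (T / ((4 * W).totient * Real.log T)) := by
  obtain ⟨C, hC, hsv⟩ := FD3a
  obtain ⟨Cm, hCm, hm⟩ := m_sum
  obtain ⟨cφ, Cφ, -, hCφ, hφ⟩ := Pool.Agent.Wd33b62.phi_W
  refine ⟨32 * C * 30 * (Cm * 7) * (4 * Cφ), by positivity, fun η hη hη1 w hw4 W hW E hE0 hEW => ?_⟩
  have hW0 : W ≠ 0 := by
    rintro rfl
    exact hW.2.2 (by simp)
  have hWE0 : W / E ≠ 0 := by
    have := Nat.div_pos (Nat.le_of_dvd (Nat.pos_of_ne_zero hW0) hEW) (Nat.pos_of_ne_zero hE0)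
    omega
  obtain ⟨X₀, hX₀, hsv1⟩ := hsv w hw4 (2 * (W / E)) (by positivity) (by
    intro p hp hpW
    rw [← hW.1 p hp]
    rcases (Nat.Prime.dvd_mul hp).1 hpW with h4 | h4
    · exact h4.trans (dvd_trans (by norm_num) hW.2.1)
    · exact h4.trans (Nat.div_dvd_of_dvd hEW))
  obtain ⟨T₁, hT₁, hr⟩ := r_sum η hη hη1
  obtain ⟨T₀, hT₀, hT₀'⟩ := FD3_ev η hη w X₀ T₁
  refine ⟨T₀, hT₀, fun T hT a₀ al hF => ?_⟩
  obtain ⟨e1, e2, e3, e4, e5, e6⟩ := hT₀' T hT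
  have hT2 : 2 ≤ T := le_trans hT₀ hT
  have hT0 : 0 < T := by linarith
  have haT : (a₀ : ℝ) ≤ T := le_trans (by exact_mod_cast hF.a0w) e2
  have hfin : (Ex3 w W a₀ E al T (zT η T)).Finite := by
    apply Set.Finite.subset (((Icc 0 ⌊2 * T⌋₊) ×ˢ (Icc 0 ⌊2 * T⌋₊) ×ˢ (Icc 0 ⌊2 * T⌋₊) : Finset (ℕ × ℕ × ℕ)).finite_toSet)
    rintro ⟨m, r, s⟩ h
    obtain ⟨-, -, -, -, h5, -⟩ := FD3_mem hη hη1 hT2 e3 haT hE0 h
    obtain ⟨-, hm0, hrp, hsp, -⟩ := h
    simp only at hm0 hrp hsp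
    have h5' : ((m * r * s : ℕ) : ℝ) ≤ 2 * T := by exact_mod_cast h5
    have h6 := Nat.le_floor h5'
    have hr1 := hrp.pos
    have hs1 := hsp.pos
    have hm1 := Nat.pos_of_ne_zero hm0
    simp only [coe_product, coe_Icc, Set.mem_prod, Set.mem_Icc, zero_le, true_and]
    refine ⟨le_trans ?_ h6, le_trans ?_ h6, le_trans ?_ h6⟩
    · calc m = m * 1 * 1 := by ring
        _ ≤ m * r * s := by gcongr <;> omega
    · calc r = 1 * r * 1 := by ring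
        _ ≤ m * r * s := by gcongr <;> omega
    · calc s = 1 * 1 * s := by ring
        _ ≤ m * r * s := by gcongr <;> omega
  refine ⟨hfin, ?_⟩
  rw [finsum_mem_eq_finite_toFinset_sum _ hfin]
  set F := hfin.toFinset with hFdef
  have hFF : ∀ t ∈ F, t ∈ Ex3 w W a₀ E al T (zT η T) := fun t ht => hfin.mem_toFinset.1 ht
  set M := (Icc 1 ⌊T ^ (7 * η)⌋₊).filter (fun m => ∀ p ∈ m.primeFactors, w < p ∧ p % 4 = 1) with hMdef
  set R := PI (T ^ (1 / 2 - 3 * η)) (T ^ (1 / 2 + η)) with hRdef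
  have hmaps : ∀ t ∈ F, (t.1, t.2.1) ∈ M ×ˢ R := by
    rintro ⟨m, r, s⟩ ht
    have h := hFF _ ht
    obtain ⟨b1, b2, b3, -⟩ := FD3_mem hη hη1 hT2 e3 haT hE0 h
    obtain ⟨hmp, hm0, hrp, hsp, -⟩ := h
    simp only at hmp hm0 hrp hsp
    rw [mem_product, hMdef, mem_filter, mem_Icc, hRdef, mem_PI]
    exact ⟨⟨⟨Nat.pos_of_ne_zero hm0, Nat.le_floor b3⟩, hmp⟩, hrp, b1, b2⟩
  rw [← Finset.sum_fiberwise_of_maps_to hmaps, sum_product]
  have hlT : 0 < Real.log T := Real.log_pos (by linarith)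
  have hw4' : (4 : ℝ) ≤ w := by exact_mod_cast hw4
  have hlw : 0 < Real.log w := Real.log_pos (by linarith)
  have hWr : (0 : ℝ) < W := by exact_mod_cast Nat.pos_of_ne_zero hW0
  have hstep : ∀ m ∈ M, ∀ r ∈ R, ∑ t ∈ F with (t.1, t.2.1) = (m, r), (2 : ℝ) ^ (t.1.primeFactors.card) ≤
      32 * C * (T / W) * (Real.log w / Real.log T) ^ 2 *
        (((2 : ℝ) ^ m.primeFactors.card * (∏ p ∈ m.primeFactors, (1 + 4 / (p : ℝ))) / m) * (1 / r)) := by
    intro m _ r _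
    have h1 : ∑ t ∈ F with (t.1, t.2.1) = (m, r), (2 : ℝ) ^ (t.1.primeFactors.card) =
        ((F.filter fun t => (t.1, t.2.1) = (m, r)).card : ℕ) * (2 : ℝ) ^ m.primeFactors.card := by
      rw [← nsmul_eq_mul, ← sum_const]
      apply sum_congr rfl
      intro t ht
      obtain ⟨-, h2⟩ := mem_filter.1 ht
      simp only [Prod.mk.injEq] at h2
      rw [h2.1]
    rw [h1]
    have h2 := FD3_cnt hC hw4 hη hη1 hT2 e3 e2 e4 e5 hF hsv1 F hFF m r
    calc ((F.filter fun t => (t.1, t.2.1) = (m, r)).card : ℕ) * (2 : ℝ) ^ m.primeFactors.card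
        ≤ (32 * C * (T / W) * (Real.log w / Real.log T) ^ 2 * ((∏ p ∈ m.primeFactors, (1 + 4 / (p : ℝ))) / m) * (1 / r)) *
          (2 : ℝ) ^ m.primeFactors.card := by gcongr
      _ = _ := by ring
  have hsum := sum_le_sum fun m hm => sum_le_sum fun r hr => hstep m hm r hr
  refine hsum.trans ?_
  have hM := hm w (by omega) (T ^ (7 * η)) e6
  rw [Real.log_rpow hT0] at hM
  have hR := hr T e1
  have hprod : ∀ m ∈ M, 0 ≤ (2 : ℝ) ^ m.primeFactors.card * (∏ p ∈ m.primeFactors, (1 + 4 / (p : ℝ))) / m := fun m _ => by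
    have : 0 ≤ ∏ p ∈ m.primeFactors, (1 + 4 / (p : ℝ)) := prod_nonneg fun p _ => by positivity
    positivity
  have hfac : ∑ m ∈ M, ∑ r ∈ R, 32 * C * (T / W) * (Real.log w / Real.log T) ^ 2 *
        (((2 : ℝ) ^ m.primeFactors.card * (∏ p ∈ m.primeFactors, (1 + 4 / (p : ℝ))) / m) * (1 / r)) =
      32 * C * (T / W) * (Real.log w / Real.log T) ^ 2 *
        ((∑ m ∈ M, (2 : ℝ) ^ m.primeFactors.card * (∏ p ∈ m.primeFactors, (1 + 4 / (p : ℝ))) / m) * ∑ r ∈ R, (1 : ℝ) / r) := by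
    rw [sum_mul_sum, mul_sum]
    apply sum_congr rfl
    intro m _
    rw [mul_sum]
  rw [hfac]
  have hMR : (∑ m ∈ M, (2 : ℝ) ^ m.primeFactors.card * (∏ p ∈ m.primeFactors, (1 + 4 / (p : ℝ))) / m) * ∑ r ∈ R, (1 : ℝ) / r ≤
      (Cm * (7 * η * Real.log T / Real.log w)) * (30 * η) := by
    apply mul_le_mul hM hR
    · exact sum_nonneg fun r _ => by positivity
    · positivity
  have hphi : (1 : ℝ) / W ≤ 4 * Cφ / Real.log w * (1 / (4 * W).totient) := by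
    have h4W : ∀ p : ℕ, p.Prime → (p ∣ 4 * W ↔ p ≤ w) := by
      intro p hp
      rw [← hW.1 p hp]
      constructor
      · intro h
        rcases (Nat.Prime.dvd_mul hp).1 h with h4 | h4
        · exact h4.trans (dvd_trans (by norm_num) hW.2.1)
        · exact h4
      · intro h
        exact h.trans (Dvd.intro_left _ rfl)
    have h1 := (hφ w (4 * W) (by omega) (by positivity) h4W).2
    have h2 : (0 : ℝ) < (4 * W).totient := by
      exact_mod_cast Nat.totient_pos.2 (by positivity)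
    push_cast at h1
    rw [div_le_div_iff₀ (by positivity) hlw] at h1
    rw [div_mul_div_comm, div_le_div_iff₀ hWr (by positivity)]
    nlinarith
  calc 32 * C * (T / W) * (Real.log w / Real.log T) ^ 2 *
        ((∑ m ∈ M, (2 : ℝ) ^ m.primeFactors.card * (∏ p ∈ m.primeFactors, (1 + 4 / (p : ℝ))) / m) * ∑ r ∈ R, (1 : ℝ) / r)
      ≤ 32 * C * (T / W) * (Real.log w / Real.log T) ^ 2 * ((Cm * (7 * η * Real.log T / Real.log w)) * (30 * η)) := by gcongr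
    _ = 32 * C * 30 * (Cm * 7) * η ^ 2 * T * (Real.log w / Real.log T) * (1 / W) := by
        field_simp
    _ ≤ 32 * C * 30 * (Cm * 7) * η ^ 2 * T * (Real.log w / Real.log T) * (4 * Cφ / Real.log w * (1 / (4 * W).totient)) := by gcongr
    _ = _ := by
        field_simp

end Pool.Agent.W33f
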