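import Pool.Agent.W_d33b62f_h37.FD2c

/-!
# MP_d33b62_nt, full question, T8 (D): the exceptional part
-/

set_option autoImplicit false

noncomputable section

open Finset

namespace Pool.Agent.W33f

open Pool.Agent.Wb58c63 (PI mem_PI VP below ap aw Pr XM Sd Er)

/-- The exceptional triples `(m', r, r')`: `q = 2 E m' r r' - a₀` is a prime of `(T, 2 T]` in the class. -/
def Ex3 (w W a₀ E al : ℕ) (T z : ℝ) : Set (ℕ × ℕ × ℕ) :=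
  {t | (∀ p ∈ t.1.primeFactors, w < p ∧ p % 4 = 1) ∧ t.1 ≠ 0 ∧ t.2.1.Prime ∧ t.2.2.Prime ∧ t.2.1 % 4 = 3 ∧ t.2.2 % 4 = 3 ∧
    z ≤ t.2.1 ∧ t.2.1 ≤ t.2.2 ∧ ∃ q : ℕ, q.Prime ∧ T < q ∧ (q : ℝ) ≤ 2 * T ∧ q ≡ al [MOD 4 * W] ∧
      q + a₀ = 2 * E * (t.1 * t.2.1 * t.2.2)}

end Pool.Agent.W33f
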