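import Pool.Agent.W_d33b62f_h37.FD3d

/-!
# MP_d33b62_nt, full question, T8 (D): the lower bound for the number of neighbours of prime curvature
-/

set_option autoImplicit false

noncomputable section

open Finset

namespace Pool.Agent.W33f

open Pool.Agent.Wb58c63 (PI mem_PI VP below ap aw Pr XM Sd Er)

/-- The squarefree divisors in `Es` of `m` inject to the sets of primes of `n`. -/
theorem fd4_card (w : ℕ) (X : ℝ) (m n : ℕ) (hn : n ≠ 0)
    (H : ∀ p : ℕ, p.Prime → p % 4 = 1 → p ∣ m → p ∣ n) :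
    ((Es w X).filter (fun e => e ∣ m)).card ≤ 2 ^ n.primeFactors.card := by
  rw [← Finset.card_powerset]
  refine Finset.card_le_card_of_injOn (fun e => e.primeFactors) ?_ ?_
  · intro e he
    rw [Finset.mem_coe, Finset.mem_filter, Es, Finset.mem_filter] at he
    obtain ⟨⟨h1, h2, h3⟩, h4⟩ := he
    rw [Finset.mem_coe, Finset.mem_powerset]
    intro p hp
    have hpp := Nat.prime_of_mem_primeFactors hp
    exact Nat.mem_primeFactors.2 ⟨hpp, H p hpp (h3 p hp).2 ((Nat.dvd_of_mem_primeFactors hp).trans h4), hn⟩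
  · intro e he e' he' hee
    rw [Finset.mem_coe, Finset.mem_filter, Es, Finset.mem_filter] at he he'
    have h1 := Nat.prod_primeFactors_of_squarefree he.1.2.1
    have h2 := Nat.prod_primeFactors_of_squarefree he'.1.2.1
    simp only at hee
    rw [← h1, ← h2, hee]

/-- A number with all prime factors `≡ 1 mod 4` is `≡ 1 mod 4`. -/
theorem fd4_mod (m : ℕ) (hm : m ≠ 0) (h : ∀ p : ℕ, p.Prime → p ∣ m → p % 4 = 1) : m % 4 = 1 := by
  induction m using Nat.recOnMul with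
  | zero => exact absurd rfl hm
  | one => rfl
  | prime p hp => exact h p hp dvd_rfl
  | mul a b iha ihb =>
    have ha0 : a ≠ 0 := fun h0 => hm (by rw [h0, zero_mul])
    have hb0 : b ≠ 0 := fun h0 => hm (by rw [h0, mul_zero])
    have h1 := iha ha0 fun p hp hpa => h p hp (hpa.mul_right b)
    have h2 := ihb hb0 fun p hp hpb => h p hp (hpb.mul_left a)
    rw [Nat.mul_mod, h1, h2]

/-- **FD4a.** The pointwise inequality: for `q` with `m = mq q` without inert prime factors below `z`, `z ^ 3 > 2 T`: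
either `m` is good, or `m = m' r r'` with `(m', r, r') ∈ Ex3`; and `#{e ∈ Es : e ∣ m} ≤ 2 ^ ω(m)` resp. `≤ 2 ^ ω(m')`.

Proof. `m ≡ 1 mod 4` is odd and coprime to `W` (`FDm`), so its prime factors are `> w`; the number of the prime factors `≡ 3 mod 4` with multiplicity is even,
they are `≥ z`, at most 2 by `m ≤ 2 T < z ^ 3`. The squarefree divisors `e` of `m` composed of primes `≡ 1 mod 4` divide `m'`. -/
theorem FD4a {w W a₀ E al : ℕ} (h : FDok w W a₀ E al) (T z X : ℝ) (hT : (a₀ : ℝ) ≤ T) (hz : 2 * T < z ^ 3) (hz0 : 1 ≤ z) (q : ℕ)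
    (hq : q.Prime) (hq1 : T < q) (hq2 : (q : ℝ) ≤ 2 * T) (hqa : q ≡ al [MOD 4 * W]) (hp : ∀ p ∈ Pin w z, ¬ p ∣ mq a₀ E q) :
    (GoodP (mq a₀ E q) ∧ ((Es w X).filter (fun e => e ∣ mq a₀ E q)).card ≤ 2 ^ (mq a₀ E q).primeFactors.card) ∨
      ∃ t ∈ Ex3 w W a₀ E al T z, mq a₀ E q = t.1 * t.2.1 * t.2.2 ∧
        ((Es w X).filter (fun e => e ∣ mq a₀ E q)).card ≤ 2 ^ t.1.primeFactors.card := by
  obtain ⟨hqm, hcop, hm4⟩ := FDm h q hqa
  obtain ⟨m, hmdef⟩ : ∃ m, m = mq a₀ E q := ⟨_, rfl⟩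
  rw [← hmdef] at hqm hcop hm4 hp ⊢
  have hm0 : m ≠ 0 := by
    intro h0
    rw [h0] at hm4
    omega
  have hE1 : 1 ≤ E := Nat.one_le_iff_ne_zero.2 h.E0
  have hT5 : (5 : ℝ) ≤ T := by
    have : (5 : ℝ) ≤ (a₀ : ℝ) := by exact_mod_cast h.a05
    linarith
  have hmT : (m : ℝ) ≤ 2 * T := by
    have h1 : ((q + a₀ : ℕ) : ℝ) = 2 * E * m := by
      rw [hqm]
      push_cast
      ring
    push_cast at h1
    have h2 : (1 : ℝ) ≤ E := by exact_mod_cast hE1
    have h3 : (0 : ℝ) ≤ m := Nat.cast_nonneg m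
    have h4 : 2 * (m : ℝ) ≤ 2 * E * m := by nlinarith
    linarith
  have hmz : (m : ℝ) < z ^ 3 := by linarith
  have hw : ∀ p : ℕ, p.Prime → p ∣ m → w < p := by
    intro p hpp hpm
    by_contra hcon
    push Not at hcon
    have h1 := (h.wok.1 p hpp).2 hcon
    have h2 : p ∣ Nat.gcd m W := Nat.dvd_gcd hpm h1
    rw [hcop] at h2
    exact hpp.one_lt.ne' (Nat.dvd_one.1 h2)
  have hodd : ∀ p : ℕ, p.Prime → p ∣ m → p % 4 = 1 ∨ p % 4 = 3 := by
    intro p hpp hpm
    rcases hpp.eq_two_or_odd with h2 | h2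
    · exfalso
      rw [h2] at hpm
      omega
    · omega
  have hz3 : ∀ p : ℕ, p.Prime → p ∣ m → p % 4 = 3 → z ≤ p := by
    intro p hpp hpm hp3
    by_contra hcon
    push Not at hcon
    refine hp p ?_ hpm
    unfold Pin
    rw [Finset.mem_filter]
    refine ⟨mem_PI.2 ⟨hpp, ?_, hcon⟩, hp3⟩
    exact_mod_cast hw p hpp hpm
  by_cases hG : GoodP m
  · left
    exact ⟨hG, fd4_card w X m m hm0 fun p _ _ hpm => hpm⟩
  right
  obtain ⟨r, hr, hrm, hr4⟩ : ∃ r : ℕ, r.Prime ∧ r ∣ m ∧ r % 4 = 3 := by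
    unfold GoodP at hG
    push Not at hG
    obtain ⟨r, hr, hrm, hr4⟩ := hG
    exact ⟨r, hr, hrm, (hodd r hr hrm).resolve_left hr4⟩
  obtain ⟨m1, hm1⟩ := hrm
  have hm10 : m1 ≠ 0 := by
    rintro rfl
    exact hm0 (by rw [hm1, mul_zero])
  have hm14 : m1 % 4 = 3 := by
    rw [hm1, Nat.mul_mod, hr4] at hm4
    have : m1 % 4 < 4 := Nat.mod_lt _ (by norm_num)
    interval_cases m1 % 4 <;> omega
  obtain ⟨r', hr', hrm', hr4'⟩ : ∃ r : ℕ, r.Prime ∧ r ∣ m1 ∧ r % 4 = 3 := by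
    by_contra hcon
    push Not at hcon
    have h1 := fd4_mod m1 hm10 fun p hpp hpm =>
      (hodd p hpp (by rw [hm1]; exact hpm.mul_left r)).resolve_right (hcon p hpp hpm)
    omega
  obtain ⟨m', hm'⟩ := hrm'
  have hm'0 : m' ≠ 0 := by
    rintro rfl
    exact hm10 (by rw [hm', mul_zero])
  have hmm : m = m' * r * r' := by
    rw [hm1, hm']
    ring
  have hzr : z ≤ r := hz3 r hr (by rw [hm1]; exact Dvd.intro _ rfl) hr4
  have hzr' : z ≤ r' := hz3 r' hr' (by rw [hmm]; exact Dvd.intro_left _ rfl) hr4'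
  have hgood : ∀ p : ℕ, p.Prime → p ∣ m' → p % 4 = 1 := by
    intro p hpp hpm
    have hpm2 : p ∣ m := by
      rw [hmm, mul_assoc]
      exact hpm.mul_right _
    refine (hodd p hpp hpm2).resolve_right fun h3 => ?_
    have hzp := hz3 p hpp hpm2 h3
    have h4 : p * r * r' ≤ m := by
      rw [hmm]
      exact Nat.mul_le_mul_right _ (Nat.mul_le_mul_right _ (Nat.le_of_dvd (Nat.pos_of_ne_zero hm'0) hpm))
    have h5 : ((p * r * r' : ℕ) : ℝ) ≤ m := by exact_mod_cast h4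
    push_cast at h5
    have h6 : z ^ 3 ≤ (p : ℝ) * r * r' := by
      have hz00 : (0 : ℝ) ≤ z := by linarith
      calc z ^ 3 = z * z * z := by ring
        _ ≤ (p : ℝ) * r * r' := by gcongr
    linarith
  have hcard : ((Es w X).filter (fun e => e ∣ m)).card ≤ 2 ^ m'.primeFactors.card := by
    refine fd4_card w X m m' hm'0 fun p hpp hp1 hpm => ?_
    rw [hmm] at hpm
    rcases (Nat.Prime.dvd_mul hpp).1 hpm with h1 | h1
    · rcases (Nat.Prime.dvd_mul hpp).1 h1 with h2 | h2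
      · exact h2
      · have := (Nat.prime_dvd_prime_iff_eq hpp hr).1 h2
        omega
    · have := (Nat.prime_dvd_prime_iff_eq hpp hr').1 h1
      omega
  have hw' : ∀ p ∈ m'.primeFactors, w < p ∧ p % 4 = 1 := by
    intro p hpp
    have h1 := Nat.prime_of_mem_primeFactors hpp
    have h2 := Nat.dvd_of_mem_primeFactors hpp
    refine ⟨hw p h1 ?_, hgood p h1 h2⟩
    rw [hmm, mul_assoc]
    exact h2.mul_right _
  rcases le_total r r' with hle | hle
  · refine ⟨(m', r, r'), ⟨hw', hm'0, hr, hr', hr4, hr4', hzr, hle, q, hq, hq1, hq2, hqa, ?_⟩, hmm, hcard⟩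
    rw [hqm, hmm]
  · refine ⟨(m', r', r), ⟨hw', hm'0, hr', hr, hr4', hr4, hzr', hle, q, hq, hq1, hq2, hqa, ?_⟩, ?_, hcard⟩
    · rw [hqm, hmm]
      ring
    · rw [hmm]
      ring

end Pool.Agent.W33f
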