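import Pool.Agent.W_d33b62f_h37.FaM
import Pool.Agent.W_d33b62f_h37.FD2
import Pool.Agent.W_d33b62f_h37.FD3
import Pool.Agent.W_d33b62f_h37.FD4a

/-!
# MP_d33b62_nt, full question, T8 (D): the lower bound for the number of neighbours of prime curvature
-/

set_option autoImplicit false

noncomputable section

open Finset

namespace Pool.Agent.W33f

open Pool.Agent.Wb58c63 (PI mem_PI VP below ap aw Pr XM Sd Er)

/-- The weights are at most `4 log T` for large `T`. -/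
theorem FD4_ap (k : ℕ) : ∃ Y₀ : ℝ, 2 ≤ Y₀ ∧ ∀ T : ℝ, Y₀ ≤ T → ∀ q : ℕ, ap k T q ≤ 4 * Real.log T := by
  obtain ⟨Y₀, hY₀, h⟩ := Pool.Agent.Wd33b62.aw_le_two k
  refine ⟨max 2 Y₀, le_max_left _ _, fun T hT q => ?_⟩
  have hT2 : 2 ≤ T := (le_max_left _ _).trans hT
  have hTY : Y₀ ≤ T := (le_max_right _ _).trans hT
  have hlT : 0 ≤ Real.log T := Real.log_nonneg (by linarith)
  unfold Wb58c63.ap
  by_cases h0 : aw k T q = 0
  · rw [h0, zero_mul]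
    positivity
  · have h1 := Pool.Agent.Wb58c63.aw_support k T (by linarith) q h0
    have hq : 0 < (q : ℝ) := by linarith [h1.1]
    have h2 : Real.log q ≤ 2 * Real.log T := by
      have h3 := Real.log_le_log hq h1.2.le
      have h4 : Real.log (2 * T) ≤ Real.log (T * T) :=
        Real.log_le_log (by positivity) (mul_le_mul_of_nonneg_right hT2 (by linarith))
      have h5 : Real.log (T * T) = Real.log T + Real.log T :=
        Real.log_mul (by linarith) (by linarith)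
      linarith
    calc aw k T q * Real.log q ≤ 2 * (2 * Real.log T) :=
          mul_le_mul (h T hTY q) h2 (Real.log_natCast_nonneg q) zero_le_two
      _ = 4 * Real.log T := by ring

/-- `z ^ 3 > 2 T`. -/
theorem FD4_z (η T : ℝ) (hη : 0 < η) (hη1 : η ≤ 1 / 40) (hT : 1024 ≤ T) :
    2 * T < zT η T ^ 3 ∧ 1 ≤ zT η T := by
  have hT0 : 0 < T := by linarith
  have hT1 : 1 ≤ T := by linarith
  have he : 13 / 30 ≤ (1 / 2 - 2 * η) / (1 + η) := by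
    rw [le_div_iff₀ (by linarith)]
    linarith
  refine ⟨?_, Real.one_le_rpow hT1 (by linarith)⟩
  have h1 : zT η T ^ 3 = T ^ ((1 / 2 - 2 * η) / (1 + η) * (3 : ℕ)) := by
    unfold zT
    rw [Real.rpow_mul hT0.le, Real.rpow_natCast]
  have h2 : (1024 : ℝ) ^ (3 / 10 : ℝ) = 8 := by
    have h3 : (1024 : ℝ) = (2 : ℝ) ^ (10 : ℝ) := by norm_num
    rw [h3, ← Real.rpow_mul (by norm_num)]
    norm_num
  have h4 : (8 : ℝ) ≤ T ^ (3 / 10 : ℝ) := by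
    rw [← h2]
    exact Real.rpow_le_rpow (by norm_num) hT (by norm_num)
  have h5 : T ^ (13 / 10 : ℝ) = T * T ^ (3 / 10 : ℝ) := by
    rw [show (13 / 10 : ℝ) = 1 + 3 / 10 by norm_num, Real.rpow_add hT0, Real.rpow_one]
  have h6 : T ^ (13 / 10 : ℝ) ≤ T ^ ((1 / 2 - 2 * η) / (1 + η) * (3 : ℕ)) := by
    refine Real.rpow_le_rpow_of_exponent_le hT1 ?_
    push_cast
    linarith
  rw [h1]
  refine lt_of_lt_of_le ?_ h6
  rw [h5]
  nlinarith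

/-- The conditions on the class. -/
theorem FD4_ok {w W a₀ E al : ℕ} (hW : Wok w W) (ha : a₀.Prime) (ha5 : 5 ≤ a₀) (haw : a₀ ≤ w)
    (hE0 : E ≠ 0) (hE2 : Nat.Coprime E (2 * a₀)) (hE4 : ∀ p : ℕ, p.Prime → p ∣ E → p % 4 = 1)
    (hEW : ∀ p : ℕ, p.Prime → p ∣ E → p * E ∣ W) (h1 : Nat.Coprime al W)
    (h2 : ∃ m₀ : ℕ, Nat.Coprime m₀ W ∧ al + a₀ ≡ 2 * E * m₀ [MOD 4 * W])
    (h3 : al + a₀ ≡ 2 [MOD 8]) : FDok w W a₀ E al := by
  refine ⟨hW, ha, ha5, haw, hE0, hE2, ?_, hEW, ?_, h1, h3, h2⟩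
  · by_cases hE1 : E = 1
    · rw [hE1]
      exact one_dvd _
    · obtain ⟨p, hp, hpE⟩ := Nat.exists_prime_and_dvd hE1
      exact (Dvd.intro_left p rfl).trans (hEW p hp hpE)
  · clear hEW hE2 h2
    induction E using Nat.recOnMul with
    | zero => exact absurd rfl hE0
    | one => rfl
    | prime p hp => exact hE4 p hp dvd_rfl
    | mul a b iha ihb =>
      have ha0 : a ≠ 0 := left_ne_zero_of_mul hE0
      have hb0 : b ≠ 0 := right_ne_zero_of_mul hE0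
      have e1 := iha ha0 fun p hp hpa => hE4 p hp (hpa.mul_right b)
      have e2 := ihb hb0 fun p hp hpb => hE4 p hp (hpb.mul_left a)
      rw [Nat.mul_mod, e1, e2]

/-- The target set is finite and contains the neighbours with `q` in a set of good primes. -/
theorem FD4_count {a₀ : ℕ} {v₀ : ℤ × ℤ} (T E al M : ℕ) (Q : Finset ℕ)
    (hQ : ∀ q ∈ Q, q ∈ Ioc T (2 * T) ∧ q.Prime ∧ q ≡ al [MOD M] ∧ q + a₀ = 2 * E * mq a₀ E q ∧
      {xi : ℤ × ℤ | Int.gcd xi.1 xi.2 = 1 ∧ (a₀ : ℤ) ∣ v₀.1 * xi.2 - v₀.2 * xi.1 ∧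
        nm xi = 2 * E * (mq a₀ E q : ℕ)}.Finite ∧
      2 ^ (mq a₀ E q).primeFactors.card ≤ {xi : ℤ × ℤ | Int.gcd xi.1 xi.2 = 1 ∧
        (a₀ : ℤ) ∣ v₀.1 * xi.2 - v₀.2 * xi.1 ∧ nm xi = 2 * E * (mq a₀ E q : ℕ)}.ncard) :
    ∑ q ∈ Q, 2 ^ (mq a₀ E q).primeFactors.card ≤
      {xi : ℤ × ℤ | Int.gcd xi.1 xi.2 = 1 ∧ (a₀ : ℤ) ∣ v₀.1 * xi.2 - v₀.2 * xi.1 ∧
        ∃ q : ℕ, q ∈ Ioc T (2 * T) ∧ q.Prime ∧ q ≡ al [MOD M] ∧ nm xi = q + a₀}.ncard := by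
  classical
  have hbd : {xi : ℤ × ℤ | Int.gcd xi.1 xi.2 = 1 ∧ (a₀ : ℤ) ∣ v₀.1 * xi.2 - v₀.2 * xi.1 ∧
        ∃ q : ℕ, q ∈ Ioc T (2 * T) ∧ q.Prime ∧ q ≡ al [MOD M] ∧ nm xi = q + a₀}.Finite := by
    refine Set.Finite.subset ((Icc (-(2 * T + a₀ : ℤ)) (2 * T + a₀) ×ˢ
      Icc (-(2 * T + a₀ : ℤ)) (2 * T + a₀)).finite_toSet) ?_
    rintro xi ⟨-, -, q, hq, -, -, hnm⟩
    rw [mem_Ioc] at hq
    have hq2 : (q : ℤ) ≤ 2 * T := by exact_mod_cast hq.2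
    unfold nm at hnm
    rw [mem_coe, mem_product, mem_Icc, mem_Icc]
    have h1 : xi.1 ^ 2 ≤ 2 * T + a₀ := by nlinarith [sq_nonneg xi.2]
    have h2 : xi.2 ^ 2 ≤ 2 * T + a₀ := by nlinarith [sq_nonneg xi.1]
    refine ⟨⟨?_, ?_⟩, ?_, ?_⟩
    · nlinarith [sq_nonneg (xi.1 + 1)]
    · nlinarith [sq_nonneg (xi.1 - 1)]
    · nlinarith [sq_nonneg (xi.2 + 1)]
    · nlinarith [sq_nonneg (xi.2 - 1)]
  choose! h1 h2 h3 h4 h5 h6 using hQ
  have hdis : (Q : Set ℕ).PairwiseDisjoint (fun q => if hq : q ∈ Q then (h5 q hq).toFinset else ∅) := by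
    intro q hq q' hq' hne
    have hq1 : q ∈ Q := hq
    have hq1' : q' ∈ Q := hq'
    show Disjoint (if hq : q ∈ Q then (h5 q hq).toFinset else ∅)
      (if hq : q' ∈ Q then (h5 q' hq).toFinset else ∅)
    rw [dif_pos hq1, dif_pos hq1', Finset.disjoint_left]
    intro x hx hx'
    rw [Set.Finite.mem_toFinset] at hx hx'
    have e1 := hx.2.2.symm.trans hx'.2.2
    have e2 : 2 * E * mq a₀ E q = 2 * E * mq a₀ E q' := by exact_mod_cast e1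
    rw [← h4 q hq1, ← h4 q' hq1'] at e2
    exact hne (by omega)
  have hsub : (Q.biUnion fun q => if hq : q ∈ Q then (h5 q hq).toFinset else ∅) ⊆ hbd.toFinset := by
    intro x hx
    rw [mem_biUnion] at hx
    obtain ⟨q, hq, hx⟩ := hx
    rw [dif_pos hq, Set.Finite.mem_toFinset] at hx
    rw [Set.Finite.mem_toFinset]
    refine ⟨hx.1, hx.2.1, q, h1 q hq, h2 q hq, h3 q hq, ?_⟩
    rw [hx.2.2]
    exact_mod_cast (h4 q hq).symm
  rw [Set.ncard_eq_toFinset_card _ hbd]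
  refine le_trans ?_ (card_le_card hsub)
  rw [card_biUnion fun q hq q' hq' hne => hdis hq hq' hne]
  refine sum_le_sum fun q hq => ?_
  rw [dif_pos hq, ← Set.ncard_eq_toFinset_card _ (h5 q hq)]
  exact h6 q hq

/-- **(D)**, from `FaM`, `FD2`, `FD3`, `FD4a`.

Proof. `η` = an absolute small number (`FD2`: `c η XM / φ`, `FD3`: `C η ^ 2 T / (φ log T)`, `XM ≥ c T`). `ap k T q ≤ 2 log (2 T) ≤ 4 log T` and `ap k T q ≠ 0` implies
`T < q < 2 T`. The double sum of `FD2` is at most `4 log T (∑_{q good} 2 ^ ω(mq q) + ∑_{Ex3} 2 ^ ω(m'))` (`q` is determined by the triple), so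
`∑_{q good} 2 ^ ω(mq q) ≥ c' T / (φ(4 W) log T)`. `FaM` (with `m = mq q`: coprime to `W`, hence to `E` and `a₀`; `2 E m ≡ al mod a₀`) gives
`2 ^ ω(m) ≤ #{ξ : nm ξ = q + a₀}`, and these sets are disjoint for different `q`. `E % 4 = 1` as all its prime factors are `≡ 1 mod 4`. -/
theorem FamD (a₀ : ℕ) (ha : a₀.Prime) (ha5 : 5 ≤ a₀) (v₀ : ℤ × ℤ) (hv : ¬ (a₀ : ℤ) ∣ nm v₀) (zz : ℕ) :
    ∃ (E A : ℕ) (c : ℝ), E ≠ 0 ∧ Nat.Coprime E (2 * a₀) ∧ (∀ p : ℕ, p.Prime → p ∣ E → p % 4 = 1 ∧ zz < p) ∧ 0 < c ∧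
      ∃ w₀ : ℕ, ∀ w ≥ w₀, ∀ W, Wok w W → (∀ p : ℕ, p.Prime → p ∣ E → p * E ∣ W) → ∃ T₀ : ℕ, ∀ T ≥ T₀, ∀ al : ℕ,
        Nat.Coprime al W → (∃ m₀ : ℕ, Nat.Coprime m₀ W ∧ al + a₀ ≡ 2 * E * m₀ [MOD 4 * W]) → al + a₀ ≡ 2 [MOD 8] →
        (∃ s : ℤ, al * nm v₀ ≡ s ^ 2 [ZMOD a₀]) →
          c / (Real.log w) ^ A * (T / ((4 * W).totient * Real.log T)) ≤
            (({xi : ℤ × ℤ | Int.gcd xi.1 xi.2 = 1 ∧ (a₀ : ℤ) ∣ v₀.1 * xi.2 - v₀.2 * xi.1 ∧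
              ∃ q : ℕ, q ∈ Ioc T (2 * T) ∧ q.Prime ∧ q ≡ al [MOD 4 * W] ∧ nm xi = q + a₀}).ncard : ℝ) := by
  classical
  obtain ⟨E, hE0, hE2, hE4, hF⟩ := FaM a₀ ha ha5 v₀ hv zz
  obtain ⟨c₂, hc₂, hFD2⟩ := FD2
  obtain ⟨C₃, hC₃, hFD3⟩ := FD3
  obtain ⟨cX, hcX, hXM⟩ := Pool.Agent.Wd33b62.XM_ge'
  obtain ⟨η, hη0, hη1, hη2⟩ : ∃ η : ℝ, 0 < η ∧ η ≤ 1 / 40 ∧ C₃ * η ≤ c₂ * cX / 8 := by
    refine ⟨min (1 / 40) (c₂ * cX / (8 * C₃)), lt_min (by norm_num) (by positivity),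
      min_le_left _ _, ?_⟩
    calc C₃ * min (1 / 40) (c₂ * cX / (8 * C₃)) ≤ C₃ * (c₂ * cX / (8 * C₃)) :=
          mul_le_mul_of_nonneg_left (min_le_right _ _) hC₃.le
      _ = c₂ * cX / 8 := by field_simp
  obtain ⟨w₂, hw₂⟩ := hFD2 η hη0 hη1
  refine ⟨E, 0, c₂ * cX * η / 8, hE0, hE2, hE4, by positivity, max w₂ (max 4 a₀),
    fun w hw W hW hEW => ?_⟩
  have hww : w₂ ≤ w := (le_max_left _ _).trans hw
  have hw4 : 4 ≤ w := ((le_max_left _ _).trans (le_max_right _ _)).trans hw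
  have haw : a₀ ≤ w := ((le_max_right _ _).trans (le_max_right _ _)).trans hw
  have hED : E ∣ W := by
    by_cases hE1 : E = 1
    · rw [hE1]
      exact one_dvd _
    · obtain ⟨p, hp, hpE⟩ := Nat.exists_prime_and_dvd hE1
      exact (Dvd.intro_left p rfl).trans (hEW p hp hpE)
  obtain ⟨k, T₁, hT₁, hB⟩ := hw₂ w hww W hW
  obtain ⟨T₂, hT₂, hC⟩ := hFD3 η hη0 hη1 w hw4 W hW E hE0 hED
  obtain ⟨T₃, hT₃, hD⟩ := hXM k
  obtain ⟨T₄, hT₄, hA⟩ := FD4_ap k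
  refine ⟨⌈max (max T₁ T₂) (max (max T₃ T₄) (max 1024 (a₀ : ℝ)))⌉₊, fun T hT al h1 h2 h3 h4 => ?_⟩
  have hTr : max (max T₁ T₂) (max (max T₃ T₄) (max 1024 (a₀ : ℝ))) ≤ (T : ℝ) :=
    (Nat.le_ceil _).trans (by exact_mod_cast hT)
  rw [max_le_iff, max_le_iff, max_le_iff, max_le_iff, max_le_iff] at hTr
  obtain ⟨⟨g1, g2⟩, ⟨g3, g4⟩, g5, g6⟩ := hTr
  have hok : FDok w W a₀ E al := FD4_ok hW ha ha5 haw hE0 hE2 (fun p hp hpE => (hE4 p hp hpE).1)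
    hEW h1 h2 h3
  have hS := hB T g1 a₀ E al hok
  have hX := hD T g3
  obtain ⟨hfin, hEx⟩ := hC T g2 a₀ al hok
  obtain ⟨hz1, hz2⟩ := FD4_z η T hη0 hη1 g5
  rw [finsum_mem_eq_finite_toFinset_sum _ hfin] at hEx
  have hL : 0 < Real.log T := Real.log_pos (by linarith)
  have hφ : 0 < ((4 * W).totient : ℝ) := by
    have hW0 : W ≠ 0 := by
      rintro rfl
      exact hW.2.2 (dvd_zero _)
    exact_mod_cast Nat.totient_pos.2 (by omega)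
  obtain ⟨z, hz⟩ : ∃ z, z = zT η T := ⟨_, rfl⟩
  obtain ⟨X, hXe⟩ : ∃ X : ℝ, X = (T : ℝ) ^ (η / 2) := ⟨_, rfl⟩
  rw [← hz, ← hXe] at hS
  rw [← hz] at hfin hz1 hz2
  have hEx' : ∑ t ∈ hfin.toFinset, (2 : ℝ) ^ t.1.primeFactors.card ≤
      C₃ * η ^ 2 * (T / ((4 * W).totient * Real.log T)) := by
    refine le_trans (le_of_eq ?_) hEx
    refine sum_congr ?_ fun _ _ => rfl
    ext t
    rw [Set.Finite.mem_toFinset, Set.Finite.mem_toFinset, hz]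
  clear hEx
  obtain ⟨Q0, hQ0⟩ : ∃ Q0 : Finset ℕ, Q0 = (Pr (T : ℝ)).filter (fun q : ℕ => (T : ℝ) < (q : ℝ) ∧
      q ≡ al [MOD 4 * W] ∧ ∀ p ∈ Pin w z, ¬ p ∣ mq a₀ E q) := ⟨_, rfl⟩
  have hS2 : ∑ e ∈ Es w X, ∑ q ∈ (Pr (T : ℝ)).filter (fun q => q ≡ al [MOD 4 * W] ∧
      e ∣ mq a₀ E q ∧ ∀ p ∈ Pin w z, ¬ p ∣ mq a₀ E q), ap k T q ≤
      4 * Real.log T * ∑ q ∈ Q0, (((Es w X).filter (fun e => e ∣ mq a₀ E q)).card : ℝ) := by
    have hstep : ∀ e ∈ Es w X, ∑ q ∈ (Pr (T : ℝ)).filter (fun q => q ≡ al [MOD 4 * W] ∧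
        e ∣ mq a₀ E q ∧ ∀ p ∈ Pin w z, ¬ p ∣ mq a₀ E q), ap k T q ≤
        ∑ q ∈ Q0, if e ∣ mq a₀ E q then 4 * Real.log T else 0 := by
      intro e _
      rw [← sum_filter]
      have e1 : Q0.filter (fun q => e ∣ mq a₀ E q) = ((Pr (T : ℝ)).filter (fun q =>
          q ≡ al [MOD 4 * W] ∧ e ∣ mq a₀ E q ∧ ∀ p ∈ Pin w z, ¬ p ∣ mq a₀ E q)).filter
            (fun q : ℕ => (T : ℝ) < (q : ℝ)) := by
        rw [hQ0]
        ext q
        simp only [mem_filter]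
        tauto
      rw [e1, ← sum_filter_of_ne (p := fun q : ℕ => (T : ℝ) < (q : ℝ)) fun q _ hq => ?_]
      · exact sum_le_sum fun q _ => hA T g4 q
      · have h0 : aw k T q ≠ 0 := fun h0 => hq (by
          unfold Wb58c63.ap
          rw [h0, zero_mul])
        exact (Pool.Agent.Wb58c63.aw_support k T (by linarith) q h0).1
    refine (sum_le_sum hstep).trans (le_of_eq ?_)
    rw [sum_comm, mul_sum]
    refine sum_congr rfl fun q _ => ?_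
    rw [← sum_filter, sum_const, nsmul_eq_mul, mul_comm]
  obtain ⟨Qg, hQg⟩ : ∃ Qg : Finset ℕ, Qg = Q0.filter (fun q => GoodP (mq a₀ E q) ∧
      ((Es w X).filter (fun e => e ∣ mq a₀ E q)).card ≤ 2 ^ (mq a₀ E q).primeFactors.card) :=
    ⟨_, rfl⟩
  obtain ⟨Qe, hQe⟩ : ∃ Qe : Finset ℕ, Qe = Q0.filter (fun q => ¬ (GoodP (mq a₀ E q) ∧
      ((Es w X).filter (fun e => e ∣ mq a₀ E q)).card ≤ 2 ^ (mq a₀ E q).primeFactors.card)) :=
    ⟨_, rfl⟩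
  have hmem : ∀ q ∈ Q0, q.Prime ∧ (q : ℝ) < 2 * T ∧ (T : ℝ) < q ∧ q ≡ al [MOD 4 * W] ∧
      ∀ p ∈ Pin w z, ¬ p ∣ mq a₀ E q := by
    intro q hq
    rw [hQ0, mem_filter, Pool.Agent.Wb58c63.mem_Pr] at hq
    exact ⟨hq.1.1, hq.1.2, hq.2⟩
  have hex : ∀ q ∈ Qe, ∃ t ∈ Ex3 w W a₀ E al T z, mq a₀ E q = t.1 * t.2.1 * t.2.2 ∧
      ((Es w X).filter (fun e => e ∣ mq a₀ E q)).card ≤ 2 ^ t.1.primeFactors.card := by
    intro q hq
    rw [hQe, mem_filter] at hq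
    obtain ⟨m1, m2, m3, m4, m5⟩ := hmem q hq.1
    exact (FD4a hok T z X g6 hz1 hz2 q m1 m3 m2.le m4 m5).resolve_left hq.2
  choose! t ht1 ht2 ht3 using hex
  have hsum : ∑ q ∈ Q0, (((Es w X).filter (fun e => e ∣ mq a₀ E q)).card : ℝ) ≤
      ∑ q ∈ Qg, (2 : ℝ) ^ (mq a₀ E q).primeFactors.card +
      ∑ t ∈ hfin.toFinset, (2 : ℝ) ^ t.1.primeFactors.card := by
    have e1 := sum_filter_add_sum_filter_not Q0 (fun q => GoodP (mq a₀ E q) ∧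
      ((Es w X).filter (fun e => e ∣ mq a₀ E q)).card ≤ 2 ^ (mq a₀ E q).primeFactors.card)
      (fun q => (((Es w X).filter (fun e => e ∣ mq a₀ E q)).card : ℝ))
    rw [← hQg, ← hQe] at e1
    rw [← e1]
    refine add_le_add (sum_le_sum fun q hq => ?_) ?_
    · rw [hQg, mem_filter] at hq
      exact_mod_cast hq.2.2
    · calc ∑ q ∈ Qe, (((Es w X).filter (fun e => e ∣ mq a₀ E q)).card : ℝ)
          ≤ ∑ q ∈ Qe, (2 : ℝ) ^ (t q).1.primeFactors.card :=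
            sum_le_sum fun q hq => by exact_mod_cast ht3 q hq
        _ = ∑ u ∈ Qe.image t, (2 : ℝ) ^ u.1.primeFactors.card := by
            rw [sum_image]
            intro q hq q' hq' he
            have hq1 : q ∈ Qe := hq
            have hq1' : q' ∈ Qe := hq'
            have e2 : mq a₀ E q = mq a₀ E q' := by rw [ht2 q hq1, ht2 q' hq1', he]
            rw [hQe, mem_filter] at hq1 hq1'
            have e3 := (FDm hok q (hmem q hq1.1).2.2.2.1).1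
            have e4 := (FDm hok q' (hmem q' hq1'.1).2.2.2.1).1
            rw [e2] at e3
            omega
        _ ≤ ∑ t ∈ hfin.toFinset, (2 : ℝ) ^ t.1.primeFactors.card := by
            refine sum_le_sum_of_subset_of_nonneg ?_ fun _ _ _ => by positivity
            intro u hu
            rw [mem_image] at hu
            obtain ⟨q, hq, rfl⟩ := hu
            rw [Set.Finite.mem_toFinset]
            exact ht1 q hq
  have haW : a₀ ∣ W := (hW.1 a₀ ha).2 haw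
  have hcount := FD4_count (a₀ := a₀) (v₀ := v₀) T E al (4 * W) Qg (by
    intro q hq
    rw [hQg, mem_filter] at hq
    obtain ⟨m1, m2, m3, m4, m5⟩ := hmem q hq.1
    obtain ⟨f1, f2, f3⟩ := FDm hok q m4
    have f4 := hF (mq a₀ E q) (by omega) hq.2.1 (Nat.Coprime.mul_right
      (f2.coprime_dvd_right hED) (f2.coprime_dvd_right haW)) (by
        obtain ⟨s, hs⟩ := h4
        refine ⟨s, ?_⟩
        have e1 : (2 * E * (mq a₀ E q : ℕ) : ℤ) = q + a₀ := by exact_mod_cast f1.symm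
        rw [e1]
        have e2 : (q : ℤ) ≡ al [ZMOD a₀] :=
          Int.natCast_modEq_iff.2 (m4.of_dvd (haW.mul_left 4))
        have e3 : (q : ℤ) + a₀ ≡ al [ZMOD a₀] := by
          have e4 : (a₀ : ℤ) ≡ 0 [ZMOD a₀] := (Int.emod_self.trans (Int.zero_emod _).symm)
          have e5 := Int.ModEq.add e2 e4
          rwa [add_zero] at e5
        exact (Int.ModEq.mul_right _ e3).trans hs)
    refine ⟨mem_Ioc.2 ⟨?_, ?_⟩, m1, m4, f1, f4.1, f4.2⟩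
    · exact_mod_cast m3
    · have : (q : ℝ) ≤ 2 * T := m2.le
      exact_mod_cast this)
  obtain ⟨N, hN⟩ : ∃ N : ℕ, N = ({xi : ℤ × ℤ | Int.gcd xi.1 xi.2 = 1 ∧
      (a₀ : ℤ) ∣ v₀.1 * xi.2 - v₀.2 * xi.1 ∧ ∃ q : ℕ, q ∈ Ioc T (2 * T) ∧ q.Prime ∧
        q ≡ al [MOD 4 * W] ∧ nm xi = q + a₀}).ncard := ⟨_, rfl⟩
  rw [← hN] at hcount
  rw [← hN]
  have hcount' : ∑ q ∈ Qg, (2 : ℝ) ^ (mq a₀ E q).primeFactors.card ≤ N := by
    exact_mod_cast hcount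
  obtain ⟨Z, hZ⟩ : ∃ Z : ℝ, Z = T / ((4 * W).totient * Real.log T) := ⟨_, rfl⟩
  have hZ0 : 0 ≤ Z := by
    rw [hZ]
    positivity
  rw [← hZ] at hEx'
  rw [← hZ, pow_zero, div_one]
  have hT0 : (T : ℝ) / (4 * W).totient = Z * Real.log T := by
    rw [hZ]
    field_simp
  have hfinal : c₂ * η * (cX * (Z * Real.log T)) ≤ 4 * Real.log T * ((N : ℝ) + C₃ * η ^ 2 * Z) := by
    calc c₂ * η * (cX * (Z * Real.log T)) = c₂ * η * (cX * T / (4 * W).totient) := by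
          rw [← hT0]
          ring
      _ ≤ c₂ * η * (XM k T / (4 * W).totient) := by
          refine mul_le_mul_of_nonneg_left ?_ (by positivity)
          exact div_le_div_of_nonneg_right hX hφ.le
      _ ≤ _ := hS
      _ ≤ _ := hS2
      _ ≤ 4 * Real.log T * ((N : ℝ) + C₃ * η ^ 2 * Z) :=
          mul_le_mul_of_nonneg_left (hsum.trans (add_le_add hcount' hEx')) (by positivity)
  have hf2 : c₂ * η * cX * Z ≤ 4 * ((N : ℝ) + C₃ * η ^ 2 * Z) := by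
    have e1 : (c₂ * η * cX * Z) * Real.log T ≤ (4 * ((N : ℝ) + C₃ * η ^ 2 * Z)) * Real.log T := by
      nlinarith [hfinal]
    exact le_of_mul_le_mul_right e1 hL
  have hf3 : C₃ * η ^ 2 * Z ≤ c₂ * cX / 8 * η * Z := by
    have e1 : C₃ * η ^ 2 * Z = C₃ * η * (η * Z) := by ring
    have e2 : c₂ * cX / 8 * η * Z = c₂ * cX / 8 * (η * Z) := by ring
    rw [e1, e2]
    exact mul_le_mul_of_nonneg_right hη2 (by positivity)
  nlinarith [hf2, hf3]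

end Pool.Agent.W33f
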