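import Pool.Agent.W_d33b62f_h37.Df
import Pool.Agent.W_d33b62_h36.HSt
import Pool.Agent.W_d33b62_h36.MM
import Pool.Agent.W_d33b62_h36.BV3
import Pool.Agent.W_d33b62_h36.BV4

/-!
# MP_d33b62_nt, full question, T8 (D): definitions (helper37)
-/

set_option autoImplicit false

noncomputable section

open Finset

namespace Pool.Agent.W33f

open Pool.Agent.Wb58c63 (PI mem_PI VP below ap aw Pr XM Sd Er)

/-- All prime factors are `≡ 1 mod 4`. -/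
def GoodP (m : ℕ) : Prop := ∀ p : ℕ, p.Prime → p ∣ m → p % 4 = 1

/-- `(q + a₀) / (2 E)`. -/
def mq (a₀ E q : ℕ) : ℕ := (q + a₀) / (2 * E)

/-- The squarefree numbers up to `X` composed of primes `> w`, `≡ 1 mod 4`. -/
def Es (w : ℕ) (X : ℝ) : Finset ℕ :=
  (Icc 1 ⌊X⌋₊).filter fun e => Squarefree e ∧ ∀ p ∈ e.primeFactors, w < p ∧ p % 4 = 1

/-- The primes `≡ 3 mod 4` of `(w, z)`. -/
def Pin (w : ℕ) (z : ℝ) : Finset ℕ := (PI ((w : ℝ) + 1) z).filter fun p => p % 4 = 3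

/-- The level of the half-dimensional sieve. -/
def DT (η T : ℝ) : ℝ := T ^ (1 / 2 - 2 * η)

/-- The sifting limit. -/
def zT (η T : ℝ) : ℝ := T ^ ((1 / 2 - 2 * η) / (1 + η))

/-- The conditions on the class. -/
structure FDok (w W a₀ E al : ℕ) : Prop where
  wok : Wok w W
  a0p : a₀.Prime
  a05 : 5 ≤ a₀
  a0w : a₀ ≤ w
  E0 : E ≠ 0
  E2 : Nat.Coprime E (2 * a₀)
  EW : E ∣ W
  EW2 : ∀ p : ℕ, p.Prime → p ∣ E → p * E ∣ W
  E4 : E % 4 = 1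
  al1 : Nat.Coprime al W
  al2 : al + a₀ ≡ 2 [MOD 8]
  m0 : ∃ m₀ : ℕ, Nat.Coprime m₀ W ∧ al + a₀ ≡ 2 * E * m₀ [MOD 4 * W]

end Pool.Agent.W33f
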