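import Pool.Agent.W_d33b62_h49.GaussD
import Pool.Agent.W_d33b62f_h37.Df

/-!
# MP_d33b62_nt, full question: the multiplicity of the neighbours (T8), helper9
-/

set_option autoImplicit false

namespace Pool.Agent.W33f

open Pool.Agent.Wd33b62g Zsqrtd

/-- For every primitive `w` of norm `m` a multiple of `w` in the lattice. The proof is the one of `gaussD_main0`. -/
theorem FaM_one (a : ℕ) [Fact a.Prime] (ha2 : a ≠ 2) (α : GaussianInt)
    (Z : ℕ) (hZ : Z ≠ 0) :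
    ∃ D : ℕ, D ≠ 0 ∧ Nat.Coprime D Z ∧ Nat.Coprime D (2 * a) ∧
      (∀ p : ℕ, p.Prime → p ∣ D → p % 4 = 1) ∧
      ∀ m : ℕ, m ≠ 0 → (∀ p : ℕ, p.Prime → p ∣ m → p % 4 = 1) → Nat.Coprime m D →
        legendreSym a (2 * D * m * Zsqrtd.norm α) = 1 →
        ∀ w : GaussianInt, GPrim w → Zsqrtd.norm w = m → ∃ P : GaussianInt, GPrim (P * w) ∧
          Zsqrtd.norm (P * w) = 2 * D * m ∧ (a : ℤ) ∣ (P * w * star α).im := by
  classical
  have ha : a.Prime := Fact.out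
  have hai : Prime (a : ℤ) := Nat.prime_iff_prime_int.1 ha
  obtain ⟨T, hT1, hT2⟩ := gaussC_classes a ha
  obtain ⟨z, hz1, hz2⟩ := gaussC_family a ha (2 * Z) (by omega) T hT1
  have hzn : ∀ κ ∈ T, ¬ (a : ℤ) ∣ Zsqrtd.norm (z κ) := by
    intro κ hκ h
    exact hT1 κ hκ ((dvd_sub_right h).1 (gaussD_norm_congr (hz1 κ hκ).2.2))
  set D : ℕ := ∏ κ ∈ T, (Zsqrtd.norm (z κ)).natAbs with hD
  have hDcast : (D : ℤ) = ∏ κ ∈ T, Zsqrtd.norm (z κ) := by
    rw [hD]; push_cast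
    apply Finset.prod_congr rfl
    intro κ _
    rw [abs_of_nonneg]
    rw [gaussA_norm]; positivity
  have hDpos : D ≠ 0 := by
    rw [hD]
    exact Finset.prod_ne_zero_iff.2 (fun κ hκ => Int.natAbs_ne_zero.2 (hz1 κ hκ).1.norm_ne)
  have hc2Z : ∀ κ ∈ T, Nat.Coprime (Zsqrtd.norm (z κ)).natAbs (2 * Z) := by
    intro κ hκ
    have := Int.isCoprime_iff_gcd_eq_one.1 (hz1 κ hκ).2.1
    rw [Int.gcd_def, Int.natAbs_natCast] at this
    exact this
  have hDZ : Nat.Coprime D Z := by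
    rw [hD]; exact Nat.Coprime.prod_left (fun κ hκ => (hc2Z κ hκ).coprime_mul_left_right)
  have hD2 : Nat.Coprime D 2 := by
    rw [hD]; exact Nat.Coprime.prod_left (fun κ hκ => (hc2Z κ hκ).coprime_mul_right_right)
  have hDa : Nat.Coprime D a := by
    rw [hD]
    refine Nat.Coprime.prod_left (fun κ hκ => ?_)
    refine Nat.Coprime.symm ((Nat.Prime.coprime_iff_not_dvd ha).2 ?_)
    intro h
    exact hzn κ hκ (Int.natCast_dvd.2 h)
  refine ⟨D, hDpos, hDZ, hD2.mul_right hDa, ?_, ?_⟩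
  · intro p hp hpD
    rw [hD] at hpD
    obtain ⟨κ, hκ, hd⟩ := (Nat.prime_iff.1 hp).exists_mem_finset_dvd hpD
    refine gaussC_mod_four (hz1 κ hκ).1 p hp ?_ (Int.natCast_dvd.2 hd)
    rintro rfl
    have h1 := Nat.dvd_gcd hd (dvd_mul_right 2 Z)
    rw [hc2Z κ hκ] at h1
    omega
  intro m hm hm4 hmD hXA w hw hwm
  have hm2 : Nat.Coprime m 2 := by
    rw [Nat.coprime_comm, Nat.Prime.coprime_iff_not_dvd Nat.prime_two]
    intro h
    have := hm4 2 Nat.prime_two h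
    omega
  -- the general product
  have hgen : ∀ z' : GaussianInt → GaussianInt,
      (∀ κ ∈ T, GPrim (z' κ) ∧ Zsqrtd.norm (z' κ) = Zsqrtd.norm (z κ)) →
      GPrim ((⟨1, 1⟩ : GaussianInt) * (∏ κ ∈ T, z' κ) * w) ∧
      Zsqrtd.norm ((⟨1, 1⟩ : GaussianInt) * (∏ κ ∈ T, z' κ) * w) = 2 * D * m := by
    intro z' hz'
    obtain ⟨h1, h2⟩ := gaussC_prod T z' (fun κ hκ => (hz' κ hκ).1)
      (fun κ hκ κ' hκ' hne => by
        rw [(hz' κ hκ).2, (hz' κ' hκ').2]; exact hz2 κ hκ κ' hκ' hne)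
    have h3 : Zsqrtd.norm (∏ κ ∈ T, z' κ) = D := by
      rw [h2, hDcast]
      exact Finset.prod_congr rfl (fun κ hκ => (hz' κ hκ).2)
    have h11 : Zsqrtd.norm (⟨1, 1⟩ : GaussianInt) = 2 := by rw [gaussA_norm]; norm_num
    have hp11 : GPrim (⟨1, 1⟩ : GaussianInt) := by
      unfold GPrim; exact isCoprime_one_left
    have h4 : GPrim ((⟨1, 1⟩ : GaussianInt) * (∏ κ ∈ T, z' κ)) := by
      apply hp11.mul h1
      rw [h11, h3]
      exact_mod_cast (Nat.isCoprime_iff_coprime.2 hD2.symm)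
    have h5 : Zsqrtd.norm ((⟨1, 1⟩ : GaussianInt) * (∏ κ ∈ T, z' κ)) = 2 * D := by
      rw [Zsqrtd.norm_mul, h11, h3]
    refine ⟨?_, ?_⟩
    · apply h4.mul hw
      rw [h5, hwm]
      have : Nat.Coprime (2 * D) m := (Nat.Coprime.mul_right hm2 hmD).symm
      exact_mod_cast (Nat.isCoprime_iff_coprime.2 this)
    · rw [Zsqrtd.norm_mul, h5, hwm]
  obtain ⟨hz0p, hz0n⟩ := hgen z (fun κ hκ => ⟨(hz1 κ hκ).1, rfl⟩)
  set z₀ := (⟨1, 1⟩ : GaussianInt) * (∏ κ ∈ T, z κ) * w with hz₀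
  set v := z₀ * star α with hv
  have hvn : Zsqrtd.norm v = 2 * D * m * Zsqrtd.norm α := by
    rw [hv, Zsqrtd.norm_mul, hz0n, gaussA_norm_star]
  -- the square root
  have hXA0 : ((2 * (D : ℤ) * m * Zsqrtd.norm α : ℤ) : ZMod a) ≠ 0 := by
    intro h
    rw [(legendreSym.eq_zero_iff a _).2 h] at hXA
    exact zero_ne_one hXA
  obtain ⟨r, hr⟩ := (legendreSym.eq_one_iff a hXA0).1 hXA
  obtain ⟨t, ht⟩ : ∃ t : ℤ, (t : ZMod a) = r := ⟨r.val, by simp⟩
  have htn : ¬ (a : ℤ) ∣ t := by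
    intro h
    have : (t : ZMod a) = 0 := (ZMod.intCast_zmod_eq_zero_iff_dvd t a).2 h
    rw [ht] at this
    rw [this, mul_zero] at hr
    exact hXA0 hr
  have htv : (a : ℤ) ∣ t ^ 2 - Zsqrtd.norm v := by
    rw [hvn, ← ZMod.intCast_zmod_eq_zero_iff_dvd]
    push_cast at hr ⊢
    rw [hr, ht]; ring
  obtain ⟨t', ht'1, ht'2⟩ := gaussD_correct a ha ha2 v t htn htv
  obtain ⟨κ₁, hκ₁, hκ₁d⟩ := hT2 _ ht'1
  have hzκ : ((a : ℤ) : GaussianInt) ∣ z κ₁ - ((t' : GaussianInt) + v) := by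
    have := dvd_add (hz1 κ₁ hκ₁).2.2 hκ₁d
    rwa [sub_add_sub_cancel] at this
  -- the corrected product
  set z' : GaussianInt → GaussianInt := fun κ => if κ = κ₁ then star (z κ) else z κ with hz'
  obtain ⟨hz1p, hz1n⟩ := hgen z' (by
    intro κ hκ
    rw [hz']
    simp only
    split_ifs with h
    · exact ⟨(hz1 κ hκ).1.conj, gaussA_norm_star _⟩
    · exact ⟨(hz1 κ hκ).1, rfl⟩)
  have hprod : (∏ κ ∈ T, z' κ) * z κ₁ = (∏ κ ∈ T, z κ) * star (z κ₁) := by
    rw [← Finset.mul_prod_erase T z' hκ₁, ← Finset.mul_prod_erase T z hκ₁]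
    have h1 : z' κ₁ = star (z κ₁) := by rw [hz']; simp
    have h2 : ∏ κ ∈ T.erase κ₁, z' κ = ∏ κ ∈ T.erase κ₁, z κ := by
      apply Finset.prod_congr rfl
      intro κ hκ
      rw [hz']
      simp only
      rw [if_neg (Finset.ne_of_mem_erase hκ)]
    rw [h1, h2]; ring
  set z₁ := (⟨1, 1⟩ : GaussianInt) * (∏ κ ∈ T, z' κ) * w with hz₁
  have hz10 : z₁ * z κ₁ = z₀ * star (z κ₁) := by
    rw [hz₁, hz₀]
    linear_combination ((⟨1, 1⟩ : GaussianInt) * w) * hprod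
  have hd1 : ((a : ℤ) : GaussianInt) ∣ (z₁ * star α - (t' : GaussianInt)) * z κ₁ := by
    have e : (z₁ * star α - (t' : GaussianInt)) * z κ₁ =
        v * star (z κ₁ - ((t' : GaussianInt) + v)) -
        (t' : GaussianInt) * (z κ₁ - ((t' : GaussianInt) + v)) +
        (v * star ((t' : GaussianInt) + v) - (t' : GaussianInt) * ((t' : GaussianInt) + v)) := by
      rw [star_sub, hv]
      linear_combination (star α) * hz10
    rw [e]
    exact dvd_add (dvd_sub (dvd_mul_of_dvd_right (gaussD_dvd_star hzκ) _)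
      (dvd_mul_of_dvd_right hzκ _)) ht'2
  have hd2 : ((a : ℤ) : GaussianInt) ∣
      ((Zsqrtd.norm (z κ₁) : ℤ) : GaussianInt) * (z₁ * star α - (t' : GaussianInt)) := by
    rw [gaussA_norm_cast]
    obtain ⟨s, hs⟩ := hd1
    exact ⟨s * star (z κ₁), by linear_combination (star (z κ₁)) * hs⟩
  have hd3 : (a : ℤ) ∣ (z₁ * star α).im := by
    rw [Zsqrtd.intCast_dvd] at hd2
    have h2 := hd2.2
    simp only [Zsqrtd.im_mul, Zsqrtd.re_intCast, Zsqrtd.im_intCast, zero_mul, add_zero,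
      Zsqrtd.im_sub, sub_zero] at h2
    have h3 := (hai.dvd_or_dvd h2).resolve_left (hzn κ₁ hκ₁)
    simpa [Zsqrtd.im_mul] using h3
  exact ⟨(⟨1, 1⟩ : GaussianInt) * (∏ κ ∈ T, z' κ), hz1p, hz1n, hd3⟩

/-- Products of families of primitive elements with coprime norms. -/
theorem FaM_prod {ι : Type} [DecidableEq ι] (s : Finset ι) (z : ι → GaussianInt) (h1 : ∀ i ∈ s, GPrim (z i))
    (h2 : ∀ i ∈ s, ∀ j ∈ s, i ≠ j → IsCoprime (Zsqrtd.norm (z i)) (Zsqrtd.norm (z j))) :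
    GPrim (∏ i ∈ s, z i) ∧ Zsqrtd.norm (∏ i ∈ s, z i) = ∏ i ∈ s, Zsqrtd.norm (z i) := by
  induction s using Finset.induction_on with
  | empty =>
    refine ⟨?_, by simp⟩
    unfold GPrim
    simp only [Finset.prod_empty, Zsqrtd.re_one, Zsqrtd.im_one]
    exact isCoprime_one_left
  | insert i s hi ih =>
    obtain ⟨i1, i2⟩ := ih (fun j hj => h1 j (Finset.mem_insert_of_mem hj))
      (fun j hj j' hj' => h2 j (Finset.mem_insert_of_mem hj) j' (Finset.mem_insert_of_mem hj'))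
    rw [Finset.prod_insert hi, Finset.prod_insert hi]
    refine ⟨?_, by rw [Zsqrtd.norm_mul, i2]⟩
    apply (h1 i (Finset.mem_insert_self _ _)).mul i1
    rw [i2]
    apply IsCoprime.prod_right
    intro j hj
    exact h2 i (Finset.mem_insert_self _ _) j (Finset.mem_insert_of_mem hj) (fun e => hi (e ▸ hj))

/-- A primitive element of odd norm is prime to its conjugate. -/
theorem FaM_cop {u : GaussianInt} (hu : GPrim u) (n : ℕ) (hn : Zsqrtd.norm u = n) (h2 : n % 2 = 1) :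
    IsCoprime u (star u) := by
  obtain ⟨x, y, hxy⟩ := hu
  -- `2 = (x + y i^-1 ...)`: `u + star u = 2 re`, `u - star u = 2 i im`
  obtain ⟨k, hk⟩ : ∃ k : ℕ, n = 2 * k + 1 := ⟨n / 2, by omega⟩
  have h5 : u * star u = ((n : ℤ) : GaussianInt) := by rw [← gaussA_norm_cast, hn]
  have h3 : u + star u = ((2 * u.re : ℤ) : GaussianInt) := by
    ext
    · simp; ring
    · simp
  have h4 : (⟨0, -1⟩ : GaussianInt) * (u - star u) = ((2 * u.im : ℤ) : GaussianInt) := by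
    ext
    · simp; ring
    · simp
  have h6 : ((x : ℤ) : GaussianInt) * ((2 * u.re : ℤ) : GaussianInt) +
      ((y : ℤ) : GaussianInt) * ((2 * u.im : ℤ) : GaussianInt) = 2 := by
    have : (((x * (2 * u.re) + y * (2 * u.im) : ℤ)) : GaussianInt) = ((2 : ℤ) : GaussianInt) := by
      congr 1
      linear_combination 2 * hxy
    push_cast at this ⊢
    exact this
  have h7 : ((n : ℤ) : GaussianInt) = 2 * (k : GaussianInt) + 1 := by
    rw [hk]; push_cast; ring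
  -- `1 = n - 2 k`
  refine ⟨star u - k * (x + y * (⟨0, -1⟩ : GaussianInt)), -(k * (x - y * (⟨0, -1⟩ : GaussianInt))), ?_⟩
  rw [← h3, ← h4] at h6
  rw [h7] at h5
  linear_combination h5 - (k : GaussianInt) * h6

/-- **The multiplicity of the neighbours.** -/
theorem FaM (a₀ : ℕ) (ha : a₀.Prime) (ha5 : 5 ≤ a₀) (v₀ : ℤ × ℤ) (hv : ¬ (a₀ : ℤ) ∣ nm v₀) (zz : ℕ) :
    ∃ E : ℕ, E ≠ 0 ∧ Nat.Coprime E (2 * a₀) ∧ (∀ p : ℕ, p.Prime → p ∣ E → p % 4 = 1 ∧ zz < p) ∧
      ∀ m : ℕ, m ≠ 0 → (∀ p : ℕ, p.Prime → p ∣ m → p % 4 = 1) → Nat.Coprime m (E * a₀) →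
        (∃ s : ℤ, 2 * E * m * nm v₀ ≡ s ^ 2 [ZMOD a₀]) →
          {xi : ℤ × ℤ | Int.gcd xi.1 xi.2 = 1 ∧ (a₀ : ℤ) ∣ v₀.1 * xi.2 - v₀.2 * xi.1 ∧
            nm xi = 2 * E * m}.Finite ∧
          2 ^ m.primeFactors.card ≤ {xi : ℤ × ℤ | Int.gcd xi.1 xi.2 = 1 ∧ (a₀ : ℤ) ∣ v₀.1 * xi.2 - v₀.2 * xi.1 ∧
            nm xi = 2 * E * m}.ncard := by
  classical
  haveI := Fact.mk ha
  have hap : Prime (a₀ : ℤ) := Nat.prime_iff_prime_int.1 ha
  set α : GaussianInt := ⟨v₀.1, v₀.2⟩ with hα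
  have hαn : Zsqrtd.norm α = nm v₀ := by rw [gaussA_norm]; rfl
  obtain ⟨E, hE0, hEZ, hE2, hE4, hE⟩ := FaM_one a₀ (by omega) α zz.factorial
    (Nat.factorial_ne_zero _)
  refine ⟨E, hE0, hE2, ?_, ?_⟩
  · intro p hp hpE
    refine ⟨hE4 p hp hpE, ?_⟩
    by_contra h
    have h1 : p ∣ zz.factorial := (Nat.Prime.dvd_factorial hp).2 (by omega)
    have h2 := Nat.dvd_gcd hpE h1
    rw [hEZ] at h2
    exact hp.one_lt.ne' (Nat.dvd_one.1 h2)
  intro m hm hm4 hmc ⟨s, hs⟩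
  have hmE : Nat.Coprime m E := Nat.Coprime.coprime_mul_right_right hmc
  have hma : Nat.Coprime m a₀ := Nat.Coprime.coprime_mul_left_right hmc
  have hEa : Nat.Coprime E a₀ := Nat.Coprime.coprime_mul_left_right hE2
  have hleg : legendreSym a₀ (2 * E * m * Zsqrtd.norm α) = 1 := by
    rw [hαn]
    have hnd : ¬ (a₀ : ℤ) ∣ 2 * E * m * nm v₀ := by
      intro h
      rcases hap.dvd_or_dvd h with h | h
      · rcases hap.dvd_or_dvd h with h | h
        · rcases hap.dvd_or_dvd h with h | h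
          · have := Int.le_of_dvd (by norm_num) h
            omega
          · have h1 : a₀ ∣ E := by exact_mod_cast h
            have h2 := Nat.dvd_gcd h1 (dvd_refl a₀)
            rw [hEa] at h2
            exact ha.one_lt.ne' (Nat.dvd_one.1 h2)
        · have h1 : a₀ ∣ m := by exact_mod_cast h
          have h2 := Nat.dvd_gcd h1 (dvd_refl a₀)
          rw [hma] at h2
          exact ha.one_lt.ne' (Nat.dvd_one.1 h2)
      · exact hv h
    have h0 : ((2 * E * m * nm v₀ : ℤ) : ZMod a₀) ≠ 0 := by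
      intro h
      exact hnd ((ZMod.intCast_zmod_eq_zero_iff_dvd _ a₀).1 h)
    rw [legendreSym.eq_one_iff a₀ h0]
    refine ⟨(s : ZMod a₀), ?_⟩
    have := (ZMod.intCast_eq_intCast_iff _ _ a₀).2 hs
    rw [this]
    push_cast
    ring
  have hfin : {xi : ℤ × ℤ | Int.gcd xi.1 xi.2 = 1 ∧ (a₀ : ℤ) ∣ v₀.1 * xi.2 - v₀.2 * xi.1 ∧
      nm xi = 2 * E * m}.Finite := by
    refine Set.Finite.subset ((Set.finite_Icc (-(2 * E * m : ℤ)) (2 * E * m)).prod
      (Set.finite_Icc (-(2 * E * m : ℤ)) (2 * E * m))) ?_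
    rintro ⟨x, y⟩ ⟨-, -, h⟩
    unfold nm at h
    simp only at h
    have hb : ∀ t u : ℤ, t ^ 2 + u ^ 2 = 2 * E * m → -(2 * E * m : ℤ) ≤ t ∧ t ≤ 2 * E * m := by
      intro t u htu
      have h1 : t ^ 2 ≤ 2 * E * m := by nlinarith [sq_nonneg u]
      constructor <;> nlinarith [sq_nonneg (t - 1), sq_nonneg (t + 1), sq_nonneg t]
    refine Set.mem_prod.2 ⟨?_, ?_⟩
    · exact hb x y h
    · exact hb y x (by rw [← h]; ring)
  refine ⟨hfin, ?_⟩
  -- the family
  have hu : ∀ p : ℕ, ∃ u : GaussianInt, p ∈ m.primeFactors → GPrim u ∧ Zsqrtd.norm u = (p ^ m.factorization p : ℕ) := by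
    intro p
    by_cases hp : p ∈ m.primeFactors
    · have hpp := Nat.prime_of_mem_primeFactors hp
      obtain ⟨u, hu⟩ := gaussB_exists (p ^ m.factorization p) (pow_ne_zero _ hpp.ne_zero) (by
        intro q hq hqd
        have := (Nat.prime_dvd_prime_iff_eq hq hpp).1 (hq.dvd_of_dvd_pow hqd)
        rw [this]
        exact hm4 p hpp (Nat.dvd_of_mem_primeFactors hp))
      exact ⟨u, fun _ => hu⟩
    · exact ⟨0, fun h => absurd h hp⟩
  choose u hu using hu
  set g : Finset ℕ → ℕ → GaussianInt := fun T p => if p ∈ T then u p else star (u p) with hg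
  have hgp : ∀ T, ∀ p ∈ m.primeFactors, GPrim (g T p) ∧ Zsqrtd.norm (g T p) = (p ^ m.factorization p : ℕ) := by
    intro T p hp
    rw [hg]
    simp only
    split_ifs
    · exact hu p hp
    · exact ⟨(hu p hp).1.conj, by rw [gaussA_norm_star]; exact (hu p hp).2⟩
  have hw : ∀ T, GPrim (∏ p ∈ m.primeFactors, g T p) ∧ Zsqrtd.norm (∏ p ∈ m.primeFactors, g T p) = m := by
    intro T
    obtain ⟨h1, h2⟩ := FaM_prod m.primeFactors (g T) (fun p hp => (hgp T p hp).1) (by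
      intro p hp q hq hpq
      rw [(hgp T p hp).2, (hgp T q hq).2]
      apply Nat.isCoprime_iff_coprime.2
      exact Nat.coprime_pow_primes _ _ (Nat.prime_of_mem_primeFactors hp) (Nat.prime_of_mem_primeFactors hq) hpq)
    refine ⟨h1, ?_⟩
    rw [h2, Finset.prod_congr rfl (fun p hp => (hgp T p hp).2)]
    have h3 := Nat.factorization_prod_pow_eq_self hm
    rw [Nat.prod_factorization_eq_prod_primeFactors] at h3
    exact_mod_cast h3
  have hP : ∀ T, ∃ P : GaussianInt, GPrim (P * ∏ p ∈ m.primeFactors, g T p) ∧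
      Zsqrtd.norm (P * ∏ p ∈ m.primeFactors, g T p) = 2 * E * m ∧
      (a₀ : ℤ) ∣ (P * (∏ p ∈ m.primeFactors, g T p) * star α).im := fun T =>
    hE m hm hm4 hmE hleg _ (hw T).1 (hw T).2
  choose P hP1 hP2 hP3 using hP
  set F : Finset ℕ → GaussianInt := fun T => P T * ∏ p ∈ m.primeFactors, g T p with hF
  have hdiv : ∀ T, ∀ p ∈ m.primeFactors, g T p ∣ F T := by
    intro T p hp
    exact (Finset.dvd_prod_of_mem (g T) hp).trans (dvd_mul_left _ _)
  have hinj : ∀ T ∈ m.primeFactors.powerset, ∀ T' ∈ m.primeFactors.powerset, F T = F T' → T ⊆ T' := by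
    intro T hT T' _ he p hpT
    by_contra hpT'
    have hp : p ∈ m.primeFactors := (Finset.mem_powerset.1 hT) hpT
    have hpp := Nat.prime_of_mem_primeFactors hp
    have h1 := hdiv T p hp
    have h2 := hdiv T' p hp
    rw [← he] at h2
    have e1 : g T p = u p := by rw [hg]; simp [hpT]
    have e2 : g T' p = star (u p) := by rw [hg]; simp [hpT']
    rw [e1] at h1
    rw [e2] at h2
    have hp4 := hm4 p hpp (Nat.dvd_of_mem_primeFactors hp)
    have hodd : p ^ m.factorization p % 2 = 1 := by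
      rw [Nat.pow_mod]
      have : p % 2 = 1 := by omega
      rw [this]; simp
    have h3 := (FaM_cop (hu p hp).1 _ (hu p hp).2 hodd).mul_dvd h1 h2
    rw [← gaussA_norm_cast, (hu p hp).2] at h3
    have h4 : ((p : ℤ) : GaussianInt) ∣ ((p ^ m.factorization p : ℕ) : ℤ) := by
      have h5 : (p : ℤ) ∣ ((p ^ m.factorization p : ℕ) : ℤ) := by
        have : p ∣ p ^ m.factorization p := dvd_pow_self p
          (Nat.pos_iff_ne_zero.1 (hpp.factorization_pos_of_dvd hm (Nat.dvd_of_mem_primeFactors hp)))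
        exact_mod_cast this
      exact (Zsqrtd.intCast_dvd_intCast _ _).2 h5
    exact (hP1 T).not_dvd (Nat.prime_iff_prime_int.1 hpp) (h4.trans h3)
  rw [← Finset.card_powerset]
  have hinj2 : Set.InjOn (fun T => ((F T).re, (F T).im)) (m.primeFactors.powerset : Set (Finset ℕ)) := by
    intro T hT T' hT' he
    have he' : F T = F T' := Zsqrtd.ext (congrArg Prod.fst he) (congrArg Prod.snd he)
    exact Finset.Subset.antisymm (hinj T hT T' hT' he') (hinj T' hT' T hT he'.symm)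
  rw [← Finset.card_image_of_injOn hinj2, ← Set.ncard_coe_finset]
  refine Set.ncard_le_ncard ?_ hfin
  intro xi hxi
  rw [Finset.mem_coe, Finset.mem_image] at hxi
  obtain ⟨T, -, rfl⟩ := hxi
  refine ⟨Int.isCoprime_iff_gcd_eq_one.1 (hP1 T), ?_, ?_⟩
  · have h1 := hP3 T
    have e : (P T * (∏ p ∈ m.primeFactors, g T p) * star α).im = v₀.1 * (F T).im - v₀.2 * (F T).re := by
      have e1 : P T * (∏ p ∈ m.primeFactors, g T p) = F T := rfl
      rw [e1, hα]
      simp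
      ring
    rw [e] at h1
    exact h1
  · have h1 := hP2 T
    rw [gaussA_norm] at h1
    exact h1

end Pool.Agent.W33f
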