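import Pool.Agent.W_d33b62f_h37.Df

/-!
# MP_d33b62_nt, full question (helper37): T8, the family of circles
-/

set_option autoImplicit false

noncomputable section

open Finset

namespace Pool.Agent.W33f

/-- **(D)** Lower bound for the number of neighbours `ξ` of prime curvature, `T < a ≤ 2 T`, in a class. -/
theorem FamD (a₀ : ℕ) (ha : a₀.Prime) (ha5 : 5 ≤ a₀) (v₀ : ℤ × ℤ) (hv : ¬ (a₀ : ℤ) ∣ nm v₀) (zz : ℕ) :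
    ∃ (E A : ℕ) (c : ℝ), E ≠ 0 ∧ Nat.Coprime E (2 * a₀) ∧ (∀ p : ℕ, p.Prime → p ∣ E → p % 4 = 1 ∧ zz < p) ∧ 0 < c ∧
      ∃ w₀ : ℕ, ∀ w ≥ w₀, ∀ W, Wok w W → (∀ p : ℕ, p.Prime → p ∣ E → p * E ∣ W) → ∃ T₀ : ℕ, ∀ T ≥ T₀, ∀ al : ℕ,
        Nat.Coprime al W → (∃ m₀ : ℕ, Nat.Coprime m₀ W ∧ al + a₀ ≡ 2 * E * m₀ [MOD 4 * W]) → al + a₀ ≡ 2 [MOD 8] →
        (∃ s : ℤ, al * nm v₀ ≡ s ^ 2 [ZMOD a₀]) →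
          c / (Real.log w) ^ A * (T / ((4 * W).totient * Real.log T)) ≤
            (({xi : ℤ × ℤ | Int.gcd xi.1 xi.2 = 1 ∧ (a₀ : ℤ) ∣ v₀.1 * xi.2 - v₀.2 * xi.1 ∧
              ∃ q : ℕ, q ∈ Ioc T (2 * T) ∧ q.Prime ∧ q ≡ al [MOD 4 * W] ∧ nm xi = q + a₀}).ncard : ℝ) := by
  sorry

/-- **(F)** Upper bound for the number of neighbours of prime curvature in a class mod `d`. -/
theorem FamF (a₀ : ℕ) (ha : a₀.Prime) (ha5 : 5 ≤ a₀) (E : ℕ) (hE : E ≠ 0) (hE2 : Nat.Coprime E 2) :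
    ∃ (A : ℕ) (C : ℝ), 0 < C ∧ ∃ w₀ : ℕ, ∀ w ≥ w₀, ∀ W, Wok w W → (∀ p : ℕ, p.Prime → p ∣ E → p * E ∣ W) →
      ∃ T₀ : ℕ, ∀ T ≥ T₀, ∀ al : ℕ, Nat.Coprime al W →
      (∃ m₀ : ℕ, Nat.Coprime m₀ W ∧ al + a₀ ≡ 2 * E * m₀ [MOD 4 * W]) → ∀ (d : ℕ) (u : ℤ), Squarefree d → (∀ p : ℕ, p.Prime → p ∣ d → w < p) → (d : ℝ) ≤ (T : ℝ) ^ (1 / 20 : ℝ) →
          (({xi : ℤ × ℤ | ∃ q : ℕ, q ∈ Ioc T (2 * T) ∧ q.Prime ∧ q ≡ al [MOD 4 * W] ∧ nm xi = q + a₀ ∧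
              (q : ℤ) ≡ u [ZMOD d]}).ncard : ℝ) ≤
            C * (Real.log w) ^ A * 4 ^ d.primeFactors.card / d * (T / ((4 * W).totient * Real.log T)) := by
  sorry

/-- **T8**, from `FamD` and `FamF`.

Proof. `J` = the `ξ` of `FamD` for the dyadic `T = 2 ^ j`, `(log Y) ^ B ≤ 2 ^ j`, `2 ^ (j + 1) ≤ (log Y) ^ B'`, which are good
(`EE (a + a₀)`, `EE (a + h i - h l) ≤ 1 + η`). `EE C w m - 1 ≤ ∑_{d ∣ m, 1 < d ≤ T ^ (1/20), squarefree, primes > w} C ^ ω(d) / d + o(1)`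
for `|m| ≤ 4 T ^ ...` (primes `> log m` contribute `o(1)`, Rankin for `d > T ^ (1/20)`); by `FamF`
the sum of `EE - 1` over the class is `≤ C' (log w) ^ A' / w` times the bound, so the bad `ξ` have density
`≤ C' (log w) ^ A' / (η w)` relative to `FamD`: negligible for `w ≥ w₀`. The same for the pairs: fix `ξ`, `u = a ξ`. Sum over the
dyadic `j`: `∑ 1 / (φ(4 W) log 2 ^ j) ~ log (B' / B)`. -/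
theorem FAM0 (a₀ : ℕ) (ha : a₀.Prime) (ha5 : 5 ≤ a₀) (v₀ : ℤ × ℤ) (hv : ¬ (a₀ : ℤ) ∣ nm v₀) (zz : ℕ) :
    ∃ E : ℕ, E ≠ 0 ∧ Nat.Coprime E (2 * a₀) ∧ (∀ p : ℕ, p.Prime → p ∣ E → p % 4 = 1 ∧ zz < p) ∧
      ∀ (k : ℕ) (C η : ℝ), 0 < C → 0 < η → ∃ w₀ : ℕ, ∀ w ≥ w₀, ∀ W, Wok w W → (∀ p : ℕ, p.Prime → p ∣ E → p * E ∣ W) →
        ∀ (C₂ : ℝ) (B : ℕ), ∃ B' Y₀ : ℕ, ∀ Y ≥ Y₀, ∀ D : Dat k, D.w = w → D.W = W → D.ok → D.a0 = a₀ →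
          (∃ m₀ : ℕ, Nat.Coprime m₀ W ∧ D.al + a₀ ≡ 2 * E * m₀ [MOD 4 * W]) →
          (∃ s : ℤ, D.al * nm v₀ ≡ s ^ 2 [ZMOD a₀]) →
          ∃ J : Finset (ℤ × ℤ), (∀ xi ∈ J, D.Fam Y B B' C η xi ∧ (a₀ : ℤ) ∣ v₀.1 * xi.2 - v₀.2 * xi.1) ∧
            C₂ ≤ ∑ xi ∈ J, mu W (D.a xi) ∧
            (∑ xi ∈ J, ∑ xi' ∈ J, (if D.a xi = D.a xi' then 0 else
              mu W (D.a xi) * mu W (D.a xi') * EE C w ((D.a xi : ℤ) - D.a xi'))) ≤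
                (1 + η) * (∑ xi ∈ J, mu W (D.a xi)) ^ 2 := by
  sorry

end Pool.Agent.W33f
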