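import Pool.Agent.W_d33b62f_h37.LC
import Pool.Agent.W_d33b62f_h37.Df

/-!
# Lattice points in a disc, in residue classes (MP_d33b62; helper19)
-/

set_option autoImplicit false

noncomputable section

open Finset Filter Topology

namespace Pool.Agent.W33f

/-- The points of the right half disc in one class. -/
def HD (q : ℕ) (x0 y0 : ℤ) (B : ℝ) : Set (ℤ × ℤ) :=
  {v | v.1 ≡ x0 [ZMOD q] ∧ v.2 ≡ y0 [ZMOD q] ∧ 0 < v.1 ∧ (v.1 : ℝ) ^ 2 + (v.2 : ℝ) ^ 2 ≤ B}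

theorem HD_eq {lam B : ℝ} (q : ℕ) (x0 y0 : ℤ) (h : √B < lam) : SD lam q x0 y0 B = HD q x0 y0 B := by
  have hl : 0 < lam := (Real.sqrt_nonneg B).trans_lt h
  ext v
  constructor
  · rintro ⟨h1, h2, h3, h4⟩
    refine ⟨h1, h2, ?_, h4⟩
    have : 0 < lam * v.1 := (abs_nonneg _).trans_lt h3
    have : (0 : ℝ) < v.1 := by
      by_contra h
      have := mul_nonpos_of_nonneg_of_nonpos hl.le (not_lt.1 h)
      linarith
    exact_mod_cast this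
  · rintro ⟨h1, h2, h3, h4⟩
    refine ⟨h1, h2, ?_, h4⟩
    have h5 : |(v.2 : ℝ)| ≤ √B := by
      apply Real.le_sqrt_of_sq_le
      rw [sq_abs]
      nlinarith [sq_nonneg (v.1 : ℝ)]
    have h6 : (1 : ℝ) ≤ v.1 := by exact_mod_cast h3
    nlinarith

theorem HD_fin (q : ℕ) (x0 y0 : ℤ) (B : ℝ) : (HD q x0 y0 B).Finite := by
  rw [← HD_eq (lam := √B + 1) q x0 y0 (by linarith)]
  exact SD_fin _ _ _ _ _

theorem HD_count {B : ℝ} (hB : 0 ≤ B) (q : ℕ) (hq : 1 ≤ q) (x0 y0 : ℤ) :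
    |(((HD q x0 y0 B).ncard : ℕ) : ℝ) - Real.pi / 2 * B / q ^ 2| ≤ 8 * (√B / q + 1) := by
  have hlim : Tendsto (fun lam : ℝ => |(((HD q x0 y0 B).ncard : ℕ) : ℝ) - Real.arctan lam * B / q ^ 2|) atTop
      (𝓝 |(((HD q x0 y0 B).ncard : ℕ) : ℝ) - Real.pi / 2 * B / q ^ 2|) := by
    have h1 : Tendsto Real.arctan atTop (𝓝 (Real.pi / 2)) :=
      Real.tendsto_arctan_atTop.mono_right nhdsWithin_le_nhds
    exact ((tendsto_const_nhds).sub ((h1.mul_const B).div_const _)).abs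
  refine le_of_tendsto hlim ?_
  filter_upwards [eventually_gt_atTop (√B)] with lam hlam
  rw [← HD_eq q x0 y0 hlam]
  exact SD_count ((Real.sqrt_nonneg B).trans_lt hlam) hB q hq x0 y0

/-- The points of the disc in one class. -/
def DD (q : ℕ) (x0 y0 : ℤ) (B : ℝ) : Set (ℤ × ℤ) :=
  {v | v.1 ≡ x0 [ZMOD q] ∧ v.2 ≡ y0 [ZMOD q] ∧ (v.1 : ℝ) ^ 2 + (v.2 : ℝ) ^ 2 ≤ B}

theorem DD_fin (q : ℕ) (x0 y0 : ℤ) (B : ℝ) : (DD q x0 y0 B).Finite := by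
  refine (finite_toSet ((Icc (-⌊√B⌋) ⌊√B⌋) ×ˢ (Icc (-⌊√B⌋) ⌊√B⌋))).subset ?_
  intro v hv
  obtain ⟨_, _, h⟩ := hv
  rw [mem_coe, mem_product, mem_Icc, mem_Icc]
  have h1 := abs_le_of_sq h
  have h2 : |v.2| ≤ ⌊√B⌋ := by
    rw [add_comm] at h
    exact abs_le_of_sq h
  exact ⟨abs_le.1 h1, abs_le.1 h2⟩

/-- **Lattice points in a disc, in one class mod `q`.** -/
theorem DD_count {B : ℝ} (hB : 0 ≤ B) (q : ℕ) (hq : 1 ≤ q) (x0 y0 : ℤ) :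
    |(((DD q x0 y0 B).ncard : ℕ) : ℝ) - Real.pi * B / q ^ 2| ≤ 20 * (√B / q + 1) := by
  classical
  have h1 := HD_count hB q hq x0 y0
  have h2 := HD_count hB q hq (-x0) (-y0)
  have hq1 : (1 : ℝ) ≤ q := by exact_mod_cast hq
  have hsB := Real.sqrt_nonneg B
  -- the negative half
  let N : Set (ℤ × ℤ) := {v | v.1 ≡ x0 [ZMOD q] ∧ v.2 ≡ y0 [ZMOD q] ∧ v.1 < 0 ∧ (v.1 : ℝ) ^ 2 + (v.2 : ℝ) ^ 2 ≤ B}
  let Z : Set (ℤ × ℤ) := {v | v.1 ≡ x0 [ZMOD q] ∧ v.2 ≡ y0 [ZMOD q] ∧ v.1 = 0 ∧ (v.1 : ℝ) ^ 2 + (v.2 : ℝ) ^ 2 ≤ B}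
  have hN : N.ncard = (HD q (-x0) (-y0) B).ncard := by
    have e : N = (fun v : ℤ × ℤ => -v) '' HD q (-x0) (-y0) B := by
      ext v
      constructor
      · rintro ⟨a, b, c, d⟩
        refine ⟨-v, ⟨a.neg, b.neg, ?_, ?_⟩, neg_neg v⟩
        · show 0 < -v.1
          omega
        · show ((-v.1 : ℤ) : ℝ) ^ 2 + ((-v.2 : ℤ) : ℝ) ^ 2 ≤ B
          push_cast
          linarith [neg_sq (v.1 : ℝ), neg_sq (v.2 : ℝ)]
      · rintro ⟨u, ⟨a, b, c, d⟩, rfl⟩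
        refine ⟨?_, ?_, ?_, ?_⟩
        · have := a.neg
          rwa [neg_neg] at this
        · have := b.neg
          rwa [neg_neg] at this
        · show -u.1 < 0
          omega
        · show ((-u.1 : ℤ) : ℝ) ^ 2 + ((-u.2 : ℤ) : ℝ) ^ 2 ≤ B
          push_cast
          linarith [neg_sq (u.1 : ℝ), neg_sq (u.2 : ℝ)]
    rw [e, Set.ncard_image_of_injective _ neg_injective]
  have hZ : (Z.ncard : ℝ) ≤ 2 * (√B / q) + 2 := by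
    let S : Finset ℤ := (Icc (-⌊√B⌋) ⌊√B⌋).filter fun y => y ≡ y0 [ZMOD q]
    have hS : |((S.card : ℕ) : ℝ) - 2 * √B / q| ≤ 2 := by
      refine y_count q hq y0 S (√B) hsB ?_ ?_
      · intro y hy
        rw [mem_filter, mem_Icc] at hy
        refine ⟨hy.2, ?_⟩
        have h3 : |y| ≤ ⌊√B⌋ := abs_le.2 hy.1
        have h4 := Int.le_floor.1 h3
        push_cast at h4
        exact h4
      · intro y hy h
        rw [mem_filter, mem_Icc]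
        refine ⟨abs_le.1 ?_, hy⟩
        rw [Int.le_floor]
        push_cast
        exact h.le
    have hZS : Z ⊆ ↑(S.image fun y => ((0 : ℤ), y)) := by
      rintro v ⟨_, b, c, d⟩
      rw [mem_coe, mem_image]
      refine ⟨v.2, ?_, Prod.ext c.symm rfl⟩
      rw [mem_filter, mem_Icc]
      rw [add_comm] at d
      exact ⟨abs_le.1 (abs_le_of_sq d), b⟩
    have h3 : Z.ncard ≤ S.card := by
      have := Set.ncard_le_ncard hZS (finite_toSet _)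
      rw [Set.ncard_coe_finset] at this
      exact this.trans card_image_le
    have h4 : (Z.ncard : ℝ) ≤ S.card := by exact_mod_cast h3
    rw [abs_le] at hS
    have e : 2 * √B / q = 2 * (√B / q) := by ring
    linarith [hS.2]
  have hfH := HD_fin q x0 y0 B
  have hfD := DD_fin q x0 y0 B
  have hfN : N.Finite := hfD.subset fun v h => ⟨h.1, h.2.1, h.2.2.2⟩
  have hfZ : Z.Finite := hfD.subset fun v h => ⟨h.1, h.2.1, h.2.2.2⟩
  have e : DD q x0 y0 B = HD q x0 y0 B ∪ (N ∪ Z) := by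
    ext v
    constructor
    · rintro ⟨a, b, c⟩
      rcases lt_trichotomy v.1 0 with h | h | h
      · exact Or.inr (Or.inl ⟨a, b, h, c⟩)
      · exact Or.inr (Or.inr ⟨a, b, h, c⟩)
      · exact Or.inl ⟨a, b, h, c⟩
    · rintro (h | h | h)
      · exact ⟨h.1, h.2.1, h.2.2.2⟩
      · exact ⟨h.1, h.2.1, h.2.2.2⟩
      · exact ⟨h.1, h.2.1, h.2.2.2⟩
  have hd1 : Disjoint (HD q x0 y0 B) (N ∪ Z) := by
    rw [Set.disjoint_left]
    rintro v h (h' | h')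
    · exact absurd h.2.2.1 (by have := h'.2.2.1; omega)
    · exact absurd h.2.2.1 (by have := h'.2.2.1; omega)
  have hd2 : Disjoint N Z := by
    rw [Set.disjoint_left]
    rintro v h h'
    exact absurd h.2.2.1 (by have := h'.2.2.1; omega)
  have hc : (DD q x0 y0 B).ncard = (HD q x0 y0 B).ncard + ((HD q (-x0) (-y0) B).ncard + Z.ncard) := by
    rw [e, Set.ncard_union_eq hd1 hfH (hfN.union hfZ), Set.ncard_union_eq hd2 hfN hfZ, hN]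
  rw [hc]
  push_cast
  have hZ0 : (0 : ℝ) ≤ Z.ncard := Nat.cast_nonneg _
  have h0 : 0 ≤ √B / q := by positivity
  have e3 : Real.pi * B / q ^ 2 = Real.pi / 2 * B / q ^ 2 + Real.pi / 2 * B / q ^ 2 := by ring
  rw [e3]
  rw [abs_le] at h1 h2 ⊢
  constructor <;> linarith [h1.1, h1.2, h2.1, h2.2]

/-- The same for a finite set of classes mod `q`. -/
theorem ld_classes (q : ℕ) (hq : 1 ≤ q) (K : Finset (ZMod q × ZMod q)) {B : ℝ} (hB : 0 ≤ B) :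
    {v : ℤ × ℤ | ((v.1 : ZMod q), (v.2 : ZMod q)) ∈ K ∧ (v.1 : ℝ) ^ 2 + (v.2 : ℝ) ^ 2 ≤ B}.Finite ∧
    |((({v : ℤ × ℤ | ((v.1 : ZMod q), (v.2 : ZMod q)) ∈ K ∧ (v.1 : ℝ) ^ 2 + (v.2 : ℝ) ^ 2 ≤ B}).ncard
        : ℕ) : ℝ) - K.card * (Real.pi * B / q ^ 2)| ≤ K.card * (20 * (√B / q + 1)) := by
  classical
  have hne : NeZero q := ⟨by omega⟩
  have hmem : ∀ (κ : ZMod q × ZMod q) (v : ℤ × ℤ),
      v ∈ DD q (κ.1.val : ℤ) (κ.2.val : ℤ) B ↔ (((v.1 : ZMod q), (v.2 : ZMod q)) = κ ∧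
        (v.1 : ℝ) ^ 2 + (v.2 : ℝ) ^ 2 ≤ B) := by
    intro κ v
    have h1 : ∀ (x : ℤ) (c : ZMod q), x ≡ (c.val : ℤ) [ZMOD q] ↔ (x : ZMod q) = c := by
      intro x c
      rw [← ZMod.intCast_eq_intCast_iff]
      simp
    rw [DD, Set.mem_ofPred_eq, h1, h1, Prod.ext_iff]
    tauto
  let f : ZMod q × ZMod q → Finset (ℤ × ℤ) := fun κ =>
    (DD_fin q (κ.1.val : ℤ) (κ.2.val : ℤ) B).toFinset
  have e : {v : ℤ × ℤ | ((v.1 : ZMod q), (v.2 : ZMod q)) ∈ K ∧ (v.1 : ℝ) ^ 2 + (v.2 : ℝ) ^ 2 ≤ B} =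
      ↑(K.biUnion f) := by
    ext v
    rw [mem_coe, mem_biUnion]
    constructor
    · rintro ⟨h1, h2⟩
      refine ⟨_, h1, ?_⟩
      rw [Set.Finite.mem_toFinset, hmem]
      exact ⟨rfl, h2⟩
    · rintro ⟨κ, hκ, h⟩
      rw [Set.Finite.mem_toFinset, hmem] at h
      refine ⟨?_, h.2⟩
      rw [h.1]
      exact hκ
  rw [e]
  refine ⟨finite_toSet _, ?_⟩
  rw [Set.ncard_coe_finset, card_biUnion]
  · push_cast
    have e2 : (K.card : ℝ) * (Real.pi * B / q ^ 2) = ∑ κ ∈ K, Real.pi * B / q ^ 2 := by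
      rw [sum_const, nsmul_eq_mul]
    have e3 : (K.card : ℝ) * (20 * (√B / q + 1)) = ∑ κ ∈ K, 20 * (√B / q + 1) := by
      rw [sum_const, nsmul_eq_mul]
    rw [e2, e3, ← sum_sub_distrib]
    refine (abs_sum_le_sum_abs _ _).trans (sum_le_sum fun κ _ => ?_)
    have := DD_count hB q hq (κ.1.val : ℤ) (κ.2.val : ℤ)
    rw [Set.ncard_eq_toFinset_card _ (DD_fin q (κ.1.val : ℤ) (κ.2.val : ℤ) B)] at this
    exact this
  · intro κ _ κ' _ hne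
    rw [Function.onFun, disjoint_left]
    intro v h1 h2
    rw [Set.Finite.mem_toFinset, hmem] at h1 h2
    exact hne (h1.1.symm.trans h2.1)

/-- **Disc: one class mod `q` and a set `K` of classes mod a coprime `d`.** -/
theorem ld_two (q : ℕ) (hq : 1 ≤ q) (x0 y0 : ℤ) (d : ℕ) (hd : 1 ≤ d)
    (hqd : Nat.Coprime q d) (K : Finset (ZMod d × ZMod d)) {B : ℝ} (hB : 0 ≤ B) :
    {v : ℤ × ℤ | v.1 ≡ x0 [ZMOD q] ∧ v.2 ≡ y0 [ZMOD q] ∧ ((v.1 : ZMod d), (v.2 : ZMod d)) ∈ K ∧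
        (v.1 : ℝ) ^ 2 + (v.2 : ℝ) ^ 2 ≤ B}.Finite ∧
    |((({v : ℤ × ℤ | v.1 ≡ x0 [ZMOD q] ∧ v.2 ≡ y0 [ZMOD q] ∧ ((v.1 : ZMod d), (v.2 : ZMod d)) ∈ K ∧
        (v.1 : ℝ) ^ 2 + (v.2 : ℝ) ^ 2 ≤ B}).ncard
        : ℕ) : ℝ) - K.card * (Real.pi * B / (q * d) ^ 2)| ≤ K.card * (20 * (√B / (q * d) + 1)) := by
  classical
  let e := ZMod.chineseRemainder hqd
  let g : ZMod d × ZMod d → ZMod (q * d) × ZMod (q * d) := fun κ =>
    (e.symm ((x0 : ZMod q), κ.1), e.symm ((y0 : ZMod q), κ.2))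
  have hg : Function.Injective g := by
    intro κ κ' h
    have h1 := e.symm.injective (Prod.mk.inj h).1
    have h2 := e.symm.injective (Prod.mk.inj h).2
    exact Prod.ext (Prod.mk.inj h1).2 (Prod.mk.inj h2).2
  have he : ∀ x : ℤ, e (x : ZMod (q * d)) = ((x : ZMod q), (x : ZMod d)) := by
    intro x
    rw [map_intCast]
    rfl
  have hiff : ∀ v : ℤ × ℤ, ((v.1 : ZMod (q * d)), (v.2 : ZMod (q * d))) ∈ K.image g ↔
      (v.1 ≡ x0 [ZMOD q] ∧ v.2 ≡ y0 [ZMOD q] ∧ ((v.1 : ZMod d), (v.2 : ZMod d)) ∈ K) := by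
    intro v
    rw [mem_image, ← ZMod.intCast_eq_intCast_iff, ← ZMod.intCast_eq_intCast_iff]
    constructor
    · rintro ⟨κ, hκ, h⟩
      have h1 : e.symm ((x0 : ZMod q), κ.1) = (v.1 : ZMod (q * d)) := (Prod.mk.inj h).1
      have h2 : e.symm ((y0 : ZMod q), κ.2) = (v.2 : ZMod (q * d)) := (Prod.mk.inj h).2
      rw [RingEquiv.symm_apply_eq, he] at h1 h2
      have h3 := Prod.mk.inj h1
      have h4 := Prod.mk.inj h2
      refine ⟨h3.1.symm, h4.1.symm, ?_⟩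
      rw [← h3.2, ← h4.2]
      exact hκ
    · rintro ⟨h1, h2, h3⟩
      refine ⟨_, h3, ?_⟩
      simp only [g]
      refine Prod.ext ?_ ?_
      · rw [RingEquiv.symm_apply_eq, he, h1]
      · rw [RingEquiv.symm_apply_eq, he, h2]
  have h := ld_classes (q * d) (Nat.mul_pos hq hd) (K.image g) hB
  rw [card_image_of_injective _ hg] at h
  have hs : {v : ℤ × ℤ | ((v.1 : ZMod (q * d)), (v.2 : ZMod (q * d))) ∈ K.image g ∧
        (v.1 : ℝ) ^ 2 + (v.2 : ℝ) ^ 2 ≤ B} =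
      {v : ℤ × ℤ | v.1 ≡ x0 [ZMOD q] ∧ v.2 ≡ y0 [ZMOD q] ∧ ((v.1 : ZMod d), (v.2 : ZMod d)) ∈ K ∧
        (v.1 : ℝ) ^ 2 + (v.2 : ℝ) ^ 2 ≤ B} := by
    ext v
    constructor
    · rintro ⟨h1, h2⟩
      have := (hiff v).1 h1
      exact ⟨this.1, this.2.1, this.2.2, h2⟩
    · rintro ⟨h1, h2, h3, h4⟩
      exact ⟨(hiff v).2 ⟨h1, h2, h3⟩, h4⟩
  rw [hs] at h
  push_cast at h
  exact h

/-- The disc count with `nm`, as asked for `FamF` and `LL`. -/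
theorem ld_disc (q : ℕ) (hq : 1 ≤ q) (z0 : ℤ × ℤ) {B : ℝ} (hB : 0 ≤ B) :
    {z : ℤ × ℤ | z.1 ≡ z0.1 [ZMOD q] ∧ z.2 ≡ z0.2 [ZMOD q] ∧ (nm z : ℝ) ≤ B}.Finite ∧
    |((({z : ℤ × ℤ | z.1 ≡ z0.1 [ZMOD q] ∧ z.2 ≡ z0.2 [ZMOD q] ∧ (nm z : ℝ) ≤ B}).ncard : ℕ) : ℝ) -
      Real.pi * B / q ^ 2| ≤ 20 * (√B / q + 1) := by
  have e : {z : ℤ × ℤ | z.1 ≡ z0.1 [ZMOD q] ∧ z.2 ≡ z0.2 [ZMOD q] ∧ (nm z : ℝ) ≤ B} = DD q z0.1 z0.2 B := by
    ext v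
    simp only [DD, nm]
    push_cast
    rfl
  rw [e]
  exact ⟨DD_fin _ _ _ _, DD_count hB q hq _ _⟩

end Pool.Agent.W33f
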