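import Pool.Agent.W_d33b62f_h41.R1
import Pool.Agent.W_d33b62f_h41.R6
import Pool.Agent.W_d33b62f_h41.L1
import Pool.Agent.W_d33b62f_h41.G1
import Pool.Agent.W_d33b62f_h37.Sv

/-!
# MP_d33b62_nt, full question (helper41): `FamF`, the upper bound for the number of neighbours of prime curvature
-/

set_option autoImplicit false

noncomputable section

open Finset

namespace Pool.Agent.W33f

theorem mem_Pd {w : ℕ} {z : ℝ} {d p : ℕ} : p ∈ Pd w z d ↔ (p.Prime ∧ w < p ∧ (p : ℝ) < z) ∧ ¬ p ∣ d := by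
  unfold Pd Pw
  rw [mem_filter, mem_filter, mem_range, Nat.lt_ceil]
  tauto

/-- The filtered set is again a set `DN`. -/
theorem ff_set (q m B : ℕ) (hqm : Nat.Coprime q m) (N a : ℤ) : ∃ N' : ℤ, (q : ℤ) ∣ N' - N ∧ (m : ℤ) ∣ N' - a ∧
    (DN q N B).filter (fun x => (m : ℤ) ∣ nm x - a) = DN (q * m) N' B := by
  have hc : IsCoprime (q : ℤ) (m : ℤ) := Nat.isCoprime_iff_coprime.2 hqm
  obtain ⟨u, v, huv⟩ := hc
  refine ⟨N * (v * m) + a * (u * q), ?_, ?_, ?_⟩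
  · refine ⟨u * (a - N), ?_⟩
    linear_combination N * (huv)
  · refine ⟨v * (N - a), ?_⟩
    linear_combination a * (huv)
  · ext x
    rw [mem_filter, mem_DN, mem_DN]
    have h1 : (q : ℤ) ∣ (N * (v * m) + a * (u * q)) - N := by
      refine ⟨u * (a - N), ?_⟩
      linear_combination N * (huv)
    have h2 : (m : ℤ) ∣ (N * (v * m) + a * (u * q)) - a := by
      refine ⟨v * (N - a), ?_⟩
      linear_combination a * (huv)
    constructor
    · rintro ⟨⟨h3, h4⟩, h5⟩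
      refine ⟨h3, ?_⟩
      push_cast
      refine IsCoprime.mul_dvd ⟨u, v, huv⟩ ?_ ?_
      · have := dvd_sub h4 h1
        rwa [show nm x - N - ((N * (v * m) + a * (u * q)) - N) = nm x - (N * (v * m) + a * (u * q)) by ring] at this
      · have := dvd_sub h5 h2
        rwa [show nm x - a - ((N * (v * m) + a * (u * q)) - a) = nm x - (N * (v * m) + a * (u * q)) by ring] at this
    · rintro ⟨h3, h4⟩
      push_cast at h4
      have h5 := (Dvd.intro _ rfl : (q : ℤ) ∣ q * m).trans h4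
      have h6 := (Dvd.intro_left _ rfl : (m : ℤ) ∣ q * m).trans h4
      refine ⟨⟨h3, ?_⟩, ?_⟩
      · have := dvd_add h5 h1
        rwa [show nm x - (N * (v * m) + a * (u * q)) + ((N * (v * m) + a * (u * q)) - N) = nm x - N by ring] at this
      · have := dvd_add h6 h2
        rwa [show nm x - (N * (v * m) + a * (u * q)) + ((N * (v * m) + a * (u * q)) - a) = nm x - a by ring] at this

theorem ff_dvd (S : Finset ℕ) (hS : ∀ p ∈ S, p.Prime) (n : ℤ) :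
    (∀ p ∈ S, (p : ℤ) ∣ n) ↔ ((∏ p ∈ S, p : ℕ) : ℤ) ∣ n := by
  constructor
  · intro h
    rw [Int.natCast_dvd]
    refine Finset.prod_primes_dvd _ (fun p hp => (hS p hp).prime) fun p hp => ?_
    exact Int.natCast_dvd.1 (h p hp)
  · intro h p hp
    have h1 : p ∣ ∏ p ∈ S, p := dvd_prod_of_mem _ hp
    exact (Int.natCast_dvd_natCast.2 h1).trans h

/-- **The sieve.** -/
theorem ff_sieve : ∃ C₁ : ℝ, 0 < C₁ ∧ ∀ (a₀ w Q d T : ℕ) (z : ℝ) (N : ℤ), 1 ≤ a₀ → a₀ ≤ w → 3 ≤ w → 1 ≤ Q →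
    (∀ p : ℕ, p.Prime → p ∣ Q → p ≤ w ∨ p ∣ d) → 2 ≤ z →
    (((DN Q N (3 * T)).filter (fun x => ∀ p ∈ Pd w z d, ¬ (p : ℤ) ∣ nm x - a₀)).card : ℝ) ≤
      C₁ * (rr Q N * (T / (Q : ℝ) ^ 2)) * ∏ p ∈ Pd w z d, (1 - gg p) +
        20 * (Q * z ^ 9) ^ 2 * (Real.sqrt (3 * T) + 1) * z ^ 9 := by
  obtain ⟨C, hC1, hC⟩ := sieve 2 (by norm_num)
  refine ⟨3 * Real.pi * (1 + C), by positivity, ?_⟩
  intro a₀ w Q d T z N ha1 haw hw3 hQ hQp hz
  have hP : ∀ p ∈ Pd w z d, p.Prime ∧ (p : ℝ) < z ∧ 0 ≤ gg p ∧ gg p ≤ 3 / 4 ∧ gg p ≤ 2 / p := by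
    intro p hp
    rw [mem_Pd] at hp
    have := gg_bounds p hp.1.1 (by omega)
    exact ⟨hp.1.1, hp.1.2.2, this⟩
  have hQ0 : (0 : ℝ) < Q := by exact_mod_cast hQ
  have hX : 0 ≤ (rr Q N : ℝ) * (Real.pi * ((3 * T : ℕ) : ℝ) / (Q : ℝ) ^ 2) := by positivity
  have hE : 0 ≤ 20 * (Q * z ^ 9) ^ 2 * (Real.sqrt (3 * T) + 1) := by positivity
  have h := (hC z 1 (Pd w z d) gg hz le_rfl hP (ℤ × ℤ) (DN Q N (3 * T)) (fun p x => (p : ℤ) ∣ nm x - a₀)
    _ _ hX hE ?_).1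
  · have key : ∀ (s : Finset (ℤ × ℤ)) (R : ℝ), (∀ x, x ∈ s ↔ x ∈ DN Q N (3 * T) ∧ ∀ p ∈ Pd w z d, ¬ (p : ℤ) ∣ nm x - a₀) →
        (s.card : ℝ) ≤ R →
        (((DN Q N (3 * T)).filter (fun x => ∀ p ∈ Pd w z d, ¬ (p : ℤ) ∣ nm x - a₀)).card : ℝ) ≤ R := by
      intro s R hs hR
      have : (DN Q N (3 * T)).filter (fun x => ∀ p ∈ Pd w z d, ¬ (p : ℤ) ∣ nm x - a₀) = s := by
        ext x
        rw [mem_filter, hs x]
      rw [this]
      exact hR
    refine key _ _ ?mem (h.trans ?_)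
    case mem => exact fun x => @mem_filter _ _ (_) _ _
    have h1 : Real.exp (-(1 : ℕ)) ≤ 1 := Real.exp_le_one_iff.2 (by norm_num)
    have h2 : 0 ≤ ∏ p ∈ Pd w z d, (1 - gg p) := prod_nonneg fun p hp => by
      have := (hP p hp).2.2.2.1
      linarith
    have h3 : (4 * 1 + 5 : ℕ) = 9 := rfl
    rw [h3]
    refine add_le_add ?_ le_rfl
    have h4 : (rr Q N : ℝ) * (Real.pi * ((3 * T : ℕ) : ℝ) / (Q : ℝ) ^ 2) * (∏ p ∈ Pd w z d, (1 - gg p)) *
        (1 + C * Real.exp (-(1 : ℕ))) ≤ (rr Q N : ℝ) * (Real.pi * ((3 * T : ℕ) : ℝ) / (Q : ℝ) ^ 2) *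
          (∏ p ∈ Pd w z d, (1 - gg p)) * (1 + C * 1) := by
      refine mul_le_mul_of_nonneg_left ?_ (mul_nonneg hX h2)
      have : C * Real.exp (-(1 : ℕ)) ≤ C * 1 := mul_le_mul_of_nonneg_left h1 (by linarith)
      linarith
    refine h4.trans (le_of_eq ?_)
    push_cast
    ring
  · intro S hS hSz
    have hSp : ∀ p ∈ S, p.Prime := fun p hp => (hP p (hS hp)).1
    have h3 : (4 * 1 + 5 : ℕ) = 9 := rfl
    rw [h3] at hSz
    have hm0 : 0 < ∏ p ∈ S, p := prod_pos fun p hp => (hSp p hp).pos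
    have hcop : Nat.Coprime Q (∏ p ∈ S, p) := by
      refine Nat.Coprime.prod_right fun p hp => ?_
      rw [Nat.coprime_comm, Nat.Prime.coprime_iff_not_dvd (hSp p hp)]
      intro hd
      have h5 := mem_Pd.1 (hS hp)
      rcases hQp p (hSp p hp) hd with h6 | h6
      · omega
      · exact h5.2 h6
    obtain ⟨N', hN1, hN2, hset⟩ := ff_set Q (∏ p ∈ S, p) (3 * T) hcop N a₀
    have key : ∀ (s : Finset (ℤ × ℤ)) (R R' : ℝ), (∀ x, x ∈ s ↔ x ∈ DN Q N (3 * T) ∧ ∀ p ∈ S, (p : ℤ) ∣ nm x - a₀) →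
        |((DN (Q * ∏ p ∈ S, p) N' (3 * T)).card : ℝ) - R| ≤ R' → |(s.card : ℝ) - R| ≤ R' := by
      intro s R R' hs hR
      have : s = DN (Q * ∏ p ∈ S, p) N' (3 * T) := by
        rw [← hset]
        ext x
        rw [mem_filter, hs x, ff_dvd S hSp]
      rw [this]
      exact hR
    refine key _ _ _ ?mem ?_
    case mem => exact fun x => @mem_filter _ _ (_) _ _
    have hm1 : 1 ≤ Q * ∏ p ∈ S, p := Nat.mul_pos hQ hm0
    have h7 := disc_nm (Q * ∏ p ∈ S, p) (3 * T) N' hm1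
    have h8 : rr (Q * ∏ p ∈ S, p) N' = rr Q N * ∏ p ∈ S, rr p a₀ := by
      rw [rr_mul _ _ hcop, rr_congr Q N' N hN1, rr_congr _ N' a₀ hN2, rr_prod S hSp]
    have h9 : ∀ p ∈ S, (rr p a₀ : ℝ) = (p : ℝ) - ((ZMod.χ₄ (p : ZMod 4) : ℤ) : ℝ) := by
      intro p hp
      have h5 := mem_Pd.1 (hS hp)
      have h10 := rr_prime p (hSp p hp) (by omega) a₀ (by
        intro hd
        have := Nat.le_of_dvd (by omega) (Int.natCast_dvd_natCast.1 hd)
        omega)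
      exact_mod_cast h10
    have h11 : (rr (Q * ∏ p ∈ S, p) N' : ℝ) * (Real.pi * ((3 * T : ℕ) : ℝ) / ((Q * ∏ p ∈ S, p : ℕ) : ℝ) ^ 2) =
        (rr Q N : ℝ) * (Real.pi * ((3 * T : ℕ) : ℝ) / (Q : ℝ) ^ 2) * ∏ p ∈ S, gg p := by
      have h12 : ∏ p ∈ S, gg p = (∏ p ∈ S, (rr p a₀ : ℝ)) / (∏ p ∈ S, (p : ℝ)) ^ 2 := by
        rw [← prod_pow, ← prod_div_distrib]
        refine prod_congr rfl fun p hp => ?_
        rw [h9 p hp, gg]
      rw [h12, h8]
      push_cast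
      have h13 : (∏ p ∈ S, (p : ℝ)) ≠ 0 := prod_ne_zero_iff.2 fun p hp => by
        have := (hSp p hp).pos
        positivity
      field_simp
    rw [h11] at h7
    refine h7.trans ?_
    have h14 : (rr (Q * ∏ p ∈ S, p) N' : ℝ) ≤ ((Q * ∏ p ∈ S, p : ℕ) : ℝ) ^ 2 := by
      exact_mod_cast rr_le_sq (Q * ∏ p ∈ S, p) (by omega) N'
    have h15 : ((Q * ∏ p ∈ S, p : ℕ) : ℝ) ≤ Q * z ^ 9 := by
      rw [Nat.cast_mul]
      exact mul_le_mul_of_nonneg_left hSz hQ0.le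
    have h16 : ((Q * ∏ p ∈ S, p : ℕ) : ℝ) ^ 2 ≤ (Q * z ^ 9) ^ 2 :=
      pow_le_pow_left₀ (Nat.cast_nonneg _) h15 2
    have h17 : Real.sqrt ((3 * T : ℕ) : ℝ) / ((Q * ∏ p ∈ S, p : ℕ) : ℝ) ≤ Real.sqrt (3 * T) := by
      have h18 : (1 : ℝ) ≤ ((Q * ∏ p ∈ S, p : ℕ) : ℝ) := by exact_mod_cast hm1
      push_cast at h18 ⊢
      exact div_le_self (Real.sqrt_nonneg _) h18
    calc (rr (Q * ∏ p ∈ S, p) N' : ℝ) * (20 * (Real.sqrt ((3 * T : ℕ) : ℝ) / ((Q * ∏ p ∈ S, p : ℕ) : ℝ) + 1))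
        ≤ (Q * z ^ 9) ^ 2 * (20 * (Real.sqrt (3 * T) + 1)) := by
          refine mul_le_mul (h14.trans h16) ?_ (by positivity) (by positivity)
          linarith
      _ = 20 * (Q * z ^ 9) ^ 2 * (Real.sqrt (3 * T) + 1) := by ring

/-- The last step of the estimate: numbers only. -/
theorem ff_num (x W d D : ℝ) (φ L : ℝ) (hx1 : 1 ≤ x) (hW : 1 ≤ W) (hxW : 768000 * W ^ 3 ≤ x) (hd1 : 1 ≤ d) (hd : d ≤ x ^ 10)
    (hφ0 : 0 < φ) (hφ : φ ≤ 4 * W) (hL0 : 0 < L) (hL : L ≤ 200 * x) (hD : 1 ≤ D) :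
    20 * (4 * W * d * x ^ 9) ^ 2 * (3 * x ^ 100) * x ^ 9 ≤ D / d * (x ^ 200 / (φ * L)) := by
  have hx0 : 0 < x := by linarith
  have hd0 : 0 < d := by linarith
  have h1 : 20 * (4 * W * d * x ^ 9) ^ 2 * (3 * x ^ 100) * x ^ 9 ≤ 960 * W ^ 2 * x ^ 147 := by
    have : (4 * W * d * x ^ 9) ^ 2 ≤ (4 * W * x ^ 10 * x ^ 9) ^ 2 := by
      refine pow_le_pow_left₀ (by positivity) ?_ 2
      gcongr
    calc 20 * (4 * W * d * x ^ 9) ^ 2 * (3 * x ^ 100) * x ^ 9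
        ≤ 20 * (4 * W * x ^ 10 * x ^ 9) ^ 2 * (3 * x ^ 100) * x ^ 9 := by gcongr
      _ = 960 * W ^ 2 * x ^ 147 := by ring
  have h2 : x ^ 189 / (800 * W) ≤ D / d * (x ^ 200 / (φ * L)) := by
    have h3 : φ * L ≤ 4 * W * (200 * x) := mul_le_mul hφ hL hL0.le (by positivity)
    have h4 : x ^ 200 / (4 * W * (200 * x)) ≤ x ^ 200 / (φ * L) :=
      div_le_div_of_nonneg_left (by positivity) (by positivity) h3
    have h5 : 1 / x ^ 10 ≤ D / d := by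
      rw [div_le_div_iff₀ (by positivity) hd0]
      nlinarith [pow_pos hx0 10]
    calc x ^ 189 / (800 * W) = 1 / x ^ 10 * (x ^ 200 / (4 * W * (200 * x))) := by
          field_simp
          ring
      _ ≤ _ := mul_le_mul h5 h4 (by positivity) (by positivity)
  refine h1.trans (le_trans ?_ h2)
  rw [le_div_iff₀ (by positivity)]
  have h6 : x ^ 1 ≤ x ^ 42 := pow_le_pow_right₀ hx1 (by norm_num)
  have h7 : 768000 * W ^ 3 ≤ x ^ 42 := by rw [pow_one] at h6; exact hxW.trans h6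
  calc 960 * W ^ 2 * x ^ 147 * (800 * W) = 768000 * W ^ 3 * x ^ 147 := by ring
    _ ≤ x ^ 42 * x ^ 147 := mul_le_mul_of_nonneg_right h7 (by positivity)
    _ = x ^ 189 := by ring

/-- **(F)** Upper bound for the number of neighbours of prime curvature in a class mod `d`. -/
theorem FamF (a₀ : ℕ) (ha : a₀.Prime) (ha5 : 5 ≤ a₀) (E : ℕ) (hE : E ≠ 0) (hE2 : Nat.Coprime E 2) :
    ∃ (A : ℕ) (C : ℝ), 0 < C ∧ ∃ w₀ : ℕ, ∀ w ≥ w₀, ∀ W, Wok w W → (∀ p : ℕ, p.Prime → p ∣ E → p * E ∣ W) →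
      ∃ T₀ : ℕ, ∀ T ≥ T₀, ∀ al : ℕ, Nat.Coprime al W →
      (∃ m₀ : ℕ, Nat.Coprime m₀ W ∧ al + a₀ ≡ 2 * E * m₀ [MOD 4 * W]) → ∀ (d : ℕ) (u : ℤ), Squarefree d → (∀ p : ℕ, p.Prime → p ∣ d → w < p) → (d : ℝ) ≤ (T : ℝ) ^ (1 / 20 : ℝ) →
          (({xi : ℤ × ℤ | ∃ q : ℕ, q ∈ Ioc T (2 * T) ∧ q.Prime ∧ q ≡ al [MOD 4 * W] ∧ nm xi = q + a₀ ∧
              (q : ℤ) ≡ u [ZMOD d]}).ncard : ℝ) ≤
            C * (Real.log w) ^ A * 4 ^ d.primeFactors.card / d * (T / ((4 * W).totient * Real.log T)) := by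
  obtain ⟨C₁, hC₁, H₁⟩ := ff_sieve
  obtain ⟨CW, hCW, HW⟩ := rr_W E hE hE2
  obtain ⟨CG, hCG, HG⟩ := prod_gg
  obtain ⟨CS, hCS, HS⟩ := prod_small
  refine ⟨2, 200 * (C₁ * CW * CS * CG) + 1, by positivity, max a₀ 3, ?_⟩
  intro w hw W hok hEW
  have hwa : a₀ ≤ w := (le_max_left _ _).trans hw
  have hw3 : 3 ≤ w := (le_max_right _ _).trans hw
  have hW0 : W ≠ 0 := by
    rintro rfl
    exact hok.2.2 (dvd_zero _)
  have hW1 : 1 ≤ W := Nat.one_le_iff_ne_zero.2 hW0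
  obtain ⟨n₀, hn₀⟩ : ∃ n₀ : ℕ, n₀ = w + 3 + 768000 * W ^ 3 := ⟨_, rfl⟩
  refine ⟨n₀ ^ 200 + a₀, ?_⟩
  intro T hT al _ hm₀ d u hd hdw hdT
  obtain ⟨m₀, hm1, hm2⟩ := hm₀
  have hd0 : d ≠ 0 := hd.ne_zero
  have hd1 : (1 : ℝ) ≤ d := by exact_mod_cast Nat.one_le_iff_ne_zero.2 hd0
  have hTa : a₀ ≤ T := (Nat.le_add_left _ _).trans hT
  -- the variable `x`
  obtain ⟨x, hxdef⟩ : ∃ x : ℝ, x = (T : ℝ) ^ (1 / 200 : ℝ) := ⟨_, rfl⟩
  have hT0 : (0 : ℝ) ≤ T := Nat.cast_nonneg _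
  have hx200 : x ^ 200 = (T : ℝ) := by
    rw [hxdef, ← Real.rpow_natCast, ← Real.rpow_mul hT0]
    norm_num
  have hx10 : (T : ℝ) ^ (1 / 20 : ℝ) = x ^ 10 := by
    rw [hxdef, ← Real.rpow_natCast, ← Real.rpow_mul hT0]
    norm_num
  have hx0 : 0 ≤ x := by rw [hxdef]; exact Real.rpow_nonneg hT0 _
  have hxn : (n₀ : ℝ) ≤ x := by
    have h1 : (n₀ : ℝ) ^ 200 ≤ x ^ 200 := by
      rw [hx200, ← Nat.cast_pow]
      exact Nat.cast_le.2 ((Nat.le_add_right _ _).trans hT)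
    exact le_of_pow_le_pow_left₀ (by norm_num) hx0 h1
  clear hT
  rw [hn₀] at hxn
  push_cast at hxn
  have hWR : (1 : ℝ) ≤ W := by exact_mod_cast hW1
  have hW3 : (0 : ℝ) ≤ (W : ℝ) ^ 3 := by positivity
  have hw3R : (3 : ℝ) ≤ w := by exact_mod_cast hw3
  have hxw : (w : ℝ) < x := by linarith
  have hx2 : 2 ≤ x := by linarith
  have hx1 : 1 ≤ x := by linarith
  have hxW : 768000 * (W : ℝ) ^ 3 ≤ x := by linarith
  have hTx : x ≤ T := by
    rw [← hx200]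
    calc x = x ^ 1 := (pow_one x).symm
      _ ≤ x ^ 200 := pow_le_pow_right₀ hx1 (by norm_num)
  -- coprimality
  have hcop : Nat.Coprime (4 * W) d := by
    by_contra hc
    obtain ⟨p, hp, h1, h2⟩ := Nat.Prime.not_coprime_iff_dvd.1 hc
    have h3 := hdw p hp h2
    rcases (Nat.Prime.dvd_mul hp).1 h1 with h4 | h4
    · have := (Nat.prime_dvd_prime_iff_eq hp Nat.prime_two).1 (hp.dvd_of_dvd_pow (show p ∣ 2 ^ 2 by norm_num; exact h4))
      omega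
    · have := (hok.1 p hp).1 h4
      omega
  obtain ⟨N, hN1, hN2, _⟩ := ff_set (4 * W) d (3 * T) hcop ((al : ℤ) + a₀) (u + a₀)
  -- the inclusion
  have hsub : {xi : ℤ × ℤ | ∃ q : ℕ, q ∈ Ioc T (2 * T) ∧ q.Prime ∧ q ≡ al [MOD 4 * W] ∧ nm xi = q + a₀ ∧
      (q : ℤ) ≡ u [ZMOD d]} ⊆
        ↑((DN (4 * W * d) N (3 * T)).filter (fun x' => ∀ p ∈ Pd w x d, ¬ (p : ℤ) ∣ nm x' - a₀)) := by
    rintro xi ⟨q, hq, hqp, hq1, hq2, hq3⟩
    rw [mem_coe, mem_filter, mem_DN]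
    rw [mem_Ioc] at hq
    refine ⟨⟨?_, ?_⟩, ?_⟩
    · rw [hq2]
      have : q + a₀ ≤ 3 * T := by omega
      exact_mod_cast this
    · push_cast
      have hc : IsCoprime ((4 * W : ℕ) : ℤ) (d : ℤ) := Nat.isCoprime_iff_coprime.2 hcop
      have h1 : ((4 * W : ℕ) : ℤ) ∣ nm xi - N := by
        have h2 : ((4 * W : ℕ) : ℤ) ∣ (q : ℤ) - al := by
          have h3 := (Int.natCast_modEq_iff.2 hq1).symm.dvd
          exact h3
        have := dvd_sub h2 hN1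
        rwa [show (q : ℤ) - al - (N - ((al : ℤ) + a₀)) = nm xi - N by rw [hq2]; ring] at this
      have h4 : (d : ℤ) ∣ nm xi - N := by
        have h2 : (d : ℤ) ∣ (q : ℤ) - u := hq3.symm.dvd
        have := dvd_sub h2 hN2
        rwa [show (q : ℤ) - u - (N - (u + a₀)) = nm xi - N by rw [hq2]; ring] at this
      have h5 := hc.mul_dvd h1 h4
      push_cast at h5
      exact h5
    · intro p hp hdvd
      rw [mem_Pd] at hp
      rw [hq2, add_sub_cancel_right] at hdvd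
      have h1 := (Nat.prime_dvd_prime_iff_eq hp.1.1 hqp).1 (Int.natCast_dvd_natCast.1 hdvd)
      have h2 : (T : ℝ) < q := by exact_mod_cast hq.1
      rw [← h1] at h2
      linarith [hp.1.2.2]
  have hcard : (({xi : ℤ × ℤ | ∃ q : ℕ, q ∈ Ioc T (2 * T) ∧ q.Prime ∧ q ≡ al [MOD 4 * W] ∧ nm xi = q + a₀ ∧
      (q : ℤ) ≡ u [ZMOD d]}).ncard : ℝ) ≤
        (((DN (4 * W * d) N (3 * T)).filter (fun x' => ∀ p ∈ Pd w x d, ¬ (p : ℤ) ∣ nm x' - a₀)).card : ℝ) := by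
    have h1 := Set.ncard_le_ncard hsub (finite_toSet _)
    rw [Set.ncard_coe_finset] at h1
    exact_mod_cast h1
  refine hcard.trans ?_
  have hQ1 : 1 ≤ 4 * W * d := Nat.mul_pos (by omega) (Nat.pos_of_ne_zero hd0)
  have hQp : ∀ p : ℕ, p.Prime → p ∣ 4 * W * d → p ≤ w ∨ p ∣ d := by
    intro p hp h1
    rcases (Nat.Prime.dvd_mul hp).1 h1 with h2 | h2
    · left
      rcases (Nat.Prime.dvd_mul hp).1 h2 with h4 | h4
      · have := (Nat.prime_dvd_prime_iff_eq hp Nat.prime_two).1 (hp.dvd_of_dvd_pow (show p ∣ 2 ^ 2 by norm_num; exact h4))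
        omega
      · exact (hok.1 p hp).1 h4
    · exact Or.inr h2
  refine (H₁ a₀ w (4 * W * d) d T x N (by omega) hwa hw3 hQ1 hQp hx2).trans ?_
  have hlogw : 1 ≤ Real.log w := by
    rw [Real.le_log_iff_exp_le (by linarith)]
    have := Real.exp_one_lt_d9
    linarith
  have hlogx : 0 < Real.log x := Real.log_pos (by linarith)
  have hlogT : Real.log T = 200 * Real.log x := by
    rw [← hx200, Real.log_pow]
    norm_num
  have htot : (0 : ℝ) < ((4 * W).totient : ℝ) := by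
    exact_mod_cast Nat.totient_pos.2 (by omega)
  have htot2 : ((4 * W).totient : ℝ) ≤ 4 * W := by
    have := Nat.totient_le (4 * W)
    exact_mod_cast this
  set ω := d.primeFactors.card with hω
  have h4ω : (1 : ℝ) ≤ 4 ^ ω := one_le_pow₀ (by norm_num)
  -- the main term
  have hmain : C₁ * (rr (4 * W * d) N * (T / ((4 * W * d : ℕ) : ℝ) ^ 2)) * ∏ p ∈ Pd w x d, (1 - gg p) ≤
      200 * (C₁ * CW * CS * CG) * (Real.log w) ^ 2 * 4 ^ ω / d * (T / ((4 * W).totient * Real.log T)) := by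
    have g1 : (rr (4 * W * d) N : ℝ) ≤ (CW * (4 * W : ℕ) * (CS * Real.log w)) * (2 ^ ω * d) := by
      rw [rr_mul _ _ hcop, Nat.cast_mul]
      refine mul_le_mul ?_ ?_ (Nat.cast_nonneg _) (by positivity)
      · refine (HW w W hok hEW N m₀ hm1 ?_).trans ?_
        · have h1 : (N : ℤ) ≡ (al : ℤ) + a₀ [ZMOD (4 * W : ℕ)] := by
            exact (Int.modEq_iff_dvd.2 hN1).symm
          refine h1.trans ?_
          have h2 := Int.natCast_modEq_iff.2 hm2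
          push_cast at h2 ⊢
          exact h2
        · exact mul_le_mul_of_nonneg_left (HS w (by omega)) (by positivity)
      · exact_mod_cast rr_sqf d hd N
    have g2 := HG w x d (by omega) hxw hd0
    have g3 : 0 ≤ ∏ p ∈ Pd w x d, (1 - gg p) := prod_nonneg fun p hp => by
      rw [mem_Pd] at hp
      have := (gg_bounds p hp.1.1 (by omega)).2.1
      linarith
    calc C₁ * (rr (4 * W * d) N * (T / ((4 * W * d : ℕ) : ℝ) ^ 2)) * ∏ p ∈ Pd w x d, (1 - gg p)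
        ≤ C₁ * (((CW * (4 * W : ℕ) * (CS * Real.log w)) * (2 ^ ω * d)) * (T / ((4 * W * d : ℕ) : ℝ) ^ 2)) *
          (CG * 2 ^ ω * (Real.log w / Real.log x)) := by
          refine mul_le_mul ?_ g2 g3 (by positivity)
          refine mul_le_mul_of_nonneg_left ?_ hC₁.le
          exact mul_le_mul_of_nonneg_right g1 (by positivity)
      _ = 200 * (C₁ * CW * CS * CG) * (Real.log w) ^ 2 * 4 ^ ω / d * (T / ((4 * W : ℕ) * Real.log T)) := by
          rw [hlogT, show (4 : ℝ) ^ ω = 2 ^ ω * 2 ^ ω by rw [← mul_pow]; norm_num]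
          push_cast
          have hWp : (0 : ℝ) < W := by linarith
          have hdp : (0 : ℝ) < d := by linarith
          field_simp
      _ ≤ 200 * (C₁ * CW * CS * CG) * (Real.log w) ^ 2 * 4 ^ ω / d * (T / ((4 * W).totient * Real.log T)) := by
          refine mul_le_mul_of_nonneg_left ?_ (by positivity)
          refine div_le_div_of_nonneg_left hT0 (by rw [hlogT]; positivity) ?_
          refine mul_le_mul_of_nonneg_right ?_ (by rw [hlogT]; positivity)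
          push_cast
          exact htot2
  -- the error term
  have herr : 20 * (((4 * W * d : ℕ) : ℝ) * x ^ 9) ^ 2 * (Real.sqrt (3 * T) + 1) * x ^ 9 ≤
      (Real.log w) ^ 2 * 4 ^ ω / d * (T / ((4 * W).totient * Real.log T)) := by
    have e1 : Real.sqrt (3 * T) + 1 ≤ 3 * x ^ 100 := by
      have e2 : Real.sqrt (3 * T) ≤ 2 * x ^ 100 := by
        rw [Real.sqrt_le_left (by positivity), ← hx200, mul_pow, ← pow_mul]
        have := pow_pos (show 0 < x by linarith) 200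
        norm_num
        linarith
      have e3 : 1 ≤ x ^ 100 := one_le_pow₀ hx1
      linarith
    have e4 := ff_num x W d ((Real.log w) ^ 2 * 4 ^ ω) (4 * W).totient (Real.log T) hx1 hWR hxW hd1 (hdT.trans hx10.le)
      htot htot2 (by rw [hlogT]; positivity) (by
        rw [hlogT]
        have := Real.log_le_sub_one_of_pos (show 0 < x by linarith)
        linarith) (one_le_mul_of_one_le_of_one_le (one_le_pow₀ hlogw) h4ω)
    rw [hx200] at e4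
    refine le_trans ?_ e4
    push_cast
    gcongr
  calc _ ≤ 200 * (C₁ * CW * CS * CG) * (Real.log w) ^ 2 * 4 ^ ω / d * (T / ((4 * W).totient * Real.log T)) +
        (Real.log w) ^ 2 * 4 ^ ω / d * (T / ((4 * W).totient * Real.log T)) := add_le_add hmain herr
    _ = _ := by ring

end Pool.Agent.W33f
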