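import Pool.Agent.W_d33b62f_h37.FD4
import Pool.Agent.W_d33b62f_h37.FamF
import Pool.Agent.W_d33b62f_h41.A3
import Pool.Agent.W_d33b62f_h41.B1
import Pool.Agent.W_d33b62f_h41.B2
import Pool.Agent.W_d33b62f_h41.B3

/-!
# MP_d33b62_nt, full question (helper41): T8, the family of circles (`FAM0`)
-/

set_option autoImplicit false

noncomputable section

open Finset

namespace Pool.Agent.W33f

theorem fam_log (A : ℕ) (c : ℝ) (hc : 0 < c) : ∃ w₁ : ℕ, ∀ w ≥ w₁, (Real.log w) ^ A ≤ c * w := by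
  have h1 := (Real.isLittleO_pow_log_id_atTop (n := A)).bound hc
  have h2 := tendsto_natCast_atTop_atTop.eventually h1
  obtain ⟨w₁, h3⟩ := h2.exists_forall_of_atTop
  refine ⟨w₁, fun w hw => ?_⟩
  have h4 := h3 w hw
  rw [Real.norm_eq_abs, Real.norm_eq_abs, id] at h4
  have h5 : |(w : ℝ)| = w := abs_of_nonneg (Nat.cast_nonneg w)
  rw [h5] at h4
  exact (le_abs_self _).trans h4

/-- The choice of `j₀`. -/
theorem fam_j0 (L : ℝ) (hL : 4 ≤ L) (B : ℕ) : ∃ j₀ : ℕ, 1 ≤ j₀ ∧ L ^ (B + 1) ≤ ((2 ^ j₀ : ℕ) : ℝ) ∧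
    ((2 ^ j₀ : ℕ) : ℝ) ≤ L ^ (B + 2) := by
  have h1 : 1 ≤ L ^ (B + 1) := one_le_pow₀ (by linarith)
  have h4 : 4 ≤ L ^ (B + 1) := by
    calc (4 : ℝ) ≤ L := hL
      _ = L ^ 1 := (pow_one L).symm
      _ ≤ L ^ (B + 1) := pow_le_pow_right₀ (by linarith) (by omega)
  have hn : 4 ≤ ⌈L ^ (B + 1)⌉₊ := by
    have : (4 : ℝ) ≤ (⌈L ^ (B + 1)⌉₊ : ℝ) := h4.trans (Nat.le_ceil _)
    exact_mod_cast this
  refine ⟨Nat.clog 2 ⌈L ^ (B + 1)⌉₊, ?_, ?_, ?_⟩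
  · exact Nat.clog_pos (by norm_num) (by omega)
  · refine (Nat.le_ceil _).trans ?_
    exact_mod_cast Nat.le_pow_clog (by norm_num) _
  · have h5 : 2 ^ (Nat.clog 2 ⌈L ^ (B + 1)⌉₊ - 1) < ⌈L ^ (B + 1)⌉₊ := Nat.pow_pred_clog_lt_self (by norm_num) (by omega)
    have h6 : 1 ≤ Nat.clog 2 ⌈L ^ (B + 1)⌉₊ := Nat.clog_pos (by norm_num) (by omega)
    have h7 : 2 ^ (Nat.clog 2 ⌈L ^ (B + 1)⌉₊) = 2 * 2 ^ (Nat.clog 2 ⌈L ^ (B + 1)⌉₊ - 1) := by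
      rw [← pow_succ', Nat.sub_add_cancel h6]
    have h8 : 2 ^ (Nat.clog 2 ⌈L ^ (B + 1)⌉₊) ≤ 2 * ⌈L ^ (B + 1)⌉₊ := by omega
    have h9 : ((2 ^ (Nat.clog 2 ⌈L ^ (B + 1)⌉₊) : ℕ) : ℝ) ≤ 2 * (⌈L ^ (B + 1)⌉₊ : ℝ) := by exact_mod_cast h8
    have h10 : (⌈L ^ (B + 1)⌉₊ : ℝ) ≤ L ^ (B + 1) + 1 := (Nat.ceil_lt_add_one (by linarith)).le
    have h11 : L ^ (B + 2) = L * L ^ (B + 1) := by rw [pow_succ' L (B + 1)]
    rw [h11]
    nlinarith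

/-- **T8**, from `FamD` and `FamF`. -/
theorem FAM0 (a₀ : ℕ) (ha : a₀.Prime) (ha5 : 5 ≤ a₀) (v₀ : ℤ × ℤ) (hv : ¬ (a₀ : ℤ) ∣ nm v₀) (zz : ℕ) :
    ∃ E : ℕ, E ≠ 0 ∧ Nat.Coprime E (2 * a₀) ∧ (∀ p : ℕ, p.Prime → p ∣ E → p % 4 = 1 ∧ zz < p) ∧
      ∀ (k : ℕ) (C η : ℝ), 0 < C → 0 < η → ∃ w₀ : ℕ, ∀ w ≥ w₀, ∀ W, Wok w W → (∀ p : ℕ, p.Prime → p ∣ E → p * E ∣ W) →
        ∀ (C₂ : ℝ) (B : ℕ), ∃ B' Y₀ : ℕ, ∀ Y ≥ Y₀, ∀ D : Dat k, D.w = w → D.W = W → D.ok → D.a0 = a₀ →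
          (∃ m₀ : ℕ, Nat.Coprime m₀ W ∧ D.al + a₀ ≡ 2 * E * m₀ [MOD 4 * W]) →
          (∃ s : ℤ, D.al * nm v₀ ≡ s ^ 2 [ZMOD a₀]) →
          ∃ J : Finset (ℤ × ℤ), (∀ xi ∈ J, D.Fam Y B B' C η xi ∧ (a₀ : ℤ) ∣ v₀.1 * xi.2 - v₀.2 * xi.1) ∧
            C₂ ≤ ∑ xi ∈ J, mu W (D.a xi) ∧
            (∑ xi ∈ J, ∑ xi' ∈ J, (if D.a xi = D.a xi' then 0 else
              mu W (D.a xi) * mu W (D.a xi') * EE C w ((D.a xi : ℤ) - D.a xi'))) ≤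
                (1 + η) * (∑ xi ∈ J, mu W (D.a xi)) ^ 2 := by
  obtain ⟨E, AD, cD, hE0, hE1, hE2, hcD, w₀D, HD⟩ := FamD a₀ ha ha5 v₀ hv zz
  obtain ⟨AF, CF, hCF, w₀F, HF⟩ := FamF a₀ ha ha5 E hE0 (Nat.Coprime.coprime_dvd_right (Dvd.intro _ rfl) hE1)
  refine ⟨E, hE0, hE1, hE2, ?_⟩
  intro k C η hC hη
  obtain ⟨w₁, hw₁⟩ := fam_log (AF + AD) (cD * η / (128 * C * CF * (k + 1))) (by positivity)
  refine ⟨w₀D + w₀F + w₁ + ⌈4 * C⌉₊ + 3, ?_⟩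
  intro w hw W hok hEW C₂ B
  have hw3 : 3 ≤ w := by omega
  have hwR : (3 : ℝ) ≤ w := by exact_mod_cast hw3
  have hwC : 4 * C ≤ w := by
    refine (Nat.le_ceil _).trans ?_
    exact_mod_cast (by omega : ⌈4 * C⌉₊ ≤ w)
  have hlw : 0 < Real.log w := Real.log_pos (by linarith)
  have hW0 : W ≠ 0 := by
    rintro rfl
    exact hok.2.2 (dvd_zero _)
  have hW1 : 1 ≤ W := Nat.one_le_iff_ne_zero.2 hW0
  have hWR : (1 : ℝ) ≤ W := by exact_mod_cast hW1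
  have htot : (0 : ℝ) < ((4 * W).totient : ℝ) := by
    exact_mod_cast Nat.totient_pos.2 (by omega)
  obtain ⟨TD, HD1⟩ := HD w (by omega) W hok hEW
  obtain ⟨TF, HF1⟩ := HF w (by omega) W hok hEW
  -- the constants
  obtain ⟨κ, hκ⟩ : ∃ κ : ℝ, κ = cD / (Real.log w) ^ AD := ⟨_, rfl⟩
  obtain ⟨K, hK⟩ : ∃ K : ℝ, K = CF * (Real.log w) ^ AF := ⟨_, rfl⟩
  have hκ0 : 0 < κ := by rw [hκ]; positivity
  have hK0 : 0 < K := by rw [hK]; positivity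
  obtain ⟨ε, hε⟩ : ∃ ε : ℝ, ε = κ * η / (8 * (k + 1) * K) := ⟨_, rfl⟩
  have hε0 : 0 < ε := by rw [hε]; positivity
  obtain ⟨δ, hδ⟩ : ∃ δ : ℝ, δ = (ε + 16 * C / w) * K := ⟨_, rfl⟩
  have hδ1 : δ ≤ κ * η / (4 * (k + 1)) := by
    have h1 : ε * K = κ * η / (8 * (k + 1)) := by
      rw [hε]
      field_simp
    have h2 : 16 * C / w * K ≤ κ * η / (8 * (k + 1)) := by
      have h3 := hw₁ w (by omega)
      rw [hK, hκ, div_mul_eq_mul_div, div_mul_eq_mul_div, div_div, div_le_div_iff₀ (by linarith) (by positivity)]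
      have h4 : (Real.log w) ^ (AF + AD) * (128 * C * CF * (k + 1)) ≤ cD * η * w := by
        calc (Real.log w) ^ (AF + AD) * (128 * C * CF * (k + 1))
            ≤ cD * η / (128 * C * CF * (k + 1)) * w * (128 * C * CF * (k + 1)) :=
              mul_le_mul_of_nonneg_right h3 (by positivity)
          _ = cD * η * w := by field_simp
      calc 16 * C * (CF * (Real.log w) ^ AF) * ((Real.log w) ^ AD * (8 * (k + 1)))
          = (Real.log w) ^ (AF + AD) * (128 * C * CF * (k + 1)) := by rw [pow_add]; ring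
        _ ≤ cD * η * w := h4
    rw [hδ, add_mul, h1]
    calc κ * η / (8 * (k + 1)) + 16 * C / w * K ≤ κ * η / (8 * (k + 1)) + κ * η / (8 * (k + 1)) := by linarith
      _ = κ * η / (4 * (k + 1)) := by field_simp; norm_num
  have hδ2 : ((k : ℝ) + 1) * δ ≤ κ / 2 * η := by
    calc ((k : ℝ) + 1) * δ ≤ ((k : ℝ) + 1) * (κ * η / (4 * (k + 1))) := mul_le_mul_of_nonneg_left hδ1 (by positivity)
      _ = κ * η / 4 := by field_simp
      _ ≤ κ / 2 * η := by nlinarith [mul_pos hκ0 hη]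
  have hδ3 : δ ≤ κ * η / 4 := by
    refine hδ1.trans ?_
    refine div_le_div_of_nonneg_left (by positivity) (by norm_num) ?_
    have : (0 : ℝ) ≤ k := Nat.cast_nonneg k
    linarith
  obtain ⟨κ₁, hκ₁⟩ : ∃ κ₁ : ℝ, κ₁ = κ / 2 * (Real.pi / (4 * W * (4 * W).totient * Real.log 2)) := ⟨_, rfl⟩
  have hl2 : 0 < Real.log 2 := Real.log_pos (by norm_num)
  have hκ₁0 : 0 < κ₁ := by
    rw [hκ₁]
    have := Real.pi_pos
    positivity
  obtain ⟨M, hM⟩ : ∃ M : ℕ, M = ⌈Real.exp (C₂ / κ₁)⌉₊ := ⟨_, rfl⟩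
  have hM1 : 1 ≤ M := by
    rw [hM]
    exact Nat.one_le_ceil_iff.2 (Real.exp_pos _)
  have hMlog : C₂ ≤ κ₁ * Real.log M := by
    have h1 : C₂ / κ₁ ≤ Real.log M := by
      rw [Real.le_log_iff_exp_le (by exact_mod_cast hM1), hM]
      exact Nat.le_ceil _
    rw [div_le_iff₀ hκ₁0] at h1
    linarith
  obtain ⟨TA, HA⟩ := avg C ε hC hε0 M
  refine ⟨(B + 2) * M, ⌈Real.exp ((TD + TF + TA + 10 ^ 6 + a₀ + 4 : ℕ) : ℝ)⌉₊, ?_⟩
  intro Y hY D hDw hDW hDok hDa hm₀ hs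
  obtain ⟨L, hLdef⟩ : ∃ L : ℝ, L = Real.log Y := ⟨_, rfl⟩
  have hL : ((TD + TF + TA + 10 ^ 6 + a₀ + 4 : ℕ) : ℝ) ≤ L := by
    rw [hLdef, Real.le_log_iff_exp_le]
    · exact (Nat.le_ceil _).trans (by exact_mod_cast hY)
    · have h1 : 0 < Y := lt_of_lt_of_le (Nat.ceil_pos.2 (Real.exp_pos _)) hY
      exact_mod_cast h1
  have hL4 : 4 ≤ L := by
    refine le_trans ?_ hL
    exact_mod_cast (by omega : 4 ≤ TD + TF + TA + 10 ^ 6 + a₀ + 4)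
  obtain ⟨j₀, hj1, hj2, hj3⟩ := fam_j0 L hL4 B
  have hjT : TD + TF + TA + 10 ^ 6 + a₀ + 4 ≤ 2 ^ j₀ := by
    have h1 : L ≤ L ^ (B + 1) := by
      calc L = L ^ 1 := (pow_one L).symm
        _ ≤ L ^ (B + 1) := pow_le_pow_right₀ (by linarith) (by omega)
    exact_mod_cast (hL.trans h1).trans hj2
  have hjj : ∀ j ∈ Ico j₀ (M * j₀), TD + TF + TA + 10 ^ 6 + a₀ + 4 ≤ 2 ^ j := by
    intro j hj
    rw [mem_Ico] at hj
    exact hjT.trans (Nat.pow_le_pow_right (by norm_num) hj.1)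
  subst hDw hDW hDa
  -- the averages
  have hav : ∀ j ∈ Ico j₀ (M * j₀), ∀ u : ℤ, |(u : ℝ)| ≤ (((2 ^ j : ℕ) : ℝ)) ^ M →
      ∑ xi ∈ SF D.a0 D.W D.al (2 ^ j), (if nm xi - D.a0 = u then 0 else EE C D.w (nm xi - D.a0 - u) - 1) ≤
        δ * ZZ D.W j := by
    intro j hj u hu
    have h1 := hjj j hj
    have hZ0 : 0 ≤ ZZ D.W j := by
      unfold ZZ
      have : 0 ≤ Real.log ((2 ^ j : ℕ) : ℝ) := Real.log_natCast_nonneg _
      positivity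
    have h2 := HA (2 ^ j) (by omega) D.a0 D.W D.al D.w K (ZZ D.W j) hK0.le hZ0 (by omega) hwC (by
      intro d u' hd hdw hdT
      have h3 := HF1 (2 ^ j) (by omega) D.al hDok.hal hm₀ d u' hd hdw hdT
      rw [hK]
      exact h3) u hu
    rw [hδ]
    exact h2
  -- the blocks
  have hB : ∀ j ∈ Ico j₀ (M * j₀), κ / 2 * ZZ D.W j ≤ ((GB D v₀ C η (2 ^ j)).card : ℝ) := by
    intro j hj
    have h1 := hjj j hj
    have hZ0 : 0 ≤ ZZ D.W j := by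
      unfold ZZ
      have : 0 ≤ Real.log ((2 ^ j : ℕ) : ℝ) := Real.log_natCast_nonneg _
      positivity
    refine block D hDok v₀ C η δ κ (ZZ D.W j) (2 ^ j) hC hη hZ0 hδ2 (by omega) ?_ ?_
    · have h3 := HD1 (2 ^ j) (by omega) D.al hDok.hal hm₀ hDok.hal2 hs
      rw [hκ]
      exact h3
    · intro u hu
      refine hav j hj u (hu.trans ?_)
      have h4 : (1 : ℝ) ≤ ((2 ^ j : ℕ) : ℝ) := by exact_mod_cast Nat.one_le_two_pow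
      calc ((2 ^ j : ℕ) : ℝ) = ((2 ^ j : ℕ) : ℝ) ^ 1 := (pow_one _).symm
        _ ≤ ((2 ^ j : ℕ) : ℝ) ^ M := pow_le_pow_right₀ h4 hM1
  have hmu := JJ_mu D v₀ C η (κ / 2) j₀ M hj1 hW1 hB
  have hharm := harm j₀ M hj1 hM1
  have hH0 : 0 ≤ ∑ j ∈ Ico j₀ (M * j₀), (1 / (j : ℝ)) := sum_nonneg fun j _ => by positivity
  rw [← hκ₁] at hmu
  refine ⟨JJ D v₀ C η j₀ M, ?_, ?_, ?_⟩
  · intro xi hxi
    unfold JJ at hxi
    rw [mem_biUnion] at hxi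
    obtain ⟨j, hj, hxi⟩ := hxi
    rw [mem_GB] at hxi
    obtain ⟨⟨q, hq, hqp, hq1, hq2⟩, hg, hdv, hg0, hgl⟩ := hxi
    have haq : D.a xi = q := a_eq hq2
    rw [mem_Ico] at hj
    rw [mem_Ioc] at hq
    refine ⟨⟨hg, ?_, ?_, ?_, ?_, ?_, ?_, ?_⟩, hdv⟩
    · rw [haq]; exact hqp
    · rw [haq]; exact hq2
    · rw [haq]; exact hq1
    · rw [haq, ← hLdef]
      have h1 : L ^ B ≤ L ^ (B + 1) := pow_le_pow_right₀ (by linarith) (by omega)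
      refine (h1.trans hj2).trans ?_
      exact_mod_cast (Nat.pow_le_pow_right (by norm_num) hj.1).trans hq.1.le
    · rw [haq, ← hLdef]
      have h1 : q ≤ 2 ^ (M * j₀) := by
        refine hq.2.trans ?_
        rw [← pow_succ']
        exact Nat.pow_le_pow_right (by norm_num) hj.2
      have h2 : ((2 ^ (M * j₀) : ℕ) : ℝ) ≤ L ^ ((B + 2) * M) := by
        rw [mul_comm M j₀, pow_mul, pow_mul, Nat.cast_pow]
        exact pow_le_pow_left₀ (Nat.cast_nonneg _) hj3 M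
      exact (Nat.cast_le.2 h1).trans h2
    · rw [haq]
      rw [hq2] at hg0
      exact hg0
    · intro l
      have := hgl l
      rw [hq2, add_sub_cancel_right] at this
      rw [haq]
      exact this
  · calc C₂ ≤ κ₁ * Real.log M := hMlog
      _ ≤ κ₁ * ∑ j ∈ Ico j₀ (M * j₀), (1 / (j : ℝ)) := mul_le_mul_of_nonneg_left hharm hκ₁0.le
      _ ≤ _ := hmu
  · have hp := JJ_pair D v₀ C η δ j₀ M hj1 hC hW1 (by
      intro j hj u hu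
      refine hav j hj u (hu.trans ?_)
      rw [mem_Ico] at hj
      rw [Nat.cast_pow, ← pow_mul, mul_comm M j₀]
      push_cast
      exact pow_le_pow_right₀ (by norm_num) (Nat.mul_le_mul_right M hj.1))
    refine hp.trans ?_
    have hS0 : 0 ≤ ∑ xi ∈ JJ D v₀ C η j₀ M, mu D.W (D.a xi) := sum_nonneg fun xi _ => by
      unfold mu
      have := Real.pi_pos
      positivity
    have h1 : δ * (Real.pi / (2 * D.W * (4 * D.W).totient * Real.log 2)) * ∑ j ∈ Ico j₀ (M * j₀), (1 / (j : ℝ)) ≤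
        η * ∑ xi ∈ JJ D v₀ C η j₀ M, mu D.W (D.a xi) := by
      have h2 : δ * (Real.pi / (2 * D.W * (4 * D.W).totient * Real.log 2)) ≤ η * κ₁ := by
        rw [hκ₁]
        have hpi := Real.pi_pos
        calc δ * (Real.pi / (2 * D.W * (4 * D.W).totient * Real.log 2))
            ≤ κ * η / 4 * (Real.pi / (2 * D.W * (4 * D.W).totient * Real.log 2)) :=
              mul_le_mul_of_nonneg_right hδ3 (by positivity)
          _ = η * (κ / 2 * (Real.pi / (4 * D.W * (4 * D.W).totient * Real.log 2))) := by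
              have hWp : (0 : ℝ) < D.W := by linarith
              field_simp
      calc δ * (Real.pi / (2 * D.W * (4 * D.W).totient * Real.log 2)) * ∑ j ∈ Ico j₀ (M * j₀), (1 / (j : ℝ))
          ≤ η * κ₁ * ∑ j ∈ Ico j₀ (M * j₀), (1 / (j : ℝ)) := mul_le_mul_of_nonneg_right h2 hH0
        _ = η * (κ₁ * ∑ j ∈ Ico j₀ (M * j₀), (1 / (j : ℝ))) := by ring
        _ ≤ _ := mul_le_mul_of_nonneg_left hmu hη.le
    calc _ ≤ (∑ xi ∈ JJ D v₀ C η j₀ M, mu D.W (D.a xi)) ^ 2 + (∑ xi ∈ JJ D v₀ C η j₀ M, mu D.W (D.a xi)) *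
          (η * ∑ xi ∈ JJ D v₀ C η j₀ M, mu D.W (D.a xi)) := add_le_add le_rfl (mul_le_mul_of_nonneg_left h1 hS0)
      _ = _ := by ring

end Pool.Agent.W33f
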