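import Pool.Agent.W_d33b62f_h37.Main

/-!
# MP_d33b62_nt, full question (helper20): infinitely many pairs
-/

set_option autoImplicit false

noncomputable section

open Finset Pool.Agent.Wd33b62

namespace Pool.Agent.W33f

/-- The elements of `S(K)` are primes. -/
theorem curvs_prime {v : Fin 4 → GC} {C : GC} (hC : OddPrimeCurv C) {p : ℕ} (hp : p ∈ curvs v C) : p.Prime := by
  obtain ⟨c, hc, hk⟩ := hp
  have h : OddPrimeCurv c := by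
    rcases Relation.ReflTransGen.cases_tail hc with h | ⟨b, _, _, h, _⟩
    · rw [h]
      exact hC
    · exact h
  obtain ⟨q, hq, _, hq2⟩ := h
  rw [hk] at hq2
  have : p = q := by exact_mod_cast hq2
  rwa [this]

/-- **Q1** of MP_d33b62_nt. -/
theorem pairs_infinite (v : Fin 4 → GC) (h1 : IsDescartes v) (h2 : IsIntegral v) (h3 : IsPrimitive v) (C : GC)
    (hC : C ∈ packing v) (hC2 : OddPrimeCurv C) :
    {x : ℕ × ℕ | x.1.Prime ∧ x.2.Prime ∧ x.1 ∈ curvs v C ∧ x.2 ∈ curvs v C ∧ x.1 < x.2 ∧ x.2 ≤ x.1 + 10 ^ 6}.Infinite := by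
  intro hfin
  obtain ⟨N, hN⟩ : ∃ N : ℕ, ∀ x ∈ {x : ℕ × ℕ | x.1.Prime ∧ x.2.Prime ∧ x.1 ∈ curvs v C ∧ x.2 ∈ curvs v C ∧
      x.1 < x.2 ∧ x.2 ≤ x.1 + 10 ^ 6}, x.1 ≤ N := by
    obtain ⟨N, hN⟩ := (hfin.image Prod.fst).bddAbove
    exact ⟨N, fun x hx => hN ⟨x, hx, rfl⟩⟩
  obtain ⟨p, hp, q, hq, hNp, hpq, hqp⟩ := mainQ1 v h1 h2 h3 C hC hC2 (N + 1)
  have := hN (p, q) ⟨curvs_prime hC2 hp, curvs_prime hC2 hq, hp, hq, hpq, hqp⟩
  dsimp only at this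
  omega

end Pool.Agent.W33f
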