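import Pool.Agent.W_d33b62_h49.GaussD
import Pool.Agent.W_d33b62f_h37.Df

/-!
# MP_d33b62_nt, full question: the lattice of the neighbours of a circle of prime curvature (T9, arithmetic part)
-/

set_option autoImplicit false

namespace Pool.Agent.W33f

open Pool.Agent.Wd33b62g

/-- The case of `A` prime to `a`, with all data. -/
theorem GeA_aux (a : ℕ) (ha : a.Prime) (ha2 : a ≠ 2) (A B E : ℤ) (hA : 0 < A)
    (hdet : A * E - B ^ 2 = (a : ℤ) ^ 2) (hn : ¬ (a : ℤ) ∣ A) :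
    ∃ x₁ x₂ : ℤ × ℤ, nm x₁ = A ∧ nm x₂ = E ∧ x₁.1 * x₂.1 + x₁.2 * x₂.2 = B ∧
      x₁.1 * x₂.2 - x₁.2 * x₂.1 = a ∧ ¬ (a : ℤ) ∣ nm x₁ ∧
      ∀ ξ : ℤ × ℤ, (a : ℤ) ∣ x₁.1 * ξ.2 - x₁.2 * ξ.1 →
        ∃ x y : ℤ, ξ = (x * x₁.1 + y * x₂.1, x * x₁.2 + y * x₂.2) := by
  have hap : Prime (a : ℤ) := Nat.prime_iff_prime_int.1 ha
  have hodd : ¬ (2 : ℤ) ∣ (a : ℤ) := by
    intro h
    have h1 : 2 ∣ a := by exact_mod_cast h
    exact ha2 ((Nat.prime_dvd_prime_iff_eq Nat.prime_two ha).1 h1).symm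
  have hcop : IsCoprime A (a : ℤ) := ((Prime.coprime_iff_not_dvd hap).2 hn).symm
  obtain ⟨α, β, hα, hβ, hαβ, hp⟩ := gaussA_rep A B E a hA hdet hcop (gaussD_not_both_even hdet hodd)
  have hre : α.re * β.re + α.im * β.im = B := by
    have := congrArg Zsqrtd.re hαβ
    simp at this
    linarith
  have him : α.re * β.im - α.im * β.re = a := by
    have := congrArg Zsqrtd.im hαβ
    simp at this
    linarith
  rw [gaussA_norm] at hα hβ
  refine ⟨(α.re, α.im), (β.re, β.im), hα, hβ, hre, him, ?_, ?_⟩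
  · have h1 : nm (α.re, α.im) = A := hα
    rw [h1]
    exact hn
  · rintro ⟨z1, z2⟩ ⟨y, hy⟩
    simp only at hy
    obtain ⟨u, v, huv⟩ := hp
    have h0 : α.re * (z2 - y * β.im) = α.im * (z1 - y * β.re) := by
      linear_combination hy - y * him
    refine ⟨u * (z1 - y * β.re) + v * (z2 - y * β.im), y, ?_⟩
    ext
    · simp only
      linear_combination (-(z1 - y * β.re)) * huv - v * h0
    · simp only
      linear_combination (-(z2 - y * β.im)) * huv + u * h0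

/-- **The lattice of the neighbours.** -/
theorem GeA (a : ℕ) (ha : a.Prime) (ha2 : a ≠ 2) (A B E : ℤ) (hA : 0 < A)
    (hdet : A * E - B ^ 2 = (a : ℤ) ^ 2) (hn : ¬ ((a : ℤ) ∣ A ∧ (a : ℤ) ∣ B ∧ (a : ℤ) ∣ E)) :
    ∃ x₁ x₂ v₀ : ℤ × ℤ, nm x₁ = A ∧ nm x₂ = E ∧ x₁.1 * x₂.1 + x₁.2 * x₂.2 = B ∧
      x₁.1 * x₂.2 - x₁.2 * x₂.1 = a ∧ ¬ (a : ℤ) ∣ nm v₀ ∧
      ∀ ξ : ℤ × ℤ, (a : ℤ) ∣ v₀.1 * ξ.2 - v₀.2 * ξ.1 →
        ∃ x y : ℤ, ξ = (x * x₁.1 + y * x₂.1, x * x₁.2 + y * x₂.2) := by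
  have hap : Prime (a : ℤ) := Nat.prime_iff_prime_int.1 ha
  by_cases h : (a : ℤ) ∣ A
  · have hB : (a : ℤ) ∣ B := by
      refine hap.dvd_of_dvd_pow (n := 2) ?_
      have h1 : B ^ 2 = A * E - (a : ℤ) ^ 2 := by linarith
      rw [h1]
      exact dvd_sub (h.mul_right E) (dvd_pow_self _ two_ne_zero)
    have hE : ¬ (a : ℤ) ∣ E := fun hE => hn ⟨h, hB, hE⟩
    have hE0 : 0 < E := by
      have h1 : 0 < A * E := by
        have h2 : 0 < (a : ℤ) ^ 2 := by have := ha.pos; positivity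
        nlinarith [sq_nonneg B]
      exact (mul_pos_iff_of_pos_left hA).1 h1
    obtain ⟨α, β, h1, h2, h3, h4, h5, h6⟩ := GeA_aux a ha ha2 E B A hE0 (by linarith) hE
    refine ⟨(β.1, -β.2), (α.1, -α.2), (α.1, -α.2), ?_, ?_, ?_, ?_, ?_, ?_⟩
    · rw [← h2]; simp only [nm]; ring
    · rw [← h1]; simp only [nm]; ring
    · simp only; linarith
    · simp only; linarith
    · have e : nm (α.1, -α.2) = nm α := by simp only [nm]; ring
      rw [e]; exact h5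
    · rintro ⟨z1, z2⟩ hz
      simp only at hz
      obtain ⟨x, y, hxy⟩ := h6 (z1, -z2) (by
        simp only
        have e : α.1 * -z2 - α.2 * z1 = -(α.1 * z2 - -α.2 * z1) := by ring
        rw [e]
        exact (dvd_neg).2 hz)
      have e1 := congrArg Prod.fst hxy
      have e2 := congrArg Prod.snd hxy
      simp only at e1 e2
      refine ⟨y, x, ?_⟩
      ext
      · simp only; linarith
      · simp only; linarith
  · obtain ⟨α, β, h1, h2, h3, h4, h5, h6⟩ := GeA_aux a ha ha2 A B E hA hdet h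
    exact ⟨α, β, α, h1, h2, h3, h4, h5, h6⟩

end Pool.Agent.W33f
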