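import Pool.Agent.W_d33b62_h49.IntForm

/-!
# Neighbours of neighbours of a circle (helper9, MP_d33b62_nt, T9)
-/

set_option autoImplicit false

namespace Pool.Agent.Wd33b62g

/-- A vector parallel to a primitive vector is an integral multiple. -/
theorem geC_par {a b s t : ℤ} (h : IsCoprime a b) (hst : a * t = b * s) : ∃ k : ℤ, s = k * a ∧ t = k * b := by
  obtain ⟨u, v, huv⟩ := h
  refine ⟨u * s + v * t, ?_, ?_⟩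
  · linear_combination (-s) * huv - v * hst
  · linear_combination (-t) * huv + u * hst

/-- The second step. -/
theorem geC_ze {D₀ : Fin 4 → Circ} (h₀ : IsDescartes D₀) {D : Fin 4 → Circ} (hg : Gen D₀ D)
    (σ : Equiv.Perm (Fin 4)) (a p1 p2 r1 r2 : ℤ) (h0 : (D (σ 0)).curv = a)
    (h1 : (D (σ 1)).curv = ((p1 ^ 2 + p2 ^ 2 - a : ℤ) : ℝ)) (h2 : (D (σ 2)).curv = ((r1 ^ 2 + r2 ^ 2 - a : ℤ) : ℝ))
    (h3 : (D (σ 3)).curv = (((p1 + r1) ^ 2 + (p2 + r2) ^ 2 - a : ℤ) : ℝ)) (hp : IsCoprime p1 p2)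
    (z1 z2 : ℤ) (hz : IsCoprime z1 z2) (hd : (p1 ^ 2 + p2 ^ 2 - a) ∣ p1 * z2 - p2 * z1) :
    ∃ C2, Nbr D₀ (D (σ 1)) C2 ∧ C2.curv = ((z1 ^ 2 + z2 ^ 2 - (p1 ^ 2 + p2 ^ 2 - a) : ℤ) : ℝ) := by
  have hdes := hg.isDescartes h₀
  have ht := hdes.tan4
  have hrel := (lor_rel _ (ht.comp σ)).1
  simp only [Fin.sum_univ_four] at hrel
  rw [h0, h1, h2, h3] at hrel
  have hrelZ : (a + (p1 ^ 2 + p2 ^ 2 - a) + (r1 ^ 2 + r2 ^ 2 - a) + ((p1 + r1) ^ 2 + (p2 + r2) ^ 2 - a)) ^ 2 =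
      2 * (a ^ 2 + (p1 ^ 2 + p2 ^ 2 - a) ^ 2 + (r1 ^ 2 + r2 ^ 2 - a) ^ 2 +
        ((p1 + r1) ^ 2 + (p2 + r2) ^ 2 - a) ^ 2) := by
    exact_mod_cast hrel
  have hcr : (p1 * r2 - p2 * r1) ^ 2 = a ^ 2 := by
    nlinarith [hrelZ]
  obtain ⟨e, he, hea⟩ : ∃ e : ℤ, e * e = 1 ∧ p1 * r2 - p2 * r1 = e * a := by
    rcases sq_eq_sq_iff_eq_or_eq_neg.1 hcr with h | h
    · exact ⟨1, by norm_num, by rw [h]; ring⟩
    · exact ⟨-1, by norm_num, by rw [h]; ring⟩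
  obtain ⟨k, hk⟩ := hd
  -- `b = e i p - r`
  obtain ⟨x, hx1, hx2⟩ : ∃ x : ℤ, z1 - (e * k) * (-(e * p2) - r1) = x * p1 ∧
      z2 - (e * k) * (e * p1 - r2) = x * p2 := by
    apply geC_par hp
    have : p1 * (z2 - (e * k) * (e * p1 - r2)) - p2 * (z1 - (e * k) * (-(e * p2) - r1)) =
        (p1 * z2 - p2 * z1) - e * e * k * (p1 ^ 2 + p2 ^ 2) + e * k * (p1 * r2 - p2 * r1) := by ring
    have h5 : (p1 * z2 - p2 * z1) - e * e * k * (p1 ^ 2 + p2 ^ 2) + e * k * (p1 * r2 - p2 * r1) = 0 := by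
      rw [hk, hea]
      linear_combination (-(k * (p1 ^ 2 + p2 ^ 2)) + k * a) * he
    linarith
  have hxy : IsCoprime x (e * k) := by
    obtain ⟨u, v, huv⟩ := hz
    refine ⟨u * p1 + v * p2, u * (-(e * p2) - r1) + v * (e * p1 - r2), ?_⟩
    rw [← huv]
    linear_combination (-u) * hx1 - v * hx2
  obtain ⟨C2, hN, hc⟩ := tangents_curv h₀ hg ((Equiv.swap 0 1).trans σ) x (e * k) hxy
  have e0 : ((Equiv.swap (0 : Fin 4) 1).trans σ) 0 = σ 1 := by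
    rw [Equiv.trans_apply, Equiv.swap_apply_left]
  have e1 : ((Equiv.swap (0 : Fin 4) 1).trans σ) 1 = σ 0 := by
    rw [Equiv.trans_apply, Equiv.swap_apply_right]
  have e2 : ((Equiv.swap (0 : Fin 4) 1).trans σ) 2 = σ 2 := by
    rw [Equiv.trans_apply, Equiv.swap_apply_of_ne_of_ne (by decide) (by decide)]
  have e3 : ((Equiv.swap (0 : Fin 4) 1).trans σ) 3 = σ 3 := by
    rw [Equiv.trans_apply, Equiv.swap_apply_of_ne_of_ne (by decide) (by decide)]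
  rw [e0] at hN
  refine ⟨C2, hN, ?_⟩
  rw [hc, e0, e1, e2, e3, h0, h1, h2, h3]
  unfold qv
  have hzz1 : z1 = x * p1 + (e * k) * (-(e * p2) - r1) := by linarith
  have hzz2 : z2 = x * p2 + (e * k) * (e * p1 - r2) := by linarith
  have key : 2 * (z1 ^ 2 + z2 ^ 2) = 2 * ((p1 ^ 2 + p2 ^ 2) * x ^ 2 + (-2 * (p1 * r1 + p2 * r2)) * x * (e * k) +
      (p1 ^ 2 + p2 ^ 2 - a + (r1 ^ 2 + r2 ^ 2 - a)) * (e * k) ^ 2) := by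
    rw [hzz1, hzz2]
    have h7 : (-(e * p2) - r1) ^ 2 + (e * p1 - r2) ^ 2 = p1 ^ 2 + p2 ^ 2 - a + (r1 ^ 2 + r2 ^ 2 - a) := by
      linear_combination (p1 ^ 2 + p2 ^ 2 - 2 * a) * he - 2 * e * hea
    linear_combination (2 * (e * k) ^ 2) * h7
  have key2 : (2 * (z1 ^ 2 + z2 ^ 2) : ℝ) = 2 * ((p1 ^ 2 + p2 ^ 2) * x ^ 2 + (-2 * (p1 * r1 + p2 * r2)) * x * (e * k) +
      (p1 ^ 2 + p2 ^ 2 - a + (r1 ^ 2 + r2 ^ 2 - a)) * (e * k) ^ 2) := by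
    exact_mod_cast key
  push_cast
  linear_combination (-1 / 2) * key2

/-- **Neighbours of neighbours.** -/
theorem geC_main {D₀ : Fin 4 → Circ} (h₀ : IsDescartes D₀) {D : Fin 4 → Circ} (hg : Gen D₀ D)
    (σ : Equiv.Perm (Fin 4)) (a A B E : ℤ) (h0 : (D (σ 0)).curv = a)
    (h1 : (D (σ 1)).curv = ((A - a : ℤ) : ℝ)) (h2 : (D (σ 2)).curv = ((E - a : ℤ) : ℝ))
    (h3 : (D (σ 3)).curv = ((A + E - 2 * B - a : ℤ) : ℝ)) (x1 x2 : ℤ × ℤ) (hx1 : x1.1 ^ 2 + x1.2 ^ 2 = A)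
    (hx2 : x2.1 ^ 2 + x2.2 ^ 2 = E) (hx : x1.1 * x2.1 + x1.2 * x2.2 = B) (p1 p2 : ℤ) (hp : IsCoprime p1 p2)
    (x y : ℤ) (hp1 : p1 = x * x1.1 + y * x2.1) (hp2 : p2 = x * x1.2 + y * x2.2) :
    ∃ C1, Nbr D₀ (D (σ 0)) C1 ∧ C1.curv = ((p1 ^ 2 + p2 ^ 2 - a : ℤ) : ℝ) ∧
      ∀ z1 z2 : ℤ, IsCoprime z1 z2 → (p1 ^ 2 + p2 ^ 2 - a) ∣ p1 * z2 - p2 * z1 →
        ∃ C2, Nbr D₀ C1 C2 ∧ C2.curv = ((z1 ^ 2 + z2 ^ 2 - (p1 ^ 2 + p2 ^ 2 - a) : ℤ) : ℝ) := by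
  have hxy : IsCoprime x y := by
    obtain ⟨u, v, huv⟩ := hp
    refine ⟨u * x1.1 + v * x1.2, u * x2.1 + v * x2.2, ?_⟩
    rw [← huv, hp1, hp2]
    ring
  have hbase : TG D₀ (D (σ 0)) A B E (1, 0) (0, -1) := by
    refine ⟨D, σ, hg, rfl, ?_, ?_, ?_⟩
    · unfold qv; rw [h1, h0]; push_cast; ring
    · unfold qv; rw [h2, h0]; push_cast; ring
    · unfold qv; simp only [Prod.fst_add, Prod.snd_add]; rw [h3, h0]; push_cast; ring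
  obtain ⟨w, hw⟩ := TG.int h₀ x (-y) hxy.neg_right hbase
  have e : x • ((1, 0) : ℤ × ℤ) + (-y) • ((0, -1) : ℤ × ℤ) = (x, y) := by
    ext <;> simp
  rw [e] at hw
  obtain ⟨D', σ', hg', k0, k1, k2, k3⟩ := hw
  have hqv : ∀ u : ℤ × ℤ, qv A B E u = (((u.1 * x1.1 + u.2 * x2.1) ^ 2 + (u.1 * x1.2 + u.2 * x2.2) ^ 2 : ℤ) : ℝ) := by
    intro u
    unfold qv
    rw [← hx1, ← hx2, ← hx]
    push_cast
    ring
  have k0' : (D' (σ' 0)).curv = a := by rw [k0, h0]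
  have k1' : (D' (σ' 1)).curv = ((p1 ^ 2 + p2 ^ 2 - a : ℤ) : ℝ) := by
    rw [k1, hqv, h0, hp1, hp2]
    push_cast
    ring
  have k2' : (D' (σ' 2)).curv =
      (((w.1 * x1.1 + w.2 * x2.1) ^ 2 + (w.1 * x1.2 + w.2 * x2.2) ^ 2 - a : ℤ) : ℝ) := by
    rw [k2, hqv, h0]
    push_cast
    ring
  have k3' : (D' (σ' 3)).curv =
      (((p1 + (w.1 * x1.1 + w.2 * x2.1)) ^ 2 + (p2 + (w.1 * x1.2 + w.2 * x2.2)) ^ 2 - a : ℤ) : ℝ) := by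
    rw [k3, hqv, h0, hp1, hp2]
    simp only [Prod.fst_add, Prod.snd_add]
    push_cast
    ring
  refine ⟨D' (σ' 1), ⟨D', hg', σ' 0, σ' 1, fun e => absurd (σ'.injective e) (by decide), k0, rfl⟩, k1', ?_⟩
  intro z1 z2 hz hd
  exact geC_ze h₀ hg' σ' a p1 p2 _ _ k0' k1' k2' k3' hp z1 z2 hz hd

end Pool.Agent.Wd33b62g
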