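import Pool.Agent.W_d33b62_h36.Main
import Pool.Agent.W_d33b62f_h37.Df
import Pool.Agent.W_d33b62f_h37.GeA
import Pool.Agent.W_d33b62f_h37.GeC

/-!
# The geometry: neighbours of neighbours (helper9, MP_d33b62_nt, T9)
-/

set_option autoImplicit false

noncomputable section

open Finset Pool.Agent.Wd33b62

namespace Pool.Agent.W33f

/-- Translation of neighbours. -/
theorem geo_nbr {v : Fin 4 → GC} (hv : IsDescartes v) {C1 C2 : Pool.Agent.Wd33b62g.Circ}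
    (h : Pool.Agent.Wd33b62g.Nbr (fun i => GG4d_to (v i)) C1 C2) :
    GG4d_of C2 ∈ packing v ∧ Tang (GG4d_of C1) (GG4d_of C2) := by
  obtain ⟨D, hg, i, j, hij, h1, h2⟩ := h
  have hv' := (GG4d_desc v).2 hv
  have hd := hg.isDescartes hv'
  have hd' : IsDescartes (fun i => GG4d_of (D i)) := by
    rw [← GG4d_desc]; exact hd
  refine ⟨⟨_, GG4d_gen' hg, j, by rw [h2]⟩, ?_⟩
  have h3 := (hd' i j hij).1
  simp only at h3
  rw [h1, h2] at h3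
  exact h3

/-- The neighbours of the neighbours of a circle of odd prime curvature. -/
theorem geo_circ {v : Fin 4 → GC} (hv : IsDescartes v) (hI : IsIntegral v) (hP : IsPrimitive v) {c : GC}
    (hc : c ∈ packing v) (a : ℕ) (ha : a.Prime) (ha2 : a ≠ 2) (hca : c.k = a) :
    ∃ v₀ : ℤ × ℤ, ¬ (a : ℤ) ∣ nm v₀ ∧ ∀ p1 p2 : ℤ, IsCoprime p1 p2 → (a : ℤ) ∣ v₀.1 * p2 - v₀.2 * p1 →
      ∃ c1 ∈ packing v, Tang c c1 ∧ c1.k = ((p1 ^ 2 + p2 ^ 2 - a : ℤ) : ℝ) ∧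
        ∀ z1 z2 : ℤ, IsCoprime z1 z2 → (p1 ^ 2 + p2 ^ 2 - a) ∣ p1 * z2 - p2 * z1 →
          ∃ c2 ∈ packing v, Tang c1 c2 ∧ c2.k = ((z1 ^ 2 + z2 ^ 2 - (p1 ^ 2 + p2 ^ 2 - a) : ℤ) : ℝ) := by
  have h₀ := (GG4d_desc v).2 hv
  have hint : Pool.Agent.Wd33b62g.IsIntegral
      (Pool.Agent.Wd33b62g.packing (fun i => GG4d_to (v i))) := by
    intro c hc
    exact hI (GG4d_of c) (GG4d_mem.1 hc)
  have hprim : Pool.Agent.Wd33b62g.IsPrimitive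
      (Pool.Agent.Wd33b62g.packing (fun i => GG4d_to (v i))) := by
    intro d hd
    apply hP d
    intro c hc
    exact hd (GG4d_to c) (GG4d_mem.2 hc)
  obtain ⟨D, hg, i, hDi⟩ := GG4d_mem.2 hc
  obtain ⟨σ, hσ⟩ := Pool.Agent.Wd33b62g.swapB_perm i
  have hdes := hg.isDescartes h₀
  have ht := hdes.tan4
  have hpos := Pool.Agent.Wd33b62g.swap_pos_of_disjoint hdes
  obtain ⟨b, hb⟩ := hint (D (σ 1)) ⟨D, hg, _, rfl⟩
  obtain ⟨e, he⟩ := hint (D (σ 2)) ⟨D, hg, _, rfl⟩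
  obtain ⟨d, hd⟩ := hint (D (σ 3)) ⟨D, hg, _, rfl⟩
  have ha0 : (D (σ 0)).curv = ((a : ℤ) : ℝ) := by
    rw [hσ, hDi]
    show c.k = _
    rw [hca]; simp
  have hrel := (Pool.Agent.Wd33b62g.lor_rel _ (ht.comp σ)).1
  simp only [Fin.sum_univ_four] at hrel
  rw [ha0, hb, he, hd] at hrel
  have hrelZ : ((a : ℤ) + b + e + d) ^ 2 = 2 * ((a : ℤ) ^ 2 + b ^ 2 + e ^ 2 + d ^ 2) := by
    exact_mod_cast hrel
  have heven : Even ((a : ℤ) + b + e + d) := by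
    have : Even (((a : ℤ) + b + e + d) ^ 2) := by rw [hrelZ]; exact even_two_mul _
    exact (Int.even_pow.1 this).1
  obtain ⟨s, hs⟩ := heven
  have hAB := (Pool.Agent.Wd33b62g.swap_pair_nonneg ht hpos (i := σ 0) (j := σ 1)
    (fun e => absurd (σ.injective e) (by decide))).1
  rw [ha0, hb] at hAB
  have hA0 : 0 ≤ (a : ℤ) + b := by exact_mod_cast hAB
  have hapos : (0 : ℤ) < a := by exact_mod_cast ha.pos
  have hdet : ((a : ℤ) + b) * (a + e) - (s - d) ^ 2 = (a : ℤ) ^ 2 := by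
    have hs' : 2 * s = (a : ℤ) + b + e + d := by linarith
    have : 4 * (((a : ℤ) + b) * (a + e) - (s - d) ^ 2) = 4 * (a : ℤ) ^ 2 := by
      have e : 4 * (s - d) ^ 2 = ((a : ℤ) + b + e - d) ^ 2 := by
        have : 2 * (s - d) = (a : ℤ) + b + e - d := by linarith
        rw [← this]; ring
      rw [mul_sub, e]
      linear_combination hrelZ
    linarith
  have hprod : 0 < ((a : ℤ) + b) * (a + e) := by
    have : ((a : ℤ) + b) * (a + e) = (a : ℤ) ^ 2 + (s - d) ^ 2 := by linarith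
    rw [this]; positivity
  have hA : 0 < (a : ℤ) + b :=
    lt_of_le_of_ne hA0 (fun h => by rw [← h, zero_mul] at hprod; exact lt_irrefl _ hprod)
  have hnd : ¬ ((a : ℤ) ∣ (a : ℤ) + b ∧ (a : ℤ) ∣ s - d ∧ (a : ℤ) ∣ (a : ℤ) + e) := by
    rintro ⟨h1, hB, h2⟩
    have hb' : (a : ℤ) ∣ b := (dvd_add_right (dvd_refl _)).1 h1
    have hc' : (a : ℤ) ∣ e := (dvd_add_right (dvd_refl _)).1 h2
    have hd' : (a : ℤ) ∣ d := by
      have : d = (a : ℤ) + b + e - 2 * (s - d) := by linarith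
      rw [this]
      exact dvd_sub (dvd_add (dvd_add (dvd_refl _) hb') hc') (dvd_mul_of_dvd_right hB _)
    have hall : Pool.Agent.Wd33b62g.DvC (a : ℝ) D := by
      intro j
      obtain ⟨k, rfl⟩ : ∃ k, σ k = j := ⟨σ.symm j, by simp⟩
      have hk : ∀ k : Fin 4, k = 0 ∨ k = 1 ∨ k = 2 ∨ k = 3 := by decide
      rcases hk k with rfl | rfl | rfl | rfl
      · exact ⟨1, by rw [ha0]; simp⟩
      · obtain ⟨n, hn⟩ := hb'
        exact ⟨n, by rw [hb, hn]; push_cast; ring⟩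
      · obtain ⟨n, hn⟩ := hc'
        exact ⟨n, by rw [he, hn]; push_cast; ring⟩
      · obtain ⟨n, hn⟩ := hd'
        exact ⟨n, by rw [hd, hn]; push_cast; ring⟩
    exact ha.one_lt.ne' (Pool.Agent.Wd33b62g.intForm_prim h₀ hprim hg a hall)
  obtain ⟨x1, x2, v₀, hx1, hx2, hx, -, hv₀, hlat⟩ := GeA a ha ha2 _ _ _ hA hdet hnd
  refine ⟨v₀, hv₀, ?_⟩
  intro p1 p2 hp hdv
  obtain ⟨x, y, hxy⟩ := hlat (p1, p2) hdv
  obtain ⟨C1, hN1, hk1, hC1⟩ := Pool.Agent.Wd33b62g.geC_main h₀ hg σ (a : ℤ) ((a : ℤ) + b) (s - d) ((a : ℤ) + e) ha0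
    (by rw [hb]; push_cast; ring) (by rw [he]; push_cast; ring)
    (by
      rw [hd]
      have : d = (a : ℤ) + b + ((a : ℤ) + e) - 2 * (s - d) - (a : ℤ) := by linarith
      exact_mod_cast this) x1 x2 hx1 hx2 hx p1 p2 hp x y (congrArg Prod.fst hxy) (congrArg Prod.snd hxy)
  rw [hσ, hDi] at hN1
  obtain ⟨hm1, ht1⟩ := geo_nbr hv hN1
  rw [GG4d_of_to] at ht1
  refine ⟨GG4d_of C1, hm1, ht1, hk1, ?_⟩
  intro z1 z2 hz hdz
  obtain ⟨C2, hN2, hk2⟩ := hC1 z1 z2 hz hdz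
  obtain ⟨hm2, ht2⟩ := geo_nbr hv hN2
  exact ⟨GG4d_of C2, hm2, ht2, hk2⟩

/-- **T9.** The geometry: neighbours of neighbours. -/
theorem GEO {v : Fin 4 → GC} (hv : IsDescartes v) (hI : IsIntegral v) (hP : IsPrimitive v) {C : GC}
    (hC : C ∈ packing v) (hC2 : OddPrimeCurv C) : ∃ (a₀ : ℕ) (v₀ : ℤ × ℤ), a₀.Prime ∧ 5 ≤ a₀ ∧ ¬ (a₀ : ℤ) ∣ nm v₀ ∧
      ∀ xi : ℤ × ℤ, Int.gcd xi.1 xi.2 = 1 → (a₀ : ℤ) ∣ v₀.1 * xi.2 - v₀.2 * xi.1 →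
        ∀ q : ℕ, q.Prime → q ≠ 2 → a₀ < q → nm xi = q + a₀ →
          ∀ ze : ℤ × ℤ, Int.gcd ze.1 ze.2 = 1 → (q : ℤ) ∣ xi.1 * ze.2 - xi.2 * ze.1 →
            ∀ r : ℕ, r.Prime → r ≠ 2 → q < r → nm ze = r + q → r ∈ curvs v C := by
  obtain ⟨H, hH⟩ := Pool.Agent.Wd33b62.main 0
  obtain ⟨n, hn, hcard⟩ := hH v hv hI hP C hC hC2 5
  have hne : (curvs v C ∩ Set.Icc n (n + H)).Nonempty := by
    by_contra h
    rw [Set.not_nonempty_iff_eq_empty] at h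
    rw [h, Set.ncard_empty] at hcard
    omega
  obtain ⟨a, ⟨c₀, hc₀, hc₀a⟩, hna, -⟩ := hne
  obtain ⟨hcP, p, hp, hp2, hcp⟩ := component_mem hC hC2 hc₀
  have h1 : (a : ℝ) = p := hc₀a.symm.trans hcp
  have h2 : a = p := by exact_mod_cast h1
  subst h2
  obtain ⟨v₀, hv₀, hgeo⟩ := geo_circ hv hI hP hcP a hp hp2 hc₀a
  refine ⟨a, v₀, hp, by omega, hv₀, ?_⟩
  intro xi hxi hdx q hq hq2 _ hnq ze hze hdz r hr hr2 _ hnr
  obtain ⟨c1, hc1, ht1, hk1, hnx⟩ := hgeo xi.1 xi.2 (Int.isCoprime_iff_gcd_eq_one.2 hxi) hdx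
  have hq1 : xi.1 ^ 2 + xi.2 ^ 2 - (a : ℤ) = q := by
    unfold nm at hnq
    linarith
  rw [hq1] at hk1 hnx
  obtain ⟨c2, hc2, ht2, hk2⟩ := hnx ze.1 ze.2 (Int.isCoprime_iff_gcd_eq_one.2 hze) hdz
  have hr1 : ze.1 ^ 2 + ze.2 ^ 2 - (q : ℤ) = r := by
    unfold nm at hnr
    linarith
  rw [hr1] at hk2
  have hk1' : c1.k = (q : ℝ) := by rw [hk1]; simp
  have hk2' : c2.k = (r : ℝ) := by rw [hk2]; simp
  refine ⟨c2, ?_, hk2'⟩
  exact Relation.ReflTransGen.tail (Relation.ReflTransGen.tail hc₀ ⟨hc1, ⟨q, hq, hq2, hk1'⟩, ht1⟩)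
    ⟨hc2, ⟨r, hr, hr2, hk2'⟩, ht2⟩

end Pool.Agent.W33f
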