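import Pool.Agent.W_d33b62f_h37.Of1

/-!
# MP_d33b62_nt, full question: T6, two Gaussian integers of the same norm; the case distinction (helper53)
-/

set_option autoImplicit false

noncomputable section

open Finset

namespace Pool.Agent.W33f

/-- conjugate -/
def cjg (z : ℤ × ℤ) : ℤ × ℤ := (z.1, -z.2)

theorem nm_gm (u v : ℤ × ℤ) : nm (gm u v) = nm u * nm v := by unfold nm gm; ring
theorem nm_cjg (u : ℤ × ℤ) : nm (cjg u) = nm u := by unfold nm cjg; ring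
theorem gm_comm (u v : ℤ × ℤ) : gm u v = gm v u := by
  unfold gm; ext <;> simp <;> ring
theorem gm_assoc (u v z : ℤ × ℤ) : gm (gm u v) z = gm u (gm v z) := by
  unfold gm; ext <;> simp <;> ring
theorem cjg_gm (u v : ℤ × ℤ) : cjg (gm u v) = gm (cjg u) (cjg v) := by
  unfold gm cjg; ext <;> simp <;> ring

/-- Gaussian integer of a pair -/
def toG (z : ℤ × ℤ) : GaussianInt := ⟨z.1, z.2⟩

theorem toG_inj {z z' : ℤ × ℤ} (h : toG z = toG z') : z = z' := by
  have h1 := congrArg Zsqrtd.re h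
  have h2 := congrArg Zsqrtd.im h
  exact Prod.ext h1 h2

theorem toG_gm (u v : ℤ × ℤ) : toG (gm u v) = toG u * toG v := by
  unfold toG gm
  ext <;> simp
  ring

theorem toG_cjg (u : ℤ × ℤ) : toG (cjg u) = star (toG u) := by
  unfold toG cjg
  ext <;> simp

theorem toG_norm (u : ℤ × ℤ) : (toG u).norm = nm u := by
  unfold toG nm Zsqrtd.norm
  ring

theorem exists_toG (x : GaussianInt) : ∃ u : ℤ × ℤ, toG u = x := ⟨(x.re, x.im), rfl⟩

theorem gauss_pair' (z z' : GaussianInt) (hz : z ≠ 0) (h : z.norm = z'.norm) :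
    ∃ g v e : GaussianInt, e.norm = 1 ∧ z = g * v ∧ z' = e * (g * star v) := by
  set g := EuclideanDomain.gcd z z' with hg
  obtain ⟨v, hv⟩ : g ∣ z := EuclideanDomain.gcd_dvd_left z z'
  obtain ⟨v', hv'⟩ : g ∣ z' := EuclideanDomain.gcd_dvd_right z z'
  have hg0 : g ≠ 0 := by
    intro h0
    apply hz
    rw [hv, h0, zero_mul]
  have hbez := EuclideanDomain.gcd_eq_gcd_ab z z'
  rw [← hg] at hbez
  have hcop : IsCoprime v v' := by
    refine ⟨EuclideanDomain.gcdA z z', EuclideanDomain.gcdB z z', ?_⟩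
    apply mul_left_cancel₀ hg0
    calc g * (EuclideanDomain.gcdA z z' * v + EuclideanDomain.gcdB z z' * v')
        = (g * v) * EuclideanDomain.gcdA z z' + (g * v') * EuclideanDomain.gcdB z z' := by ring
      _ = z * EuclideanDomain.gcdA z z' + z' * EuclideanDomain.gcdB z z' := by rw [← hv, ← hv']
      _ = g * 1 := by rw [← hbez, mul_one]
  have hgn : g.norm ≠ 0 := by
    rw [Ne, GaussianInt.norm_eq_zero]
    exact hg0
  have hvn : v.norm = v'.norm := by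
    rw [hv, hv', Zsqrtd.norm_mul, Zsqrtd.norm_mul] at h
    exact mul_left_cancel₀ hgn h
  have hv0 : v ≠ 0 := by
    rintro rfl
    exact hz (by rw [hv, mul_zero])
  have hvn0 : v.norm ≠ 0 := by
    rw [Ne, GaussianInt.norm_eq_zero]
    exact hv0
  have h1 : v ∣ v' * star v' := by
    rw [← Zsqrtd.norm_eq_mul_conj, ← hvn, Zsqrtd.norm_eq_mul_conj]
    exact Dvd.intro _ rfl
  obtain ⟨e, he⟩ := hcop.dvd_of_dvd_mul_left h1
  have hen : e.norm = 1 := by
    have h2 : (star v').norm = v'.norm := Zsqrtd.norm_conj v'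
    rw [he, Zsqrtd.norm_mul, ← hvn] at h2
    have h3 : v.norm * e.norm = v.norm * 1 := by rw [mul_one]; exact h2
    exact mul_left_cancel₀ hvn0 h3
  refine ⟨g, v, star e, ?_, hv, ?_⟩
  · rw [Zsqrtd.norm_conj]; exact hen
  · have h2 : v' = star v * star e := by
      have := congrArg star he
      rw [star_star, star_mul'] at this
      exact this
    rw [hv', h2]
    ring

/-- **The decomposition**. -/
theorem gauss_pair (z z' : ℤ × ℤ) (hz : z ≠ 0) (h : nm z = nm z') :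
    ∃ g v e : ℤ × ℤ, nm e = 1 ∧ z = gm g v ∧ z' = gm e (gm g (cjg v)) := by
  have hz' : toG z ≠ 0 := by
    intro h0
    apply hz
    apply toG_inj
    rw [h0]; rfl
  obtain ⟨g, v, e, h1, h2, h3⟩ := gauss_pair' (toG z) (toG z') hz' (by rw [toG_norm, toG_norm, h])
  obtain ⟨g, rfl⟩ := exists_toG g
  obtain ⟨v, rfl⟩ := exists_toG v
  obtain ⟨e, rfl⟩ := exists_toG e
  rw [toG_norm] at h1
  refine ⟨g, v, e, h1, ?_, ?_⟩
  · apply toG_inj
    rw [h2, toG_gm]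
  · apply toG_inj
    rw [h3, toG_gm, toG_gm, toG_cjg]

/-- The units. -/
theorem unit_cases {e : ℤ × ℤ} (he : nm e = 1) : e = (1, 0) ∨ e = (-1, 0) ∨ e = (0, 1) ∨ e = (0, -1) := by
  obtain ⟨x, y⟩ := e
  unfold nm at he
  simp only at he
  have hx : -1 ≤ x ∧ x ≤ 1 := by constructor <;> nlinarith [sq_nonneg y]
  have hy : -1 ≤ y ∧ y ≤ 1 := by constructor <;> nlinarith [sq_nonneg x]
  obtain ⟨hx1, hx2⟩ := hx
  obtain ⟨hy1, hy2⟩ := hy
  interval_cases x <;> interval_cases y <;> simp_all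

theorem coprime_of_gm {u v : ℤ × ℤ} (h : IsCoprime (gm u v).1 (gm u v).2) : IsCoprime u.1 u.2 := by
  obtain ⟨s, t, hst⟩ := h
  refine ⟨s * v.1 + t * v.2, t * v.1 - s * v.2, ?_⟩
  rw [← hst]
  unfold gm
  ring

theorem coprime_of_gm' {u v : ℤ × ℤ} (h : IsCoprime (gm u v).1 (gm u v).2) : IsCoprime v.1 v.2 := by
  rw [gm_comm] at h
  exact coprime_of_gm h

/-- The vectors of the forms `x, y, x + y, x - y` of `conj G g`. -/
def FV (G : ℤ × ℤ) : Finset (ℤ × ℤ) := {G, (-G.2, G.1), (G.1 - G.2, G.1 + G.2), (G.1 + G.2, G.2 - G.1)}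

theorem FV_card (G : ℤ × ℤ) : (FV G).card ≤ 4 := card_le_four

theorem FV_nm {G w : ℤ × ℤ} (hw : w ∈ FV G) : nm w ≤ 2 * nm G := by
  have h0 := nm_nonneg G
  unfold FV at hw
  simp only [mem_insert, mem_singleton] at hw
  rcases hw with rfl | rfl | rfl | rfl
  · linarith
  · unfold nm at *; simp only; linarith
  · unfold nm at *; simp only; linarith
  · unfold nm at *; simp only; linarith

theorem FV_coprime {G w : ℤ × ℤ} (hG : IsCoprime G.1 G.2) (hodd : ¬ (2 : ℤ) ∣ nm G) (hw : w ∈ FV G) :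
    IsCoprime w.1 w.2 := by
  -- `G.1 + G.2` is odd
  have hodd' : ∃ k, G.1 + G.2 = 2 * k + 1 := by
    have h1 : ¬ (2 : ℤ) ∣ G.1 + G.2 := by
      intro h
      apply hodd
      have h2 : nm G = (G.1 + G.2) ^ 2 - 2 * (G.1 * G.2) := by unfold nm; ring
      rw [h2]
      exact dvd_sub (dvd_pow h two_ne_zero) (Dvd.intro _ rfl)
    have h2 : (G.1 + G.2) % 2 = 1 := by omega
    exact ⟨(G.1 + G.2) / 2, by omega⟩
  obtain ⟨k, hk⟩ := hodd'
  obtain ⟨s, t, hst⟩ := hG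
  unfold FV at hw
  simp only [mem_insert, mem_singleton] at hw
  rcases hw with rfl | rfl | rfl | rfl
  · exact ⟨s, t, hst⟩
  · refine ⟨-t, s, ?_⟩
    simp only; linarith
  · -- `(G1 - G2, G1 + G2)`: 2 = combination, and `G1 + G2` odd
    -- `2 = s (x + y) ... `: s G1 + t G2 = 1; G1 = (A + B) / 2, G2 = (B - A) / 2: (s - t) A + (s + t) B = 2
    -- 1 = B - 2 k
    refine ⟨-k * (s - t), 1 - k * (s + t), ?_⟩
    simp only
    have h2 : (s - t) * (G.1 - G.2) + (s + t) * (G.1 + G.2) = 2 := by linarith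
    calc -k * (s - t) * (G.1 - G.2) + (1 - k * (s + t)) * (G.1 + G.2)
        = (G.1 + G.2) - k * ((s - t) * (G.1 - G.2) + (s + t) * (G.1 + G.2)) := by ring
      _ = 1 := by rw [h2, hk]; ring
  · refine ⟨1 - k * (s + t), -k * (t - s), ?_⟩
    simp only
    have h2 : (t - s) * (G.2 - G.1) + (s + t) * (G.1 + G.2) = 2 := by linarith
    calc (1 - k * (s + t)) * (G.1 + G.2) + -k * (t - s) * (G.2 - G.1)
        = (G.1 + G.2) - k * ((t - s) * (G.2 - G.1) + (s + t) * (G.1 + G.2)) := by ring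
      _ = 1 := by rw [h2, hk]; ring

/-- `a ∣ conj G g` is impossible. -/
theorem not_dvd_both (a : ℕ) (ha : a.Prime) (G g : ℤ × ℤ) (hG0 : 0 < nm G) (hGa : nm G < a)
    (hg : IsCoprime g.1 g.2) (h1 : (a : ℤ) ∣ (gm (cjg G) g).1) (h2 : (a : ℤ) ∣ (gm (cjg G) g).2) : False := by
  have hp : Prime (a : ℤ) := Nat.prime_iff_prime_int.1 ha
  have hn : ¬ (a : ℤ) ∣ nm G := fun h => absurd (Int.le_of_dvd hG0 h) (by omega)
  have e1 : nm G * g.1 = G.1 * (gm (cjg G) g).1 - G.2 * (gm (cjg G) g).2 := by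
    unfold nm gm cjg; ring
  have e2 : nm G * g.2 = G.1 * (gm (cjg G) g).2 + G.2 * (gm (cjg G) g).1 := by
    unfold nm gm cjg; ring
  have d1 : (a : ℤ) ∣ nm G * g.1 := by
    rw [e1]; exact dvd_sub (dvd_mul_of_dvd_right h1 _) (dvd_mul_of_dvd_right h2 _)
  have d2 : (a : ℤ) ∣ nm G * g.2 := by
    rw [e2]; exact dvd_add (dvd_mul_of_dvd_right h2 _) (dvd_mul_of_dvd_right h1 _)
  have d3 := (hp.dvd_or_dvd d1).resolve_left hn
  have d4 := (hp.dvd_or_dvd d2).resolve_left hn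
  have := hg.isUnit_of_dvd' d3 d4
  exact hp.not_unit this

/-- `conj G g` real: `g = ± G`. -/
theorem real_case (G g : ℤ × ℤ) (hG : IsCoprime G.1 G.2) (hg : IsCoprime g.1 g.2)
    (h : (gm (cjg G) g).2 = 0) : ∃ e : ℤ, (e = 1 ∨ e = -1) ∧ g = (e * G.1, e * G.2) := by
  set m := (gm (cjg G) g).1 with hm
  have hG0 : nm G ≠ 0 := by
    have : G ≠ 0 := by
      rintro rfl
      simp [isCoprime_zero_left] at hG
    exact (nm_pos this).ne'
  have e1 : nm G * g.1 = G.1 * m := by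
    have : nm G * g.1 = G.1 * (gm (cjg G) g).1 - G.2 * (gm (cjg G) g).2 := by
      unfold nm gm cjg; ring
    rw [this, h, hm]; ring
  have e2 : nm G * g.2 = G.2 * m := by
    have : nm G * g.2 = G.1 * (gm (cjg G) g).2 + G.2 * (gm (cjg G) g).1 := by
      unfold nm gm cjg; ring
    rw [this, h, hm]; ring
  have hdm : nm G ∣ m := by
    obtain ⟨s, t, hst⟩ := hG
    refine ⟨s * g.1 + t * g.2, ?_⟩
    calc m = (s * G.1 + t * G.2) * m := by rw [hst, one_mul]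
      _ = s * (G.1 * m) + t * (G.2 * m) := by ring
      _ = s * (nm G * g.1) + t * (nm G * g.2) := by rw [e1, e2]
      _ = _ := by ring
  obtain ⟨e, he⟩ := hdm
  have g1 : g.1 = e * G.1 := by
    apply mul_left_cancel₀ hG0
    rw [e1, he]; ring
  have g2 : g.2 = e * G.2 := by
    apply mul_left_cancel₀ hG0
    rw [e2, he]; ring
  refine ⟨e, ?_, Prod.ext g1 g2⟩
  have h1 : e ∣ g.1 := ⟨_, g1⟩
  have h2 : e ∣ g.2 := ⟨_, g2⟩
  exact Int.isUnit_iff.1 (hg.isUnit_of_dvd' h1 h2)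

/-- **The case distinction.** -/
theorem core (a : ℕ) (ha : a.Prime) (ha2 : a ≠ 2) (G V e z z' : ℤ × ℤ) (he : nm e = 1)
    (hGV : nm (gm G V) < a) (hprim : IsCoprime (gm G V).1 (gm G V).2) (hodd : ¬ (2 : ℤ) ∣ nm (gm G V))
    (hz : IsCoprime z.1 z.2) (hzz : nm z = nm z') (hzodd : ¬ (2 : ℤ) ∣ nm z)
    (h1 : (a : ℤ) ∣ (gm (cjg (gm G V)) z).2) (h2 : (a : ℤ) ∣ (gm (cjg (gm e (gm G (cjg V)))) z').2) :
    (∃ e2 v, nm e2 = 1 ∧ z = gm G v ∧ z' = gm e2 (gm G (cjg v))) ∨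
    (∃ e2 g, nm e2 = 1 ∧ z = gm V g ∧ z' = gm e2 (gm g (cjg V))) ∨
    (∃ e2 g v, nm e2 = 1 ∧ z = gm g v ∧ z' = gm e2 (gm g (cjg v)) ∧ ∃ w ∈ FV G, ∃ w' ∈ FV V,
      (a : ℤ) ∣ ip w g ∧ ip w g ≠ 0 ∧ (a : ℤ) ∣ ip w' v ∧ ip w' v ≠ 0) := by
  have hp : Prime (a : ℤ) := Nat.prime_iff_prime_int.1 ha
  have hG := coprime_of_gm hprim
  have hV := coprime_of_gm' hprim
  have hG0 : 0 < nm G := by
    apply nm_pos
    rintro rfl
    simp [isCoprime_zero_left] at hG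
  have hV0 : 0 < nm V := by
    apply nm_pos
    rintro rfl
    simp [isCoprime_zero_left] at hV
  rw [nm_gm] at hGV hodd
  have hGa : nm G < a := by nlinarith
  have hVa : nm V < a := by nlinarith
  have hGo : ¬ (2 : ℤ) ∣ nm G := fun h => hodd (dvd_mul_of_dvd_left h _)
  have hVo : ¬ (2 : ℤ) ∣ nm V := fun h => hodd (dvd_mul_of_dvd_right h _)
  have hz0 : z ≠ 0 := by
    rintro rfl
    simp [isCoprime_zero_left] at hz
  obtain ⟨g, v, f, hf, rfl, rfl⟩ := gauss_pair z z' hz0 hzz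
  have hg := coprime_of_gm hz
  have hv := coprime_of_gm' hz
  rw [nm_gm] at hzodd
  have hgo : ¬ (2 : ℤ) ∣ nm g := fun h => hzodd (dvd_mul_of_dvd_left h _)
  have hvo : ¬ (2 : ℤ) ∣ nm v := fun h => hzodd (dvd_mul_of_dvd_right h _)
  set q := gm (cjg G) g with hq
  set t := gm (cjg V) v with ht
  have ha2' : ¬ (a : ℤ) ∣ 2 := by
    intro h
    have : a ∣ 2 := by exact_mod_cast h
    exact ha2 ((Nat.prime_dvd_prime_iff_eq ha Nat.prime_two).1 this)
  -- the two conditions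
  have c1 : (a : ℤ) ∣ q.1 * t.2 + q.2 * t.1 := by
    have : (gm (cjg (gm G V)) (gm g v)).2 = q.1 * t.2 + q.2 * t.1 := by
      rw [hq, ht]; unfold gm cjg; simp only; ring
    rwa [this] at h1
  have c2 : (a : ℤ) ∣ (gm (gm (cjg e) f) (gm q (cjg t))).2 := by
    have : (gm (cjg (gm e (gm G (cjg V)))) (gm f (gm g (cjg v)))).2 = (gm (gm (cjg e) f) (gm q (cjg t))).2 := by
      rw [hq, ht]; unfold gm cjg; simp only; ring
    rwa [this] at h2
  have hη : nm (gm (cjg e) f) = 1 := by rw [nm_gm, nm_cjg, he, hf]; norm_num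
  set η := gm (cjg e) f with hηdef
  -- parity
  have hqo : ¬ (2 : ℤ) ∣ nm q := by
    rw [hq, nm_gm, nm_cjg]
    intro h
    rcases Int.prime_two.dvd_or_dvd h with h | h
    · exact hGo h
    · exact hgo h
  have hto : ¬ (2 : ℤ) ∣ nm t := by
    rw [ht, nm_gm, nm_cjg]
    intro h
    rcases Int.prime_two.dvd_or_dvd h with h | h
    · exact hVo h
    · exact hvo h
  have hodd1 : ∀ u : ℤ × ℤ, ¬ (2 : ℤ) ∣ nm u → u.1 + u.2 ≠ 0 ∧ u.1 - u.2 ≠ 0 := by
    intro u hu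
    constructor
    · intro h
      apply hu
      have h2 : u.1 = -u.2 := by linarith
      have h3 : nm u = 2 * u.2 ^ 2 := by unfold nm; rw [h2]; ring
      rw [h3]
      exact Dvd.intro _ rfl
    · intro h
      apply hu
      have h2 : u.1 = u.2 := by linarith
      have h3 : nm u = 2 * u.2 ^ 2 := by unfold nm; rw [h2]; ring
      rw [h3]
      exact Dvd.intro _ rfl
  have hA : (a : ℤ) ∣ q.1 → (a : ℤ) ∣ q.2 → False := fun x y =>
    not_dvd_both a ha G g hG0 hGa hg x y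
  have hB : (a : ℤ) ∣ t.1 → (a : ℤ) ∣ t.2 → False := fun x y =>
    not_dvd_both a ha V v hV0 hVa hv x y
  -- the forms as inner products
  have f1 : ip G g = q.1 := by rw [hq]; unfold ip gm cjg; simp only; ring
  have f2 : ip (-G.2, G.1) g = q.2 := by rw [hq]; unfold ip gm cjg; simp only; ring
  have f3 : ip (G.1 - G.2, G.1 + G.2) g = q.1 + q.2 := by rw [hq]; unfold ip gm cjg; simp only; ring
  have f4 : ip (G.1 + G.2, G.2 - G.1) g = q.1 - q.2 := by rw [hq]; unfold ip gm cjg; simp only; ring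
  have f1' : ip V v = t.1 := by rw [ht]; unfold ip gm cjg; simp only; ring
  have f2' : ip (-V.2, V.1) v = t.2 := by rw [ht]; unfold ip gm cjg; simp only; ring
  have f3' : ip (V.1 - V.2, V.1 + V.2) v = t.1 + t.2 := by rw [ht]; unfold ip gm cjg; simp only; ring
  have f4' : ip (V.1 + V.2, V.2 - V.1) v = t.1 - t.2 := by rw [ht]; unfold ip gm cjg; simp only; ring
  -- the exact zero cases
  have zq2 : q.2 = 0 → (∃ e2 v', nm e2 = 1 ∧ gm g v = gm G v' ∧ gm f (gm g (cjg v)) = gm e2 (gm G (cjg v'))) := by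
    intro h0
    obtain ⟨s, hs, hgs⟩ := real_case G g hG hg h0
    refine ⟨f, (s * v.1, s * v.2), hf, ?_, ?_⟩
    · rw [hgs]; unfold gm; ext <;> simp <;> ring
    · rw [hgs]; unfold gm cjg; ext <;> simp <;> ring
  have zq1 : q.1 = 0 → (∃ e2 v', nm e2 = 1 ∧ gm g v = gm G v' ∧ gm f (gm g (cjg v)) = gm e2 (gm G (cjg v'))) := by
    intro h0
    -- use `i g`
    have h00 : (gm (cjg G) (-g.2, g.1)).2 = 0 := by
      have : (gm (cjg G) (-g.2, g.1)).2 = q.1 := by rw [hq]; unfold gm cjg; simp only; ring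
      rw [this, h0]
    have hg' : IsCoprime (-g.2, g.1).1 (-g.2, g.1).2 := by
      simp only
      exact hg.symm.neg_left
    obtain ⟨s, hs, hgs⟩ := real_case G (-g.2, g.1) hG hg' h00
    have hg2 : g.2 = -(s * G.1) := by
      have := congrArg Prod.fst hgs; simp only at this; linarith
    have hg1 : g.1 = s * G.2 := by
      have := congrArg Prod.snd hgs; simp only at this; linarith
    -- g = - i s G
    refine ⟨(-f.1, -f.2), (s * v.2, -s * v.1), ?_, ?_, ?_⟩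
    · unfold nm at *; simp only; linarith
    · unfold gm; simp only [hg1, hg2]; ext <;> simp <;> ring
    · unfold gm cjg; simp only [hg1, hg2]; ext <;> simp <;> ring
  have zt2 : t.2 = 0 → (∃ e2 g', nm e2 = 1 ∧ gm g v = gm V g' ∧ gm f (gm g (cjg v)) = gm e2 (gm g' (cjg V))) := by
    intro h0
    obtain ⟨s, hs, hgs⟩ := real_case V v hV hv h0
    refine ⟨f, (s * g.1, s * g.2), hf, ?_, ?_⟩
    · rw [hgs]; unfold gm; ext <;> simp <;> ring
    · rw [hgs]; unfold gm cjg; ext <;> simp <;> ring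
  have zt1 : t.1 = 0 → (∃ e2 g', nm e2 = 1 ∧ gm g v = gm V g' ∧ gm f (gm g (cjg v)) = gm e2 (gm g' (cjg V))) := by
    intro h0
    have h00 : (gm (cjg V) (-v.2, v.1)).2 = 0 := by
      have : (gm (cjg V) (-v.2, v.1)).2 = t.1 := by rw [ht]; unfold gm cjg; simp only; ring
      rw [this, h0]
    have hv' : IsCoprime (-v.2, v.1).1 (-v.2, v.1).2 := by
      simp only
      exact hv.symm.neg_left
    obtain ⟨s, hs, hgs⟩ := real_case V (-v.2, v.1) hV hv' h00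
    have hg2 : v.2 = -(s * V.1) := by
      have := congrArg Prod.fst hgs; simp only at this; linarith
    have hg1 : v.1 = s * V.2 := by
      have := congrArg Prod.snd hgs; simp only at this; linarith
    refine ⟨(-f.1, -f.2), (s * g.2, -s * g.1), ?_, ?_, ?_⟩
    · unfold nm at *; simp only; linarith
    · unfold gm; simp only [hg1, hg2]; ext <;> simp <;> ring
    · unfold gm cjg; simp only [hg1, hg2]; ext <;> simp <;> ring
  -- the general conclusion of the case `C` (forms `y, y` or `x, x`)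
  have hC2 : (a : ℤ) ∣ q.2 → (a : ℤ) ∣ t.2 →
    (∃ e2 v', nm e2 = 1 ∧ gm g v = gm G v' ∧ gm f (gm g (cjg v)) = gm e2 (gm G (cjg v'))) ∨
    (∃ e2 g', nm e2 = 1 ∧ gm g v = gm V g' ∧ gm f (gm g (cjg v)) = gm e2 (gm g' (cjg V))) ∨
    (∃ e2 g' v', nm e2 = 1 ∧ gm g v = gm g' v' ∧ gm f (gm g (cjg v)) = gm e2 (gm g' (cjg v')) ∧
      ∃ w ∈ FV G, ∃ w' ∈ FV V,
        (a : ℤ) ∣ ip w g' ∧ ip w g' ≠ 0 ∧ (a : ℤ) ∣ ip w' v' ∧ ip w' v' ≠ 0) := by
    intro x y
    by_cases h0 : q.2 = 0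
    · exact Or.inl (zq2 h0)
    by_cases h0' : t.2 = 0
    · exact Or.inr (Or.inl (zt2 h0'))
    refine Or.inr (Or.inr ⟨f, g, v, hf, rfl, rfl, (-G.2, G.1), by simp [FV], (-V.2, V.1), by simp [FV], ?_⟩)
    rw [f2, f2']
    exact ⟨x, h0, y, h0'⟩
  have hC1 : (a : ℤ) ∣ q.1 → (a : ℤ) ∣ t.1 →
    (∃ e2 v', nm e2 = 1 ∧ gm g v = gm G v' ∧ gm f (gm g (cjg v)) = gm e2 (gm G (cjg v'))) ∨
    (∃ e2 g', nm e2 = 1 ∧ gm g v = gm V g' ∧ gm f (gm g (cjg v)) = gm e2 (gm g' (cjg V))) ∨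
    (∃ e2 g' v', nm e2 = 1 ∧ gm g v = gm g' v' ∧ gm f (gm g (cjg v)) = gm e2 (gm g' (cjg v')) ∧
      ∃ w ∈ FV G, ∃ w' ∈ FV V,
        (a : ℤ) ∣ ip w g' ∧ ip w g' ≠ 0 ∧ (a : ℤ) ∣ ip w' v' ∧ ip w' v' ≠ 0) := by
    intro x y
    by_cases h0 : q.1 = 0
    · exact Or.inl (zq1 h0)
    by_cases h0' : t.1 = 0
    · exact Or.inr (Or.inl (zt1 h0'))
    refine Or.inr (Or.inr ⟨f, g, v, hf, rfl, rfl, G, by simp [FV], V, by simp [FV], ?_⟩)
    rw [f1, f1']
    exact ⟨x, h0, y, h0'⟩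
  -- the case `η = ± 1`
  have hreal : (a : ℤ) ∣ q.2 * t.1 - q.1 * t.2 →
    (∃ e2 v', nm e2 = 1 ∧ gm g v = gm G v' ∧ gm f (gm g (cjg v)) = gm e2 (gm G (cjg v'))) ∨
    (∃ e2 g', nm e2 = 1 ∧ gm g v = gm V g' ∧ gm f (gm g (cjg v)) = gm e2 (gm g' (cjg V))) ∨
    (∃ e2 g' v', nm e2 = 1 ∧ gm g v = gm g' v' ∧ gm f (gm g (cjg v)) = gm e2 (gm g' (cjg v')) ∧
      ∃ w ∈ FV G, ∃ w' ∈ FV V,
        (a : ℤ) ∣ ip w g' ∧ ip w g' ≠ 0 ∧ (a : ℤ) ∣ ip w' v' ∧ ip w' v' ≠ 0) := by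
    intro c
    have d1 : (a : ℤ) ∣ 2 * (q.2 * t.1) := by
      have := dvd_add c1 c
      have e0 : q.1 * t.2 + q.2 * t.1 + (q.2 * t.1 - q.1 * t.2) = 2 * (q.2 * t.1) := by ring
      rwa [e0] at this
    have d2 : (a : ℤ) ∣ 2 * (q.1 * t.2) := by
      have := dvd_sub c1 c
      have e0 : q.1 * t.2 + q.2 * t.1 - (q.2 * t.1 - q.1 * t.2) = 2 * (q.1 * t.2) := by ring
      rwa [e0] at this
    have d3 := (hp.dvd_or_dvd d1).resolve_left ha2'
    have d4 := (hp.dvd_or_dvd d2).resolve_left ha2'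
    rcases hp.dvd_or_dvd d3 with x | x <;> rcases hp.dvd_or_dvd d4 with y | y
    · exact (hA y x).elim
    · exact hC2 x y
    · exact hC1 y x
    · exact (hB x y).elim
  have himag : (a : ℤ) ∣ q.1 * t.1 + q.2 * t.2 →
    (∃ e2 v', nm e2 = 1 ∧ gm g v = gm G v' ∧ gm f (gm g (cjg v)) = gm e2 (gm G (cjg v'))) ∨
    (∃ e2 g', nm e2 = 1 ∧ gm g v = gm V g' ∧ gm f (gm g (cjg v)) = gm e2 (gm g' (cjg V))) ∨
    (∃ e2 g' v', nm e2 = 1 ∧ gm g v = gm g' v' ∧ gm f (gm g (cjg v)) = gm e2 (gm g' (cjg v')) ∧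
      ∃ w ∈ FV G, ∃ w' ∈ FV V,
        (a : ℤ) ∣ ip w g' ∧ ip w g' ≠ 0 ∧ (a : ℤ) ∣ ip w' v' ∧ ip w' v' ≠ 0) := by
    intro c
    have d3 : (a : ℤ) ∣ (q.1 + q.2) * (t.1 + t.2) := by
      have := dvd_add c1 c
      have e0 : q.1 * t.2 + q.2 * t.1 + (q.1 * t.1 + q.2 * t.2) = (q.1 + q.2) * (t.1 + t.2) := by ring
      rwa [e0] at this
    have d4 : (a : ℤ) ∣ (q.1 - q.2) * (t.1 - t.2) := by
      have := dvd_sub c c1
      have e0 : q.1 * t.1 + q.2 * t.2 - (q.1 * t.2 + q.2 * t.1) = (q.1 - q.2) * (t.1 - t.2) := by ring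
      rwa [e0] at this
    have hboth : ∀ u : ℤ × ℤ, (a : ℤ) ∣ u.1 + u.2 → (a : ℤ) ∣ u.1 - u.2 → (a : ℤ) ∣ u.1 ∧ (a : ℤ) ∣ u.2 := by
      intro u x y
      constructor
      · have : (a : ℤ) ∣ 2 * u.1 := by
          have := dvd_add x y
          have e0 : u.1 + u.2 + (u.1 - u.2) = 2 * u.1 := by ring
          rwa [e0] at this
        exact (hp.dvd_or_dvd this).resolve_left ha2'
      · have : (a : ℤ) ∣ 2 * u.2 := by
          have := dvd_sub x y
          have e0 : u.1 + u.2 - (u.1 - u.2) = 2 * u.2 := by ring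
          rwa [e0] at this
        exact (hp.dvd_or_dvd this).resolve_left ha2'
    rcases hp.dvd_or_dvd d3 with x | x <;> rcases hp.dvd_or_dvd d4 with y | y
    · exact (hA (hboth q x y).1 (hboth q x y).2).elim
    · refine Or.inr (Or.inr ⟨f, g, v, hf, rfl, rfl, (G.1 - G.2, G.1 + G.2), by simp [FV],
        (V.1 + V.2, V.2 - V.1), by simp [FV], ?_⟩)
      rw [f3, f4']
      exact ⟨x, (hodd1 q hqo).1, y, (hodd1 t hto).2⟩
    · refine Or.inr (Or.inr ⟨f, g, v, hf, rfl, rfl, (G.1 + G.2, G.2 - G.1), by simp [FV],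
        (V.1 - V.2, V.1 + V.2), by simp [FV], ?_⟩)
      rw [f4, f3']
      exact ⟨y, (hodd1 q hqo).2, x, (hodd1 t hto).1⟩
    · exact (hB (hboth t x y).1 (hboth t x y).2).elim
  rcases unit_cases hη with h | h | h | h
  · rw [h] at c2
    apply hreal
    have : (gm (1, 0) (gm q (cjg t))).2 = q.2 * t.1 - q.1 * t.2 := by unfold gm cjg; simp only; ring
    rwa [this] at c2
  · rw [h] at c2
    apply hreal
    have : (gm (-1, 0) (gm q (cjg t))).2 = -(q.2 * t.1 - q.1 * t.2) := by unfold gm cjg; simp only; ring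
    rw [this] at c2
    exact (dvd_neg.1 c2)
  · rw [h] at c2
    apply himag
    have : (gm (0, 1) (gm q (cjg t))).2 = q.1 * t.1 + q.2 * t.2 := by unfold gm cjg; simp only; ring
    rwa [this] at c2
  · rw [h] at c2
    apply himag
    have : (gm (0, -1) (gm q (cjg t))).2 = -(q.1 * t.1 + q.2 * t.2) := by unfold gm cjg; simp only; ring
    rw [this] at c2
    exact (dvd_neg.1 c2)

end Pool.Agent.W33f
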