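import Pool.Agent.W_d33b62f_h37.Kc7

/-!
# MP_d33b62_nt, full question (helper56): the box lemma

The theorem is `Pool.Agent.W33f.boxW` in `Kc7.lean`.
-/
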