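import Pool.Agent.W_d33b62f_h37.Kl

/-!
# MP_d33b62_nt, full question (helper56): exponential sums over `x y = H` modulo `c`

For every modulus `c` and every `H` (not necessarily a unit), by the fourth moment method:
`|KH(u, v)|^4 ≤ 2 (u, v, c) (H, c)^4 d(c)^3 c^3`.
-/

set_option autoImplicit false

noncomputable section

open Finset

namespace Pool.Agent.W33f

variable {c : ℕ} [NeZero c]

/-- the points `(x, y)` with `x y = H` modulo `c` -/
def PH (c : ℕ) [NeZero c] (H : ZMod c) : Finset (ZMod c × ZMod c) :=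
  univ.filter (fun p => p.1 * p.2 = H)

/-- the exponential sum over the points `x y = H` -/
def KH (c : ℕ) [NeZero c] (H u v : ZMod c) : ℂ :=
  ∑ p ∈ PH c H, ZMod.stdAddChar (u * p.1 + v * p.2)

/-- quadruples of points -/
abbrev Q4H (c : ℕ) := (ZMod c × ZMod c) × (ZMod c × ZMod c) × (ZMod c × ZMod c) × (ZMod c × ZMod c)

def qA (q : Q4H c) : ZMod c := q.1.1 + q.2.1.1 - q.2.2.1.1 - q.2.2.2.1

def qB (q : Q4H c) : ZMod c := q.1.2 + q.2.1.2 - q.2.2.1.2 - q.2.2.2.2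

omit [NeZero c] in
lemma key_identityH (H x1 x2 x3 x4 y1 y2 y3 y4 : ZMod c)
    (e1 : x1 * y1 = H) (e2 : x2 * y2 = H) (e3 : x3 * y3 = H) (e4 : x4 * y4 = H)
    (h1 : x1 + x2 - x3 - x4 = 0) (h2 : y1 + y2 - y3 - y4 = 0) :
    H * ((x1 + x2) * (x3 - x1) * (x2 - x3)) = 0 := by
  have ha4 : x4 = x1 + x2 - x3 := by linear_combination -h1
  have t4 : x3 + x4 = x1 + x2 := by linear_combination -h1
  -- multiply the second equation by x1 x2 x3 x4
  have hs : H * ((x1 + x2) * (x3 * x4 - x1 * x2)) = 0 := by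
    have m1 : x1 * x2 * x3 * x4 * (y1 + y2) = H * ((x1 + x2) * (x3 * x4)) := by
      linear_combination (x2 * x3 * x4) * e1 + (x1 * x3 * x4) * e2
    have m2 : x1 * x2 * x3 * x4 * (y3 + y4) = H * ((x3 + x4) * (x1 * x2)) := by
      linear_combination (x1 * x2 * x4) * e3 + (x1 * x2 * x3) * e4
    have m3 : y1 + y2 = y3 + y4 := by linear_combination h2
    calc H * ((x1 + x2) * (x3 * x4 - x1 * x2))
        = H * ((x1 + x2) * (x3 * x4)) - H * ((x1 + x2) * (x1 * x2)) := by ring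
      _ = x1 * x2 * x3 * x4 * (y1 + y2) - H * ((x3 + x4) * (x1 * x2)) := by rw [m1, t4]
      _ = 0 := by rw [m3, m2]; ring
  rw [ha4] at hs
  linear_combination hs

/-- the number of `y` with `x y = H` is at most `(H, c)` -/
lemma card_mul_eq_le (H x : ZMod c) :
    ((univ : Finset (ZMod c)).filter (fun y => x * y = H)).card ≤ Nat.gcd H.val c := by
  classical
  rcases ((univ : Finset (ZMod c)).filter (fun y => x * y = H)).eq_empty_or_nonempty with h | ⟨y0, hy0⟩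
  · rw [h]; simp
  · have h0 : x * y0 = H := (Finset.mem_filter.mp hy0).2
    have hdvd : Nat.gcd x.val c ∣ Nat.gcd H.val c := by
      refine Nat.dvd_gcd ?_ (Nat.gcd_dvd_right _ _)
      have e : H.val = (x.val * y0.val) % c := by rw [← h0, ZMod.val_mul]
      rw [e]
      exact (Nat.dvd_mod_iff (Nat.gcd_dvd_right _ _)).2 (Dvd.dvd.mul_right (Nat.gcd_dvd_left _ _) _)
    have hpos : 0 < Nat.gcd H.val c := D33K.gcd_val_pos H
    refine le_trans ?_ (Nat.le_of_dvd hpos hdvd)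
    refine le_trans (Finset.card_le_card ?_) (D33K.card_nsmul_eq_le (c := c) (Nat.gcd x.val c)
      (D33K.gcd_val_pos x) ((Nat.gcd x.val c) • y0))
    intro y hy
    have h1 : x * y = H := (Finset.mem_filter.mp hy).2
    have h2 : (y - y0) * x = 0 := by linear_combination h1 - h0
    have h3 := D33K.gcd_nsmul_eq_zero x (y - y0) h2
    refine Finset.mem_filter.mpr ⟨Finset.mem_univ _, ?_⟩
    rw [nsmul_sub] at h3
    exact sub_eq_zero.mp h3

/-- the solutions of the system for the fourth moment -/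
def Sol (H : ZMod c) : Finset (Q4H c) :=
  (PH c H ×ˢ PH c H ×ˢ PH c H ×ˢ PH c H).filter (fun q => qA q = 0 ∧ qB q = 0)

lemma card_Sol_le (H : ZMod c) :
    (Sol H).card ≤ 2 * (Nat.gcd H.val c) ^ 4 * (c * c.divisors.card) ^ 2 := by
  classical
  set G := Nat.gcd H.val c with hG
  have hGpos : 0 < G := D33K.gcd_val_pos H
  -- target: (B, C, x1), with y1, y2, y3
  let T : Finset ((ZMod c × ZMod c × ZMod c) × (ZMod c × ZMod c × ZMod c)) :=
    univ.filter (fun t => H * ((2 * t.1.2.2 + (t.1.1 + t.1.2.1)) * t.1.1 * t.1.2.1) = 0 ∧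
      t.1.2.2 * t.2.1 = H ∧ (t.1.1 + t.1.2.1 + t.1.2.2) * t.2.2.1 = H ∧ (t.1.1 + t.1.2.2) * t.2.2.2 = H)
  have hle : (Sol H).card ≤ T.card := by
    refine Finset.card_le_card_of_injOn
      (fun q => ((q.2.2.1.1 - q.1.1, q.2.1.1 - q.2.2.1.1, q.1.1), (q.1.2, q.2.1.2, q.2.2.1.2))) ?_ ?_
    · rintro ⟨⟨x1, y1⟩, ⟨x2, y2⟩, ⟨x3, y3⟩, ⟨x4, y4⟩⟩ hq
      have hq := Finset.mem_filter.mp (Finset.mem_coe.mp hq)
      have hq1 := hq.1
      simp only [Finset.mem_product, PH, Finset.mem_filter, Finset.mem_univ, true_and] at hq1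
      have hq2 := hq.2
      simp only [qA, qB] at hq2
      obtain ⟨e1, e2, e3, e4⟩ := hq1
      have hk := key_identityH H x1 x2 x3 x4 y1 y2 y3 y4 e1 e2 e3 e4 hq2.1 hq2.2
      refine Finset.mem_coe.mpr (Finset.mem_filter.mpr ⟨Finset.mem_univ _, ?_, e1, ?_, ?_⟩)
      · simp only
        linear_combination hk
      · simp only
        linear_combination e2
      · simp only
        linear_combination e3
    · rintro ⟨⟨x1, y1⟩, ⟨x2, y2⟩, ⟨x3, y3⟩, ⟨x4, y4⟩⟩ hq ⟨⟨z1, w1⟩, ⟨z2, w2⟩, ⟨z3, w3⟩, ⟨z4, w4⟩⟩ hz h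
      have hq := (Finset.mem_filter.mp (Finset.mem_coe.mp hq)).2
      have hz := (Finset.mem_filter.mp (Finset.mem_coe.mp hz)).2
      simp only [qA, qB] at hq hz
      simp only [Prod.mk.injEq] at h
      obtain ⟨⟨h1, h2, h3⟩, h4, h5, h6⟩ := h
      subst h3 h4 h5 h6
      have e3 : x3 = z3 := by linear_combination h1
      subst e3
      have e2 : x2 = z2 := by linear_combination h2
      subst e2
      have e4 : x4 = z4 := by linear_combination hz.1 - hq.1
      have f4 : y4 = w4 := by linear_combination hz.2 - hq.2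
      rw [e4, f4]
  refine hle.trans ?_
  -- count
  have hcount : T.card ≤ ∑ B : ZMod c, ∑ C : ZMod c,
      2 * G ^ 4 * (Nat.gcd B.val c * Nat.gcd C.val c) := by
    have h1 : T.card = ∑ B : ZMod c, ∑ C : ZMod c, ∑ x : ZMod c,
        ((univ : Finset (ZMod c × ZMod c × ZMod c)).filter
          (fun t => H * ((2 * x + (B + C)) * B * C) = 0 ∧ x * t.1 = H ∧ (B + C + x) * t.2.1 = H ∧
            (B + x) * t.2.2 = H)).card := by
      simp only [T]
      rw [Finset.card_filter, Fintype.sum_prod_type, Fintype.sum_prod_type]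
      refine Finset.sum_congr rfl fun B _ => ?_
      rw [Fintype.sum_prod_type]
      refine Finset.sum_congr rfl fun C _ => ?_
      refine Finset.sum_congr rfl fun x _ => ?_
      rw [Finset.card_filter]
    rw [h1]
    refine Finset.sum_le_sum fun B _ => Finset.sum_le_sum fun C _ => ?_
    have h2 : ∀ x : ZMod c, ((univ : Finset (ZMod c × ZMod c × ZMod c)).filter
          (fun t => H * ((2 * x + (B + C)) * B * C) = 0 ∧ x * t.1 = H ∧ (B + C + x) * t.2.1 = H ∧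
            (B + x) * t.2.2 = H)).card
        ≤ if H * ((2 * x + (B + C)) * B * C) = 0 then G ^ 3 else 0 := by
      intro x
      by_cases hx : H * ((2 * x + (B + C)) * B * C) = 0
      · rw [if_pos hx]
        have hsub : ((univ : Finset (ZMod c × ZMod c × ZMod c)).filter
          (fun t => H * ((2 * x + (B + C)) * B * C) = 0 ∧ x * t.1 = H ∧ (B + C + x) * t.2.1 = H ∧
            (B + x) * t.2.2 = H)) ⊆
            (univ.filter (fun y => x * y = H)) ×ˢ (univ.filter (fun y => (B + C + x) * y = H)) ×ˢ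
              (univ.filter (fun y => (B + x) * y = H)) := by
          intro t ht
          have ht := (Finset.mem_filter.mp ht).2
          simp only [Finset.mem_product, Finset.mem_filter, Finset.mem_univ, true_and]
          exact ⟨ht.2.1, ht.2.2.1, ht.2.2.2⟩
        refine (Finset.card_le_card hsub).trans ?_
        rw [Finset.card_product, Finset.card_product]
        calc _ ≤ G * (G * G) := Nat.mul_le_mul (card_mul_eq_le H x)
              (Nat.mul_le_mul (card_mul_eq_le H _) (card_mul_eq_le H _))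
          _ = G ^ 3 := by ring
      · rw [if_neg hx]
        rw [Nat.le_zero, Finset.card_eq_zero, Finset.filter_eq_empty_iff]
        intro t _ ht
        exact hx ht.1
    refine (Finset.sum_le_sum fun x _ => h2 x).trans ?_
    rw [← Finset.sum_filter, Finset.sum_const, smul_eq_mul]
    have hpos : 0 < 2 * (G * (Nat.gcd B.val c * Nat.gcd C.val c)) := by
      have := D33K.gcd_val_pos B
      have := D33K.gcd_val_pos C
      positivity
    have h3 : ((univ : Finset (ZMod c)).filter (fun x => H * ((2 * x + (B + C)) * B * C) = 0)).card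
        ≤ 2 * (G * (Nat.gcd B.val c * Nat.gcd C.val c)) := by
      refine le_trans (Finset.card_le_card ?_) (D33K.card_nsmul_eq_le (c := c)
        (2 * (G * (Nat.gcd B.val c * Nat.gcd C.val c))) hpos
        (-((G * (Nat.gcd B.val c * Nat.gcd C.val c)) • (B + C))))
      intro x hx
      have hx := (Finset.mem_filter.mp hx).2
      have g0 := D33K.gcd_nsmul_eq_zero H ((2 * x + (B + C)) * B * C) (by linear_combination hx)
      have g1 := D33K.gcd_nsmul_eq_zero C ((Nat.gcd H.val c) • ((2 * x + (B + C)) * B)) (by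
        rw [← g0]; simp only [nsmul_eq_mul]; ring)
      have g2 := D33K.gcd_nsmul_eq_zero B ((Nat.gcd C.val c) • ((Nat.gcd H.val c) • (2 * x + (B + C))))
        (by rw [← g1]; simp only [nsmul_eq_mul]; ring)
      refine Finset.mem_filter.mpr ⟨Finset.mem_univ _, ?_⟩
      rw [← hG] at g2
      simp only [nsmul_eq_mul] at g2 ⊢
      push_cast at g2 ⊢
      linear_combination g2
    calc _ ≤ 2 * (G * (Nat.gcd B.val c * Nat.gcd C.val c)) * G ^ 3 := Nat.mul_le_mul_right _ h3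
      _ = 2 * G ^ 4 * (Nat.gcd B.val c * Nat.gcd C.val c) := by ring
  refine hcount.trans ?_
  have h2 : ∑ B : ZMod c, ∑ C : ZMod c, 2 * G ^ 4 * (Nat.gcd B.val c * Nat.gcd C.val c)
      = 2 * G ^ 4 * (∑ B : ZMod c, Nat.gcd B.val c) ^ 2 := by
    rw [sq, Finset.sum_mul_sum, Finset.mul_sum]
    refine Finset.sum_congr rfl fun B _ => ?_
    rw [Finset.mul_sum]
  rw [h2]
  exact Nat.mul_le_mul_left _ (Nat.pow_le_pow_left D33K.sum_gcd_le 2)

lemma four_sumF {α : Type*} (s : Finset α) (f g : α → ℂ) :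
    (∑ x ∈ s, f x) * ((∑ x ∈ s, f x) * ((∑ x ∈ s, g x) * (∑ x ∈ s, g x)))
      = ∑ q ∈ s ×ˢ s ×ˢ s ×ˢ s, f q.1 * (f q.2.1 * (g q.2.2.1 * g q.2.2.2)) := by
  rw [Finset.sum_product]
  simp_rw [Finset.sum_product]
  simp_rw [← Finset.mul_sum, ← Finset.sum_mul]

lemma KH_pow4 (H u v : ZMod c) :
    ((‖KH c H u v‖ ^ 4 : ℝ) : ℂ) = ∑ q ∈ PH c H ×ˢ PH c H ×ˢ PH c H ×ˢ PH c H,
      ZMod.stdAddChar (u * qA q) * ZMod.stdAddChar (v * qB q) := by
  have hconj : (starRingEnd ℂ) (KH c H u v)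
      = ∑ p ∈ PH c H, ZMod.stdAddChar (-(u * p.1 + v * p.2)) := by
    rw [KH, map_sum]
    refine Finset.sum_congr rfl fun x _ => ?_
    rw [AddChar.map_neg_eq_conj]
  have h4 : ((‖KH c H u v‖ ^ 4 : ℝ) : ℂ) = KH c H u v * (KH c H u v * ((starRingEnd ℂ) (KH c H u v)
      * (starRingEnd ℂ) (KH c H u v))) := by
    have h2 : ((‖KH c H u v‖ ^ 2 : ℝ) : ℂ) = KH c H u v * (starRingEnd ℂ) (KH c H u v) := by
      rw [Complex.mul_conj, Complex.normSq_eq_norm_sq]
    have : ((‖KH c H u v‖ ^ 4 : ℝ) : ℂ)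
        = ((‖KH c H u v‖ ^ 2 : ℝ) : ℂ) * ((‖KH c H u v‖ ^ 2 : ℝ) : ℂ) := by
      push_cast; ring
    rw [this, h2]; ring
  rw [h4, hconj]
  simp only [KH]
  rw [four_sumF]
  refine Finset.sum_congr rfl fun q _ => ?_
  simp only [← AddChar.map_add_eq_mul, qA, qB]
  congr 1
  ring

lemma fourth_momentH (H : ZMod c) :
    ∑ u : ZMod c, ∑ v : ZMod c, ‖KH c H u v‖ ^ 4 = (c : ℝ) ^ 2 * (Sol H).card := by
  classical
  set P := PH c H ×ˢ PH c H ×ˢ PH c H ×ˢ PH c H with hP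
  have h : ((∑ u : ZMod c, ∑ v : ZMod c, ‖KH c H u v‖ ^ 4 : ℝ) : ℂ)
      = ((c : ℝ) ^ 2 * (Sol H).card : ℝ) := by
    rw [Complex.ofReal_sum]
    calc ∑ u : ZMod c, ((∑ v : ZMod c, ‖KH c H u v‖ ^ 4 : ℝ) : ℂ)
        = ∑ u : ZMod c, ∑ v : ZMod c, ∑ q ∈ P,
            ZMod.stdAddChar (u * qA q) * ZMod.stdAddChar (v * qB q) := by
          refine Finset.sum_congr rfl fun u _ => ?_
          rw [Complex.ofReal_sum]
          exact Finset.sum_congr rfl fun v _ => KH_pow4 H u v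
      _ = ∑ u : ZMod c, ∑ q ∈ P, ∑ v : ZMod c,
            ZMod.stdAddChar (u * qA q) * ZMod.stdAddChar (v * qB q) := by
          exact Finset.sum_congr rfl fun u _ => Finset.sum_comm
      _ = ∑ q ∈ P, ∑ u : ZMod c, ∑ v : ZMod c,
            ZMod.stdAddChar (u * qA q) * ZMod.stdAddChar (v * qB q) := Finset.sum_comm
      _ = ∑ q ∈ P, (if qA q = 0 ∧ qB q = 0 then ((c : ℂ) ^ 2) else 0) := by
          refine Finset.sum_congr rfl fun q _ => ?_
          rw [← Finset.sum_mul_sum, D33K.sum_char, D33K.sum_char]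
          by_cases h1 : qA q = 0 <;> by_cases h2 : qB q = 0 <;> simp [h1, h2, sq]
      _ = (((c : ℝ) ^ 2 * (Sol H).card : ℝ) : ℂ) := by
          rw [← Finset.sum_filter, Finset.sum_const, nsmul_eq_mul]
          simp only [Sol, ← hP]
          push_cast
          ring
  exact_mod_cast h

lemma KH_unit (w : (ZMod c)ˣ) (H u v : ZMod c) :
    KH c H ((w : ZMod c) * u) (((w⁻¹ : (ZMod c)ˣ) : ZMod c) * v) = KH c H u v := by
  classical
  simp only [KH]
  have ei : (w : ZMod c) * ((w⁻¹ : (ZMod c)ˣ) : ZMod c) = 1 := Units.mul_inv w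
  refine Finset.sum_bij' (fun p _ => ((w : ZMod c) * p.1, ((w⁻¹ : (ZMod c)ˣ) : ZMod c) * p.2))
    (fun p _ => (((w⁻¹ : (ZMod c)ˣ) : ZMod c) * p.1, (w : ZMod c) * p.2)) ?_ ?_ ?_ ?_ ?_
  · intro p hp
    have hp := (Finset.mem_filter.mp hp).2
    refine Finset.mem_filter.mpr ⟨Finset.mem_univ _, ?_⟩
    simp only
    linear_combination hp + p.1 * p.2 * ei
  · intro p hp
    have hp := (Finset.mem_filter.mp hp).2
    refine Finset.mem_filter.mpr ⟨Finset.mem_univ _, ?_⟩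
    simp only
    linear_combination hp + p.1 * p.2 * ei
  · intro p _
    apply Prod.ext
    · simp only
      linear_combination p.1 * ei
    · simp only
      linear_combination p.2 * ei
  · intro p _
    apply Prod.ext
    · simp only
      linear_combination p.1 * ei
    · simp only
      linear_combination p.2 * ei
  · intro p _
    congr 1
    simp only
    ring

/-- **The bound for the exponential sums over `x y = H`, all moduli, all `H`.** -/
theorem KH_pow_four_le (H u v : ZMod c) :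
    ‖KH c H u v‖ ^ 4 ≤ 2 * (D33K.gcd3 u v : ℝ) * ((Nat.gcd H.val c : ℕ) : ℝ) ^ 4
      * (c.divisors.card : ℝ) ^ 3 * (c : ℝ) ^ 3 := by
  classical
  have hc : 0 < c := Nat.pos_of_ne_zero (NeZero.ne c)
  have hfib : (Nat.totient c : ℝ) * ‖KH c H u v‖ ^ 4
      ≤ (D33K.gcd3 u v : ℝ) * ∑ u' : ZMod c, ∑ v' : ZMod c, ‖KH c H u' v'‖ ^ 4 := by
    calc (Nat.totient c : ℝ) * ‖KH c H u v‖ ^ 4
        = ∑ w : (ZMod c)ˣ, ‖KH c H ((w : ZMod c) * u) (((w⁻¹ : (ZMod c)ˣ) : ZMod c) * v)‖ ^ 4 := by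
          simp only [KH_unit]
          rw [Finset.sum_const, nsmul_eq_mul, Finset.card_univ, ZMod.card_units_eq_totient]
      _ = ∑ w : (ZMod c)ˣ, ∑ p : ZMod c × ZMod c,
            (if ((w : ZMod c) * u, ((w⁻¹ : (ZMod c)ˣ) : ZMod c) * v) = p
              then ‖KH c H p.1 p.2‖ ^ 4 else 0) := by
          refine Finset.sum_congr rfl fun w _ => ?_
          rw [Finset.sum_ite_eq]
          simp
      _ = ∑ p : ZMod c × ZMod c, ∑ w : (ZMod c)ˣ,
            (if ((w : ZMod c) * u, ((w⁻¹ : (ZMod c)ˣ) : ZMod c) * v) = p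
              then ‖KH c H p.1 p.2‖ ^ 4 else 0) := Finset.sum_comm
      _ ≤ ∑ p : ZMod c × ZMod c, (D33K.gcd3 u v : ℝ) * ‖KH c H p.1 p.2‖ ^ 4 := by
          refine Finset.sum_le_sum fun p _ => ?_
          rw [← Finset.sum_filter, Finset.sum_const, nsmul_eq_mul]
          refine mul_le_mul_of_nonneg_right ?_ (by positivity)
          exact_mod_cast D33K.fibre_le u v p.1 p.2
      _ = (D33K.gcd3 u v : ℝ) * ∑ u' : ZMod c, ∑ v' : ZMod c, ‖KH c H u' v'‖ ^ 4 := by
          rw [← Finset.mul_sum, Fintype.sum_prod_type]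
  rw [fourth_momentH] at hfib
  have hN : ((Sol H).card : ℝ) ≤ 2 * ((Nat.gcd H.val c : ℕ) : ℝ) ^ 4
      * ((c : ℝ) * c.divisors.card) ^ 2 := by exact_mod_cast card_Sol_le H
  have hg : (0 : ℝ) ≤ D33K.gcd3 u v := by positivity
  have hphi : (0 : ℝ) < Nat.totient c := by exact_mod_cast Nat.totient_pos.2 hc
  have hle : (c : ℝ) ≤ Nat.totient c * (c.divisors.card : ℝ) := by
    exact_mod_cast le_totient_mul_divisors c hc
  have h2 : (Nat.totient c : ℝ) * ‖KH c H u v‖ ^ 4 ≤ (Nat.totient c : ℝ)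
      * (2 * (D33K.gcd3 u v : ℝ) * ((Nat.gcd H.val c : ℕ) : ℝ) ^ 4
        * (c.divisors.card : ℝ) ^ 3 * (c : ℝ) ^ 3) := by
    refine hfib.trans ?_
    calc (D33K.gcd3 u v : ℝ) * ((c : ℝ) ^ 2 * ((Sol H).card : ℝ))
        ≤ (D33K.gcd3 u v : ℝ) * ((c : ℝ) ^ 2 * (2 * ((Nat.gcd H.val c : ℕ) : ℝ) ^ 4
            * ((c : ℝ) * c.divisors.card) ^ 2)) := by gcongr
      _ = (2 * (D33K.gcd3 u v : ℝ) * ((Nat.gcd H.val c : ℕ) : ℝ) ^ 4
            * (c.divisors.card : ℝ) ^ 2 * (c : ℝ) ^ 3) * c := by ring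
      _ ≤ (2 * (D33K.gcd3 u v : ℝ) * ((Nat.gcd H.val c : ℕ) : ℝ) ^ 4
            * (c.divisors.card : ℝ) ^ 2 * (c : ℝ) ^ 3) * (Nat.totient c * (c.divisors.card : ℝ)) := by
          gcongr
      _ = _ := by ring
  exact le_of_mul_le_mul_left h2 hphi

/-- the bound without powers on the left -/
theorem KH_le (H u v : ZMod c) :
    ‖KH c H u v‖ ≤ 2 * ((Nat.gcd H.val c : ℕ) : ℝ) * (c.divisors.card : ℝ) * (c : ℝ) ^ (3 / 4 : ℝ)
      * (D33K.gcd3 u v : ℝ) ^ (1 / 4 : ℝ) := by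
  have hm : 0 < c := Nat.pos_of_ne_zero (NeZero.ne c)
  have h := KH_pow_four_le H u v
  set g : ℝ := (D33K.gcd3 u v : ℝ) with hgdef
  set G : ℝ := ((Nat.gcd H.val c : ℕ) : ℝ) with hGdef
  have hg : (0 : ℝ) ≤ g := Nat.cast_nonneg _
  have hG : (0 : ℝ) ≤ G := Nat.cast_nonneg _
  have hd : (1 : ℝ) ≤ (c.divisors.card : ℝ) := by
    have : 0 < c.divisors.card := Finset.card_pos.2 ⟨1, Nat.mem_divisors.2 ⟨one_dvd _, hm.ne'⟩⟩
    exact_mod_cast this
  have hm0 : (0 : ℝ) ≤ (c : ℝ) := Nat.cast_nonneg _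
  have hR : 0 ≤ 2 * G * (c.divisors.card : ℝ) * (c : ℝ) ^ (3 / 4 : ℝ) * g ^ (1 / 4 : ℝ) := by
    positivity
  refine le_of_pow_le_pow_left₀ (n := 4) (by norm_num) hR (h.trans ?_)
  have e1 : ((c : ℝ) ^ (3 / 4 : ℝ)) ^ 4 = (c : ℝ) ^ 3 := by
    rw [← Real.rpow_natCast, ← Real.rpow_mul hm0, ← Real.rpow_natCast]
    norm_num
  have e2 : (g ^ (1 / 4 : ℝ)) ^ 4 = g := by
    rw [← Real.rpow_natCast, ← Real.rpow_mul hg]
    norm_num
  calc 2 * g * G ^ 4 * (c.divisors.card : ℝ) ^ 3 * (c : ℝ) ^ 3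
      ≤ 16 * g * G ^ 4 * (c.divisors.card : ℝ) ^ 4 * (c : ℝ) ^ 3 := by
        have h3 : (c.divisors.card : ℝ) ^ 3 ≤ (c.divisors.card : ℝ) ^ 4 :=
          pow_le_pow_right₀ hd (by norm_num)
        have h4 : 0 ≤ g * G ^ 4 * (c.divisors.card : ℝ) ^ 4 * (c : ℝ) ^ 3 := by positivity
        calc 2 * g * G ^ 4 * (c.divisors.card : ℝ) ^ 3 * (c : ℝ) ^ 3
            ≤ 2 * g * G ^ 4 * (c.divisors.card : ℝ) ^ 4 * (c : ℝ) ^ 3 := by gcongr
          _ ≤ 16 * g * G ^ 4 * (c.divisors.card : ℝ) ^ 4 * (c : ℝ) ^ 3 := by nlinarith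
    _ = (2 * G * (c.divisors.card : ℝ) * (c : ℝ) ^ (3 / 4 : ℝ) * g ^ (1 / 4 : ℝ)) ^ 4 := by
        rw [mul_pow, mul_pow, mul_pow, mul_pow, e1, e2]; ring

end Pool.Agent.W33f
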