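import Pool.Agent.W_d33b62f_h37.Kc1
import Pool.Agent.W_aaa0df_h65.PV2

/-!
# MP_d33b62_nt, full question (helper56): completion for one modulus `c`, classes modulo `Q`
-/

set_option autoImplicit false

noncomputable section

open Finset

namespace Pool.Agent.W33f

variable (c Q : ℕ) [NeZero c] [NeZero Q]

lemma psi_lift (k : ℤ) : (ZMod.stdAddChar ((k : ℤ) : ZMod c) : ℂ)
    = ZMod.stdAddChar (((Q : ℤ) * k : ℤ) : ZMod (c * Q)) := by
  have hc : (c : ℂ) ≠ 0 := by exact_mod_cast NeZero.ne c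
  have hQ : (Q : ℂ) ≠ 0 := by exact_mod_cast NeZero.ne Q
  rw [ZMod.stdAddChar_coe, ZMod.stdAddChar_coe]
  congr 1
  push_cast
  field_simp

lemma sum_r (z : ZMod (c * Q)) :
    ∑ r ∈ range Q, (ZMod.stdAddChar (((r * c : ℕ) : ZMod (c * Q)) * z) : ℂ)
      = if (c : ZMod (c * Q)) * z = 0 then (Q : ℂ) else 0 := by
  have h1 : ∀ r : ℕ, (ZMod.stdAddChar (((r * c : ℕ) : ZMod (c * Q)) * z) : ℂ)
      = (ZMod.stdAddChar ((c : ZMod (c * Q)) * z) : ℂ) ^ r := by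
    intro r
    rw [← AddChar.map_nsmul_eq_pow]
    congr 1
    rw [nsmul_eq_mul]
    push_cast
    ring
  simp_rw [h1]
  by_cases hz : (c : ZMod (c * Q)) * z = 0
  · rw [if_pos hz, hz]
    simp
  · rw [if_neg hz]
    have hne : (ZMod.stdAddChar ((c : ZMod (c * Q)) * z) : ℂ) ≠ 1 := by
      intro h
      apply hz
      apply ZMod.injective_stdAddChar
      rw [h, AddChar.map_zero_eq_one]
    rw [geom_sum_eq hne]
    have : (ZMod.stdAddChar ((c : ZMod (c * Q)) * z) : ℂ) ^ Q = 1 := by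
      rw [← AddChar.map_nsmul_eq_pow]
      have : Q • ((c : ZMod (c * Q)) * z) = 0 := by
        rw [nsmul_eq_mul]
        have h2 : ((c * Q : ℕ) : ZMod (c * Q)) = 0 := ZMod.natCast_self _
        push_cast at h2
        linear_combination z * h2
      rw [this, AddChar.map_zero_eq_one]
    rw [this, sub_self, zero_div]

lemma class_sum (w : ZMod (c * Q)) (f : ZMod (c * Q) → ℂ) :
    (Q : ℂ) * ∑ i ∈ range c, f (w + ((Q * i : ℕ) : ZMod (c * Q)))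
      = ∑ r ∈ range Q, ∑ x : ZMod (c * Q), f x * ZMod.stdAddChar (((r * c : ℕ) : ZMod (c * Q)) * (x - w)) := by
  classical
  have hc : 0 < c := Nat.pos_of_ne_zero (NeZero.ne c)
  have hQ : 0 < Q := Nat.pos_of_ne_zero (NeZero.ne Q)
  rw [Finset.sum_comm]
  simp_rw [← Finset.mul_sum, sum_r]
  have h1 : ∑ x : ZMod (c * Q), f x * (if (c : ZMod (c * Q)) * (x - w) = 0 then (Q : ℂ) else 0)
      = (Q : ℂ) * ∑ x ∈ univ.filter (fun x : ZMod (c * Q) => (c : ZMod (c * Q)) * (x - w) = 0), f x := by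
    rw [Finset.sum_filter, Finset.mul_sum]
    refine Finset.sum_congr rfl fun x _ => ?_
    split_ifs <;> ring
  rw [h1]
  congr 1
  refine Finset.sum_bij (fun i _ => w + ((Q * i : ℕ) : ZMod (c * Q))) ?_ ?_ ?_ ?_
  · intro i _
    refine Finset.mem_filter.mpr ⟨Finset.mem_univ _, ?_⟩
    have h2 : ((c * Q : ℕ) : ZMod (c * Q)) = 0 := ZMod.natCast_self _
    push_cast at h2 ⊢
    linear_combination (i : ZMod (c * Q)) * h2
  · intro i hi j hj hij
    rw [mem_range] at hi hj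
    have h2 : ((Q * i : ℕ) : ZMod (c * Q)) = ((Q * j : ℕ) : ZMod (c * Q)) := by
      simpa using hij
    rw [ZMod.natCast_eq_natCast_iff'] at h2
    have hi' : Q * i < c * Q := by
      rw [mul_comm c Q]; exact Nat.mul_lt_mul_of_pos_left hi hQ
    have hj' : Q * j < c * Q := by
      rw [mul_comm c Q]; exact Nat.mul_lt_mul_of_pos_left hj hQ
    rw [Nat.mod_eq_of_lt hi', Nat.mod_eq_of_lt hj'] at h2
    exact Nat.eq_of_mul_eq_mul_left hQ h2
  · intro x hx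
    have hx := (Finset.mem_filter.mp hx).2
    set z := x - w with hz
    have h3 : ((c * z.val : ℕ) : ZMod (c * Q)) = 0 := by
      push_cast
      rw [ZMod.natCast_zmod_val]
      exact hx
    rw [ZMod.natCast_eq_zero_iff] at h3
    have h4 : Q ∣ z.val := Nat.dvd_of_mul_dvd_mul_left hc h3
    obtain ⟨i, hi⟩ := h4
    have hlt : i < c := by
      have h5 : z.val < c * Q := ZMod.val_lt z
      rw [hi, mul_comm c Q] at h5
      exact Nat.lt_of_mul_lt_mul_left h5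
    refine ⟨i, mem_range.mpr hlt, ?_⟩
    rw [← hi, ZMod.natCast_zmod_val, hz]
    ring
  · intro i _
    rfl

/-- the twisted sums over the points of the class -/
def TT (w2 w3 H : ZMod (c * Q)) (A B : ℕ) : ℂ :=
  ∑ i ∈ range c, ∑ j ∈ range c,
    if (w2 + ((Q * i : ℕ) : ZMod (c * Q))) * (w3 + ((Q * j : ℕ) : ZMod (c * Q))) = H
      then (ZMod.stdAddChar ((A * (Q * i) + B * (Q * j) : ℕ) : ZMod (c * Q)) : ℂ) else 0

lemma TT_eq (w2 w3 H : ZMod (c * Q)) (A B : ℕ) :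
    (Q : ℂ) * ((Q : ℂ) * TT c Q w2 w3 H A B) = ∑ r ∈ range Q, ∑ r' ∈ range Q,
      ZMod.stdAddChar (-(((A + r * c : ℕ) : ZMod (c * Q)) * w2 + ((B + r' * c : ℕ) : ZMod (c * Q)) * w3))
        * KH (c * Q) H ((A + r * c : ℕ) : ZMod (c * Q)) ((B + r' * c : ℕ) : ZMod (c * Q)) := by
  classical
  -- the inner sum
  obtain ⟨F, hF⟩ : ∃ F : ZMod (c * Q) → ℂ, F = fun x : ZMod (c * Q) => ∑ r' ∈ range Q, ∑ y : ZMod (c * Q),
          (if x * y = H then (ZMod.stdAddChar ((A : ZMod (c * Q)) * (x - w2) + (B : ZMod (c * Q)) * (y - w3)) : ℂ)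
            else 0) * ZMod.stdAddChar (((r' * c : ℕ) : ZMod (c * Q)) * (y - w3)) := ⟨_, rfl⟩
  have h1 : ∀ i : ℕ, (Q : ℂ) * ∑ j ∈ range c,
      (if (w2 + ((Q * i : ℕ) : ZMod (c * Q))) * (w3 + ((Q * j : ℕ) : ZMod (c * Q))) = H
      then (ZMod.stdAddChar ((A * (Q * i) + B * (Q * j) : ℕ) : ZMod (c * Q)) : ℂ) else 0)
      = F (w2 + ((Q * i : ℕ) : ZMod (c * Q))) := by
    intro i
    rw [hF]
    simp only
    rw [← class_sum c Q w3 (fun y => if (w2 + ((Q * i : ℕ) : ZMod (c * Q))) * y = H then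
      (ZMod.stdAddChar ((A : ZMod (c * Q)) * (w2 + ((Q * i : ℕ) : ZMod (c * Q)) - w2)
        + (B : ZMod (c * Q)) * (y - w3)) : ℂ) else 0)]
    congr 1
    refine Finset.sum_congr rfl fun j _ => ?_
    congr 2
    push_cast
    ring
  have h2 : (Q : ℂ) * ((Q : ℂ) * TT c Q w2 w3 H A B) = (Q : ℂ) * ∑ i ∈ range c,
      F (w2 + ((Q * i : ℕ) : ZMod (c * Q))) := by
    rw [TT, Finset.mul_sum]
    congr 1
    exact Finset.sum_congr rfl fun i _ => h1 i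
  rw [h2, class_sum c Q w2 F]
  refine Finset.sum_congr rfl fun r _ => ?_
  rw [hF]
  simp only
  simp_rw [Finset.sum_mul]
  rw [Finset.sum_comm]
  refine Finset.sum_congr rfl fun r' _ => ?_
  rw [KH, PH, Finset.sum_filter, Fintype.sum_prod_type, Finset.mul_sum]
  refine Finset.sum_congr rfl fun x _ => ?_
  rw [Finset.mul_sum]
  refine Finset.sum_congr rfl fun y _ => ?_
  simp only
  split_ifs with h
  · rw [← AddChar.map_add_eq_mul, ← AddChar.map_add_eq_mul, ← AddChar.map_add_eq_mul]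
    congr 1
    push_cast
    ring
  · simp

lemma gcd3_le (A B r r' : ℕ) :
    D33K.gcd3 ((A + r * c : ℕ) : ZMod (c * Q)) ((B + r' * c : ℕ) : ZMod (c * Q))
      ≤ Q * Nat.gcd (Nat.gcd A B) c := by
  have hc : 0 < c := Nat.pos_of_ne_zero (NeZero.ne c)
  have hQ : 0 < Q := Nat.pos_of_ne_zero (NeZero.ne Q)
  set D := D33K.gcd3 ((A + r * c : ℕ) : ZMod (c * Q)) ((B + r' * c : ℕ) : ZMod (c * Q)) with hD
  have hDM : D ∣ c * Q := Nat.gcd_dvd_right _ _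
  have hD1 : D ∣ (((A + r * c : ℕ) : ZMod (c * Q))).val :=
    (Nat.gcd_dvd_left _ _).trans (Nat.gcd_dvd_left _ _)
  have hD2 : D ∣ (((B + r' * c : ℕ) : ZMod (c * Q))).val :=
    (Nat.gcd_dvd_left _ _).trans (Nat.gcd_dvd_right _ _)
  rw [ZMod.val_natCast, Nat.dvd_mod_iff hDM] at hD1 hD2
  have hA : D ∣ Q * A := by
    have h1 : D ∣ Q * (A + r * c) := Dvd.dvd.mul_left hD1 Q
    have h2 : D ∣ r * (c * Q) := Dvd.dvd.mul_left hDM r
    have h3 : Q * (A + r * c) = Q * A + r * (c * Q) := by ring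
    rw [h3] at h1
    exact (Nat.dvd_add_left h2).1 h1
  have hB : D ∣ Q * B := by
    have h1 : D ∣ Q * (B + r' * c) := Dvd.dvd.mul_left hD2 Q
    have h2 : D ∣ r' * (c * Q) := Dvd.dvd.mul_left hDM r'
    have h3 : Q * (B + r' * c) = Q * B + r' * (c * Q) := by ring
    rw [h3] at h1
    exact (Nat.dvd_add_left h2).1 h1
  have hC : D ∣ Q * c := by rw [mul_comm Q c]; exact hDM
  have hfin : D ∣ Q * Nat.gcd (Nat.gcd A B) c := by
    rw [← Nat.gcd_mul_left, ← Nat.gcd_mul_left]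
    exact Nat.dvd_gcd (Nat.dvd_gcd hA hB) hC
  refine Nat.le_of_dvd ?_ hfin
  exact Nat.mul_pos hQ (Nat.gcd_pos_of_pos_right _ hc)

/-- the constant of the exponential sum bound -/
def A0 (G : ℕ) : ℝ := 2 * (G : ℝ) * ((c * Q).divisors.card : ℝ) * ((c * Q : ℕ) : ℝ) ^ (3 / 4 : ℝ)
  * (Q : ℝ) ^ (1 / 4 : ℝ)

lemma A0_nonneg (G : ℕ) : 0 ≤ A0 c Q G := by unfold A0; positivity

lemma TT_le (w2 w3 H : ZMod (c * Q)) (A B : ℕ) :
    ‖TT c Q w2 w3 H A B‖ ≤ A0 c Q (Nat.gcd H.val (c * Q))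
      * ((Nat.gcd (Nat.gcd A B) c : ℕ) : ℝ) ^ (1 / 4 : ℝ) := by
  have hQ : (0 : ℝ) < Q := by exact_mod_cast Nat.pos_of_ne_zero (NeZero.ne Q)
  have h := congrArg norm (TT_eq c Q w2 w3 H A B)
  rw [norm_mul, norm_mul, Complex.norm_natCast] at h
  have hb : ‖∑ r ∈ range Q, ∑ r' ∈ range Q,
      ZMod.stdAddChar (-(((A + r * c : ℕ) : ZMod (c * Q)) * w2 + ((B + r' * c : ℕ) : ZMod (c * Q)) * w3))
        * KH (c * Q) H ((A + r * c : ℕ) : ZMod (c * Q)) ((B + r' * c : ℕ) : ZMod (c * Q))‖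
      ≤ (Q : ℝ) * ((Q : ℝ) * (A0 c Q (Nat.gcd H.val (c * Q))
      * ((Nat.gcd (Nat.gcd A B) c : ℕ) : ℝ) ^ (1 / 4 : ℝ))) := by
    have ht : ∀ r ∈ range Q, ∀ r' ∈ range Q,
        ‖(ZMod.stdAddChar (-(((A + r * c : ℕ) : ZMod (c * Q)) * w2
          + ((B + r' * c : ℕ) : ZMod (c * Q)) * w3)) : ℂ)
        * KH (c * Q) H ((A + r * c : ℕ) : ZMod (c * Q)) ((B + r' * c : ℕ) : ZMod (c * Q))‖
        ≤ A0 c Q (Nat.gcd H.val (c * Q)) * ((Nat.gcd (Nat.gcd A B) c : ℕ) : ℝ) ^ (1 / 4 : ℝ) := by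
      intro r _ r' _
      rw [norm_mul, AddChar.norm_apply, one_mul]
      refine (KH_le H _ _).trans ?_
      have hg : (D33K.gcd3 ((A + r * c : ℕ) : ZMod (c * Q)) ((B + r' * c : ℕ) : ZMod (c * Q)) : ℝ)
          ≤ (Q : ℝ) * ((Nat.gcd (Nat.gcd A B) c : ℕ) : ℝ) := by
        exact_mod_cast gcd3_le c Q A B r r'
      have hg2 : (D33K.gcd3 ((A + r * c : ℕ) : ZMod (c * Q)) ((B + r' * c : ℕ) : ZMod (c * Q)) : ℝ)
          ^ (1 / 4 : ℝ) ≤ (Q : ℝ) ^ (1 / 4 : ℝ) * ((Nat.gcd (Nat.gcd A B) c : ℕ) : ℝ) ^ (1 / 4 : ℝ) := by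
        rw [← Real.mul_rpow hQ.le (Nat.cast_nonneg _)]
        exact Real.rpow_le_rpow (Nat.cast_nonneg _) hg (by norm_num)
      unfold A0
      calc 2 * ((Nat.gcd H.val (c * Q) : ℕ) : ℝ) * ((c * Q).divisors.card : ℝ)
            * ((c * Q : ℕ) : ℝ) ^ (3 / 4 : ℝ)
            * (D33K.gcd3 ((A + r * c : ℕ) : ZMod (c * Q)) ((B + r' * c : ℕ) : ZMod (c * Q)) : ℝ)
              ^ (1 / 4 : ℝ)
          ≤ 2 * ((Nat.gcd H.val (c * Q) : ℕ) : ℝ) * ((c * Q).divisors.card : ℝ)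
            * ((c * Q : ℕ) : ℝ) ^ (3 / 4 : ℝ)
            * ((Q : ℝ) ^ (1 / 4 : ℝ) * ((Nat.gcd (Nat.gcd A B) c : ℕ) : ℝ) ^ (1 / 4 : ℝ)) := by
            gcongr
        _ = _ := by ring
    refine (norm_sum_le _ _).trans ?_
    calc ∑ r ∈ range Q, ‖∑ r' ∈ range Q,
        (ZMod.stdAddChar (-(((A + r * c : ℕ) : ZMod (c * Q)) * w2
          + ((B + r' * c : ℕ) : ZMod (c * Q)) * w3)) : ℂ)
        * KH (c * Q) H ((A + r * c : ℕ) : ZMod (c * Q)) ((B + r' * c : ℕ) : ZMod (c * Q))‖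
        ≤ ∑ r ∈ range Q, (Q : ℝ) * (A0 c Q (Nat.gcd H.val (c * Q))
          * ((Nat.gcd (Nat.gcd A B) c : ℕ) : ℝ) ^ (1 / 4 : ℝ)) := by
          refine Finset.sum_le_sum fun r hr => ?_
          refine (norm_sum_le _ _).trans ((Finset.sum_le_sum fun r' hr' => ht r hr r' hr').trans ?_)
          rw [Finset.sum_const, nsmul_eq_mul, Finset.card_range]
      _ = _ := by rw [Finset.sum_const, nsmul_eq_mul, Finset.card_range]
  rw [← h] at hb
  exact le_of_mul_le_mul_left (le_of_mul_le_mul_left hb hQ) hQ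

end Pool.Agent.W33f
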