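import Pool.Agent.W_d33b62f_h37.Kc2

/-!
# MP_d33b62_nt, full question (helper56): completion for one modulus `c`, the counting function
-/

set_option autoImplicit false

noncomputable section

open Finset

namespace Pool.Agent.W33f

variable (c Q : ℕ) [NeZero c] [NeZero Q]

/-- the number of points in a box -/
def Nn (w2 w3 H : ZMod (c * Q)) (m1 m2 : ℕ) : ℕ :=
  ((range m1 ×ˢ range m2).filter (fun p : ℕ × ℕ => (w2 + ((Q * p.1 : ℕ) : ZMod (c * Q)))
    * (w3 + ((Q * p.2 : ℕ) : ZMod (c * Q))) = H)).card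

/-- the indicator function of the points -/
def phi (w2 w3 H : ZMod (c * Q)) (s t : ZMod c) : ℂ :=
  if (w2 + ((Q * s.val : ℕ) : ZMod (c * Q))) * (w3 + ((Q * t.val : ℕ) : ZMod (c * Q))) = H then 1 else 0

omit [NeZero Q] in
lemma sum_zmod {β : Type*} [AddCommMonoid β] (F : ZMod c → β) :
    ∑ a : ZMod c, F a = ∑ a ∈ range c, F (a : ZMod c) := by
  symm
  refine Finset.sum_bij (fun (a : ℕ) _ => (a : ZMod c)) (fun _ _ => mem_univ _) ?_ ?_ (fun _ _ => rfl)
  · intro a ha b hb hab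
    rw [mem_range] at ha hb
    rw [ZMod.natCast_eq_natCast_iff'] at hab
    rwa [Nat.mod_eq_of_lt ha, Nat.mod_eq_of_lt hb] at hab
  · intro b _
    exact ⟨b.val, mem_range.mpr (ZMod.val_lt b), ZMod.natCast_zmod_val b⟩

lemma TT_zmod (w2 w3 H : ZMod (c * Q)) (a b : ZMod c) :
    ∑ x : ZMod c, ∑ y : ZMod c, phi c Q w2 w3 H x y * ZMod.stdAddChar (x * a) * ZMod.stdAddChar (y * b)
      = TT c Q w2 w3 H a.val b.val := by
  rw [sum_zmod, TT]
  refine Finset.sum_congr rfl fun i hi => ?_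
  rw [sum_zmod]
  refine Finset.sum_congr rfl fun j hj => ?_
  rw [mem_range] at hi hj
  rw [phi, ZMod.val_natCast_of_lt hi, ZMod.val_natCast_of_lt hj]
  have h1 : (ZMod.stdAddChar ((i : ZMod c) * a) : ℂ) * ZMod.stdAddChar ((j : ZMod c) * b)
      = ZMod.stdAddChar ((a.val * (Q * i) + b.val * (Q * j) : ℕ) : ZMod (c * Q)) := by
    rw [← AddChar.map_add_eq_mul]
    have e : (i : ZMod c) * a + (j : ZMod c) * b = (((i * a.val + j * b.val : ℕ) : ℤ) : ZMod c) := by
      push_cast
      rw [ZMod.natCast_zmod_val, ZMod.natCast_zmod_val]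
    rw [e, psi_lift c Q]
    congr 1
    push_cast
    ring
  split_ifs
  · rw [one_mul, h1]
  · simp

lemma inv2 (f : ZMod c → ZMod c → ℂ) (n1 n2 : ZMod c) :
    (c : ℂ) * ((c : ℂ) * f n1 n2) = ∑ a : ZMod c, ∑ b : ZMod c,
      (∑ x : ZMod c, ∑ y : ZMod c, f x y * ZMod.stdAddChar (x * a) * ZMod.stdAddChar (y * b))
        * (ZMod.stdAddChar (n1 * (-a)) * ZMod.stdAddChar (n2 * (-b))) := by
  have h1 := TwV.PV2_inv (fun x => (c : ℂ) * f x n2) n1
  rw [h1]
  refine Finset.sum_congr rfl fun a _ => ?_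
  have h2 : ∀ x : ZMod c, (c : ℂ) * f x n2 = ∑ b : ZMod c,
      (∑ y : ZMod c, f x y * ZMod.stdAddChar (y * b)) * ZMod.stdAddChar (n2 * (-b)) :=
    fun x => TwV.PV2_inv (fun y => f x y) n2
  simp_rw [h2, Finset.sum_mul]
  rw [Finset.sum_comm]
  refine Finset.sum_congr rfl fun b _ => Finset.sum_congr rfl fun x _ =>
    Finset.sum_congr rfl fun y _ => ?_
  ring

/-- the geometric sum -/
def Eg (m : ℕ) (a : ZMod c) : ℂ := ∑ n ∈ range m, (ZMod.stdAddChar ((n : ZMod c) * (-a)) : ℂ)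

lemma Nn_fourier (w2 w3 H : ZMod (c * Q)) (m1 m2 : ℕ) (h1 : m1 ≤ c) (h2 : m2 ≤ c) :
    (c : ℂ) * ((c : ℂ) * (Nn c Q w2 w3 H m1 m2 : ℂ)) = ∑ a : ZMod c, ∑ b : ZMod c,
      TT c Q w2 w3 H a.val b.val * (Eg c m1 a * Eg c m2 b) := by
  have e1 : (Nn c Q w2 w3 H m1 m2 : ℂ) = ∑ i ∈ range m1, ∑ j ∈ range m2,
      phi c Q w2 w3 H (i : ZMod c) (j : ZMod c) := by
    rw [Nn, Finset.card_filter, Finset.sum_product]
    push_cast
    refine Finset.sum_congr rfl fun i hi => Finset.sum_congr rfl fun j hj => ?_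
    rw [mem_range] at hi hj
    rw [phi, ZMod.val_natCast_of_lt (lt_of_lt_of_le hi h1), ZMod.val_natCast_of_lt (lt_of_lt_of_le hj h2)]
    push_cast
    rfl
  rw [e1, Finset.mul_sum, Finset.mul_sum]
  have e2 : ∀ i ∈ range m1, (c : ℂ) * ((c : ℂ) * ∑ j ∈ range m2, phi c Q w2 w3 H (i : ZMod c) (j : ZMod c))
      = ∑ j ∈ range m2, ∑ a : ZMod c, ∑ b : ZMod c, TT c Q w2 w3 H a.val b.val
        * (ZMod.stdAddChar ((i : ZMod c) * (-a)) * ZMod.stdAddChar ((j : ZMod c) * (-b))) := by
    intro i _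
    rw [Finset.mul_sum, Finset.mul_sum]
    refine Finset.sum_congr rfl fun j _ => ?_
    rw [inv2 c (phi c Q w2 w3 H) (i : ZMod c) (j : ZMod c)]
    refine Finset.sum_congr rfl fun a _ => Finset.sum_congr rfl fun b _ => ?_
    rw [TT_zmod]
  rw [Finset.sum_congr rfl e2]
  have e3 : ∀ i ∈ range m1, ∑ j ∈ range m2, ∑ a : ZMod c, ∑ b : ZMod c, TT c Q w2 w3 H a.val b.val
        * ((ZMod.stdAddChar ((i : ZMod c) * (-a)) : ℂ) * ZMod.stdAddChar ((j : ZMod c) * (-b)))
      = ∑ a : ZMod c, ∑ b : ZMod c, ∑ j ∈ range m2, TT c Q w2 w3 H a.val b.val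
        * (ZMod.stdAddChar ((i : ZMod c) * (-a)) * ZMod.stdAddChar ((j : ZMod c) * (-b))) := by
    intro i _
    rw [Finset.sum_comm]
    exact Finset.sum_congr rfl fun a _ => Finset.sum_comm
  rw [Finset.sum_congr rfl e3, Finset.sum_comm]
  refine Finset.sum_congr rfl fun a _ => ?_
  rw [Finset.sum_comm]
  refine Finset.sum_congr rfl fun b _ => ?_
  simp_rw [← Finset.mul_sum, ← Finset.sum_mul]
  rfl

/-- the weight which bounds the geometric sums -/
def om (a : ℕ) : ℝ := if a = 0 then (c : ℝ) else (c : ℝ) / (2 * (min a (c - a) : ℕ))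

omit [NeZero Q] in
lemma om_nonneg (a : ℕ) : 0 ≤ om c a := by unfold om; split_ifs <;> positivity

omit [NeZero Q] in
lemma Eg_le (m : ℕ) (hm : m ≤ c) (a : ZMod c) : ‖Eg c m a‖ ≤ om c a.val := by
  have hc : 0 < c := Nat.pos_of_ne_zero (NeZero.ne c)
  by_cases ha : a = 0
  · subst ha
    rw [om, if_pos (by simp)]
    simp only [Eg, neg_zero, mul_zero, AddChar.map_zero_eq_one, Finset.sum_const, Finset.card_range,
      nsmul_eq_mul, mul_one, Complex.norm_natCast]
    exact_mod_cast hm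
  · have hv : a.val ≠ 0 := fun h => ha ((ZMod.val_eq_zero a).1 h)
    have hlt := ZMod.val_lt a
    rw [om, if_neg hv]
    have g3 := TwV.geom_le (M := c) (a := c - a.val) (by omega) (by omega) m
    have g2 : (-a) = ((c - a.val : ℕ) : ZMod c) := by
      rw [Nat.cast_sub hlt.le, ZMod.natCast_self, zero_sub, ZMod.natCast_zmod_val]
    have g4 : (c - (c - a.val) : ℕ) = a.val := by omega
    rw [← g2, g4, min_comm] at g3
    exact g3

/-- `D = d(c) (1 + log c)` -/
def Dc : ℝ := (c.divisors.card : ℝ) * (1 + Real.log c)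

omit [NeZero Q] in
lemma one_le_Dc : 1 ≤ Dc c := by
  have hc : 0 < c := Nat.pos_of_ne_zero (NeZero.ne c)
  have hd : (1 : ℝ) ≤ (c.divisors.card : ℝ) := by
    have : 0 < c.divisors.card := Finset.card_pos.2 ⟨1, Nat.mem_divisors.2 ⟨one_dvd _, hc.ne'⟩⟩
    exact_mod_cast this
  have hl : 0 ≤ Real.log c := Real.log_nonneg (by exact_mod_cast hc)
  unfold Dc
  nlinarith

omit [NeZero Q] in
lemma om_gcd_sum : ∑ a ∈ (range c).filter (fun a => 1 ≤ a), om c a * Real.sqrt (Nat.gcd a c)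
    ≤ c * Dc c := by
  have hcpos : 0 < c := Nat.pos_of_ne_zero (NeZero.ne c)
  have hc : (0 : ℝ) < c := by exact_mod_cast hcpos
  have e3 : ∀ a ∈ (range c).filter (fun a => 1 ≤ a), om c a * Real.sqrt (Nat.gcd a c) ≤
      (c : ℝ) / 2 * (Real.sqrt (Nat.gcd a c) / a + Real.sqrt (Nat.gcd (c - a) c) / (c - a : ℕ)) := by
    intro a ha
    rw [mem_filter, mem_range] at ha
    rw [om, if_neg (by omega)]
    have haR : (0 : ℝ) < a := by exact_mod_cast ha.2
    have hbR : (0 : ℝ) < ((c - a : ℕ) : ℝ) := by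
      have : 0 < c - a := by omega
      exact_mod_cast this
    have g5 : Nat.gcd (c - a) c = Nat.gcd a c := by
      rw [Nat.gcd_comm (c - a) c, Nat.gcd_self_sub_right ha.1.le, Nat.gcd_comm]
    rw [g5]
    have hmin : (0 : ℝ) < (min a (c - a) : ℕ) := by
      have : 0 < min a (c - a) := by
        apply lt_min <;> omega
      exact_mod_cast this
    calc (c : ℝ) / (2 * (min a (c - a) : ℕ)) * Real.sqrt (Nat.gcd a c)
        = (c : ℝ) / 2 * (Real.sqrt (Nat.gcd a c) * (1 / (min a (c - a) : ℕ))) := by field_simp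
      _ ≤ _ := by
          apply mul_le_mul_of_nonneg_left _ (by positivity)
          rw [div_eq_mul_one_div (Real.sqrt (Nat.gcd a c)) (a : ℝ),
            div_eq_mul_one_div (Real.sqrt (Nat.gcd a c)) ((c - a : ℕ) : ℝ), ← mul_add]
          apply mul_le_mul_of_nonneg_left _ (Real.sqrt_nonneg _)
          rcases min_choice a (c - a) with h9 | h9
          · rw [h9]
            have : 0 ≤ 1 / ((c - a : ℕ) : ℝ) := by positivity
            linarith
          · rw [h9]
            have : 0 ≤ 1 / (a : ℝ) := by positivity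
            linarith
  refine (Finset.sum_le_sum e3).trans ?_
  rw [← Finset.mul_sum, Finset.sum_add_distrib]
  have k1 : ∑ a ∈ (range c).filter (fun a => 1 ≤ a), Real.sqrt (Nat.gcd a c) / (a : ℝ) ≤ Dc c := by
    refine le_trans ?_ (TwV.gcd_sum_le (M := c) (K := c) hcpos hcpos)
    apply Finset.sum_le_sum_of_subset_of_nonneg
    · intro a ha
      rw [mem_filter, mem_range] at ha
      rw [mem_Icc]
      omega
    · intro i _ _
      positivity
  have k2 : ∑ a ∈ (range c).filter (fun a => 1 ≤ a), Real.sqrt (Nat.gcd (c - a) c) / ((c - a : ℕ) : ℝ)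
      ≤ Dc c := by
    refine le_trans ?_ k1
    apply le_of_eq
    refine Finset.sum_bij (fun a _ => c - a) ?_ ?_ ?_ ?_
    · intro a ha
      rw [mem_filter, mem_range] at ha ⊢
      omega
    · intro a ha b hb hab
      rw [mem_filter, mem_range] at ha hb
      omega
    · intro b hb
      rw [mem_filter, mem_range] at hb
      refine ⟨c - b, ?_, ?_⟩
      · rw [mem_filter, mem_range]
        omega
      · omega
    · intro a _
      rfl
  calc (c : ℝ) / 2 * (_ + _) ≤ (c : ℝ) / 2 * (Dc c + Dc c) := by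
        apply mul_le_mul_of_nonneg_left (add_le_add k1 k2) (by positivity)
    _ = c * Dc c := by ring

/-- **Completion for one modulus.** -/
theorem completion (w2 w3 H : ZMod (c * Q)) (m1 m2 : ℕ) (h1 : m1 ≤ c) (h2 : m2 ≤ c) :
    |(Nn c Q w2 w3 H m1 m2 : ℝ) - (m1 : ℝ) * m2 * (Nn c Q w2 w3 H c c : ℝ) / (c : ℝ) ^ 2|
      ≤ 3 * A0 c Q (Nat.gcd H.val (c * Q)) * (Dc c) ^ 2 := by
  classical
  have hcpos : 0 < c := Nat.pos_of_ne_zero (NeZero.ne c)
  have hc : (0 : ℝ) < c := by exact_mod_cast hcpos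
  have hf := Nn_fourier c Q w2 w3 H m1 m2 h1 h2
  set A := A0 c Q (Nat.gcd H.val (c * Q)) with hA
  have hA0 : 0 ≤ A := A0_nonneg c Q _
  -- the main term
  have hTT0 : TT c Q w2 w3 H 0 0 = (Nn c Q w2 w3 H c c : ℂ) := by
    rw [TT, Nn, Finset.card_filter, Finset.sum_product]
    push_cast
    refine Finset.sum_congr rfl fun i hi => Finset.sum_congr rfl fun j hj => ?_
    simp
  have hE0 : ∀ m : ℕ, Eg c m 0 = (m : ℂ) := by
    intro m
    simp [Eg]
  -- split off the term (0, 0)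
  have hsplit : ∑ a : ZMod c, ∑ b : ZMod c, TT c Q w2 w3 H a.val b.val * (Eg c m1 a * Eg c m2 b)
      = (Nn c Q w2 w3 H c c : ℂ) * ((m1 : ℂ) * m2)
        + ∑ p ∈ (univ : Finset (ZMod c × ZMod c)).erase (0, 0),
          TT c Q w2 w3 H p.1.val p.2.val * (Eg c m1 p.1 * Eg c m2 p.2) := by
    rw [← Fintype.sum_prod_type (f := fun p : ZMod c × ZMod c =>
      TT c Q w2 w3 H p.1.val p.2.val * (Eg c m1 p.1 * Eg c m2 p.2))]
    rw [← Finset.add_sum_erase univ _ (Finset.mem_univ ((0 : ZMod c), (0 : ZMod c)))]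
    simp only [ZMod.val_zero, hTT0, hE0]
  rw [hsplit] at hf
  have hnorm : ‖∑ p ∈ (univ : Finset (ZMod c × ZMod c)).erase (0, 0),
          TT c Q w2 w3 H p.1.val p.2.val * (Eg c m1 p.1 * Eg c m2 p.2)‖
      ≤ 3 * A * (c : ℝ) ^ 2 * (Dc c) ^ 2 := by
    -- termwise bound by two functions
    let S1 : ℝ := ∑ a ∈ (range c).filter (fun a => 1 ≤ a), om c a * Real.sqrt (Nat.gcd a c)
    have hS1 : S1 ≤ c * Dc c := om_gcd_sum c
    have hpow : ∀ g : ℕ, 1 ≤ g → ((g : ℕ) : ℝ) ^ (1 / 4 : ℝ) ≤ Real.sqrt g := by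
      intro g hg
      rw [Real.sqrt_eq_rpow]
      exact Real.rpow_le_rpow_of_exponent_le (by exact_mod_cast hg) (by norm_num)
    have hterm : ∀ p ∈ (univ : Finset (ZMod c × ZMod c)).erase (0, 0),
        ‖TT c Q w2 w3 H p.1.val p.2.val * (Eg c m1 p.1 * Eg c m2 p.2)‖
          ≤ A * ((if 1 ≤ p.1.val then om c p.1.val * Real.sqrt (Nat.gcd p.1.val c) else 0) * om c p.2.val)
            + A * ((c : ℝ) * (if p.1.val = 0 then
              (if 1 ≤ p.2.val then om c p.2.val * Real.sqrt (Nat.gcd p.2.val c) else 0) else 0)) := by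
      rintro ⟨a, b⟩ hp
      simp only [Finset.mem_erase, Finset.mem_univ, and_true, ne_eq, Prod.mk.injEq] at hp
      simp only
      rw [norm_mul, norm_mul]
      have hT := TT_le c Q w2 w3 H a.val b.val
      rw [← hA] at hT
      have hEa := Eg_le c m1 h1 a
      have hEb := Eg_le c m2 h2 b
      by_cases ha : 1 ≤ a.val
      · rw [if_pos ha]
        have hgle : ((Nat.gcd (Nat.gcd a.val b.val) c : ℕ) : ℝ) ^ (1 / 4 : ℝ)
            ≤ Real.sqrt (Nat.gcd a.val c) := by
          have hle : Nat.gcd (Nat.gcd a.val b.val) c ≤ Nat.gcd a.val c := by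
            apply Nat.le_of_dvd (Nat.gcd_pos_of_pos_right _ hcpos)
            exact Nat.gcd_dvd_gcd_of_dvd_left _ (Nat.gcd_dvd_left _ _)
          refine (Real.rpow_le_rpow (Nat.cast_nonneg _) (Nat.cast_le.mpr hle) (by norm_num)).trans ?_
          exact hpow _ (Nat.gcd_pos_of_pos_right _ hcpos)
        have hother : 0 ≤ A * ((c : ℝ) * (if a.val = 0 then
              (if 1 ≤ b.val then om c b.val * Real.sqrt (Nat.gcd b.val c) else 0) else 0)) := by
          rw [if_neg (by omega)]; simp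
        calc ‖TT c Q w2 w3 H a.val b.val‖ * (‖Eg c m1 a‖ * ‖Eg c m2 b‖)
            ≤ (A * Real.sqrt (Nat.gcd a.val c)) * (om c a.val * om c b.val) := by
              apply mul_le_mul (hT.trans (mul_le_mul_of_nonneg_left hgle hA0))
                (mul_le_mul hEa hEb (norm_nonneg _) (om_nonneg c _)) (by positivity)
              exact mul_nonneg hA0 (Real.sqrt_nonneg _)
          _ = A * ((om c a.val * Real.sqrt (Nat.gcd a.val c)) * om c b.val) := by ring
          _ ≤ _ := le_add_of_nonneg_right hother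
      · rw [if_neg ha]
        have ha0 : a.val = 0 := by omega
        rw [if_pos ha0]
        have haz : a = 0 := (ZMod.val_eq_zero a).1 ha0
        have hbz : b ≠ 0 := fun h => hp ⟨haz, h⟩
        have hb1 : 1 ≤ b.val := by
          rcases Nat.eq_zero_or_pos b.val with h | h
          · exact absurd ((ZMod.val_eq_zero b).1 h) hbz
          · exact h
        rw [if_pos hb1]
        have hgle : ((Nat.gcd (Nat.gcd a.val b.val) c : ℕ) : ℝ) ^ (1 / 4 : ℝ)
            ≤ Real.sqrt (Nat.gcd b.val c) := by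
          rw [ha0, Nat.gcd_zero_left]
          exact hpow _ (Nat.gcd_pos_of_pos_right _ hcpos)
        have hoa : om c a.val = c := by rw [ha0, om, if_pos rfl]
        calc ‖TT c Q w2 w3 H a.val b.val‖ * (‖Eg c m1 a‖ * ‖Eg c m2 b‖)
            ≤ (A * Real.sqrt (Nat.gcd b.val c)) * (om c a.val * om c b.val) := by
              apply mul_le_mul (hT.trans (mul_le_mul_of_nonneg_left hgle hA0))
                (mul_le_mul hEa hEb (norm_nonneg _) (om_nonneg c _)) (by positivity)
              exact mul_nonneg hA0 (Real.sqrt_nonneg _)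
          _ = A * (0 * om c b.val) + A * ((c : ℝ) * (om c b.val * Real.sqrt (Nat.gcd b.val c))) := by
              rw [hoa]; ring
    have hnn : ∀ p : ZMod c × ZMod c, 0 ≤
        A * ((if 1 ≤ p.1.val then om c p.1.val * Real.sqrt (Nat.gcd p.1.val c) else 0) * om c p.2.val)
            + A * ((c : ℝ) * (if p.1.val = 0 then
              (if 1 ≤ p.2.val then om c p.2.val * Real.sqrt (Nat.gcd p.2.val c) else 0) else 0)) := by
      intro p
      have := om_nonneg c p.1.val
      have := om_nonneg c p.2.val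
      split_ifs <;> positivity
    refine (norm_sum_le _ _).trans ((Finset.sum_le_sum hterm).trans ?_)
    refine (Finset.sum_le_sum_of_subset_of_nonneg (Finset.erase_subset _ _)
      (fun p _ _ => hnn p)).trans ?_
    rw [Finset.sum_add_distrib, ← Finset.mul_sum, ← Finset.mul_sum, Fintype.sum_prod_type,
      Fintype.sum_prod_type]
    -- evaluate
    have hS1' : ∑ a : ZMod c, (if 1 ≤ a.val then om c a.val * Real.sqrt (Nat.gcd a.val c) else 0) = S1 := by
      rw [sum_zmod]
      simp only [S1]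
      rw [Finset.sum_filter]
      refine Finset.sum_congr rfl fun a ha => ?_
      rw [mem_range] at ha
      rw [ZMod.val_natCast_of_lt ha]
    have hOm : ∑ b : ZMod c, om c b.val ≤ c + S1 := by
      rw [sum_zmod]
      have e1 : ∑ b ∈ range c, om c (b : ZMod c).val = ∑ b ∈ range c, om c b := by
        refine Finset.sum_congr rfl fun b hb => ?_
        rw [mem_range] at hb
        rw [ZMod.val_natCast_of_lt hb]
      rw [e1]
      have e2 : ∑ b ∈ range c, om c b = om c 0 + ∑ b ∈ (range c).filter (fun b => 1 ≤ b), om c b := by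
        have : (range c).filter (fun b => 1 ≤ b) = (range c).erase 0 := by
          ext b
          simp only [mem_filter, mem_range, mem_erase]
          omega
        rw [this, Finset.add_sum_erase _ _ (mem_range.mpr hcpos)]
      rw [e2]
      have e3 : om c 0 = c := by rw [om, if_pos rfl]
      rw [e3]
      apply add_le_add le_rfl
      apply Finset.sum_le_sum
      intro b hb
      have hg1 : (1 : ℝ) ≤ Real.sqrt (Nat.gcd b c) := by
        rw [Real.one_le_sqrt]
        exact_mod_cast Nat.gcd_pos_of_pos_right _ hcpos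
      exact le_mul_of_one_le_right (om_nonneg c b) hg1
    have hfirst : ∑ a : ZMod c, ∑ b : ZMod c,
        (if 1 ≤ a.val then om c a.val * Real.sqrt (Nat.gcd a.val c) else 0) * om c b.val
        = S1 * ∑ b : ZMod c, om c b.val := by
      rw [← hS1', Finset.sum_mul_sum]
    have hsecond : ∑ a : ZMod c, ∑ b : ZMod c, (c : ℝ) * (if a.val = 0 then
              (if 1 ≤ b.val then om c b.val * Real.sqrt (Nat.gcd b.val c) else 0) else 0) = c * S1 := by
      rw [Finset.sum_eq_single (0 : ZMod c)]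
      · simp only [ZMod.val_zero, if_true]
        rw [← Finset.mul_sum, hS1']
      · intro a _ ha
        have : a.val ≠ 0 := fun h => ha ((ZMod.val_eq_zero a).1 h)
        simp [this]
      · intro h
        exact absurd (Finset.mem_univ _) h
    rw [hfirst, hsecond]
    have hD := one_le_Dc c
    have hS1nn : 0 ≤ S1 := by
      apply Finset.sum_nonneg
      intro a _
      exact mul_nonneg (om_nonneg c a) (Real.sqrt_nonneg _)
    have h3 : S1 * ∑ b : ZMod c, om c b.val ≤ (c * Dc c) * (2 * (c * Dc c)) := by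
      apply mul_le_mul hS1 _ (Finset.sum_nonneg fun b _ => om_nonneg c _) (by positivity)
      refine hOm.trans ?_
      have : (c : ℝ) ≤ c * Dc c := le_mul_of_one_le_right hc.le hD
      linarith
    have h4 : (c : ℝ) * S1 ≤ (c * Dc c) * (c * Dc c) := by
      apply mul_le_mul _ hS1 hS1nn (by positivity)
      exact le_mul_of_one_le_right hc.le hD
    calc A * (S1 * ∑ b : ZMod c, om c b.val) + A * (c * S1)
        ≤ A * ((c * Dc c) * (2 * (c * Dc c))) + A * ((c * Dc c) * (c * Dc c)) :=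
          add_le_add (mul_le_mul_of_nonneg_left h3 hA0) (mul_le_mul_of_nonneg_left h4 hA0)
      _ = 3 * A * (c : ℝ) ^ 2 * (Dc c) ^ 2 := by ring
  -- conclusion
  have hdiff : ‖(c : ℂ) * ((c : ℂ) * (Nn c Q w2 w3 H m1 m2 : ℂ)) - (Nn c Q w2 w3 H c c : ℂ) * ((m1 : ℂ) * m2)‖
      ≤ 3 * A * (c : ℝ) ^ 2 * (Dc c) ^ 2 := by
    rw [hf, add_sub_cancel_left]
    exact hnorm
  have hreal : (c : ℂ) * ((c : ℂ) * (Nn c Q w2 w3 H m1 m2 : ℂ)) - (Nn c Q w2 w3 H c c : ℂ) * ((m1 : ℂ) * m2)
      = (((c : ℝ) ^ 2 * ((Nn c Q w2 w3 H m1 m2 : ℝ)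
        - (m1 : ℝ) * m2 * (Nn c Q w2 w3 H c c : ℝ) / (c : ℝ) ^ 2) : ℝ) : ℂ) := by
    have hc' : (c : ℂ) ≠ 0 := by exact_mod_cast hc.ne'
    push_cast
    field_simp
  rw [hreal, Complex.norm_real, Real.norm_eq_abs, abs_mul, abs_of_pos (by positivity)] at hdiff
  have hc2 : (0 : ℝ) < (c : ℝ) ^ 2 := by positivity
  have : (c : ℝ) ^ 2 * |(Nn c Q w2 w3 H m1 m2 : ℝ)
        - (m1 : ℝ) * m2 * (Nn c Q w2 w3 H c c : ℝ) / (c : ℝ) ^ 2|
      ≤ (c : ℝ) ^ 2 * (3 * A * (Dc c) ^ 2) := by
    refine hdiff.trans (le_of_eq ?_)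
    ring
  exact le_of_mul_le_mul_left this hc2

end Pool.Agent.W33f
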