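import Mathlib

/-!
# MP_d33b62_nt, full question (helper56): definitions for the box lemma (Lemma K)
-/

set_option autoImplicit false

noncomputable section

open Finset

namespace Pool.Agent.W33f

/-- `∑_{(e, Q) = 1} μ(e) / e ^ 2 = (6 / π ^ 2) ∏_{p ∣ Q} (1 - 1 / p ^ 2)⁻¹`. -/
def sigQ (Q : ℕ) : ℝ := (6 / Real.pi ^ 2) * ∏ p ∈ Q.primeFactors, (1 - 1 / (p : ℝ) ^ 2)⁻¹

/-- `∑_{g ∣ h, (g, Q) = 1} 1 / g`. -/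
def gsum (Q : ℕ) (h : ℤ) : ℝ := ∑ g ∈ h.natAbs.divisors.filter (fun g => Nat.Coprime g Q), 1 / (g : ℝ)

open Classical in
/-- The `(c, b, g)` in the box `(c0, c0 + L1] × (b0, b0 + L2] × (g0, g0 + L3]` and in the classes `w1, w2, w3`
modulo `Q`, for which `c d + b g = h` with an integer `d` in the class `w4` modulo `Q`. -/
def KF (Q : ℕ) (h w1 w2 w3 w4 c0 b0 g0 : ℤ) (L1 L2 L3 : ℕ) : Finset (ℤ × ℤ × ℤ) :=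
  (Ioc c0 (c0 + L1) ×ˢ Ioc b0 (b0 + L2) ×ˢ Ioc g0 (g0 + L3)).filter fun q =>
    q.1 ≡ w1 [ZMOD Q] ∧ q.2.1 ≡ w2 [ZMOD Q] ∧ q.2.2 ≡ w3 [ZMOD Q] ∧
      ∃ d : ℤ, d ≡ w4 [ZMOD Q] ∧ q.1 * d + q.2.1 * q.2.2 = h

end Pool.Agent.W33f
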