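import Pool.Agent.W_d33b62f_h37.Kc3
import Pool.Agent.W_d33b62f_h37.Kdf

/-!
# MP_d33b62_nt, full question (helper56): the local count `Nn(c, c)`
-/

set_option autoImplicit false

noncomputable section

open Finset
open scoped ArithmeticFunction.Moebius

namespace Pool.Agent.W33f

/-- linear congruences with a coprime coefficient -/
lemma count_lin (r b : ℕ) (hr : 0 < r) (hb : r ∣ b) (x E : ℤ) (hx : IsCoprime x (r : ℤ)) :
    ((range b).filter (fun j : ℕ => (r : ℤ) ∣ E + x * j)).card = b / r := by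
  obtain ⟨a, d, had⟩ := hx
  have hr' : (0 : ℤ) < r := by exact_mod_cast hr
  set v0 : ℤ := (-(a * E)) % r with hv0
  have hv0n : 0 ≤ v0 := Int.emod_nonneg _ hr'.ne'
  set v : ℕ := v0.toNat with hv
  have hvv : (v : ℤ) = v0 := Int.toNat_of_nonneg hv0n
  have hmod : (r : ℤ) ∣ (v : ℤ) + a * E := by
    rw [hvv, hv0]
    have := Int.emod_add_mul_ediv (-(a * E)) r
    refine ⟨-((-(a * E)) / r), ?_⟩
    linear_combination this
  have hiff : ∀ j : ℕ, ((r : ℤ) ∣ E + x * j) ↔ (j ≡ v [MOD r]) := by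
    intro j
    have hxr : IsCoprime x (r : ℤ) := ⟨a, d, had⟩
    have h1 : (r : ℤ) ∣ E + x * v := by
      obtain ⟨t, ht⟩ := hmod
      refine ⟨x * t + d * E, ?_⟩
      linear_combination x * ht - E * had
    constructor
    · intro h
      have h2 : (r : ℤ) ∣ x * ((j : ℤ) - v) := by
        have := dvd_sub h h1
        have e : E + x * j - (E + x * v) = x * ((j : ℤ) - v) := by ring
        rwa [e] at this
      have h3 : (r : ℤ) ∣ (j : ℤ) - v := hxr.symm.dvd_of_dvd_mul_left h2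
      have h4 : (v : ℤ) ≡ j [ZMOD r] := (Int.modEq_iff_dvd).2 h3
      exact (Int.natCast_modEq_iff.1 h4).symm
    · intro h
      have h4 : (v : ℤ) ≡ j [ZMOD r] := Int.natCast_modEq_iff.2 h.symm
      have h3 : (r : ℤ) ∣ (j : ℤ) - v := (Int.modEq_iff_dvd).1 h4
      have e : E + x * j = (E + x * v) + x * ((j : ℤ) - v) := by ring
      rw [e]
      exact dvd_add h1 (Dvd.dvd.mul_left h3 x)
  have h1 : ((range b).filter (fun j : ℕ => (r : ℤ) ∣ E + x * j)) = (range b).filter (fun j => j ≡ v [MOD r]) :=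
    Finset.filter_congr fun j _ => hiff j
  rw [h1, ← Nat.count_eq_card_filter_range, Nat.count_modEq_card _ hr]
  rw [Nat.mod_eq_zero_of_dvd hb]
  simp

/-- linear congruences -/
lemma count_lin2 (c : ℕ) (hc : 0 < c) (x E : ℤ) :
    ((range c).filter (fun j : ℕ => (c : ℤ) ∣ E + x * j)).card
      = if ((Int.gcd x c : ℕ) : ℤ) ∣ E then Int.gcd x c else 0 := by
  set g := Int.gcd x c with hg
  have hgpos : 0 < g := Int.gcd_pos_of_ne_zero_right _ (by exact_mod_cast hc.ne')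
  have hgc : (g : ℤ) ∣ (c : ℤ) := Int.gcd_dvd_right _ _
  have hgx : (g : ℤ) ∣ x := Int.gcd_dvd_left _ _
  have hgc' : g ∣ c := by exact_mod_cast hgc
  obtain ⟨c', hc'⟩ := hgc'
  obtain ⟨x', hx'⟩ := hgx
  have hc'pos : 0 < c' := by
    rcases Nat.eq_zero_or_pos c' with h | h
    · rw [h, mul_zero] at hc'; omega
    · exact h
  have hg0 : (g : ℤ) ≠ 0 := by exact_mod_cast hgpos.ne'
  split_ifs with h
  · obtain ⟨E', hE'⟩ := h
    have hcop : IsCoprime x' (c' : ℤ) := by
      rw [Int.isCoprime_iff_gcd_eq_one]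
      have h1 : Int.gcd x c = g * Int.gcd x' c' := by
        rw [hx', hc']
        push_cast
        rw [Int.gcd_mul_left, Int.natAbs_natCast]
      rw [← hg] at h1
      have h2 : g * Int.gcd x' c' = g * 1 := by rw [mul_one]; exact h1.symm
      exact Nat.eq_of_mul_eq_mul_left hgpos h2
    have h1 : ((range c).filter (fun j : ℕ => (c : ℤ) ∣ E + x * j))
        = (range c).filter (fun j : ℕ => (c' : ℤ) ∣ E' + x' * j) := by
      refine Finset.filter_congr fun j _ => ?_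
      have e1 : E + x * j = (g : ℤ) * (E' + x' * j) := by rw [hE', hx']; ring
      have e2 : (c : ℤ) = (g : ℤ) * c' := by rw [hc']; push_cast; ring
      rw [e1, e2]
      exact mul_dvd_mul_iff_left hg0
    rw [h1, count_lin c' c hc'pos ⟨g, by rw [hc', mul_comm]⟩ x' E' hcop, hc']
    exact Nat.mul_div_cancel _ hc'pos
  · rw [Finset.card_eq_zero, Finset.filter_eq_empty_iff]
    intro j _ hj
    apply h
    have h1 : (g : ℤ) ∣ E + x * j := hgc.trans hj
    have h2 : (g : ℤ) ∣ x * j := Dvd.dvd.mul_right ⟨x', hx'⟩ _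
    have := dvd_sub h1 h2
    simpa using this

lemma sum_moebius_divisors (k : ℕ) :
    ∑ e ∈ k.divisors, (μ e : ℤ) = if k = 1 then 1 else 0 := by
  have h := congrArg (fun f : ArithmeticFunction ℤ => f k) ArithmeticFunction.moebius_mul_coe_zeta
  simp only [ArithmeticFunction.coe_mul_zeta_apply] at h
  rw [h, ArithmeticFunction.one_apply]

/-- the Moebius identity for `n ↦ n [n ∣ h]` -/
lemma moebius_id (hn n N : ℕ) (h0 : hn ≠ 0) (hn1 : 1 ≤ n) (hnN : n ≤ N) :
    ∑ g ∈ hn.divisors, ∑ e ∈ Icc 1 N, (if g * e ∣ n then (g : ℤ) * μ e else 0)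
      = if n ∣ hn then (n : ℤ) else 0 := by
  have h1 : ∀ g ∈ hn.divisors, ∑ e ∈ Icc 1 N, (if g * e ∣ n then (g : ℤ) * μ e else 0)
      = if g = n then (n : ℤ) else 0 := by
    intro g hg
    have hgpos : 0 < g := Nat.pos_of_mem_divisors hg
    by_cases hgn : g ∣ n
    · obtain ⟨k, hk⟩ := hgn
      have hkpos : 0 < k := by
        rcases Nat.eq_zero_or_pos k with h | h
        · rw [h, mul_zero] at hk; omega
        · exact h
      have e1 : ∑ e ∈ Icc 1 N, (if g * e ∣ n then (g : ℤ) * μ e else 0)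
          = (g : ℤ) * ∑ e ∈ k.divisors, (μ e : ℤ) := by
        rw [← Finset.sum_filter, Finset.mul_sum]
        refine Finset.sum_congr ?_ fun _ _ => rfl
        ext e
        simp only [mem_filter, mem_Icc, Nat.mem_divisors]
        constructor
        · rintro ⟨_, h⟩
          rw [hk] at h
          exact ⟨Nat.dvd_of_mul_dvd_mul_left hgpos h, hkpos.ne'⟩
        · rintro ⟨h, _⟩
          have he1 : 0 < e := Nat.pos_of_dvd_of_pos h hkpos
          have hek : e ≤ k := Nat.le_of_dvd hkpos h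
          have hkn : k ≤ n := by rw [hk]; exact Nat.le_mul_of_pos_left k hgpos
          refine ⟨⟨he1, by omega⟩, ?_⟩
          rw [hk]
          exact Nat.mul_dvd_mul_left g h
      rw [e1, sum_moebius_divisors k]
      by_cases hk1 : k = 1
      · rw [if_pos hk1, if_pos (by rw [hk, hk1, mul_one])]
        rw [hk, hk1]; simp
      · rw [if_neg hk1, if_neg ?_, mul_zero]
        intro h
        apply hk1
        rw [h] at hk
        have : n * k = n * 1 := by rw [mul_one]; exact hk.symm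
        exact Nat.eq_of_mul_eq_mul_left (by omega) this
    · rw [if_neg ?_]
      · apply Finset.sum_eq_zero
        intro e _
        rw [if_neg]
        intro h
        exact hgn ((Dvd.intro e rfl).trans h)
      · intro h
        exact hgn (h ▸ dvd_rfl)
  rw [Finset.sum_congr rfl h1, Finset.sum_ite_eq']
  by_cases h : n ∣ hn
  · rw [if_pos (Nat.mem_divisors.2 ⟨h, h0⟩), if_pos h]
  · rw [if_neg (fun h' => h (Nat.dvd_of_mem_divisors h')), if_neg h]

section
variable (c Q : ℕ) [NeZero c] [NeZero Q]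

/-- the equation modulo `c Q` for integers -/
lemma eq_iff_dvd (w2 w3 H : ℤ) (i j : ℕ) :
    ((w2 : ZMod (c * Q)) + ((Q * i : ℕ) : ZMod (c * Q))) * ((w3 : ZMod (c * Q)) + ((Q * j : ℕ) : ZMod (c * Q)))
      = ((H : ℤ) : ZMod (c * Q)) ↔ ((c * Q : ℕ) : ℤ) ∣ (w2 + Q * i) * (w3 + Q * j) - H := by
  rw [← ZMod.intCast_zmod_eq_zero_iff_dvd]
  push_cast
  rw [sub_eq_zero]

/-- the number of `j` for one `i` -/
lemma row_count (h w2 w3 w4 : ℤ)
    (hcong : (c : ℤ) * w4 + w2 * w3 ≡ h [ZMOD Q])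
    (hp : ∀ p : ℕ, p.Prime → p ∣ Q → ¬ ((p : ℤ) ∣ (c : ℤ)) ∨ ¬ ((p : ℤ) ∣ h)) (i : ℕ) :
    ((range c).filter (fun j : ℕ =>
      ((w2 : ZMod (c * Q)) + ((Q * i : ℕ) : ZMod (c * Q))) * ((w3 : ZMod (c * Q)) + ((Q * j : ℕ) : ZMod (c * Q)))
      = ((h - c * w4 : ℤ) : ZMod (c * Q)))).card
      = (if Int.gcd (w2 + Q * i) c ∣ h.natAbs then Int.gcd (w2 + Q * i) c else 0)
      ∧ Nat.Coprime (Int.gcd (w2 + Q * i) c) Q := by
  have hc : 0 < c := Nat.pos_of_ne_zero (NeZero.ne c)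
  have hQ : 0 < Q := Nat.pos_of_ne_zero (NeZero.ne Q)
  have hQ' : (Q : ℤ) ≠ 0 := by exact_mod_cast hQ.ne'
  set x : ℤ := w2 + Q * i with hx
  set g := Int.gcd x c with hg
  have hgc : (g : ℤ) ∣ (c : ℤ) := Int.gcd_dvd_right _ _
  have hgx : (g : ℤ) ∣ x := Int.gcd_dvd_left _ _
  obtain ⟨E0, hE0⟩ := (Int.modEq_iff_dvd).1 hcong.symm
  -- x w3 - h + c w4 = Q E
  set E : ℤ := E0 + i * w3 with hE
  have hQE : x * w3 - (h - c * w4) = Q * E := by
    rw [hx, hE]
    linear_combination hE0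
  -- coprimality
  have hcop : Nat.Coprime g Q := by
    rw [Nat.coprime_iff_gcd_eq_one]
    by_contra hne
    obtain ⟨p, hpp, hpd⟩ := Nat.exists_prime_and_dvd hne
    have hpg : p ∣ g := hpd.trans (Nat.gcd_dvd_left _ _)
    have hpQ : p ∣ Q := hpd.trans (Nat.gcd_dvd_right _ _)
    have hpg' : (p : ℤ) ∣ (g : ℤ) := by exact_mod_cast hpg
    have hpQ' : (p : ℤ) ∣ (Q : ℤ) := by exact_mod_cast hpQ
    have hpc : (p : ℤ) ∣ (c : ℤ) := hpg'.trans hgc
    have hpx : (p : ℤ) ∣ x := hpg'.trans hgx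
    rcases hp p hpp hpQ with h1 | h1
    · exact h1 hpc
    · apply h1
      have e : h = x * w3 + c * w4 - Q * E := by linear_combination -hQE
      rw [e]
      exact dvd_sub (dvd_add (hpx.mul_right _) (hpc.mul_right _)) (hpQ'.mul_right _)
  refine ⟨?_, hcop⟩
  have h1 : ((range c).filter (fun j : ℕ =>
      ((w2 : ZMod (c * Q)) + ((Q * i : ℕ) : ZMod (c * Q))) * ((w3 : ZMod (c * Q)) + ((Q * j : ℕ) : ZMod (c * Q)))
      = ((h - c * w4 : ℤ) : ZMod (c * Q)))) = (range c).filter (fun j : ℕ => (c : ℤ) ∣ E + x * j) := by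
    refine Finset.filter_congr fun j _ => ?_
    rw [eq_iff_dvd]
    have e : (w2 + (Q : ℤ) * i) * (w3 + Q * j) - (h - c * w4) = Q * (E + x * j) := by
      rw [← hx]
      linear_combination hQE
    rw [e]
    have e2 : ((c * Q : ℕ) : ℤ) = (Q : ℤ) * c := by push_cast; ring
    rw [e2]
    exact mul_dvd_mul_iff_left hQ'
  rw [h1, count_lin2 c hc x E, ← hg]
  have hiff : ((g : ℤ) ∣ E) ↔ (g ∣ h.natAbs) := by
    have hgQ : IsCoprime (g : ℤ) (Q : ℤ) := by
      rw [Int.isCoprime_iff_gcd_eq_one]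
      simpa using hcop
    have e1 : (g ∣ h.natAbs) ↔ ((g : ℤ) ∣ h) := by
      rw [← Int.natCast_dvd]
    rw [e1]
    constructor
    · intro hE
      have e : h = x * w3 + c * w4 - Q * E := by linear_combination -hQE
      rw [e]
      exact dvd_sub (dvd_add (hgx.mul_right _) (hgc.mul_right _)) (hE.mul_left _)
    · intro hh
      have e : (Q : ℤ) * E = x * w3 - (h - c * w4) := hQE.symm
      have h2 : (g : ℤ) ∣ (Q : ℤ) * E := by
        rw [e]
        exact dvd_sub (hgx.mul_right _) (dvd_sub hh (hgc.mul_right _))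
      exact hgQ.dvd_of_dvd_mul_left h2
  simp only [hiff]

lemma Nn_rows (w2 w3 H : ZMod (c * Q)) (m1 m2 : ℕ) :
    Nn c Q w2 w3 H m1 m2 = ∑ i ∈ range m1, ((range m2).filter (fun j : ℕ =>
      (w2 + ((Q * i : ℕ) : ZMod (c * Q))) * (w3 + ((Q * j : ℕ) : ZMod (c * Q))) = H)).card := by
  rw [Nn, Finset.card_filter, Finset.sum_product]
  refine Finset.sum_congr rfl fun i _ => ?_
  rw [Finset.card_filter]

/-- the local density factor -/
def fc (Q : ℕ) (h : ℤ) (N c : ℕ) : ℝ :=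
  ∑ g ∈ h.natAbs.divisors.filter (fun g => Nat.Coprime g Q),
    ∑ e ∈ (Icc 1 N).filter (fun e => Nat.Coprime e Q), if g * e ∣ c then (μ e : ℝ) / e else 0

/-- **The local count.** -/
theorem Nn_local (h w2 w3 w4 : ℤ) (h0 : h ≠ 0)
    (hcong : (c : ℤ) * w4 + w2 * w3 ≡ h [ZMOD Q])
    (hp : ∀ p : ℕ, p.Prime → p ∣ Q → ¬ ((p : ℤ) ∣ (c : ℤ)) ∨ ¬ ((p : ℤ) ∣ h)) (N : ℕ) (hN : c ≤ N) :
    (Nn c Q (w2 : ZMod (c * Q)) (w3 : ZMod (c * Q)) ((h - c * w4 : ℤ) : ZMod (c * Q)) c c : ℝ)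
      = c * fc Q h N c := by
  have hc : 0 < c := Nat.pos_of_ne_zero (NeZero.ne c)
  have hQ : 0 < Q := Nat.pos_of_ne_zero (NeZero.ne Q)
  have hn0 : h.natAbs ≠ 0 := Int.natAbs_ne_zero.2 h0
  rw [Nn_rows]
  have hrow : ∀ i : ℕ, (((range c).filter (fun j : ℕ =>
      ((w2 : ZMod (c * Q)) + ((Q * i : ℕ) : ZMod (c * Q))) * ((w3 : ZMod (c * Q)) + ((Q * j : ℕ) : ZMod (c * Q)))
      = ((h - c * w4 : ℤ) : ZMod (c * Q)))).card : ℝ)
      = ∑ g ∈ h.natAbs.divisors.filter (fun g => Nat.Coprime g Q),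
        ∑ e ∈ (Icc 1 N).filter (fun e => Nat.Coprime e Q),
          if g * e ∣ Int.gcd (w2 + Q * i) c then (g : ℝ) * μ e else 0 := by
    intro i
    obtain ⟨h1, h2⟩ := row_count c Q h w2 w3 w4 hcong hp i
    set n := Int.gcd (w2 + Q * i) c with hn
    have hnpos : 0 < n := Int.gcd_pos_of_ne_zero_right _ (by exact_mod_cast hc.ne')
    have hnc : n ∣ c := by
      have : (n : ℤ) ∣ (c : ℤ) := Int.gcd_dvd_right _ _
      exact_mod_cast this
    have hnN : n ≤ N := (Nat.le_of_dvd hc hnc).trans hN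
    have hid := moebius_id h.natAbs n N hn0 hnpos hnN
    rw [h1]
    have hid' : ((if n ∣ h.natAbs then n else 0 : ℕ) : ℝ)
        = ∑ g ∈ h.natAbs.divisors, ∑ e ∈ Icc 1 N, (if g * e ∣ n then (g : ℝ) * μ e else 0) := by
      have := congrArg (fun z : ℤ => (z : ℝ)) hid
      push_cast at this ⊢
      rw [← this]
    rw [hid', Finset.sum_filter]
    refine Finset.sum_congr rfl fun g _ => ?_
    by_cases hg : Nat.Coprime g Q
    · rw [if_pos hg, Finset.sum_filter]
      refine Finset.sum_congr rfl fun e _ => ?_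
      by_cases he : Nat.Coprime e Q
      · rw [if_pos he]
      · rw [if_neg he, if_neg]
        intro hd
        exact he (Nat.Coprime.coprime_dvd_left ((Dvd.intro_left g rfl).trans hd) h2)
    · rw [if_neg hg]
      apply Finset.sum_eq_zero
      intro e _
      rw [if_neg]
      intro hd
      exact hg (Nat.Coprime.coprime_dvd_left ((Dvd.intro e rfl).trans hd) h2)
  rw [Nat.cast_sum, Finset.sum_congr rfl fun i _ => hrow i, Finset.sum_comm, fc, Finset.mul_sum]
  refine Finset.sum_congr rfl fun g hg => ?_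
  rw [Finset.sum_comm, Finset.mul_sum]
  refine Finset.sum_congr rfl fun e he => ?_
  rw [mem_filter] at hg he
  have hgpos : 0 < g := Nat.pos_of_mem_divisors hg.1
  have hepos : 0 < e := (mem_Icc.1 he.1).1
  have hge : 0 < g * e := Nat.mul_pos hgpos hepos
  have hcop : Nat.Coprime (g * e) Q := Nat.Coprime.mul_left hg.2 he.2
  rw [← Finset.sum_filter, Finset.sum_const, nsmul_eq_mul]
  have hcnt : ((range c).filter (fun i : ℕ => g * e ∣ Int.gcd (w2 + Q * i) c)).card
      = if g * e ∣ c then c / (g * e) else 0 := by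
    split_ifs with hd
    · rw [← count_lin (g * e) c hge hd Q w2 (Nat.isCoprime_iff_coprime.2 hcop.symm)]
      congr 1
      refine Finset.filter_congr fun i _ => ?_
      constructor
      · intro h1
        have h2 : ((g * e : ℕ) : ℤ) ∣ ((Int.gcd (w2 + Q * i) c : ℕ) : ℤ) := by exact_mod_cast h1
        exact h2.trans (Int.gcd_dvd_left _ _)
      · intro h1
        have h2 : ((g * e : ℕ) : ℤ) ∣ (c : ℤ) := by exact_mod_cast hd
        have h3 : ((g * e : ℕ) : ℤ) ∣ ((Int.gcd (w2 + Q * i) c : ℕ) : ℤ) := Int.dvd_coe_gcd h1 h2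
        exact_mod_cast h3
    · rw [Finset.card_eq_zero, Finset.filter_eq_empty_iff]
      intro i _ h1
      apply hd
      have h2 : ((g * e : ℕ) : ℤ) ∣ ((Int.gcd (w2 + Q * i) c : ℕ) : ℤ) := by exact_mod_cast h1
      have h3 : ((g * e : ℕ) : ℤ) ∣ (c : ℤ) := h2.trans (Int.gcd_dvd_right _ _)
      exact_mod_cast h3
  rw [hcnt]
  have hgR : (g : ℝ) ≠ 0 := by exact_mod_cast hgpos.ne'
  have heR : (e : ℝ) ≠ 0 := by exact_mod_cast hepos.ne'
  split_ifs with hd
  · rw [Nat.cast_div hd (by exact_mod_cast hge.ne')]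
    push_cast
    field_simp
  · simp

/-- the local count is at most `c |h|` -/
theorem Nn_local_le (h w2 w3 w4 : ℤ) (h0 : h ≠ 0)
    (hcong : (c : ℤ) * w4 + w2 * w3 ≡ h [ZMOD Q])
    (hp : ∀ p : ℕ, p.Prime → p ∣ Q → ¬ ((p : ℤ) ∣ (c : ℤ)) ∨ ¬ ((p : ℤ) ∣ h)) :
    Nn c Q (w2 : ZMod (c * Q)) (w3 : ZMod (c * Q)) ((h - c * w4 : ℤ) : ZMod (c * Q)) c c
      ≤ c * h.natAbs := by
  have hn0 : 0 < h.natAbs := Int.natAbs_pos.2 h0
  rw [Nn_rows]
  calc _ ≤ ∑ i ∈ range c, h.natAbs := by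
        refine Finset.sum_le_sum fun i _ => ?_
        rw [(row_count c Q h w2 w3 w4 hcong hp i).1]
        split_ifs with hd
        · exact Nat.le_of_dvd hn0 hd
        · exact Nat.zero_le _
    _ = c * h.natAbs := by rw [Finset.sum_const, Finset.card_range, smul_eq_mul]

end

end Pool.Agent.W33f
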