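import Pool.Agent.W_d33b62f_h37.Kc4
import Pool.Agent.W_d33b62t5_h98.SmA

/-!
# MP_d33b62_nt, full question (helper56): the sum of the local factors over `c`
-/

set_option autoImplicit false

noncomputable section

open Finset
open scoped ArithmeticFunction.Moebius
open Pool.Agent.Wd33b62c

namespace Pool.Agent.W33f

/-- the number of `c ∈ (a, a + L]` in a class modulo `r` -/
lemma count_class (r : ℕ) (hr : 0 < r) (a v : ℤ) (L : ℕ) :
    |(((Ioc a (a + L)).filter (fun c => c ≡ v [ZMOD r])).card : ℝ) - (L : ℝ) / r| ≤ 1 := by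
  have hr' : (0 : ℤ) < r := by exact_mod_cast hr
  have hrR : (0 : ℝ) < r := by exact_mod_cast hr
  have h := Int.Ioc_filter_modEq_card a (a + L) hr' v
  set n := ((Ioc a (a + L)).filter (fun c => c ≡ v [ZMOD r])).card with hn
  set x : ℚ := ((a + L : ℤ) - v) / (r : ℤ) with hx
  set y : ℚ := ((a : ℤ) - v) / (r : ℤ) with hy
  have hxy : x - y = (L : ℚ) / r := by
    rw [hx, hy]
    push_cast
    ring
  have h1 : (n : ℤ) = max (⌊x⌋ - ⌊y⌋) 0 := by
    rw [h]
  have hle : ⌊y⌋ ≤ ⌊x⌋ := by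
    apply Int.floor_le_floor
    have : (0 : ℚ) ≤ (L : ℚ) / r := by positivity
    linarith
  rw [max_eq_left (by omega)] at h1
  have h2 : ((n : ℤ) : ℚ) = (⌊x⌋ : ℚ) - ⌊y⌋ := by rw [h1]; push_cast; ring
  have f1 := Int.floor_le x
  have f2 := Int.lt_floor_add_one x
  have f3 := Int.floor_le y
  have f4 := Int.lt_floor_add_one y
  have h3 : |((n : ℤ) : ℚ) - (L : ℚ) / r| ≤ 1 := by
    rw [h2, ← hxy, abs_le]
    constructor <;> linarith
  have h4 : ((|((n : ℤ) : ℚ) - (L : ℚ) / r| : ℚ) : ℝ) ≤ ((1 : ℚ) : ℝ) := by exact_mod_cast h3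
  push_cast at h4
  exact h4

/-- the number of `c ∈ (a, a + L]` in a class modulo `Q` and divisible by `m` -/
lemma count_class_dvd (Q m : ℕ) (hQ : 0 < Q) (hm : 0 < m) (hc : Nat.Coprime m Q) (a w : ℤ) (L : ℕ) :
    |(((Ioc a (a + L)).filter (fun c => c ≡ w [ZMOD Q] ∧ (m : ℤ) ∣ c)).card : ℝ) - (L : ℝ) / (Q * m)| ≤ 1 := by
  obtain ⟨x, y, hxy⟩ := Nat.isCoprime_iff_coprime.2 hc
  -- x m + y Q = 1, v = w x m
  set v : ℤ := w * (x * m) with hv
  have hiff : ∀ c : ℤ, (c ≡ w [ZMOD Q] ∧ (m : ℤ) ∣ c) ↔ c ≡ v [ZMOD (Q * m : ℕ)] := by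
    intro c
    have hcop : IsCoprime (Q : ℤ) (m : ℤ) := (Nat.isCoprime_iff_coprime.2 hc).symm
    constructor
    · rintro ⟨h1, h2⟩
      rw [Int.modEq_iff_dvd] at h1 ⊢
      push_cast
      apply hcop.mul_dvd
      · obtain ⟨t, ht⟩ := h1
        refine ⟨t - w * y, ?_⟩
        rw [hv]
        linear_combination ht + w * hxy
      · rw [hv]
        obtain ⟨t, ht⟩ := h2
        exact ⟨w * x - t, by rw [ht]; ring⟩
    · intro h
      rw [Int.modEq_iff_dvd] at h
      push_cast at h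
      have hQd : (Q : ℤ) ∣ v - c := (Dvd.intro _ rfl).trans h
      have hmd : (m : ℤ) ∣ v - c := (Dvd.intro_left _ rfl).trans h
      constructor
      · rw [Int.modEq_iff_dvd]
        obtain ⟨t, ht⟩ := hQd
        refine ⟨t + w * y, ?_⟩
        rw [hv] at ht
        linear_combination ht - w * hxy
      · have h2 : (m : ℤ) ∣ v := by rw [hv]; exact ⟨w * x, by ring⟩
        have := dvd_sub h2 hmd
        simpa using this
  have h := count_class (Q * m) (Nat.mul_pos hQ hm) a v L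
  have e : (Ioc a (a + L)).filter (fun c => c ≡ w [ZMOD Q] ∧ (m : ℤ) ∣ c)
      = (Ioc a (a + L)).filter (fun c => c ≡ v [ZMOD (Q * m : ℕ)]) :=
    Finset.filter_congr fun c _ => hiff c
  rw [e]
  push_cast at h
  push_cast
  exact h

/-- **The sum of the local factors.** -/
theorem fc_sum (Q : ℕ) (h w c0 : ℤ) (L N : ℕ) (hQ : 0 < Q) (h0 : h ≠ 0) (hc0 : 0 ≤ c0) (hN1 : 1 ≤ N)
    (hN : c0 + L ≤ N) :
    |∑ c ∈ (Ioc c0 (c0 + L)).filter (fun c => c ≡ w [ZMOD Q]), fc Q h N c.toNat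
      - (L : ℝ) / Q * cM Q * gsum Q h| ≤ |(h : ℝ)| * (2 + Real.log N) := by
  classical
  have hQR : (0 : ℝ) < Q := by exact_mod_cast hQ
  have hn0 : 0 < h.natAbs := Int.natAbs_pos.2 h0
  have hhabs : |(h : ℝ)| = (h.natAbs : ℝ) := by rw [Nat.cast_natAbs, Int.cast_abs]
  set D := h.natAbs.divisors.filter (fun g => Nat.Coprime g Q) with hD
  set E := (Icc 1 N).filter (fun e => Nat.Coprime e Q) with hE
  have hDcard : (D.card : ℝ) ≤ |(h : ℝ)| := by
    rw [hhabs]
    have h1 : D.card ≤ h.natAbs.divisors.card := Finset.card_filter_le _ _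
    have h2 : h.natAbs.divisors.card ≤ h.natAbs := Nat.card_divisors_le_self _
    exact_mod_cast h1.trans h2
  have hLN : (L : ℝ) ≤ N := by
    have : (L : ℤ) ≤ N := by omega
    exact_mod_cast this
  have hNR : (0 : ℝ) < N := by exact_mod_cast hN1
  -- exchange
  have hswap : ∑ c ∈ (Ioc c0 (c0 + L)).filter (fun c => c ≡ w [ZMOD Q]), fc Q h N c.toNat
      = ∑ g ∈ D, ∑ e ∈ E, (μ e : ℝ) / e
        * (((Ioc c0 (c0 + L)).filter (fun c => c ≡ w [ZMOD Q] ∧ ((g * e : ℕ) : ℤ) ∣ c)).card : ℝ) := by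
    simp only [fc, ← hD, ← hE]
    rw [Finset.sum_comm]
    refine Finset.sum_congr rfl fun g _ => ?_
    rw [Finset.sum_comm]
    refine Finset.sum_congr rfl fun e _ => ?_
    rw [← Finset.sum_filter, Finset.sum_const, nsmul_eq_mul, Finset.filter_filter, mul_comm]
    congr 2
    congr 1
    refine Finset.filter_congr fun c hc => ?_
    rw [mem_Ioc] at hc
    have hcn : ((c.toNat : ℕ) : ℤ) = c := Int.toNat_of_nonneg (by omega)
    constructor
    · rintro ⟨h1, h2⟩
      refine ⟨h1, ?_⟩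
      have : ((g * e : ℕ) : ℤ) ∣ ((c.toNat : ℕ) : ℤ) := by exact_mod_cast h2
      rwa [hcn] at this
    · rintro ⟨h1, h2⟩
      refine ⟨h1, ?_⟩
      rw [← hcn] at h2
      exact_mod_cast h2
  -- the main term
  have hmain : ∑ g ∈ D, ∑ e ∈ E, (μ e : ℝ) / e * ((L : ℝ) / (Q * ((g * e : ℕ) : ℝ)))
      = (L : ℝ) / Q * gsum Q h * ∑ e ∈ range (N + 1), cMt Q e := by
    have h1 : ∑ e ∈ range (N + 1), cMt Q e = ∑ e ∈ E, (μ e : ℝ) / (e : ℝ) ^ 2 := by
      rw [hE, Finset.sum_filter]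
      have h2 : Icc 1 N = (range (N + 1)).erase 0 := by
        ext e
        simp only [mem_Icc, mem_erase, mem_range]
        omega
      rw [h2]
      rw [← Finset.add_sum_erase (range (N + 1)) (fun e => cMt Q e) (mem_range.2 (Nat.succ_pos N))]
      have h3 : cMt Q 0 = 0 := by simp [cMt]
      rw [h3, zero_add]
      refine Finset.sum_congr rfl fun e _ => ?_
      rfl
    rw [h1, gsum, ← hD, mul_assoc, Finset.sum_mul_sum, Finset.mul_sum]
    refine Finset.sum_congr rfl fun g hg => ?_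
    rw [Finset.mul_sum]
    refine Finset.sum_congr rfl fun e he => ?_
    have hg' : (g : ℝ) ≠ 0 := by
      have := Nat.pos_of_mem_divisors (mem_filter.1 hg).1
      exact_mod_cast this.ne'
    have he' : (e : ℝ) ≠ 0 := by
      have := (mem_Icc.1 (mem_filter.1 he).1).1
      exact_mod_cast (by omega : e ≠ 0)
    push_cast
    field_simp
  -- the error term
  have herr : |∑ g ∈ D, ∑ e ∈ E, (μ e : ℝ) / e
        * (((Ioc c0 (c0 + L)).filter (fun c => c ≡ w [ZMOD Q] ∧ ((g * e : ℕ) : ℤ) ∣ c)).card : ℝ)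
      - ∑ g ∈ D, ∑ e ∈ E, (μ e : ℝ) / e * ((L : ℝ) / (Q * ((g * e : ℕ) : ℝ)))|
      ≤ |(h : ℝ)| * (1 + Real.log N) := by
    rw [← Finset.sum_sub_distrib]
    refine (Finset.abs_sum_le_sum_abs _ _).trans ?_
    have hin : ∀ g ∈ D, |∑ e ∈ E, (μ e : ℝ) / e
        * (((Ioc c0 (c0 + L)).filter (fun c => c ≡ w [ZMOD Q] ∧ ((g * e : ℕ) : ℤ) ∣ c)).card : ℝ)
        - ∑ e ∈ E, (μ e : ℝ) / e * ((L : ℝ) / (Q * ((g * e : ℕ) : ℝ)))| ≤ 1 + Real.log N := by
      intro g hg
      rw [← Finset.sum_sub_distrib]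
      refine (Finset.abs_sum_le_sum_abs _ _).trans ?_
      have hterm : ∀ e ∈ E, |(μ e : ℝ) / e
        * (((Ioc c0 (c0 + L)).filter (fun c => c ≡ w [ZMOD Q] ∧ ((g * e : ℕ) : ℤ) ∣ c)).card : ℝ)
        - (μ e : ℝ) / e * ((L : ℝ) / (Q * ((g * e : ℕ) : ℝ)))| ≤ 1 / (e : ℝ) := by
        intro e he
        have hgpos : 0 < g := Nat.pos_of_mem_divisors (mem_filter.1 hg).1
        have hepos : 0 < e := (mem_Icc.1 (mem_filter.1 he).1).1
        have heR : (0 : ℝ) < e := by exact_mod_cast hepos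
        have hcnt := count_class_dvd Q (g * e) hQ (Nat.mul_pos hgpos hepos)
          (Nat.Coprime.mul_left (mem_filter.1 hg).2 (mem_filter.1 he).2) c0 w L
        rw [← mul_sub, abs_mul, abs_div, abs_of_pos heR]
        have hmu : |(μ e : ℝ)| ≤ 1 := by
          have h1 := ArithmeticFunction.abs_moebius_le_one (n := e)
          have : ((|μ e| : ℤ) : ℝ) ≤ ((1 : ℤ) : ℝ) := by exact_mod_cast h1
          push_cast at this
          exact this
        calc |(μ e : ℝ)| / e * _ ≤ 1 / e * 1 := by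
              apply mul_le_mul (div_le_div_of_nonneg_right hmu heR.le) hcnt (abs_nonneg _) (by positivity)
          _ = 1 / (e : ℝ) := mul_one _
      refine (Finset.sum_le_sum hterm).trans ?_
      have h4 := harmonic_le_one_add_log N
      have h5 : ((harmonic N : ℚ) : ℝ) = ∑ j ∈ Icc 1 N, (1 : ℝ) / j := by
        rw [harmonic_eq_sum_Icc]
        push_cast
        refine Finset.sum_congr rfl fun j _ => ?_
        rw [one_div]
      rw [h5] at h4
      refine le_trans ?_ h4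
      apply Finset.sum_le_sum_of_subset_of_nonneg (Finset.filter_subset _ _)
      intro i _ _
      positivity
    refine (Finset.sum_le_sum hin).trans ?_
    rw [Finset.sum_const, nsmul_eq_mul]
    have hlog : 0 ≤ 1 + Real.log N := by
      have : 0 ≤ Real.log N := Real.log_nonneg (by exact_mod_cast hN1)
      linarith
    exact mul_le_mul_of_nonneg_right hDcard hlog
  have hg0 : 0 ≤ gsum Q h := Finset.sum_nonneg fun g _ => by positivity
  have hgle : gsum Q h ≤ |(h : ℝ)| := by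
    refine le_trans ?_ hDcard
    rw [gsum, ← hD]
    calc ∑ g ∈ D, 1 / (g : ℝ) ≤ ∑ g ∈ D, 1 := by
          refine Finset.sum_le_sum fun g hg => ?_
          have hgpos : 0 < g := Nat.pos_of_mem_divisors (mem_filter.1 hg).1
          rw [div_le_one (by exact_mod_cast hgpos)]
          exact_mod_cast hgpos
      _ = (D.card : ℝ) := by simp
  have htail := cm_tail Q N hN1
  rw [hswap]
  rw [hmain] at herr
  have h2 : |(L : ℝ) / Q * gsum Q h * ∑ e ∈ range (N + 1), cMt Q e - (L : ℝ) / Q * cM Q * gsum Q h|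
      ≤ |(h : ℝ)| := by
    have e : (L : ℝ) / Q * gsum Q h * ∑ e ∈ range (N + 1), cMt Q e - (L : ℝ) / Q * cM Q * gsum Q h
        = -((L : ℝ) / Q * gsum Q h * (cM Q - ∑ e ∈ range (N + 1), cMt Q e)) := by ring
    rw [e, abs_neg, abs_mul, abs_of_nonneg (by positivity)]
    have hQ1 : (1 : ℝ) ≤ Q := by exact_mod_cast hQ
    calc (L : ℝ) / Q * gsum Q h * |cM Q - ∑ e ∈ range (N + 1), cMt Q e|
        ≤ (N : ℝ) * |(h : ℝ)| * (1 / N) := by
          apply mul_le_mul _ htail (abs_nonneg _) (by positivity)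
          apply mul_le_mul _ hgle hg0 hNR.le
          rw [div_le_iff₀ hQR]
          calc (L : ℝ) ≤ N := hLN
            _ ≤ N * Q := le_mul_of_one_le_right hNR.le hQ1
      _ = |(h : ℝ)| := by field_simp
  calc _ ≤ |∑ g ∈ D, ∑ e ∈ E, (μ e : ℝ) / e
        * (((Ioc c0 (c0 + L)).filter (fun c => c ≡ w [ZMOD Q] ∧ ((g * e : ℕ) : ℤ) ∣ c)).card : ℝ)
        - (L : ℝ) / Q * gsum Q h * ∑ e ∈ range (N + 1), cMt Q e|
        + |(L : ℝ) / Q * gsum Q h * ∑ e ∈ range (N + 1), cMt Q e - (L : ℝ) / Q * cM Q * gsum Q h| :=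
        abs_sub_le _ _ _
    _ ≤ |(h : ℝ)| * (1 + Real.log N) + |(h : ℝ)| := add_le_add herr h2
    _ = |(h : ℝ)| * (2 + Real.log N) := by ring

end Pool.Agent.W33f
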