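import Pool.Agent.W_d33b62f_h37.Kc5

/-!
# MP_d33b62_nt, full question (helper56): one row of the box
-/

set_option autoImplicit false

noncomputable section

open Finset
open scoped ArithmeticFunction.Moebius
open Pool.Agent.Wd33b62c

namespace Pool.Agent.W33f

/-- a class modulo `Q` in an interval as an arithmetic progression -/
lemma class_interval (Q : ℕ) (hQ : 0 < Q) (a w : ℤ) (L : ℕ) : ∃ (w' : ℤ) (m : ℕ), w' ≡ w [ZMOD Q] ∧ m ≤ L ∧
    |(m : ℝ) - (L : ℝ) / Q| ≤ 1 ∧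
    (Ioc a (a + L)).filter (fun b => b ≡ w [ZMOD Q]) = (range m).image (fun i : ℕ => w' + (Q : ℤ) * i) := by
  have hQ' : (0 : ℤ) < Q := by exact_mod_cast hQ
  set r : ℕ := ((w - a - 1) % Q).toNat with hr
  have hr0 : (r : ℤ) = (w - a - 1) % Q := Int.toNat_of_nonneg (Int.emod_nonneg _ hQ'.ne')
  have hrQ : r < Q := by
    have := Int.emod_lt_of_pos (w - a - 1) hQ'
    rw [← hr0] at this
    exact_mod_cast this
  set w' : ℤ := a + 1 + r with hw'
  set m : ℕ := (L + (Q - 1 - r)) / Q with hm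
  have hww : w' ≡ w [ZMOD Q] := by
    rw [Int.modEq_iff_dvd, hw', hr0]
    have := Int.emod_add_mul_ediv (w - a - 1) Q
    refine ⟨(w - a - 1) / Q, ?_⟩
    linear_combination -this
  have hset : (Ioc a (a + L)).filter (fun b => b ≡ w [ZMOD Q])
      = (range m).image (fun i : ℕ => w' + (Q : ℤ) * i) := by
    ext b
    simp only [mem_filter, mem_Ioc, mem_image, mem_range]
    have hlt : ∀ i : ℕ, i < m ↔ Q * i + r < L := by
      intro i
      rw [hm, Nat.lt_iff_add_one_le, Nat.le_div_iff_mul_le hQ]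
      have : (i + 1) * Q = Q * i + Q := by ring
      rw [this]
      omega
    constructor
    · rintro ⟨⟨h1, h2⟩, h3⟩
      have h4 : w' ≡ b [ZMOD Q] := hww.trans h3.symm
      rw [Int.modEq_iff_dvd] at h4
      obtain ⟨t, ht⟩ := h4
      have ht0 : 0 ≤ t := by
        by_contra hneg
        push Not at hneg
        have : (Q : ℤ) * t ≤ (Q : ℤ) * (-1) := mul_le_mul_of_nonneg_left (by omega) hQ'.le
        have hrQ' : (r : ℤ) < Q := by exact_mod_cast hrQ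
        rw [hw'] at ht
        omega
      refine ⟨t.toNat, ?_, ?_⟩
      · rw [hlt]
        have e : ((Q * t.toNat + r : ℕ) : ℤ) < L := by
          push_cast
          rw [Int.toNat_of_nonneg ht0]
          rw [hw'] at ht
          linarith
        exact_mod_cast e
      · rw [Int.toNat_of_nonneg ht0]
        linarith
    · rintro ⟨i, hi, rfl⟩
      rw [hlt] at hi
      have hi' : (Q : ℤ) * i + r < L := by exact_mod_cast hi
      have hi0 : (0 : ℤ) ≤ (Q : ℤ) * i := by positivity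
      refine ⟨⟨?_, ?_⟩, ?_⟩
      · rw [hw']
        have : (0 : ℤ) ≤ r := Int.natCast_nonneg r
        linarith
      · rw [hw']
        linarith
      · refine Int.ModEq.trans ?_ hww
        rw [Int.modEq_iff_dvd]
        exact ⟨-i, by ring⟩
  have hcard : ((Ioc a (a + L)).filter (fun b => b ≡ w [ZMOD Q])).card = m := by
    rw [hset, Finset.card_image_of_injective, Finset.card_range]
    intro i j hij
    have : (Q : ℤ) * i = (Q : ℤ) * j := by simpa using hij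
    have := mul_left_cancel₀ hQ'.ne' this
    exact_mod_cast this
  refine ⟨w', m, hww, ?_, ?_, hset⟩
  · have h1 : m ≤ ((Ioc a (a + L)).filter (fun b => b ≡ w [ZMOD Q])).card := hcard.ge
    refine h1.trans ((Finset.card_filter_le _ _).trans ?_)
    rw [Int.card_Ioc]
    simp
  · rw [← hcard]
    exact count_class Q hQ a w L

open Classical in
/-- the points of one row -/
def Row (Q : ℕ) (h w2 w3 w4 b0 g0 : ℤ) (L2 L3 : ℕ) (c : ℤ) : Finset (ℤ × ℤ) :=
  (Ioc b0 (b0 + L2) ×ˢ Ioc g0 (g0 + L3)).filter fun q =>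
    q.1 ≡ w2 [ZMOD Q] ∧ q.2 ≡ w3 [ZMOD Q] ∧ ∃ d : ℤ, d ≡ w4 [ZMOD Q] ∧ c * d + q.1 * q.2 = h

lemma row_card (Q : ℕ) [NeZero Q] (h w2 w3 w4 b0 g0 : ℤ) (L2 L3 : ℕ) (w2' w3' : ℤ) (m1 m2 : ℕ)
    (hI : (Ioc b0 (b0 + L2)).filter (fun b => b ≡ w2 [ZMOD Q]) = (range m1).image (fun i : ℕ => w2' + (Q : ℤ) * i))
    (hJ : (Ioc g0 (g0 + L3)).filter (fun b => b ≡ w3 [ZMOD Q]) = (range m2).image (fun i : ℕ => w3' + (Q : ℤ) * i))
    (c : ℕ) [NeZero c] :
    (Row Q h w2 w3 w4 b0 g0 L2 L3 c).card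
      = Nn c Q (w2' : ZMod (c * Q)) (w3' : ZMod (c * Q)) ((h - c * w4 : ℤ) : ZMod (c * Q)) m1 m2 := by
  classical
  have hQ' : (Q : ℤ) ≠ 0 := by exact_mod_cast NeZero.ne Q
  symm
  rw [Nn]
  refine Finset.card_bij (fun p _ => (w2' + (Q : ℤ) * p.1, w3' + (Q : ℤ) * p.2)) ?_ ?_ ?_
  · rintro ⟨i, j⟩ hp
    rw [mem_filter, mem_product, mem_range, mem_range] at hp
    obtain ⟨⟨hi, hj⟩, heq⟩ := hp
    have hb : w2' + (Q : ℤ) * i ∈ (Ioc b0 (b0 + L2)).filter (fun b => b ≡ w2 [ZMOD Q]) := by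
      rw [hI]; exact mem_image_of_mem _ (mem_range.2 hi)
    have hg : w3' + (Q : ℤ) * j ∈ (Ioc g0 (g0 + L3)).filter (fun b => b ≡ w3 [ZMOD Q]) := by
      rw [hJ]; exact mem_image_of_mem _ (mem_range.2 hj)
    rw [mem_filter] at hb hg
    refine mem_filter.2 ⟨mem_product.2 ⟨hb.1, hg.1⟩, hb.2, hg.2, ?_⟩
    simp only at heq ⊢
    rw [eq_iff_dvd] at heq
    obtain ⟨t, ht⟩ := heq
    refine ⟨w4 - Q * t, ?_, ?_⟩
    · rw [Int.modEq_iff_dvd]; exact ⟨t, by ring⟩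
    · push_cast at ht
      linear_combination ht
  · rintro ⟨i, j⟩ _ ⟨i', j'⟩ _ hij
    simp only [Prod.mk.injEq, add_right_inj] at hij
    have h1 := mul_left_cancel₀ hQ' hij.1
    have h2 := mul_left_cancel₀ hQ' hij.2
    rw [Prod.mk.injEq]
    exact ⟨by exact_mod_cast h1, by exact_mod_cast h2⟩
  · rintro ⟨b, g⟩ hq
    have hq := mem_filter.1 hq
    obtain ⟨hbox, h2, h3, d, hd, hdeq⟩ := hq
    rw [mem_product] at hbox
    have hb : b ∈ (Ioc b0 (b0 + L2)).filter (fun b => b ≡ w2 [ZMOD Q]) := mem_filter.2 ⟨hbox.1, h2⟩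
    have hg : g ∈ (Ioc g0 (g0 + L3)).filter (fun b => b ≡ w3 [ZMOD Q]) := mem_filter.2 ⟨hbox.2, h3⟩
    rw [hI] at hb
    rw [hJ] at hg
    obtain ⟨i, hi, hib⟩ := mem_image.1 hb
    obtain ⟨j, hj, hjg⟩ := mem_image.1 hg
    refine ⟨(i, j), mem_filter.2 ⟨mem_product.2 ⟨hi, hj⟩, ?_⟩, ?_⟩
    · simp only
      rw [eq_iff_dvd, hib, hjg]
      rw [Int.modEq_iff_dvd] at hd
      obtain ⟨t, ht⟩ := hd
      refine ⟨t, ?_⟩
      simp only at hdeq
      push_cast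
      linear_combination hdeq + (c : ℤ) * ht
    · simp only
      rw [hib, hjg]

/-- the gcd of the right side -/
lemma gcd_H_le (c Q : ℕ) [NeZero c] [NeZero Q] (h w4 : ℤ) (h0 : h ≠ 0) :
    Nat.gcd (((h - c * w4 : ℤ) : ZMod (c * Q))).val (c * Q) ≤ Q * h.natAbs := by
  have hQ : 0 < Q := Nat.pos_of_ne_zero (NeZero.ne Q)
  have hn0 : 0 < h.natAbs := Int.natAbs_pos.2 h0
  set D := Nat.gcd (((h - c * w4 : ℤ) : ZMod (c * Q))).val (c * Q) with hD
  have h1 : (D : ℤ) ∣ ((c * Q : ℕ) : ℤ) := by exact_mod_cast Nat.gcd_dvd_right _ _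
  have h2 : (D : ℤ) ∣ ((((h - c * w4 : ℤ) : ZMod (c * Q))).val : ℤ) := by
    exact_mod_cast Nat.gcd_dvd_left _ _
  rw [ZMod.val_intCast] at h2
  have h3 : (D : ℤ) ∣ h - c * w4 := by
    rw [← Int.emod_add_mul_ediv (h - c * w4) ((c * Q : ℕ) : ℤ)]
    exact dvd_add h2 (h1.mul_right _)
  have h4 : (D : ℤ) ∣ Q * h := by
    have h5 : (D : ℤ) ∣ (Q : ℤ) * (h - c * w4) := Dvd.dvd.mul_left h3 _
    have h6 : (D : ℤ) ∣ w4 * ((c * Q : ℕ) : ℤ) := Dvd.dvd.mul_left h1 _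
    have e : (Q : ℤ) * h = (Q : ℤ) * (h - c * w4) + w4 * ((c * Q : ℕ) : ℤ) := by push_cast; ring
    rw [e]
    exact dvd_add h5 h6
  have h5 : D ∣ Q * h.natAbs := by
    rw [Int.natCast_dvd, Int.natAbs_mul, Int.natAbs_natCast] at h4
    exact h4
  exact Nat.le_of_dvd (Nat.mul_pos hQ hn0) h5

end Pool.Agent.W33f
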