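import Pool.Agent.W_d33b62f_h37.Kc6
import Pool.Agent.W_fd120a_h34.Div

/-!
# MP_d33b62_nt, full question (helper56): the box lemma
-/

set_option autoImplicit false

noncomputable section

open Finset
open scoped ArithmeticFunction.Moebius
open Pool.Agent.Wd33b62c

namespace Pool.Agent.W33f

/-- **One row.** -/
theorem row_est : ∃ C : ℝ, 1 ≤ C ∧ ∀ (Q : ℕ) (h w2 w3 w4 b0 g0 : ℤ) (L2 L3 : ℕ) (w2' w3' : ℤ) (m1 m2 : ℕ),
    1 ≤ Q → h ≠ 0 →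
    (Ioc b0 (b0 + L2)).filter (fun b => b ≡ w2 [ZMOD Q]) = (range m1).image (fun i : ℕ => w2' + (Q : ℤ) * i) →
    (Ioc g0 (g0 + L3)).filter (fun b => b ≡ w3 [ZMOD Q]) = (range m2).image (fun i : ℕ => w3' + (Q : ℤ) * i) →
    w2' ≡ w2 [ZMOD Q] → w3' ≡ w3 [ZMOD Q] →
    ∀ (c N : ℕ), 1 ≤ c → m1 ≤ c → m2 ≤ c → c ≤ N → (c : ℤ) * w4 + w2 * w3 ≡ h [ZMOD Q] →
    (∀ p : ℕ, p.Prime → p ∣ Q → ¬ ((p : ℤ) ∣ (c : ℤ)) ∨ ¬ ((p : ℤ) ∣ h)) →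
    |(c : ℝ) * ((Row Q h w2 w3 w4 b0 g0 L2 L3 c).card : ℝ) - (m1 : ℝ) * m2 * fc Q h N c|
      ≤ C * (Q : ℝ) ^ 3 * |(h : ℝ)| * (c : ℝ) ^ (9 / 5 : ℝ) := by
  obtain ⟨C1, hC1, hdiv⟩ := FD120.divisor_bound (1 / 100) (by norm_num)
  refine ⟨6 * C1 * (101 * C1) ^ 2 + 1, by nlinarith [mul_pos hC1 (pow_pos (mul_pos (by norm_num : (0:ℝ) < 101) hC1) 2)], ?_⟩
  intro Q h w2 w3 w4 b0 g0 L2 L3 w2' w3' m1 m2 hQ h0 hI hJ hw2 hw3 c N hc hm1 hm2 hcN hcong hp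
  have : NeZero c := ⟨by omega⟩
  have : NeZero Q := ⟨by omega⟩
  have hcR : (0 : ℝ) < c := by exact_mod_cast hc
  have hc1R : (1 : ℝ) ≤ c := by exact_mod_cast hc
  have hQR : (0 : ℝ) < Q := by exact_mod_cast hQ
  have hQ1R : (1 : ℝ) ≤ Q := by exact_mod_cast hQ
  have hhabs : |(h : ℝ)| = (h.natAbs : ℝ) := by rw [Nat.cast_natAbs, Int.cast_abs]
  have hh1 : (1 : ℝ) ≤ |(h : ℝ)| := by
    rw [hhabs]
    exact_mod_cast Int.natAbs_pos.2 h0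
  have hcong' : (c : ℤ) * w4 + w2' * w3' ≡ h [ZMOD Q] :=
    (Int.ModEq.add_left _ (hw2.mul hw3)).trans hcong
  have hloc := Nn_local c Q h w2' w3' w4 h0 hcong' hp N hcN
  have hcomp := completion c Q (w2' : ZMod (c * Q)) (w3' : ZMod (c * Q))
    ((h - c * w4 : ℤ) : ZMod (c * Q)) m1 m2 hm1 hm2
  rw [row_card Q h w2 w3 w4 b0 g0 L2 L3 w2' w3' m1 m2 hI hJ c]
  rw [hloc] at hcomp
  set n : ℝ := (Nn c Q (w2' : ZMod (c * Q)) (w3' : ZMod (c * Q))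
    ((h - c * w4 : ℤ) : ZMod (c * Q)) m1 m2 : ℝ) with hn
  set G := Nat.gcd (((h - c * w4 : ℤ) : ZMod (c * Q))).val (c * Q) with hG
  have hGle : (G : ℝ) ≤ Q * |(h : ℝ)| := by
    rw [hhabs]
    exact_mod_cast gcd_H_le c Q h w4 h0
  -- bound of A0
  have hdcQ : ((c * Q).divisors.card : ℝ) ≤ C1 * ((c : ℝ) * Q) ^ (1 / 100 : ℝ) := by
    have := hdiv (c * Q) (Nat.mul_pos (by omega) (by omega))
    push_cast at this
    exact this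
  have hA0 : A0 c Q G ≤ 2 * C1 * (Q : ℝ) ^ 3 * |(h : ℝ)| * (c : ℝ) ^ (76 / 100 : ℝ) := by
    unfold A0
    have e1 : ((c * Q : ℕ) : ℝ) ^ (3 / 4 : ℝ) * (Q : ℝ) ^ (1 / 4 : ℝ) = (c : ℝ) ^ (3 / 4 : ℝ) * Q := by
      push_cast
      rw [Real.mul_rpow hcR.le hQR.le, mul_assoc, ← Real.rpow_add hQR]
      norm_num
    have e2 : ((c : ℝ) * Q) ^ (1 / 100 : ℝ) ≤ (c : ℝ) ^ (1 / 100 : ℝ) * Q := by
      rw [Real.mul_rpow hcR.le hQR.le]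
      apply mul_le_mul_of_nonneg_left _ (by positivity)
      calc (Q : ℝ) ^ (1 / 100 : ℝ) ≤ (Q : ℝ) ^ (1 : ℝ) :=
            Real.rpow_le_rpow_of_exponent_le hQ1R (by norm_num)
        _ = Q := Real.rpow_one _
    have e3 : (c : ℝ) ^ (1 / 100 : ℝ) * (c : ℝ) ^ (3 / 4 : ℝ) = (c : ℝ) ^ (76 / 100 : ℝ) := by
      rw [← Real.rpow_add hcR]; norm_num
    calc 2 * (G : ℝ) * ((c * Q).divisors.card : ℝ) * ((c * Q : ℕ) : ℝ) ^ (3 / 4 : ℝ)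
          * (Q : ℝ) ^ (1 / 4 : ℝ)
        = 2 * (G : ℝ) * ((c * Q).divisors.card : ℝ) * ((c : ℝ) ^ (3 / 4 : ℝ) * Q) := by
          rw [← e1]; ring
      _ ≤ 2 * (Q * |(h : ℝ)|) * (C1 * ((c : ℝ) ^ (1 / 100 : ℝ) * Q)) * ((c : ℝ) ^ (3 / 4 : ℝ) * Q) := by
          have h1 : ((c * Q).divisors.card : ℝ) ≤ C1 * ((c : ℝ) ^ (1 / 100 : ℝ) * Q) :=
            hdcQ.trans (mul_le_mul_of_nonneg_left e2 hC1.le)
          gcongr
      _ = 2 * C1 * (Q : ℝ) ^ 3 * |(h : ℝ)| * ((c : ℝ) ^ (1 / 100 : ℝ) * (c : ℝ) ^ (3 / 4 : ℝ)) := by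
          ring
      _ = _ := by rw [e3]
  have hDc : Dc c ≤ 101 * C1 * (c : ℝ) ^ (1 / 50 : ℝ) := by
    unfold Dc
    have h1 := hdiv c (by omega)
    have h2 : 1 + Real.log c ≤ 101 * (c : ℝ) ^ (1 / 100 : ℝ) := by
      have h3 := Real.log_le_rpow_div hcR.le (by norm_num : (0 : ℝ) < 1 / 100)
      have h4 : (1 : ℝ) ≤ (c : ℝ) ^ (1 / 100 : ℝ) := Real.one_le_rpow hc1R (by norm_num)
      have h5 : (c : ℝ) ^ (1 / 100 : ℝ) / (1 / 100) = 100 * (c : ℝ) ^ (1 / 100 : ℝ) := by ring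
      rw [h5] at h3
      linarith
    have hlog : 0 ≤ 1 + Real.log c := by
      have : 0 ≤ Real.log c := Real.log_nonneg hc1R
      linarith
    calc (c.divisors.card : ℝ) * (1 + Real.log c)
        ≤ (C1 * (c : ℝ) ^ (1 / 100 : ℝ)) * (101 * (c : ℝ) ^ (1 / 100 : ℝ)) := by gcongr
      _ = 101 * C1 * ((c : ℝ) ^ (1 / 100 : ℝ) * (c : ℝ) ^ (1 / 100 : ℝ)) := by ring
      _ = _ := by rw [← Real.rpow_add hcR]; norm_num
  have hDc0 : 0 ≤ Dc c := zero_le_one.trans (one_le_Dc c)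
  have hDc2 : (Dc c) ^ 2 ≤ (101 * C1) ^ 2 * (c : ℝ) ^ (1 / 25 : ℝ) := by
    calc (Dc c) ^ 2 ≤ (101 * C1 * (c : ℝ) ^ (1 / 50 : ℝ)) ^ 2 := pow_le_pow_left₀ hDc0 hDc 2
      _ = (101 * C1) ^ 2 * ((c : ℝ) ^ (1 / 50 : ℝ)) ^ 2 := by ring
      _ = _ := by
        congr 1
        rw [← Real.rpow_natCast, ← Real.rpow_mul hcR.le]
        norm_num
  have hkey : (c : ℝ) * n - (m1 : ℝ) * m2 * fc Q h N c
      = c * (n - (m1 : ℝ) * m2 * (c * fc Q h N c) / (c : ℝ) ^ 2) := by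
    field_simp
  rw [hkey, abs_mul, abs_of_pos hcR]
  calc (c : ℝ) * |n - (m1 : ℝ) * m2 * (c * fc Q h N c) / (c : ℝ) ^ 2|
      ≤ c * (3 * A0 c Q G * (Dc c) ^ 2) := mul_le_mul_of_nonneg_left hcomp hcR.le
    _ ≤ c * (3 * (2 * C1 * (Q : ℝ) ^ 3 * |(h : ℝ)| * (c : ℝ) ^ (76 / 100 : ℝ))
          * ((101 * C1) ^ 2 * (c : ℝ) ^ (1 / 25 : ℝ))) := by
        have := A0_nonneg c Q G
        gcongr
    _ = 6 * C1 * (101 * C1) ^ 2 * (Q : ℝ) ^ 3 * |(h : ℝ)|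
          * (c * ((c : ℝ) ^ (76 / 100 : ℝ) * (c : ℝ) ^ (1 / 25 : ℝ))) := by ring
    _ = 6 * C1 * (101 * C1) ^ 2 * (Q : ℝ) ^ 3 * |(h : ℝ)| * (c : ℝ) ^ (9 / 5 : ℝ) := by
        congr 1
        have e : (c : ℝ) * ((c : ℝ) ^ (76 / 100 : ℝ) * (c : ℝ) ^ (1 / 25 : ℝ))
            = (c : ℝ) ^ (1 : ℝ) * ((c : ℝ) ^ (76 / 100 : ℝ) * (c : ℝ) ^ (1 / 25 : ℝ)) := by
          rw [Real.rpow_one]
        rw [e, ← Real.rpow_add hcR, ← Real.rpow_add hcR]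
        norm_num
    _ ≤ (6 * C1 * (101 * C1) ^ 2 + 1) * (Q : ℝ) ^ 3 * |(h : ℝ)| * (c : ℝ) ^ (9 / 5 : ℝ) := by
        gcongr
        linarith

/-- **The box lemma** (weight `c`, two-sided, every modulus `Q`). -/
theorem boxW : ∃ C : ℝ, 1 ≤ C ∧
    ∀ (Q : ℕ) (h w1 w2 w3 w4 c0 b0 g0 : ℤ) (L1 L2 L3 : ℕ) (X : ℝ), 1 ≤ Q → h ≠ 0 → 1 ≤ X →
      w1 * w4 + w2 * w3 ≡ h [ZMOD Q] →
      (∀ p : ℕ, p.Prime → p ∣ Q → ¬ ((p : ℤ) ∣ w1) ∨ ¬ ((p : ℤ) ∣ h)) →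
      0 ≤ c0 → ((c0 + L1 : ℤ) : ℝ) ≤ X → (L2 : ℤ) ≤ c0 + 1 → (L3 : ℤ) ≤ c0 + 1 →
      |∑ q ∈ KF Q h w1 w2 w3 w4 c0 b0 g0 L1 L2 L3, (q.1 : ℝ)
          - cM Q * gsum Q h * ((L1 : ℝ) * L2 * L3) / (Q : ℝ) ^ 3| ≤
        C * (Q : ℝ) ^ 3 * |(h : ℝ)| * X ^ (14 / 5 : ℝ) := by
  classical
  obtain ⟨C, hC, hrow⟩ := row_est
  refine ⟨C + 24, by linarith, ?_⟩
  intro Q h w1 w2 w3 w4 c0 b0 g0 L1 L2 L3 X hQ h0 hX hcong hp hc0 hX1 hL2 hL3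
  have hQR : (0 : ℝ) < Q := by exact_mod_cast hQ
  have hQ1R : (1 : ℝ) ≤ Q := by exact_mod_cast hQ
  have hX0 : (0 : ℝ) < X := by linarith
  have hhabs : |(h : ℝ)| = (h.natAbs : ℝ) := by rw [Nat.cast_natAbs, Int.cast_abs]
  have hh1 : (1 : ℝ) ≤ |(h : ℝ)| := by
    rw [hhabs]
    exact_mod_cast Int.natAbs_pos.2 h0
  obtain ⟨w2', m1, hw2, hm1, hm1', hI⟩ := class_interval Q hQ b0 w2 L2
  obtain ⟨w3', m2, hw3, hm2, hm2', hJ⟩ := class_interval Q hQ g0 w3 L3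
  set N : ℕ := (c0 + L1).toNat + 1 with hN
  have hNc : (((c0 + L1).toNat : ℕ) : ℤ) = c0 + L1 := Int.toNat_of_nonneg (by positivity)
  have hNR : (N : ℝ) ≤ 2 * X := by
    rw [hN]
    push_cast
    have : (((c0 + L1).toNat : ℕ) : ℝ) = ((c0 + L1 : ℤ) : ℝ) := by exact_mod_cast congrArg (fun z : ℤ => (z : ℝ)) hNc
    rw [this]
    linarith
  have hL1X : (L1 : ℝ) ≤ X := by
    refine le_trans ?_ hX1
    have : (L1 : ℤ) ≤ c0 + L1 := by omega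
    exact_mod_cast this
  have hL2X : (L2 : ℝ) ≤ 2 * X := by
    have h1 : (L2 : ℤ) ≤ c0 + L1 + 1 := by omega
    have h2 : (L2 : ℝ) ≤ ((c0 + L1 : ℤ) : ℝ) + 1 := by exact_mod_cast h1
    linarith
  have hL3X : (L3 : ℝ) ≤ 2 * X := by
    have h1 : (L3 : ℤ) ≤ c0 + L1 + 1 := by omega
    have h2 : (L3 : ℝ) ≤ ((c0 + L1 : ℤ) : ℝ) + 1 := by exact_mod_cast h1
    linarith
  set S := (Ioc c0 (c0 + L1)).filter (fun c => c ≡ w1 [ZMOD Q]) with hS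
  -- the sum over the rows
  have hsum : ∑ q ∈ KF Q h w1 w2 w3 w4 c0 b0 g0 L1 L2 L3, (q.1 : ℝ)
      = ∑ c ∈ S, (c : ℝ) * ((Row Q h w2 w3 w4 b0 g0 L2 L3 c).card : ℝ) := by
    rw [KF, Finset.sum_filter, Finset.sum_product, hS, Finset.sum_filter]
    refine Finset.sum_congr rfl fun c _ => ?_
    by_cases hcw : c ≡ w1 [ZMOD Q]
    · rw [if_pos hcw, Row, Finset.card_filter]
      push_cast
      rw [Finset.mul_sum]
      refine Finset.sum_congr rfl fun p _ => ?_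
      simp only [hcw, true_and]
      split_ifs <;> simp
    · rw [if_neg hcw]
      apply Finset.sum_eq_zero
      intro p _
      rw [if_neg]
      rintro ⟨h1, _⟩
      exact hcw h1
  have hScard : (S.card : ℝ) ≤ X := by
    refine le_trans ?_ hL1X
    have : S.card ≤ L1 := by
      rw [hS]
      refine (Finset.card_filter_le _ _).trans ?_
      rw [Int.card_Ioc]
      simp
    exact_mod_cast this
  have herr1 : |∑ c ∈ S, (c : ℝ) * ((Row Q h w2 w3 w4 b0 g0 L2 L3 c).card : ℝ)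
      - (m1 : ℝ) * m2 * ∑ c ∈ S, fc Q h N c.toNat| ≤ C * (Q : ℝ) ^ 3 * |(h : ℝ)| * X ^ (14 / 5 : ℝ) := by
    rw [Finset.mul_sum, ← Finset.sum_sub_distrib]
    refine (Finset.abs_sum_le_sum_abs _ _).trans ?_
    have hterm : ∀ c ∈ S, |(c : ℝ) * ((Row Q h w2 w3 w4 b0 g0 L2 L3 c).card : ℝ)
        - (m1 : ℝ) * m2 * fc Q h N c.toNat| ≤ C * (Q : ℝ) ^ 3 * |(h : ℝ)| * X ^ (9 / 5 : ℝ) := by
      intro c hc
      rw [hS, mem_filter, mem_Ioc] at hc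
      obtain ⟨⟨hc1, hc2⟩, hc3⟩ := hc
      obtain ⟨d, rfl⟩ : ∃ d : ℕ, (d : ℤ) = c := ⟨c.toNat, Int.toNat_of_nonneg (by omega)⟩
      rw [Int.toNat_natCast]
      have hd1 : 1 ≤ d := by omega
      have hdX : (d : ℝ) ≤ X := by
        refine le_trans ?_ hX1
        exact_mod_cast hc2
      have := hrow Q h w2 w3 w4 b0 g0 L2 L3 w2' w3' m1 m2 hQ h0 hI hJ hw2 hw3 d N hd1
        (by omega) (by omega) (by omega)
        ((Int.ModEq.add_right _ (hc3.mul_right _)).trans hcong) (by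
          intro p hpp hpQ
          rcases hp p hpp hpQ with h1 | h1
          · left
            intro h2
            apply h1
            have h3 : (p : ℤ) ∣ (Q : ℤ) := by exact_mod_cast hpQ
            have h4 : (d : ℤ) ≡ w1 [ZMOD p] := hc3.of_dvd h3
            exact (Int.ModEq.dvd_iff h4).1 h2
          · right; exact h1)
      push_cast at this ⊢
      refine this.trans ?_
      have h5 : (d : ℝ) ^ (9 / 5 : ℝ) ≤ X ^ (9 / 5 : ℝ) :=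
        Real.rpow_le_rpow (Nat.cast_nonneg _) hdX (by norm_num)
      gcongr
    refine (Finset.sum_le_sum hterm).trans ?_
    rw [Finset.sum_const, nsmul_eq_mul]
    calc (S.card : ℝ) * (C * (Q : ℝ) ^ 3 * |(h : ℝ)| * X ^ (9 / 5 : ℝ))
        ≤ X * (C * (Q : ℝ) ^ 3 * |(h : ℝ)| * X ^ (9 / 5 : ℝ)) := by gcongr
      _ = C * (Q : ℝ) ^ 3 * |(h : ℝ)| * (X ^ (1 : ℝ) * X ^ (9 / 5 : ℝ)) := by
          rw [Real.rpow_one]; ring
      _ = _ := by rw [← Real.rpow_add hX0]; norm_num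
  have hfc := fc_sum Q h w1 c0 L1 N (by omega) h0 hc0 (by omega) (by push_cast; omega)
  rw [← hS] at hfc
  set F := ∑ c ∈ S, fc Q h N c.toNat with hF
  have hcm := cm_bd Q (by omega)
  have hg0 : 0 ≤ gsum Q h := Finset.sum_nonneg fun g _ => by positivity
  have hgle : gsum Q h ≤ |(h : ℝ)| := by
    rw [hhabs, gsum]
    calc ∑ g ∈ h.natAbs.divisors.filter (fun g => Nat.Coprime g Q), 1 / (g : ℝ)
        ≤ ∑ g ∈ h.natAbs.divisors.filter (fun g => Nat.Coprime g Q), 1 := by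
          refine Finset.sum_le_sum fun g hg => ?_
          have hgpos : 0 < g := Nat.pos_of_mem_divisors (mem_filter.1 hg).1
          rw [div_le_one (by exact_mod_cast hgpos)]
          exact_mod_cast hgpos
      _ = ((h.natAbs.divisors.filter (fun g => Nat.Coprime g Q)).card : ℝ) := by simp
      _ ≤ (h.natAbs : ℝ) := by
          have h1 : (h.natAbs.divisors.filter (fun g => Nat.Coprime g Q)).card ≤ h.natAbs.divisors.card :=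
            Finset.card_filter_le _ _
          have h2 : h.natAbs.divisors.card ≤ h.natAbs := Nat.card_divisors_le_self _
          exact_mod_cast h1.trans h2
  have hlogN : Real.log N ≤ 1 + 5 / 4 * X ^ (4 / 5 : ℝ) := by
    have h1 : Real.log N ≤ Real.log (2 * X) := Real.log_le_log (by rw [hN]; positivity) hNR
    rw [Real.log_mul (by norm_num) hX0.ne'] at h1
    have h2 : Real.log 2 ≤ 1 := by
      have := Real.log_two_lt_d9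
      linarith
    have h3 := Real.log_le_rpow_div hX0.le (by norm_num : (0 : ℝ) < 4 / 5)
    have h4 : X ^ (4 / 5 : ℝ) / (4 / 5) = 5 / 4 * X ^ (4 / 5 : ℝ) := by ring
    rw [h4] at h3
    linarith
  have hX45 : (1 : ℝ) ≤ X ^ (4 / 5 : ℝ) := Real.one_le_rpow hX (by norm_num)
  have hX2 : X ^ (2 : ℕ) * X ^ (4 / 5 : ℝ) = X ^ (14 / 5 : ℝ) := by
    rw [← Real.rpow_natCast, ← Real.rpow_add hX0]; norm_num
  have herr2 : |(m1 : ℝ) * m2 * F - cM Q * gsum Q h * ((L1 : ℝ) * L2 * L3) / (Q : ℝ) ^ 3|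
      ≤ 24 * (Q : ℝ) ^ 3 * |(h : ℝ)| * X ^ (14 / 5 : ℝ) := by
    have e : (m1 : ℝ) * m2 * F - cM Q * gsum Q h * ((L1 : ℝ) * L2 * L3) / (Q : ℝ) ^ 3
        = (m1 : ℝ) * m2 * (F - (L1 : ℝ) / Q * cM Q * gsum Q h)
          + (((m1 : ℝ) - L2 / Q) * m2 + (L2 : ℝ) / Q * (m2 - L3 / Q)) * ((L1 : ℝ) / Q * cM Q * gsum Q h) := by
      field_simp
      ring
    rw [e]
    have hm1X : (m1 : ℝ) ≤ 2 * X := le_trans (by exact_mod_cast hm1) hL2X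
    have hm2X : (m2 : ℝ) ≤ 2 * X := le_trans (by exact_mod_cast hm2) hL3X
    have hdivle : ∀ L : ℕ, (L : ℝ) / Q ≤ L := fun L => by
      rw [div_le_iff₀ hQR]
      exact le_mul_of_one_le_right (Nat.cast_nonneg _) hQ1R
    have t1 : |(m1 : ℝ) * m2 * (F - (L1 : ℝ) / Q * cM Q * gsum Q h)|
        ≤ 4 * X ^ 2 * (|(h : ℝ)| * (17 / 4 * X ^ (4 / 5 : ℝ))) := by
      rw [abs_mul, abs_of_nonneg (by positivity : (0 : ℝ) ≤ (m1 : ℝ) * m2)]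
      have a1 : (m1 : ℝ) * m2 ≤ 4 * X ^ 2 := by
        calc (m1 : ℝ) * m2 ≤ (2 * X) * (2 * X) := by gcongr
          _ = 4 * X ^ 2 := by ring
      have a2 : |F - (L1 : ℝ) / Q * cM Q * gsum Q h| ≤ |(h : ℝ)| * (17 / 4 * X ^ (4 / 5 : ℝ)) := by
        refine hfc.trans ?_
        apply mul_le_mul_of_nonneg_left _ (abs_nonneg _)
        linarith
      apply mul_le_mul a1 a2 (abs_nonneg _) (by positivity)
    have t2 : |(((m1 : ℝ) - L2 / Q) * m2 + (L2 : ℝ) / Q * (m2 - L3 / Q)) * ((L1 : ℝ) / Q * cM Q * gsum Q h)|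
        ≤ (4 * X) * (X * |(h : ℝ)|) := by
      rw [abs_mul]
      have b1 : |((m1 : ℝ) - L2 / Q) * m2 + (L2 : ℝ) / Q * (m2 - L3 / Q)| ≤ 4 * X := by
        refine (abs_add_le _ _).trans ?_
        rw [abs_mul, abs_mul, abs_of_nonneg (Nat.cast_nonneg m2 : (0 : ℝ) ≤ m2),
          abs_of_nonneg (by positivity : (0 : ℝ) ≤ (L2 : ℝ) / Q)]
        calc |(m1 : ℝ) - L2 / Q| * m2 + (L2 : ℝ) / Q * |(m2 : ℝ) - L3 / Q|
            ≤ 1 * (2 * X) + (2 * X) * 1 := by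
              apply add_le_add
              · exact mul_le_mul hm1' hm2X (Nat.cast_nonneg _) (by norm_num)
              · exact mul_le_mul ((hdivle L2).trans hL2X) hm2' (abs_nonneg _) (by positivity)
          _ = 4 * X := by ring
      have b2 : |(L1 : ℝ) / Q * cM Q * gsum Q h| ≤ X * |(h : ℝ)| := by
        rw [abs_of_nonneg (mul_nonneg (mul_nonneg (by positivity) hcm.1) hg0)]
        calc (L1 : ℝ) / Q * cM Q * gsum Q h ≤ X * 1 * |(h : ℝ)| := by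
              apply mul_le_mul _ hgle hg0 (by positivity)
              exact mul_le_mul ((hdivle L1).trans hL1X) hcm.2 hcm.1 hX0.le
          _ = X * |(h : ℝ)| := by ring
      exact mul_le_mul b1 b2 (abs_nonneg _) (by positivity)
    refine (abs_add_le _ _).trans ((add_le_add t1 t2).trans ?_)
    have hQ3 : (1 : ℝ) ≤ (Q : ℝ) ^ 3 := one_le_pow₀ hQ1R
    have hP : 0 ≤ |(h : ℝ)| * X ^ (14 / 5 : ℝ) := by positivity
    have hXX : X ^ (2 : ℕ) ≤ X ^ (14 / 5 : ℝ) := by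
      rw [← hX2]
      exact le_mul_of_one_le_right (by positivity) hX45
    calc 4 * X ^ 2 * (|(h : ℝ)| * (17 / 4 * X ^ (4 / 5 : ℝ))) + (4 * X) * (X * |(h : ℝ)|)
        = 17 * (|(h : ℝ)| * (X ^ (2 : ℕ) * X ^ (4 / 5 : ℝ))) + 4 * (|(h : ℝ)| * X ^ (2 : ℕ)) := by ring
      _ ≤ 17 * (|(h : ℝ)| * X ^ (14 / 5 : ℝ)) + 4 * (|(h : ℝ)| * X ^ (14 / 5 : ℝ)) := by
          rw [hX2]
          gcongr
      _ = 21 * (|(h : ℝ)| * X ^ (14 / 5 : ℝ)) := by ring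
      _ ≤ 24 * (|(h : ℝ)| * X ^ (14 / 5 : ℝ)) * (Q : ℝ) ^ 3 := by nlinarith
      _ = _ := by ring
  rw [hsum]
  calc _ ≤ |∑ c ∈ S, (c : ℝ) * ((Row Q h w2 w3 w4 b0 g0 L2 L3 c).card : ℝ) - (m1 : ℝ) * m2 * F|
        + |(m1 : ℝ) * m2 * F - cM Q * gsum Q h * ((L1 : ℝ) * L2 * L3) / (Q : ℝ) ^ 3| := abs_sub_le _ _ _
    _ ≤ C * (Q : ℝ) ^ 3 * |(h : ℝ)| * X ^ (14 / 5 : ℝ) + 24 * (Q : ℝ) ^ 3 * |(h : ℝ)| * X ^ (14 / 5 : ℝ) :=
        add_le_add herr1 herr2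
    _ = _ := by ring

end Pool.Agent.W33f
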