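import Pool.Agent.W_d33b62k_h56.Klo

/-!
Kloosterman sums to an arbitrary modulus `m`:
`|S(a, b; m)| <= 2 d(m) m^(3/4) (a, b, m)^(1/4)` (elementary, fourth moment).
-/

namespace Pool.Agent.W33f

open Finset BigOperators

/-- the Kloosterman sum modulo `m` -/
noncomputable abbrev Kl (m : ℕ) [NeZero m] (a b : ZMod m) : ℂ := D33K.Kl m a b

theorem Kl_def (m : ℕ) [NeZero m] (a b : ZMod m) : Kl m a b
    = ∑ x : (ZMod m)ˣ, ZMod.stdAddChar (a * (x : ZMod m) + b * ((x⁻¹ : (ZMod m)ˣ) : ZMod m)) := rfl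

theorem le_totient_mul_divisors (m : ℕ) (hm : 0 < m) : m ≤ Nat.totient m * m.divisors.card := by
  calc m = ∑ d ∈ m.divisors, Nat.totient d := (Nat.sum_totient m).symm
    _ ≤ ∑ d ∈ m.divisors, Nat.totient m := by
        refine Finset.sum_le_sum fun d hd => ?_
        exact Nat.le_of_dvd (Nat.totient_pos.2 hm)
          (Nat.totient_dvd_of_dvd (Nat.dvd_of_mem_divisors hd))
    _ = Nat.totient m * m.divisors.card := by rw [Finset.sum_const, smul_eq_mul, mul_comm]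

/-- fourth power form -/
theorem Kl_pow_four_le (m : ℕ) [NeZero m] (a b : ZMod m) :
    ‖Kl m a b‖ ^ 4 ≤ 2 * ((Nat.gcd (Nat.gcd a.val b.val) m : ℕ) : ℝ)
      * (m.divisors.card : ℝ) ^ 3 * (m : ℝ) ^ 3 := by
  have hm : 0 < m := Nat.pos_of_ne_zero (NeZero.ne m)
  have h := D33K.kl_bound a b
  have hphi : (0 : ℝ) < Nat.totient m := by exact_mod_cast Nat.totient_pos.2 hm
  have hle : (m : ℝ) ≤ Nat.totient m * (m.divisors.card : ℝ) := by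
    exact_mod_cast le_totient_mul_divisors m hm
  have hg : (0 : ℝ) ≤ ((Nat.gcd (Nat.gcd a.val b.val) m : ℕ) : ℝ) := Nat.cast_nonneg _
  have h2 : (Nat.totient m : ℝ) * ‖Kl m a b‖ ^ 4 ≤ (Nat.totient m : ℝ)
      * (2 * ((Nat.gcd (Nat.gcd a.val b.val) m : ℕ) : ℝ) * (m.divisors.card : ℝ) ^ 3 * (m : ℝ) ^ 3) := by
    refine h.trans ?_
    have e : (D33K.gcd3 a b : ℝ) = ((Nat.gcd (Nat.gcd a.val b.val) m : ℕ) : ℝ) := rfl
    rw [e]
    calc 2 * ((Nat.gcd (Nat.gcd a.val b.val) m : ℕ) : ℝ) * (m.divisors.card : ℝ) ^ 2 * (m : ℝ) ^ 4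
        = (2 * ((Nat.gcd (Nat.gcd a.val b.val) m : ℕ) : ℝ) * (m.divisors.card : ℝ) ^ 2
            * (m : ℝ) ^ 3) * m := by ring
      _ ≤ (2 * ((Nat.gcd (Nat.gcd a.val b.val) m : ℕ) : ℝ) * (m.divisors.card : ℝ) ^ 2
            * (m : ℝ) ^ 3) * (Nat.totient m * (m.divisors.card : ℝ)) := by
          gcongr
      _ = _ := by ring
  exact le_of_mul_le_mul_left h2 hphi

/-- **Kloosterman's bound for every modulus** -/
theorem kloosterman (m : ℕ) [NeZero m] (a b : ZMod m) :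
    ‖∑ x : (ZMod m)ˣ, ZMod.stdAddChar (a * (x : ZMod m) + b * ((x⁻¹ : (ZMod m)ˣ) : ZMod m))‖
      ≤ 2 * (m.divisors.card : ℝ) * (m : ℝ) ^ (3 / 4 : ℝ)
        * ((Nat.gcd (Nat.gcd a.val b.val) m : ℕ) : ℝ) ^ (1 / 4 : ℝ) := by
  have hm : 0 < m := Nat.pos_of_ne_zero (NeZero.ne m)
  have h := Kl_pow_four_le m a b
  rw [← Kl_def]
  set g : ℝ := ((Nat.gcd (Nat.gcd a.val b.val) m : ℕ) : ℝ) with hgdef
  have hg : (0 : ℝ) ≤ g := Nat.cast_nonneg _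
  have hd : (1 : ℝ) ≤ (m.divisors.card : ℝ) := by
    have : 0 < m.divisors.card := Finset.card_pos.2 ⟨1, Nat.mem_divisors.2 ⟨one_dvd _, hm.ne'⟩⟩
    exact_mod_cast this
  have hm0 : (0 : ℝ) ≤ (m : ℝ) := Nat.cast_nonneg _
  have hR : 0 ≤ 2 * (m.divisors.card : ℝ) * (m : ℝ) ^ (3 / 4 : ℝ) * g ^ (1 / 4 : ℝ) := by positivity
  refine le_of_pow_le_pow_left₀ (n := 4) (by norm_num) hR (h.trans ?_)
  have e1 : ((m : ℝ) ^ (3 / 4 : ℝ)) ^ 4 = (m : ℝ) ^ 3 := by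
    rw [← Real.rpow_natCast, ← Real.rpow_mul hm0, ← Real.rpow_natCast]
    norm_num
  have e2 : (g ^ (1 / 4 : ℝ)) ^ 4 = g := by
    rw [← Real.rpow_natCast, ← Real.rpow_mul hg]
    norm_num
  calc 2 * g * (m.divisors.card : ℝ) ^ 3 * (m : ℝ) ^ 3
      ≤ 16 * g * (m.divisors.card : ℝ) ^ 4 * (m : ℝ) ^ 3 := by
        have h3 : (m.divisors.card : ℝ) ^ 3 ≤ (m.divisors.card : ℝ) ^ 4 :=
          pow_le_pow_right₀ hd (by norm_num)
        have h4 : 0 ≤ g * (m.divisors.card : ℝ) ^ 4 * (m : ℝ) ^ 3 := by positivity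
        calc 2 * g * (m.divisors.card : ℝ) ^ 3 * (m : ℝ) ^ 3
            ≤ 2 * g * (m.divisors.card : ℝ) ^ 4 * (m : ℝ) ^ 3 := by gcongr
          _ ≤ 16 * g * (m.divisors.card : ℝ) ^ 4 * (m : ℝ) ^ 3 := by nlinarith
    _ = (2 * (m.divisors.card : ℝ) * (m : ℝ) ^ (3 / 4 : ℝ) * g ^ (1 / 4 : ℝ)) ^ 4 := by
        rw [mul_pow, mul_pow, mul_pow, e1, e2]; ring

/-- the bound for nonzero frequency, with an explicit gcd -/
theorem kloosterman' (m : ℕ) [NeZero m] (a b : ZMod m) (g : ℕ)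
    (hg : Nat.gcd (Nat.gcd a.val b.val) m ≤ g) :
    ‖Kl m a b‖ ≤ 2 * (m.divisors.card : ℝ) * (m : ℝ) ^ (3 / 4 : ℝ) * (g : ℝ) ^ (1 / 4 : ℝ) := by
  refine (kloosterman m a b).trans ?_
  have : ((Nat.gcd (Nat.gcd a.val b.val) m : ℕ) : ℝ) ≤ (g : ℝ) := by exact_mod_cast hg
  gcongr

end Pool.Agent.W33f
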