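import Mathlib

/-!
# Lattice points in a sector of an annulus, in residue classes (MP_d33b62, T3 / T4; helper19)

`lc_count`: the number of `(x, y)` in one class mod `q` with `|y| < lam * x`, `A < x ^ 2 + y ^ 2 ≤ B` is
`arctan lam * (B - A) / q ^ 2 + O(√B / q + 1)`, absolute constant, every `lam > 0`.
-/

set_option autoImplicit false

noncomputable section

open Finset

namespace Pool.Agent.W33f

/-- Sum and integral of a monotone function. -/
theorem lc_mono (f : ℝ → ℝ) (n : ℕ) (h : MonotoneOn f (Set.Icc (0 : ℝ) (0 + n))) :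
    ∑ i ∈ range n, f i ≤ ∫ x in (0 : ℝ)..n, f x ∧
      ∫ x in (0 : ℝ)..n, f x ≤ ∑ i ∈ range n, f i + (f n - f 0) := by
  constructor
  · have := h.sum_le_integral
    simpa using this
  · have h1 := h.integral_le_sum
    have h2 : ∑ i ∈ range n, f (0 + ((i + 1 : ℕ) : ℝ)) = ∑ i ∈ range n, f i + (f n - f 0) := by
      simp only [zero_add]
      have h3 := Finset.sum_range_succ (fun i : ℕ => f i) n
      have h4 := Finset.sum_range_succ' (fun i : ℕ => f i) n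
      simp only [Nat.cast_zero] at h4
      linarith
    rw [h2] at h1
    simpa using h1

/-- Sum and integral of an antitone function. -/
theorem lc_anti (f : ℝ → ℝ) (n : ℕ) (h : AntitoneOn f (Set.Icc (0 : ℝ) (0 + n))) :
    ∫ x in (0 : ℝ)..n, f x ≤ ∑ i ∈ range n, f i ∧
      ∑ i ∈ range n, f i + (f n - f 0) ≤ ∫ x in (0 : ℝ)..n, f x := by
  have h1 := lc_mono (fun x => - f x) n h.neg
  simp only [sum_neg_distrib, intervalIntegral.integral_neg] at h1
  constructor <;> linarith [h1.1, h1.2]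

/-- The height of the region above `x`. -/
def lh (lam B x : ℝ) : ℝ := min (lam * x) (√(B - x ^ 2))

theorem lh_cont (lam B : ℝ) : Continuous (lh lam B) := by
  unfold lh
  fun_prop

/-- The corner. -/
def lx (lam B : ℝ) : ℝ := √(B / (1 + lam ^ 2))

theorem lx_sq {lam B : ℝ} (hB : 0 ≤ B) : (1 + lam ^ 2) * lx lam B ^ 2 = B := by
  have h1 : 0 < 1 + lam ^ 2 := by positivity
  rw [lx, Real.sq_sqrt (by positivity)]
  field_simp

theorem lx_nonneg (lam B : ℝ) : 0 ≤ lx lam B := Real.sqrt_nonneg _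

theorem lh_left {lam B x : ℝ} (hl : 0 < lam) (hB : 0 ≤ B) (hx : 0 ≤ x) (h : x ≤ lx lam B) :
    lh lam B x = lam * x ∧ lam * lx lam B ≤ √(B - x ^ 2) := by
  have h1 := lx_sq (lam := lam) hB
  have h2 : lam * lx lam B ≤ √(B - x ^ 2) := by
    apply Real.le_sqrt_of_sq_le
    have : x ^ 2 ≤ lx lam B ^ 2 := by
      have := lx_nonneg lam B
      nlinarith
    nlinarith
  refine ⟨?_, h2⟩
  rw [lh, min_eq_left]
  refine le_trans ?_ h2
  exact mul_le_mul_of_nonneg_left h hl.le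

theorem lh_right {lam B x : ℝ} (hl : 0 < lam) (hB : 0 ≤ B) (h : lx lam B ≤ x) :
    lh lam B x = √(B - x ^ 2) ∧ √(B - x ^ 2) ≤ lam * lx lam B := by
  have h1 := lx_sq (lam := lam) hB
  have h3 := lx_nonneg lam B
  have h2 : √(B - x ^ 2) ≤ lam * lx lam B := by
    rw [Real.sqrt_le_left (by positivity)]
    have : lx lam B ^ 2 ≤ x ^ 2 := by nlinarith
    nlinarith
  refine ⟨?_, h2⟩
  rw [lh, min_eq_right]
  refine le_trans h2 ?_
  exact mul_le_mul_of_nonneg_left h hl.le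

theorem lh_nonneg {lam B x : ℝ} (hl : 0 < lam) (hx : 0 ≤ x) : 0 ≤ lh lam B x :=
  le_min (by positivity) (Real.sqrt_nonneg _)

theorem lh_le {lam B x : ℝ} : lh lam B x ≤ √B := by
  refine (min_le_right _ _).trans (Real.sqrt_le_sqrt ?_)
  nlinarith [sq_nonneg x]

theorem lamlx_le {lam B : ℝ} (hB : 0 ≤ B) : lam * lx lam B ≤ √B := by
  have h1 := lx_sq (lam := lam) hB
  apply Real.le_sqrt_of_sq_le
  nlinarith [sq_nonneg (lx lam B)]

/-- The sum of the heights along a progression against the integral. -/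
theorem lh_sum {lam B : ℝ} (hl : 0 < lam) (hB : 0 ≤ B) {q r : ℝ} (hq : 0 < q) (hr : 0 ≤ r) (n : ℕ) :
    |∑ i ∈ range n, lh lam B (r + q * i) - ∫ u in (0 : ℝ)..n, lh lam B (r + q * u)| ≤ 2 * √B := by
  set c := lx lam B with hc
  have hc0 : 0 ≤ c := lx_nonneg lam B
  have hcB := lamlx_le (lam := lam) hB
  let f1 : ℝ → ℝ := fun u => min (lam * (r + q * u)) (lam * c)
  let f2 : ℝ → ℝ := fun u => min (lam * c) (√(B - (r + q * u) ^ 2)) - lam * c
  have e : ∀ u : ℝ, 0 ≤ u → lh lam B (r + q * u) = f1 u + f2 u := by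
    intro u hu
    have hx : 0 ≤ r + q * u := by positivity
    rcases le_total (r + q * u) c with h | h
    · have := lh_left hl hB hx h
      simp only [f1, f2]
      rw [this.1, min_eq_left (mul_le_mul_of_nonneg_left h hl.le), min_eq_left this.2]
      ring
    · have := lh_right hl hB h
      simp only [f1, f2]
      rw [this.1, min_eq_right (mul_le_mul_of_nonneg_left h hl.le), min_eq_right this.2]
      ring
  have m1 : MonotoneOn f1 (Set.Icc (0 : ℝ) (0 + n)) := by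
    intro u _ v _ huv
    simp only [f1]
    exact min_le_min_right _ (by nlinarith [mul_le_mul_of_nonneg_left huv hq.le])
  have m2 : AntitoneOn f2 (Set.Icc (0 : ℝ) (0 + n)) := by
    intro u hu v _ huv
    simp only [f2]
    have h0 := hu.1
    have h1 : r + q * u ≤ r + q * v := by nlinarith [mul_le_mul_of_nonneg_left huv hq.le]
    have h2 : (r + q * u) ^ 2 ≤ (r + q * v) ^ 2 := by
      have : 0 ≤ r + q * u := by positivity
      nlinarith
    have h3 : √(B - (r + q * v) ^ 2) ≤ √(B - (r + q * u) ^ 2) := Real.sqrt_le_sqrt (by linarith)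
    have := min_le_min_left (lam * c) h3
    linarith
  have s1 := lc_mono f1 n m1
  have s2 := lc_anti f2 n m2
  have hs : ∑ i ∈ range n, lh lam B (r + q * i) = ∑ i ∈ range n, f1 i + ∑ i ∈ range n, f2 i := by
    rw [← sum_add_distrib]
    exact sum_congr rfl fun i _ => e i (Nat.cast_nonneg i)
  have c1 : Continuous f1 := by
    simp only [f1]
    fun_prop
  have c2 : Continuous f2 := by
    simp only [f2]
    fun_prop
  have hi : ∫ u in (0 : ℝ)..n, lh lam B (r + q * u) =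
      (∫ u in (0 : ℝ)..n, f1 u) + ∫ u in (0 : ℝ)..n, f2 u := by
    rw [← intervalIntegral.integral_add (c1.intervalIntegrable _ _) (c2.intervalIntegrable _ _)]
    refine intervalIntegral.integral_congr fun u hu => ?_
    rw [Set.uIcc_of_le (Nat.cast_nonneg n)] at hu
    exact e u hu.1
  rw [hs, hi]
  have b1 : f1 n - f1 0 ≤ √B := by
    simp only [f1]
    have := min_le_right (lam * (r + q * n)) (lam * c)
    have : 0 ≤ min (lam * (r + q * 0)) (lam * c) := le_min (by simpa using by positivity) (by positivity)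
    linarith
  have b2 : -√B ≤ f2 n - f2 0 := by
    simp only [f2]
    have := min_le_left (lam * c) (√(B - (r + q * 0) ^ 2))
    have : 0 ≤ min (lam * c) (√(B - (r + q * n) ^ 2)) := le_min (by positivity) (Real.sqrt_nonneg _)
    linarith
  have := Real.sqrt_nonneg B
  rw [abs_le]
  constructor <;> linarith [s1.1, s1.2, s2.1, s2.2]

/-- The primitive of `√(B - x ^ 2)`. -/
theorem sqrt_int {B a : ℝ} (hB : 0 < B) (ha : 0 ≤ a) (haB : a ≤ √B) :
    ∫ x in a..√B, √(B - x ^ 2) =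
      (B * (Real.pi / 2) - (B * Real.arcsin (a / √B) + a * √(B - a ^ 2))) / 2 := by
  have hR : 0 < √B := Real.sqrt_pos.2 hB
  have hRR : √B ^ 2 = B := Real.sq_sqrt hB.le
  set R := √B with hRdef
  let F : ℝ → ℝ := fun x => (B * Real.arcsin (x / R) + x * √(B - x ^ 2)) / 2
  have hF : ContinuousOn F (Set.Icc a R) := by
    apply Continuous.continuousOn
    simp only [F]
    have := Real.continuous_arcsin
    fun_prop
  have hd : ∀ x ∈ Set.Ioo a R, HasDerivAt F (√(B - x ^ 2)) x := by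
    intro x hx
    have hx0 : 0 ≤ x := ha.trans hx.1.le
    have h1 : 0 < B - x ^ 2 := by nlinarith [hx.2]
    have h2 : 0 < √(B - x ^ 2) := Real.sqrt_pos.2 h1
    have h3 : √(B - x ^ 2) ^ 2 = B - x ^ 2 := Real.sq_sqrt h1.le
    have hxR : x / R < 1 := by rw [div_lt_one hR]; exact hx.2
    have hxR0 : 0 ≤ x / R := by positivity
    have d1 : HasDerivAt (fun x : ℝ => Real.arcsin (x / R)) (1 / √(1 - (x / R) ^ 2) * (1 / R)) x := by
      have := (Real.hasDerivAt_arcsin (x := x / R) (by linarith) (by linarith)).comp x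
        ((hasDerivAt_id' x).div_const R)
      exact this
    have d2 : HasDerivAt (fun x : ℝ => √(B - x ^ 2)) ((0 - 2 * x) / (2 * √(B - x ^ 2))) x := by
      have h4 : HasDerivAt (fun x : ℝ => B - x ^ 2) (0 - 2 * x) x := by
        have := (hasDerivAt_pow 2 x).const_sub B
        simpa using this
      exact h4.sqrt h1.ne'
    have d3 := ((d1.const_mul B).add ((hasDerivAt_id' x).mul d2)).div_const 2
    have e1 : √(1 - (x / R) ^ 2) = √(B - x ^ 2) / R := by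
      rw [show 1 - (x / R) ^ 2 = (B - x ^ 2) / R ^ 2 by rw [div_pow, hRR]; field_simp]
      rw [Real.sqrt_div' _ (by positivity), Real.sqrt_sq hR.le]
    have e2 : √(B - x ^ 2) = (B * (1 / √(1 - (x / R) ^ 2) * (1 / R)) +
        (1 * √(B - x ^ 2) + x * ((0 - 2 * x) / (2 * √(B - x ^ 2))))) / 2 := by
      rw [e1]
      field_simp
      nlinarith [h3]
    rw [e2]
    exact d3
  have hi := intervalIntegral.integral_eq_sub_of_hasDerivAt_of_le haB hF hd
    (Continuous.intervalIntegrable (by fun_prop) _ _)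
  rw [hi]
  simp only [F]
  rw [div_self hR.ne', Real.arcsin_one, hRR, sub_self, Real.sqrt_zero]
  ring

theorem lh_int {lam B s : ℝ} (hl : 0 < lam) (hB : 0 ≤ B) (hs : √B ≤ s) :
    ∫ x in (0 : ℝ)..s, lh lam B x = B / 2 * Real.arctan lam := by
  rcases hB.eq_or_lt with rfl | hB'
  · rw [Real.sqrt_zero] at hs
    rw [zero_div, zero_mul]
    rw [intervalIntegral.integral_congr (g := fun _ => 0)]
    · simp
    · intro x hx
      rw [Set.uIcc_of_le hs] at hx
      simp only [lh]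
      rw [Real.sqrt_eq_zero_of_nonpos (by nlinarith [sq_nonneg x])]
      exact min_eq_right (by nlinarith [hx.1])
  have hc := lx_nonneg lam B
  have hsq := lx_sq (lam := lam) hB
  have hcB : lx lam B ≤ √B := by
    apply Real.le_sqrt_of_sq_le
    nlinarith [sq_nonneg (lam * lx lam B)]
  have ii : ∀ a b : ℝ, IntervalIntegrable (lh lam B) MeasureTheory.volume a b :=
    fun a b => (lh_cont lam B).intervalIntegrable a b
  rw [← intervalIntegral.integral_add_adjacent_intervals (ii 0 (√B)) (ii (√B) s),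
    ← intervalIntegral.integral_add_adjacent_intervals (ii 0 (lx lam B)) (ii (lx lam B) (√B))]
  have i1 : ∫ x in (0 : ℝ)..lx lam B, lh lam B x = lam * lx lam B ^ 2 / 2 := by
    rw [intervalIntegral.integral_congr (g := fun x => lam * x)]
    · rw [intervalIntegral.integral_const_mul, integral_id]
      ring
    · intro x hx
      rw [Set.uIcc_of_le hc] at hx
      exact (lh_left hl hB hx.1 hx.2).1
  have i2 : ∫ x in lx lam B..√B, lh lam B x =
      (B * (Real.pi / 2) - (B * Real.arcsin (lx lam B / √B) + lx lam B * √(B - lx lam B ^ 2))) / 2 := by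
    rw [← sqrt_int hB' hc hcB]
    refine intervalIntegral.integral_congr fun x hx => ?_
    rw [Set.uIcc_of_le hcB] at hx
    exact (lh_right hl hB hx.1).1
  have i3 : ∫ x in √B..s, lh lam B x = 0 := by
    rw [intervalIntegral.integral_congr (g := fun _ => 0)]
    · simp
    · intro x hx
      rw [Set.uIcc_of_le hs] at hx
      have h0 : 0 ≤ x := (Real.sqrt_nonneg B).trans hx.1
      have h1 : B ≤ x ^ 2 := by
        rw [← Real.sqrt_le_left h0]
        exact hx.1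
      simp only [lh]
      rw [Real.sqrt_eq_zero_of_nonpos (by linarith)]
      exact min_eq_right (by positivity)
  have e1 : √(B - lx lam B ^ 2) = lam * lx lam B := by
    rw [show B - lx lam B ^ 2 = (lam * lx lam B) ^ 2 by linarith]
    exact Real.sqrt_sq (by positivity)
  have e2 : lx lam B / √B = (√(1 + lam ^ 2))⁻¹ := by
    rw [lx, Real.sqrt_div hB]
    have : √B ≠ 0 := (Real.sqrt_pos.2 hB').ne'
    field_simp
  have e3 : Real.arctan lam = Real.pi / 2 - Real.arcsin ((√(1 + lam ^ 2))⁻¹) := by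
    rw [Real.arctan_eq_arccos hl.le, Real.arccos]
  rw [i1, i2, i3, e1, e2, e3]
  ring

/-- Integers of a class in an interval of integers. -/
theorem ioc_count (q : ℕ) (hq : 1 ≤ q) (y0 a b : ℤ) (hab : a ≤ b) :
    |((((Ioc a b).filter fun y => y ≡ y0 [ZMOD q]).card : ℕ) : ℝ) - (b - a) / q| ≤ 1 := by
  have hq0 : (0 : ℤ) < q := by exact_mod_cast hq
  have hqQ : (0 : ℚ) < q := by exact_mod_cast hq
  have h := Int.Ioc_filter_modEq_card a b hq0 y0
  have hle : ⌊((a : ℚ) - y0) / (q : ℤ)⌋ ≤ ⌊((b : ℚ) - y0) / (q : ℤ)⌋ := by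
    apply Int.floor_le_floor
    have : (a : ℚ) ≤ b := by exact_mod_cast hab
    have : (0 : ℚ) < ((q : ℤ) : ℚ) := by exact_mod_cast hq
    gcongr
  rw [max_eq_left (by linarith)] at h
  have h1 := Int.floor_le (((a : ℚ) - y0) / (q : ℤ))
  have h2 := Int.lt_floor_add_one (((a : ℚ) - y0) / (q : ℤ))
  have h3 := Int.floor_le (((b : ℚ) - y0) / (q : ℤ))
  have h4 := Int.lt_floor_add_one (((b : ℚ) - y0) / (q : ℤ))
  have h5 : |((((Ioc a b).filter fun y => y ≡ y0 [ZMOD q]).card : ℤ) : ℚ) - (b - a) / q| ≤ 1 := by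
    rw [h]
    push_cast at h1 h2 h3 h4 ⊢
    have e : ((b : ℚ) - a) / q = (b - y0) / q - (a - y0) / q := by ring
    rw [e, abs_le]
    constructor <;> linarith
  have h6 : ((|((((Ioc a b).filter fun y => y ≡ y0 [ZMOD q]).card : ℤ) : ℚ) - (b - a) / q| : ℚ) : ℝ) ≤
      ((1 : ℚ) : ℝ) := by exact_mod_cast h5
  push_cast at h6
  exact h6

/-- Integers `y` of a class with `y ^ 2 ≤ D`, `|y| < H`. -/
theorem y_count (q : ℕ) (hq : 1 ≤ q) (y0 : ℤ) (S : Finset ℤ) (H : ℝ) (hH : 0 ≤ H)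
    (hS : ∀ y ∈ S, y ≡ y0 [ZMOD q] ∧ |(y : ℝ)| ≤ H) (hS' : ∀ y : ℤ, y ≡ y0 [ZMOD q] → |(y : ℝ)| < H → y ∈ S) :
    |((S.card : ℕ) : ℝ) - 2 * H / q| ≤ 2 := by
  have hq1 : (1 : ℝ) ≤ q := by exact_mod_cast hq
  have hq0 : (0 : ℝ) < q := by linarith
  have hf : 0 ≤ ⌊H⌋ := Int.floor_nonneg.2 hH
  have hc : 0 ≤ ⌈H⌉ := Int.ceil_nonneg hH
  have f1 := Int.floor_le H
  have f2 := Int.lt_floor_add_one H
  have c1 := Int.le_ceil H
  have c2 := Int.ceil_lt_add_one H
  rw [abs_le]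
  constructor
  · rcases hc.eq_or_lt with h0 | h0
    · have : H ≤ 0 := by
        rw [← h0] at c1
        simpa using c1
      have : H = 0 := le_antisymm this hH
      have hn := Nat.cast_nonneg (α := ℝ) S.card
      rw [this, mul_zero, zero_div, sub_zero]
      linarith
    · have h := ioc_count q hq y0 (-⌈H⌉) (⌈H⌉ - 1) (by omega)
      have hle : ((Ioc (-⌈H⌉) (⌈H⌉ - 1)).filter fun y => y ≡ y0 [ZMOD q]).card ≤ S.card := by
        apply card_le_card
        intro y hy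
        rw [mem_filter, mem_Ioc] at hy
        apply hS' y hy.2
        have h1 : |y| + 1 ≤ ⌈H⌉ := by
          have : |y| ≤ ⌈H⌉ - 1 := abs_le.2 (by omega)
          omega
        have h2 : ((|y| + 1 : ℤ) : ℝ) ≤ ⌈H⌉ := by exact_mod_cast h1
        push_cast at h2
        linarith
      have hle' : ((((Ioc (-⌈H⌉) (⌈H⌉ - 1)).filter fun y => y ≡ y0 [ZMOD q]).card : ℕ) : ℝ) ≤ S.card := by
        exact_mod_cast hle
      rw [abs_le] at h
      push_cast at h
      have e1 : (2 * H - 1) / q ≤ ((⌈H⌉ : ℝ) - 1 - -⌈H⌉) / q := by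
        apply div_le_div_of_nonneg_right _ hq0.le
        linarith
      have e2 : (2 * H - 1) / q = 2 * H / q - 1 / q := by ring
      have e3 : 1 / (q : ℝ) ≤ 1 := by
        rw [div_le_one hq0]
        exact hq1
      linarith [h.1]
  · have h := ioc_count q hq y0 (-⌊H⌋ - 1) ⌊H⌋ (by omega)
    have hle : S.card ≤ ((Ioc (-⌊H⌋ - 1) ⌊H⌋).filter fun y => y ≡ y0 [ZMOD q]).card := by
      apply card_le_card
      intro y hy
      rw [mem_filter, mem_Ioc]
      obtain ⟨h1, h2⟩ := hS y hy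
      have h3 : ((|y| : ℤ) : ℝ) ≤ H := by
        push_cast
        exact h2
      have h4 : |y| ≤ ⌊H⌋ := Int.le_floor.2 h3
      have h5 := abs_le.1 h4
      exact ⟨by omega, h1⟩
    have hle' : (S.card : ℝ) ≤ ((((Ioc (-⌊H⌋ - 1) ⌊H⌋).filter fun y => y ≡ y0 [ZMOD q]).card : ℕ) : ℝ) := by
      exact_mod_cast hle
    rw [abs_le] at h
    push_cast at h
    have e1 : ((⌊H⌋ : ℝ) - (-⌊H⌋ - 1)) / q ≤ (2 * H + 1) / q := by
      apply div_le_div_of_nonneg_right _ hq0.le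
      linarith
    have e2 : (2 * H + 1) / q = 2 * H / q + 1 / q := by ring
    have e3 : 1 / (q : ℝ) ≤ 1 := by
      rw [div_le_one hq0]
      exact hq1
    linarith [h.2]

/-- The points of the sector of the disc in one class. -/
def SD (lam : ℝ) (q : ℕ) (x0 y0 : ℤ) (B : ℝ) : Set (ℤ × ℤ) :=
  {v | v.1 ≡ x0 [ZMOD q] ∧ v.2 ≡ y0 [ZMOD q] ∧ |(v.2 : ℝ)| < lam * v.1 ∧
    (v.1 : ℝ) ^ 2 + (v.2 : ℝ) ^ 2 ≤ B}

theorem abs_le_of_sq {x : ℤ} {y B : ℝ} (h : (x : ℝ) ^ 2 + y ^ 2 ≤ B) : |x| ≤ ⌊√B⌋ := by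
  rw [Int.le_floor]
  push_cast
  apply Real.le_sqrt_of_sq_le
  rw [sq_abs]
  nlinarith [sq_nonneg y]

theorem SD_sub (lam : ℝ) (q : ℕ) (x0 y0 : ℤ) (B : ℝ) :
    SD lam q x0 y0 B ⊆ ↑((Icc (-⌊√B⌋) ⌊√B⌋) ×ˢ (Icc (-⌊√B⌋) ⌊√B⌋)) := by
  intro v hv
  obtain ⟨_, _, _, h⟩ := hv
  rw [mem_coe, mem_product, mem_Icc, mem_Icc]
  have h1 := abs_le_of_sq h
  have h2 : |v.2| ≤ ⌊√B⌋ := by
    rw [add_comm] at h
    exact abs_le_of_sq h
  exact ⟨abs_le.1 h1, abs_le.1 h2⟩

theorem SD_fin (lam : ℝ) (q : ℕ) (x0 y0 : ℤ) (B : ℝ) : (SD lam q x0 y0 B).Finite :=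
  (finite_toSet _).subset (SD_sub lam q x0 y0 B)

open Classical in
/-- The `y` in the column of `x`. -/
def YY (lam : ℝ) (q : ℕ) (y0 : ℤ) (B : ℝ) (x : ℤ) : Finset ℤ :=
  (Icc (-⌊√B⌋) ⌊√B⌋).filter fun y => y ≡ y0 [ZMOD q] ∧ |(y : ℝ)| < lam * x ∧ (x : ℝ) ^ 2 + (y : ℝ) ^ 2 ≤ B

theorem YY_count {lam B : ℝ} (hl : 0 < lam) (q : ℕ) (hq : 1 ≤ q) (y0 : ℤ) {x : ℤ} (hx : 0 ≤ x) :
    |(((YY lam q y0 B x).card : ℕ) : ℝ) - 2 * lh lam B x / q| ≤ 2 := by
  have hx' : (0 : ℝ) ≤ x := by exact_mod_cast hx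
  refine y_count q hq y0 _ _ (lh_nonneg hl hx') ?_ ?_
  · intro y hy
    rw [YY, mem_filter] at hy
    obtain ⟨_, h1, h2, h3⟩ := hy
    refine ⟨h1, le_min h2.le ?_⟩
    apply Real.le_sqrt_of_sq_le
    rw [sq_abs]
    linarith
  · intro y h1 h2
    rw [lh, lt_min_iff] at h2
    have h3 : (x : ℝ) ^ 2 + (y : ℝ) ^ 2 ≤ B := by
      have := (Real.lt_sqrt (abs_nonneg _)).1 h2.2
      rw [sq_abs] at this
      linarith
    rw [YY, mem_filter, mem_Icc]
    refine ⟨?_, h1, h2.1, h3⟩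
    rw [add_comm] at h3
    exact abs_le.1 (abs_le_of_sq h3)

theorem SD_card {lam : ℝ} (hl : 0 < lam) (q : ℕ) (hq : 1 ≤ q) (x0 y0 : ℤ) (B : ℝ) :
    ∃ r : ℤ, 1 ≤ r ∧ r ≤ q ∧ ∀ n : ℕ, √B < r + q * n →
      (SD lam q x0 y0 B).ncard = ∑ j ∈ range n, (YY lam q y0 B (r + q * j)).card := by
  classical
  have hq0 : (0 : ℤ) < q := by exact_mod_cast hq
  refine ⟨(x0 - 1) % q + 1, by have := Int.emod_nonneg (x0 - 1) hq0.ne'; omega,
    by have := Int.emod_lt_of_pos (x0 - 1) hq0; omega, ?_⟩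
  intro n hn
  set r : ℤ := (x0 - 1) % q + 1 with hr
  have hr1 : 1 ≤ r := by have := Int.emod_nonneg (x0 - 1) hq0.ne'; omega
  have hrq : r ≤ q := by have := Int.emod_lt_of_pos (x0 - 1) hq0; omega
  have hrx : r ≡ x0 [ZMOD q] := by
    rw [hr]
    have := (Int.mod_modEq (x0 - 1) q).add_right 1
    simpa using this
  have e : SD lam q x0 y0 B =
      ↑((range n).biUnion fun j => (YY lam q y0 B (r + q * j)).image fun y => ((r + q * j : ℤ), y)) := by
    ext v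
    simp only [coe_biUnion, Set.mem_iUnion, mem_coe, mem_image, mem_range]
    constructor
    · rintro ⟨h1, h2, h3, h4⟩
      have hx0 : 0 < v.1 := by
        have : 0 < lam * v.1 := (abs_nonneg _).trans_lt h3
        have : (0 : ℝ) < v.1 := by
          by_contra h
          have := mul_nonpos_of_nonneg_of_nonpos hl.le (not_lt.1 h)
          linarith
        exact_mod_cast this
      have hdv : (q : ℤ) ∣ v.1 - r := (Int.modEq_iff_dvd.1 (hrx.trans h1.symm))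
      obtain ⟨t, ht⟩ := hdv
      have ht0 : 0 ≤ t := by
        by_contra h
        have : q * t ≤ q * (-1) := by
          apply mul_le_mul_of_nonneg_left _ hq0.le
          omega
        omega
      obtain ⟨j, rfl⟩ := Int.eq_ofNat_of_zero_le ht0
      have hv1 : v.1 = r + q * j := by linarith
      refine ⟨j, ?_, v.2, ?_, ?_⟩
      · have h5 : (v.1 : ℝ) ≤ √B := by
          apply Real.le_sqrt_of_sq_le
          nlinarith [sq_nonneg (v.2 : ℝ)]
        rw [hv1] at h5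
        push_cast at h5
        have h6 : (q : ℝ) * j < q * n := by linarith
        have h7 : (0 : ℝ) < q := by exact_mod_cast hq
        have h8 : (j : ℝ) < n := lt_of_mul_lt_mul_left h6 h7.le
        exact_mod_cast h8
      · rw [YY, mem_filter, mem_Icc]
        have h4' := h4
        rw [add_comm] at h4'
        refine ⟨abs_le.1 (abs_le_of_sq h4'), h2, ?_, ?_⟩
        · rw [← hv1]; exact h3
        · rw [← hv1]; exact h4
      · rw [← hv1]
    · rintro ⟨j, hj, y, hy, rfl⟩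
      rw [YY, mem_filter] at hy
      refine ⟨?_, hy.2.1, hy.2.2.1, hy.2.2.2⟩
      have : r + q * (j : ℤ) ≡ r [ZMOD q] := by
        have := Int.modEq_add_fac_self (a := r) (t := j) (n := q)
        exact this
      exact this.trans hrx
  rw [e, Set.ncard_coe_finset, card_biUnion]
  · refine sum_congr rfl fun j _ => ?_
    rw [card_image_of_injective]
    intro a b hab
    exact (Prod.mk.inj hab).2
  · intro i _ j _ hij
    rw [Function.onFun, disjoint_left]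
    intro v h1 h2
    rw [mem_image] at h1 h2
    obtain ⟨y, _, hy⟩ := h1
    obtain ⟨z, _, hz⟩ := h2
    rw [← hz] at hy
    have := (Prod.mk.inj hy).1
    have h3 : (q : ℤ) * i = q * j := by linarith
    have h4 := mul_left_cancel₀ hq0.ne' h3
    exact hij (by exact_mod_cast h4)

/-- The sector of the disc. -/
theorem SD_count {lam B : ℝ} (hl : 0 < lam) (hB : 0 ≤ B) (q : ℕ) (hq : 1 ≤ q) (x0 y0 : ℤ) :
    |(((SD lam q x0 y0 B).ncard : ℕ) : ℝ) - Real.arctan lam * B / q ^ 2| ≤ 8 * (√B / q + 1) := by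
  obtain ⟨r, hr1, hrq, hr⟩ := SD_card hl q hq x0 y0 B
  have hq1 : (1 : ℝ) ≤ q := by exact_mod_cast hq
  have hq0 : (0 : ℝ) < q := by linarith
  have hr1' : (1 : ℝ) ≤ r := by exact_mod_cast hr1
  have hrq' : (r : ℝ) ≤ q := by exact_mod_cast hrq
  have hsB := Real.sqrt_nonneg B
  set n : ℕ := ⌊√B / q⌋₊ + 1 with hn
  have hn1 : √B / q < n := by
    rw [hn]
    push_cast
    exact Nat.lt_floor_add_one _
  have hn2 : (n : ℝ) ≤ √B / q + 1 := by
    rw [hn]
    push_cast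
    have := Nat.floor_le (show 0 ≤ √B / q by positivity)
    linarith
  have hn3 : √B < r + q * n := by
    rw [div_lt_iff₀ hq0] at hn1
    linarith
  have hcard := hr n hn3
  have s1 : |((∑ j ∈ range n, (YY lam q y0 B (r + q * j)).card : ℕ) : ℝ) -
      ∑ j ∈ range n, 2 * lh lam B (r + q * j) / q| ≤ 2 * n := by
    push_cast
    rw [← sum_sub_distrib]
    refine (abs_sum_le_sum_abs _ _).trans ?_
    calc ∑ j ∈ range n, |((YY lam q y0 B (r + q * j)).card : ℝ) - 2 * lh lam B (r + q * j) / q|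
        ≤ ∑ j ∈ range n, (2 : ℝ) := by
          refine sum_le_sum fun j _ => ?_
          have := YY_count (B := B) hl q hq y0 (x := r + q * j) (by positivity)
          push_cast at this
          exact this
      _ = 2 * n := by
          rw [sum_const, card_range, nsmul_eq_mul]
          ring
  have s2 := lh_sum hl hB hq0 (show (0 : ℝ) ≤ r by linarith) n
  have s3 : ∫ u in (0 : ℝ)..n, lh lam B (r + q * u) = (1 / q) * ∫ x in (r : ℝ)..(r + q * n), lh lam B x := by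
    have := intervalIntegral.integral_comp_add_mul (a := 0) (b := (n : ℝ)) (lh lam B) hq0.ne' (r : ℝ)
    rw [this, mul_zero, add_zero, smul_eq_mul, one_div]
  have ii : ∀ a b : ℝ, IntervalIntegrable (lh lam B) MeasureTheory.volume a b :=
    fun a b => (lh_cont lam B).intervalIntegrable a b
  have s4 := intervalIntegral.integral_add_adjacent_intervals (ii 0 r) (ii r (r + q * n))
  have s5 := lh_int (s := r + q * n) hl hB hn3.le
  have s6 : 0 ≤ ∫ x in (0 : ℝ)..r, lh lam B x := by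
    apply intervalIntegral.integral_nonneg (by linarith)
    intro x hx
    exact lh_nonneg hl hx.1
  have s7 : ∫ x in (0 : ℝ)..r, lh lam B x ≤ q * √B := by
    have h1 : ∫ x in (0 : ℝ)..r, lh lam B x ≤ ∫ x in (0 : ℝ)..r, √B := by
      apply intervalIntegral.integral_mono_on (by linarith) (ii 0 r) (by simp)
      intro x _
      exact lh_le
    rw [intervalIntegral.integral_const, smul_eq_mul] at h1
    refine h1.trans ?_
    apply mul_le_mul_of_nonneg_right _ hsB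
    linarith
  set SS := ∑ j ∈ range n, lh lam B (r + q * j) with hSS
  have e1 : ∑ j ∈ range n, 2 * lh lam B (r + q * j) / q = 2 / q * SS := by
    rw [hSS, mul_sum]
    refine sum_congr rfl fun j _ => ?_
    ring
  have s8 : |SS - (1 / q) * (B / 2 * Real.arctan lam)| ≤ 3 * √B := by
    have h1 : ∫ u in (0 : ℝ)..n, lh lam B (r + q * u) =
        (1 / q) * (B / 2 * Real.arctan lam) - (1 / q) * ∫ x in (0 : ℝ)..r, lh lam B x := by
      rw [s3, ← s5, ← s4]
      ring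
    have h2 : (1 / q) * ∫ x in (0 : ℝ)..r, lh lam B x ≤ √B := by
      rw [one_div, inv_mul_le_iff₀ hq0]
      exact s7
    have h3 : 0 ≤ (1 / (q : ℝ)) * ∫ x in (0 : ℝ)..r, lh lam B x := by positivity
    rw [h1] at s2
    rw [abs_le] at s2 ⊢
    constructor <;> linarith [s2.1, s2.2]
  have e2 : Real.arctan lam * B / q ^ 2 = 2 / q * ((1 / q) * (B / 2 * Real.arctan lam)) := by
    field_simp
  have s9 : |2 / q * SS - Real.arctan lam * B / q ^ 2| ≤ 6 * (√B / q) := by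
    rw [e2, ← mul_sub, abs_mul, abs_of_nonneg (show (0 : ℝ) ≤ 2 / q by positivity)]
    calc 2 / q * |SS - 1 / q * (B / 2 * Real.arctan lam)| ≤ 2 / q * (3 * √B) := by
          apply mul_le_mul_of_nonneg_left s8
          positivity
      _ = 6 * (√B / q) := by ring
  rw [hcard]
  rw [e1] at s1
  rw [abs_le] at s1 s9 ⊢
  constructor <;> linarith [s1.1, s1.2, s9.1, s9.2]

/-- The points of the sector of the annulus `A < |v| ^ 2 ≤ B` in one class. -/
def SA (lam : ℝ) (q : ℕ) (x0 y0 : ℤ) (A B : ℝ) : Set (ℤ × ℤ) :=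
  {v | v.1 ≡ x0 [ZMOD q] ∧ v.2 ≡ y0 [ZMOD q] ∧ |(v.2 : ℝ)| < lam * v.1 ∧
    A < (v.1 : ℝ) ^ 2 + (v.2 : ℝ) ^ 2 ∧ (v.1 : ℝ) ^ 2 + (v.2 : ℝ) ^ 2 ≤ B}

theorem SA_fin (lam : ℝ) (q : ℕ) (x0 y0 : ℤ) (A B : ℝ) : (SA lam q x0 y0 A B).Finite :=
  (SD_fin lam q x0 y0 B).subset fun _ h => ⟨h.1, h.2.1, h.2.2.1, h.2.2.2.2⟩

/-- **Lattice points in a sector of an annulus, in one class mod `q`**. -/
theorem lc_count {lam : ℝ} (hl : 0 < lam) (q : ℕ) (hq : 1 ≤ q) (x0 y0 : ℤ) {A B : ℝ} (hA : 0 ≤ A)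
    (hAB : A ≤ B) :
    |(((SA lam q x0 y0 A B).ncard : ℕ) : ℝ) - Real.arctan lam * (B - A) / q ^ 2| ≤
      16 * (√B / q + 1) := by
  have h1 := SD_count hl hA q hq x0 y0
  have h2 := SD_count hl (hA.trans hAB) q hq x0 y0
  have hq0 : (0 : ℝ) < q := by exact_mod_cast hq
  have h3 : √A / q ≤ √B / q := by
    have := Real.sqrt_le_sqrt hAB
    gcongr
  have e : SA lam q x0 y0 A B = SD lam q x0 y0 B \ SD lam q x0 y0 A := by
    ext v
    constructor
    · rintro ⟨a, b, c, d, e⟩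
      exact ⟨⟨a, b, c, e⟩, fun h => absurd h.2.2.2 (not_le.2 d)⟩
    · rintro ⟨⟨a, b, c, e⟩, h⟩
      refine ⟨a, b, c, ?_, e⟩
      by_contra h'
      exact h ⟨a, b, c, not_lt.1 h'⟩
  have hsub : SD lam q x0 y0 A ⊆ SD lam q x0 y0 B := fun v h => ⟨h.1, h.2.1, h.2.2.1, h.2.2.2.trans hAB⟩
  have h4 := Set.ncard_sdiff_add_ncard_of_subset hsub (SD_fin lam q x0 y0 B)
  rw [← e] at h4
  have h5 : (((SA lam q x0 y0 A B).ncard : ℕ) : ℝ) + ((SD lam q x0 y0 A).ncard : ℕ) =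
      ((SD lam q x0 y0 B).ncard : ℕ) := by exact_mod_cast h4
  have e2 : Real.arctan lam * (B - A) / q ^ 2 =
      Real.arctan lam * B / q ^ 2 - Real.arctan lam * A / q ^ 2 := by ring
  rw [e2]
  rw [abs_le] at h1 h2 ⊢
  constructor <;> linarith [h1.1, h1.2, h2.1, h2.2]

/-- The same for a finite set of classes mod `q`. -/
theorem lc_classes {lam : ℝ} (hl : 0 < lam) (q : ℕ) (hq : 1 ≤ q) (K : Finset (ZMod q × ZMod q)) {A B : ℝ}
    (hA : 0 ≤ A) (hAB : A ≤ B) :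
    {v : ℤ × ℤ | ((v.1 : ZMod q), (v.2 : ZMod q)) ∈ K ∧ |(v.2 : ℝ)| < lam * v.1 ∧
        A < (v.1 : ℝ) ^ 2 + (v.2 : ℝ) ^ 2 ∧ (v.1 : ℝ) ^ 2 + (v.2 : ℝ) ^ 2 ≤ B}.Finite ∧
    |((({v : ℤ × ℤ | ((v.1 : ZMod q), (v.2 : ZMod q)) ∈ K ∧ |(v.2 : ℝ)| < lam * v.1 ∧
        A < (v.1 : ℝ) ^ 2 + (v.2 : ℝ) ^ 2 ∧ (v.1 : ℝ) ^ 2 + (v.2 : ℝ) ^ 2 ≤ B}).ncard : ℕ) : ℝ) -
        K.card * (Real.arctan lam * (B - A) / q ^ 2)| ≤ K.card * (16 * (√B / q + 1)) := by
  classical
  have hne : NeZero q := ⟨by omega⟩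
  have hmem : ∀ (κ : ZMod q × ZMod q) (v : ℤ × ℤ),
      v ∈ SA lam q (κ.1.val : ℤ) (κ.2.val : ℤ) A B ↔ (((v.1 : ZMod q), (v.2 : ZMod q)) = κ ∧
        |(v.2 : ℝ)| < lam * v.1 ∧ A < (v.1 : ℝ) ^ 2 + (v.2 : ℝ) ^ 2 ∧ (v.1 : ℝ) ^ 2 + (v.2 : ℝ) ^ 2 ≤ B) := by
    intro κ v
    have h1 : ∀ (x : ℤ) (c : ZMod q), x ≡ (c.val : ℤ) [ZMOD q] ↔ (x : ZMod q) = c := by
      intro x c
      rw [← ZMod.intCast_eq_intCast_iff]
      simp
    rw [SA, Set.mem_ofPred_eq, h1, h1, Prod.ext_iff]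
    tauto
  let f : ZMod q × ZMod q → Finset (ℤ × ℤ) := fun κ =>
    (SA_fin lam q (κ.1.val : ℤ) (κ.2.val : ℤ) A B).toFinset
  have e : {v : ℤ × ℤ | ((v.1 : ZMod q), (v.2 : ZMod q)) ∈ K ∧ |(v.2 : ℝ)| < lam * v.1 ∧
        A < (v.1 : ℝ) ^ 2 + (v.2 : ℝ) ^ 2 ∧ (v.1 : ℝ) ^ 2 + (v.2 : ℝ) ^ 2 ≤ B} = ↑(K.biUnion f) := by
    ext v
    rw [mem_coe, mem_biUnion]
    constructor
    · rintro ⟨h1, h2⟩
      refine ⟨_, h1, ?_⟩
      rw [Set.Finite.mem_toFinset, hmem]
      exact ⟨rfl, h2⟩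
    · rintro ⟨κ, hκ, h⟩
      rw [Set.Finite.mem_toFinset, hmem] at h
      refine ⟨?_, h.2⟩
      rw [h.1]
      exact hκ
  rw [e]
  refine ⟨finite_toSet _, ?_⟩
  rw [Set.ncard_coe_finset, card_biUnion]
  · push_cast
    have e2 : (K.card : ℝ) * (Real.arctan lam * (B - A) / q ^ 2) = ∑ κ ∈ K, Real.arctan lam * (B - A) / q ^ 2 := by
      rw [sum_const, nsmul_eq_mul]
    have e3 : (K.card : ℝ) * (16 * (√B / q + 1)) = ∑ κ ∈ K, 16 * (√B / q + 1) := by
      rw [sum_const, nsmul_eq_mul]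
    rw [e2, e3, ← sum_sub_distrib]
    refine (abs_sum_le_sum_abs _ _).trans (sum_le_sum fun κ _ => ?_)
    have := lc_count hl q hq (κ.1.val : ℤ) (κ.2.val : ℤ) hA hAB
    rw [Set.ncard_eq_toFinset_card _ (SA_fin lam q (κ.1.val : ℤ) (κ.2.val : ℤ) A B)] at this
    exact this
  · intro κ _ κ' _ hne
    rw [Function.onFun, disjoint_left]
    intro v h1 h2
    rw [Set.Finite.mem_toFinset, hmem] at h1 h2
    exact hne (h1.1.symm.trans h2.1)

/-- **One class mod `q` and a set `K` of classes mod a coprime `d`.** -/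
theorem lc_two {lam : ℝ} (hl : 0 < lam) (q : ℕ) (hq : 1 ≤ q) (x0 y0 : ℤ) (d : ℕ) (hd : 1 ≤ d)
    (hqd : Nat.Coprime q d) (K : Finset (ZMod d × ZMod d)) {A B : ℝ} (hA : 0 ≤ A) (hAB : A ≤ B) :
    {v : ℤ × ℤ | v.1 ≡ x0 [ZMOD q] ∧ v.2 ≡ y0 [ZMOD q] ∧ ((v.1 : ZMod d), (v.2 : ZMod d)) ∈ K ∧
        |(v.2 : ℝ)| < lam * v.1 ∧ A < (v.1 : ℝ) ^ 2 + (v.2 : ℝ) ^ 2 ∧ (v.1 : ℝ) ^ 2 + (v.2 : ℝ) ^ 2 ≤ B}.Finite ∧
    |((({v : ℤ × ℤ | v.1 ≡ x0 [ZMOD q] ∧ v.2 ≡ y0 [ZMOD q] ∧ ((v.1 : ZMod d), (v.2 : ZMod d)) ∈ K ∧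
        |(v.2 : ℝ)| < lam * v.1 ∧ A < (v.1 : ℝ) ^ 2 + (v.2 : ℝ) ^ 2 ∧ (v.1 : ℝ) ^ 2 + (v.2 : ℝ) ^ 2 ≤ B}).ncard
        : ℕ) : ℝ) - K.card * (Real.arctan lam * (B - A) / (q * d) ^ 2)| ≤ K.card * (16 * (√B / (q * d) + 1)) := by
  classical
  let e := ZMod.chineseRemainder hqd
  let g : ZMod d × ZMod d → ZMod (q * d) × ZMod (q * d) := fun κ =>
    (e.symm ((x0 : ZMod q), κ.1), e.symm ((y0 : ZMod q), κ.2))
  have hg : Function.Injective g := by
    intro κ κ' h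
    have h1 := e.symm.injective (Prod.mk.inj h).1
    have h2 := e.symm.injective (Prod.mk.inj h).2
    exact Prod.ext (Prod.mk.inj h1).2 (Prod.mk.inj h2).2
  have he : ∀ x : ℤ, e (x : ZMod (q * d)) = ((x : ZMod q), (x : ZMod d)) := by
    intro x
    rw [map_intCast]
    rfl
  have hiff : ∀ v : ℤ × ℤ, ((v.1 : ZMod (q * d)), (v.2 : ZMod (q * d))) ∈ K.image g ↔
      (v.1 ≡ x0 [ZMOD q] ∧ v.2 ≡ y0 [ZMOD q] ∧ ((v.1 : ZMod d), (v.2 : ZMod d)) ∈ K) := by
    intro v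
    rw [mem_image, ← ZMod.intCast_eq_intCast_iff, ← ZMod.intCast_eq_intCast_iff]
    constructor
    · rintro ⟨κ, hκ, h⟩
      have h1 : e.symm ((x0 : ZMod q), κ.1) = (v.1 : ZMod (q * d)) := (Prod.mk.inj h).1
      have h2 : e.symm ((y0 : ZMod q), κ.2) = (v.2 : ZMod (q * d)) := (Prod.mk.inj h).2
      rw [RingEquiv.symm_apply_eq, he] at h1 h2
      have h3 := Prod.mk.inj h1
      have h4 := Prod.mk.inj h2
      refine ⟨h3.1.symm, h4.1.symm, ?_⟩
      rw [← h3.2, ← h4.2]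
      exact hκ
    · rintro ⟨h1, h2, h3⟩
      refine ⟨_, h3, ?_⟩
      simp only [g]
      refine Prod.ext ?_ ?_
      · rw [RingEquiv.symm_apply_eq, he, h1]
      · rw [RingEquiv.symm_apply_eq, he, h2]
  have h := lc_classes hl (q * d) (Nat.mul_pos hq hd) (K.image g) hA hAB
  rw [card_image_of_injective _ hg] at h
  have hs : {v : ℤ × ℤ | ((v.1 : ZMod (q * d)), (v.2 : ZMod (q * d))) ∈ K.image g ∧ |(v.2 : ℝ)| < lam * v.1 ∧
        A < (v.1 : ℝ) ^ 2 + (v.2 : ℝ) ^ 2 ∧ (v.1 : ℝ) ^ 2 + (v.2 : ℝ) ^ 2 ≤ B} =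
      {v : ℤ × ℤ | v.1 ≡ x0 [ZMOD q] ∧ v.2 ≡ y0 [ZMOD q] ∧ ((v.1 : ZMod d), (v.2 : ZMod d)) ∈ K ∧
        |(v.2 : ℝ)| < lam * v.1 ∧ A < (v.1 : ℝ) ^ 2 + (v.2 : ℝ) ^ 2 ∧ (v.1 : ℝ) ^ 2 + (v.2 : ℝ) ^ 2 ≤ B} := by
    ext v
    constructor
    · rintro ⟨h1, h2⟩
      have := (hiff v).1 h1
      exact ⟨this.1, this.2.1, this.2.2, h2⟩
    · rintro ⟨h1, h2, h3, h4⟩
      exact ⟨(hiff v).2 ⟨h1, h2, h3⟩, h4⟩
  rw [hs] at h
  push_cast at h
  exact h

/-- The points of a line mod `a`. -/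
theorem card_line (a : ℕ) [hp : Fact a.Prime] (al be : ZMod a) (h : al ≠ 0 ∨ be ≠ 0) :
    (univ.filter fun v : ZMod a × ZMod a => al * v.1 + be * v.2 = 0).card = a := by
  classical
  rcases h with h | h
  · have e : (univ.filter fun v : ZMod a × ZMod a => al * v.1 + be * v.2 = 0) =
        univ.image fun t : ZMod a => (-(be / al) * t, t) := by
      ext v
      simp only [mem_filter, mem_univ, true_and, mem_image]
      constructor
      · intro hv
        refine ⟨v.2, Prod.ext ?_ rfl⟩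
        have : al * v.1 = -(be * v.2) := by linear_combination hv
        show -(be / al) * v.2 = v.1
        field_simp
        linear_combination -hv
      · rintro ⟨t, rfl⟩
        field_simp
        ring
    rw [e, card_image_of_injective, card_univ, ZMod.card]
    intro s t hst
    exact (Prod.mk.inj hst).2
  · have e : (univ.filter fun v : ZMod a × ZMod a => al * v.1 + be * v.2 = 0) =
        univ.image fun t : ZMod a => (t, -(al / be) * t) := by
      ext v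
      simp only [mem_filter, mem_univ, true_and, mem_image]
      constructor
      · intro hv
        refine ⟨v.1, Prod.ext rfl ?_⟩
        show -(al / be) * v.1 = v.2
        field_simp
        linear_combination -hv
      · rintro ⟨t, rfl⟩
        field_simp
        ring
    rw [e, card_image_of_injective, card_univ, ZMod.card]
    intro s t hst
    exact (Prod.mk.inj hst).1

/-- **The line condition mod a prime `a ∤ q`.** -/
theorem lc_line {lam : ℝ} (hl : 0 < lam) (q : ℕ) (hq : 1 ≤ q) (x0 y0 : ℤ) (a : ℕ) (ha : a.Prime)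
    (haq : ¬ a ∣ q) (al be : ℤ) (h : ¬ ((a : ℤ) ∣ al ∧ (a : ℤ) ∣ be)) {A B : ℝ} (hA : 0 ≤ A) (hAB : A ≤ B) :
    {v : ℤ × ℤ | v.1 ≡ x0 [ZMOD q] ∧ v.2 ≡ y0 [ZMOD q] ∧ (a : ℤ) ∣ al * v.1 + be * v.2 ∧
        |(v.2 : ℝ)| < lam * v.1 ∧ A < (v.1 : ℝ) ^ 2 + (v.2 : ℝ) ^ 2 ∧ (v.1 : ℝ) ^ 2 + (v.2 : ℝ) ^ 2 ≤ B}.Finite ∧
    |((({v : ℤ × ℤ | v.1 ≡ x0 [ZMOD q] ∧ v.2 ≡ y0 [ZMOD q] ∧ (a : ℤ) ∣ al * v.1 + be * v.2 ∧
        |(v.2 : ℝ)| < lam * v.1 ∧ A < (v.1 : ℝ) ^ 2 + (v.2 : ℝ) ^ 2 ∧ (v.1 : ℝ) ^ 2 + (v.2 : ℝ) ^ 2 ≤ B}).ncard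
        : ℕ) : ℝ) - Real.arctan lam * (B - A) / (q ^ 2 * a)| ≤ 16 * (√B / q + a) := by
  classical
  have hp : Fact a.Prime := ⟨ha⟩
  have ha0 : (0 : ℝ) < a := by exact_mod_cast ha.pos
  have hq0 : (0 : ℝ) < q := by exact_mod_cast hq
  have hc : Nat.Coprime q a := ((Nat.Prime.coprime_iff_not_dvd ha).2 haq).symm
  have hab : (al : ZMod a) ≠ 0 ∨ (be : ZMod a) ≠ 0 := by
    by_contra hcon
    rw [not_or, not_not, not_not, ZMod.intCast_zmod_eq_zero_iff_dvd, ZMod.intCast_zmod_eq_zero_iff_dvd] at hcon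
    exact h hcon
  have h1 := lc_two hl q hq x0 y0 a ha.one_lt.le hc
    (univ.filter fun v : ZMod a × ZMod a => (al : ZMod a) * v.1 + be * v.2 = 0) hA hAB
  rw [card_line a _ _ hab] at h1
  have hs : ∀ v : ℤ × ℤ, ((v.1 : ZMod a), (v.2 : ZMod a)) ∈
      (univ.filter fun v : ZMod a × ZMod a => (al : ZMod a) * v.1 + be * v.2 = 0) ↔
        (a : ℤ) ∣ al * v.1 + be * v.2 := by
    intro v
    rw [mem_filter, ← ZMod.intCast_zmod_eq_zero_iff_dvd]
    push_cast
    simp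
  simp only [hs] at h1
  refine ⟨h1.1, ?_⟩
  have e1 : (a : ℝ) * (Real.arctan lam * (B - A) / (q * a) ^ 2) = Real.arctan lam * (B - A) / (q ^ 2 * a) := by
    field_simp
  have e2 : (a : ℝ) * (16 * (√B / (q * a) + 1)) = 16 * (√B / q + a) := by
    field_simp
  rw [e1, e2] at h1
  exact h1.2

end Pool.Agent.W33f
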