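import Pool.Agent.W_d33b62f_h37.Ll3

/-!
# MP_d33b62_nt, full question (helper37): upper bound for multiples of a Gaussian integer (proof: helper32, helper53)
-/

set_option autoImplicit false

noncomputable section

open Finset Filter Topology

namespace Pool.Agent.W33f

open Classical in
/-- The points of `LL` come from the points `z₁` of the sieve. -/
theorem ll_reduce {k : ℕ} (D : Dat k) (Y : ℕ) (zz R : ℝ) (xi u : ℤ × ℤ) (hu : 0 < nm u) (x0 y0 : ℤ)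
    (T : Finset (ℤ × ℤ)) (hT : ∀ v, v ∈ T ↔ (nm v : ℝ) ≤ R) (hR : R = 2 * Y / (nm u : ℝ))
    (hcl : ∀ v : ℤ × ℤ, (gm u v).1 ≡ D.rho.1 [ZMOD D.W] → (gm u v).2 ≡ D.rho.2 [ZMOD D.W] →
      v.1 ≡ x0 [ZMOD D.W] ∧ v.2 ≡ y0 [ZMOD D.W])
    (hY : (D.h D.i : ℝ) + D.a xi ≤ 2 * Y) (ha : (D.a xi).Prime)
    (A0 : Finset ℕ) (hA0 : A0 = if (D.a xi : ℤ) ∣ nm u then ∅ else {D.a xi}) :
    ({z : ℤ × ℤ | z.1 ≡ D.rho.1 [ZMOD D.W] ∧ z.2 ≡ D.rho.2 [ZMOD D.W] ∧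
          (D.a xi : ℤ) ∣ (xi.1 - xi.2) * z.1 + (xi.1 + xi.2) * z.2 ∧ (∃ z₁, z = gm u z₁) ∧
          ∃ n ∈ D.N1 Y zz, 2 * nm z = n + D.h D.i + D.a xi}).ncard ≤
      (T.filter fun v => ((v.1 ≡ x0 [ZMOD D.W] ∧ v.2 ≡ y0 [ZMOD D.W]) ∧
        ∀ p ∈ A0, ((v.1 : ZMod p), (v.2 : ZMod p)) ∈ BB (D.a xi) ((xi.1 - xi.2) * u.1 + (xi.1 + xi.2) * u.2)
          ((xi.1 + xi.2) * u.1 - (xi.1 - xi.2) * u.2) (fun l => (D.a xi : ℤ) + D.h D.i - D.h l) (nm u) p) ∧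
        ∀ p ∈ Pw D.w zz, p ≠ D.a xi → ¬ (p : ℤ) ∣ nm u → (∀ l, ¬ (p : ℤ) ∣ (D.a xi : ℤ) + D.h D.i - D.h l) →
          ((v.1 : ZMod p), (v.2 : ZMod p)) ∉ BB (D.a xi) ((xi.1 - xi.2) * u.1 + (xi.1 + xi.2) * u.2)
          ((xi.1 + xi.2) * u.1 - (xi.1 - xi.2) * u.2) (fun l => (D.a xi : ℤ) + D.h D.i - D.h l) (nm u) p).card := by
  set F := (T.filter fun v => ((v.1 ≡ x0 [ZMOD D.W] ∧ v.2 ≡ y0 [ZMOD D.W]) ∧
        ∀ p ∈ A0, ((v.1 : ZMod p), (v.2 : ZMod p)) ∈ BB (D.a xi) ((xi.1 - xi.2) * u.1 + (xi.1 + xi.2) * u.2)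
          ((xi.1 + xi.2) * u.1 - (xi.1 - xi.2) * u.2) (fun l => (D.a xi : ℤ) + D.h D.i - D.h l) (nm u) p) ∧
        ∀ p ∈ Pw D.w zz, p ≠ D.a xi → ¬ (p : ℤ) ∣ nm u → (∀ l, ¬ (p : ℤ) ∣ (D.a xi : ℤ) + D.h D.i - D.h l) →
          ((v.1 : ZMod p), (v.2 : ZMod p)) ∉ BB (D.a xi) ((xi.1 - xi.2) * u.1 + (xi.1 + xi.2) * u.2)
          ((xi.1 + xi.2) * u.1 - (xi.1 - xi.2) * u.2) (fun l => (D.a xi : ℤ) + D.h D.i - D.h l) (nm u) p) with hF
  have hsub : {z : ℤ × ℤ | z.1 ≡ D.rho.1 [ZMOD D.W] ∧ z.2 ≡ D.rho.2 [ZMOD D.W] ∧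
          (D.a xi : ℤ) ∣ (xi.1 - xi.2) * z.1 + (xi.1 + xi.2) * z.2 ∧ (∃ z₁, z = gm u z₁) ∧
          ∃ n ∈ D.N1 Y zz, 2 * nm z = n + D.h D.i + D.a xi} ⊆ ↑(F.image (gm u)) := by
    rintro z ⟨h1, h2, h3, ⟨v, rfl⟩, n, hn, h4⟩
    rw [mem_coe, mem_image]
    refine ⟨v, ?_, rfl⟩
    unfold Dat.N1 at hn
    simp only [mem_filter, mem_Ioc] at hn
    obtain ⟨⟨hn1, hn2⟩, hn3, hn4⟩ := hn
    rw [ll_nm_gm] at h4
    have huR : (0 : ℝ) < nm u := by exact_mod_cast hu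
    rw [hF]
    simp only [mem_filter]
    refine ⟨?_, ⟨hcl v h1 h2, ?_⟩, ?_⟩
    · rw [hT, hR, le_div_iff₀ huR]
      have h5 : (2 : ℝ) * (nm u * nm v) = n + D.h D.i + D.a xi := by exact_mod_cast h4
      have h6 : (n : ℝ) ≤ 2 * Y := by exact_mod_cast hn2
      nlinarith
    · intro p hp
      rw [hA0] at hp
      split_ifs at hp with hd
      · exact absurd hp (notMem_empty p)
      · rw [mem_singleton] at hp
        subst hp
        rw [mem_BB_line _ ha]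
        have e : ((xi.1 - xi.2) * u.1 + (xi.1 + xi.2) * u.2) * v.1 + ((xi.1 + xi.2) * u.1 - (xi.1 - xi.2) * u.2) * v.2 =
            (xi.1 - xi.2) * (gm u v).1 + (xi.1 + xi.2) * (gm u v).2 := by
          unfold gm
          ring
        rw [e]
        exact h3
    · intro p hp hpa hpu _ hmem
      have hpp := (mem_Pw.1 hp).1
      rw [mem_BB_bad _ _ _ _ _ _ hpp hpa hpu] at hmem
      obtain ⟨l, hl⟩ := hmem
      apply hn4 p hp l
      have e : (n : ℤ) + D.h l = 2 * (nm u * nm v) - ((D.a xi : ℤ) + D.h D.i - D.h l) := by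
        rw [h4]
        ring
      rw [e]
      exact hl
  refine (Set.ncard_le_ncard hsub (finite_toSet _)).trans ?_
  rw [Set.ncard_coe_finset]
  exact card_image_le

/-- **LL.** Upper bound sieve for the points `z = u z₁` of one circle (no cone condition is used). -/
theorem LL (k : ℕ) : ∃ C₄ c₁₀ : ℝ, 0 < C₄ ∧ 0 < c₁₀ ∧ ∀ c₁ : ℝ, 0 < c₁ → c₁ ≤ c₁₀ → ∃ w₀ : ℕ,
    ∀ w ≥ w₀, ∀ W, Wok w W → ∀ B' : ℕ, ∃ Y₀ : ℕ, ∀ Y ≥ Y₀, ∀ D : Dat k, D.w = w → D.W = W → D.ok →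
      ∀ xi, D.Fam Y 1 B' (CC k) 1 xi → ∀ u : ℤ × ℤ, 0 < nm u → (nm u : ℝ) ≤ (Y : ℝ) ^ (1 / 100 : ℝ) →
        (({z : ℤ × ℤ | z.1 ≡ D.rho.1 [ZMOD D.W] ∧ z.2 ≡ D.rho.2 [ZMOD D.W] ∧
          (D.a xi : ℤ) ∣ (xi.1 - xi.2) * z.1 + (xi.1 + xi.2) * z.2 ∧ (∃ z₁, z = gm u z₁) ∧
          ∃ n ∈ D.N1 Y ((Y : ℝ) ^ c₁), 2 * nm z = n + D.h D.i + D.a xi}).ncard : ℝ) ≤
          C₄ * (1 / nm u) * (∏ p ∈ (nm u).natAbs.primeFactors, (1 + 2 * k / (p : ℝ))) *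
            (if (D.a xi : ℤ) ∣ nm u then (D.a xi : ℝ) else 1) *
            (mu W (D.a xi) * (Y / (4 * W : ℕ)) * VV k w ((Y : ℝ) ^ c₁)) := by
  classical
  obtain ⟨C, hC1, hC⟩ := ll_sieve k
  refine ⟨16 * (Real.exp 1 * 2 * 2 ^ k) * (1 + C) + 1, 1 / 270, by positivity, by norm_num, ?_⟩
  intro c₁ h0 h1
  refine ⟨4 * k + 10 ^ 6 + 100, ?_⟩
  intro w hw W hW B'
  obtain ⟨Y₁, hY₁⟩ := VV_lower k w (by omega) c₁ (1 / 100) h0 (by linarith) (by norm_num)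
  have hWpos : 0 < W := by
    rcases Nat.eq_zero_or_pos W with h | h
    · exact absurd (hW.2.2) (by rw [h]; simp)
    · exact h
  have hW0 : (0 : ℝ) < W := by exact_mod_cast hWpos
  have e1 : ∀ᶠ x : ℝ in atTop, 2 ≤ x ^ c₁ := (tendsto_rpow_atTop h0).eventually (eventually_ge_atTop 2)
  have e2 : ∀ᶠ x : ℝ in atTop, 160 * (W : ℝ) ^ 2 ≤ x ^ (7 / 20 : ℝ) :=
    (tendsto_rpow_atTop (by norm_num)).eventually (eventually_ge_atTop _)
  have e3 : ∀ᶠ x : ℝ in atTop, (w : ℝ) + 2 * 10 ^ 6 < Real.log x :=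
    Real.tendsto_log_atTop.eventually (eventually_gt_atTop _)
  have e4 : ∀ᶠ x : ℝ in atTop, Real.log x ^ B' ≤ x ^ (1 / 100 : ℝ) := by
    have h2 : (fun x : ℝ => Real.log x ^ B') =o[atTop] fun x : ℝ => x ^ (1 / 100 : ℝ) := by
      have := isLittleO_log_rpow_rpow_atTop (B' : ℝ) (show (0 : ℝ) < 1 / 100 by norm_num)
      refine this.congr_left fun x => ?_
      rw [Real.rpow_natCast]
    have h3 := h2.bound (show (0 : ℝ) < 1 by norm_num)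
    filter_upwards [h3, eventually_ge_atTop (1 : ℝ)] with x hx hx1
    rw [Real.norm_of_nonneg (by have := Real.log_nonneg hx1; positivity),
      Real.norm_of_nonneg (by positivity)] at hx
    linarith
  obtain ⟨Y₂, hY₂⟩ := ((e1.and (e2.and (e3.and (e4.and (eventually_ge_atTop (10 ^ 6 : ℝ))))))).exists_forall_of_atTop
  refine ⟨max Y₁ ⌈Y₂⌉₊, ?_⟩
  intro Y hY D hDw hDW hD xi hxi u hu huY
  obtain ⟨a1, a2, a3, a4, a5⟩ := hY₂ (Y : ℝ) (Nat.ceil_le.1 ((le_max_right _ _).trans hY))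
  have a6 := hY₁ Y ((le_max_left _ _).trans hY)
  set z := (Y : ℝ) ^ c₁ with hz
  have hY0 : (0 : ℝ) < Y := by linarith
  have hY1 : (1 : ℝ) ≤ Y := by linarith
  set a := D.a xi with ha
  have hap : a.Prime := hxi.ap
  have ha0 : (0 : ℝ) < a := by exact_mod_cast hap.pos
  have hlo : Real.log Y ≤ a := by
    have := hxi.lo
    rw [pow_one] at this
    exact this
  have hhi : (a : ℝ) ≤ (Y : ℝ) ^ (1 / 100 : ℝ) := hxi.hi.trans a4
  have hawR : (w : ℝ) + 2 * 10 ^ 6 < a := lt_of_lt_of_le a3 hlo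
  have haw : w + 2 * 10 ^ 6 < a := by exact_mod_cast hawR
  have huR : (0 : ℝ) < nm u := by exact_mod_cast hu
  have hVV0 : 0 < VV k w z := lt_of_lt_of_le (by positivity) a6
  have hmu0 : 0 < mu W a := by
    unfold mu
    have := Real.pi_pos
    positivity
  set Pj := ∏ p ∈ (nm u).natAbs.primeFactors, (1 + 2 * k / (p : ℝ)) with hPi
  have hPi1 : 1 ≤ Pj := by
    rw [hPi]
    have : ∀ S : Finset ℕ, (1 : ℝ) ≤ ∏ p ∈ S, (1 + 2 * k / (p : ℝ)) := by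
      intro S
      induction S using Finset.induction_on with
      | empty => simp
      | insert p S hp ih =>
        rw [prod_insert hp]
        have : (0 : ℝ) ≤ 2 * k / (p : ℝ) := by positivity
        nlinarith only [ih, this, h0, h1]
    exact this _
  set da : ℝ := (if (a : ℤ) ∣ nm u then (a : ℝ) else 1) with hda
  have hda1 : 1 ≤ da := by
    rw [hda]
    split_ifs
    · exact_mod_cast hap.one_le
    · exact le_rfl
  set V' := mu W a * ((Y : ℝ) / (4 * W : ℕ)) * VV k w z with hV'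
  have hV'0 : 0 < V' := by
    rw [hV']
    have : (0 : ℝ) < (Y : ℝ) / (4 * W : ℕ) := by positivity
    positivity
  by_cases hcop : IsCoprime (nm u) (W : ℤ)
  swap
  · -- the set is empty
    have hempty : {z : ℤ × ℤ | z.1 ≡ D.rho.1 [ZMOD D.W] ∧ z.2 ≡ D.rho.2 [ZMOD D.W] ∧
          (a : ℤ) ∣ (xi.1 - xi.2) * z.1 + (xi.1 + xi.2) * z.2 ∧ (∃ z₁, z = gm u z₁) ∧
          ∃ n ∈ D.N1 Y ((Y : ℝ) ^ c₁), 2 * nm z = n + D.h D.i + a} = ∅ := by
      rw [Set.eq_empty_iff_forall_notMem]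
      rintro z ⟨h2, h3, _, ⟨v, rfl⟩, _⟩
      apply hcop
      rw [← hDW]
      exact ll_cop u v D.rho D.W hD.hrhoN h2 h3
    rw [hempty, Set.ncard_empty, Nat.cast_zero]
    positivity
  obtain ⟨x0, y0, hcl⟩ := ll_class u D.rho W hcop
  set R := 2 * (Y : ℝ) / (nm u : ℝ) with hR
  have hR0 : 0 ≤ R := by positivity
  obtain ⟨T, hT1, hT2⟩ := ll_disc R hR0
  set A0 : Finset ℕ := if (a : ℤ) ∣ nm u then ∅ else {a} with hA0
  have hhR : (D.h D.i : ℝ) ≤ 10 ^ 6 := by exact_mod_cast hD.hh D.i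
  have haY : (a : ℝ) ≤ Y := hhi.trans (by
    calc (Y : ℝ) ^ (1 / 100 : ℝ) ≤ (Y : ℝ) ^ (1 : ℝ) := Real.rpow_le_rpow_of_exponent_le hY1 (by norm_num)
      _ = Y := Real.rpow_one _)
  have hred := ll_reduce D Y z R xi u hu x0 y0 T hT1 hR (by rw [hDW]; exact hcl) (by
    show (D.h D.i : ℝ) + a ≤ 2 * Y
    linarith) hap A0 hA0
  have hsv := hC w W a (nm u) z R ((xi.1 - xi.2) * u.1 + (xi.1 + xi.2) * u.2)
    ((xi.1 + xi.2) * u.1 - (xi.1 - xi.2) * u.2) x0 y0 (fun l => (a : ℤ) + D.h D.i - D.h l) A0 T a1 (by omega) hW hWpos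
    hap (by omega) hu (by
      intro p hp l l' hll
      have hp' := mem_Pw.1 hp
      have e : ((a : ℤ) + D.h D.i - D.h l) - ((a : ℤ) + D.h D.i - D.h l') = (D.h l' : ℤ) - D.h l := by ring
      rw [e] at hll
      have h2 := hD.hh l
      have h3 := hD.hh l'
      by_contra hne
      have h4 : (D.h l' : ℤ) - D.h l ≠ 0 := by
        intro h5
        apply hne
        apply hD.inj
        omega
      have h5 := Int.le_of_dvd (abs_pos.2 h4) ((dvd_abs _ _).2 hll)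
      have h6 : |(D.h l' : ℤ) - D.h l| ≤ 10 ^ 6 := by
        rw [abs_le]
        omega
      omega) (by
      intro l h2
      have h3 := hD.hh l
      have h4 : ((a : ℤ) + D.h D.i - D.h l) = 0 := h2
      omega) (by
      intro l
      have h2 := hxi.good l
      rw [hDw] at h2
      exact h2) hR0 (by
      rw [hA0]
      split_ifs with hd
      · exact Or.inl rfl
      · refine Or.inr ⟨rfl, ?_⟩
        intro h2
        have e : ((xi.1 - xi.2) * u.1 + (xi.1 + xi.2) * u.2) ^ 2 + ((xi.1 + xi.2) * u.1 - (xi.1 - xi.2) * u.2) ^ 2 =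
            2 * (nm xi * nm u) := by
          unfold nm
          ring
        rw [e, hxi.eq] at h2
        have hpZ : Prime (a : ℤ) := Nat.prime_iff_prime_int.1 hap
        rcases hpZ.dvd_or_dvd h2 with h3 | h3
        · have := Int.le_of_dvd (by norm_num) h3
          omega
        · rcases hpZ.dvd_or_dvd h3 with h4 | h4
          · have h5 : (a : ℤ) ∣ D.a0 := by
              have := dvd_sub h4 (dvd_refl (a : ℤ))
              rwa [add_sub_cancel_left] at this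
            have h6 : a ∣ D.a0 := by exact_mod_cast h5
            have h7 := Nat.le_of_dvd hD.a0p.pos h6
            have h8 := hD.a0w
            omega
          · exact hd h4) hT2
  have hcard : (({y : ℤ × ℤ | y.1 ≡ D.rho.1 [ZMOD D.W] ∧ y.2 ≡ D.rho.2 [ZMOD D.W] ∧
          (a : ℤ) ∣ (xi.1 - xi.2) * y.1 + (xi.1 + xi.2) * y.2 ∧ (∃ z₁, y = gm u z₁) ∧
          ∃ n ∈ D.N1 Y z, 2 * nm y = n + D.h D.i + a}).ncard : ℝ) ≤
      (Real.pi * R / W ^ 2) * (∏ p ∈ A0, (1 / (p : ℝ))) *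
        (Real.exp 1 * 2 * 2 ^ k * (∏ p ∈ (nm u).natAbs.primeFactors, (1 + 2 * k / (p : ℝ))) * VV k w z) * (1 + C) +
        20 * (√R + 1) * a ^ 2 * z ^ 27 := by
    refine le_trans (Nat.cast_le.2 hred) (le_trans (le_of_eq ?_) hsv)
    rw [hDW, hDw]
  refine hcard.trans ?_
  rw [← hPi]
  have hprodA : ∏ p ∈ A0, (1 / (p : ℝ)) = da / a := by
    rw [hA0, hda]
    split_ifs
    · rw [prod_empty, div_self ha0.ne']
    · rw [prod_singleton]
  -- the main term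
  have hmain : (Real.pi * R / W ^ 2) * (∏ p ∈ A0, (1 / (p : ℝ))) *
        (Real.exp 1 * 2 * 2 ^ k * Pj * VV k w z) * (1 + C) =
      16 * (Real.exp 1 * 2 * 2 ^ k) * (1 + C) * (1 / nm u) * Pj * da * V' := by
    rw [hprodA, hR, hV']
    unfold mu
    push_cast
    field_simp
    ring
  rw [hmain]
  -- the error
  have herr : 20 * (√R + 1) * (a : ℝ) ^ 2 * z ^ 27 ≤ 1 * (1 / nm u) * Pj * da * V' := by
    have h2 : √R + 1 ≤ 3 * (Y : ℝ) ^ (1 / 2 : ℝ) := by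
      have h3 : R ≤ 4 * Y := by
        rw [hR, div_le_iff₀ huR]
        have : (1 : ℝ) ≤ nm u := by exact_mod_cast hu
        nlinarith only [h0, h1, a3, hlo, haY, this]
      have h4 : √R ≤ 2 * (Y : ℝ) ^ (1 / 2 : ℝ) := by
        refine (Real.sqrt_le_sqrt h3).trans ?_
        rw [show (4 : ℝ) * Y = 2 ^ 2 * Y by ring, Real.sqrt_mul (by positivity), Real.sqrt_sq (by norm_num),
          Real.sqrt_eq_rpow]
      have h5 : 1 ≤ (Y : ℝ) ^ (1 / 2 : ℝ) := Real.one_le_rpow hY1 (by norm_num)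
      linarith only [h4, h5]
    have h3 : z ^ 27 ≤ (Y : ℝ) ^ (1 / 10 : ℝ) := by
      rw [hz, ← Real.rpow_natCast, ← Real.rpow_mul hY0.le]
      apply Real.rpow_le_rpow_of_exponent_le hY1
      push_cast
      linarith only [h1]
    have h4 : (a : ℝ) ^ 2 ≤ (Y : ℝ) ^ (1 / 50 : ℝ) := by
      have h5 : (Y : ℝ) ^ (1 / 50 : ℝ) = ((Y : ℝ) ^ (1 / 100 : ℝ)) ^ 2 := by
        rw [← Real.rpow_natCast, ← Real.rpow_mul hY0.le]
        norm_num
      rw [h5]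
      exact pow_le_pow_left₀ ha0.le hhi 2
    have hz0 : 0 < z := by linarith only [h0, h1, a1]
    have h5 : 20 * (√R + 1) * (a : ℝ) ^ 2 * z ^ 27 ≤
        60 * ((Y : ℝ) ^ (1 / 2 : ℝ) * (Y : ℝ) ^ (1 / 50 : ℝ) * (Y : ℝ) ^ (1 / 10 : ℝ)) := by
      have h6 : (√R + 1) * ((a : ℝ) ^ 2 * z ^ 27) ≤ 3 * (Y : ℝ) ^ (1 / 2 : ℝ) *
          ((Y : ℝ) ^ (1 / 50 : ℝ) * (Y : ℝ) ^ (1 / 10 : ℝ)) := by
        refine mul_le_mul h2 (mul_le_mul h4 h3 (by positivity) (by positivity)) (by positivity) (by positivity)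
      nlinarith only [h6]
    have h6 : (Y : ℝ) ^ (1 / 2 : ℝ) * (Y : ℝ) ^ (1 / 50 : ℝ) * (Y : ℝ) ^ (1 / 10 : ℝ) = (Y : ℝ) ^ (31 / 50 : ℝ) := by
      rw [← Real.rpow_add hY0, ← Real.rpow_add hY0]
      norm_num
    rw [h6] at h5
    refine h5.trans ?_
    -- lower bound of the right hand side
    have h7 : (Y : ℝ) ^ (-(1 / 100) : ℝ) ≤ 1 / nm u := by
      rw [Real.rpow_neg hY0.le, ← one_div ((Y : ℝ) ^ (1 / 100 : ℝ))]
      exact one_div_le_one_div_of_le huR huY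
    have h8 : 3 / (8 * (W : ℝ) ^ 2) * (Y : ℝ) ^ (49 / 50 : ℝ) ≤ V' := by
      have h9 : (Y : ℝ) ^ (-(1 / 100) : ℝ) ≤ 1 / (a : ℝ) := by
        rw [Real.rpow_neg hY0.le, ← one_div ((Y : ℝ) ^ (1 / 100 : ℝ))]
        exact one_div_le_one_div_of_le ha0 hhi
      have h10 : V' = Real.pi / (8 * (W : ℝ) ^ 2) * (Y * (1 / a) * VV k w z) := by
        rw [hV']
        unfold mu
        push_cast
        field_simp
        ring
      rw [h10]
      have h11 : (Y : ℝ) ^ (49 / 50 : ℝ) = Y * (Y : ℝ) ^ (-(1 / 100) : ℝ) * (Y : ℝ) ^ (-(1 / 100) : ℝ) := by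
        nth_rewrite 2 [← Real.rpow_one (Y : ℝ)]
        rw [← Real.rpow_add hY0, ← Real.rpow_add hY0]
        norm_num
      rw [h11]
      refine mul_le_mul ?_ ?_ (by positivity) (by have := Real.pi_pos; positivity)
      · exact div_le_div_of_nonneg_right Real.pi_gt_three.le (by positivity)
      · exact mul_le_mul (mul_le_mul_of_nonneg_left h9 hY0.le) a6 (by positivity) (by positivity)
    have h12 : (Y : ℝ) ^ (-(1 / 100) : ℝ) * (3 / (8 * (W : ℝ) ^ 2) * (Y : ℝ) ^ (49 / 50 : ℝ)) ≤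
        1 * (1 / nm u) * Pj * da * V' := by
      have h13 : (Y : ℝ) ^ (-(1 / 100) : ℝ) * (3 / (8 * (W : ℝ) ^ 2) * (Y : ℝ) ^ (49 / 50 : ℝ)) ≤ (1 / nm u) * V' :=
        mul_le_mul h7 h8 (by positivity) (by positivity)
      refine h13.trans ?_
      have h14 : 0 ≤ (1 / (nm u : ℝ)) * V' := by positivity
      have h15 : 1 ≤ Pj * da := by nlinarith only [hPi1, hda1, h0, h1]
      calc (1 / (nm u : ℝ)) * V' = ((1 / (nm u : ℝ)) * V') * 1 := (mul_one _).symm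
        _ ≤ ((1 / (nm u : ℝ)) * V') * (Pj * da) := mul_le_mul_of_nonneg_left h15 h14
        _ = _ := by ring
    refine le_trans ?_ h12
    have h16 : (Y : ℝ) ^ (-(1 / 100) : ℝ) * (3 / (8 * (W : ℝ) ^ 2) * (Y : ℝ) ^ (49 / 50 : ℝ)) =
        3 / (8 * (W : ℝ) ^ 2) * ((Y : ℝ) ^ (7 / 20 : ℝ) * (Y : ℝ) ^ (31 / 50 : ℝ)) := by
      have : (Y : ℝ) ^ (-(1 / 100) : ℝ) * (Y : ℝ) ^ (49 / 50 : ℝ) = (Y : ℝ) ^ (7 / 20 : ℝ) * (Y : ℝ) ^ (31 / 50 : ℝ) := by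
        rw [← Real.rpow_add hY0, ← Real.rpow_add hY0]
        norm_num
      rw [← this]
      ring
    rw [h16]
    have h17 : 60 ≤ 3 / (8 * (W : ℝ) ^ 2) * (Y : ℝ) ^ (7 / 20 : ℝ) := by
      rw [div_mul_eq_mul_div, le_div_iff₀ (by positivity)]
      linarith only [a2]
    have h18 : 0 ≤ (Y : ℝ) ^ (31 / 50 : ℝ) := by positivity
    nlinarith only [h0, h1, h17, h18]
  have hsplit : (16 * (Real.exp 1 * 2 * 2 ^ k) * (1 + C) + 1) * (1 / (nm u : ℝ)) * Pj * da * V' =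
      16 * (Real.exp 1 * 2 * 2 ^ k) * (1 + C) * (1 / nm u) * Pj * da * V' + 1 * (1 / nm u) * Pj * da * V' := by ring
  rw [hsplit]
  linarith only [herr]

end Pool.Agent.W33f
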