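import Pool.Agent.W_d33b62f_h37.SMa1

/-!
# First moment (MP_d33b62, SMb): comparison of the sieve products (helper47)
-/

set_option autoImplicit false

noncomputable section

open Finset

namespace Pool.Agent.W33f

/-- `∏ (1 - x) ≥ 1 - ∑ x`. -/
theorem prod_one_sub_ge (S : Finset ℕ) (x : ℕ → ℝ) (h0 : ∀ p ∈ S, 0 ≤ x p) (h1 : ∀ p ∈ S, x p ≤ 1) :
    1 - ∑ p ∈ S, x p ≤ ∏ p ∈ S, (1 - x p) := by
  induction S using Finset.induction_on with
  | empty => simp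
  | insert p S hp ih =>
    rw [sum_insert hp, prod_insert hp]
    have ih' := ih (fun q hq => h0 q (mem_insert_of_mem hq)) (fun q hq => h1 q (mem_insert_of_mem hq))
    have e1 := h0 p (mem_insert_self p S)
    have e2 := h1 p (mem_insert_self p S)
    have e3 : 0 ≤ ∑ p ∈ S, x p := sum_nonneg fun q hq => h0 q (mem_insert_of_mem hq)
    have e4 : (1 - x p) * (1 - ∑ p ∈ S, x p) ≤ (1 - x p) * ∏ p ∈ S, (1 - x p) :=
      mul_le_mul_of_nonneg_left ih' (by linarith)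
    nlinarith [mul_nonneg e1 e3]

/-- The tail of `∑ 1 / p²`. -/
theorem sum_inv_sq_le (w : ℕ) (hw : 1 ≤ w) (S : Finset ℕ) (hS : ∀ p ∈ S, w < p) :
    ∑ p ∈ S, 1 / (p : ℝ) ^ 2 ≤ 1 / (w : ℝ) := by
  have hw0 : (0 : ℝ) < w := by exact_mod_cast hw
  -- compare with the telescoping sum
  have key : ∀ n : ℕ, ∑ p ∈ (Ioc w (w + n)), 1 / (p : ℝ) ^ 2 ≤ 1 / (w : ℝ) - 1 / ((w + n : ℕ) : ℝ) := by
    intro n
    induction n with
    | zero => simp
    | succ n ih =>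
      have e : Ioc w (w + (n + 1)) = insert (w + n + 1) (Ioc w (w + n)) := by
        ext x
        simp only [mem_Ioc, mem_insert]
        omega
      rw [e, sum_insert (by simp only [mem_Ioc]; omega)]
      have h3 : (0 : ℝ) < ((w + n : ℕ) : ℝ) := by
        have : 0 < w + n := by omega
        exact_mod_cast this
      have h4 : (((w + n + 1 : ℕ)) : ℝ) = ((w + n : ℕ) : ℝ) + 1 := by push_cast; ring
      have h5 : ((w + (n + 1) : ℕ) : ℝ) = ((w + n : ℕ) : ℝ) + 1 := by push_cast; ring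
      rw [h4, h5]
      set t := ((w + n : ℕ) : ℝ) with ht
      have h6 : 1 / (t + 1) ^ 2 ≤ 1 / t - 1 / (t + 1) := by
        rw [div_sub_div _ _ h3.ne' (by positivity), div_le_div_iff₀ (by positivity) (by positivity)]
        nlinarith
      linarith
  obtain ⟨n, hn⟩ : ∃ n, S ⊆ Ioc w (w + n) := by
    refine ⟨∑ p ∈ S, p, fun p hp => ?_⟩
    rw [mem_Ioc]
    refine ⟨hS p hp, ?_⟩
    have : p ≤ ∑ p ∈ S, p := single_le_sum (f := fun p => p) (fun q _ => Nat.zero_le q) hp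
    omega
  have h1 : ∑ p ∈ S, 1 / (p : ℝ) ^ 2 ≤ ∑ p ∈ (Ioc w (w + n)), 1 / (p : ℝ) ^ 2 :=
    sum_le_sum_of_subset_of_nonneg hn fun p _ _ => by positivity
  have h2 : 0 ≤ 1 / ((w + n : ℕ) : ℝ) := by positivity
  linarith [key n]

/-- The primes dividing one of the `m l`. -/
theorem prod_div_ge (k w : ℕ) (C η : ℝ) (hw : 100 ≤ w) (hC : 20 ≤ C) (hη : 0 ≤ η) (hkη : k * η ≤ 1)
    (P : Finset ℕ) (hP : ∀ p ∈ P, p.Prime ∧ w < p) (m : Fin k → ℤ) (hm : ∀ l, m l ≠ 0)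
    (hE : ∀ l, EE C w (m l) ≤ 1 + η) [∀ p : ℕ, Decidable (∃ l, (p : ℤ) ∣ m l)] :
    1 - k * η ≤ ∏ p ∈ P, (if ∃ l, (p : ℤ) ∣ m l then 1 - 4 / (p : ℝ) else 1) := by
  classical
  have hpr : ∀ p ∈ P, (100 : ℝ) ≤ p := fun p hp => by
    have : 100 ≤ p := hw.trans (hP p hp).2.le
    exact_mod_cast this
  have hfac : ∀ p ∈ P, 0 ≤ 1 - 4 / (p : ℝ) ∧ 1 - 4 / (p : ℝ) ≤ 1 ∧ (1 + C / (p : ℝ))⁻¹ ≤ 1 - 4 / (p : ℝ) := by
    intro p hp
    have h1 := hpr p hp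
    have h2 : 4 / (p : ℝ) ≤ 1 := by
      rw [div_le_one (by linarith)]
      linarith
    have h3 : 0 ≤ 4 / (p : ℝ) := by positivity
    refine ⟨by linarith, by linarith, ?_⟩
    have h4 : 0 < 1 + C / (p : ℝ) := by positivity
    rw [inv_le_iff_one_le_mul₀ h4]
    have hp0 : (0 : ℝ) < p := by linarith
    have h5 : (1 - 4 / (p : ℝ)) * (1 + C / (p : ℝ)) = 1 + ((C - 4) * p - 4 * C) / (p : ℝ) ^ 2 := by
      field_simp
      ring
    rw [h5]
    have h6 : 0 ≤ ((C - 4) * p - 4 * C) / (p : ℝ) ^ 2 := by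
      apply div_nonneg _ (by positivity)
      nlinarith
    linarith
  have h1 : ∀ p ∈ P, ∏ l : Fin k, (if (p : ℤ) ∣ m l then 1 - 4 / (p : ℝ) else 1) ≤
      (if ∃ l, (p : ℤ) ∣ m l then 1 - 4 / (p : ℝ) else 1) := by
    intro p hp
    have h2 := hfac p hp
    have h3 : ∀ l ∈ (univ : Finset (Fin k)), 0 ≤ (if (p : ℤ) ∣ m l then 1 - 4 / (p : ℝ) else 1) ∧
        (if (p : ℤ) ∣ m l then 1 - 4 / (p : ℝ) else 1) ≤ 1 := by
      intro l _
      split_ifs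
      · exact ⟨h2.1, h2.2.1⟩
      · exact ⟨zero_le_one, le_rfl⟩
    by_cases hd : ∃ l, (p : ℤ) ∣ m l
    · rw [if_pos hd]
      obtain ⟨l, hl⟩ := hd
      rw [← mul_prod_erase univ _ (mem_univ l), if_pos hl]
      have h4 : ∏ x ∈ univ.erase l, (if (p : ℤ) ∣ m x then 1 - 4 / (p : ℝ) else 1) ≤ 1 :=
        prod_le_one (fun x _ => (h3 x (mem_univ x)).1) (fun x _ => (h3 x (mem_univ x)).2)
      calc (1 - 4 / (p : ℝ)) * ∏ x ∈ univ.erase l, (if (p : ℤ) ∣ m x then 1 - 4 / (p : ℝ) else 1)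
          ≤ (1 - 4 / (p : ℝ)) * 1 := mul_le_mul_of_nonneg_left h4 h2.1
        _ = _ := mul_one _
    · rw [if_neg hd]
      exact prod_le_one (fun x hx => (h3 x hx).1) (fun x hx => (h3 x hx).2)
  have h0 : ∀ p ∈ P, 0 ≤ ∏ l : Fin k, (if (p : ℤ) ∣ m l then 1 - 4 / (p : ℝ) else 1) := by
    intro p hp
    have h2 := hfac p hp
    refine prod_nonneg fun l _ => ?_
    split_ifs
    · exact h2.1
    · exact zero_le_one
  refine le_trans ?_ (prod_le_prod h0 h1)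
  rw [prod_comm]
  have h2 : ∀ l ∈ (univ : Finset (Fin k)), 1 - η ≤ ∏ p ∈ P, (if (p : ℤ) ∣ m l then 1 - 4 / (p : ℝ) else 1) := by
    intro l _
    rw [← prod_filter]
    have h3 : ∏ p ∈ P.filter (fun p : ℕ => (p : ℤ) ∣ m l), (1 + C / (p : ℝ)) ≤ EE C w (m l) := by
      unfold EE
      have hsub : P.filter (fun p : ℕ => (p : ℤ) ∣ m l) ⊆ (m l).natAbs.primeFactors.filter (w < ·) := by
        intro p hp
        rw [mem_filter] at hp
        rw [mem_filter, Nat.mem_primeFactors]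
        exact ⟨⟨(hP p hp.1).1, Int.natCast_dvd.1 hp.2, Int.natAbs_ne_zero.2 (hm l)⟩, (hP p hp.1).2⟩
      rw [← prod_sdiff hsub]
      have h4 : (1 : ℝ) ≤ ∏ p ∈ (m l).natAbs.primeFactors.filter (w < ·) \ P.filter (fun p : ℕ => (p : ℤ) ∣ m l),
          (1 + C / (p : ℝ)) := by
        have : ∀ T : Finset ℕ, (1 : ℝ) ≤ ∏ p ∈ T, (1 + C / (p : ℝ)) := by
          intro T
          induction T using Finset.induction_on with
          | empty => simp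
          | insert p T hp ih =>
            rw [prod_insert hp]
            have : (1 : ℝ) ≤ 1 + C / (p : ℝ) := by
              have : 0 ≤ C / (p : ℝ) := by positivity
              linarith
            nlinarith
        exact this _
      have h5 : (0 : ℝ) ≤ ∏ p ∈ P.filter (fun p : ℕ => (p : ℤ) ∣ m l), (1 + C / (p : ℝ)) :=
        prod_nonneg fun p _ => by positivity
      nlinarith
    have h4 : (∏ p ∈ P.filter (fun p : ℕ => (p : ℤ) ∣ m l), (1 + C / (p : ℝ)))⁻¹ ≤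
        ∏ p ∈ P.filter (fun p : ℕ => (p : ℤ) ∣ m l), (1 - 4 / (p : ℝ)) := by
      rw [← prod_inv_distrib]
      exact prod_le_prod (fun p _ => by positivity) fun p hp => (hfac p (mem_filter.1 hp).1).2.2
    refine le_trans ?_ h4
    have h5 : 0 < ∏ p ∈ P.filter (fun p : ℕ => (p : ℤ) ∣ m l), (1 + C / (p : ℝ)) :=
      prod_pos fun p _ => by positivity
    have h6 : ∏ p ∈ P.filter (fun p : ℕ => (p : ℤ) ∣ m l), (1 + C / (p : ℝ)) ≤ 1 + η := h3.trans (hE l)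
    have h7 : (1 + η)⁻¹ ≤ (∏ p ∈ P.filter (fun p : ℕ => (p : ℤ) ∣ m l), (1 + C / (p : ℝ)))⁻¹ :=
      inv_anti₀ h5 h6
    refine le_trans ?_ h7
    rw [← one_div, le_div_iff₀ (by positivity)]
    nlinarith
  rcases Nat.eq_zero_or_pos k with hk | hk
  · subst hk
    simp
  · have hk1 : (1 : ℝ) ≤ k := by exact_mod_cast hk
    have hη1 : η ≤ 1 := by nlinarith
    have h3 := one_add_mul_le_pow (show (-2 : ℝ) ≤ -η by linarith) k
    have h4 : ∏ _l : Fin k, (1 - η) ≤ ∏ l : Fin k, ∏ p ∈ P, (if (p : ℤ) ∣ m l then 1 - 4 / (p : ℝ) else 1) :=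
      prod_le_prod (fun l _ => by linarith) h2
    rw [prod_const, card_univ, Fintype.card_fin] at h4
    have h5 : (1 + -η) ^ k = (1 - η) ^ k := by ring
    rw [h5] at h3
    linarith

/-- **The product comparison.** -/
theorem prod_compare (k w : ℕ) (z C η : ℝ) (hk : 2 * k + 4 ≤ w) (hw : 100 ≤ w) (hC : 20 ≤ C) (hη : 0 ≤ η)
    (hkη : k * η ≤ 1)
    (P : Finset ℕ) (hP : P ⊆ Pw w z) (g : ℕ → ℝ) (m : Fin k → ℤ) (hm : ∀ l, m l ≠ 0)
    (hg : ∀ p ∈ P, g p ≤ k / p + k / (p : ℝ) ^ 2 + 1 / p ∧ ((¬ ∃ l, (p : ℤ) ∣ m l) → g p ≤ k / p + k / (p : ℝ) ^ 2))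
    (hE : ∀ l, EE C w (m l) ≤ 1 + η) :
    VV k w z * ((1 - 2 * k / w) * (1 - k * η)) ≤ ∏ p ∈ P, (1 - g p) := by
  classical
  have hw0 : (0 : ℝ) < w := by
    have : 0 < w := by omega
    exact_mod_cast this
  have hwk : 2 * (k : ℝ) + 4 ≤ w := by exact_mod_cast hk
  have hPw : ∀ p ∈ P, p.Prime ∧ w < p ∧ (p : ℝ) < z := fun p hp => mem_Pw.1 (hP hp)
  have hpr : ∀ p ∈ P, (w : ℝ) < p := fun p hp => by exact_mod_cast (hPw p hp).2.1
  have hk0 : (0 : ℝ) ≤ k := Nat.cast_nonneg k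
  have hw100 : (100 : ℝ) ≤ w := by exact_mod_cast hw
  -- the three factors
  set f1 : ℕ → ℝ := fun p => 1 - k / p with hf1
  set f2 : ℕ → ℝ := fun p => 1 - 2 * k / (p : ℝ) ^ 2 with hf2
  set f3 : ℕ → ℝ := fun p => if ∃ l, (p : ℤ) ∣ m l then 1 - 4 / (p : ℝ) else 1 with hf3
  have hb : ∀ p ∈ P, 0 ≤ (k : ℝ) / p ∧ (k : ℝ) / p ≤ 1 / 2 ∧ 0 ≤ (k : ℝ) / (p : ℝ) ^ 2 ∧
      (k : ℝ) / (p : ℝ) ^ 2 ≤ 1 / 4 ∧ 0 ≤ 1 / (p : ℝ) ∧ 1 / (p : ℝ) ≤ 1 / 4 := by
    intro p hp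
    have hp1 := hpr p hp
    have hp0 : (0 : ℝ) < p := hw0.trans hp1
    refine ⟨by positivity, ?_, by positivity, ?_, by positivity, ?_⟩
    · rw [div_le_div_iff₀ hp0 two_pos]
      linarith
    · rw [div_le_div_iff₀ (by positivity) (by norm_num)]
      nlinarith
    · rw [div_le_div_iff₀ hp0 (by norm_num)]
      linarith
  have hpt : ∀ p ∈ P, f1 p * (f2 p * f3 p) ≤ 1 - g p := by
    intro p hp
    obtain ⟨h1', h1, h2', h2, h3', h3⟩ := hb p hp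
    have h4 := hg p hp
    simp only [hf1, hf2, hf3]
    have e2 : 2 * (k : ℝ) / (p : ℝ) ^ 2 = 2 * (k / (p : ℝ) ^ 2) := by ring
    rw [e2]
    set s := (k : ℝ) / p with hs
    set t := (k : ℝ) / (p : ℝ) ^ 2 with ht
    by_cases hd : ∃ l, (p : ℤ) ∣ m l
    · rw [if_pos hd]
      have e3 : 4 / (p : ℝ) = 4 * (1 / p) := by ring
      rw [e3]
      have h4' := h4.1
      set r := 1 / (p : ℝ) with hr
      have h6 : (1 - 2 * t) * (1 - 4 * r) ≤ 1 - 2 * (t + r) := by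
        nlinarith [mul_nonneg h3' (sub_nonneg.2 h2)]
      have h7 : (1 - s) * ((1 - 2 * t) * (1 - 4 * r)) ≤ (1 - s) * (1 - 2 * (t + r)) :=
        mul_le_mul_of_nonneg_left h6 (by linarith)
      have h8 : (1 - s) * (1 - 2 * (t + r)) ≤ 1 - s - (t + r) := by
        nlinarith [mul_nonneg (add_nonneg h2' h3') (sub_nonneg.2 h1)]
      linarith
    · rw [if_neg hd]
      have h4' := h4.2 hd
      have h8 : (1 - s) * ((1 - 2 * t) * 1) ≤ 1 - s - t := by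
        nlinarith [mul_nonneg h2' (sub_nonneg.2 h1)]
      linarith
  have hf0 : ∀ p ∈ P, 0 ≤ f1 p ∧ 0 ≤ f2 p ∧ 0 ≤ f3 p := by
    intro p hp
    obtain ⟨h1', h1, h2', h2, h3', h3⟩ := hb p hp
    have e2 : 2 * (k : ℝ) / (p : ℝ) ^ 2 = 2 * (k / (p : ℝ) ^ 2) := by ring
    have e3 : 4 / (p : ℝ) = 4 * (1 / p) := by ring
    simp only [hf1, hf2, hf3]
    rw [e2, e3]
    refine ⟨by linarith, by linarith, ?_⟩
    split_ifs
    · linarith
    · exact zero_le_one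
  refine le_trans ?_ (prod_le_prod (fun p hp => mul_nonneg (hf0 p hp).1 (mul_nonneg (hf0 p hp).2.1 (hf0 p hp).2.2)) hpt)
  rw [prod_mul_distrib, prod_mul_distrib]
  have g1 : VV k w z ≤ ∏ p ∈ P, f1 p := by
    unfold VV
    rw [← prod_sdiff hP]
    have h1 : ∏ p ∈ Pw w z \ P, (1 - (k : ℝ) / p) ≤ 1 := by
      refine prod_le_one (fun p hp => ?_) (fun p hp => ?_)
      · have h2 := mem_Pw.1 (mem_sdiff.1 hp).1
        have h3 : (w : ℝ) < p := by exact_mod_cast h2.2.1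
        rw [sub_nonneg, div_le_one (by linarith)]
        linarith
      · have : 0 ≤ (k : ℝ) / p := by positivity
        linarith
    have h2 : 0 ≤ ∏ p ∈ P, f1 p := prod_nonneg fun p hp => (hf0 p hp).1
    calc (∏ p ∈ Pw w z \ P, (1 - (k : ℝ) / p)) * ∏ p ∈ P, f1 p ≤ 1 * ∏ p ∈ P, f1 p :=
          mul_le_mul_of_nonneg_right h1 h2
      _ = _ := one_mul _
  have g2 : 1 - 2 * k / w ≤ ∏ p ∈ P, f2 p := by
    have h1 := prod_one_sub_ge P (fun p => 2 * k / (p : ℝ) ^ 2) (fun p _ => by positivity) (fun p hp => by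
      obtain ⟨h1', h1, h2', h2, h3', h3⟩ := hb p hp
      have e2 : 2 * (k : ℝ) / (p : ℝ) ^ 2 = 2 * (k / (p : ℝ) ^ 2) := by ring
      rw [e2]
      linarith)
    have h2 := sum_inv_sq_le w (by omega) P (fun p hp => (hPw p hp).2.1)
    have h3 : ∑ p ∈ P, 2 * (k : ℝ) / (p : ℝ) ^ 2 = 2 * (k : ℝ) * ∑ p ∈ P, 1 / (p : ℝ) ^ 2 := by
      rw [mul_sum]
      exact sum_congr rfl fun p _ => by ring
    rw [h3] at h1
    have h4 : 2 * (k : ℝ) * ∑ p ∈ P, 1 / (p : ℝ) ^ 2 ≤ 2 * (k : ℝ) * (1 / (w : ℝ)) :=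
      mul_le_mul_of_nonneg_left h2 (by positivity)
    have h5 : 2 * (k : ℝ) * (1 / (w : ℝ)) = 2 * (k : ℝ) / (w : ℝ) := by ring
    linarith
  have g3 : 1 - k * η ≤ ∏ p ∈ P, f3 p :=
    prod_div_ge k w C η hw hC hη hkη P (fun p hp => ⟨(hPw p hp).1, (hPw p hp).2.1⟩) m hm hE
  have v0 : 0 ≤ VV k w z := by
    unfold VV
    refine prod_nonneg fun p hp => ?_
    have h2 := mem_Pw.1 hp
    have h3 : (w : ℝ) < p := by exact_mod_cast h2.2.1
    rw [sub_nonneg, div_le_one (by linarith)]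
    linarith
  have v1 : 0 ≤ 1 - 2 * k / (w : ℝ) := by
    rw [sub_nonneg, div_le_one hw0]
    linarith
  have v2 : 0 ≤ 1 - k * η := by linarith
  exact mul_le_mul g1 (mul_le_mul g2 g3 v2 (v1.trans g2)) (mul_nonneg v1 v2) (v0.trans g1)

end Pool.Agent.W33f
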