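import Pool.Agent.W_d33b62f_h37.SMb2
import Pool.Agent.W_d33b62f_h37.SMb3

/-!
# MP_d33b62_nt, LL: lower bound for the bad classes, upper bound for the sieve product (helper32, helper53)
-/

set_option autoImplicit false

noncomputable section

open Finset

namespace Pool.Agent.W33f

/-- At least `k (p - 1)` bad classes: each circle `x² + y² = c`, `c ≠ 0`, has `p - χ(-1) ≥ p - 1` points (see `crA_circ` in
`W_d33b62t5_h98/CrA.lean` for the exact counts) and the circles are disjoint. -/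
theorem card_badZ_ge (p : ℕ) [Fact p.Prime] [NeZero p] (hp : p ≠ 2) {k : ℕ} (m : Fin k → ZMod p)
    (hinj : Function.Injective m) (h0 : ∀ l, m l ≠ 0) : k * (p - 1) ≤ (badZ p m).card := by
  classical
  have h2 : (2 : ZMod p) ≠ 0 := Pool.Agent.Wd33b62cv.crA_two p hp
  have hsub : (univ : Finset (Fin k)).biUnion (fun l =>
      (univ : Finset (ZMod p × ZMod p)).filter (fun q => q.1 ^ 2 + q.2 ^ 2 = m l / 2)) ⊆ badZ p m := by
    intro v hv
    rw [mem_biUnion] at hv
    obtain ⟨l, _, hl⟩ := hv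
    rw [mem_filter] at hl
    unfold badZ
    rw [mem_filter]
    refine ⟨mem_univ _, l, ?_⟩
    rw [hl.2, mul_div_cancel₀ _ h2]
  refine le_trans ?_ (card_le_card hsub)
  rw [card_biUnion]
  · have h3 : ∀ l ∈ (univ : Finset (Fin k)), p - 1 ≤
        ((univ : Finset (ZMod p × ZMod p)).filter (fun q => q.1 ^ 2 + q.2 ^ 2 = m l / 2)).card := by
      intro l _
      have hne : m l / 2 ≠ 0 := div_ne_zero (h0 l) h2
      have h4 := Pool.Agent.Wd33b62c.cr_circ p hp (m l / 2) hne
      have hchi : ZMod.χ₄ p = 1 ∨ ZMod.χ₄ p = -1 := by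
        have hodd : p % 2 = 1 := by
          rcases (Fact.out : p.Prime).eq_two_or_odd with h | h
          · exact absurd h hp
          · exact h
        rcases (show p % 4 = 1 ∨ p % 4 = 3 by omega) with h | h
        · left; exact ZMod.χ₄_nat_one_mod_four h
        · right; exact ZMod.χ₄_nat_three_mod_four h
      have h5 : (p : ℤ) - 1 ≤ (((univ : Finset (ZMod p × ZMod p)).filter (fun q => q.1 ^ 2 + q.2 ^ 2 = m l / 2)).card : ℤ) := by
        rw [h4]
        rcases hchi with h | h <;> rw [h] <;> linarith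
      omega
    calc k * (p - 1) = ∑ _l : Fin k, (p - 1) := by
          rw [sum_const, card_univ, Fintype.card_fin, smul_eq_mul]
      _ ≤ _ := sum_le_sum h3
  · intro l _ l' _ hne
    rw [Function.onFun, disjoint_left]
    intro v h1 h3
    rw [mem_filter] at h1 h3
    apply hne
    apply hinj
    have h4 : m l / 2 = m l' / 2 := h1.2.symm.trans h3.2
    rw [div_left_inj' h2] at h4
    exact h4

/-- **The product comparison, upper bound.** For `p ∈ P`: `1 - g p ≤ (1 - k / p) (1 + 2 k / p ^ 2)` and `∏ (1 + 2 k / p ^ 2) ≤ e`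
(`sum_inv_sq_le`). For `p ∈ Pw \ P`: `(1 - k / p)⁻¹ ≤ 1 + 2 k / p`; the prime `p = a` gives at most `2`, the primes `p ∣ N` give
`∏_{p ∣ N} (1 + 2 k / p)`, the primes `p ∣ m l` give at most `EE C w (m l) ≤ 2`. -/
theorem prod_upper (k w : ℕ) (z C : ℝ) (hk : 2 * k + 4 ≤ w) (hw : 100 ≤ w) (hC : 2 * (k : ℝ) ≤ C)
    (P : Finset ℕ) (hP : P ⊆ Pw w z) (g : ℕ → ℝ)
    (hg : ∀ p ∈ P, (k : ℝ) / p - k / (p : ℝ) ^ 2 ≤ g p ∧ g p ≤ 1)
    (a N : ℕ) (hN : N ≠ 0) (m : Fin k → ℤ) (hm : ∀ l, m l ≠ 0) (hE : ∀ l, EE C w (m l) ≤ 1 + 1)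
    (hcov : ∀ p ∈ Pw w z, p ∉ P → p = a ∨ p ∣ N ∨ ∃ l, (p : ℤ) ∣ m l) :
    ∏ p ∈ P, (1 - g p) ≤
      Real.exp 1 * 2 * 2 ^ k * (∏ p ∈ N.primeFactors, (1 + 2 * k / (p : ℝ))) * VV k w z := by
  classical
  have hk0 : (0 : ℝ) ≤ k := Nat.cast_nonneg k
  have hw0 : (0 : ℝ) < w := by
    have : 0 < w := by omega
    exact_mod_cast this
  have hwk : 2 * (k : ℝ) + 4 ≤ w := by exact_mod_cast hk
  have hPwm : ∀ p ∈ Pw w z, p.Prime ∧ w < p ∧ (p : ℝ) < z := fun p hp => mem_Pw.1 hp
  have hpr : ∀ p ∈ Pw w z, (w : ℝ) < p := fun p hp => by exact_mod_cast (hPwm p hp).2.1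
  have hC0 : 0 ≤ C := by linarith
  -- the factors
  have hx : ∀ p ∈ Pw w z, 0 ≤ (k : ℝ) / p ∧ (k : ℝ) / p ≤ 1 / 2 := by
    intro p hp
    have h1 := hpr p hp
    have h2 : (0 : ℝ) < p := hw0.trans h1
    refine ⟨by positivity, ?_⟩
    rw [div_le_div_iff₀ h2 two_pos]
    linarith
  -- (1), (2)
  have h1 : ∏ p ∈ P, (1 - g p) ≤ (∏ p ∈ P, (1 - (k : ℝ) / p)) * Real.exp 1 := by
    have e1 : ∏ p ∈ P, (1 - g p) ≤ ∏ p ∈ P, ((1 - (k : ℝ) / p) * Real.exp (2 * k / (p : ℝ) ^ 2)) := by
      apply prod_le_prod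
      · intro p hp
        have := (hg p hp).2
        linarith
      · intro p hp
        obtain ⟨x0, x1⟩ := hx p (hP hp)
        have h3 := (hg p hp).1
        have h4 := Real.add_one_le_exp (2 * (k : ℝ) / (p : ℝ) ^ 2)
        have h5 : 0 ≤ (k : ℝ) / (p : ℝ) ^ 2 := by positivity
        have h6 : 2 * (k : ℝ) / (p : ℝ) ^ 2 = 2 * (k / (p : ℝ) ^ 2) := by ring
        rw [h6] at h4 ⊢
        calc 1 - g p ≤ 1 - k / p + k / (p : ℝ) ^ 2 := by linarith
          _ ≤ (1 - (k : ℝ) / p) * (2 * (k / (p : ℝ) ^ 2) + 1) := by nlinarith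
          _ ≤ (1 - (k : ℝ) / p) * Real.exp (2 * (k / (p : ℝ) ^ 2)) :=
            mul_le_mul_of_nonneg_left h4 (by linarith)
    refine e1.trans ?_
    rw [prod_mul_distrib, ← Real.exp_sum]
    apply mul_le_mul_of_nonneg_left
    · rw [Real.exp_le_exp]
      have h2 := sum_inv_sq_le w (by omega) P (fun p hp => (hPwm p (hP hp)).2.1)
      have h3 : ∑ p ∈ P, 2 * (k : ℝ) / (p : ℝ) ^ 2 = 2 * (k : ℝ) * ∑ p ∈ P, 1 / (p : ℝ) ^ 2 := by
        rw [mul_sum]
        exact sum_congr rfl fun p _ => by ring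
      rw [h3]
      calc 2 * (k : ℝ) * ∑ p ∈ P, 1 / (p : ℝ) ^ 2 ≤ 2 * (k : ℝ) * (1 / (w : ℝ)) :=
            mul_le_mul_of_nonneg_left h2 (by positivity)
        _ = 2 * k / w := by ring
        _ ≤ 1 := by
            rw [div_le_one hw0]
            linarith
    · exact prod_nonneg fun p hp => by linarith [(hx p (hP hp)).2]
  -- (3)
  set Q := Pw w z \ P with hQ
  have hQw : ∀ p ∈ Q, p ∈ Pw w z := fun p hp => (mem_sdiff.1 hp).1
  have h3 : ∏ p ∈ P, (1 - (k : ℝ) / p) ≤ VV k w z * ∏ p ∈ Q, (1 + 2 * (k : ℝ) / p) := by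
    unfold VV
    rw [← prod_sdiff hP, ← hQ]
    have e1 : 1 ≤ (∏ p ∈ Q, (1 - (k : ℝ) / p)) * ∏ p ∈ Q, (1 + 2 * (k : ℝ) / p) := by
      rw [← prod_mul_distrib]
      have : ∀ T : Finset ℕ, (∀ p ∈ T, p ∈ Pw w z) → (1 : ℝ) ≤ ∏ p ∈ T, ((1 - (k : ℝ) / p) * (1 + 2 * (k : ℝ) / p)) := by
        intro T hT
        induction T using Finset.induction_on with
        | empty => simp
        | insert p T hp ih =>
          rw [prod_insert hp]
          have ih' := ih fun q hq => hT q (mem_insert_of_mem hq)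
          obtain ⟨x0, x1⟩ := hx p (hT p (mem_insert_self p T))
          have e2 : 2 * (k : ℝ) / p = 2 * (k / p) := by ring
          have e3 : 1 ≤ (1 - (k : ℝ) / p) * (1 + 2 * (k : ℝ) / p) := by
            rw [e2]
            nlinarith
          nlinarith
      exact this Q hQw
    have e2 : 0 ≤ ∏ p ∈ P, (1 - (k : ℝ) / p) := prod_nonneg fun p hp => by linarith [(hx p (hP hp)).2]
    calc ∏ p ∈ P, (1 - (k : ℝ) / p) = 1 * ∏ p ∈ P, (1 - (k : ℝ) / p) := by ring
      _ ≤ ((∏ p ∈ Q, (1 - (k : ℝ) / p)) * ∏ p ∈ Q, (1 + 2 * (k : ℝ) / p)) * ∏ p ∈ P, (1 - (k : ℝ) / p) :=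
          mul_le_mul_of_nonneg_right e1 e2
      _ = _ := by ring
  -- (4)
  have hf1 : ∀ p : ℕ, (1 : ℝ) ≤ 1 + 2 * (k : ℝ) / p := by
    intro p
    have : 0 ≤ 2 * (k : ℝ) / p := by positivity
    linarith
  have h4 : ∏ p ∈ Q, (1 + 2 * (k : ℝ) / p) ≤ 2 * 2 ^ k * ∏ p ∈ N.primeFactors, (1 + 2 * k / (p : ℝ)) := by
    have e1 : ∏ p ∈ Q, (1 + 2 * (k : ℝ) / p) ≤ ∏ p ∈ Q, ((if p = a then 1 + 2 * (k : ℝ) / p else 1) *
        ((if p ∣ N then 1 + 2 * (k : ℝ) / p else 1) *
          ∏ l : Fin k, (if (p : ℤ) ∣ m l then 1 + 2 * (k : ℝ) / p else 1))) := by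
      apply prod_le_prod
      · intro p _
        have := hf1 p
        linarith
      · intro p hp
        have f0 := hf1 p
        have i1 : (1 : ℝ) ≤ if p = a then 1 + 2 * (k : ℝ) / p else 1 := by split_ifs <;> linarith
        have i2 : (1 : ℝ) ≤ if p ∣ N then 1 + 2 * (k : ℝ) / p else 1 := by split_ifs <;> linarith
        have i3 : ∀ T : Finset (Fin k), (1 : ℝ) ≤ ∏ l ∈ T, (if (p : ℤ) ∣ m l then 1 + 2 * (k : ℝ) / p else 1) := by
          intro T
          induction T using Finset.induction_on with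
          | empty => simp
          | insert l T hl ih =>
            rw [prod_insert hl]
            have : (1 : ℝ) ≤ (if (p : ℤ) ∣ m l then 1 + 2 * (k : ℝ) / p else 1) := by split_ifs <;> linarith
            nlinarith
        rcases hcov p (hQw p hp) (mem_sdiff.1 hp).2 with h | h | ⟨l, h⟩
        · rw [if_pos h]
          have := i3 univ
          have i4 : (1 : ℝ) ≤ (if p ∣ N then 1 + 2 * (k : ℝ) / p else 1) *
            ∏ l : Fin k, (if (p : ℤ) ∣ m l then 1 + 2 * (k : ℝ) / p else 1) := by nlinarith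
          nlinarith
        · rw [if_pos h]
          have := i3 univ
          have i4 : 1 + 2 * (k : ℝ) / p ≤ (1 + 2 * (k : ℝ) / p) *
            ∏ l : Fin k, (if (p : ℤ) ∣ m l then 1 + 2 * (k : ℝ) / p else 1) := by nlinarith
          nlinarith
        · have i5 : 1 + 2 * (k : ℝ) / p ≤ ∏ l : Fin k, (if (p : ℤ) ∣ m l then 1 + 2 * (k : ℝ) / p else 1) := by
            rw [← mul_prod_erase univ _ (mem_univ l), if_pos h]
            have := i3 (univ.erase l)
            nlinarith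
          have i4 : 1 + 2 * (k : ℝ) / p ≤ (if p ∣ N then 1 + 2 * (k : ℝ) / p else 1) *
            ∏ l : Fin k, (if (p : ℤ) ∣ m l then 1 + 2 * (k : ℝ) / p else 1) := by nlinarith
          nlinarith
    refine e1.trans ?_
    rw [prod_mul_distrib, prod_mul_distrib, prod_comm]
    have q1 : ∏ p ∈ Q, (if p = a then 1 + 2 * (k : ℝ) / p else 1) ≤ 2 := by
      rw [prod_ite_eq' Q a (fun p => 1 + 2 * (k : ℝ) / p)]
      split_ifs with h
      · obtain ⟨x0, x1⟩ := hx a (hQw a h)
        have e2 : 2 * (k : ℝ) / a = 2 * (k / a) := by ring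
        rw [e2]
        linarith
      · norm_num
    have q2 : ∏ p ∈ Q, (if p ∣ N then 1 + 2 * (k : ℝ) / p else 1) ≤ ∏ p ∈ N.primeFactors, (1 + 2 * k / (p : ℝ)) := by
      rw [← prod_filter]
      apply prod_le_prod_of_subset_of_one_le
      · intro p hp
        rw [mem_filter] at hp
        rw [Nat.mem_primeFactors]
        exact ⟨(hPwm p (hQw p hp.1)).1, hp.2, hN⟩
      · intro p _
        have := hf1 p
        linarith
      · intro p _ _
        exact hf1 p
    have q3 : ∏ l : Fin k, ∏ p ∈ Q, (if (p : ℤ) ∣ m l then 1 + 2 * (k : ℝ) / p else 1) ≤ 2 ^ k := by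
      have q4 : ∀ l ∈ (univ : Finset (Fin k)), ∏ p ∈ Q, (if (p : ℤ) ∣ m l then 1 + 2 * (k : ℝ) / p else 1) ≤ 2 := by
        intro l _
        rw [← prod_filter]
        have q5 := hE l
        have q6 : ∏ p ∈ Q.filter (fun p : ℕ => (p : ℤ) ∣ m l), (1 + 2 * (k : ℝ) / p) ≤ EE C w (m l) := by
          unfold EE
          calc ∏ p ∈ Q.filter (fun p : ℕ => (p : ℤ) ∣ m l), (1 + 2 * (k : ℝ) / p)
              ≤ ∏ p ∈ Q.filter (fun p : ℕ => (p : ℤ) ∣ m l), (1 + C / (p : ℝ)) := by
                apply prod_le_prod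
                · intro p _
                  have := hf1 p
                  linarith
                · intro p hp
                  rw [mem_filter] at hp
                  have h2 : (0 : ℝ) < p := hw0.trans (hpr p (hQw p hp.1))
                  have := div_le_div_of_nonneg_right hC h2.le
                  linarith
            _ ≤ _ := by
                apply prod_le_prod_of_subset_of_one_le
                · intro p hp
                  rw [mem_filter] at hp
                  rw [mem_filter, Nat.mem_primeFactors]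
                  have h5 := hPwm p (hQw p hp.1)
                  exact ⟨⟨h5.1, Int.natCast_dvd.1 hp.2, Int.natAbs_ne_zero.2 (hm l)⟩, h5.2.1⟩
                · intro p _
                  have : 0 ≤ C / (p : ℝ) := by positivity
                  linarith
                · intro p _ _
                  have : 0 ≤ C / (p : ℝ) := by positivity
                  linarith
        linarith
      calc _ ≤ ∏ _l : Fin k, (2 : ℝ) := by
            apply prod_le_prod _ q4
            intro l _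
            apply prod_nonneg
            intro p _
            have := hf1 p
            split_ifs <;> linarith
        _ = 2 ^ k := by rw [prod_const, card_univ, Fintype.card_fin]
    have q0 : ∀ (c : ℕ → Prop) [DecidablePred c], 0 ≤ ∏ p ∈ Q, (if c p then 1 + 2 * (k : ℝ) / p else 1) := by
      intro c _
      apply prod_nonneg
      intro p _
      have := hf1 p
      split_ifs <;> linarith
    have q0' : 0 ≤ ∏ l : Fin k, ∏ p ∈ Q, (if (p : ℤ) ∣ m l then 1 + 2 * (k : ℝ) / p else 1) :=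
      prod_nonneg fun l _ => q0 _
    calc _ ≤ 2 * ((∏ p ∈ N.primeFactors, (1 + 2 * k / (p : ℝ))) * 2 ^ k) := by
          apply mul_le_mul q1 _ (mul_nonneg (q0 _) q0') (by norm_num)
          apply mul_le_mul q2 q3 q0'
          exact prod_nonneg fun p _ => by have := hf1 p; linarith
      _ = _ := by ring
  have hVV0 : 0 ≤ VV k w z := by
    unfold VV
    exact prod_nonneg fun p hp => by linarith [(hx p hp).2]
  calc ∏ p ∈ P, (1 - g p) ≤ (∏ p ∈ P, (1 - (k : ℝ) / p)) * Real.exp 1 := h1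
    _ ≤ (VV k w z * ∏ p ∈ Q, (1 + 2 * (k : ℝ) / p)) * Real.exp 1 :=
        mul_le_mul_of_nonneg_right h3 (Real.exp_pos 1).le
    _ ≤ (VV k w z * (2 * 2 ^ k * ∏ p ∈ N.primeFactors, (1 + 2 * k / (p : ℝ)))) * Real.exp 1 :=
        mul_le_mul_of_nonneg_right (mul_le_mul_of_nonneg_left h4 hVV0) (Real.exp_pos 1).le
    _ = _ := by ring

end Pool.Agent.W33f
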