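import Pool.Agent.W_d33b62f_h37.SMa1
import Pool.Agent.W_d33b62f_h37.LC

/-!
# First moment (MP_d33b62, SMb): points of a region in given classes modulo several primes (helper47)
-/

set_option autoImplicit false

noncomputable section

open Finset

namespace Pool.Agent.W33f

open Classical in
/-- Points of a region `T` in given classes modulo the primes of `S`, from the count in one class. -/
theorem count_pts (T : Finset (ℤ × ℤ)) (X E : ℝ)
    (hT : ∀ (q : ℕ) (x0 y0 : ℤ), 1 ≤ q →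
      |((T.filter (fun v => v.1 ≡ x0 [ZMOD q] ∧ v.2 ≡ y0 [ZMOD q])).card : ℝ) - X / q ^ 2| ≤ E)
    (B : (p : ℕ) → Finset (ZMod p × ZMod p)) (S : Finset ℕ) (hS : ∀ p ∈ S, p.Prime) :
    ∀ (q : ℕ) (x0 y0 : ℤ), 1 ≤ q → (∀ p ∈ S, Nat.Coprime q p) →
      |((T.filter (fun v => (v.1 ≡ x0 [ZMOD q] ∧ v.2 ≡ y0 [ZMOD q]) ∧
          ∀ p ∈ S, ((v.1 : ZMod p), (v.2 : ZMod p)) ∈ B p)).card : ℝ) -
        X / q ^ 2 * ∏ p ∈ S, ((B p).card : ℝ) / p ^ 2| ≤ E * ∏ p ∈ S, ((B p).card : ℝ) := by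
  induction S using Finset.induction_on with
  | empty =>
    intro q x0 y0 hq _
    simp only [notMem_empty, false_implies, implies_true, and_true, prod_empty, mul_one]
    exact hT q x0 y0 hq
  | insert p S hp ih =>
    intro q x0 y0 hq hc
    have ih' := ih fun p' hp' => hS p' (mem_insert_of_mem hp')
    have hpp := hS p (mem_insert_self p S)
    have hpc := hc p (mem_insert_self p S)
    have : NeZero p := ⟨hpp.ne_zero⟩
    have key1 : ∀ (x0 : ℤ) (β : ZMod p), ∃ x1 : ℤ, ∀ x : ℤ, (x ≡ x0 [ZMOD q] ∧ (x : ZMod p) = β) ↔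
        x ≡ x1 [ZMOD (q * p : ℕ)] := by
      intro x0 β
      have hqp : IsCoprime (q : ℤ) (p : ℤ) := Nat.isCoprime_iff_coprime.2 hpc
      obtain ⟨u, v, huv⟩ := hqp
      refine ⟨x0 * (v * p) + (β.val : ℤ) * (u * q), fun x => ?_⟩
      have e0 : ∀ x : ℤ, (x : ZMod p) = β ↔ (p : ℤ) ∣ x - (β.val : ℤ) := by
        intro x
        rw [← ZMod.intCast_zmod_eq_zero_iff_dvd]
        push_cast
        rw [ZMod.natCast_zmod_val, sub_eq_zero]
      rw [e0]
      have e1 : x ≡ x0 [ZMOD q] ↔ (q : ℤ) ∣ x - x0 := by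
        rw [Int.modEq_comm, Int.modEq_iff_dvd]
      have e2 : x ≡ x0 * (v * p) + (β.val : ℤ) * (u * q) [ZMOD (q * p : ℕ)] ↔
          ((q : ℤ) * p) ∣ x - (x0 * (v * p) + (β.val : ℤ) * (u * q)) := by
        rw [Int.modEq_comm, Int.modEq_iff_dvd]
        push_cast
        rfl
      rw [e1, e2]
      constructor
      · rintro ⟨⟨s, hs⟩, t, ht⟩
        refine ⟨s * v + t * u, ?_⟩
        linear_combination (v * p) * hs + (u * q) * ht + (-x) * huv
      · rintro ⟨s, hs⟩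
        constructor
        · refine ⟨p * s + (β.val : ℤ) * u - x0 * u, ?_⟩
          linear_combination hs + x0 * huv
        · refine ⟨q * s + x0 * v - (β.val : ℤ) * v, ?_⟩
          linear_combination hs + (β.val : ℤ) * huv
    choose f hf using key1
    have h1 : T.filter (fun v => (v.1 ≡ x0 [ZMOD q] ∧ v.2 ≡ y0 [ZMOD q]) ∧
          ∀ p' ∈ insert p S, ((v.1 : ZMod p'), (v.2 : ZMod p')) ∈ B p') =
        (B p).biUnion fun β => T.filter
          (fun v => (v.1 ≡ f x0 β.1 [ZMOD (q * p : ℕ)] ∧ v.2 ≡ f y0 β.2 [ZMOD (q * p : ℕ)]) ∧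
            ∀ p' ∈ S, ((v.1 : ZMod p'), (v.2 : ZMod p')) ∈ B p') := by
      ext v
      simp only [mem_filter, mem_biUnion, mem_insert, forall_eq_or_imp]
      constructor
      · rintro ⟨h2, ⟨h3, h3'⟩, h4, h5⟩
        exact ⟨_, h4, h2, ⟨(hf x0 _ v.1).1 ⟨h3, rfl⟩, (hf y0 _ v.2).1 ⟨h3', rfl⟩⟩, h5⟩
      · rintro ⟨β, h2, h3, ⟨h4, h4'⟩, h5⟩
        have h6 := (hf x0 β.1 v.1).2 h4
        have h7 := (hf y0 β.2 v.2).2 h4'
        refine ⟨h3, ⟨h6.1, h7.1⟩, ?_, h5⟩
        rw [h6.2, h7.2]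
        exact h2
    rw [h1, card_biUnion, prod_insert hp, prod_insert hp]
    · push_cast
      have h2 : X / (q : ℝ) ^ 2 * (((B p).card : ℝ) / p ^ 2 * ∏ x ∈ S, ((B x).card : ℝ) / x ^ 2) =
          ∑ _β ∈ B p, X / ((q * p : ℕ) : ℝ) ^ 2 * ∏ x ∈ S, ((B x).card : ℝ) / x ^ 2 := by
        rw [sum_const, nsmul_eq_mul]
        push_cast
        have hq0 : (q : ℝ) ≠ 0 := by
          have : 0 < q := hq
          exact_mod_cast this.ne'
        have hp0 : (p : ℝ) ≠ 0 := by exact_mod_cast hpp.ne_zero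
        field_simp
      rw [h2, ← sum_sub_distrib]
      refine (abs_sum_le_sum_abs _ _).trans ?_
      have h3 : E * (((B p).card : ℝ) * ∏ x ∈ S, ((B x).card : ℝ)) =
          ∑ _β ∈ B p, E * ∏ x ∈ S, ((B x).card : ℝ) := by
        rw [sum_const, nsmul_eq_mul]
        ring
      rw [h3]
      refine sum_le_sum fun β _ => ?_
      refine ih' (q * p) (f x0 β.1) (f y0 β.2) (Nat.mul_pos hq hpp.pos) fun p' hp' => ?_
      refine Nat.Coprime.mul_left (hc p' (mem_insert_of_mem hp')) ?_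
      refine (Nat.coprime_primes hpp (hS p' (mem_insert_of_mem hp'))).2 ?_
      rintro rfl
      exact hp hp'
    · intro β hβ β' hβ' hne
      rw [Function.onFun, disjoint_left]
      intro v hv hv'
      rw [mem_filter] at hv hv'
      apply hne
      exact Prod.ext (((hf x0 β.1 v.1).2 hv.2.1.1).2.symm.trans ((hf x0 β'.1 v.1).2 hv'.2.1.1).2)
        (((hf y0 β.2 v.2).2 hv.2.1.2).2.symm.trans ((hf y0 β'.2 v.2).2 hv'.2.1.2).2)

end Pool.Agent.W33f
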