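import Pool.Agent.W_d33b62f_h37.Ll1
import Pool.Agent.W_d33b62f_h37.SMb1
import Pool.Agent.W_d33b62f_h37.LD

/-!
# MP_d33b62_nt, LL: arithmetic of the points `z = u z₁` (helper32)
-/

set_option autoImplicit false

noncomputable section

open Finset Filter Topology

namespace Pool.Agent.W33f

theorem ll_nm_gm (u v : ℤ × ℤ) : nm (gm u v) = nm u * nm v := by unfold nm gm; ring

/-- The class of `z₁` modulo `W`. -/
theorem ll_class (u rho : ℤ × ℤ) (W : ℕ) (h : IsCoprime (nm u) (W : ℤ)) :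
    ∃ x0 y0 : ℤ, ∀ v : ℤ × ℤ, (gm u v).1 ≡ rho.1 [ZMOD W] → (gm u v).2 ≡ rho.2 [ZMOD W] →
      v.1 ≡ x0 [ZMOD W] ∧ v.2 ≡ y0 [ZMOD W] := by
  obtain ⟨c, d, hcd⟩ := h
  refine ⟨c * (u.1 * rho.1 + u.2 * rho.2), c * (u.1 * rho.2 - u.2 * rho.1), fun v h1 h2 => ?_⟩
  rw [Int.modEq_comm, Int.modEq_iff_dvd] at h1 h2 ⊢
  rw [Int.modEq_comm, Int.modEq_iff_dvd]
  obtain ⟨s, hs⟩ := h1
  obtain ⟨t, ht⟩ := h2
  unfold gm at hs ht
  simp only at hs ht
  unfold nm at hcd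
  constructor
  · refine ⟨c * (u.1 * s + u.2 * t) + d * v.1, ?_⟩
    linear_combination (-v.1) * hcd + c * u.1 * hs + c * u.2 * ht
  · refine ⟨c * (u.1 * t - u.2 * s) + d * v.2, ?_⟩
    linear_combination (-v.2) * hcd + c * u.1 * ht - c * u.2 * hs

/-- A point in the class of `rho` and a divisor `u`. -/
theorem ll_cop (u v rho : ℤ × ℤ) (W : ℕ) (hr : IsCoprime (nm rho) (W : ℤ)) (h1 : (gm u v).1 ≡ rho.1 [ZMOD W])
    (h2 : (gm u v).2 ≡ rho.2 [ZMOD W]) : IsCoprime (nm u) (W : ℤ) := by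
  have h3 : nm (gm u v) ≡ nm rho [ZMOD W] := by
    unfold nm
    exact (h1.pow 2).add (h2.pow 2)
  rw [Int.modEq_comm, Int.modEq_iff_dvd] at h3
  obtain ⟨s, hs⟩ := h3
  have h4 : IsCoprime (nm (gm u v)) (W : ℤ) := by
    have e : nm (gm u v) = nm rho + W * s := by linear_combination hs
    rw [e]
    exact hr.add_mul_left_left s
  rw [ll_nm_gm] at h4
  exact h4.of_mul_left_left

open Classical in
/-- The classes: on the line for `p = a`, bad for the others. -/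
def BB (a : ℕ) (L1 L2 : ℤ) {k : ℕ} (m : Fin k → ℤ) (N : ℤ) (p : ℕ) : Finset (ZMod p × ZMod p) :=
  if hp : p.Prime then
    haveI : NeZero p := ⟨hp.ne_zero⟩
    if p = a then univ.filter fun v => (L1 : ZMod p) * v.1 + (L2 : ZMod p) * v.2 = 0
    else badZ p (fun l => (m l : ZMod p) * (N : ZMod p)⁻¹)
  else ∅

theorem card_BB_le (a : ℕ) (L1 L2 : ℤ) {k : ℕ} (m : Fin k → ℤ) (N : ℤ) (p : ℕ) : (BB a L1 L2 m N p).card ≤ p ^ 2 := by
  classical
  unfold BB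
  split_ifs with hp h
  · haveI : NeZero p := ⟨hp.ne_zero⟩
    refine (card_le_univ _).trans ?_
    rw [Fintype.card_prod, ZMod.card, pow_two]
  · haveI : NeZero p := ⟨hp.ne_zero⟩
    refine (card_le_univ _).trans ?_
    rw [Fintype.card_prod, ZMod.card, pow_two]
  · simp

theorem card_BB_line (a : ℕ) (ha : a.Prime) (L1 L2 : ℤ) {k : ℕ} (m : Fin k → ℤ) (N : ℤ)
    (h : ¬ (a : ℤ) ∣ L1 ^ 2 + L2 ^ 2) : (BB a L1 L2 m N a).card = a := by
  classical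
  haveI : Fact a.Prime := ⟨ha⟩
  unfold BB
  rw [dif_pos ha, if_pos rfl]
  have h1 : (L1 : ZMod a) ≠ 0 ∨ (L2 : ZMod a) ≠ 0 := by
    by_contra hcon
    push Not at hcon
    rw [ZMod.intCast_zmod_eq_zero_iff_dvd, ZMod.intCast_zmod_eq_zero_iff_dvd] at hcon
    exact h (dvd_add (dvd_pow hcon.1 two_ne_zero) (dvd_pow hcon.2 two_ne_zero))
  convert card_line a (L1 : ZMod a) (L2 : ZMod a) h1

theorem mem_BB_line (a : ℕ) (ha : a.Prime) (L1 L2 : ℤ) {k : ℕ} (m : Fin k → ℤ) (N : ℤ) (v : ℤ × ℤ) :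
    ((v.1 : ZMod a), (v.2 : ZMod a)) ∈ BB a L1 L2 m N a ↔ (a : ℤ) ∣ L1 * v.1 + L2 * v.2 := by
  classical
  haveI : NeZero a := ⟨ha.ne_zero⟩
  unfold BB
  rw [dif_pos ha, if_pos rfl, mem_filter, ← ZMod.intCast_zmod_eq_zero_iff_dvd]
  push_cast
  simp

theorem mem_BB_bad (a : ℕ) (L1 L2 : ℤ) {k : ℕ} (m : Fin k → ℤ) (N : ℤ) (p : ℕ) (hp : p.Prime) (hpa : p ≠ a)
    (hN : ¬ (p : ℤ) ∣ N) (v : ℤ × ℤ) :
    ((v.1 : ZMod p), (v.2 : ZMod p)) ∈ BB a L1 L2 m N p ↔ ∃ l, (p : ℤ) ∣ 2 * (N * nm v) - m l := by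
  classical
  haveI : NeZero p := ⟨hp.ne_zero⟩
  haveI : Fact p.Prime := ⟨hp⟩
  have hN' : (N : ZMod p) ≠ 0 := by
    rwa [Ne, ZMod.intCast_zmod_eq_zero_iff_dvd]
  unfold BB badZ
  rw [dif_pos hp, if_neg hpa, mem_filter]
  simp only [mem_univ, true_and]
  refine exists_congr fun l => ?_
  rw [← ZMod.intCast_zmod_eq_zero_iff_dvd, ← div_eq_mul_inv, eq_div_iff hN', ← sub_eq_zero]
  unfold nm
  push_cast
  constructor
  · intro h
    linear_combination h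
  · intro h
    linear_combination h

/-- The number of the bad classes. -/
theorem card_BB_bad (a : ℕ) (L1 L2 : ℤ) {k : ℕ} (m : Fin k → ℤ) (N : ℤ) (p : ℕ) (hp : p.Prime) (hpa : p ≠ a) (hp2 : p ≠ 2)
    (hN : ¬ (p : ℤ) ∣ N) (hm : ∀ l, ¬ (p : ℤ) ∣ m l) (hd : ∀ l l', (p : ℤ) ∣ m l - m l' → l = l') :
    k * (p - 1) ≤ (BB a L1 L2 m N p).card ∧ (BB a L1 L2 m N p).card ≤ k * (p + 1) := by
  classical
  haveI : NeZero p := ⟨hp.ne_zero⟩
  haveI : Fact p.Prime := ⟨hp⟩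
  have hN' : (N : ZMod p) ≠ 0 := by
    rwa [Ne, ZMod.intCast_zmod_eq_zero_iff_dvd]
  have hm' : ∀ l, (m l : ZMod p) * (N : ZMod p)⁻¹ ≠ 0 := by
    intro l
    refine mul_ne_zero ?_ (inv_ne_zero hN')
    rw [Ne, ZMod.intCast_zmod_eq_zero_iff_dvd]
    exact hm l
  unfold BB
  rw [dif_pos hp, if_neg hpa]
  constructor
  · refine card_badZ_ge p hp2 _ ?_ hm'
    intro l l' hll
    simp only at hll
    have h1 := mul_right_cancel₀ (inv_ne_zero hN') hll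
    apply hd
    rw [← ZMod.intCast_zmod_eq_zero_iff_dvd]
    push_cast
    rw [h1, sub_self]
  · have h1 := card_badZ p hp2 (fun l => (m l : ZMod p) * (N : ZMod p)⁻¹) (fun l l' h _ => absurd h (hm' l))
    rw [if_neg, add_zero] at h1
    · exact h1
    · rintro ⟨l, hl⟩
      exact hm' l hl

/-- The disc as a finset, with its counts in residue classes. -/
theorem ll_disc (R : ℝ) (hR : 0 ≤ R) : ∃ T : Finset (ℤ × ℤ), (∀ v, v ∈ T ↔ (nm v : ℝ) ≤ R) ∧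
    ∀ (q : ℕ) (x0 y0 : ℤ), 1 ≤ q →
      |((T.filter (fun v => v.1 ≡ x0 [ZMOD q] ∧ v.2 ≡ y0 [ZMOD q])).card : ℝ) - Real.pi * R / q ^ 2| ≤
        20 * (√R + 1) := by
  classical
  have hmem : ∀ v : ℤ × ℤ, v ∈ (DD_fin 1 0 0 R).toFinset ↔ (nm v : ℝ) ≤ R := by
    intro v
    rw [Set.Finite.mem_toFinset]
    unfold DD nm
    simp only [Set.mem_setOf_eq, Nat.cast_one, Int.modEq_one, true_and]
    push_cast
    rfl
  refine ⟨(DD_fin 1 0 0 R).toFinset, hmem, ?_⟩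
  intro q x0 y0 hq
  have h1 := DD_count hR q hq x0 y0
  have h2 : (DD q x0 y0 R).ncard =
      ((DD_fin 1 0 0 R).toFinset.filter (fun v => v.1 ≡ x0 [ZMOD q] ∧ v.2 ≡ y0 [ZMOD q])).card := by
    rw [← Set.ncard_coe_finset]
    congr 1
    ext v
    rw [mem_coe, mem_filter, hmem]
    unfold DD nm
    simp only [Set.mem_setOf_eq]
    push_cast
    tauto
  rw [h2] at h1
  refine h1.trans ?_
  have h3 : √R / q ≤ √R := div_le_self (Real.sqrt_nonneg _) (by exact_mod_cast hq)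
  linarith

end Pool.Agent.W33f
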