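import Pool.Agent.W_d33b62f_h37.Ll2
import Pool.Agent.W_d33b62f_h37.Sv

/-!
# MP_d33b62_nt, LL: the sieve (helper32)
-/

set_option autoImplicit false

noncomputable section

open Finset Filter Topology

namespace Pool.Agent.W33f

open Classical in
/-- The sieve in a disc, with a line condition modulo the primes of `A0` (at most one prime). -/
theorem ll_sieve (k : ℕ) : ∃ C : ℝ, 1 ≤ C ∧ ∀ (w W a : ℕ) (N : ℤ) (z R : ℝ) (L1 L2 x0 y0 : ℤ) (m : Fin k → ℤ)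
    (A0 : Finset ℕ) (T : Finset (ℤ × ℤ)), 2 ≤ z → 4 * k + 100 ≤ w → Wok w W → 0 < W → a.Prime → w < a → 0 < N →
    (∀ p ∈ Pw w z, ∀ l l', (p : ℤ) ∣ m l - m l' → l = l') → (∀ l, m l ≠ 0) → (∀ l, EE (CC k) w (m l) ≤ 1 + 1) →
    0 ≤ R → (A0 = ∅ ∨ (A0 = {a} ∧ ¬ (a : ℤ) ∣ L1 ^ 2 + L2 ^ 2)) →
    (∀ (q : ℕ) (x0 y0 : ℤ), 1 ≤ q →
      |((T.filter (fun v => v.1 ≡ x0 [ZMOD q] ∧ v.2 ≡ y0 [ZMOD q])).card : ℝ) - Real.pi * R / q ^ 2| ≤
        20 * (√R + 1)) →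
    (((T.filter fun v => ((v.1 ≡ x0 [ZMOD W] ∧ v.2 ≡ y0 [ZMOD W]) ∧
        ∀ p ∈ A0, ((v.1 : ZMod p), (v.2 : ZMod p)) ∈ BB a L1 L2 m N p) ∧
        ∀ p ∈ Pw w z, p ≠ a → ¬ (p : ℤ) ∣ N → (∀ l, ¬ (p : ℤ) ∣ m l) →
          ((v.1 : ZMod p), (v.2 : ZMod p)) ∉ BB a L1 L2 m N p).card : ℕ) : ℝ) ≤
      (Real.pi * R / W ^ 2) * (∏ p ∈ A0, (1 / (p : ℝ))) *
        (Real.exp 1 * 2 * 2 ^ k * (∏ p ∈ N.natAbs.primeFactors, (1 + 2 * k / (p : ℝ))) * VV k w z) * (1 + C) +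
        20 * (√R + 1) * a ^ 2 * z ^ 27 := by
  obtain ⟨C, hC1, hC⟩ := sieve (2 * (k : ℝ)) (by positivity)
  refine ⟨C, hC1, ?_⟩
  intro w W a N z R L1 L2 x0 y0 m A0 T hz hw hW hWpos ha haw hN hd hm hE hR hA0 hT
  set P : Finset ℕ := (Pw w z).filter (fun p => p ≠ a ∧ ¬ (p : ℤ) ∣ N ∧ ∀ l, ¬ (p : ℤ) ∣ m l) with hPdef
  set B : (p : ℕ) → Finset (ZMod p × ZMod p) := BB a L1 L2 m N with hB
  have hz0 : 0 < z := by linarith
  have hPp : ∀ p ∈ P, p.Prime ∧ w < p ∧ (p : ℝ) < z ∧ p ≠ a ∧ ¬ (p : ℤ) ∣ N ∧ (∀ l, ¬ (p : ℤ) ∣ m l) ∧ p ∈ Pw w z := by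
    intro p hp
    rw [hPdef, mem_filter] at hp
    have := mem_Pw.1 hp.1
    exact ⟨this.1, this.2.1, this.2.2, hp.2.1, hp.2.2.1, hp.2.2.2, hp.1⟩
  have hcard : ∀ p ∈ P, k * (p - 1) ≤ (B p).card ∧ (B p).card ≤ k * (p + 1) := by
    intro p hp
    obtain ⟨h1, h2, h3, h4, h5, h6, h7⟩ := hPp p hp
    exact card_BB_bad a L1 L2 m N p h1 h4 (by omega) h5 h6 (hd p h7)
  have hA0p : ∀ p ∈ A0, p = a := by
    intro p hp
    rcases hA0 with h | ⟨h, _⟩
    · rw [h] at hp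
      exact absurd hp (notMem_empty p)
    · rw [h] at hp
      exact mem_singleton.1 hp
  have hcopW : ∀ p : ℕ, p.Prime → w < p → Nat.Coprime W p := by
    intro p hp hwp
    rw [Nat.coprime_comm, hp.coprime_iff_not_dvd]
    intro h
    have := (hW.1 p hp).1 h
    omega
  have hXA : ∏ p ∈ A0, ((B p).card : ℝ) / (p : ℝ) ^ 2 = ∏ p ∈ A0, (1 / (p : ℝ)) := by
    refine prod_congr rfl fun p hp => ?_
    rcases hA0 with h | ⟨h, h'⟩
    · rw [h] at hp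
      exact absurd hp (notMem_empty p)
    · have hpa := hA0p p hp
      subst hpa
      rw [hB, card_BB_line p ha L1 L2 m N h']
      have hp0 : (p : ℝ) ≠ 0 := by exact_mod_cast ha.ne_zero
      field_simp
  have hcA : ∏ p ∈ A0, ((B p).card : ℝ) ≤ (a : ℝ) ^ 2 := by
    have ha1 : (1 : ℝ) ≤ (a : ℝ) ^ 2 := by
      have : (1 : ℝ) ≤ a := by exact_mod_cast ha.one_le
      nlinarith
    rcases hA0 with h | ⟨h, _⟩
    · rw [h, prod_empty]
      exact ha1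
    · rw [h, prod_singleton]
      have := card_BB_le a L1 L2 m N a
      exact_mod_cast this
  set A := T.filter (fun v => (v.1 ≡ x0 [ZMOD W] ∧ v.2 ≡ y0 [ZMOD W]) ∧
        ∀ p ∈ A0, ((v.1 : ZMod p), (v.2 : ZMod p)) ∈ B p) with hA
  set X := Real.pi * R / (W : ℝ) ^ 2 * ∏ p ∈ A0, (1 / (p : ℝ)) with hX
  have hX0 : 0 ≤ X := by
    rw [hX]
    have : 0 ≤ ∏ p ∈ A0, (1 / (p : ℝ)) := prod_nonneg fun p _ => by positivity
    have := Real.pi_pos
    positivity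
  set E := 20 * (√R + 1) * (a : ℝ) ^ 2 * (z ^ 9) ^ 2 with hEdef
  have hsR := Real.sqrt_nonneg R
  have hE0 : 0 ≤ E := by rw [hEdef]; positivity
  have hmain := hC z 1 P (fun p => ((B p).card : ℝ) / (p : ℝ) ^ 2) hz le_rfl (by
      intro p hp
      obtain ⟨h1, h2, h3, h4, h5, h6, h7⟩ := hPp p hp
      have hp0 : 0 < (p : ℝ) := by exact_mod_cast h1.pos
      have hc := (hcard p hp).2
      have hc' : ((B p).card : ℝ) ≤ k * (p + 1) := by exact_mod_cast hc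
      have hk0 : (0 : ℝ) ≤ k := Nat.cast_nonneg k
      have hp1 : (1 : ℝ) ≤ p := by exact_mod_cast h1.one_le
      have h8 : ((B p).card : ℝ) / (p : ℝ) ^ 2 ≤ 2 * k / p := by
        rw [div_le_div_iff₀ (by positivity) hp0]
        nlinarith [mul_nonneg hk0 (sub_nonneg.2 hp1), mul_nonneg (mul_nonneg hk0 (sub_nonneg.2 hp1)) hp0.le]
      refine ⟨h1, h3, by positivity, h8.trans ?_, h8⟩
      rw [div_le_iff₀ hp0]
      have : 4 * k ≤ p := by omega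
      have : 4 * (k : ℝ) ≤ p := by exact_mod_cast this
      linarith) (ℤ × ℤ) A (fun p v => ((v.1 : ZMod p), (v.2 : ZMod p)) ∈ B p) X E hX0 hE0 (by
      intro S hS hSz
      have hdis : Disjoint A0 S := by
        rw [disjoint_left]
        intro p hp hpS
        exact (hPp p (hS hpS)).2.2.2.1 (hA0p p hp)
      have h1 := count_pts T (Real.pi * R) (20 * (√R + 1)) hT B (A0 ∪ S) (by
        intro p hp
        rcases mem_union.1 hp with h | h
        · rw [hA0p p h]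
          exact ha
        · exact (hPp p (hS h)).1) W x0 y0 hWpos (by
        intro p hp
        rcases mem_union.1 hp with h | h
        · rw [hA0p p h]
          exact hcopW a ha haw
        · exact hcopW p (hPp p (hS h)).1 (hPp p (hS h)).2.1)
      rw [prod_union hdis, prod_union hdis, hXA] at h1
      have h2 : ∏ p ∈ S, ((B p).card : ℝ) ≤ (z ^ 9) ^ 2 := by
        have h3 : ∏ p ∈ S, ((B p).card : ℝ) ≤ ∏ p ∈ S, (p : ℝ) ^ 2 := by
          refine prod_le_prod (fun p _ => Nat.cast_nonneg _) fun p _ => ?_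
          have := card_BB_le a L1 L2 m N p
          exact_mod_cast this
        refine h3.trans ?_
        rw [prod_pow]
        refine pow_le_pow_left₀ (prod_nonneg fun p _ => Nat.cast_nonneg p) ?_ 2
        push_cast at hSz
        exact hSz
      have h3 : 20 * (√R + 1) * ((∏ p ∈ A0, ((B p).card : ℝ)) * ∏ p ∈ S, ((B p).card : ℝ)) ≤ E := by
        rw [hEdef, mul_assoc (20 * (√R + 1))]
        refine mul_le_mul_of_nonneg_left ?_ (by positivity)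
        exact mul_le_mul hcA h2 (prod_nonneg fun p _ => Nat.cast_nonneg _) (by positivity)
      have h4 : A.filter (fun v : ℤ × ℤ => ∀ p ∈ S, ((v.1 : ZMod p), (v.2 : ZMod p)) ∈ B p) =
          T.filter (fun v => (v.1 ≡ x0 [ZMOD W] ∧ v.2 ≡ y0 [ZMOD W]) ∧
            ∀ p ∈ A0 ∪ S, ((v.1 : ZMod p), (v.2 : ZMod p)) ∈ B p) := by
        rw [hA, filter_filter]
        ext v
        simp only [mem_filter, mem_union]
        constructor
        · rintro ⟨h5, ⟨h6, h7⟩, h8⟩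
          exact ⟨h5, h6, fun p hp => hp.elim (h7 p) (h8 p)⟩
        · rintro ⟨h5, h6, h7⟩
          exact ⟨h5, ⟨h6, fun p hp => h7 p (Or.inl hp)⟩, fun p hp => h7 p (Or.inr hp)⟩
      have h5 : X * ∏ p ∈ S, ((B p).card : ℝ) / (p : ℝ) ^ 2 =
          Real.pi * R / (W : ℝ) ^ 2 * ((∏ p ∈ A0, (1 / (p : ℝ))) * ∏ p ∈ S, ((B p).card : ℝ) / (p : ℝ) ^ 2) := by
        rw [hX]
        ring
      rw [h5]
      refine le_trans (le_of_eq ?_) (h1.trans h3)
      congr 3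
      convert congrArg Finset.card h4 using 2
      ext v
      simp only [mem_filter])
  have hsub : T.filter (fun v => ((v.1 ≡ x0 [ZMOD W] ∧ v.2 ≡ y0 [ZMOD W]) ∧
        ∀ p ∈ A0, ((v.1 : ZMod p), (v.2 : ZMod p)) ∈ B p) ∧
        ∀ p ∈ Pw w z, p ≠ a → ¬ (p : ℤ) ∣ N → (∀ l, ¬ (p : ℤ) ∣ m l) →
          ((v.1 : ZMod p), (v.2 : ZMod p)) ∉ B p) ⊆
      A.filter (fun v : ℤ × ℤ => ∀ p ∈ P, ¬ ((v.1 : ZMod p), (v.2 : ZMod p)) ∈ B p) := by
    intro v hv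
    simp only [mem_filter] at hv
    rw [mem_filter, hA, mem_filter]
    refine ⟨⟨hv.1, hv.2.1⟩, fun p hp => ?_⟩
    obtain ⟨h1, h2, h3, h4, h5, h6, h7⟩ := hPp p hp
    exact hv.2.2 p h7 h4 h5 h6
  have h1 := card_le_card hsub
  have h1' : ((T.filter (fun v => ((v.1 ≡ x0 [ZMOD W] ∧ v.2 ≡ y0 [ZMOD W]) ∧
        ∀ p ∈ A0, ((v.1 : ZMod p), (v.2 : ZMod p)) ∈ B p) ∧
        ∀ p ∈ Pw w z, p ≠ a → ¬ (p : ℤ) ∣ N → (∀ l, ¬ (p : ℤ) ∣ m l) →
          ((v.1 : ZMod p), (v.2 : ZMod p)) ∉ B p)).card : ℝ) ≤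
      ((A.filter (fun v : ℤ × ℤ => ∀ p ∈ P, ¬ ((v.1 : ZMod p), (v.2 : ZMod p)) ∈ B p)).card : ℝ) := by
    exact_mod_cast h1
  refine h1'.trans ?_
  have h2 := hmain.1
  have h3 : ((A.filter (fun v : ℤ × ℤ => ∀ p ∈ P, ¬ ((v.1 : ZMod p), (v.2 : ZMod p)) ∈ B p)).card : ℝ) ≤
      X * (∏ p ∈ P, (1 - ((B p).card : ℝ) / (p : ℝ) ^ 2)) * (1 + C * Real.exp (-((1 : ℕ) : ℝ))) +
        E * z ^ (4 * 1 + 5) := by
    refine le_trans (le_of_eq ?_) h2
    congr!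
  refine h3.trans ?_
  have hprod := prod_upper k w z (CC k) (by omega) (by omega) (by unfold CC; nlinarith [Nat.cast_nonneg (α := ℝ) k]) P
    (by rw [hPdef]; exact filter_subset _ _)
    (fun p => ((B p).card : ℝ) / (p : ℝ) ^ 2) (by
      intro p hp
      obtain ⟨h1, h2, h3, h4, h5, h6, h7⟩ := hPp p hp
      have hp0 : 0 < (p : ℝ) := by exact_mod_cast h1.pos
      have hc := (hcard p hp).1
      have hc1 : (k : ℝ) * (p - 1) ≤ (B p).card := by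
        have : ((k * (p - 1) : ℕ) : ℝ) ≤ (B p).card := by exact_mod_cast hc
        rw [Nat.cast_mul, Nat.cast_sub h1.one_le, Nat.cast_one] at this
        exact this
      constructor
      · rw [le_div_iff₀ (by positivity)]
        have e : ((k : ℝ) / p - k / (p : ℝ) ^ 2) * (p : ℝ) ^ 2 = k * (p - 1) := by
          field_simp
        rw [e]
        exact hc1
      · rw [div_le_one (by positivity)]
        have := card_BB_le a L1 L2 m N p
        exact_mod_cast this) a N.natAbs (by omega) m hm hE (by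
      intro p hp hpP
      by_contra hcon
      push Not at hcon
      apply hpP
      rw [hPdef, mem_filter]
      refine ⟨hp, hcon.1, ?_, hcon.2.2⟩
      intro h
      exact hcon.2.1 (Int.natCast_dvd.1 h))
  have hg0 : 0 ≤ ∏ p ∈ P, (1 - ((B p).card : ℝ) / (p : ℝ) ^ 2) := by
    refine prod_nonneg fun p hp => ?_
    have hp0 : 0 < (p : ℝ) := by exact_mod_cast (hPp p hp).1.pos
    rw [sub_nonneg, div_le_one (by positivity)]
    have := card_BB_le a L1 L2 m N p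
    exact_mod_cast this
  set Q := Real.exp 1 * 2 * 2 ^ k * (∏ p ∈ N.natAbs.primeFactors, (1 + 2 * k / (p : ℝ))) * VV k w z with hQ
  have hQ0 : 0 ≤ Q := hg0.trans hprod
  have h4 : X * (∏ p ∈ P, (1 - ((B p).card : ℝ) / (p : ℝ) ^ 2)) ≤ X * Q := mul_le_mul_of_nonneg_left hprod hX0
  have h5 : 1 + C * Real.exp (-((1 : ℕ) : ℝ)) ≤ 1 + C := by
    have : Real.exp (-((1 : ℕ) : ℝ)) ≤ 1 := by
      rw [Real.exp_le_one_iff]
      norm_num
    nlinarith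
  have h5' : 0 ≤ 1 + C * Real.exp (-((1 : ℕ) : ℝ)) := by positivity
  have h6 : X * (∏ p ∈ P, (1 - ((B p).card : ℝ) / (p : ℝ) ^ 2)) * (1 + C * Real.exp (-((1 : ℕ) : ℝ))) ≤
      X * Q * (1 + C) := mul_le_mul h4 h5 h5' (mul_nonneg hX0 hQ0)
  have h7 : E * z ^ (4 * 1 + 5) = 20 * (√R + 1) * (a : ℝ) ^ 2 * z ^ 27 := by
    rw [hEdef]
    ring
  rw [h7]
  linarith

end Pool.Agent.W33f
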