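import Pool.Agent.W_d33b62f_h37.Df

/-!
# MP_d33b62_nt, full question: T10a, the residue data (helper29)
-/

set_option autoImplicit false

open Finset

namespace Pool.Agent.W33f

theorem res_hensel {p : ℕ} (hp : p.Prime) (h2 : p ≠ 2) (y n x0 : ℤ) (hx : ¬ (p : ℤ) ∣ x0)
    (h : (p : ℤ) ∣ x0 ^ 2 + y ^ 2 - n) (f : ℕ) :
    ∃ x : ℤ, ¬ (p : ℤ) ∣ x ∧ (p : ℤ) ^ (f + 1) ∣ x ^ 2 + y ^ 2 - n := by
  induction f with
  | zero => exact ⟨x0, hx, by simpa using h⟩
  | succ f ih =>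
    obtain ⟨x, hx, q, hq⟩ := ih
    have hpi : Prime (p : ℤ) := Nat.prime_iff_prime_int.1 hp
    have h2x : ¬ (p : ℤ) ∣ 2 * x := by
      intro hd
      rcases hpi.dvd_or_dvd hd with h | h
      · have : p ∣ 2 := by exact_mod_cast h
        exact h2 ((Nat.prime_dvd_prime_iff_eq hp Nat.prime_two).1 this)
      · exact hx h
    have hcop : IsCoprime (2 * x) (p : ℤ) := ((hpi.coprime_iff_not_dvd).2 h2x).symm
    obtain ⟨u, v, huv⟩ := hcop
    refine ⟨x + (-q * u) * (p : ℤ) ^ (f + 1), ?_, ?_⟩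
    · intro hd
      apply hx
      have h1 : (p : ℤ) ∣ (-q * u) * (p : ℤ) ^ (f + 1) :=
        Dvd.dvd.mul_left (dvd_pow_self _ (Nat.succ_ne_zero f)) _
      exact (dvd_add_left h1).1 hd
    · refine ⟨q * v + (q * u) ^ 2 * (p : ℤ) ^ f, ?_⟩
      have e : (x + (-q * u) * (p : ℤ) ^ (f + 1)) ^ 2 + y ^ 2 - n =
          (x ^ 2 + y ^ 2 - n) - 2 * x * u * (q * (p : ℤ) ^ (f + 1)) + (q * u) ^ 2 * ((p : ℤ) ^ (f + 1)) ^ 2 := by ring
      rw [e, hq]
      have hv : v * (p : ℤ) = 1 - u * (2 * x) := by linarith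
      calc (p : ℤ) ^ (f + 1) * q - 2 * x * u * (q * (p : ℤ) ^ (f + 1)) + (q * u) ^ 2 * ((p : ℤ) ^ (f + 1)) ^ 2
          = (p : ℤ) ^ (f + 1) * (q * (1 - u * (2 * x))) + (q * u) ^ 2 * ((p : ℤ) ^ (f + 1)) ^ 2 := by ring
        _ = (p : ℤ) ^ (f + 1) * (q * (v * (p : ℤ))) + (q * u) ^ 2 * ((p : ℤ) ^ (f + 1)) ^ 2 := by rw [hv]
        _ = _ := by ring

theorem res_sq {p : ℕ} (hp : p.Prime) (h2 : p ≠ 2) (u : ℤ) (hu : ¬ (p : ℤ) ∣ u) (f : ℕ) :
    ∃ x y : ℤ, ¬ (p : ℤ) ∣ x ∧ ¬ (p : ℤ) ∣ x ^ 2 + y ^ 2 ∧ (p : ℤ) ^ (f + 1) ∣ 2 * (x ^ 2 + y ^ 2) - u := by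
  have := Fact.mk hp
  have hpi : Prime (p : ℤ) := Nat.prime_iff_prime_int.1 hp
  have hodd : Odd p := hp.odd_of_ne_two h2
  obtain ⟨r, hr⟩ := hodd.pow (n := f + 1)
  -- half of u
  set n : ℤ := u * (r + 1) with hn
  have h2n : 2 * n - u = u * (p : ℤ) ^ (f + 1) := by
    have : ((p : ℤ)) ^ (f + 1) = 2 * r + 1 := by exact_mod_cast hr
    rw [hn, this]; ring
  have hpn : ¬ (p : ℤ) ∣ n := by
    intro hd
    apply hu
    have h1 : (p : ℤ) ∣ 2 * n - (2 * n - u) := by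
      apply dvd_sub (Dvd.dvd.mul_left hd _)
      rw [h2n]
      exact Dvd.dvd.mul_left (dvd_pow_self _ (Nat.succ_ne_zero f)) _
    simpa using h1
  obtain ⟨a, b, hab⟩ := ZMod.sq_add_sq p (n : ZMod p)
  -- get integers
  have key : ∃ x0 y : ℤ, ¬ (p : ℤ) ∣ x0 ∧ (p : ℤ) ∣ x0 ^ 2 + y ^ 2 - n := by
    obtain ⟨A, rfl⟩ := ZMod.intCast_surjective a
    obtain ⟨B, rfl⟩ := ZMod.intCast_surjective b
    have hd : (p : ℤ) ∣ A ^ 2 + B ^ 2 - n := by
      rw [← ZMod.intCast_zmod_eq_zero_iff_dvd]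
      push_cast
      rw [hab]; ring
    by_cases hA : (p : ℤ) ∣ A
    · by_cases hB : (p : ℤ) ∣ B
      · exfalso; apply hpn
        have : (p : ℤ) ∣ (A ^ 2 + B ^ 2) - (A ^ 2 + B ^ 2 - n) :=
          dvd_sub (dvd_add (dvd_pow hA two_ne_zero) (dvd_pow hB two_ne_zero)) hd
        simpa using this
      · exact ⟨B, A, hB, by rw [add_comm (B ^ 2)]; exact hd⟩
    · exact ⟨A, B, hA, hd⟩
  obtain ⟨x0, y, hx0, hd⟩ := key
  obtain ⟨x, hx, hd'⟩ := res_hensel hp h2 y n x0 hx0 hd f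
  have hpd : (p : ℤ) ∣ x ^ 2 + y ^ 2 - n := dvd_trans (dvd_pow_self _ (Nat.succ_ne_zero f)) hd'
  refine ⟨x, y, hx, ?_, ?_⟩
  · intro h
    apply hpn
    have : (p : ℤ) ∣ (x ^ 2 + y ^ 2) - (x ^ 2 + y ^ 2 - n) := dvd_sub h hpd
    simpa using this
  · have : 2 * (x ^ 2 + y ^ 2) - u = 2 * (x ^ 2 + y ^ 2 - n) + (2 * n - u) := by ring
    rw [this, h2n]
    exact dvd_add (Dvd.dvd.mul_left hd' _) (Dvd.intro_left _ rfl)

/-- Chinese remainder for integers. -/
theorem res_crt (S : Finset ℕ) (N : ℕ → ℕ) (hN : ∀ p ∈ S, N p ≠ 0)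
    (pp : Set.Pairwise (S : Set ℕ) (Function.onFun Nat.Coprime N)) (z : ℕ → ℤ) :
    ∃ k : ℕ, ∀ p ∈ S, (N p : ℤ) ∣ (k : ℤ) - z p := by
  obtain ⟨k, hk⟩ := Nat.chineseRemainderOfFinset (fun p => (z p % (N p : ℤ)).toNat) N S hN pp
  refine ⟨k, fun p hp => ?_⟩
  have h := hk p hp
  have h1 : ((k : ℕ) : ℤ) ≡ (((z p % (N p : ℤ)).toNat : ℕ) : ℤ) [ZMOD (N p : ℤ)] :=
    (Int.natCast_modEq_iff).2 h
  have h0 : 0 ≤ z p % (N p : ℤ) := Int.emod_nonneg _ (by exact_mod_cast hN p hp)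
  rw [Int.toNat_of_nonneg h0] at h1
  have h2 : (k : ℤ) ≡ z p [ZMOD (N p : ℤ)] := h1.trans (Int.mod_modEq _ _)
  exact (Int.modEq_iff_dvd.1 h2.symm)

/-- Divisibility from prime powers. -/
theorem res_dvd (M : ℕ) (hM : M ≠ 0) (z : ℤ)
    (h : ∀ p ∈ M.primeFactors, ((p ^ (M.factorization p) : ℕ) : ℤ) ∣ z) : (M : ℤ) ∣ z := by
  have h1 : M ∣ z.natAbs := by
    rw [← Nat.prod_factorization_pow_eq_self hM, Finsupp.prod, Nat.support_factorization]
    apply Finset.prod_dvd_of_isRelPrime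
    · intro p hp q hq hpq
      exact Nat.coprime_iff_isRelPrime.1
        (Nat.coprime_pow_primes _ _ (Nat.prime_of_mem_primeFactors hp) (Nat.prime_of_mem_primeFactors hq) hpq)
    · intro p hp
      exact Int.natCast_dvd.1 (h p hp)
  exact Int.natCast_dvd.2 h1

/-- The local data at `p`. -/
def Loc (p f : ℕ) (a₀ E V n al x y m : ℤ) : Prop :=
  ¬ (p : ℤ) ∣ al ∧ ¬ (p : ℤ) ∣ x ∧ ¬ (p : ℤ) ∣ x ^ 2 + y ^ 2 ∧ ¬ (p : ℤ) ∣ m ∧
    (p : ℤ) ^ f ∣ 2 * (x ^ 2 + y ^ 2) - (n + al) ∧ (p : ℤ) ^ f ∣ al + a₀ - 2 * E * m ∧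
    ((p : ℤ) = a₀ → ∃ s : ℤ, (p : ℤ) ∣ al * V - s ^ 2) ∧ (p = 2 → (8 : ℤ) ∣ al + a₀ - 2)

theorem res_A {p : ℕ} (hp : p.Prime) (h2 : p ≠ 2) (f : ℕ) (a₀ E V n al : ℤ) (hE : ¬ (p : ℤ) ∣ E)
    (h1 : ¬ (p : ℤ) ∣ al) (h3 : ¬ (p : ℤ) ∣ al + a₀) (h4 : ¬ (p : ℤ) ∣ n + al)
    (h5 : (p : ℤ) = a₀ → ∃ s : ℤ, (p : ℤ) ∣ al * V - s ^ 2) :
    ∃ x y m : ℤ, Loc p (f + 1) a₀ E V n al x y m := by
  obtain ⟨x, y, hx, hxy, hd⟩ := res_sq hp h2 (n + al) h4 f
  have hpi : Prime (p : ℤ) := Nat.prime_iff_prime_int.1 hp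
  have h2E : ¬ (p : ℤ) ∣ 2 * E := by
    intro hd
    rcases hpi.dvd_or_dvd hd with h | h
    · have : p ∣ 2 := by exact_mod_cast h
      exact h2 ((Nat.prime_dvd_prime_iff_eq hp Nat.prime_two).1 this)
    · exact hE h
  have hcop : IsCoprime (2 * E) ((p : ℤ) ^ (f + 1)) := (((hpi.coprime_iff_not_dvd).2 h2E).symm).pow_right
  obtain ⟨u, v, huv⟩ := hcop
  refine ⟨x, y, u * (al + a₀), h1, hx, hxy, ?_, hd, ?_, h5, fun h => absurd h h2⟩
  · intro hdm
    rcases hpi.dvd_or_dvd hdm with h | h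
    · apply hpi.not_isUnit
      apply isUnit_of_dvd_one
      rw [← huv]
      exact dvd_add (Dvd.dvd.mul_right h _) (Dvd.dvd.mul_left (dvd_pow_self _ (Nat.succ_ne_zero f)) _)
    · exact h3 h
  · refine ⟨v * (al + a₀), ?_⟩
    have : al + a₀ - 2 * E * (u * (al + a₀)) = (1 - u * (2 * E)) * (al + a₀) := by ring
    rw [this, ← huv]; ring

/-- The local data at `p ∣ E`. -/
theorem res_E {p : ℕ} (hp : p.Prime) (h2 : p ≠ 2) (f : ℕ) (a₀ E V n : ℤ) (hE : (p : ℤ) ∣ E)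
    (ha : ¬ (p : ℤ) ∣ a₀) (h4 : ¬ (p : ℤ) ∣ n - a₀) :
    ∃ al x y m : ℤ, Loc p (f + 1) a₀ E V n al x y m := by
  have hpi : Prime (p : ℤ) := Nat.prime_iff_prime_int.1 hp
  have h1 : ¬ (p : ℤ) ∣ n + (-a₀ + 2 * E) := by
    intro h
    apply h4
    have : n - a₀ = (n + (-a₀ + 2 * E)) - 2 * E := by ring
    rw [this]
    exact dvd_sub h (Dvd.dvd.mul_left hE _)
  obtain ⟨x, y, hx, hxy, hd⟩ := res_sq hp h2 (n + (-a₀ + 2 * E)) h1 f
  refine ⟨-a₀ + 2 * E, x, y, 1, ?_, hx, hxy, ?_, hd, ?_, ?_, fun h => absurd h h2⟩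
  · intro h
    apply ha
    have : a₀ = 2 * E - (-a₀ + 2 * E) := by ring
    rw [this]
    exact dvd_sub (Dvd.dvd.mul_left hE _) h
  · intro h
    exact hpi.not_isUnit (isUnit_of_dvd_one h)
  · have : -a₀ + 2 * E + a₀ - 2 * E * 1 = 0 := by ring
    rw [this]; exact dvd_zero _
  · intro h
    exact absurd (h ▸ dvd_refl _) ha

/-- The local data at `2`. -/
theorem res_2 (a₀ E V n : ℤ) (t : ℤ) (ha : a₀ % 2 = 1) (hE : E % 2 = 1) (ha2 : a₀ ≠ 2)
    (hn : (32 : ℤ) ∣ n - (a₀ + 24 * t)) :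
    ∃ al x y m : ℤ, Loc 2 5 a₀ E V n al x y m := by
  have hxy : ∃ x y : ℤ, x % 2 = 1 ∧ y % 2 = 0 ∧ (16 : ℤ) ∣ x ^ 2 + y ^ 2 - (1 + 12 * t) := by
    have h4 : t % 4 = 0 ∨ t % 4 = 1 ∨ t % 4 = 2 ∨ t % 4 = 3 := by omega
    rcases h4 with h | h | h | h
    · exact ⟨1, 0, by norm_num, by norm_num, by norm_num; omega⟩
    · exact ⟨3, 2, by norm_num, by norm_num, by norm_num; omega⟩
    · exact ⟨3, 0, by norm_num, by norm_num, by norm_num; omega⟩
    · exact ⟨1, 2, by norm_num, by norm_num, by norm_num; omega⟩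
  obtain ⟨x, y, hx, hy, hd⟩ := hxy
  have hm : ∃ m : ℤ, m % 2 = 1 ∧ (16 : ℤ) ∣ 1 - E * m := by
    have hE2 : ¬ (2 : ℤ) ∣ E := by omega
    have hcop : IsCoprime E ((2 : ℤ) ^ 4) :=
      (((Int.prime_two.coprime_iff_not_dvd).2 hE2).symm).pow_right
    obtain ⟨u, v, huv⟩ := hcop
    refine ⟨u, ?_, ⟨v, by linarith⟩⟩
    by_contra hu
    have hu2 : (2 : ℤ) ∣ u := by omega
    obtain ⟨u', rfl⟩ := hu2
    have : (2 : ℤ) * (u' * E + v * 8) = 1 := by linarith
    omega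
  obtain ⟨m, hm, hm2⟩ := hm
  refine ⟨2 - a₀, x, y, m, ?_, ?_, ?_, ?_, ?_, ?_, ?_, ?_⟩
  · push_cast; omega
  · push_cast; omega
  · intro h
    obtain ⟨c, hc⟩ := hd
    push_cast at h
    omega
  · push_cast; omega
  · push_cast
    obtain ⟨c, hc⟩ := hd
    obtain ⟨d, hd⟩ := hn
    refine ⟨c - d, ?_⟩
    linarith
  · push_cast
    obtain ⟨c, hc⟩ := hm2
    refine ⟨c, ?_⟩
    linarith
  · intro h; exact absurd (by exact_mod_cast h.symm) ha2
  · intro _; simp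

/-- The local data at an odd `p ∤ E`. -/
theorem res_odd {p : ℕ} (hp : p.Prime) (h2 : p ≠ 2) (f : ℕ) (a₀ : ℕ) (ha : a₀.Prime) (ha5 : 5 ≤ a₀) (E V n : ℤ)
    (hV : ¬ (a₀ : ℤ) ∣ V) (hE : ¬ (p : ℤ) ∣ E) (h3 : p = 3 → (3 : ℤ) ∣ n - a₀) :
    ∃ al x y m : ℤ, Loc p (f + 1) a₀ E V n al x y m := by
  have hpi : Prime (p : ℤ) := Nat.prime_iff_prime_int.1 hp
  have hFp := Fact.mk hp
  have hp3 : 3 ≤ p := by
    have := hp.two_le
    omega
  by_cases hpa : p = a₀
  · -- p = a₀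
    subst hpa
    have : ∃ c : ℤ, (c = 1 ∨ c = 2) ∧ ¬ (p : ℤ) ∣ n + c ^ 2 * V := by
      by_cases h : (p : ℤ) ∣ n + V
      · refine ⟨2, Or.inr rfl, fun h' => ?_⟩
        have h5 : (p : ℤ) ∣ 3 * V := by
          have : 3 * V = (n + 2 ^ 2 * V) - (n + V) := by ring
          rw [this]; exact dvd_sub h' h
        rcases hpi.dvd_or_dvd h5 with h6 | h6
        · have : p ∣ 3 := by exact_mod_cast h6
          have := Nat.le_of_dvd (by norm_num) this
          omega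
        · exact hV h6
      · exact ⟨1, Or.inl rfl, by simpa using h⟩
    obtain ⟨c, hc, hcn⟩ := this
    have hpc : ¬ (p : ℤ) ∣ c := by
      intro h
      rcases hc with rfl | rfl
      · exact hpi.not_isUnit (isUnit_of_dvd_one h)
      · have : p ∣ 2 := by exact_mod_cast h
        have := Nat.le_of_dvd (by norm_num) this
        omega
    have hal : ¬ (p : ℤ) ∣ c ^ 2 * V := by
      intro h
      rcases hpi.dvd_or_dvd h with h | h
      · exact hpc (hpi.dvd_of_dvd_pow h)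
      · exact hV h
    obtain ⟨x, y, m, h⟩ := res_A hp h2 f p E V n (c ^ 2 * V) hE hal
      (by intro h; exact hal ((dvd_add_left (dvd_refl _)).1 h)) hcn
      (fun _ => ⟨c * V, ⟨0, by ring⟩⟩)
    exact ⟨_, x, y, m, h⟩
  · have hpa' : ¬ (p : ℤ) ∣ (a₀ : ℤ) := by
      intro h
      exact hpa ((Nat.prime_dvd_prime_iff_eq hp ha).1 (by exact_mod_cast h))
    have hex : ∃ al : ℤ, ¬ (p : ℤ) ∣ al ∧ ¬ (p : ℤ) ∣ al + a₀ ∧ ¬ (p : ℤ) ∣ n + al := by
      by_cases h33 : p = 3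
      · have h3' := h3 h33
        subst h33
        refine ⟨a₀, hpa', ?_, ?_⟩
        · push_cast at *; omega
        · push_cast at *; omega
      · have h5 : 5 ≤ p := by
          by_contra h
          have : p = 4 := by omega
          subst this
          exact absurd hp (by norm_num)
        have : ∃ a ∈ (univ : Finset (ZMod p)), a ∉ ({0, -(a₀ : ZMod p), -(n : ZMod p)} : Finset (ZMod p)) := by
          apply Finset.exists_mem_notMem_of_card_lt_card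
          rw [Finset.card_univ, ZMod.card]
          exact lt_of_le_of_lt Finset.card_le_three (by omega)
        obtain ⟨a, -, ha'⟩ := this
        obtain ⟨A, rfl⟩ := ZMod.intCast_surjective a
        simp only [mem_insert, mem_singleton, not_or] at ha'
        obtain ⟨hA1, hA2, hA3⟩ := ha'
        refine ⟨A, ?_, ?_, ?_⟩
        · intro h; exact hA1 ((ZMod.intCast_zmod_eq_zero_iff_dvd _ _).2 h)
        · intro h
          apply hA2
          have := (ZMod.intCast_zmod_eq_zero_iff_dvd _ _).2 h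
          push_cast at this
          exact eq_neg_of_add_eq_zero_left this
        · intro h
          apply hA3
          have := (ZMod.intCast_zmod_eq_zero_iff_dvd _ _).2 h
          push_cast at this
          exact eq_neg_of_add_eq_zero_right this
    obtain ⟨al, h1, h4, h5⟩ := hex
    obtain ⟨x, y, m, h⟩ := res_A hp h2 f a₀ E V n al hE h1 h4 h5
      (fun h => absurd (h ▸ dvd_refl _) hpa')
    exact ⟨_, x, y, m, h⟩

/-- The choice of `b` at `p`. -/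
theorem res_b {p : ℕ} (hp : p.Prime) (k : ℕ) (hk : k ≤ 10000) (t : Fin k → ℕ) (htp : ∀ l, (t l).Prime ∧ k < t l)
    (a₀ : ℕ) (ha : a₀.Prime) (ha5 : 5 ≤ a₀) (E : ℕ) (hE : p ∣ E → 10 ^ 6 < p) (f : ℕ) :
    ∃ b : ℤ, (∀ l, ¬ (p : ℤ) ∣ b + 24 * t l) ∧ (p ≤ 3 → (p : ℤ) ^ f ∣ b - a₀) ∧
      (p ∣ E → ∀ l, ¬ (p : ℤ) ∣ b + 24 * t l - a₀) := by
  have hpi : Prime (p : ℤ) := Nat.prime_iff_prime_int.1 hp
  have hFp := Fact.mk hp
  have hp2 := hp.two_le
  by_cases h3 : p ≤ 3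
  · have hp24 : (p : ℤ) ∣ 24 := by
      interval_cases p
      · exact ⟨12, by norm_num⟩
      · exact ⟨8, by norm_num⟩
    refine ⟨a₀, ?_, fun _ => by simp, fun h => absurd (hE h) (by omega)⟩
    intro l h
    have h' : (p : ℤ) ∣ (a₀ : ℤ) := (dvd_add_left (Dvd.dvd.mul_right hp24 _)).1 h
    have := (Nat.prime_dvd_prime_iff_eq hp ha).1 (by exact_mod_cast h')
    omega
  · by_cases hpk : p ≤ k
    · refine ⟨0, ?_, fun h => absurd h h3, fun h => absurd (hE h) (by omega)⟩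
      intro l h
      rw [zero_add] at h
      rcases hpi.dvd_or_dvd h with h | h
      · have h' : p ∣ 24 := by exact_mod_cast h
        have h24 : p ∣ 2 ^ 3 * 3 := by simpa using h'
        rcases (Nat.Prime.dvd_mul hp).1 h24 with h5 | h5
        · have := Nat.le_of_dvd (by norm_num) (hp.dvd_of_dvd_pow h5)
          omega
        · have := Nat.le_of_dvd (by norm_num) h5
          omega
      · have := (Nat.prime_dvd_prime_iff_eq hp (htp l).1).1 (by exact_mod_cast h)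
        have := (htp l).2
        omega
    · set S : Finset (ZMod p) := (univ : Finset (Fin k)).image (fun l => -((24 * t l : ℕ) : ZMod p)) with hS
      set T : Finset (ZMod p) := (univ : Finset (Fin k)).image (fun l => (a₀ : ZMod p) - ((24 * t l : ℕ) : ZMod p)) with hT
      have hSc : S.card ≤ k := by
        refine le_trans Finset.card_image_le ?_
        simp
      have hTc : T.card ≤ k := by
        refine le_trans Finset.card_image_le ?_
        simp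
      have hex : ∃ B : ZMod p, B ∉ S ∧ (p ∣ E → B ∉ T) := by
        by_cases hpE : p ∣ E
        · have := hE hpE
          have : ∃ a ∈ (univ : Finset (ZMod p)), a ∉ S ∪ T := by
            apply Finset.exists_mem_notMem_of_card_lt_card
            rw [Finset.card_univ, ZMod.card]
            exact lt_of_le_of_lt (Finset.card_union_le _ _) (by omega)
          obtain ⟨a, -, ha'⟩ := this
          rw [mem_union, not_or] at ha'
          exact ⟨a, ha'.1, fun _ => ha'.2⟩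
        · have : ∃ a ∈ (univ : Finset (ZMod p)), a ∉ S := by
            apply Finset.exists_mem_notMem_of_card_lt_card
            rw [Finset.card_univ, ZMod.card]
            omega
          obtain ⟨a, -, ha'⟩ := this
          exact ⟨a, ha', fun h => absurd h hpE⟩
      obtain ⟨B, hB1, hB2⟩ := hex
      obtain ⟨b, rfl⟩ := ZMod.intCast_surjective B
      refine ⟨b, ?_, fun h => absurd h h3, ?_⟩
      · intro l h
        apply hB1
        have := (ZMod.intCast_zmod_eq_zero_iff_dvd _ _).2 h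
        rw [hS, mem_image]
        refine ⟨l, mem_univ _, ?_⟩
        push_cast at this ⊢
        exact (eq_neg_of_add_eq_zero_left this).symm
      · intro hpE l h
        apply hB2 hpE
        have := (ZMod.intCast_zmod_eq_zero_iff_dvd _ _).2 h
        rw [hT, mem_image]
        refine ⟨l, mem_univ _, ?_⟩
        push_cast at this ⊢
        linear_combination -this

/-- Coprimality by primes. -/
theorem res_cop (z : ℤ) (W : ℕ) (h : ∀ p : ℕ, p.Prime → p ∣ W → ¬ (p : ℤ) ∣ z) : IsCoprime z (W : ℤ) := by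
  rw [Int.isCoprime_iff_gcd_eq_one]
  by_contra hc
  have hc' : ¬ Nat.Coprime z.natAbs W := hc
  obtain ⟨p, hp, h1, h2⟩ := Nat.Prime.not_coprime_iff_dvd.1 hc'
  exact h p hp h2 (Int.natCast_dvd.2 h1)

theorem res_copN (z W : ℕ) (h : ∀ p : ℕ, p.Prime → p ∣ W → ¬ (p : ℤ) ∣ (z : ℤ)) : Nat.Coprime z W := by
  have := res_cop z W h
  exact Nat.isCoprime_iff_coprime.1 this

/-- **T10a.** The residue data. -/
theorem RES (k : ℕ) (hk : k ≤ 10000) (t : Fin k → ℕ) (htp : ∀ l, (t l).Prime ∧ k < t l ∧ t l ≤ 41666) (a₀ : ℕ)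
    (ha : a₀.Prime) (ha5 : 5 ≤ a₀) (v₀ : ℤ × ℤ) (hv : ¬ (a₀ : ℤ) ∣ nm v₀) (E : ℕ) (hE : E ≠ 0)
    (hEc : Nat.Coprime E (2 * a₀)) (hE4 : ∀ p : ℕ, p.Prime → p ∣ E → p % 4 = 1 ∧ 10 ^ 6 < p) (w W : ℕ) (hW : Wok w W) (hw : 10 ^ 6 ≤ w) (hwa : a₀ ≤ w)
    (hEW : ∀ p : ℕ, p.Prime → p ∣ E → p * E ∣ W) :
    ∃ b : ℕ, (∀ l, Nat.Coprime (b + 24 * t l) (4 * W)) ∧ ∀ i, ∃ (rho : ℤ × ℤ) (al : ℕ),
      Nat.Coprime al W ∧ al + a₀ ≡ 2 [MOD 8] ∧ 2 * nm rho ≡ (b + 24 * t i + al : ℕ) [ZMOD (4 * W : ℕ)] ∧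
      IsCoprime (nm rho) (W : ℤ) ∧ IsCoprime rho.1 (W : ℤ) ∧
      (∃ m₀ : ℕ, Nat.Coprime m₀ W ∧ al + a₀ ≡ 2 * E * m₀ [MOD 4 * W]) ∧
      (∃ s : ℤ, al * nm v₀ ≡ s ^ 2 [ZMOD a₀]) := by
  obtain ⟨hWp, hW8, hW16⟩ := hW
  have hW0 : W ≠ 0 := by rintro rfl; exact hW16 (dvd_zero _)
  set N := 4 * W with hN
  have hN0 : N ≠ 0 := by omega
  have hpN : ∀ p : ℕ, p.Prime → p ∣ N → p ∣ W := by
    intro p hp h
    rw [hN] at h
    rcases (Nat.Prime.dvd_mul hp).1 h with h | h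
    · have h' : p ∣ 2 ^ 2 := by simpa using h
      have := (Nat.prime_dvd_prime_iff_eq hp Nat.prime_two).1 (hp.dvd_of_dvd_pow h')
      rw [this]
      exact dvd_trans ⟨4, by norm_num⟩ hW8
    · exact h
  set S := N.primeFactors with hS
  set F : ℕ → ℕ := fun p => p ^ (N.factorization p) with hF
  have hF0 : ∀ p ∈ S, F p ≠ 0 := by
    intro p hp
    exact pow_ne_zero _ (Nat.prime_of_mem_primeFactors hp).ne_zero
  have hFc : Set.Pairwise (S : Set ℕ) (Function.onFun Nat.Coprime F) := by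
    intro p hp q hq hpq
    exact Nat.coprime_pow_primes _ _ (Nat.prime_of_mem_primeFactors hp) (Nat.prime_of_mem_primeFactors hq) hpq
  have hpF : ∀ p ∈ S, ∃ f, N.factorization p = f + 1 := by
    intro p hp
    have : 0 < N.factorization p :=
      (Nat.prime_of_mem_primeFactors hp).factorization_pos_of_dvd hN0 (Nat.dvd_of_mem_primeFactors hp)
    exact ⟨N.factorization p - 1, by omega⟩
  have hpdF : ∀ p ∈ S, (p : ℤ) ∣ (F p : ℤ) := by
    intro p hp
    obtain ⟨f, hf⟩ := hpF p hp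
    have : p ∣ F p := by rw [hF]; simp only; rw [hf]; exact dvd_pow_self _ (Nat.succ_ne_zero f)
    exact_mod_cast this
  have hSW : ∀ p : ℕ, p.Prime → p ∣ W → p ∈ S := by
    intro p hp h
    rw [hS, Nat.mem_primeFactors]
    exact ⟨hp, Dvd.dvd.mul_left h _, hN0⟩
  have h2F : N.factorization 2 = 5 := by
    apply le_antisymm
    · by_contra h
      have h6 : 6 ≤ N.factorization 2 := by omega
      have := (Nat.prime_two.pow_dvd_iff_le_factorization hN0).2 h6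
      apply hW16
      rw [hN] at this
      obtain ⟨c, hc⟩ := this
      exact ⟨c, by omega⟩
    · apply (Nat.prime_two.pow_dvd_iff_le_factorization hN0).1
      obtain ⟨c, hc⟩ := hW8
      exact ⟨c, by rw [hN, hc]; ring⟩
  have h2S : 2 ∈ S := hSW 2 Nat.prime_two (dvd_trans ⟨4, by norm_num⟩ hW8)
  -- choice of b
  have hb0 : ∀ p : ℕ, ∃ b : ℤ, p.Prime → ((∀ l, ¬ (p : ℤ) ∣ b + 24 * t l) ∧
      (p ≤ 3 → (p : ℤ) ^ (N.factorization p) ∣ b - a₀) ∧ (p ∣ E → ∀ l, ¬ (p : ℤ) ∣ b + 24 * t l - a₀)) := by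
    intro p
    by_cases hp : p.Prime
    · obtain ⟨b, hb⟩ := res_b hp k hk t (fun l => ⟨(htp l).1, (htp l).2.1⟩) a₀ ha ha5 E
        (fun h => (hE4 p hp h).2) (N.factorization p)
      exact ⟨b, fun _ => hb⟩
    · exact ⟨0, fun h => absurd h hp⟩
  choose β hβ using hb0
  obtain ⟨b, hb⟩ := res_crt S F hF0 hFc β
  have hb1 : ∀ p ∈ S, ∀ l, ¬ (p : ℤ) ∣ (b : ℤ) + 24 * t l := by
    intro p hp l h
    apply (hβ p (Nat.prime_of_mem_primeFactors hp)).1 l
    have : β p + 24 * t l = ((b : ℤ) + 24 * t l) - ((b : ℤ) - β p) := by ring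
    rw [this]
    exact dvd_sub h (dvd_trans (hpdF p hp) (hb p hp))
  have hb3 : ∀ p ∈ S, p ∣ E → ∀ l, ¬ (p : ℤ) ∣ (b : ℤ) + 24 * t l - a₀ := by
    intro p hp hpE l h
    apply (hβ p (Nat.prime_of_mem_primeFactors hp)).2.2 hpE l
    have : β p + 24 * t l - a₀ = ((b : ℤ) + 24 * t l - a₀) - ((b : ℤ) - β p) := by ring
    rw [this]
    exact dvd_sub h (dvd_trans (hpdF p hp) (hb p hp))
  have hb2 : ∀ p ∈ S, p ≤ 3 → (F p : ℤ) ∣ (b : ℤ) - a₀ := by
    intro p hp h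
    have h1 := (hβ p (Nat.prime_of_mem_primeFactors hp)).2.1 h
    have : (b : ℤ) - a₀ = (b - β p) + (β p - a₀) := by ring
    rw [this]
    refine dvd_add (hb p hp) ?_
    rw [hF]; push_cast; exact h1
  refine ⟨b, ?_, ?_⟩
  · intro l
    apply res_copN
    intro p hp hpN' h
    refine hb1 p ?_ l (by push_cast at h; exact h)
    exact hSW p hp (hpN p hp hpN')
  intro i
  have hloc : ∀ p : ℕ, ∃ al x y m : ℤ, p ∈ S →
      Loc p (N.factorization p) a₀ E (nm v₀) ((b : ℤ) + 24 * t i) al x y m := by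
    intro p
    by_cases hpS : p ∈ S
    · have hp := Nat.prime_of_mem_primeFactors hpS
      obtain ⟨f, hf⟩ := hpF p hpS
      by_cases hp2 : p = 2
      · subst hp2
        rw [h2F]
        have ho : a₀ % 2 = 1 := by
          rcases ha.eq_two_or_odd with h | h
          · omega
          · exact h
        have hEo : E % 2 = 1 := by
          have h1 : Nat.Coprime E 2 := Nat.Coprime.coprime_mul_right_right hEc
          rcases Nat.mod_two_eq_zero_or_one E with h | h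
          · exfalso
            have : 2 ∣ E := Nat.dvd_of_mod_eq_zero h
            have := Nat.dvd_gcd this (dvd_refl 2)
            rw [h1] at this
            omega
          · exact h
        obtain ⟨al, x, y, m, h⟩ := res_2 (a₀ : ℤ) E (nm v₀) ((b : ℤ) + 24 * t i) (t i) (by omega) (by omega)
          (by omega) (by
            have := hb2 2 hpS (by norm_num)
            rw [hF] at this
            simp only [h2F] at this
            push_cast at this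
            have e : (b : ℤ) + 24 * t i - (a₀ + 24 * t i) = b - a₀ := by ring
            rw [e]
            simpa using this)
        exact ⟨al, x, y, m, fun _ => h⟩
      · by_cases hpE : p ∣ E
        · have hpa : ¬ (p : ℤ) ∣ (a₀ : ℤ) := by
            intro h
            have h' : p ∣ a₀ := by exact_mod_cast h
            have h1 : Nat.Coprime E a₀ := Nat.Coprime.coprime_mul_left_right hEc
            have := Nat.dvd_gcd hpE h'
            rw [h1] at this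
            exact hp.one_lt.ne' (Nat.dvd_one.1 this)
          obtain ⟨al, x, y, m, h⟩ := res_E hp hp2 f (a₀ : ℤ) E (nm v₀) ((b : ℤ) + 24 * t i)
            (by exact_mod_cast hpE) hpa (hb3 p hpS hpE i)
          exact ⟨al, x, y, m, fun _ => by rw [hf]; exact h⟩
        · obtain ⟨al, x, y, m, h⟩ := res_odd hp hp2 f a₀ ha ha5 E (nm v₀) ((b : ℤ) + 24 * t i) hv
            (by intro h; exact hpE (by exact_mod_cast h)) (by
              intro h3
              subst h3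
              have := hb2 3 hpS le_rfl
              have h3d := dvd_trans (hpdF 3 hpS) this
              push_cast at h3d
              omega)
          exact ⟨al, x, y, m, fun _ => by rw [hf]; exact h⟩
    · exact ⟨0, 0, 0, 0, fun h => absurd h hpS⟩
  choose A X Y M hloc using hloc
  obtain ⟨al, hal⟩ := res_crt S F hF0 hFc A
  obtain ⟨x, hx⟩ := res_crt S F hF0 hFc X
  obtain ⟨y, hy⟩ := res_crt S F hF0 hFc Y
  obtain ⟨m, hm⟩ := res_crt S F hF0 hFc M
  have hnm : ∀ p ∈ S, (F p : ℤ) ∣ nm ((x : ℤ), (y : ℤ)) - (X p ^ 2 + Y p ^ 2) := by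
    intro p hp
    have : nm ((x : ℤ), (y : ℤ)) - (X p ^ 2 + Y p ^ 2) = (x - X p) * (x + X p) + (y - Y p) * (y + Y p) := by
      simp only [nm]; ring
    rw [this]
    exact dvd_add (Dvd.dvd.mul_right (hx p hp) _) (Dvd.dvd.mul_right (hy p hp) _)
  refine ⟨((x : ℤ), (y : ℤ)), al, ?_, ?_, ?_, ?_, ?_, ⟨m, ?_, ?_⟩, ?_⟩
  · apply res_copN
    intro p hp hpW h
    have hpS := hSW p hp hpW
    apply (hloc p hpS).1
    have : A p = al - (al - A p) := by ring
    rw [this]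
    exact dvd_sub h (dvd_trans (hpdF p hpS) (hal p hpS))
  · have h8 := (hloc 2 h2S).2.2.2.2.2.2.2 rfl
    have h32 := hal 2 h2S
    rw [hF] at h32
    simp only [h2F] at h32
    push_cast at h32
    apply Nat.ModEq.symm
    rw [Nat.modEq_iff_dvd]
    push_cast
    omega
  · apply Int.ModEq.symm
    rw [Int.modEq_iff_dvd]
    apply res_dvd N hN0
    intro p hp
    have h1 := (hloc p hp).2.2.2.2.1
    have h1' : (F p : ℤ) ∣ 2 * (X p ^ 2 + Y p ^ 2) - ((b : ℤ) + 24 * t i + A p) := by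
      rw [hF]; push_cast; exact h1
    have : 2 * nm ((x : ℤ), (y : ℤ)) - ((b + 24 * t i + al : ℕ) : ℤ) =
        2 * (nm ((x : ℤ), (y : ℤ)) - (X p ^ 2 + Y p ^ 2)) + (2 * (X p ^ 2 + Y p ^ 2) - ((b : ℤ) + 24 * t i + A p))
          - (al - A p) := by
      push_cast; ring
    rw [this]
    exact dvd_sub (dvd_add (Dvd.dvd.mul_left (hnm p hp) _) h1') (hal p hp)
  · apply res_cop
    intro p hp hpW h
    have hpS := hSW p hp hpW
    apply (hloc p hpS).2.2.1
    have : X p ^ 2 + Y p ^ 2 = nm ((x : ℤ), (y : ℤ)) - (nm ((x : ℤ), (y : ℤ)) - (X p ^ 2 + Y p ^ 2)) := by ring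
    rw [this]
    exact dvd_sub h (dvd_trans (hpdF p hpS) (hnm p hpS))
  · apply res_cop
    intro p hp hpW h
    have hpS := hSW p hp hpW
    apply (hloc p hpS).2.1
    have : X p = x - (x - X p) := by ring
    rw [this]
    exact dvd_sub h (dvd_trans (hpdF p hpS) (hx p hpS))
  · apply res_copN
    intro p hp hpW h
    have hpS := hSW p hp hpW
    apply (hloc p hpS).2.2.2.1
    have : M p = m - (m - M p) := by ring
    rw [this]
    exact dvd_sub h (dvd_trans (hpdF p hpS) (hm p hpS))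
  · apply Nat.ModEq.symm
    rw [Nat.modEq_iff_dvd]
    apply res_dvd N hN0
    intro p hp
    have h1 := (hloc p hp).2.2.2.2.2.1
    have h1' : (F p : ℤ) ∣ A p + a₀ - 2 * E * M p := by
      rw [hF]; push_cast; exact h1
    have : ((al + a₀ : ℕ) : ℤ) - ((2 * E * m : ℕ) : ℤ) =
        (al - A p) + (A p + a₀ - 2 * E * M p) - 2 * E * (m - M p) := by
      push_cast; ring
    rw [this]
    exact dvd_sub (dvd_add (hal p hp) h1') (Dvd.dvd.mul_left (hm p hp) _)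
  · have haS : a₀ ∈ S := hSW a₀ ha ((hWp a₀ ha).2 hwa)
    obtain ⟨s, hs⟩ := (hloc a₀ haS).2.2.2.2.2.2.1 rfl
    refine ⟨s, ?_⟩
    apply Int.ModEq.symm
    rw [Int.modEq_iff_dvd]
    have : (al : ℤ) * nm v₀ - s ^ 2 = (al - A a₀) * nm v₀ + (A a₀ * nm v₀ - s ^ 2) := by ring
    rw [this]
    exact dvd_add (Dvd.dvd.mul_right (dvd_trans (hpdF a₀ haS) (hal a₀ haS)) _) hs

end Pool.Agent.W33f
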