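import Pool.Agent.W_d33b62f_h37.SMa1

/-!
# MP_d33b62_nt: the number of rough integers, SMa (helper47)
-/

set_option autoImplicit false

noncomputable section

open Finset Filter Topology

namespace Pool.Agent.W33f

open Pool.Agent.M58 Pool.Agent.Wd33b62k

open Classical in
/-- The bad classes mod `p`: `n + h l = 0`. -/
def badC {k : ℕ} (h : Fin k → ℕ) (p : ℕ) : Finset (ZMod p) := univ.image fun l => -(h l : ZMod p)

theorem mem_badC {k : ℕ} (h : Fin k → ℕ) (p n : ℕ) :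
    (n : ZMod p) ∈ badC h p ↔ ∃ l, (p : ℤ) ∣ (n : ℤ) + h l := by
  unfold badC
  rw [mem_image]
  constructor
  · rintro ⟨l, _, hl⟩
    refine ⟨l, ?_⟩
    rw [← ZMod.intCast_zmod_eq_zero_iff_dvd]
    push_cast
    rw [← hl]
    ring
  · rintro ⟨l, hl⟩
    refine ⟨l, mem_univ _, ?_⟩
    rw [← ZMod.intCast_zmod_eq_zero_iff_dvd] at hl
    push_cast at hl
    exact (eq_neg_of_add_eq_zero_left hl).symm

theorem card_badC {k : ℕ} (h : Fin k → ℕ) (hinj : Function.Injective h) (p : ℕ) (H : ∀ l, h l ≤ 10 ^ 6)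
    (hp : 10 ^ 6 < p) : (badC h p).card = k := by
  unfold badC
  rw [card_image_of_injective, card_univ, Fintype.card_fin]
  intro l l' hll
  simp only [neg_inj] at hll
  rw [ZMod.natCast_eq_natCast_iff] at hll
  have h1 := H l
  have h2 := H l'
  exact hinj (Nat.ModEq.eq_of_lt_of_lt hll (by omega) (by omega))

/-- **SMa.** The number of rough `n`. -/
theorem SMa (k : ℕ) : ∃ c₁₀ : ℝ, 0 < c₁₀ ∧ ∀ c₁ : ℝ, 0 < c₁ → c₁ ≤ c₁₀ → ∃ w₀ : ℕ, ∀ w ≥ w₀, ∀ W, Wok w W →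
    ∃ Y₀ : ℕ, ∀ Y ≥ Y₀, ∀ D : Dat k, D.w = w → D.W = W → D.ok →
      ((D.N1 Y ((Y : ℝ) ^ c₁)).card : ℝ) ≤ (1 + c₁ ^ (k + 1) / 8) * (Y / (4 * W : ℕ)) * VV k w ((Y : ℝ) ^ c₁) := by
  classical
  obtain ⟨C, hC1, hC⟩ := sieve (k : ℝ) (Nat.cast_nonneg k)
  obtain ⟨c₁₀, hc0, hc1, hc⟩ := choose_b (16 * C) (k + 1) (1 / 8) (by linarith) (by norm_num)
  refine ⟨c₁₀, hc0, ?_⟩
  intro c₁ h0 h1
  obtain ⟨b, hb1, hb2, hb3⟩ := hc c₁ h0 h1
  refine ⟨2 * k + 10 ^ 6, ?_⟩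
  intro w hw W hW
  have hc₁1 : c₁ ≤ 1 := h1.trans hc1
  obtain ⟨Y₁, hY₁⟩ := VV_lower k w (by omega) c₁ (1 / 4) h0 hc₁1 (by norm_num)
  set ε := c₁ ^ (k + 1) with hε
  have hε0 : 0 < ε := by positivity
  have hWpos : 0 < W := by
    rcases Nat.eq_zero_or_pos W with h | h
    · exact absurd (hW.2.2) (by rw [h]; simp)
    · exact h
  have hW0 : (0 : ℝ) < W := by exact_mod_cast hWpos
  have e1 : ∀ᶠ x : ℝ in atTop, 2 ≤ x ^ c₁ := (tendsto_rpow_atTop h0).eventually (eventually_ge_atTop 2)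
  have e2 : ∀ᶠ x : ℝ in atTop, 64 * W / ε ≤ x ^ (1 / 2 : ℝ) :=
    (tendsto_rpow_atTop (by norm_num)).eventually (eventually_ge_atTop _)
  obtain ⟨Y₂, hY₂⟩ := ((e1.and (e2.and (eventually_ge_atTop (2 : ℝ))))).exists_forall_of_atTop
  refine ⟨max Y₁ ⌈Y₂⌉₊, ?_⟩
  intro Y hY D hDw hDW hD
  obtain ⟨a1, a2, a3⟩ := hY₂ (Y : ℝ) (Nat.ceil_le.1 ((le_max_right _ _).trans hY))
  have a4 := hY₁ Y ((le_max_left _ _).trans hY)
  set z := (Y : ℝ) ^ c₁ with hz
  have hY0 : (0 : ℝ) < Y := by linarith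
  have hwk : 2 * k ≤ w := by omega
  have hw6 : 10 ^ 6 ≤ w := by omega
  have hP : ∀ p ∈ Pw w z, p.Prime ∧ (p : ℝ) < z ∧ 0 ≤ (k : ℝ) / p ∧ (k : ℝ) / p ≤ 3 / 4 ∧ (k : ℝ) / p ≤ k / p := by
    intro p hp
    rw [mem_Pw] at hp
    have hp0 : 0 < (p : ℝ) := by exact_mod_cast hp.1.pos
    refine ⟨hp.1, hp.2.2, by positivity, ?_, le_rfl⟩
    rw [div_le_iff₀ hp0]
    have : 2 * k ≤ p := by omega
    have : 2 * (k : ℝ) ≤ p := by exact_mod_cast this
    linarith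
  have hinj : Function.Injective D.h := hD.inj
  have hcard : ∀ p ∈ Pw w z, (badC D.h p).card = k := by
    intro p hp
    rw [mem_Pw] at hp
    exact card_badC D.h hinj p hD.hh (by omega)
  set Dd := z ^ (4 * b + 5) with hDd
  have hz0 : 0 < z := by linarith
  have hDd1 : 1 ≤ Dd := one_le_pow₀ (by linarith)
  have hmain := hC z b (Pw w z) (fun p => (k : ℝ) / p) a1 hb1 hP ℕ
    ((Ioc Y (2 * Y)).filter (fun n => n ≡ D.b [MOD 4 * W])) (fun (p n : ℕ) => ∃ l, (p : ℤ) ∣ (n : ℤ) + D.h l)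
    ((Y : ℝ) / (4 * W : ℕ)) Dd (by positivity) (by linarith) (by
      intro S hS hSD
      have h3 := count_classes Y (fun p => badC D.h p) S (fun p hp => (hP p (hS hp)).1) (4 * W) D.b
        (by omega) (by
          intro p hp
          have h4 := hS hp
          rw [mem_Pw] at h4
          have h5 : Nat.Coprime p (4 * W) := by
            rw [h4.1.coprime_iff_not_dvd]
            intro h6
            have h7 : p ∣ W := by
              rcases (h4.1.dvd_mul).1 h6 with h8 | h8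
              · have := Nat.le_of_dvd (by norm_num) h8
                omega
              · exact h8
            have := (hW.1 p h4.1).1 h7
            omega
          exact h5.symm)
      have h4 : ∏ p ∈ S, ((badC D.h p).card : ℝ) / p = ∏ p ∈ S, (k : ℝ) / p :=
        prod_congr rfl fun p hp => by rw [hcard p (hS hp)]
      have h5 : ∏ p ∈ S, ((badC D.h p).card : ℝ) ≤ Dd := by
        refine le_trans ?_ hSD
        push_cast
        refine prod_le_prod (fun p _ => Nat.cast_nonneg _) fun p hp => ?_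
        rw [hcard p (hS hp)]
        have h6 := hS hp
        rw [mem_Pw] at h6
        have : k ≤ p := by omega
        exact_mod_cast this
      rw [h4] at h3
      have h8 : (((Ioc Y (2 * Y)).filter (fun n => n ≡ D.b [MOD 4 * W])).filter
          (fun n : ℕ => ∀ p ∈ S, ∃ l, (p : ℤ) ∣ (n : ℤ) + D.h l)).card =
          ((Ioc Y (2 * Y)).filter (fun n => n ≡ D.b [MOD 4 * W] ∧
            ∀ p ∈ S, (n : ZMod p) ∈ badC D.h p)).card := by
        rw [filter_filter]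
        congr 1
        ext n
        simp only [mem_filter, mem_badC]
      rw [← h8] at h3
      refine le_trans (le_of_eq ?_) (h3.trans h5)
      congr!)
  have hN : (D.N1 Y z).card = (((Ioc Y (2 * Y)).filter (fun n => n ≡ D.b [MOD 4 * W])).filter
      (fun n : ℕ => ∀ p ∈ Pw w z, ¬ ∃ l, (p : ℤ) ∣ (n : ℤ) + D.h l)).card := by
    unfold Dat.N1
    rw [filter_filter, hDW, hDw]
    congr 1
    ext n
    rw [mem_filter, mem_filter]
    refine and_congr_right fun _ => and_congr_right fun _ => ?_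
    unfold Rou
    refine forall₂_congr fun p _ => ?_
    rw [not_exists]
  rw [hN]
  refine le_trans (le_of_eq ?_) (hmain.1.trans ?_)
  · congr!
  have hVV : ∏ p ∈ Pw w z, (1 - (k : ℝ) / p) = VV k w z := rfl
  rw [hVV]
  have hV0 : 0 < VV k w z := lt_of_lt_of_le (by positivity) a4
  -- the error
  have hDD : Dd * Dd ≤ (Y : ℝ) ^ (1 / 4 : ℝ) := by
    have h3 : Dd * Dd = (Y : ℝ) ^ (c₁ * (4 * b + 5) * 2) := by
      rw [hDd, hz, ← Real.rpow_natCast, ← Real.rpow_mul hY0.le, ← Real.rpow_add hY0]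
      congr 1
      push_cast
      ring
    rw [h3]
    exact Real.rpow_le_rpow_of_exponent_le (by linarith) (by linarith)
  have hX : (0 : ℝ) < (Y : ℝ) / (4 * W : ℕ) := by positivity
  have herr : Dd * Dd ≤ ε / 16 * ((Y : ℝ) / (4 * W : ℕ) * VV k w z) := by
    have h3 : (Y : ℝ) / (4 * W : ℕ) * (Y : ℝ) ^ (-(1 / 4) : ℝ) ≤ (Y : ℝ) / (4 * W : ℕ) * VV k w z :=
      mul_le_mul_of_nonneg_left a4 hX.le
    refine le_trans ?_ (mul_le_mul_of_nonneg_left h3 (by positivity))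
    refine hDD.trans ?_
    have h4 : (Y : ℝ) = (Y : ℝ) ^ (1 / 4 : ℝ) * (Y : ℝ) ^ (1 / 2 : ℝ) * (Y : ℝ) ^ (1 / 4 : ℝ) := by
      rw [← Real.rpow_add hY0, ← Real.rpow_add hY0]
      norm_num
    have h5 : (Y : ℝ) ^ (1 / 4 : ℝ) * (Y : ℝ) ^ (-(1 / 4) : ℝ) = 1 := by
      rw [← Real.rpow_add hY0]
      norm_num
    have h6 : ε / 16 * ((Y : ℝ) / (4 * W : ℕ) * (Y : ℝ) ^ (-(1 / 4) : ℝ)) =
        (Y : ℝ) ^ (1 / 4 : ℝ) * ((Y : ℝ) ^ (1 / 2 : ℝ) * ε / (64 * W)) *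
          ((Y : ℝ) ^ (1 / 4 : ℝ) * (Y : ℝ) ^ (-(1 / 4) : ℝ)) := by
      conv_lhs => rw [show ((Y : ℝ) / (4 * W : ℕ)) = ((Y : ℝ) ^ (1 / 4 : ℝ) * (Y : ℝ) ^ (1 / 2 : ℝ) * (Y : ℝ) ^ (1 / 4 : ℝ)) / (4 * W : ℕ) from by rw [← h4]]
      push_cast
      field_simp
      ring
    rw [h6, h5, mul_one]
    have h7 : 1 ≤ (Y : ℝ) ^ (1 / 2 : ℝ) * ε / (64 * W) := by
      rw [div_le_iff₀ hε0] at a2
      rw [le_div_iff₀ (by positivity)]
      linarith
    have h8 : 0 ≤ (Y : ℝ) ^ (1 / 4 : ℝ) := by positivity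
    nlinarith
  have hCe : C * Real.exp (-b) ≤ ε / 16 := by
    rw [le_div_iff₀ (by norm_num)]
    linarith
  have h9 : (Y : ℝ) / (4 * W : ℕ) * VV k w z * (C * Real.exp (-b)) ≤
      (Y : ℝ) / (4 * W : ℕ) * VV k w z * (ε / 16) :=
    mul_le_mul_of_nonneg_left hCe (by positivity)
  linarith

end Pool.Agent.W33f
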