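import Pool.Agent.W_d33b62f_h37.SMb8

/-!
# First moment (MP_d33b62, SMb): the theorem (helper47)
-/

set_option autoImplicit false

noncomputable section

open Finset Filter

namespace Pool.Agent.W33f

theorem Fam_mono {k : ℕ} {D : Dat k} {Y B B' : ℕ} {C η : ℝ} {xi : ℤ × ℤ} (hF : D.Fam Y B B' C η xi) (hη : η ≤ 1) :
    D.Fam Y B B' C 1 xi :=
  ⟨hF.gcd, hF.ap, hF.eq, hF.cl, hF.lo, hF.hi, hF.good0.trans (by linarith), fun l => (hF.good l).trans (by linarith)⟩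

/-- Primitive sifted points are counted in the first moment. -/
theorem prim_le {k : ℕ} {D : Dat k} (hD : D.ok) {Y B B' : ℕ} {z C η : ℝ} {xi : ℤ × ℤ}
    (hF : D.Fam Y B B' C η xi) :
    ((D.Sft Y z xi).filter (fun v => Int.gcd v.1 v.2 = 1)).card ≤ ∑ n ∈ D.N1 Y z, D.R xi n := by
  classical
  set S1 := (D.Sft Y z xi).filter (fun v => Int.gcd v.1 v.2 = 1) with hS1
  have hex : ∀ v ∈ D.Sft Y z xi, ∃ n ∈ D.N1 Y z, 2 * nm v = n + D.h D.i + D.a xi := fun v hv =>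
    (Sft_mem hD hF v hv).2.2.2.2
  choose! f hf using hex
  have h1 : S1.card = ∑ n ∈ D.N1 Y z, (S1.filter (fun v => f v = n)).card := by
    apply card_eq_sum_card_fiberwise
    intro v hv
    exact (hf v (mem_filter.1 hv).1).1
  rw [h1]
  refine sum_le_sum fun n _ => ?_
  unfold Dat.R
  rw [← Set.ncard_coe_finset]
  refine Set.ncard_le_ncard ?_ (ZS_fin D xi n)
  intro v hv
  rw [mem_coe, mem_filter, hS1, mem_filter] at hv
  obtain ⟨⟨hv1, hv2⟩, hv3⟩ := hv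
  obtain ⟨h2, h3, h4, h5, _⟩ := Sft_mem hD hF v hv1
  have h6 := (hf v hv1).2
  rw [hv3] at h6
  exact ⟨h2, h3, h4, hv2, h5, h6⟩

/-- **SMb.** The first moment, lower bound. -/
theorem SMb (k : ℕ) : ∃ (c₁₀ : ℝ) (B : ℕ), 0 < c₁₀ ∧ ∀ c₁ : ℝ, 0 < c₁ → c₁ ≤ c₁₀ → ∃ (η : ℝ) (w₀ : ℕ), 0 < η ∧
    ∀ w ≥ w₀, ∀ W, Wok w W → ∀ B' : ℕ, ∃ Y₀ : ℕ, ∀ Y ≥ Y₀, ∀ D : Dat k, D.w = w → D.W = W → D.ok →
      ∀ xi, D.Fam Y B B' (CC k) η xi →
        (1 - c₁ ^ (k + 1) / 8) * (mu W (D.a xi) * (Y / (4 * W : ℕ)) * VV k w ((Y : ℝ) ^ c₁)) ≤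
          ((∑ n ∈ D.N1 Y ((Y : ℝ) ^ c₁), D.R xi n : ℕ) : ℝ) := by
  classical
  obtain ⟨C, hC1, hlow⟩ := SMb_low k
  obtain ⟨C₄, cL, hC₄, hcL, hLL⟩ := LL k
  obtain ⟨cb, hcb, hcb1, hchoose⟩ := choose_b (40 * C) (k + 1) (1 / 40) (by positivity) (by norm_num)
  refine ⟨min cb cL, 1, lt_min hcb hcL, ?_⟩
  intro c₁ hc₁ hc₁'
  obtain ⟨b, hb1, hbC, hbθ⟩ := hchoose c₁ hc₁ (hc₁'.trans (min_le_left _ _))
  obtain ⟨wL, hwL⟩ := hLL c₁ hc₁ (hc₁'.trans (min_le_right _ _))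
  have hc1' : c₁ ≤ 1 := (hc₁'.trans (min_le_left _ _)).trans hcb1
  set ε : ℝ := c₁ ^ (k + 1) / 8 with hε
  have hε0 : 0 < ε := by positivity
  have hε1 : ε ≤ 1 := by
    rw [hε]
    have : c₁ ^ (k + 1) ≤ 1 := pow_le_one₀ hc₁.le hc1'
    linarith
  have hk0 : (0 : ℝ) ≤ k := Nat.cast_nonneg k
  set η : ℝ := ε / (5 * (k + 1)) with hη
  have hη0 : 0 < η := by positivity
  have hkη : k * η ≤ ε / 5 := by
    have h1 : k * η = ε / 5 * (k / (k + 1)) := by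
      rw [hη]
      field_simp
    have h2 : (k : ℝ) / (k + 1) ≤ 1 := by
      rw [div_le_one (by positivity)]
      linarith
    rw [h1]
    nlinarith only [hε0, h2]
  have hη1 : η ≤ 1 := by
    rw [hη, div_le_one (by positivity)]
    nlinarith only [hε1]
  refine ⟨η, max wL (max (4 * k + 4) (⌈20 * (k : ℝ) / ε⌉₊ + ⌈20 * C₄ / ε⌉₊)), hη0, ?_⟩
  intro w hw W hW B'
  have hw1 : wL ≤ w := (le_max_left _ _).trans hw
  have hw2 : 4 * k + 4 ≤ w := (le_max_left _ _).trans ((le_max_right _ _).trans hw)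
  have hw3 : ⌈20 * (k : ℝ) / ε⌉₊ + ⌈20 * C₄ / ε⌉₊ ≤ w := (le_max_right _ _).trans ((le_max_right _ _).trans hw)
  have hw3' : (⌈20 * (k : ℝ) / ε⌉₊ : ℝ) + ⌈20 * C₄ / ε⌉₊ ≤ w := by exact_mod_cast hw3
  have hwR : (0 : ℝ) < w := by
    have : 0 < w := by omega
    exact_mod_cast this
  have hwk : 4 * (k : ℝ) / w ≤ ε / 5 := by
    have h1 := Nat.le_ceil (20 * (k : ℝ) / ε)
    have h2 : 20 * (k : ℝ) / ε ≤ w := by
      have : (0 : ℝ) ≤ ⌈20 * C₄ / ε⌉₊ := Nat.cast_nonneg _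
      linarith only [hw3', h1]
    rw [div_le_iff₀ hε0] at h2
    rw [div_le_iff₀ hwR]
    nlinarith only [h2]
  have hwC : 4 * C₄ / w ≤ ε / 5 := by
    have h1 := Nat.le_ceil (20 * C₄ / ε)
    have h2 : 20 * C₄ / ε ≤ w := by
      have : (0 : ℝ) ≤ ⌈20 * (k : ℝ) / ε⌉₊ := Nat.cast_nonneg _
      linarith only [hw3', h1]
    rw [div_le_iff₀ hε0] at h2
    rw [div_le_iff₀ hwR]
    nlinarith only [h2]
  obtain ⟨YL, hYL⟩ := hwL w hw1 W hW B'
  obtain ⟨YV, hYV⟩ := VV_lower k w (by omega) c₁ (1 / 400) hc₁ hc1' (by norm_num)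
  by_cases hWp : 0 < W
  swap
  · -- `W = 0` is impossible
    exfalso
    apply hW.2.2
    have : W = 0 := by omega
    rw [this]
    exact dvd_zero _
  obtain ⟨YE, hYE⟩ := err_bound W B' hWp (ε / 5) (by positivity)
  have hz2 : ∀ᶠ Y : ℕ in atTop, (2 : ℝ) ≤ (Y : ℝ) ^ c₁ := by
    have h1 : Tendsto (fun x : ℝ => x ^ c₁) atTop atTop := tendsto_rpow_atTop hc₁
    exact (h1.comp tendsto_natCast_atTop_atTop).eventually (eventually_ge_atTop 2)
  obtain ⟨YZ, hYZ⟩ := eventually_atTop.1 hz2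
  refine ⟨max (max YL YV) (max YE YZ), ?_⟩
  intro Y hY D hDw hDW hD xi hF
  have hY1 : YL ≤ Y := (le_max_left _ _).trans ((le_max_left _ _).trans hY)
  have hY2 : YV ≤ Y := (le_max_right _ _).trans ((le_max_left _ _).trans hY)
  have hY3 : YE ≤ Y := (le_max_left _ _).trans ((le_max_right _ _).trans hY)
  have hY4 : YZ ≤ Y := (le_max_right _ _).trans ((le_max_right _ _).trans hY)
  have hV := hYV Y hY2
  obtain ⟨hE6, hElog, hER, hEerr⟩ := hYE Y hY3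
  have hz := hYZ Y hY4
  set z : ℝ := (Y : ℝ) ^ c₁ with hzdef
  have hap := hF.ap
  have haR : (0 : ℝ) < D.a xi := by exact_mod_cast hap.pos
  have hy0 : (0 : ℝ) < Y := by linarith only [hE6]
  have hWR : (0 : ℝ) < W := by exact_mod_cast hWp
  have hhi : ((D.h D.i : ℕ) : ℝ) ≤ 10 ^ 6 := by exact_mod_cast hD.hh D.i
  have hCb : C * Real.exp (-b) ≤ ε / 5 := by
    rw [hε]
    linarith only [hbC]
  have hCb0 : 0 ≤ C * Real.exp (-b) := by positivity
  have hlow' := hlow b hb1 (by linarith only [hbC, hε, hε1]) Y z η 1 B' hz hη0.le (by linarith only [hε1, hkη]) D hD (by omega) xi hF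
  rw [hDw, hDW] at hlow'
  set M : ℝ := mu W (D.a xi) * (Y / (4 * W : ℕ)) * VV k w z with hM
  have hM0 : 0 ≤ M := by
    rw [hM]
    have : 0 ≤ VV k w z := le_trans (by positivity) hV
    unfold mu
    positivity
  -- the error of the sieve and the large divisors
  have hzb : z ^ (4 * b + 5) ≤ (Y : ℝ) ^ (1 / 40 : ℝ) := by
    rw [hzdef, ← Real.rpow_natCast, ← Real.rpow_mul hy0.le]
    refine Real.rpow_le_rpow_of_exponent_le (by linarith only [hE6]) ?_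
    push_cast
    exact hbθ
  have herr := hEerr (D.a xi) haR hF.hi (z ^ (4 * b + 5)) (by positivity) hzb
  have hMlow : Real.pi / (8 * (W : ℝ) ^ 2 * D.a xi) * Y * (Y : ℝ) ^ (-(1 / 400 : ℝ)) ≤ M := by
    have h1 : M = Real.pi / (8 * (W : ℝ) ^ 2 * D.a xi) * Y * VV k w z := by
      rw [hM]
      congr 1
      unfold mu
      push_cast
      field_simp
      norm_num
    rw [h1]
    exact mul_le_mul_of_nonneg_left hV (by positivity)
  have hsq : √((2 * (Y : ℝ) + D.h D.i + D.a xi) / 2) ≤ √(2 * (Y : ℝ)) := by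
    apply Real.sqrt_le_sqrt
    have := hF.hi
    linarith only [hE6, hElog, hhi, this]
  set R := ⌊(Y : ℝ) ^ (1 / 200 : ℝ)⌋₊ with hRdef
  have hN : 2 * Y + D.h D.i + D.a xi ≤ 2 * (2 * Y) := by
    have h1 : ((2 * Y + D.h D.i + D.a xi : ℕ) : ℝ) ≤ ((2 * (2 * Y) : ℕ) : ℝ) := by
      push_cast
      have := hF.hi
      linarith only [hE6, hElog, hhi, this]
    exact_mod_cast h1
  have hnp := np_count (z := z) hD hF R (2 * Y) hER C₄ M hC₄.le hM0 hN (by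
    intro p hp hpw hpR
    have hpR' : (p : ℝ) ≤ (Y : ℝ) ^ (1 / 200 : ℝ) := by
      have h1 : (R : ℝ) ≤ (Y : ℝ) ^ (1 / 200 : ℝ) := Nat.floor_le (by positivity)
      have h2 : (p : ℝ) ≤ R := by exact_mod_cast hpR
      linarith only [h1, h2]
    have hp0 : (0 : ℝ) < p := by exact_mod_cast hp.pos
    have hnm : nm ((p : ℤ), 0) = ((p ^ 2 : ℕ) : ℤ) := by
      unfold nm
      push_cast
      ring
    have hu := hYL Y hY1 D hDw hDW hD xi (Fam_mono hF hη1) ((p : ℤ), 0) (by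
      rw [hnm]
      exact_mod_cast (show 0 < p ^ 2 from pow_pos hp.pos 2)) (by
      rw [hnm]
      push_cast
      calc (p : ℝ) ^ 2 ≤ ((Y : ℝ) ^ (1 / 200 : ℝ)) ^ 2 := pow_le_pow_left₀ hp0.le hpR' 2
        _ = (Y : ℝ) ^ (1 / 100 : ℝ) := by
          rw [← Real.rpow_natCast, ← Real.rpow_mul hy0.le]
          norm_num)
    rw [hnm, Int.natAbs_natCast, Nat.primeFactors_prime_pow two_ne_zero hp, prod_singleton] at hu
    have e1 : ((D.a xi : ℤ) ∣ ((p ^ 2 : ℕ) : ℤ)) ↔ p = D.a xi := by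
      rw [Int.natCast_dvd_natCast]
      constructor
      · intro h
        exact ((Nat.prime_dvd_prime_iff_eq hap hp).1 (hap.dvd_of_dvd_pow h)).symm
      · intro h
        rw [h]
        exact dvd_pow_self _ two_ne_zero
    simp only [e1] at hu
    have hu' : ((D.LS Y z xi ((p : ℤ), 0)).ncard : ℝ) ≤ C₄ * (1 / ((((p ^ 2 : ℕ) : ℤ)) : ℝ)) * (1 + 2 * k / (p : ℝ)) *
        (if p = D.a xi then (D.a xi : ℝ) else 1) * M := hu
    refine hu'.trans ?_
    have h1 : 1 + 2 * (k : ℝ) / (p : ℝ) ≤ 2 := by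
      have h2 : 2 * (k : ℝ) / (p : ℝ) ≤ 1 := by
        rw [div_le_one hp0]
        have h3 : ((4 * k + 4 : ℕ) : ℝ) ≤ w := by exact_mod_cast hw2
        have h4 : (w : ℝ) < p := by
          rw [← hDw]
          exact_mod_cast hpw
        push_cast at h3
        linarith only [h4, h3]
      linarith only [h2]
    have h2 : ((((p ^ 2 : ℕ) : ℤ)) : ℝ) = (p : ℝ) ^ 2 := by push_cast; rfl
    rw [h2]
    have h3 : 0 ≤ (if p = D.a xi then (D.a xi : ℝ) else 1) := by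
      split_ifs
      · exact haR.le
      · exact zero_le_one
    apply mul_le_mul_of_nonneg_right _ hM0
    apply mul_le_mul_of_nonneg_right _ h3
    exact mul_le_mul_of_nonneg_left h1 (by positivity))
  rw [hDw] at hnp
  have hpr := prim_le (z := z) hD hF
  have hsplit := card_filter_add_card_filter_not (s := D.Sft Y z xi) (fun v => Int.gcd v.1 v.2 = 1)
  have hsplitR : (((D.Sft Y z xi).filter (fun v => Int.gcd v.1 v.2 = 1)).card : ℝ) +
      (((D.Sft Y z xi).filter (fun v => Int.gcd v.1 v.2 ≠ 1)).card : ℝ) = ((D.Sft Y z xi).card : ℝ) := by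
    exact_mod_cast hsplit
  have hprR : (((D.Sft Y z xi).filter (fun v => Int.gcd v.1 v.2 = 1)).card : ℝ) ≤
      ((∑ n ∈ D.N1 Y z, D.R xi n : ℕ) : ℝ) := by exact_mod_cast hpr
  refine le_trans ?_ hprR
  -- the constants
  have hconst : 1 - 3 * ε / 5 ≤ (1 - C * Real.exp (-b)) * ((1 - 2 * (k : ℝ) / w) * ((1 - 2 * (k : ℝ) / w) * (1 - k * η))) := by
    set A1 := C * Real.exp (-b) with hA1
    set A2 := 2 * (k : ℝ) / w with hA2
    set A3 := k * η with hA3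
    have a2 : A2 ≤ ε / 10 := by
      have : 4 * (k : ℝ) / w = 2 * A2 := by rw [hA2]; ring
      linarith only [hwk, this]
    have a2' : 0 ≤ A2 := by positivity
    have a3' : 0 ≤ A3 := by positivity
    have b1 : 1 - (A2 + A3) ≤ (1 - A2) * (1 - A3) := by nlinarith only [a2', a3', mul_nonneg a2' a3']
    have b2 : 1 - (A2 + (A2 + A3)) ≤ (1 - A2) * ((1 - A2) * (1 - A3)) := by
      have : (1 - A2) * (1 - (A2 + A3)) ≤ (1 - A2) * ((1 - A2) * (1 - A3)) :=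
        mul_le_mul_of_nonneg_left b1 (by linarith only [hε1, a2])
      nlinarith only [this, a2', a3', mul_nonneg a2' (add_nonneg a2' a3')]
    have b3 : 1 - (A1 + (A2 + (A2 + A3))) ≤ (1 - A1) * ((1 - A2) * ((1 - A2) * (1 - A3))) := by
      have : (1 - A1) * (1 - (A2 + (A2 + A3))) ≤ (1 - A1) * ((1 - A2) * ((1 - A2) * (1 - A3))) :=
        mul_le_mul_of_nonneg_left b2 (by linarith only [hbC, hε, hε1])
      nlinarith only [this, hCb0, a2', a3', mul_nonneg hCb0 (add_nonneg a2' (add_nonneg a2' a3'))]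
    linarith only [hbC, hε, hkη, a2, b3]
  have hcM := mul_le_mul_of_nonneg_right hconst hM0
  have hwCM := mul_le_mul_of_nonneg_right hwC hM0
  have herr' : 16 * (√((2 * (Y : ℝ) + D.h D.i + D.a xi) / 2) + 1) * D.a xi * (z ^ (4 * b + 5)) ^ 2 * z ^ (4 * b + 5) ≤
      16 * (√(2 * (Y : ℝ)) + 1) * D.a xi * (z ^ (4 * b + 5)) ^ 2 * z ^ (4 * b + 5) := by
    have hzp : 0 ≤ z ^ (4 * b + 5) := by positivity
    gcongr
  have herr2 : ε / 5 * (Real.pi / (8 * (W : ℝ) ^ 2 * D.a xi) * Y * (Y : ℝ) ^ (-(1 / 400 : ℝ))) ≤ ε / 5 * M :=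
    mul_le_mul_of_nonneg_left hMlow (by positivity)
  have f1 : (1 - ε) * M = (1 - 3 * ε / 5) * M - ε / 5 * M - ε / 5 * M := by ring
  rw [f1]
  linarith only [hlow', herr, hnp, hsplitR, hcM, hwCM, herr', herr2]

end Pool.Agent.W33f
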