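import Pool.Agent.W_d33b62f_h37.Sm3

/-!
# MP_d33b62_nt, full question: T6, `SMd` from `LL` (helper53)
-/

set_option autoImplicit false

noncomputable section

open Finset Filter

namespace Pool.Agent.W33f

theorem VV_nonneg (k w : ℕ) (hkw : k ≤ w) (z : ℝ) : 0 ≤ VV k w z := by
  unfold VV
  apply prod_nonneg
  intro p hp
  unfold Pw at hp
  rw [mem_filter] at hp
  have h1 : (0 : ℝ) < p := by exact_mod_cast hp.2.1.pos
  have h2 : (k : ℝ) ≤ p := by exact_mod_cast hkw.trans hp.2.2.le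
  have h3 : (k : ℝ) / p ≤ 1 := (div_le_one h1).2 h2
  linarith

/-- Size conditions on `Y`. -/
theorem exists_Y53 (w B' : ℕ) (c₁ K : ℝ) (hc : 0 < c₁) : ∃ Y₂ : ℕ, ∀ Y : ℕ, Y₂ ≤ Y →
    1 ≤ Real.log Y ∧ (w : ℝ) < Real.log Y ∧ (Real.log Y) ^ B' ≤ (Y : ℝ) ^ (1 / 100 : ℝ) ∧
      10 ^ 6 + (Real.log Y) ^ B' ≤ 2 * Y ∧ (w : ℝ) + 1 ≤ (Y : ℝ) ^ c₁ ∧ K ≤ Real.log Y ∧ 1 ≤ Y := by
  have hcast : Tendsto (fun Y : ℕ => (Y : ℝ)) atTop atTop := tendsto_natCast_atTop_atTop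
  have hlog : Tendsto (fun Y : ℕ => Real.log (Y : ℝ)) atTop atTop := Real.tendsto_log_atTop.comp hcast
  have e1 : ∀ᶠ Y : ℕ in atTop, 1 ≤ Real.log (Y : ℝ) := hlog.eventually_ge_atTop 1
  have e2 : ∀ᶠ Y : ℕ in atTop, (w : ℝ) < Real.log (Y : ℝ) := hlog.eventually_gt_atTop w
  have e3 : ∀ᶠ Y : ℕ in atTop, K ≤ Real.log (Y : ℝ) := hlog.eventually_ge_atTop K
  have e4 : ∀ᶠ Y : ℕ in atTop, (w : ℝ) + 1 ≤ (Y : ℝ) ^ c₁ :=
    ((tendsto_rpow_atTop hc).comp hcast).eventually_ge_atTop _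
  have e5 : ∀ᶠ Y : ℕ in atTop, (Real.log (Y : ℝ)) ^ B' ≤ (Y : ℝ) ^ (1 / 100 : ℝ) := by
    have h1 := isLittleO_log_rpow_rpow_atTop (B' : ℝ) (show (0 : ℝ) < 1 / 100 by norm_num)
    have h2 := (h1.bound (show (0 : ℝ) < 1 by norm_num))
    have h3 := hcast.eventually h2
    filter_upwards [h3, e1] with Y hY hl
    rw [one_mul, Real.norm_of_nonneg (by positivity), Real.norm_of_nonneg (by positivity), Real.rpow_natCast] at hY
    exact hY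
  have e6 : ∀ᶠ Y : ℕ in atTop, (10 : ℝ) ^ 6 ≤ (Y : ℝ) := hcast.eventually_ge_atTop _
  have e7 : ∀ᶠ Y : ℕ in atTop, 1 ≤ Y := eventually_ge_atTop 1
  obtain ⟨Y₂, h⟩ := (e1.and (e2.and (e3.and (e4.and (e5.and (e6.and e7)))))).exists_forall_of_atTop
  refine ⟨Y₂, fun Y hY => ?_⟩
  obtain ⟨a1, a2, a3, a4, a5, a6, a7⟩ := h Y hY
  refine ⟨a1, a2, a5, ?_, a4, a3, a7⟩
  have h1 : (1 : ℝ) ≤ Y := by exact_mod_cast a7
  have h2 : (Y : ℝ) ^ (1 / 100 : ℝ) ≤ Y := by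
    calc (Y : ℝ) ^ (1 / 100 : ℝ) ≤ (Y : ℝ) ^ (1 : ℝ) := Real.rpow_le_rpow_of_exponent_le h1 (by norm_num)
      _ = Y := Real.rpow_one _
  linarith

/-- **`SMd` from `LL`.** -/
theorem SMd_of (k : ℕ) (hLL : LLst k) : ∃ (c₁₀ C₃ : ℝ) (B : ℕ), 0 < c₁₀ ∧ 0 < C₃ ∧ ∀ c₁ : ℝ, 0 < c₁ → c₁ ≤ c₁₀ → ∃ w₀ : ℕ,
    ∀ w ≥ w₀, ∀ W, Wok w W → ∀ B' : ℕ, ∃ Y₀ : ℕ, ∀ Y ≥ Y₀, ∀ D : Dat k, D.w = w → D.W = W → D.ok →
      ∀ xi, D.Fam Y B B' (CC k) 1 xi → ∀ J : Finset (ℤ × ℤ), (∀ xi' ∈ J, D.Fam Y B B' (CC k) 1 xi' ∧ D.a xi' = D.a xi) →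
        ((∑ xi' ∈ J, ∑ n ∈ D.N1 Y ((Y : ℝ) ^ c₁), D.R xi n * D.R xi' n : ℕ) : ℝ) ≤
          C₃ * (mu W (D.a xi) * (Y / (4 * W : ℕ)) * VV k w ((Y : ℝ) ^ c₁)) := by
  obtain ⟨C₄, c₁₀, hC4, hc10, hLL⟩ := hLL
  obtain ⟨cV, hcV, hVV⟩ := VV_low53 k
  refine ⟨c₁₀, 256 * C₄ + 1, 2 * k + 6, hc10, by positivity, ?_⟩
  intro c₁ hcc hc1'
  obtain ⟨w1, hw1⟩ := hLL c₁ hcc hc1'
  refine ⟨max w1 (2 * k + k ^ 2 + 2), ?_⟩
  intro w hw W hW B'
  have hww1 : w1 ≤ w := (le_max_left _ _).trans hw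
  have hwk : 2 * k + k ^ 2 + 2 ≤ w := (le_max_right _ _).trans hw
  obtain ⟨Y1, hY1⟩ := hw1 w hww1 W hW B'
  obtain ⟨Y2, hY2⟩ := exists_Y53 w B' c₁ (442368 * 8 * W ^ 2 * c₁ ^ (k + 1) / (Real.pi * cV)) hcc
  refine ⟨max Y1 Y2, ?_⟩
  intro Y hY D hDw hDW hD xi hF J hJ
  have hYY1 : Y1 ≤ Y := (le_max_left _ _).trans hY
  obtain ⟨l1, l2, l3, l4, l5, l6, l7⟩ := hY2 Y ((le_max_right _ _).trans hY)
  have hWpos : 0 < W := by
    rcases Nat.eq_zero_or_pos W with h | h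
    · exfalso
      exact hW.2.2 (by rw [h]; exact dvd_zero _)
    · exact h
  have hF1 : D.Fam Y 1 B' (CC k) 1 xi := by
    refine ⟨hF.gcd, hF.ap, hF.eq, hF.cl, ?_, hF.hi, hF.good0, hF.good⟩
    rw [pow_one]
    refine le_trans ?_ hF.lo
    exact le_self_pow₀ l1 (by omega)
  have ha0 : D.a0 < D.a xi := by
    have h1 : (D.a0 : ℝ) ≤ w := by
      have := hD.a0w
      rw [hDw] at this
      exact_mod_cast this
    have h2 := hF1.lo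
    rw [pow_one] at h2
    have h3 : (D.a0 : ℝ) < D.a xi := by linarith
    exact_mod_cast h3
  obtain ⟨x, hx, hxc, hxo, hxn⟩ := fam_facts D hD hF
  have hx0 : x ≠ 0 := by
    rintro rfl
    simp [isCoprime_zero_left] at hxc
  set zl := (Y : ℝ) ^ c₁ with hzl
  set M := mu W (D.a xi) * (Y / (4 * W : ℕ)) * VV k w zl with hM
  have hM0 : 0 ≤ M := by
    have := VV_nonneg k w (by nlinarith [sq_nonneg k]) zl
    have hpi := Real.pi_pos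
    unfold mu at hM
    rw [hM]
    positivity
  set S := (D2_finite x hx0).toFinset with hS
  have hSm : ∀ p, p ∈ S ↔ gm p.1 p.2 = x := by
    intro p
    rw [hS, Set.Finite.mem_toFinset]
    rfl
  have hhi : (D.a xi : ℝ) ≤ (Y : ℝ) ^ (1 / 100 : ℝ) := hF.hi.trans l3
  -- the sums of `LL`
  have hLLu : ∀ u : ℤ × ℤ, 0 < nm u → (nm u : ℝ) ≤ (Y : ℝ) ^ (1 / 100 : ℝ) → ((LLS D Y zl xi u).ncard : ℝ) ≤
      C₄ * (1 / nm u) * (∏ p ∈ (nm u).natAbs.primeFactors, (1 + 2 * k / (p : ℝ))) *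
            (if (D.a xi : ℤ) ∣ nm u then (D.a xi : ℝ) else 1) * M := by
    intro u hu hu'
    exact hY1 Y hYY1 D hDw hDW hD xi hF1 u hu hu'
  have hs1 : ∑ p ∈ S, ((LLF D Y zl xi p.1).card : ℝ) ≤ 8 * C₄ * M :=
    sumLL D hD zl hF ha0 x hxc hxn hhi C₄ M hC4.le hM0 hLLu S (fun p hp => (hSm p).1 hp)
  have hs2 : ∑ p ∈ S, ((LLF D Y zl xi p.2).card : ℝ) ≤ 8 * C₄ * M := by
    classical
    have h1 := sumLL D hD zl hF ha0 x hxc hxn hhi C₄ M hC4.le hM0 hLLu (S.image Prod.swap) ?_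
    · rw [sum_image (fun p _ q _ h => Prod.swap_injective h)] at h1
      exact h1
    · intro p hp
      rw [mem_image] at hp
      obtain ⟨q, hq, rfl⟩ := hp
      simp only [Prod.fst_swap, Prod.snd_swap]
      rw [gm_comm]
      exact (hSm q).1 hq
  -- the covering
  have hX : ∀ n ∈ D.N1 Y zl, n + D.h D.i + D.a xi ≤ 2 * (2 * Y) := by
    intro n hn
    unfold Dat.N1 at hn
    simp only [mem_filter, mem_Ioc] at hn
    have h1 := hD.hh D.i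
    have h2 : ((10 ^ 6 + D.a xi : ℕ) : ℝ) ≤ ((2 * Y : ℕ) : ℝ) := by
      push_cast
      have := hF.hi
      linarith
    have h3 : 10 ^ 6 + D.a xi ≤ 2 * Y := by exact_mod_cast h2
    omega
  have hcov : ∀ xi' ∈ J, ∃ A : Finset ((ℤ × ℤ) × (ℤ × ℤ)),
      (A.card : ℝ) ≤ 64 * (144 * (2 * Y : ℕ) * harmonic (2 * Y) / (D.a xi) ^ 2) ∧
      ∀ n ∈ D.N1 Y zl, ∀ z ∈ D.ZS xi n, ∀ z' ∈ D.ZS xi' n,
        (xi', (z, z')) ∈ A1 D Y zl xi S ∨ (xi', (z, z')) ∈ A2 D Y zl xi S ∨ (z, z') ∈ A := by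
    intro xi' hxi'
    exact cover D hD zl hF (hJ xi' hxi').1 (hJ xi' hxi').2 ha0 x hx hxc hxo hxn S hSm (2 * Y) hX
  choose! A hA1 hA2 using hcov
  have hcount := count_le D xi (D.N1 Y zl) J (A1 D Y zl xi S) (A2 D Y zl xi S) A hA2
  have hcount' : ((∑ xi' ∈ J, ∑ n ∈ D.N1 Y zl, D.R xi n * D.R xi' n : ℕ) : ℝ) ≤
      ((A1 D Y zl xi S).card : ℝ) + ((A2 D Y zl xi S).card : ℝ) + ∑ xi' ∈ J, ((A xi').card : ℝ) := by
    exact_mod_cast hcount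
  have hc1 : ((A1 D Y zl xi S).card : ℝ) ≤ 16 * (8 * C₄ * M) := by
    have h1 : ((A1 D Y zl xi S).card : ℝ) ≤ 16 * ∑ p ∈ S, ((LLF D Y zl xi p.1).card : ℝ) := by
      exact_mod_cast A1_card D Y zl xi S
    linarith
  have hc2 : ((A2 D Y zl xi S).card : ℝ) ≤ 16 * (8 * C₄ * M) := by
    have h1 : ((A2 D Y zl xi S).card : ℝ) ≤ 16 * ∑ p ∈ S, ((LLF D Y zl xi p.2).card : ℝ) := by
      exact_mod_cast A2_card D Y zl xi S
    linarith
  have hc3 : ∑ xi' ∈ J, ((A xi').card : ℝ) ≤ M := by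
    have h1 : ∑ xi' ∈ J, ((A xi').card : ℝ) ≤
        (J.card : ℝ) * (64 * (144 * (2 * Y : ℕ) * (harmonic (2 * Y) : ℝ) / (D.a xi : ℝ) ^ 2)) := by
      rw [← nsmul_eq_mul, ← sum_const]
      exact sum_le_sum fun y hy => hA1 y hy
    refine h1.trans ?_
    have hDa1 : (1 : ℝ) ≤ D.a xi := by exact_mod_cast hF.ap.one_lt.le
    have hj : (J.card : ℝ) ≤ 8 * Real.sqrt (D.a xi) := by
      have h2 := card_J J (D.a xi + D.a0) ?_
      · have h3 : (J.card : ℝ) ≤ 2 * (2 * (Nat.sqrt (D.a xi + D.a0) : ℝ) + 1) := by exact_mod_cast h2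
        have h4 : (Nat.sqrt (D.a xi + D.a0) : ℝ) ≤ 3 / 2 * Real.sqrt (D.a xi) := by
          have h5 : (Nat.sqrt (D.a xi + D.a0) : ℝ) ≤ Real.sqrt ((D.a xi + D.a0 : ℕ) : ℝ) := Real.nat_sqrt_le_real_sqrt
          refine h5.trans ?_
          apply Real.sqrt_le_iff.2
          refine ⟨by positivity, ?_⟩
          rw [mul_pow, Real.sq_sqrt (by positivity)]
          have h6 : (D.a0 : ℝ) ≤ D.a xi := by exact_mod_cast ha0.le
          push_cast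
          linarith
        have h7 : 1 ≤ Real.sqrt (D.a xi) := by
          rw [Real.one_le_sqrt]
          exact hDa1
        linarith
      · intro y hy
        have h3 := (hJ y hy).1.eq
        rw [(hJ y hy).2] at h3
        rw [h3]
        push_cast
        rfl
    have hh : (harmonic (2 * Y) : ℝ) ≤ 3 * Real.log Y := by
      have h2 : (harmonic (2 * Y) : ℝ) ≤ 1 + Real.log ((2 * Y : ℕ) : ℝ) := harmonic_le_one_add_log _
      have hY0 : (0 : ℝ) < Y := by exact_mod_cast l7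
      have h3 : Real.log ((2 * Y : ℕ) : ℝ) = Real.log 2 + Real.log Y := by
        push_cast
        rw [Real.log_mul two_ne_zero hY0.ne']
      have h4 : Real.log 2 ≤ 1 := by
        have := Real.log_two_lt_d9
        linarith
      linarith
    have hV : cV / (c₁ * Real.log Y) ^ (k + 1) ≤ VV k w zl := by
      have h2 := hVV w hwk zl l5
      have hY0 : (0 : ℝ) < Y := by exact_mod_cast l7
      rw [hzl, Real.log_rpow hY0] at h2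
      exact h2
    exact num_le k W (D.a xi) Y J.card (Real.log Y) c₁ cV (VV k w zl) hWpos l7 hcc hcV l1 hF.lo hj hh hV l6
  calc _ ≤ _ := hcount'
    _ ≤ 16 * (8 * C₄ * M) + 16 * (8 * C₄ * M) + M := by linarith
    _ = (256 * C₄ + 1) * M := by ring

end Pool.Agent.W33f
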