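import Pool.Agent.W_d33b62f_h37.Cheb
import Pool.Agent.W_d33b62f_h37.SMaF
import Pool.Agent.W_d33b62f_h37.SMbF
import Pool.Agent.W_d33b62f_h37.Sm4
import Pool.Agent.W_d33b62t5_h98.T5D
import Pool.Agent.W_d33b62f_h37.LL

/-!
# MP_d33b62_nt, full question (helper20): the second moment theorem from `SMa` - `SMd`
-/

set_option autoImplicit false

noncomputable section

open Finset

namespace Pool.Agent.W33f

/-- **The second moment theorem**, from `SMa` - `SMd`. -/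
theorem SM0 (k : ℕ) (hk : 2 ≤ k) : ∃ c₁₀ : ℝ, 0 < c₁₀ ∧ ∀ c₁ : ℝ, 0 < c₁ → c₁ ≤ c₁₀ →
    ∃ (η C₂ : ℝ) (w₀ B : ℕ), 0 < η ∧ 0 < C₂ ∧ ∀ w ≥ w₀, ∀ W, Wok w W → ∀ B' : ℕ, ∃ Y₀ : ℕ, ∀ Y ≥ Y₀,
      ∀ D : Dat k, D.w = w → D.W = W → D.ok → ∀ J : Finset (ℤ × ℤ), (∀ xi ∈ J, D.Fam Y B B' (CC k) η xi) →
        C₂ ≤ ∑ xi ∈ J, mu W (D.a xi) →
        (∑ xi ∈ J, ∑ xi' ∈ J, (if D.a xi = D.a xi' then 0 else
          mu W (D.a xi) * mu W (D.a xi') * EE (CC k) w ((D.a xi : ℤ) - D.a xi'))) ≤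
            (1 + η) * (∑ xi ∈ J, mu W (D.a xi)) ^ 2 →
        (({n : ℕ | n ∈ D.N1 Y ((Y : ℝ) ^ c₁) ∧ ∀ xi ∈ J, D.R xi n = 0}).ncard : ℝ) ≤
          c₁ ^ (k + 1) * (Y / (4 * W : ℕ)) * VV k w ((Y : ℝ) ^ c₁) := by
  classical
  obtain ⟨ca, hca, ha⟩ := SMa k
  obtain ⟨cb, Bb, hcb, hb⟩ := SMb k
  obtain ⟨cc, Bc, hcc, hc⟩ := Pool.Agent.Wd33b62c.sm_c k
  obtain ⟨cd, C₃, B, hcd, hC₃, hd⟩ := SMd_of k (LL k)
  refine ⟨min (min ca cb) (min (min cc cd) 1), by positivity, fun c₁ h0 h1 => ?_⟩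
  have h1a : c₁ ≤ ca := h1.trans ((min_le_left _ _).trans (min_le_left _ _))
  have h1b : c₁ ≤ cb := h1.trans ((min_le_left _ _).trans (min_le_right _ _))
  have h1c : c₁ ≤ cc := h1.trans ((min_le_right _ _).trans ((min_le_left _ _).trans (min_le_left _ _)))
  have h1d : c₁ ≤ cd := h1.trans ((min_le_right _ _).trans ((min_le_left _ _).trans (min_le_right _ _)))
  have h11 : c₁ ≤ 1 := h1.trans ((min_le_right _ _).trans (min_le_right _ _))
  obtain ⟨wa, hwa⟩ := ha c₁ h0 h1a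
  obtain ⟨ηb, wb, hηb, hwb⟩ := hb c₁ h0 h1b
  obtain ⟨ηc, wc, hηc, hwc⟩ := hc c₁ h0 h1c
  obtain ⟨wd, hwd⟩ := hd c₁ h0 h1d
  obtain ⟨e, he⟩ : ∃ e : ℝ, e = c₁ ^ (k + 1) / 8 := ⟨_, rfl⟩
  have he0 : 0 < e := by rw [he]; positivity
  have he1 : e ≤ 1 / 8 := by
    rw [he]
    have : c₁ ^ (k + 1) ≤ 1 := pow_le_one₀ h0.le h11
    linarith
  obtain ⟨η, hη⟩ : ∃ η : ℝ, η = min (min ηb ηc) e := ⟨_, rfl⟩
  have hη0 : 0 < η := by rw [hη]; positivity
  have hη1 : η ≤ ηb := by rw [hη]; exact (min_le_left _ _).trans (min_le_left _ _)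
  have hη2 : η ≤ ηc := by rw [hη]; exact (min_le_left _ _).trans (min_le_right _ _)
  have hη3 : η ≤ e := by rw [hη]; exact min_le_right _ _
  refine ⟨η, C₃ / e, max (max wa wb) (max (max wc wd) (2 * k)), max B (max Bb Bc), hη0, by positivity, ?_⟩
  intro w hw W hW B'
  have hwa' : w ≥ wa := ((le_max_left _ _).trans (le_max_left _ _)).trans hw
  have hwb' : w ≥ wb := ((le_max_right _ _).trans (le_max_left _ _)).trans hw
  have hwc' : w ≥ wc := ((le_max_left _ _).trans ((le_max_left _ _).trans (le_max_right _ _))).trans hw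
  have hwd' : w ≥ wd := ((le_max_right _ _).trans ((le_max_left _ _).trans (le_max_right _ _))).trans hw
  have hwk : 2 * k ≤ w := ((le_max_right _ _).trans (le_max_right _ _)).trans hw
  obtain ⟨Ya, hYa⟩ := hwa w hwa' W hW
  obtain ⟨Yb, hYb⟩ := hwb w hwb' W hW B'
  obtain ⟨Yc, hYc⟩ := hwc w hwc' W hW B'
  obtain ⟨Yd, hYd⟩ := hwd w hwd' W hW B'
  refine ⟨max (max Ya Yb) (max (max Yc Yd) 3), ?_⟩
  intro Y hY D hDw hDW hD J hJ hC₂ hS
  have hYa' : Y ≥ Ya := ((le_max_left _ _).trans (le_max_left _ _)).trans hY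
  have hYb' : Y ≥ Yb := ((le_max_right _ _).trans (le_max_left _ _)).trans hY
  have hYc' : Y ≥ Yc := ((le_max_left _ _).trans ((le_max_left _ _).trans (le_max_right _ _))).trans hY
  have hYd' : Y ≥ Yd := ((le_max_right _ _).trans ((le_max_left _ _).trans (le_max_right _ _))).trans hY
  have hY3 : 3 ≤ Y := ((le_max_right _ _).trans (le_max_right _ _)).trans hY
  have hlog : 1 ≤ Real.log Y := by
    rw [Real.le_log_iff_exp_le (by positivity)]
    have : (3 : ℝ) ≤ Y := by exact_mod_cast hY3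
    exact (Real.exp_one_lt_d9.le.trans (by norm_num)).trans this
  obtain ⟨V, hV⟩ : ∃ V : ℝ, V = Y / (4 * W : ℕ) * VV k w ((Y : ℝ) ^ c₁) := ⟨_, rfl⟩
  have hV0 : 0 ≤ V := by
    rw [hV]
    exact mul_nonneg (by positivity) (VV_pos k w _ hwk).le
  have key := cheb (D.N1 Y ((Y : ℝ) ^ c₁)) J (fun xi n => D.R xi n) (fun xi => mu W (D.a xi)) (fun xi => D.a xi)
    (fun xi xi' => EE (CC k) w ((D.a xi : ℤ) - D.a xi')) V e η C₃ hV0 he0 he1 hη3 hC₃ hC₂ ?_ ?_ ?_ ?_ hS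
  · have e1 : {n : ℕ | n ∈ D.N1 Y ((Y : ℝ) ^ c₁) ∧ ∀ xi ∈ J, D.R xi n = 0} =
        ((D.N1 Y ((Y : ℝ) ^ c₁)).filter fun n => ∀ xi ∈ J, D.R xi n = 0 : Finset ℕ) := by
      ext n
      simp
    rw [e1, Set.ncard_coe_finset]
    refine key.trans (le_of_eq ?_)
    rw [he, hV]
    ring
  · have := hYa Y hYa' D hDw hDW hD
    rw [he, hV]
    refine this.trans (le_of_eq ?_)
    ring
  · intro xi hxi
    have := hYb Y hYb' D hDw hDW hD xi ((hJ xi hxi).mono ((le_max_left _ _).trans (le_max_right _ _)) hη1 hlog)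
    rw [Nat.cast_sum] at this
    rw [he, hV]
    refine le_trans (le_of_eq ?_) this
    ring
  · intro xi hxi xi' hxi' hne
    have := hYc Y hYc' D hDw hDW hD xi xi' ((hJ xi hxi).mono ((le_max_right _ _).trans (le_max_right _ _)) hη2 hlog)
      ((hJ xi' hxi').mono ((le_max_right _ _).trans (le_max_right _ _)) hη2 hlog) hne
    rw [Nat.cast_sum] at this
    simp only [Nat.cast_mul] at this
    rw [he, hV]
    refine le_trans this (le_of_eq ?_)
    push_cast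
    ring
  · intro xi hxi
    have hη4 : η ≤ 1 := hη3.trans (he1.trans (by norm_num))
    have := hYd Y hYd' D hDw hDW hD xi ((hJ xi hxi).mono (le_max_left _ _) hη4 hlog)
      (J.filter fun xi' => D.a xi' = D.a xi) (fun xi' hxi' => by
        rw [Finset.mem_filter] at hxi'
        exact ⟨(hJ xi' hxi'.1).mono (le_max_left _ _) hη4 hlog, hxi'.2⟩)
    rw [Nat.cast_sum] at this
    simp only [Nat.cast_sum, Nat.cast_mul] at this
    rw [hV]
    refine le_trans this (le_of_eq ?_)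
    push_cast
    ring

end Pool.Agent.W33f
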