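import Pool.Agent.W_d33b62f_h37.Df

/-!
# MP_d33b62_nt, full question (helper20): the tuple of primes
-/

set_option autoImplicit false

noncomputable section

open Finset

namespace Pool.Agent.W33f

/-- The number of the integers of `[a, a + 2 ^ k)` which are coprime to `P`. -/
private def cnt (P : ℕ) : ℕ → ℕ → ℕ
  | 0, a => if Nat.gcd P a = 1 then 1 else 0
  | k + 1, a => cnt P k a + cnt P k (a + 2 ^ k)

private theorem cnt_eq (P : ℕ) : ∀ k a : ℕ, cnt P k a = #{n ∈ Ico a (a + 2 ^ k) | Nat.gcd P n = 1}
  | 0, a => by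
    rw [cnt, pow_zero, Nat.Ico_succ_singleton, Finset.filter_singleton]
    split_ifs <;> simp
  | k + 1, a => by
    rw [cnt, cnt_eq P k a, cnt_eq P k (a + 2 ^ k)]
    have h1 : Ico a (a + 2 ^ (k + 1)) = Ico a (a + 2 ^ k) ∪ Ico (a + 2 ^ k) (a + 2 ^ k + 2 ^ k) := by
      rw [Finset.Ico_union_Ico_eq_Ico (Nat.le_add_right _ _) (Nat.le_add_right _ _)]
      congr 1
      ring
    rw [h1, Finset.filter_union, Finset.card_union_of_disjoint]
    refine Finset.disjoint_filter_filter ?_
    exact Finset.Ico_disjoint_Ico_consecutive _ _ _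

private theorem cnt_val : 2000 ≤ cnt 7799922041683461553249199106329813876687996789903550945093032474868511536164700810 15 2001 := by
  decide +kernel

private theorem PP_dvd : ∀ q < 205, q < 2 ∨ (∃ m < q, 1 < m ∧ q % m = 0) ∨ 7799922041683461553249199106329813876687996789903550945093032474868511536164700810 % q = 0 := by
  decide +kernel

private theorem prime_of {n : ℕ} (h1 : 204 < n) (h2 : n < 42025) (h3 : Nat.gcd 7799922041683461553249199106329813876687996789903550945093032474868511536164700810 n = 1) : n.Prime := by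
  by_contra h
  have hm : n.minFac.Prime := Nat.minFac_prime (by omega)
  have h4 : n.minFac ^ 2 ≤ n := Nat.minFac_sq_le_self (by omega) h
  have h5 : n.minFac < 205 := by
    by_contra h6
    push Not at h6
    nlinarith
  have h7 : n.minFac ∣ 7799922041683461553249199106329813876687996789903550945093032474868511536164700810 := by
    rcases PP_dvd _ h5 with h8 | ⟨m, h8, h9, h10⟩ | h8
    · exact absurd hm.two_le (by omega)
    · exact absurd ((Nat.dvd_prime hm).1 (Nat.dvd_of_mod_eq_zero h10)) (by omega)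
    · exact Nat.dvd_of_mod_eq_zero h8
  have h8 : n.minFac ∣ 1 := h3 ▸ Nat.dvd_gcd h7 n.minFac_dvd
  exact hm.one_lt.ne' (Nat.dvd_one.1 h8)

/-- **T10b.** The tuple. -/
theorem TUP : ∃ t : Fin 2000 → ℕ, Function.Injective t ∧ ∀ l, (t l).Prime ∧ 2000 < t l ∧ t l ≤ 41666 := by
  have h := cnt_val
  rw [cnt_eq] at h
  refine ⟨fun l => (Finset.orderEmbOfCardLe _ h l : ℕ), (Finset.orderEmbOfCardLe _ h).injective, fun l => ?_⟩
  have h1 := Finset.orderEmbOfCardLe_mem _ h l
  rw [Finset.mem_filter, Finset.mem_Ico] at h1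
  have h2 : (2 : ℕ) ^ 15 = 32768 := by norm_num
  dsimp only
  exact ⟨prime_of (by omega) (by omega) h1.2, by omega, by omega⟩

end Pool.Agent.W33f
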