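import Pool.Agent.W_d33b62f_h37.Sv

/-!
# Mertens: the product of `1 - k / p` over `Y ^ c₁ ≤ p < Y ^ c` (MP_d33b62, section T1; helper47)
-/

set_option autoImplicit false

noncomputable section

open Finset Filter Topology

namespace Pool.Agent.W33f

open Pool.Agent.M58 Pool.Agent.Wd33b62k

theorem exp_le_one_sub (x : ℝ) (h0 : 0 ≤ x) (h1 : x ≤ 1 / 2) : Real.exp (-(x + x ^ 2)) ≤ 1 - x := by
  have h2 : 0 < 1 - x := by linarith
  have h5 : 1 / (1 - x) ≤ Real.exp (x + x ^ 2) := by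
    have h6 := Real.quadratic_le_exp_of_nonneg (show 0 ≤ x + x ^ 2 by positivity)
    refine le_trans ?_ h6
    rw [div_le_iff₀ h2]
    nlinarith [mul_nonneg h0 h0, mul_nonneg (mul_nonneg h0 h0) (mul_nonneg h0 h0),
      mul_nonneg (mul_nonneg h0 h0) h0, mul_nonneg (mul_nonneg h0 h0) (sub_nonneg.2 h1)]
  rw [Real.exp_neg]
  rw [div_le_iff₀ h2] at h5
  have h6 := Real.exp_pos (x + x ^ 2)
  rw [inv_le_iff_one_le_mul₀ h6]
  linarith

theorem tendsto_logPow (c : ℝ) (hc : 0 < c) :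
    Tendsto (fun Y : ℝ => Real.log (Y ^ c)) atTop atTop :=
  Real.tendsto_log_atTop.comp (tendsto_rpow_atTop hc)

/-- The lower bound of Mertens for the product. -/
theorem mertens_lower (k : ℕ) (c₁ c : ℝ) (h1 : 0 < c₁) (h2 : c₁ ≤ c) : ∃ Y₀ : ℝ, 2 ≤ Y₀ ∧
    ∀ Y ≥ Y₀, (∀ p ∈ PI (Y ^ c₁) (Y ^ c), (k : ℝ) / p ≤ 1 / 2) ∧
      1 / 2 * (c₁ / c) ^ k ≤ ∏ p ∈ PI (Y ^ c₁) (Y ^ c), (1 - (k : ℝ) / p) := by
  obtain ⟨C, hC, hM⟩ := Pool.Agent.Wb58c63.mertens_two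
  have hc : 0 < c := lt_of_lt_of_le h1 h2
  have ht1 : Tendsto (fun Y : ℝ => Y ^ c₁) atTop atTop := tendsto_rpow_atTop h1
  have ht2 : Tendsto (fun Y : ℝ => C / Real.log (Y ^ c₁)) atTop (𝓝 0) :=
    Tendsto.div_atTop tendsto_const_nhds (tendsto_logPow c₁ h1)
  have ht3 : Tendsto (fun Y : ℝ => (k : ℝ) ^ 2 / Y ^ c₁) atTop (𝓝 0) :=
    Tendsto.div_atTop tendsto_const_nhds ht1
  have ht4 : Tendsto (fun Y : ℝ => (k : ℝ) * (C / Real.log (Y ^ c₁)) +
      (k : ℝ) ^ 2 / Y ^ c₁ * (Real.log (c / c₁) + C / Real.log (Y ^ c₁))) atTop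
      (𝓝 ((k : ℝ) * 0 + 0 * (Real.log (c / c₁) + 0))) :=
    (ht2.const_mul _).add (ht3.mul (ht2.const_add _))
  rw [mul_zero, zero_mul, add_zero] at ht4
  have hl2 : 0 < Real.log 2 := Real.log_pos (by norm_num)
  have he1 := ht4.eventually (eventually_lt_nhds hl2)
  have he2 := ht1.eventually (eventually_ge_atTop (max 2 (2 * (k : ℝ))))
  obtain ⟨Y₀, hY⟩ := (he1.and (he2.and (eventually_ge_atTop (2 : ℝ)))).exists_forall_of_atTop
  refine ⟨max Y₀ 2, le_max_right _ _, ?_⟩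
  intro Y hY'
  obtain ⟨a1, a2, a3⟩ := hY Y ((le_max_left _ _).trans hY')
  set u := Y ^ c₁ with hu
  have hu2 : 2 ≤ u := (le_max_left _ _).trans a2
  have huk : 2 * (k : ℝ) ≤ u := (le_max_right _ _).trans a2
  have hu0 : 0 < u := by linarith
  have hY1 : 1 ≤ Y := by linarith
  have huz : u ≤ Y ^ c := Real.rpow_le_rpow_of_exponent_le hY1 h2
  have hkp : ∀ p ∈ PI u (Y ^ c), (k : ℝ) / p ≤ 1 / 2 := by
    intro p hp
    rw [mem_PI] at hp
    have : 0 < (p : ℝ) := by exact_mod_cast hp.1.pos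
    rw [div_le_iff₀ this]
    linarith [hp.2.1]
  refine ⟨hkp, ?_⟩
  set S := ∑ p ∈ PI u (Y ^ c), (1 : ℝ) / p with hS
  have hS0 : 0 ≤ S := sum_nonneg fun p _ => by positivity
  have hS1 : S ≤ Real.log (c / c₁) + C / Real.log u := by
    have h3 := hM u (Y ^ c) hu2 huz
    have h4 : Real.log (Y ^ c) / Real.log u = c / c₁ := by
      rw [hu, Real.log_rpow (by linarith), Real.log_rpow (by linarith)]
      have : Real.log Y ≠ 0 := (Real.log_pos (by linarith)).ne'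
      field_simp
    rw [h4] at h3
    exact h3
  have h3 : Real.exp (-((k : ℝ) * S + (k : ℝ) ^ 2 / u * S)) ≤ ∏ p ∈ PI u (Y ^ c), (1 - (k : ℝ) / p) := by
    have h4 : ∏ p ∈ PI u (Y ^ c), Real.exp (-((k : ℝ) / p + ((k : ℝ) / p) ^ 2)) ≤
        ∏ p ∈ PI u (Y ^ c), (1 - (k : ℝ) / p) :=
      prod_le_prod (fun p _ => (Real.exp_pos _).le) fun p hp =>
        exp_le_one_sub _ (by positivity) (hkp p hp)
    refine le_trans ?_ h4
    rw [← Real.exp_sum, Real.exp_le_exp, sum_neg_distrib, neg_le_neg_iff, sum_add_distrib]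
    refine add_le_add (le_of_eq ?_) ?_
    · rw [hS, mul_sum]
      exact sum_congr rfl fun p _ => by ring
    · rw [hS, mul_sum]
      refine sum_le_sum fun p hp => ?_
      rw [mem_PI] at hp
      have hp0 : 0 < (p : ℝ) := by exact_mod_cast hp.1.pos
      have h5 : ((k : ℝ) / p) ^ 2 = (k : ℝ) ^ 2 / p * (1 / p) := by
        field_simp
      rw [h5]
      refine mul_le_mul_of_nonneg_right ?_ (by positivity)
      exact div_le_div_of_nonneg_left (by positivity) hu0 hp.2.1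
  refine le_trans ?_ h3
  have h4 : (c₁ / c) ^ k = Real.exp (-((k : ℝ) * Real.log (c / c₁))) := by
    rw [← mul_neg, ← Real.log_inv, inv_div, Real.exp_nat_mul, Real.exp_log (by positivity)]
  have h5 : (1 : ℝ) / 2 = Real.exp (-Real.log 2) := by
    rw [Real.exp_neg, Real.exp_log (by norm_num)]
    norm_num
  rw [h4, h5, ← Real.exp_add, Real.exp_le_exp]
  have hk0 : (0 : ℝ) ≤ k := Nat.cast_nonneg k
  have h6 := mul_le_mul_of_nonneg_left hS1 hk0
  have h7 := mul_le_mul_of_nonneg_left hS1 (show 0 ≤ (k : ℝ) ^ 2 / u by positivity)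
  nlinarith

end Pool.Agent.W33f
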