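import Pool.Agent.W_d33b62f_h37.Df
import Pool.Agent.W_d33b62f_h37.Me

/-!
# MP_d33b62_nt, full question: the ratio of the sieve products (helper37)
-/

set_option autoImplicit false

noncomputable section

open Finset

namespace Pool.Agent.W33f

open Pool.Agent.Wb58c63 (PI mem_PI)

theorem VVr_mem {w : ℕ} {z : ℝ} {p : ℕ} : p ∈ Pw w z ↔ p.Prime ∧ w < p ∧ (p : ℝ) < z := by
  unfold Pw
  rw [mem_filter, mem_range, Nat.lt_ceil]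
  tauto

/-- **M1.** Mertens. -/
theorem VV_ratio (k : ℕ) (c₁ c : ℝ) (h1 : 0 < c₁) (h2 : c₁ < c) (w : ℕ) (hw : 2 * k ≤ w) : ∃ Y₀ : ℕ, ∀ Y ≥ Y₀,
    1 / 2 * (c₁ / c) ^ k * VV k w ((Y : ℝ) ^ c₁) ≤ VV k w ((Y : ℝ) ^ c) := by
  obtain ⟨Y₀, hY₀, H⟩ := mertens_lower k c₁ c h1 h2.le
  refine ⟨⌈max Y₀ (((w : ℝ) + 1) ^ (1 / c₁))⌉₊, fun Y hY => ?_⟩
  have hY1 : max Y₀ (((w : ℝ) + 1) ^ (1 / c₁)) ≤ Y := (Nat.le_ceil _).trans (by exact_mod_cast hY)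
  have hY2 : Y₀ ≤ Y := (le_max_left _ _).trans hY1
  have hYw : ((w : ℝ) + 1) ^ (1 / c₁) ≤ Y := (le_max_right _ _).trans hY1
  have hYp : (1 : ℝ) ≤ Y := by linarith
  obtain ⟨_, h4⟩ := H Y hY2
  have h5 : (w : ℝ) + 1 ≤ (Y : ℝ) ^ c₁ := by
    have := Real.rpow_le_rpow (by positivity) hYw h1.le
    rwa [← Real.rpow_mul (by positivity), one_div_mul_cancel h1.ne', Real.rpow_one] at this
  have h6 : (Y : ℝ) ^ c₁ ≤ (Y : ℝ) ^ c := Real.rpow_le_rpow_of_exponent_le hYp h2.le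
  have h7 : Pw w ((Y : ℝ) ^ c) = Pw w ((Y : ℝ) ^ c₁) ∪ PI ((Y : ℝ) ^ c₁) ((Y : ℝ) ^ c) := by
    ext p
    rw [mem_union, VVr_mem, VVr_mem, mem_PI]
    constructor
    · rintro ⟨a1, a2, a3⟩
      rcases lt_or_ge (p : ℝ) ((Y : ℝ) ^ c₁) with h | h
      · exact Or.inl ⟨a1, a2, h⟩
      · exact Or.inr ⟨a1, h, a3⟩
    · rintro (⟨a1, a2, a3⟩ | ⟨a1, a2, a3⟩)
      · exact ⟨a1, a2, a3.trans_le h6⟩
      · refine ⟨a1, ?_, a3⟩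
        have : (w : ℝ) + 1 ≤ p := h5.trans a2
        have : (w : ℝ) < p := by linarith
        exact_mod_cast this
  have h8 : Disjoint (Pw w ((Y : ℝ) ^ c₁)) (PI ((Y : ℝ) ^ c₁) ((Y : ℝ) ^ c)) := by
    rw [disjoint_left]
    intro p hp hp'
    exact absurd (VVr_mem.1 hp).2.2 (not_lt.2 (mem_PI.1 hp').2.1)
  have h9 : 0 ≤ VV k w ((Y : ℝ) ^ c₁) := by
    unfold VV
    refine prod_nonneg fun p hp => ?_
    have a := (VVr_mem.1 hp)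
    have b : (0 : ℝ) < p := by exact_mod_cast a.1.pos
    rw [sub_nonneg, div_le_one b]
    exact_mod_cast (by omega : k ≤ p)
  have h10 : VV k w ((Y : ℝ) ^ c) =
      VV k w ((Y : ℝ) ^ c₁) * ∏ p ∈ PI ((Y : ℝ) ^ c₁) ((Y : ℝ) ^ c), (1 - (k : ℝ) / p) := by
    unfold VV
    rw [h7, prod_union h8]
  rw [h10, mul_comm]
  exact mul_le_mul_of_nonneg_left h4 h9

end Pool.Agent.W33f
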