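import Pool.Agent.W_d33b62f_h37.Df

/-!
# MP_d33b62_nt, full question (helper20): the points of one circle
-/

set_option autoImplicit false

noncomputable section

open Finset

namespace Pool.Agent.W33f

/-- The number of points is finite (`|z| ≤ nm z`). -/
theorem ZS_fin {k : ℕ} (D : Dat k) (xi : ℤ × ℤ) (n : ℕ) : (D.ZS xi n).Finite := by
  refine Set.Finite.subset (Set.finite_Icc
    ((-(n + D.h D.i + D.a xi : ℤ), -(n + D.h D.i + D.a xi : ℤ)) : ℤ × ℤ)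
    ((n + D.h D.i + D.a xi : ℤ), (n + D.h D.i + D.a xi : ℤ))) ?_
  rintro ⟨x, y⟩ ⟨_, _, _, _, _, h⟩
  simp only [nm] at h
  rw [← Set.Icc_prod_Icc]
  refine ⟨⟨?_, ?_⟩, ⟨?_, ?_⟩⟩ <;> dsimp only <;> nlinarith [sq_nonneg (x - 1), sq_nonneg (x + 1), sq_nonneg (y - 1),
    sq_nonneg (y + 1), sq_nonneg x, sq_nonneg y]

/-- `R > 0` gives a point. -/
theorem R_pos {k : ℕ} (D : Dat k) (xi : ℤ × ℤ) (n : ℕ) (h : D.R xi n ≠ 0) : ∃ z, z ∈ D.ZS xi n :=
  Set.nonempty_of_ncard_ne_zero h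

end Pool.Agent.W33f
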