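import Pool.Agent.W_d33b62f_h37.MainA
import Pool.Agent.W_d33b62f_h37.ZS
import Pool.Agent.W_d33b62f_h37.TUP
import Pool.Agent.W_d33b62f_h37.SM
import Pool.Agent.W_d33b62f_h37.GEO
import Pool.Agent.W_d33b62f_h37.Res
import Pool.Agent.W_d33b62f_h37.VVr
import Pool.Agent.W_d33b62m_h36.Ms
import Pool.Agent.W_d33b62f_h37.Fam0

/-!
# MP_d33b62_nt, full question (helper20): the final assembly
-/

set_option autoImplicit false

noncomputable section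

open Finset Pool.Agent.Wd33b62

namespace Pool.Agent.W33f

theorem pick {k : ℕ} (A : Set ℕ) (bad : Fin k → Set ℕ) (c c₁ δ P V V₁ : ℝ) (hA : δ * P * V ≤ A.ncard)
    (hV : 1 / 2 * (c₁ / c) ^ k * V₁ ≤ V) (hfin : ∀ i, (bad i).Finite)
    (hbad : ∀ i, ((bad i).ncard : ℝ) ≤ c₁ ^ (k + 1) * P * V₁) (hP : 0 < P) (hV1 : 0 < V₁) (hc₁ : 0 < c₁)
    (hc : 0 < c) (hc1 : c < 1) (hδ : 0 < δ) (h : 2 * k * c₁ < δ) : ∃ n ∈ A, ∀ i, n ∉ bad i := by
  by_contra hcon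
  push Not at hcon
  have h1 : A ⊆ ⋃ i, bad i := fun n hn => Set.mem_iUnion.2 (hcon n hn)
  have h2 : A.ncard ≤ ∑ i, (bad i).ncard :=
    (Set.ncard_le_ncard h1 (Set.finite_iUnion hfin)).trans (Set.ncard_iUnion_le_of_fintype bad)
  have h3 : (A.ncard : ℝ) ≤ k * (c₁ ^ (k + 1) * P * V₁) := by
    calc (A.ncard : ℝ) ≤ ((∑ i, (bad i).ncard : ℕ) : ℝ) := by exact_mod_cast h2
      _ = ∑ i, ((bad i).ncard : ℝ) := by push_cast; rfl
      _ ≤ ∑ _i : Fin k, c₁ ^ (k + 1) * P * V₁ := Finset.sum_le_sum fun i _ => hbad i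
      _ = _ := by rw [Finset.sum_const, Finset.card_univ, Fintype.card_fin, nsmul_eq_mul]
  have h4 : c₁ ^ k ≤ (c₁ / c) ^ k := by
    refine pow_le_pow_left₀ hc₁.le ?_ k
    rw [le_div_iff₀ hc]
    nlinarith
  have h5 : δ * P * (1 / 2 * c₁ ^ k * V₁) ≤ δ * P * V := by
    refine mul_le_mul_of_nonneg_left (le_trans ?_ hV) (by positivity)
    gcongr
  have h6 : 0 < c₁ ^ k * P * V₁ := by positivity
  have h7 : δ * P * (1 / 2 * c₁ ^ k * V₁) = δ / 2 * (c₁ ^ k * P * V₁) := by ring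
  have h8 : k * (c₁ ^ (k + 1) * P * V₁) = k * c₁ * (c₁ ^ k * P * V₁) := by ring
  have h9 : δ / 2 * (c₁ ^ k * P * V₁) ≤ k * c₁ * (c₁ ^ k * P * V₁) := by linarith
  have h10 := le_of_mul_le_mul_right h9 h6
  linarith

theorem rep {v : Fin 4 → GC} {C : GC} {a₀ : ℕ} {v₀ : ℤ × ℤ}
    (hgeo : ∀ xi : ℤ × ℤ, Int.gcd xi.1 xi.2 = 1 → (a₀ : ℤ) ∣ v₀.1 * xi.2 - v₀.2 * xi.1 →
        ∀ q : ℕ, q.Prime → q ≠ 2 → a₀ < q → nm xi = q + a₀ →
          ∀ ze : ℤ × ℤ, Int.gcd ze.1 ze.2 = 1 → (q : ℤ) ∣ xi.1 * ze.2 - xi.2 * ze.1 →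
            ∀ r : ℕ, r.Prime → r ≠ 2 → q < r → nm ze = r + q → r ∈ curvs v C)
    {k : ℕ} {D : Dat k} (hD : D.ok) (h0 : D.a0 = a₀) {xi : ℤ × ℤ} {n : ℕ} (h1 : Int.gcd xi.1 xi.2 = 1)
    (h2 : (D.a xi).Prime) (h3 : nm xi = D.a xi + D.a0) (h4 : (a₀ : ℤ) ∣ v₀.1 * xi.2 - v₀.2 * xi.1)
    (h5 : a₀ < D.a xi) (h6 : (n + D.h D.i).Prime) (h7 : D.a xi < n + D.h D.i) (h8 : D.R xi n ≠ 0) :
    n + D.h D.i ∈ curvs v C := by
  obtain ⟨z, hz⟩ := R_pos D xi n h8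
  obtain ⟨g1, g2, g3⟩ := zeta_of hD hz
  have h9 : 5 ≤ a₀ := h0 ▸ hD.a05
  refine hgeo xi h1 h4 (D.a xi) h2 (by omega) h5 (by rw [h3, h0]) (z.1 - z.2, z.1 + z.2) g1 g2 _ h6 (by omega) h7 ?_
  rw [g3]
  push_cast
  ring

/-- **Main theorem.** -/
theorem mainQ1 : ∀ v : Fin 4 → GC, IsDescartes v → IsIntegral v → IsPrimitive v →
    ∀ C ∈ packing v, OddPrimeCurv C → ∀ N : ℕ, ∃ p ∈ curvs v C, ∃ q ∈ curvs v C, N ≤ p ∧ p < q ∧ q ≤ p + 10 ^ 6 := by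
  classical
  intro v hv hI hP C hC hC2 N
  obtain ⟨a₀, v₀, ha, ha5, hv0, hgeo⟩ := GEO hv hI hP hC hC2
  obtain ⟨t, htinj, htp⟩ := TUP
  obtain ⟨c, δ, hc0, hc1, hδ, wT, hT⟩ := T2 t htinj htp
  obtain ⟨c₁₀, hc₁₀, hSM⟩ := SM0 2000 (by norm_num)
  obtain ⟨c₁, hc₁, hc₁₁, hc₁c, hc₁δ⟩ : ∃ c₁ : ℝ, 0 < c₁ ∧ c₁ ≤ c₁₀ ∧ c₁ < c ∧ 2 * (2000 : ℕ) * c₁ < δ := by
    refine ⟨min (min c₁₀ (c / 2)) (δ / 4001), by positivity, (min_le_left _ _).trans (min_le_left _ _), ?_, ?_⟩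
    · have : min (min c₁₀ (c / 2)) (δ / 4001) ≤ c / 2 := (min_le_left _ _).trans (min_le_right _ _)
      linarith
    · have : min (min c₁₀ (c / 2)) (δ / 4001) ≤ δ / 4001 := min_le_right _ _
      push_cast
      linarith
  obtain ⟨η, C₂, wS, B, hη, hC₂, hS⟩ := hSM c₁ hc₁ hc₁₁
  obtain ⟨E, hE0, hEc, hEp, hfam⟩ := FAM0 a₀ ha ha5 v₀ hv0 (10 ^ 6)
  have hCC : 0 < CC 2000 := by
    unfold CC
    positivity
  obtain ⟨wF, hF⟩ := hfam 2000 (CC 2000) η hCC hη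
  obtain ⟨w, hw⟩ : ∃ w : ℕ, w = max (max (max wT wS) (max wF (10 ^ 6))) (max a₀ E) := ⟨_, rfl⟩
  have hwT : w ≥ wT := by omega
  have hwS : w ≥ wS := by omega
  have hwF : w ≥ wF := by omega
  have hw6 : 10 ^ 6 ≤ w := by omega
  have hwa : a₀ ≤ w := by omega
  have hwE : E ≤ w := by omega
  obtain ⟨W, hW, hWE⟩ := exists_W w E (by omega) (Nat.Coprime.coprime_dvd_right (dvd_mul_right 2 a₀) hEc)
    (fun p _ hpE => (Nat.le_of_dvd (Nat.pos_of_ne_zero hE0) hpE).trans hwE)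
  obtain ⟨b, hb, hres⟩ := RES 2000 (by norm_num) t htp a₀ ha ha5 v₀ hv0 E hE0 hEc hEp w W hW hw6 hwa hWE
  choose rho al hal hal2 hrho hrhoN hrho1 hm0 hs using hres
  obtain ⟨D, hDdef⟩ : ∃ D : Fin 2000 → Dat 2000, D = fun i => ⟨w, W, fun l => 24 * t l, i, rho i, b, a₀, al i⟩ :=
    ⟨_, rfl⟩
  have hD : ∀ i, (D i).ok := by
    intro i
    rw [hDdef]
    exact
      { wok := hW
        hw := hw6
        hh := fun l => by
          have := (htp l).2.2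
          dsimp only
          omega
        inj := fun l l' h => htinj (by
          dsimp only at h
          omega)
        a0p := ha
        a05 := ha5
        a0w := hwa
        hb := fun l => Nat.Coprime.coprime_dvd_right (dvd_mul_left W 4) (hb l)
        hal := hal i
        hal2 := hal2 i
        hrho := hrho i
        hrhoN := hrhoN i
        hrho1 := hrho1 i }
  obtain ⟨B', YF, hYF⟩ := hF w hwF W hW hWE C₂ (B + 1)
  obtain ⟨YS, hYS⟩ := hS w hwS W hW B'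
  have h4W : ∀ p : ℕ, p.Prime → (p ∣ 4 * W ↔ p ≤ w) := by
    intro p hp
    rw [← hW.1 p hp]
    constructor
    · intro h
      rcases (Nat.Prime.dvd_mul hp).1 h with h | h
      · have h8 : p ∣ 2 := hp.dvd_of_dvd_pow (show p ∣ 2 ^ 2 by simpa using h)
        rw [hW.1 p hp]
        have := Nat.le_of_dvd (by norm_num) h8
        omega
      · exact h
    · intro h
      exact h.trans (dvd_mul_left _ _)
  obtain ⟨YT, hYT⟩ := hT w hwT (4 * W) h4W b hb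
  obtain ⟨YV, hYV⟩ := VV_ratio 2000 c₁ c hc₁ hc₁c w (by omega)
  obtain ⟨Y, hY1, hYN, hY3, hlog, hloga, hlogB⟩ := exists_Y B' a₀ N (max (max YF YS) (max YT YV))
  have hYF' : Y ≥ YF := by omega
  have hYS' : Y ≥ YS := by omega
  have hYT' : Y ≥ YT := by omega
  have hYV' : Y ≥ YV := by omega
  -- the families
  have hJ : ∀ i, ∃ J : Finset (ℤ × ℤ), (∀ xi ∈ J, (D i).Fam Y (B + 1) B' (CC 2000) η xi ∧
      (a₀ : ℤ) ∣ v₀.1 * xi.2 - v₀.2 * xi.1) ∧ C₂ ≤ ∑ xi ∈ J, mu W ((D i).a xi) ∧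
      (∑ xi ∈ J, ∑ xi' ∈ J, (if (D i).a xi = (D i).a xi' then 0 else
        mu W ((D i).a xi) * mu W ((D i).a xi') * EE (CC 2000) w (((D i).a xi : ℤ) - (D i).a xi'))) ≤
          (1 + η) * (∑ xi ∈ J, mu W ((D i).a xi)) ^ 2 := by
    intro i
    refine hYF Y hYF' (D i) ?_ ?_ (hD i) ?_ ?_ ?_
    · rw [hDdef]
    · rw [hDdef]
    · rw [hDdef]
    · rw [hDdef]
      exact hm0 i
    · rw [hDdef]
      exact hs i
  choose J hJ1 hJ2 hJ3 using hJ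
  have hbad : ∀ i, (({n : ℕ | n ∈ (D i).N1 Y ((Y : ℝ) ^ c₁) ∧ ∀ xi ∈ J i, (D i).R xi n = 0}).ncard : ℝ) ≤
      c₁ ^ (2000 + 1) * (Y / (4 * W : ℕ)) * VV 2000 w ((Y : ℝ) ^ c₁) := by
    intro i
    refine hYS Y hYS' (D i) ?_ ?_ (hD i) (J i) ?_ (hJ2 i) (hJ3 i)
    · rw [hDdef]
    · rw [hDdef]
    · intro xi hxi
      exact (hJ1 i xi hxi).1.mono (Nat.le_succ B) le_rfl hlog
  have hW0 : 0 < W := by
    rcases Nat.eq_zero_or_pos W with h | h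
    · exfalso
      apply hW.2.2
      rw [h]
      exact dvd_zero _
    · exact h
  obtain ⟨n, hn, hnb⟩ := pick _ _ c c₁ δ ((Y : ℝ) / (4 * W : ℕ)) _ _ (hYT Y hYT') (hYV Y hYV')
    (fun i => Set.Finite.subset (Finset.finite_toSet ((D i).N1 Y ((Y : ℝ) ^ c₁))) (fun n hn => hn.1)) hbad
    (by positivity) (VV_pos _ _ _ (by omega)) hc₁ hc0 hc1 hδ hc₁δ
  obtain ⟨hn1, hn2, hn3, i, j, hij, hpi, hpj⟩ := hn
  rw [Finset.mem_Ioc] at hn1
  have hY1' : (1 : ℝ) ≤ Y := by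
    have : 1 ≤ Y := by omega
    exact_mod_cast this
  have hrou : Rou (fun l => 24 * t l) w ((Y : ℝ) ^ c₁) n := by
    intro p hp
    exact hn3 p (Pw_mono w (Real.rpow_le_rpow_of_exponent_le hY1' hc₁c.le) hp)
  have hmem : ∀ i, (n + 24 * t i).Prime → n + 24 * t i ∈ curvs v C := by
    intro i hpi
    have hN1 : n ∈ (D i).N1 Y ((Y : ℝ) ^ c₁) := by
      unfold Dat.N1
      rw [Finset.mem_filter, Finset.mem_Ioc, hDdef]
      exact ⟨hn1, hn2, hrou⟩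
    have h1 : ∃ xi ∈ J i, (D i).R xi n ≠ 0 := by
      by_contra hcon
      push Not at hcon
      exact hnb i ⟨hN1, hcon⟩
    obtain ⟨xi, hxi, hR⟩ := h1
    obtain ⟨hF1, hF2⟩ := hJ1 i xi hxi
    have ha0 : (D i).a0 = a₀ := by rw [hDdef]
    have hh : (D i).h (D i).i = 24 * t i := by rw [hDdef]
    have hlo : a₀ < (D i).a xi := by
      have h2 := hF1.lo
      have h3 : Real.log Y ≤ (Real.log Y) ^ (B + 1) := by
        calc Real.log Y = (Real.log Y) ^ 1 := (pow_one _).symm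
          _ ≤ _ := pow_le_pow_right₀ hlog (by omega)
      have h4 : (a₀ : ℝ) < (D i).a xi := by linarith
      exact_mod_cast h4
    have hhi : (D i).a xi < n + 24 * t i := by
      have h2 := hF1.hi
      have h3 : ((D i).a xi : ℝ) < Y := by linarith
      have h4 : (D i).a xi < Y := by exact_mod_cast h3
      omega
    have := rep hgeo (hD i) ha0 hF1.gcd hF1.ap hF1.eq hF2 hlo (by rw [hh]; exact hpi) (by rw [hh]; exact hhi) hR
    rwa [hh] at this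
  have hti := (htp i).2.2
  have htj := (htp j).2.2
  have hne : t i ≠ t j := fun h => hij (htinj h)
  rcases lt_or_gt_of_ne hne with h | h
  · exact ⟨_, hmem i hpi, _, hmem j hpj, by omega, by omega, by omega⟩
  · exact ⟨_, hmem j hpj, _, hmem i hpi, by omega, by omega, by omega⟩

end Pool.Agent.W33f
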