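import Pool.Agent.W_d33b62f_h37.Cheb

/-!
# MP_d33b62_nt, full question (helper20): auxiliary results for the final assembly
-/

set_option autoImplicit false

noncomputable section

open Finset Filter

namespace Pool.Agent.W33f

/-- Existence of the modulus. -/
theorem exists_W (w E : ℕ) (hw : 2 ≤ w) (hE2 : Nat.Coprime E 2) (hEw : ∀ p : ℕ, p.Prime → p ∣ E → p ≤ w) :
    ∃ W, Wok w W ∧ ∀ p : ℕ, p.Prime → p ∣ E → p * E ∣ W := by
  have hne : ∀ p : ℕ, p.Prime → p ∣ E → p ≠ 2 := by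
    rintro p _ h rfl
    have : 2 ∣ Nat.gcd E 2 := Nat.dvd_gcd h dvd_rfl
    rw [hE2] at this
    omega
  obtain ⟨Q, hQ⟩ : ∃ Q : ℕ, Q = ∏ p ∈ (range (w + 1)).filter (fun p => p.Prime ∧ p ≠ 2), p := ⟨_, rfl⟩
  have hQ1 : ∀ p : ℕ, p.Prime → (p ∣ Q ↔ p ≤ w ∧ p ≠ 2) := by
    intro p hp
    rw [hQ]
    constructor
    · intro h
      obtain ⟨q, hq, hpq⟩ := (Prime.dvd_finsetProd_iff hp.prime _).1 h
      rw [Finset.mem_filter, Finset.mem_range] at hq
      have := (Nat.prime_dvd_prime_iff_eq hp hq.2.1).1 hpq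
      subst this
      exact ⟨by omega, hq.2.2⟩
    · rintro ⟨h1, h2⟩
      refine Finset.dvd_prod_of_mem _ ?_
      rw [Finset.mem_filter, Finset.mem_range]
      exact ⟨by omega, hp, h2⟩
  refine ⟨8 * (Q * E), ⟨?_, dvd_mul_right _ _, ?_⟩, ?_⟩
  · intro p hp
    constructor
    · intro h
      rcases (Nat.Prime.dvd_mul hp).1 h with h | h
      · have h8 : p ∣ 2 := hp.dvd_of_dvd_pow (show p ∣ 2 ^ 3 by simpa using h)
        exact (Nat.le_of_dvd (by norm_num) h8).trans hw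
      · rcases (Nat.Prime.dvd_mul hp).1 h with h | h
        · exact ((hQ1 p hp).1 h).1
        · exact hEw p hp h
    · intro h
      by_cases h2 : p = 2
      · subst h2
        exact (show 2 ∣ 8 by norm_num).trans (dvd_mul_right _ _)
      · exact ((hQ1 p hp).2 ⟨h, h2⟩).trans ((dvd_mul_right _ _).trans (dvd_mul_left _ _))
  · intro h
    have h1 : 2 ∣ Q * E := by
      have : 8 * 2 ∣ 8 * (Q * E) := h
      exact (Nat.mul_dvd_mul_iff_left (by norm_num)).1 this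
    rcases (Nat.Prime.dvd_mul Nat.prime_two).1 h1 with h | h
    · exact ((hQ1 2 Nat.prime_two).1 h).2 rfl
    · exact hne 2 Nat.prime_two h rfl
  · intro p hp h
    refine Dvd.dvd.trans ?_ (dvd_mul_left _ 8)
    exact Nat.mul_dvd_mul ((hQ1 p hp).2 ⟨hEw p hp h, hne p hp h⟩) dvd_rfl

/-- Large `Y`. -/
theorem exists_Y (B' a N Y₁ : ℕ) : ∃ Y : ℕ, Y₁ ≤ Y ∧ N ≤ Y ∧ 3 ≤ Y ∧ 1 ≤ Real.log Y ∧ (a : ℝ) < Real.log Y ∧
    (Real.log Y) ^ B' < Y := by
  have hlog : Tendsto (fun Y : ℕ => Real.log Y) atTop atTop := Real.tendsto_log_atTop.comp tendsto_natCast_atTop_atTop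
  have h1 : ∀ᶠ Y : ℕ in atTop, 1 ≤ Real.log Y := hlog.eventually (eventually_ge_atTop 1)
  have h2 : ∀ᶠ Y : ℕ in atTop, (a : ℝ) < Real.log Y := hlog.eventually (eventually_gt_atTop _)
  have h3 : ∀ᶠ Y : ℕ in atTop, (Real.log Y) ^ B' < Y := by
    have h4 := (isLittleO_log_rpow_atTop (r := 1 / ((B' : ℝ) + 1)) (by positivity)).bound (c := 1) (by norm_num)
    have h5 := tendsto_natCast_atTop_atTop.eventually h4
    filter_upwards [h5, h1, eventually_gt_atTop 1] with Y h6 h7 h8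
    rw [one_mul, Real.norm_of_nonneg (by linarith), Real.norm_of_nonneg (by positivity)] at h6
    have hY : (1 : ℝ) < Y := by exact_mod_cast h8
    calc (Real.log Y) ^ B' ≤ ((Y : ℝ) ^ (1 / ((B' : ℝ) + 1))) ^ B' := by gcongr
      _ = (Y : ℝ) ^ (1 / ((B' : ℝ) + 1) * B') := by rw [Real.rpow_mul (by positivity), Real.rpow_natCast]
      _ < (Y : ℝ) ^ (1 : ℝ) := by
          apply Real.rpow_lt_rpow_of_exponent_lt hY
          rw [one_div, inv_mul_eq_div, div_lt_one (by positivity)]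
          linarith
      _ = Y := Real.rpow_one _
  obtain ⟨Y, h⟩ := ((((h1.and h2).and h3).and (eventually_ge_atTop Y₁)).and
    ((eventually_ge_atTop N).and (eventually_ge_atTop 3))).exists
  exact ⟨Y, h.1.2, h.2.1, h.2.2, h.1.1.1.1, h.1.1.1.2, h.1.1.2⟩

theorem Pw_mono (w : ℕ) {z z' : ℝ} (h : z ≤ z') : Pw w z ⊆ Pw w z' := by
  unfold Pw
  refine Finset.filter_subset_filter _ ?_
  exact Finset.range_mono (Nat.ceil_mono h)

/-- The point `ζ` which corresponds to `z`. -/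
theorem zeta_of {k : ℕ} {D : Dat k} (hD : D.ok) {xi z : ℤ × ℤ} {n : ℤ} (hz : z ∈ D.ZS xi n) :
    Int.gcd (z.1 - z.2) (z.1 + z.2) = 1 ∧ (D.a xi : ℤ) ∣ xi.1 * (z.1 + z.2) - xi.2 * (z.1 - z.2) ∧
      nm (z.1 - z.2, z.1 + z.2) = n + D.h D.i + D.a xi := by
  obtain ⟨h1, h2, _, h4, h5, h6⟩ := hz
  refine ⟨?_, ?_, ?_⟩
  · -- `z.1 + z.2` is odd
    have h2W : (2 : ℤ) ∣ D.W := by
      have : (8 : ℤ) ∣ D.W := by exact_mod_cast hD.wok.2.1
      exact (show (2 : ℤ) ∣ 8 by norm_num).trans this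
    have h7 : z.1 ≡ D.rho.1 [ZMOD 2] := h1.of_dvd h2W
    have h8 : z.2 ≡ D.rho.2 [ZMOD 2] := h2.of_dvd h2W
    have h9 : ¬ (2 : ℤ) ∣ nm D.rho := by
      intro h
      have := hD.hrhoN.isUnit_of_dvd' h h2W
      exact absurd this (by decide)
    have h10 : ¬ (2 : ℤ) ∣ nm z := by
      intro h
      apply h9
      have h11 : nm z ≡ nm D.rho [ZMOD 2] := (h7.pow 2).add (h8.pow 2)
      unfold Int.ModEq at h11
      omega
    have hodd : ¬ (2 : ℤ) ∣ z.1 + z.2 := by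
      intro h
      apply h10
      have : nm z = (z.1 + z.2) * (z.1 + z.2) - 2 * (z.1 * z.2) := by
        simp only [nm]
        ring
      rw [this]
      exact dvd_sub (h.mul_right _) (dvd_mul_right _ _)
    by_contra hne
    obtain ⟨p, hp, hpd⟩ := Nat.exists_prime_and_dvd hne
    have hp1 : (p : ℤ) ∣ z.1 - z.2 := (Int.natCast_dvd_natCast.2 hpd).trans (Int.gcd_dvd_left ..)
    have hp2 : (p : ℤ) ∣ z.1 + z.2 := (Int.natCast_dvd_natCast.2 hpd).trans (Int.gcd_dvd_right ..)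
    have hp3 : p ≠ 2 := by
      rintro rfl
      exact hodd (by exact_mod_cast hp2)
    have hcop : IsCoprime (p : ℤ) 2 := by
      have : Nat.Coprime p 2 := (Nat.coprime_primes hp Nat.prime_two).2 hp3
      exact_mod_cast Nat.isCoprime_iff_coprime.2 this
    have hp4 : (p : ℤ) ∣ z.1 := by
      refine hcop.dvd_of_dvd_mul_left ?_
      have : 2 * z.1 = (z.1 - z.2) + (z.1 + z.2) := by ring
      rw [this]
      exact dvd_add hp1 hp2
    have hp5 : (p : ℤ) ∣ z.2 := by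
      have : z.2 = (z.1 + z.2) - z.1 := by ring
      rw [this]
      exact dvd_sub hp2 hp4
    have hp6 : (p : ℤ) ∣ (Int.gcd z.1 z.2 : ℕ) := Int.dvd_coe_gcd hp4 hp5
    rw [h4] at hp6
    have : p ∣ 1 := by exact_mod_cast hp6
    exact hp.one_lt.ne' (Nat.dvd_one.1 this)
  · have : xi.1 * (z.1 + z.2) - xi.2 * (z.1 - z.2) = (xi.1 - xi.2) * z.1 + (xi.1 + xi.2) * z.2 := by ring
    rw [this]
    exact h5
  · rw [← h6]
    simp only [nm]
    ring

end Pool.Agent.W33f
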