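import Pool.Agent.W_d33b62f_h37.Df

/-!
# MP_d33b62_nt, full question: T6, points with `a ∣ ⟨w, v⟩ ≠ 0` in a disc (helper53)
-/

set_option autoImplicit false

noncomputable section

open Finset

namespace Pool.Agent.W33f

/-- inner product -/
def ip (w v : ℤ × ℤ) : ℤ := w.1 * v.1 + w.2 * v.2

theorem nm_nonneg (z : ℤ × ℤ) : 0 ≤ nm z := by unfold nm; positivity

theorem nm_pos {z : ℤ × ℤ} (h : z ≠ 0) : 0 < nm z := by
  unfold nm
  by_contra hc
  push Not at hc
  have h1 : z.1 = 0 := by nlinarith [sq_nonneg z.1, sq_nonneg z.2]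
  have h2 : z.2 = 0 := by nlinarith [sq_nonneg z.1, sq_nonneg z.2]
  exact h (Prod.ext h1 h2)

/-- The points of norm `≤ T`, `a ∣ ⟨w, v⟩ ≠ 0`. -/
def LS (a : ℕ) (w : ℤ × ℤ) (T : ℕ) : Set (ℤ × ℤ) := {v | nm v ≤ T ∧ (a : ℤ) ∣ ip w v ∧ ip w v ≠ 0}

theorem disc_finite (T : ℕ) : {v : ℤ × ℤ | nm v ≤ T}.Finite := by
  refine ((Finset.Icc (-(T : ℤ)) T) ×ˢ (Finset.Icc (-(T : ℤ)) T)).finite_toSet.subset ?_
  intro v hv
  simp only [Set.mem_ofPred_eq, nm] at hv
  simp only [coe_product, coe_Icc, Set.mem_prod, Set.mem_Icc]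
  have h1 : v.1 ^ 2 ≤ T := by nlinarith [sq_nonneg v.2]
  have h2 : v.2 ^ 2 ≤ T := by nlinarith [sq_nonneg v.1]
  refine ⟨⟨?_, ?_⟩, ⟨?_, ?_⟩⟩ <;> nlinarith

theorem LS_finite (a : ℕ) (w : ℤ × ℤ) (T : ℕ) : (LS a w T).Finite :=
  (disc_finite T).subset fun _ hv => hv.1

theorem ip_sq (w v : ℤ × ℤ) : (ip w v) ^ 2 + (ip (-w.2, w.1) v) ^ 2 = nm w * nm v := by
  unfold ip nm; ring

/-- **The count of points off the line.** -/
theorem LS_card (a : ℕ) (ha : 0 < a) (w : ℤ × ℤ) (hw : IsCoprime w.1 w.2) (hw2 : nm w ≤ 2 * a) (T : ℕ) :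
    ((LS a w T).ncard : ℝ) ≤ 12 * T / a := by
  rcases (LS a w T).eq_empty_or_nonempty with he | ⟨v0, hv0⟩
  · rw [he, Set.ncard_empty, Nat.cast_zero]; positivity
  have haR : (0 : ℝ) < a := by exact_mod_cast ha
  have hwne : w ≠ 0 := by
    rintro rfl
    simp [isCoprime_zero_left] at hw
  have hwp : 0 < nm w := nm_pos hwne
  have hwR : (0 : ℝ) < (nm w : ℝ) := by exact_mod_cast hwp
  have hw2R : (nm w : ℝ) ≤ 2 * a := by exact_mod_cast hw2
  have hkey : ∀ v ∈ LS a w T, (ip w v : ℝ) ^ 2 + (ip (-w.2, w.1) v : ℝ) ^ 2 ≤ nm w * T := by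
    intro v hv
    have h1 := ip_sq w v
    have h2 : nm w * nm v ≤ nm w * T := mul_le_mul_of_nonneg_left hv.1 hwp.le
    rw [← h1] at h2
    exact_mod_cast h2
  -- nonempty
  have haT : (a : ℝ) ≤ 2 * T := by
    have h1 := hkey v0 hv0
    obtain ⟨m, hm⟩ := hv0.2.1
    have hm0 : m ≠ 0 := by rintro rfl; exact hv0.2.2 (by simpa using hm)
    have h2 : (1 : ℝ) ≤ (m : ℝ) ^ 2 := by
      have : (1 : ℤ) ≤ m ^ 2 := by
        have := sq_nonneg m
        have h3 : m ^ 2 ≠ 0 := pow_ne_zero 2 hm0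
        omega
      exact_mod_cast this
    have h3 : (ip w v0 : ℝ) = a * m := by exact_mod_cast hm
    rw [h3] at h1
    have h4 : (a : ℝ) ^ 2 ≤ (a * m : ℝ) ^ 2 := by
      rw [mul_pow]
      nlinarith [sq_nonneg (a : ℝ)]
    have h5 : (a : ℝ) ^ 2 ≤ 2 * a * T := by
      have hT : (0 : ℝ) ≤ T := Nat.cast_nonneg T
      nlinarith [sq_nonneg (ip (-w.2, w.1) v0 : ℝ), mul_le_mul_of_nonneg_right hw2R hT]
    nlinarith
  set S := Real.sqrt (nm w * T) with hS
  have hTR : (0 : ℝ) ≤ T := Nat.cast_nonneg T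
  have hS0 : 0 ≤ S := Real.sqrt_nonneg _
  have hS2 : S ^ 2 = nm w * T := Real.sq_sqrt (by positivity)
  set M := ⌊S / a⌋₊ with hM
  set U := ⌊S / nm w⌋₊ with hU
  -- the target set
  set P : Finset (ℤ × ℤ) := ((Finset.Icc (-(M : ℤ)) M).erase 0) ×ˢ (Finset.Icc (-(U : ℤ) - 1) U) with hP
  have hcard : (LS a w T).ncard ≤ P.card := by
    rw [← Set.ncard_coe_finset]
    refine Set.ncard_le_ncard_of_injOn (fun v => (ip w v / a, ip (-w.2, w.1) v / nm w)) ?_ ?_ (Finset.finite_toSet _)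
    · intro v hv
      have h1 := hkey v hv
      obtain ⟨m, hm⟩ := hv.2.1
      have hm0 : m ≠ 0 := by rintro rfl; exact hv.2.2 (by simpa using hm)
      have haZ : (a : ℤ) ≠ 0 := by exact_mod_cast ha.ne'
      have hdiv : ip w v / (a : ℤ) = m := by rw [hm]; exact Int.mul_ediv_cancel_left _ haZ
      have h3 : (ip w v : ℝ) = a * m := by exact_mod_cast hm
      simp only [hP, coe_product, Set.mem_prod, mem_coe, mem_erase, Finset.mem_Icc, hdiv]
      refine ⟨⟨hm0, ?_⟩, ?_⟩
      · have h4 : |(a : ℝ) * m| ≤ S := by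
          rw [← h3]
          apply Real.abs_le_sqrt
          nlinarith [sq_nonneg (ip (-w.2, w.1) v : ℝ)]
        have h5 : |(m : ℝ)| ≤ S / a := by
          rw [le_div_iff₀ haR, mul_comm]
          rwa [abs_mul, abs_of_pos haR] at h4
        have h6 : m.natAbs ≤ M := by
          rw [hM]
          apply Nat.le_floor
          rw [Nat.cast_natAbs]
          exact_mod_cast h5
        constructor <;> omega
      · have h4 : |(ip (-w.2, w.1) v : ℝ)| ≤ S := by
          apply Real.abs_le_sqrt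
          nlinarith [sq_nonneg (ip w v : ℝ)]
        rw [abs_le] at h4
        have h5 : S / nm w < U + 1 := Nat.lt_floor_add_one _
        have h6 : S < (U + 1) * nm w := by rwa [div_lt_iff₀ hwR] at h5
        constructor
        · rw [Int.le_ediv_iff_mul_le hwp]
          have h7 : (-((U : ℝ) + 1) * nm w) ≤ ip (-w.2, w.1) v := by nlinarith [h4.1]
          have h8 : (-((U : ℤ) + 1) * nm w) ≤ ip (-w.2, w.1) v := by exact_mod_cast h7
          calc (-(U : ℤ) - 1) * nm w = -((U : ℤ) + 1) * nm w := by ring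
            _ ≤ _ := h8
        · have h7 : (ip (-w.2, w.1) v : ℝ) < (U + 1) * nm w := lt_of_le_of_lt h4.2 h6
          have h8 : ip (-w.2, w.1) v < ((U : ℤ) + 1) * nm w := by exact_mod_cast h7
          have h9 := Int.ediv_lt_of_lt_mul hwp h8
          omega
    · intro v hv v' hv' hvv
      simp only [Prod.mk.injEq] at hvv
      obtain ⟨hv1, hv2⟩ := hvv
      obtain ⟨m, hm⟩ := hv.2.1
      obtain ⟨m', hm'⟩ := hv'.2.1
      have haZ : (a : ℤ) ≠ 0 := by exact_mod_cast ha.ne'
      rw [hm, hm', Int.mul_ediv_cancel_left _ haZ, Int.mul_ediv_cancel_left _ haZ] at hv1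
      subst hv1
      have h1 : w.1 * (v.1 - v'.1) = w.2 * (v'.2 - v.2) := by
        have : ip w v = ip w v' := by rw [hm, hm']
        unfold ip at this
        linarith
      have h2 : w.2 ∣ v.1 - v'.1 := hw.symm.dvd_of_dvd_mul_left (Dvd.intro _ h1.symm)
      obtain ⟨k, hk⟩ := h2
      have h3 : w.1 ∣ v'.2 - v.2 := hw.dvd_of_dvd_mul_left (Dvd.intro _ h1)
      obtain ⟨l, hl⟩ := h3
      -- `k = l` or trivial
      have hkl : w.1 * w.2 * k = w.1 * w.2 * l := by
        rw [hk, hl] at h1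
        linarith
      have hex : ∃ j : ℤ, v.1 - v'.1 = w.2 * j ∧ v'.2 - v.2 = w.1 * j := by
        by_cases hz1 : w.1 = 0
        · refine ⟨k, hk, ?_⟩
          rw [hl, hz1]; ring
        · by_cases hz2 : w.2 = 0
          · refine ⟨l, ?_, hl⟩
            rw [hk, hz2]; ring
          · have : k = l := mul_left_cancel₀ (mul_ne_zero hz1 hz2) hkl
            exact ⟨k, hk, by rw [this]; exact hl⟩
      obtain ⟨j, hj1, hj2⟩ := hex
      have h4 : ip (-w.2, w.1) v = ip (-w.2, w.1) v' + nm w * (-j) := by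
        unfold ip nm
        have e1 : v.1 = v'.1 + w.2 * j := by linarith
        have e2 : v.2 = v'.2 - w.1 * j := by linarith
        simp only [e1, e2]; ring
      rw [h4, Int.add_mul_ediv_left _ _ hwp.ne'] at hv2
      have hj : j = 0 := by omega
      subst hj
      refine Prod.ext ?_ ?_
      · linarith
      · linarith
  -- the numbers
  have hPc : (P.card : ℝ) ≤ 2 * M * (2 * U + 2) := by
    have h1 : P.card = 2 * M * (2 * U + 2) := by
      rw [hP, card_product, card_erase_of_mem (by simp), Int.card_Icc, Int.card_Icc]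
      congr 1
      · omega
      · omega
    rw [h1]; push_cast; exact le_rfl
  have hMle : (M : ℝ) ≤ S / a := Nat.floor_le (by positivity)
  have hUle : (U : ℝ) ≤ S / nm w := Nat.floor_le (by positivity)
  have hSle : S ≤ 2 * T := by
    apply Real.sqrt_le_iff.2
    refine ⟨by positivity, ?_⟩
    nlinarith
  calc ((LS a w T).ncard : ℝ) ≤ P.card := by exact_mod_cast hcard
    _ ≤ 2 * M * (2 * U + 2) := hPc
    _ ≤ 2 * (S / a) * (2 * (S / nm w) + 2) := by
        apply mul_le_mul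
        · linarith
        · linarith
        · positivity
        · positivity
    _ = 4 * (S ^ 2 / nm w) / a + 4 * S / a := by
        field_simp; ring
    _ = 4 * T / a + 4 * S / a := by
        rw [hS2]
        field_simp
    _ ≤ 4 * T / a + 4 * (2 * T) / a := by
        have : 4 * S / a ≤ 4 * (2 * T) / a := div_le_div_of_nonneg_right (by linarith) haR.le
        linarith
    _ = 12 * T / a := by ring

end Pool.Agent.W33f
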