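import Pool.Agent.W_d33b62f_h37.Of1

/-!
# MP_d33b62_nt, full question: T6, the count of pairs off the lines (helper53)
-/

set_option autoImplicit false

noncomputable section

open Finset

namespace Pool.Agent.W33f

/-- Partial summation. -/
theorem sum_inv_le {ι : Type*} (S : Finset ι) (f : ι → ℕ) (hf : ∀ v ∈ S, 1 ≤ f v) (K : ℝ) (hK : 0 ≤ K)
    (h : ∀ t : ℕ, 1 ≤ t → ((S.filter fun v => f v ≤ t).card : ℝ) ≤ K * t) (X : ℕ) :
    ∑ v ∈ S.filter (fun v => f v ≤ X), (1 : ℝ) / f v ≤ K * harmonic X := by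
  classical
  have hid : ∀ X : ℕ, ∑ v ∈ S.filter (fun v => f v ≤ X + 1), (1 : ℝ) / f v =
      ((S.filter fun v => f v ≤ X + 1).card : ℝ) / (X + 1 : ℕ) +
        ∑ t ∈ range X, ((S.filter fun v => f v ≤ t + 1).card : ℝ) / ((t + 1) * (t + 2)) := by
    intro X
    induction X with
    | zero =>
      rw [range_zero, sum_empty, add_zero]
      have : ∀ v ∈ S.filter (fun v => f v ≤ 0 + 1), (1 : ℝ) / f v = 1 := by
        intro v hv
        rw [mem_filter] at hv
        have : f v = 1 := le_antisymm hv.2 (hf v hv.1)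
        rw [this]; norm_num
      rw [sum_congr rfl this]
      simp
    | succ n ih =>
      have hsplit : S.filter (fun v => f v ≤ n + 1 + 1) =
          (S.filter fun v => f v ≤ n + 1) ∪ (S.filter fun v => f v = n + 2) := by
        ext v
        simp only [mem_filter, mem_union]
        constructor
        · rintro ⟨h1, h2⟩
          by_cases h3 : f v ≤ n + 1
          · exact Or.inl ⟨h1, h3⟩
          · exact Or.inr ⟨h1, by omega⟩
        · rintro (⟨h1, h2⟩ | ⟨h1, h2⟩)
          · exact ⟨h1, by omega⟩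
          · exact ⟨h1, by omega⟩
      have hdisj : Disjoint (S.filter fun v => f v ≤ n + 1) (S.filter fun v => f v = n + 2) := by
        rw [disjoint_left]
        intro v h1 h2
        rw [mem_filter] at h1 h2
        omega
      rw [hsplit, sum_union hdisj, card_union_of_disjoint hdisj, ih, sum_range_succ]
      have h2 : ∑ v ∈ S.filter (fun v => f v = n + 2), (1 : ℝ) / f v =
          ((S.filter fun v => f v = n + 2).card : ℝ) * (1 / ((n : ℝ) + 2)) := by
        rw [← nsmul_eq_mul, ← sum_const]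
        apply sum_congr rfl
        intro v hv
        rw [mem_filter] at hv
        rw [hv.2]; push_cast; ring
      rw [h2]
      push_cast
      have h3 : ((n : ℝ) + 1) ≠ 0 := by positivity
      have h4 : ((n : ℝ) + 2) ≠ 0 := by positivity
      have h5 : ((n : ℝ) + 1 + 1) ≠ 0 := by positivity
      field_simp
      ring
  rcases X with _ | X
  · have : S.filter (fun v => f v ≤ 0) = ∅ := by
      rw [filter_eq_empty_iff]
      intro v hv
      have := hf v hv
      omega
    rw [this]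
    simp
  · rw [hid]
    have h1 : ((S.filter fun v => f v ≤ X + 1).card : ℝ) / (X + 1 : ℕ) ≤ K := by
      rw [div_le_iff₀ (by positivity)]
      exact h (X + 1) (by omega)
    have h2 : ∑ t ∈ range X, ((S.filter fun v => f v ≤ t + 1).card : ℝ) / ((t + 1) * (t + 2)) ≤
        ∑ t ∈ range X, K * (1 / ((t : ℝ) + 2)) := by
      apply sum_le_sum
      intro t _
      have h3 := h (t + 1) (by omega)
      rw [div_le_iff₀ (by positivity)]
      calc ((S.filter fun v => f v ≤ t + 1).card : ℝ) ≤ K * (t + 1 : ℕ) := h3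
        _ = K * (1 / ((t : ℝ) + 2)) * ((t + 1) * (t + 2)) := by
          push_cast; field_simp
    have h3 : (harmonic (X + 1) : ℝ) = 1 + ∑ t ∈ range X, (1 / ((t : ℝ) + 2)) := by
      unfold harmonic
      rw [sum_range_succ']
      push_cast
      rw [add_comm]
      congr 1
      · norm_num
      · apply sum_congr rfl
        intro t _
        rw [one_div]
        congr 1
        ring
    rw [h3, mul_add, mul_one, mul_sum]
    linarith

/-- pairs -/
def LP (a : ℕ) (w w' : ℤ × ℤ) (X : ℕ) : Set ((ℤ × ℤ) × (ℤ × ℤ)) :=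
  {p | nm p.1 * nm p.2 ≤ X ∧ (a : ℤ) ∣ ip w p.1 ∧ ip w p.1 ≠ 0 ∧ (a : ℤ) ∣ ip w' p.2 ∧ ip w' p.2 ≠ 0}

theorem LP_card (a : ℕ) (ha : 0 < a) (w w' : ℤ × ℤ) (hw : IsCoprime w.1 w.2) (hw2 : nm w ≤ 2 * a)
    (hw' : IsCoprime w'.1 w'.2) (hw2' : nm w' ≤ 2 * a) (X : ℕ) :
    (LP a w w' X).Finite ∧ ((LP a w w' X).ncard : ℝ) ≤ 144 * X * harmonic X / a ^ 2 := by
  classical
  set S : Finset (ℤ × ℤ) := (LS_finite a w X).toFinset with hS
  have hmS : ∀ v, v ∈ S ↔ v ∈ LS a w X := fun v => by rw [hS, Set.Finite.mem_toFinset]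
  have hpos : ∀ v : ℤ × ℤ, ∀ u : ℤ × ℤ, ip u v ≠ 0 → 0 < nm v := by
    intro v u h
    apply nm_pos
    rintro rfl
    apply h
    simp [ip]
  have hposS : ∀ v ∈ S, 0 < nm v := fun v hv => hpos v w ((hmS v).1 hv).2.2
  set F : (ℤ × ℤ) → Finset ((ℤ × ℤ) × (ℤ × ℤ)) := fun v =>
    {v} ×ˢ (LS_finite a w' (X / (nm v).toNat)).toFinset with hF
  have hsub : LP a w w' X ⊆ (S.biUnion F : Finset ((ℤ × ℤ) × (ℤ × ℤ))) := by
    intro p hp
    obtain ⟨h1, h2, h3, h4, h5⟩ := hp
    have h6 := hpos _ _ h3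
    have h7 := hpos _ _ h5
    rw [mem_coe, mem_biUnion]
    refine ⟨p.1, (hmS _).2 ⟨?_, h2, h3⟩, ?_⟩
    · nlinarith
    · rw [hF]
      simp only [mem_product, mem_singleton, Set.Finite.mem_toFinset, true_and]
      refine ⟨?_, h4, h5⟩
      push_cast
      rw [Int.le_ediv_iff_mul_le (by omega)]
      rw [Int.toNat_of_nonneg h6.le]
      nlinarith
  refine ⟨(Finset.finite_toSet _).subset hsub, ?_⟩
  have haR : (0 : ℝ) < a := by exact_mod_cast ha
  have h1 : ((LP a w w' X).ncard : ℝ) ≤ ∑ v ∈ S, ((F v).card : ℝ) := by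
    have h2 : (LP a w w' X).ncard ≤ (S.biUnion F).card := by
      rw [← Set.ncard_coe_finset]
      exact Set.ncard_le_ncard hsub (Finset.finite_toSet _)
    calc ((LP a w w' X).ncard : ℝ) ≤ ((S.biUnion F).card : ℝ) := by exact_mod_cast h2
      _ ≤ ∑ v ∈ S, ((F v).card : ℝ) := by exact_mod_cast card_biUnion_le
  have h2 : ∀ v ∈ S, ((F v).card : ℝ) ≤ 12 * X / a * (1 / ((nm v).toNat : ℝ)) := by
    intro v hv
    have h3 := hposS v hv
    have h4 : 0 < (nm v).toNat := by omega
    have h4' : (0 : ℝ) < ((nm v).toNat : ℝ) := by exact_mod_cast h4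
    rw [hF]
    simp only [card_product, card_singleton, one_mul]
    have h5 := LS_card a ha w' hw' hw2' (X / (nm v).toNat)
    rw [Set.ncard_eq_toFinset_card _ (LS_finite a w' (X / (nm v).toNat))] at h5
    have h6 : ((X / (nm v).toNat : ℕ) : ℝ) ≤ X / (nm v).toNat := Nat.cast_div_le
    calc _ ≤ 12 * ((X / (nm v).toNat : ℕ) : ℝ) / a := h5
      _ ≤ 12 * (X / (nm v).toNat) / a := by
        apply div_le_div_of_nonneg_right _ haR.le
        linarith
      _ = 12 * X / a * (1 / ((nm v).toNat : ℝ)) := by ring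
  have h3 : ∑ v ∈ S, (1 / ((nm v).toNat : ℝ)) ≤ 12 / a * harmonic X := by
    have h4 := sum_inv_le S (fun v => (nm v).toNat) (fun v hv => by have := hposS v hv; omega) (12 / a)
      (by positivity) ?_ X
    · have h5 : S.filter (fun v => (nm v).toNat ≤ X) = S := by
        rw [filter_eq_self]
        intro v hv
        have := ((hmS v).1 hv).1
        omega
      rw [h5] at h4
      exact h4
    · intro t _
      have h6 : (S.filter fun v => (nm v).toNat ≤ t).card ≤ (LS a w t).ncard := by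
        rw [← Set.ncard_coe_finset]
        apply Set.ncard_le_ncard _ (LS_finite a w t)
        intro v hv
        rw [mem_coe, mem_filter] at hv
        have h7 := ((hmS v).1 hv.1)
        refine ⟨?_, h7.2⟩
        have := hv.2
        omega
      calc ((S.filter fun v => (nm v).toNat ≤ t).card : ℝ) ≤ ((LS a w t).ncard : ℝ) := by exact_mod_cast h6
        _ ≤ 12 * t / a := LS_card a ha w hw hw2 t
        _ = 12 / a * t := by ring
  calc ((LP a w w' X).ncard : ℝ) ≤ ∑ v ∈ S, ((F v).card : ℝ) := h1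
    _ ≤ ∑ v ∈ S, 12 * X / a * (1 / ((nm v).toNat : ℝ)) := sum_le_sum h2
    _ = 12 * X / a * ∑ v ∈ S, (1 / ((nm v).toNat : ℝ)) := by rw [mul_sum]
    _ ≤ 12 * X / a * (12 / a * harmonic X) := mul_le_mul_of_nonneg_left h3 (by positivity)
    _ = 144 * X * harmonic X / a ^ 2 := by
      field_simp; ring

end Pool.Agent.W33f
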