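import Pool.Agent.W_d33b62f_h37.Df

/-!
# MP_d33b62_nt, full question (helper37): T6, the count of pairs off the lines
-/

set_option autoImplicit false

noncomputable section

open Finset

namespace Pool.Agent.W33f

/-- The four linear forms `x, y, x + y, x - y`. -/
def lf (j : Fin 4) (z : ℤ × ℤ) : ℤ := if j = 0 then z.1 else if j = 1 then z.2 else if j = 2 then z.1 + z.2 else z.1 - z.2

/-- conjugate -/
def cj (z : ℤ × ℤ) : ℤ × ℤ := (z.1, -z.2)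

/-- **OFF.** `a ∣ ℓ (conj G g)`, `a ∣ ℓ' (conj V v)`, both `≠ 0`: at most `C X (1 + log X) / a ^ 2` pairs `(g, v)` with
`nm g nm v ≤ X`.

Proof. `N_v(r) := #{v : nm v ≤ r ^ 2, a ∣ ℓ' (conj V v) ≠ 0}`. `|ℓ' (conj V v)| ≤ √2 |V| r`, so the value is `m a`,
`0 < |m| ≤ √2 |V| r / a`, in particular `r ≥ a / (2 |V|)` if the set is not empty; for every `m` the solutions `v` of
`ℓ' (conj V v) = m a` lie on a line, two of them differ by a multiple of a vector of length `≥ |V| / 2` (`V` primitive), so there are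
`≤ C (r / |V| + 1)`. So `N_v(r) ≤ C (r ^ 2 / a + |V| r / a)`. The same for `g`. Sum over dyadic `r ~ |v|`, `|g| ≤ √X / r`:
`∑_r a ^ -2 (r ^ 2 + |V| r) (X / r ^ 2 + |G| √X / r)`; the cross terms: `|V| X / r ≤ 2 |V| ^ 2 X / a ≤ 2 X` by `r ≥ a / (2 |V|)`,
the same for `|G| √X r` by `√X / r ≥ a / (2 |G|)`, and `|V| |G| √X ≤ √a √X ≤ ..`: nonempty implies
`√X ≥ |g| |v| ≥ a ^ 2 / (4 |G| |V|) ≥ a ^ (3/2) / 4`. -/
theorem OFF : ∃ C : ℝ, 0 < C ∧ ∀ (a : ℕ) (X : ℕ) (G V : ℤ × ℤ) (j j' : Fin 4), a.Prime → a ≠ 2 → 2 ≤ X →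
    Int.gcd G.1 G.2 = 1 → Int.gcd V.1 V.2 = 1 → nm G * nm V ≤ a →
      (({p : (ℤ × ℤ) × (ℤ × ℤ) | p.1 ≠ 0 ∧ p.2 ≠ 0 ∧ nm p.1 * nm p.2 ≤ X ∧ (a : ℤ) ∣ lf j (gm (cj G) p.1) ∧
        lf j (gm (cj G) p.1) ≠ 0 ∧ (a : ℤ) ∣ lf j' (gm (cj V) p.2) ∧ lf j' (gm (cj V) p.2) ≠ 0}).ncard : ℝ) ≤
        C * X * Real.log X / a ^ 2 := by
  sorry

/-- **OFF2.** `a ∣ g` (as Gaussian integers). -/
theorem OFF2 : ∃ C : ℝ, 0 < C ∧ ∀ (a : ℕ) (X : ℕ), 1 ≤ a → 2 ≤ X →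
      (({p : (ℤ × ℤ) × (ℤ × ℤ) | p.1 ≠ 0 ∧ p.2 ≠ 0 ∧ nm p.1 * nm p.2 ≤ X ∧ (a : ℤ) ∣ p.1.1 ∧ (a : ℤ) ∣ p.1.2}).ncard : ℝ) ≤
        C * X * Real.log X / a ^ 2 := by
  sorry

end Pool.Agent.W33f
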