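import Pool.Agent.W_d33b62f_h37.Df

/-!
# MP_d33b62_nt, full question (helper20): residues of `z` with prescribed norm
-/

set_option autoImplicit false

noncomputable section

open Finset

namespace Pool.Agent.W33f

private def Prh (N m : ℤ) : Prop := ∃ x y : ℤ, x ^ 2 + y ^ 2 ≡ N [ZMOD m] ∧ IsCoprime x m

private theorem Prh_mul {N a b : ℤ} (hab : IsCoprime a b) (h1 : Prh N a) (h2 : Prh N b) : Prh N (a * b) := by
  obtain ⟨x1, y1, e1, c1⟩ := h1
  obtain ⟨x2, y2, e2, c2⟩ := h2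
  obtain ⟨u, v, huv⟩ := hab
  have key : ∀ s t : ℤ, s * (v * b) + t * (u * a) ≡ s [ZMOD a] ∧ s * (v * b) + t * (u * a) ≡ t [ZMOD b] := by
    intro s t
    constructor
    · apply Int.ModEq.symm
      rw [Int.modEq_iff_dvd]
      refine ⟨(t - s) * u, ?_⟩
      linear_combination s * huv
    · apply Int.ModEq.symm
      rw [Int.modEq_iff_dvd]
      refine ⟨(s - t) * v, ?_⟩
      linear_combination t * huv
  obtain ⟨kx1, kx2⟩ := key x1 x2
  obtain ⟨ky1, ky2⟩ := key y1 y2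
  have cop : ∀ {x x' m : ℤ}, x ≡ x' [ZMOD m] → IsCoprime x' m → IsCoprime x m := by
    intro x x' m h hc
    obtain ⟨k, hk⟩ := (Int.modEq_iff_dvd.1 h)
    have : x' = x + m * k := by linarith
    rw [this] at hc
    exact IsCoprime.of_add_mul_left_left hc
  refine ⟨x1 * (v * b) + x2 * (u * a), y1 * (v * b) + y2 * (u * a), ?_,
    IsCoprime.mul_right (cop kx1 c1) (cop kx2 c2)⟩
  exact Int.modEq_iff_dvd.2 (IsCoprime.mul_dvd ⟨u, v, huv⟩
    (Int.modEq_iff_dvd.1 (((kx1.pow 2).add (ky1.pow 2)).trans e1))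
    (Int.modEq_iff_dvd.1 (((kx2.pow 2).add (ky2.pow 2)).trans e2)))

private theorem Prh_two {N : ℤ} (h4 : N % 4 = 1) (n : ℕ) (hn : n ≤ 4) : Prh N ((2 : ℤ) ^ n) := by
  have hd : (2 : ℤ) ^ n ∣ 16 := by
    have : (16 : ℤ) = 2 ^ 4 := by norm_num
    rw [this]
    exact pow_dvd_pow 2 hn
  have h16 : ∃ x y : ℤ, x ^ 2 + y ^ 2 ≡ N [ZMOD 16] ∧ (x = 1 ∨ x = 3) := by
    have h : N % 16 = 1 ∨ N % 16 = 5 ∨ N % 16 = 9 ∨ N % 16 = 13 := by omega
    unfold Int.ModEq
    rcases h with h | h | h | h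
    · exact ⟨1, 0, by rw [h]; norm_num, Or.inl rfl⟩
    · exact ⟨1, 2, by rw [h]; norm_num, Or.inl rfl⟩
    · exact ⟨3, 0, by rw [h]; norm_num, Or.inr rfl⟩
    · exact ⟨3, 2, by rw [h]; norm_num, Or.inr rfl⟩
  obtain ⟨x, y, e, hx⟩ := h16
  refine ⟨x, y, e.of_dvd hd, IsCoprime.pow_right ?_⟩
  rcases hx with rfl | rfl
  · exact isCoprime_one_left
  · exact ⟨1, -1, by norm_num⟩

private theorem Prh_odd {N : ℤ} {p : ℕ} (hp : p.Prime) (h2 : p ≠ 2) (hN : ¬ (p : ℤ) ∣ N) (n : ℕ) (hn : 0 < n) :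
    Prh N ((p : ℤ) ^ n) := by
  have := Fact.mk hp
  have hpi : Prime (p : ℤ) := Nat.prime_iff_prime_int.1 hp
  -- a solution mod `p`
  have h1 : ∃ x y : ℤ, x ^ 2 + y ^ 2 ≡ N [ZMOD p] ∧ ¬ (p : ℤ) ∣ x := by
    obtain ⟨a, b, hab⟩ := ZMod.sq_add_sq p (N : ZMod p)
    have hN' : (N : ZMod p) ≠ 0 := by
      rw [Ne, ZMod.intCast_zmod_eq_zero_iff_dvd]
      exact hN
    have key : ∀ a b : ZMod p, a ^ 2 + b ^ 2 = N → a ≠ 0 → ∃ x y : ℤ, x ^ 2 + y ^ 2 ≡ N [ZMOD p] ∧ ¬ (p : ℤ) ∣ x := by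
      intro a b h ha
      refine ⟨a.val, b.val, ?_, ?_⟩
      · rw [← ZMod.intCast_eq_intCast_iff]
        push_cast
        rw [ZMod.natCast_zmod_val, ZMod.natCast_zmod_val, h]
      · rw [← ZMod.intCast_zmod_eq_zero_iff_dvd]
        push_cast
        rwa [ZMod.natCast_zmod_val]
    by_cases ha : a = 0
    · have hb : b ≠ 0 := by
        rintro rfl
        apply hN'
        rw [← hab, ha]
        ring
      exact key b a (by rw [← hab]; ring) hb
    · exact key a b hab ha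
  obtain ⟨x₀, y, e0, hx0⟩ := h1
  -- lifting
  have h3 : ∀ m : ℕ, ∃ x : ℤ, x ^ 2 + y ^ 2 ≡ N [ZMOD ((p : ℤ) ^ (m + 1))] ∧ ¬ (p : ℤ) ∣ x := by
    intro m
    induction m with
    | zero => exact ⟨x₀, by rw [zero_add, pow_one]; exact e0, hx0⟩
    | succ m ih =>
      obtain ⟨x, e, hx⟩ := ih
      obtain ⟨c, hc⟩ := Int.modEq_iff_dvd.1 e
      -- `2 x t ≡ c mod p`
      have hcop : IsCoprime (2 * x) (p : ℤ) := by
        rw [isCoprime_comm, Prime.coprime_iff_not_dvd hpi]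
        intro h
        rcases hpi.dvd_or_dvd h with h | h
        · have : p ∣ 2 := by exact_mod_cast h
          exact h2 ((Nat.prime_dvd_prime_iff_eq hp Nat.prime_two).1 this)
        · exact hx h
      obtain ⟨u, v, huv⟩ := hcop
      refine ⟨x + p ^ (m + 1) * (u * c), ?_, ?_⟩
      · rw [Int.modEq_iff_dvd]
        refine ⟨v * c - p ^ m * (u * c) ^ 2, ?_⟩
        have hN2 : N = x ^ 2 + y ^ 2 + p ^ (m + 1) * c := by linarith
        rw [hN2]
        have e5 : (p : ℤ) ^ (m + 1 + 1) = p ^ (m + 1) * p := by ring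
        have e6 : (p : ℤ) ^ (m + 1) = p ^ m * p := by ring
        rw [e5]
        have : c = c * (u * (2 * x) + v * p) := by rw [huv, mul_one]
        calc x ^ 2 + y ^ 2 + (p : ℤ) ^ (m + 1) * c - ((x + (p : ℤ) ^ (m + 1) * (u * c)) ^ 2 + y ^ 2) =
            (p : ℤ) ^ (m + 1) * (c - 2 * x * (u * c) - (p : ℤ) ^ (m + 1) * (u * c) ^ 2) := by ring
          _ = (p : ℤ) ^ (m + 1) * (c * (u * (2 * x) + v * p) - 2 * x * (u * c) - (p : ℤ) ^ (m + 1) * (u * c) ^ 2) := by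
            rw [← this]
          _ = (p : ℤ) ^ (m + 1) * (c * (u * (2 * x) + v * p) - 2 * x * (u * c) - (p ^ m * p) * (u * c) ^ 2) := by
            rw [← e6]
          _ = _ := by ring
      · intro h
        apply hx
        have h5 : (p : ℤ) ∣ p ^ (m + 1) * (u * c) := (dvd_pow_self _ (Nat.succ_ne_zero m)).mul_right _
        exact (dvd_add_left h5).1 h
  obtain ⟨m, rfl⟩ : ∃ m, n = m + 1 := ⟨n - 1, by omega⟩
  obtain ⟨x, e, hx⟩ := h3 m
  refine ⟨x, y, e, IsCoprime.pow_right ?_⟩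
  rw [isCoprime_comm, Prime.coprime_iff_not_dvd hpi]
  exact hx

private theorem Prh_all {N : ℤ} (h4 : N % 4 = 1) (m : ℕ) : m ≠ 0 → ¬ 32 ∣ m → (∀ p : ℕ, p.Prime → p ∣ m → ¬ (p : ℤ) ∣ N) →
    Prh N (m : ℤ) := by
  induction m using Nat.recOnPosPrimePosCoprime with
  | zero => intro h; exact absurd rfl h
  | one =>
    intro _ _ _
    exact ⟨0, 0, by rw [Nat.cast_one]; exact Int.modEq_one, by rw [Nat.cast_one]; exact isCoprime_one_right⟩
  | prime_pow p n hp hn =>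
    intro _ h32 hN
    by_cases h2 : p = 2
    · subst h2
      push_cast
      refine Prh_two h4 n ?_
      by_contra hcon
      push Not at hcon
      exact h32 (pow_dvd_pow 2 (show 5 ≤ n from hcon))
    · push_cast
      exact Prh_odd hp h2 (hN p hp (dvd_pow_self p hn.ne')) n hn
  | coprime a b ha hb hab iha ihb =>
    intro h0 h32 hN
    push_cast
    refine Prh_mul (by exact_mod_cast Nat.isCoprime_iff_coprime.2 hab) (iha ?_ ?_ ?_) (ihb ?_ ?_ ?_)
    · omega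
    · exact fun h => h32 (h.mul_right b)
    · exact fun p hp h => hN p hp (h.mul_right b)
    · omega
    · exact fun h => h32 (h.mul_left a)
    · exact fun p hp h => hN p hp (h.mul_left a)

theorem res_rho (w W : ℕ) (hW : Wok w W) (hw : 5 ≤ w) (N : ℤ) (h1 : IsCoprime N (W : ℤ)) (h4 : N % 4 = 1) :
    ∃ rho : ℤ × ℤ, nm rho ≡ N [ZMOD (2 * W : ℕ)] ∧ IsCoprime rho.1 (W : ℤ) ∧ IsCoprime (nm rho) (W : ℤ) := by
  have hW0 : W ≠ 0 := by
    rintro rfl
    exact hW.2.2 (dvd_zero _)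
  obtain ⟨x, y, e, hx⟩ := Prh_all h4 (2 * W) (by omega) (fun h => hW.2.2 (by
    have : 2 * 16 ∣ 2 * W := h
    exact (Nat.mul_dvd_mul_iff_left (by norm_num)).1 this)) (fun p hp hpd hpN => by
      have hpW : p ∣ W := by
        rcases (Nat.Prime.dvd_mul hp).1 hpd with h | h
        · have := (Nat.prime_dvd_prime_iff_eq hp Nat.prime_two).1 h
          subst this
          exact (show 2 ∣ 8 by norm_num).trans hW.2.1
        · exact h
      have h5 := h1.isUnit_of_dvd' hpN (by exact_mod_cast hpW : (p : ℤ) ∣ (W : ℤ))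
      rw [Int.isUnit_iff] at h5
      have := hp.two_le
      omega)
  refine ⟨(x, y), e, ?_, ?_⟩
  · push_cast at hx
    exact (IsCoprime.of_mul_right_right hx)
  · have h6 : nm (x, y) ≡ N [ZMOD (W : ℤ)] := by
      refine Int.ModEq.of_dvd ?_ e
      push_cast
      exact dvd_mul_left _ _
    obtain ⟨k, hk⟩ := Int.modEq_iff_dvd.1 h6
    have h7 : N = nm (x, y) + W * k := by linarith
    rw [h7] at h1
    exact IsCoprime.of_add_mul_left_left h1

end Pool.Agent.W33f
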