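import Pool.Agent.W_d33b62f_h37.Me
import Pool.Agent.W_d33b62f_h37.Df

/-!
# MP_d33b62_nt: tools for SMa and SMb (helper47)
-/

set_option autoImplicit false

noncomputable section

open Finset Filter Topology

namespace Pool.Agent.W33f

open Pool.Agent.M58 Pool.Agent.Wd33b62k

theorem mem_Pw {w : ℕ} {z : ℝ} {p : ℕ} : p ∈ Pw w z ↔ p.Prime ∧ w < p ∧ (p : ℝ) < z := by
  unfold Pw
  rw [mem_filter, mem_range, Nat.lt_ceil]
  tauto

/-- The choice of the sieve parameter. -/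
theorem choose_b (K : ℝ) (m : ℕ) (θ : ℝ) (hK : 0 < K) (hθ : 0 < θ) : ∃ c₁₀ : ℝ, 0 < c₁₀ ∧ c₁₀ ≤ 1 ∧
    ∀ c₁ : ℝ, 0 < c₁ → c₁ ≤ c₁₀ → ∃ b : ℕ, 1 ≤ b ∧ K * Real.exp (-b) ≤ c₁ ^ m ∧ c₁ * (4 * b + 5) ≤ θ := by
  set M := 4 * |Real.log K| + 13 + 8 * m with hM
  have hM0 : 0 < M := by positivity
  refine ⟨min 1 ((θ / M) ^ 2), by positivity, min_le_left _ _, ?_⟩
  intro c hc hc'
  have hc1 : c ≤ 1 := hc'.trans (min_le_left _ _)
  have hc2 : c ≤ (θ / M) ^ 2 := hc'.trans (min_le_right _ _)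
  set s := Real.sqrt c with hs
  have hs0 : 0 < s := Real.sqrt_pos.2 hc
  have hsc : s ^ 2 = c := Real.sq_sqrt hc.le
  have hs1 : s ≤ 1 := by
    rw [hs]
    exact Real.sqrt_le_one.2 hc1
  have hs2 : s ≤ θ / M := by
    rw [hs]
    exact Real.sqrt_le_iff.2 ⟨by positivity, hc2⟩
  have hlog : -Real.log c ≤ 2 * (1 / s) := by
    have h1 := Real.log_le_sub_one_of_pos (show 0 < 1 / s by positivity)
    rw [one_div, Real.log_inv] at h1
    have h2 : Real.log c = 2 * Real.log s := by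
      rw [← hsc, Real.log_pow]
      norm_num
    rw [h2, one_div]
    linarith
  set t := |Real.log K| + m * (-Real.log c) with ht
  have hlc : 0 ≤ -Real.log c := by
    have := Real.log_nonpos hc.le hc1
    linarith
  have ht0 : 0 ≤ t := by positivity
  refine ⟨⌈t⌉₊ + 1, by omega, ?_, ?_⟩
  · have h1 : t ≤ ((⌈t⌉₊ + 1 : ℕ) : ℝ) := by
      push_cast
      have := Nat.le_ceil t
      linarith
    have h2 : Real.exp (-((⌈t⌉₊ + 1 : ℕ) : ℝ)) ≤ Real.exp (-t) := Real.exp_le_exp.2 (by linarith)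
    have h3 : Real.exp (-t) ≤ K⁻¹ * c ^ m := by
      rw [ht]
      have h4 : K⁻¹ * c ^ m = Real.exp (-Real.log K + m * Real.log c) := by
        rw [Real.exp_add, Real.exp_neg, Real.exp_log hK, Real.exp_nat_mul, Real.exp_log hc]
      rw [h4, Real.exp_le_exp]
      have := le_abs_self (Real.log K)
      linarith
    calc K * Real.exp (-((⌈t⌉₊ + 1 : ℕ) : ℝ)) ≤ K * (K⁻¹ * c ^ m) :=
          mul_le_mul_of_nonneg_left (h2.trans h3) hK.le
      _ = c ^ m := by
          rw [← mul_assoc, mul_inv_cancel₀ hK.ne', one_mul]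
  · have h1 : ((⌈t⌉₊ + 1 : ℕ) : ℝ) ≤ t + 2 := by
      push_cast
      have := (Nat.ceil_lt_add_one ht0).le
      linarith
    have h2 : c * (4 * ((⌈t⌉₊ + 1 : ℕ) : ℝ) + 5) ≤ c * (4 * (t + 2) + 5) :=
      mul_le_mul_of_nonneg_left (by linarith) hc.le
    refine h2.trans ?_
    have h3 : c * (m * (-Real.log c)) ≤ 2 * m * s := by
      have h4 : c * (m * (-Real.log c)) ≤ c * (m * (2 * (1 / s))) :=
        mul_le_mul_of_nonneg_left (mul_le_mul_of_nonneg_left hlog (Nat.cast_nonneg m)) hc.le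
      refine h4.trans (le_of_eq ?_)
      rw [← hsc]
      field_simp
    have h5 : c ≤ s := by
      rw [← hsc]
      nlinarith
    have h6 : c * (4 * |Real.log K| + 13) ≤ s * (4 * |Real.log K| + 13) :=
      mul_le_mul_of_nonneg_right h5 (by positivity)
    have h7 : s * M ≤ θ := by
      rw [le_div_iff₀ hM0] at hs2
      exact hs2
    rw [hM] at h7
    rw [ht]
    nlinarith

/-- Weak lower bound for the product. -/
theorem VV_lower (k w : ℕ) (hw : 2 * k ≤ w) (c₁ θ : ℝ) (h1 : 0 < c₁) (hc : c₁ ≤ 1) (hθ : 0 < θ) :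
    ∃ Y₀ : ℕ, ∀ Y : ℕ, Y₀ ≤ Y → (Y : ℝ) ^ (-θ) ≤ VV k w ((Y : ℝ) ^ c₁) := by
  obtain ⟨C, hC, hM⟩ := Pool.Agent.Wb58c63.mertens_two
  have hl2 : 0 < Real.log 2 := Real.log_pos (by norm_num)
  set A := Real.exp (2 * k * (C / Real.log 2)) / Real.log 2 ^ (2 * k) with hA
  have hA0 : 0 < A := by positivity
  have h2 : (fun x : ℝ => Real.log x ^ (2 * k)) =o[atTop] fun x : ℝ => x ^ θ := by
    have := isLittleO_log_rpow_rpow_atTop ((2 * k : ℕ) : ℝ) hθ
    refine this.congr_left fun x => ?_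
    rw [Real.rpow_natCast]
  have h3 := h2.bound (show 0 < 1 / A by positivity)
  have h4 : ∀ᶠ x : ℝ in atTop, A * Real.log x ^ (2 * k) ≤ x ^ θ := by
    filter_upwards [h3, eventually_ge_atTop (1 : ℝ)] with x hx hx1
    rw [Real.norm_of_nonneg (by have := Real.log_nonneg hx1; positivity),
      Real.norm_of_nonneg (by positivity)] at hx
    rw [one_div, ← div_eq_inv_mul, le_div_iff₀ hA0] at hx
    linarith
  have h5 : ∀ᶠ x : ℝ in atTop, 2 ≤ x ^ c₁ := (tendsto_rpow_atTop h1).eventually (eventually_ge_atTop 2)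
  obtain ⟨Y₀, hY⟩ := ((h4.and (h5.and (eventually_ge_atTop (2 : ℝ))))).exists_forall_of_atTop
  refine ⟨⌈Y₀⌉₊, ?_⟩
  intro Y hYY
  obtain ⟨a1, a2, a3⟩ := hY (Y : ℝ) (Nat.ceil_le.1 hYY)
  set z := (Y : ℝ) ^ c₁ with hz
  have hz0 : 0 < z := by linarith
  have hP : ∀ p ∈ Pw w z, (k : ℝ) / p ≤ 1 / 2 := by
    intro p hp
    rw [mem_Pw] at hp
    have hp0 : 0 < (p : ℝ) := by exact_mod_cast hp.1.pos
    rw [div_le_iff₀ hp0]
    have : 2 * k ≤ p := by omega
    have : 2 * (k : ℝ) ≤ p := by exact_mod_cast this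
    linarith
  have h6 : Real.exp (-(2 * k * ∑ p ∈ PI 2 z, (1 : ℝ) / p)) ≤ VV k w z := by
    have h7 : ∏ p ∈ Pw w z, Real.exp (-(2 * ((k : ℝ) / p))) ≤ VV k w z := by
      refine prod_le_prod (fun p _ => (Real.exp_pos _).le) fun p hp => ?_
      have h8 := exp_le_one_sub ((k : ℝ) / p) (by positivity) (hP p hp)
      refine le_trans (Real.exp_le_exp.2 ?_) h8
      have h9 : 0 ≤ (k : ℝ) / p := by positivity
      have h10 := hP p hp
      nlinarith
    refine le_trans ?_ h7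
    rw [← Real.exp_sum, Real.exp_le_exp, sum_neg_distrib, neg_le_neg_iff, mul_sum]
    have h8 : ∑ p ∈ Pw w z, 2 * ((k : ℝ) / p) = ∑ p ∈ Pw w z, 2 * (k : ℝ) * (1 / p) :=
      sum_congr rfl fun p _ => by ring
    rw [h8]
    refine sum_le_sum_of_subset_of_nonneg ?_ fun p _ _ => by positivity
    intro p hp
    rw [mem_Pw] at hp
    rw [mem_PI]
    exact ⟨hp.1, by exact_mod_cast hp.1.two_le, hp.2.2⟩
  refine le_trans ?_ h6
  have h7 := hM 2 z le_rfl a2
  have hlz : Real.log z ≤ Real.log Y := by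
    rw [hz, Real.log_rpow (by linarith)]
    have := Real.log_nonneg (show (1 : ℝ) ≤ Y by linarith)
    nlinarith
  have hlz0 : 0 < Real.log z := Real.log_pos (by linarith)
  have h8 : Real.exp (2 * k * ∑ p ∈ PI 2 z, (1 : ℝ) / p) ≤ (Y : ℝ) ^ θ := by
    refine le_trans (Real.exp_le_exp.2 (mul_le_mul_of_nonneg_left h7 (by positivity))) ?_
    rw [mul_add, Real.exp_add]
    have h9 : Real.exp (2 * k * Real.log (Real.log z / Real.log 2)) = (Real.log z / Real.log 2) ^ (2 * k) := by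
      rw [← Real.exp_log (show 0 < Real.log z / Real.log 2 by positivity), ← Real.exp_nat_mul, Real.exp_log (by positivity)]
      push_cast
      rfl
    rw [h9, div_pow]
    have h10 : Real.log z ^ (2 * k) ≤ Real.log Y ^ (2 * k) := pow_le_pow_left₀ hlz0.le hlz _
    calc Real.log z ^ (2 * k) / Real.log 2 ^ (2 * k) * Real.exp (2 * k * (C / Real.log 2)) =
          A * Real.log z ^ (2 * k) := by rw [hA]; ring
      _ ≤ A * Real.log Y ^ (2 * k) := mul_le_mul_of_nonneg_left h10 hA0.le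
      _ ≤ _ := a1
  rw [Real.rpow_neg (by linarith), Real.exp_neg]
  exact inv_anti₀ (Real.exp_pos _) h8

/-- The number of the integers of `(Y, 2 Y]` in a class mod `q`. -/
theorem count_mod (Y q r : ℕ) (hq : 0 < q) :
    |(((Ioc Y (2 * Y)).filter (fun n => n ≡ r [MOD q])).card : ℝ) - (Y : ℝ) / q| ≤ 1 := by
  have h1 := Nat.Ioc_filter_modEq_card Y (2 * Y) hq r
  have hq0 : (0 : ℚ) < q := by exact_mod_cast hq
  have h2 : (((Ioc Y (2 * Y)).filter (fun n => n ≡ r [MOD q])).card : ℚ) =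
      max ((⌊(((2 * Y : ℕ) : ℚ) - (r : ℚ)) / (q : ℚ)⌋ : ℚ) - ⌊((Y : ℚ) - (r : ℚ)) / (q : ℚ)⌋) 0 := by
    exact_mod_cast h1
  set u := (((2 * Y : ℕ) : ℚ) - (r : ℚ)) / (q : ℚ) with hu
  set v := ((Y : ℚ) - (r : ℚ)) / (q : ℚ) with hv
  have h3 : u - v = (Y : ℚ) / q := by
    rw [hu, hv]
    push_cast
    field_simp
    ring
  have h4 : (0 : ℚ) ≤ (Y : ℚ) / q := by positivity
  have h5 : |(((Ioc Y (2 * Y)).filter (fun n => n ≡ r [MOD q])).card : ℚ) - (Y : ℚ) / q| ≤ 1 := by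
    rw [h2, ← h3]
    have a1 := Int.floor_le u
    have a2 := Int.lt_floor_add_one u
    have a3 := Int.floor_le v
    have a4 := Int.lt_floor_add_one v
    rw [abs_le]
    constructor
    · have := le_max_left ((⌊u⌋ : ℚ) - ⌊v⌋) 0
      linarith
    · rcases max_choice ((⌊u⌋ : ℚ) - ⌊v⌋) 0 with h | h
      · rw [h]
        linarith
      · rw [h]
        linarith
  have h6 := (Rat.cast_le (K := ℝ)).2 h5
  push_cast at h6
  exact h6

open Classical in
/-- The number of the integers of `(Y, 2 Y]` in given classes modulo the primes of `S`. -/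
theorem count_classes (Y : ℕ) (B : (p : ℕ) → Finset (ZMod p)) (S : Finset ℕ) (hS : ∀ p ∈ S, p.Prime) :
    ∀ (q r : ℕ), 0 < q → (∀ p ∈ S, Nat.Coprime q p) →
      |(((Ioc Y (2 * Y)).filter (fun n => n ≡ r [MOD q] ∧ ∀ p ∈ S, (n : ZMod p) ∈ B p)).card : ℝ) -
        (Y : ℝ) / q * ∏ p ∈ S, ((B p).card : ℝ) / p| ≤ ∏ p ∈ S, ((B p).card : ℝ) := by
  induction S using Finset.induction_on with
  | empty =>
    intro q r hq _
    simp only [notMem_empty, false_implies, implies_true, and_true, prod_empty, mul_one]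
    exact count_mod Y q r hq
  | insert p S hp ih =>
    intro q r hq hc
    have ih' := ih fun p' hp' => hS p' (mem_insert_of_mem hp')
    have hpp := hS p (mem_insert_self p S)
    have hpc := hc p (mem_insert_self p S)
    have : NeZero p := ⟨hpp.ne_zero⟩
    have key : ∀ β ∈ B p, ∃ r' : ℕ, ∀ n : ℕ, (n ≡ r [MOD q] ∧ (n : ZMod p) = β) ↔ n ≡ r' [MOD q * p] := by
      intro β _
      obtain ⟨r', h1, h2⟩ := Nat.chineseRemainder hpc r β.val
      refine ⟨r', fun n => ?_⟩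
      rw [← Nat.modEq_and_modEq_iff_modEq_mul hpc]
      constructor
      · rintro ⟨h3, h4⟩
        refine ⟨h3.trans h1.symm, ?_⟩
        refine Nat.ModEq.trans ?_ h2.symm
        rw [← ZMod.natCast_eq_natCast_iff, h4, ZMod.natCast_zmod_val]
      · rintro ⟨h3, h4⟩
        refine ⟨h3.trans h1, ?_⟩
        have h5 := h4.trans h2
        rw [← ZMod.natCast_eq_natCast_iff, ZMod.natCast_zmod_val] at h5
        exact h5
    choose! r' hr' using key
    have h1 : (Ioc Y (2 * Y)).filter (fun n => n ≡ r [MOD q] ∧ ∀ p' ∈ insert p S, (n : ZMod p') ∈ B p') =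
        (B p).biUnion fun β => (Ioc Y (2 * Y)).filter
          (fun n => n ≡ r' β [MOD q * p] ∧ ∀ p' ∈ S, (n : ZMod p') ∈ B p') := by
      ext n
      simp only [mem_filter, mem_biUnion, mem_insert, forall_eq_or_imp]
      constructor
      · rintro ⟨h2, h3, h4, h5⟩
        exact ⟨_, h4, h2, (hr' _ h4 n).1 ⟨h3, rfl⟩, h5⟩
      · rintro ⟨β, h2, h3, h4, h5⟩
        have h6 := (hr' β h2 n).2 h4
        refine ⟨h3, h6.1, ?_, h5⟩
        rw [h6.2]
        exact h2
    rw [h1, card_biUnion, prod_insert hp, prod_insert hp]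
    · push_cast
      have h2 : (Y : ℝ) / q * (((B p).card : ℝ) / p * ∏ x ∈ S, ((B x).card : ℝ) / x) =
          ∑ _β ∈ B p, (Y : ℝ) / ((q * p : ℕ) : ℝ) * ∏ x ∈ S, ((B x).card : ℝ) / x := by
        rw [sum_const, nsmul_eq_mul]
        push_cast
        have hq0 : (q : ℝ) ≠ 0 := by exact_mod_cast hq.ne'
        have hp0 : (p : ℝ) ≠ 0 := by exact_mod_cast hpp.ne_zero
        field_simp
      rw [h2, ← sum_sub_distrib]
      refine (abs_sum_le_sum_abs _ _).trans ?_
      rw [← nsmul_eq_mul, ← sum_const]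
      refine sum_le_sum fun β _ => ?_
      refine ih' (q * p) (r' β) (Nat.mul_pos hq hpp.pos) fun p' hp' => ?_
      refine Nat.Coprime.mul_left (hc p' (mem_insert_of_mem hp')) ?_
      refine (Nat.coprime_primes hpp (hS p' (mem_insert_of_mem hp'))).2 ?_
      rintro rfl
      exact hp hp'
    · intro β hβ β' hβ' hne
      rw [Function.onFun, disjoint_left]
      intro n hn hn'
      rw [mem_filter] at hn hn'
      exact hne (((hr' β hβ n).2 hn.2.1).2.symm.trans ((hr' β' hβ' n).2 hn'.2.1).2)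

end Pool.Agent.W33f
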