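import Pool.Agent.W_d33b62f_h37.CrV
import Pool.Agent.W_d33b62f_h37.LC

/-!
# First moment (MP_d33b62, SMb): local counts (helper47)
-/

set_option autoImplicit false

noncomputable section

open Finset

namespace Pool.Agent.W33f

open Classical in
/-- The bad classes mod `p`. -/
def badZ (p : ℕ) {k : ℕ} [NeZero p] (m : Fin k → ZMod p) : Finset (ZMod p × ZMod p) :=
  univ.filter fun v => ∃ l, 2 * (v.1 ^ 2 + v.2 ^ 2) = m l

open Classical in
/-- The good classes on the line mod `a`. -/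
def goodL (a : ℕ) {k : ℕ} [NeZero a] (l1 l2 : ZMod a) (m : Fin k → ZMod a) : Finset (ZMod a × ZMod a) :=
  univ.filter fun v => l1 * v.1 + l2 * v.2 = 0 ∧ ∀ l, 2 * (v.1 ^ 2 + v.2 ^ 2) ≠ m l

theorem card_badZ (p : ℕ) [Fact p.Prime] [NeZero p] (hp : p ≠ 2) {k : ℕ} (m : Fin k → ZMod p)
    (hm : ∀ l l', m l = 0 → m l' = 0 → l = l') :
    (badZ p m).card ≤ k * (p + 1) + (if ∃ l, m l = 0 then p else 0) := by
  classical
  have h2 : (2 : ZMod p) ≠ 0 := Pool.Agent.Wd33b62cv.crA_two p hp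
  have e1 : badZ p m ⊆ (univ : Finset (Fin k)).biUnion fun l =>
      (univ : Finset (ZMod p × ZMod p)).filter (fun q => q.1 ^ 2 + q.2 ^ 2 = m l / 2) := by
    intro v hv
    unfold badZ at hv
    rw [mem_filter] at hv
    obtain ⟨_, l, hl⟩ := hv
    rw [mem_biUnion]
    refine ⟨l, mem_univ l, ?_⟩
    rw [mem_filter]
    refine ⟨mem_univ _, ?_⟩
    rw [eq_div_iff h2]
    linear_combination hl
  refine (card_le_card e1).trans (card_biUnion_le.trans ?_)
  have e2 : ∀ l ∈ (univ : Finset (Fin k)),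
      ((univ : Finset (ZMod p × ZMod p)).filter (fun q => q.1 ^ 2 + q.2 ^ 2 = m l / 2)).card ≤
        (p + 1) + (if m l = 0 then p else 0) := by
    intro l _
    have h3 := Pool.Agent.Wd33b62cv.crA_circ p hp (m l / 2)
    have h4 : (m l / 2 = 0) ↔ m l = 0 := by
      rw [div_eq_zero_iff]
      exact ⟨fun h => h.resolve_right h2, fun h => Or.inl h⟩
    simp only [h4] at h3
    refine h3.trans ?_
    split_ifs <;> omega
  refine (sum_le_sum e2).trans ?_
  rw [sum_add_distrib, sum_const, card_univ, Fintype.card_fin, smul_eq_mul]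
  refine Nat.add_le_add_left ?_ _
  by_cases h : ∃ l, m l = 0
  · rw [if_pos h]
    obtain ⟨l, hl⟩ := h
    rw [sum_eq_single l]
    · rw [if_pos hl]
    · intro l' _ hne
      rw [if_neg]
      intro h'
      exact hne (hm l' l h' hl)
    · intro h'
      exact absurd (mem_univ l) h'
  · rw [if_neg h]
    refine le_of_eq (sum_eq_zero fun l _ => ?_)
    rw [if_neg]
    intro h'
    exact h ⟨l, h'⟩

theorem card_badZ_le (p : ℕ) [Fact p.Prime] [NeZero p] {k : ℕ} (m : Fin k → ZMod p) :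
    (badZ p m).card ≤ p ^ 2 := by
  refine (card_le_univ _).trans ?_
  rw [Fintype.card_prod, ZMod.card, pow_two]

theorem card_goodL (a : ℕ) [Fact a.Prime] [NeZero a] (ha : a ≠ 2) {k : ℕ} (m : Fin k → ZMod a) (l1 l2 : ZMod a)
    (hN : l1 ^ 2 + l2 ^ 2 ≠ 0) :
    a ≤ (goodL a l1 l2 m).card + 2 * k ∧ (goodL a l1 l2 m).card ≤ a := by
  classical
  have h2 : (2 : ZMod a) ≠ 0 := Pool.Agent.Wd33b62cv.crA_two a ha
  have hl : ¬ (l1 = 0 ∧ l2 = 0) := by
    rintro ⟨h, h'⟩
    apply hN
    rw [h, h']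
    ring
  have hl' : l1 ≠ 0 ∨ l2 ≠ 0 := by tauto
  have hc := card_line a l1 l2 hl'
  set L := (univ.filter fun v : ZMod a × ZMod a => l1 * v.1 + l2 * v.2 = 0) with hL
  have hsub : goodL a l1 l2 m ⊆ L := by
    intro v hv
    unfold goodL at hv
    rw [mem_filter] at hv
    rw [hL, mem_filter]
    exact ⟨mem_univ v, hv.2.1⟩
  constructor
  · have e1 : L \ goodL a l1 l2 m ⊆ (univ : Finset (Fin k)).biUnion fun l =>
        ((univ : Finset (ZMod a)).filter (fun t => t ^ 2 = m l / (2 * (l1 ^ 2 + l2 ^ 2)))).image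
          (fun t => (t * l2, - t * l1)) := by
      intro v hv
      rw [mem_sdiff] at hv
      obtain ⟨hv1, hv2⟩ := hv
      obtain ⟨t, _, rfl⟩ := mem_image.1 (Pool.Agent.Wd33b62cv.crA_line a l1 l2 hl hv1)
      have h3 : ∃ l, 2 * ((t * l2) ^ 2 + (- t * l1) ^ 2) = m l := by
        by_contra hcon
        push Not at hcon
        apply hv2
        unfold goodL
        rw [mem_filter]
        refine ⟨mem_univ _, ?_, hcon⟩
        ring
      obtain ⟨l, hl3⟩ := h3
      rw [mem_biUnion]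
      refine ⟨l, mem_univ l, ?_⟩
      rw [mem_image]
      refine ⟨t, ?_, rfl⟩
      rw [mem_filter]
      refine ⟨mem_univ _, ?_⟩
      rw [eq_div_iff (mul_ne_zero h2 hN)]
      linear_combination hl3
    have e2 : (L \ goodL a l1 l2 m).card ≤ 2 * k := by
      refine (card_le_card e1).trans (card_biUnion_le.trans ?_)
      refine (sum_le_sum fun l _ => card_image_le.trans (Pool.Agent.Wd33b62cv.crA_sq2 a ha _)).trans ?_
      rw [sum_const, card_univ, Fintype.card_fin, smul_eq_mul, mul_comm]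
    rw [card_sdiff_of_subset hsub, hc] at e2
    omega
  · exact (card_le_card hsub).trans hc.le

end Pool.Agent.W33f
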