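import Pool.Agent.W_d33b62f_h37.SMb1
import Pool.Agent.W_d33b62f_h37.SMb2
import Pool.Agent.W_d33b62f_h37.SMb3
import Pool.Agent.W_d33b62f_h37.Sv

/-!
# First moment (MP_d33b62, SMb): the sieve (helper47)
-/

set_option autoImplicit false

noncomputable section

open Finset

namespace Pool.Agent.W33f

theorem a_gt {k : ℕ} {D : Dat k} (hD : D.ok) {Y B B' : ℕ} {C η : ℝ} {xi : ℤ × ℤ} (hF : D.Fam Y B B' C η xi) :
    D.w < D.a xi ∧ Nat.Coprime (D.a xi) D.W := by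
  have h1 : Nat.Coprime (D.a xi) D.W := by
    have h2 : D.a xi ≡ D.al [MOD D.W] := hF.cl.of_mul_left 4
    have h3 := h2.gcd_eq
    have h4 := hD.hal
    unfold Nat.Coprime at h4 ⊢
    rw [h3]
    exact h4
  refine ⟨?_, h1⟩
  by_contra hcon
  have h2 := (hD.wok.1 _ hF.ap).2 (by omega)
  have h3 : D.a xi ∣ Nat.gcd (D.a xi) D.W := Nat.dvd_gcd dvd_rfl h2
  rw [h1] at h3
  exact hF.ap.one_lt.ne' (Nat.dvd_one.1 h3)

theorem W_pos {k : ℕ} {D : Dat k} (hD : D.ok) : 0 < D.W := by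
  rcases Nat.eq_zero_or_pos D.W with h | h
  · exfalso
    apply hD.wok.2.2
    rw [h]
    exact dvd_zero _
  · exact h

/-- The shifts `a + h i - h l`. -/
def Dat.m {k : ℕ} (D : Dat k) (xi : ℤ × ℤ) (l : Fin k) : ℤ := (D.a xi : ℤ) + D.h D.i - D.h l

theorem m_ne {k : ℕ} {D : Dat k} (hD : D.ok) {Y B B' : ℕ} {C η : ℝ} {xi : ℤ × ℤ} (hF : D.Fam Y B B' C η xi)
    (l : Fin k) : D.m xi l ≠ 0 := by
  have h1 := (a_gt hD hF).1
  have h2 := hD.hw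
  have h3 := hD.hh l
  unfold Dat.m
  omega

theorem m_inj {k : ℕ} {D : Dat k} (hD : D.ok) (xi : ℤ × ℤ) (p : ℕ) (hp : D.w < p) (l l' : Fin k)
    (h : (p : ℤ) ∣ D.m xi l) (h' : (p : ℤ) ∣ D.m xi l') : l = l' := by
  apply hD.inj
  have h1 : (p : ℤ) ∣ (D.h l' : ℤ) - D.h l := by
    have := dvd_sub h h'
    unfold Dat.m at this
    have e : ((D.a xi : ℤ) + D.h D.i - D.h l) - ((D.a xi : ℤ) + D.h D.i - D.h l') = (D.h l' : ℤ) - D.h l := by ring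
    rwa [e] at this
  have h2 := hD.hh l
  have h3 := hD.hh l'
  have h4 := hD.hw
  have h5 : ((D.h l' : ℤ) - D.h l).natAbs < p := by omega
  have h6 := Int.eq_zero_of_dvd_of_natAbs_lt_natAbs h1 (by simpa using h5)
  omega

open Classical in
/-- The sifted points. -/
def Dat.Sft {k : ℕ} (D : Dat k) (Y : ℕ) (z : ℝ) (xi : ℤ × ℤ) : Finset (ℤ × ℤ) :=
  (SA_fin 1 1 0 0 (((Y : ℝ) + D.h D.i + D.a xi) / 2) ((2 * (Y : ℝ) + D.h D.i + D.a xi) / 2)).toFinset.filter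
    fun v => (v.1 ≡ D.rho.1 [ZMOD D.W] ∧ v.2 ≡ D.rho.2 [ZMOD D.W]) ∧
      (D.a xi : ℤ) ∣ (xi.1 - xi.2) * v.1 + (xi.1 + xi.2) * v.2 ∧
      ∀ p ∈ Pw D.w z, ∀ l, ¬ (p : ℤ) ∣ 2 * nm v - D.m xi l

open Classical in
/-- The classes used in the sieve. -/
def Dat.Bp {k : ℕ} (D : Dat k) (xi : ℤ × ℤ) (p : ℕ) : Finset (ZMod p × ZMod p) :=
  if h : p ≠ 0 then
    haveI : NeZero p := ⟨h⟩
    if p = D.a xi then goodL p ((xi.1 - xi.2 : ℤ) : ZMod p) ((xi.1 + xi.2 : ℤ) : ZMod p) (fun l => ((D.m xi l : ℤ) : ZMod p))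
    else badZ p (fun l => ((D.m xi l : ℤ) : ZMod p))
  else ∅

theorem mem_Bp_bad {k : ℕ} (D : Dat k) (xi : ℤ × ℤ) (p : ℕ) (hp : p ≠ 0) (hpa : p ≠ D.a xi) (v : ℤ × ℤ) :
    ((v.1 : ZMod p), (v.2 : ZMod p)) ∈ D.Bp xi p ↔ ∃ l, (p : ℤ) ∣ 2 * nm v - D.m xi l := by
  classical
  unfold Dat.Bp
  rw [dif_pos hp, if_neg hpa]
  unfold badZ
  rw [mem_filter]
  constructor
  · rintro ⟨_, l, hl⟩
    refine ⟨l, ?_⟩
    rw [← ZMod.intCast_zmod_eq_zero_iff_dvd]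
    unfold nm
    push_cast
    simp only at hl
    linear_combination hl
  · rintro ⟨l, hl⟩
    rw [← ZMod.intCast_zmod_eq_zero_iff_dvd] at hl
    unfold nm at hl
    push_cast at hl
    refine ⟨by simp, l, ?_⟩
    simp only
    linear_combination hl

theorem mem_Bp_good {k : ℕ} (D : Dat k) (xi : ℤ × ℤ) (hp : D.a xi ≠ 0) (v : ℤ × ℤ) :
    ((v.1 : ZMod (D.a xi)), (v.2 : ZMod (D.a xi))) ∈ D.Bp xi (D.a xi) ↔
      (D.a xi : ℤ) ∣ (xi.1 - xi.2) * v.1 + (xi.1 + xi.2) * v.2 ∧ ∀ l, ¬ (D.a xi : ℤ) ∣ 2 * nm v - D.m xi l := by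
  classical
  unfold Dat.Bp
  rw [dif_pos hp, if_pos rfl]
  unfold goodL
  rw [mem_filter]
  constructor
  · rintro ⟨_, h1, h2⟩
    refine ⟨?_, fun l hl => h2 l ?_⟩
    · rw [← ZMod.intCast_zmod_eq_zero_iff_dvd]
      simp only at h1
      push_cast at h1 ⊢
      exact h1
    · rw [← ZMod.intCast_zmod_eq_zero_iff_dvd] at hl
      unfold nm at hl
      push_cast at hl
      simp only
      linear_combination hl
  · rintro ⟨h1, h2⟩
    refine ⟨by simp, ?_, fun l hl => h2 l ?_⟩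
    · rw [← ZMod.intCast_zmod_eq_zero_iff_dvd] at h1
      push_cast at h1 ⊢
      exact h1
    · rw [← ZMod.intCast_zmod_eq_zero_iff_dvd]
      unfold nm
      push_cast
      simp only at hl
      linear_combination hl

theorem card_Bp_bad {k : ℕ} {D : Dat k} (hD : D.ok) (xi : ℤ × ℤ) (p : ℕ) (hp : p.Prime) (hpa : p ≠ D.a xi)
    (hpw : D.w < p) :
    (D.Bp xi p).card ≤ p ^ 2 ∧ (D.Bp xi p).card ≤ k * (p + 1) + p ∧
      ((¬ ∃ l, (p : ℤ) ∣ D.m xi l) → (D.Bp xi p).card ≤ k * (p + 1)) := by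
  classical
  have : Fact p.Prime := ⟨hp⟩
  have : NeZero p := ⟨hp.ne_zero⟩
  have hp2 : p ≠ 2 := by
    have := hD.hw
    omega
  have e : D.Bp xi p = badZ p (fun l => ((D.m xi l : ℤ) : ZMod p)) := by
    unfold Dat.Bp
    rw [dif_pos hp.ne_zero, if_neg hpa]
  rw [e]
  have h1 := card_badZ p hp2 (fun l => ((D.m xi l : ℤ) : ZMod p)) (by
    intro l l' h h'
    rw [ZMod.intCast_zmod_eq_zero_iff_dvd] at h h'
    exact m_inj hD xi p hpw l l' h h')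
  refine ⟨card_badZ_le p _, ?_, ?_⟩
  · refine h1.trans (Nat.add_le_add_left ?_ _)
    split_ifs
    · exact le_rfl
    · exact Nat.zero_le _
  · intro hn
    rw [if_neg] at h1
    · exact h1
    · rintro ⟨l, hl⟩
      rw [ZMod.intCast_zmod_eq_zero_iff_dvd] at hl
      exact hn ⟨l, hl⟩

theorem card_Bp_good {k : ℕ} {D : Dat k} (hD : D.ok) {Y B B' : ℕ} {C η : ℝ} {xi : ℤ × ℤ}
    (hF : D.Fam Y B B' C η xi) :
    D.a xi ≤ (D.Bp xi (D.a xi)).card + 2 * k ∧ (D.Bp xi (D.a xi)).card ≤ D.a xi := by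
  classical
  have hap := hF.ap
  have hgt := (a_gt hD hF).1
  have : Fact (D.a xi).Prime := ⟨hap⟩
  have : NeZero (D.a xi) := ⟨hap.ne_zero⟩
  have hw := hD.hw
  have hp2 : D.a xi ≠ 2 := by omega
  have e : D.Bp xi (D.a xi) = goodL (D.a xi) ((xi.1 - xi.2 : ℤ) : ZMod (D.a xi)) ((xi.1 + xi.2 : ℤ) : ZMod (D.a xi))
      (fun l => ((D.m xi l : ℤ) : ZMod (D.a xi))) := by
    unfold Dat.Bp
    rw [dif_pos hap.ne_zero, if_pos rfl]
  rw [e]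
  refine card_goodL (D.a xi) hp2 _ _ _ ?_
  have h1 : (((xi.1 - xi.2 : ℤ) : ZMod (D.a xi))) ^ 2 + (((xi.1 + xi.2 : ℤ) : ZMod (D.a xi))) ^ 2 =
      ((2 * (D.a0 : ℤ) : ℤ) : ZMod (D.a xi)) := by
    have h2 : (xi.1 - xi.2) ^ 2 + (xi.1 + xi.2) ^ 2 = 2 * ((D.a xi : ℤ) + D.a0) := by
      rw [← hF.eq]
      unfold nm
      ring
    have h3 : (((xi.1 - xi.2) ^ 2 + (xi.1 + xi.2) ^ 2 : ℤ) : ZMod (D.a xi)) =
        ((2 * ((D.a xi : ℤ) + D.a0) : ℤ) : ZMod (D.a xi)) := by rw [h2]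
    push_cast at h3 ⊢
    rw [ZMod.natCast_self, zero_add] at h3
    exact h3
  rw [h1, Ne, ZMod.intCast_zmod_eq_zero_iff_dvd]
  intro hd
  have h2 : (D.a xi) ∣ 2 * D.a0 := by exact_mod_cast hd
  rcases (hap.dvd_mul).1 h2 with h | h
  · have := Nat.le_of_dvd two_pos h
    omega
  · have := Nat.le_of_dvd hD.a0p.pos h
    have := hD.a0w
    omega

end Pool.Agent.W33f
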