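import Pool.Agent.W_d33b62f_h37.SMb4

/-!
# First moment (MP_d33b62, SMb): the lower bound for the sifted points (helper47)
-/

set_option autoImplicit false

noncomputable section

open Finset

namespace Pool.Agent.W33f

/-- The region of the sifted points. -/
def Dat.RT {k : ℕ} (D : Dat k) (Y : ℕ) (xi : ℤ × ℤ) : Finset (ℤ × ℤ) :=
  (SA_fin 1 1 0 0 (((Y : ℝ) + D.h D.i + D.a xi) / 2) ((2 * (Y : ℝ) + D.h D.i + D.a xi) / 2)).toFinset

theorem RT_count {k : ℕ} (D : Dat k) (Y : ℕ) (xi : ℤ × ℤ) (q : ℕ) (x0 y0 : ℤ) (hq : 1 ≤ q) :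
    |(((D.RT Y xi).filter (fun v => v.1 ≡ x0 [ZMOD q] ∧ v.2 ≡ y0 [ZMOD q])).card : ℝ) -
      (Real.pi * Y / 8) / q ^ 2| ≤ 16 * (√((2 * (Y : ℝ) + D.h D.i + D.a xi) / 2) + 1) := by
  classical
  have hq0 : (1 : ℝ) ≤ q := by exact_mod_cast hq
  have h1 := lc_count one_pos q hq x0 y0 (A := ((Y : ℝ) + D.h D.i + D.a xi) / 2)
    (B := (2 * (Y : ℝ) + D.h D.i + D.a xi) / 2) (by positivity) (by
      have : (0 : ℝ) ≤ Y := Nat.cast_nonneg Y
      linarith)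
  have h2 : SA 1 q x0 y0 (((Y : ℝ) + D.h D.i + D.a xi) / 2) ((2 * (Y : ℝ) + D.h D.i + D.a xi) / 2) =
      (((D.RT Y xi).filter (fun v => v.1 ≡ x0 [ZMOD q] ∧ v.2 ≡ y0 [ZMOD q]) : Finset (ℤ × ℤ)) : Set (ℤ × ℤ)) := by
    ext v
    rw [mem_coe, mem_filter]
    unfold Dat.RT
    rw [Set.Finite.mem_toFinset]
    unfold SA
    simp only [Set.mem_ofPred_eq]
    constructor
    · rintro ⟨h2, h3, h4⟩
      exact ⟨⟨by rw [Nat.cast_one]; exact Int.modEq_one, by rw [Nat.cast_one]; exact Int.modEq_one, h4⟩, h2, h3⟩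
    · rintro ⟨⟨_, _, h4⟩, h2, h3⟩
      exact ⟨h2, h3, h4⟩
  rw [h2, Set.ncard_coe_finset, Real.arctan_one] at h1
  have h3 : Real.pi / 4 * ((2 * (Y : ℝ) + D.h D.i + D.a xi) / 2 - ((Y : ℝ) + D.h D.i + D.a xi) / 2) / (q : ℝ) ^ 2 =
      (Real.pi * Y / 8) / q ^ 2 := by ring
  rw [h3] at h1
  refine h1.trans ?_
  have h4 : √((2 * (Y : ℝ) + D.h D.i + D.a xi) / 2) / q ≤ √((2 * (Y : ℝ) + D.h D.i + D.a xi) / 2) :=
    div_le_self (Real.sqrt_nonneg _) hq0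
  linarith

/-- **The sieve for the first moment.** -/
theorem SMb_low (k : ℕ) : ∃ C : ℝ, 1 ≤ C ∧ ∀ b : ℕ, 1 ≤ b → C * Real.exp (-b) ≤ 1 →
    ∀ (Y : ℕ) (z η : ℝ) (B B' : ℕ), 2 ≤ z → 0 ≤ η → k * η ≤ 1 → ∀ D : Dat k, D.ok → 4 * k + 4 ≤ D.w →
      ∀ xi, D.Fam Y B B' (CC k) η xi →
        ((1 - C * Real.exp (-b)) * ((1 - 2 * (k : ℝ) / (D.w : ℝ)) * ((1 - 2 * (k : ℝ) / (D.w : ℝ)) * (1 - k * η)))) *
          (mu D.W (D.a xi) * (Y / (4 * D.W : ℕ)) * VV k D.w z) -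
          16 * (√((2 * (Y : ℝ) + D.h D.i + D.a xi) / 2) + 1) * D.a xi * (z ^ (4 * b + 5)) ^ 2 * z ^ (4 * b + 5) ≤
          ((D.Sft Y z xi).card : ℝ) := by
  classical
  obtain ⟨C, hC1, hC⟩ := sieve (2 * k + 1) (by positivity)
  refine ⟨C, hC1, ?_⟩
  intro b hb hCb Y z η B B' hz hη hkη D hD hw xi hF
  have hgt := (a_gt hD hF).1
  have hacop := (a_gt hD hF).2
  have hap := hF.ap
  have hBa := card_Bp_good hD hF
  have hW := W_pos hD
  have hw6 := hD.hw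
  have hWR : (0 : ℝ) < D.W := by exact_mod_cast hW
  set a := D.a xi with ha
  have haR : (0 : ℝ) < a := by exact_mod_cast hap.pos
  have hwR : (0 : ℝ) < D.w := by
    have : 0 < D.w := by omega
    exact_mod_cast this
  have hwaR : (D.w : ℝ) < a := by exact_mod_cast hgt
  have hw4 : 4 * (k : ℝ) + 4 ≤ D.w := by exact_mod_cast hw
  have hk0 : (0 : ℝ) ≤ k := Nat.cast_nonneg k
  have hY0 : (0 : ℝ) ≤ Y := Nat.cast_nonneg Y
  set P := (Pw D.w z).erase a with hPdef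
  have hP : ∀ p ∈ P, p ≠ a ∧ p.Prime ∧ D.w < p ∧ (p : ℝ) < z := by
    intro p hp
    rw [hPdef, mem_erase] at hp
    exact ⟨hp.1, mem_Pw.1 hp.2⟩
  set g : ℕ → ℝ := fun p => ((D.Bp xi p).card : ℝ) / (p : ℝ) ^ 2 with hg
  set E0 : ℝ := 16 * (√((2 * (Y : ℝ) + D.h D.i + a) / 2) + 1) with hE0
  have hE0' : 0 ≤ E0 := by positivity
  set X : ℝ := (Real.pi * Y / 8) / (D.W : ℝ) ^ 2 * (((D.Bp xi a).card : ℝ) / (a : ℝ) ^ 2) with hX
  have hX0 : 0 ≤ X := by positivity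
  set A : Finset (ℤ × ℤ) := (D.RT Y xi).filter (fun v => (v.1 ≡ D.rho.1 [ZMOD D.W] ∧ v.2 ≡ D.rho.2 [ZMOD D.W]) ∧
    ((v.1 : ZMod a), (v.2 : ZMod a)) ∈ D.Bp xi a) with hA
  -- densities
  have hdens : ∀ p ∈ P, p.Prime ∧ (p : ℝ) < z ∧ 0 ≤ g p ∧ g p ≤ 3 / 4 ∧ g p ≤ (2 * k + 1) / p := by
    intro p hp
    obtain ⟨h1, h2, h3, h4⟩ := hP p hp
    have h5 := card_Bp_bad hD xi p h2 h1 h3
    have hpR : (D.w : ℝ) < p := by exact_mod_cast h3
    have hp0 : (0 : ℝ) < p := hwR.trans hpR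
    have h6 : ((D.Bp xi p).card : ℝ) ≤ (2 * k + 1) * p := by
      have : (((D.Bp xi p).card : ℕ) : ℝ) ≤ k * (p + 1) + p := by exact_mod_cast h5.2.1
      have h7 : (k : ℝ) * 1 ≤ k * p := by
        apply mul_le_mul_of_nonneg_left _ hk0
        linarith
      linarith
    have h7 : g p ≤ (2 * k + 1) / p := by
      simp only [hg]
      rw [div_le_div_iff₀ (by positivity) hp0]
      nlinarith
    refine ⟨h2, h4, by simp only [hg]; positivity, h7.trans ?_, h7⟩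
    rw [div_le_div_iff₀ hp0 (by norm_num)]
    linarith
  -- error terms
  have herr : ∀ S ⊆ P, ((∏ p ∈ S, p : ℕ) : ℝ) ≤ z ^ (4 * b + 5) →
      |((A.filter (fun v => ∀ p ∈ S, ((v.1 : ZMod p), (v.2 : ZMod p)) ∈ D.Bp xi p)).card : ℝ) - X * ∏ p ∈ S, g p| ≤
        E0 * a * (z ^ (4 * b + 5)) ^ 2 := by
    intro S hS hS'
    have haS : a ∉ S := fun h => (hP a (hS h)).1 rfl
    have h1 := count_pts (D.RT Y xi) (Real.pi * Y / 8) E0 (fun q x0 y0 hq => RT_count D Y xi q x0 y0 hq)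
      (fun p => D.Bp xi p) (insert a S) (by
        intro p hp
        rcases mem_insert.1 hp with rfl | hp
        · exact hap
        · exact (hP p (hS hp)).2.1) D.W D.rho.1 D.rho.2 hW (by
        intro p hp
        rcases mem_insert.1 hp with rfl | hp
        · exact hacop.symm
        · refine ((hP p (hS hp)).2.1.coprime_iff_not_dvd.2 ?_).symm
          intro hd
          have := (hD.wok.1 p (hP p (hS hp)).2.1).1 hd
          have := (hP p (hS hp)).2.2.1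
          omega)
    have h2 : A.filter (fun v => ∀ p ∈ S, ((v.1 : ZMod p), (v.2 : ZMod p)) ∈ D.Bp xi p) =
        (D.RT Y xi).filter (fun v => (v.1 ≡ D.rho.1 [ZMOD D.W] ∧ v.2 ≡ D.rho.2 [ZMOD D.W]) ∧
          ∀ p ∈ insert a S, ((v.1 : ZMod p), (v.2 : ZMod p)) ∈ D.Bp xi p) := by
      rw [hA, filter_filter]
      refine filter_congr fun v _ => ?_
      simp only [mem_insert, forall_eq_or_imp]
      tauto
    rw [h2]
    rw [prod_insert haS, prod_insert haS] at h1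
    have h3 : Real.pi * Y / 8 / (D.W : ℝ) ^ 2 * (((D.Bp xi a).card : ℝ) / (a : ℝ) ^ 2 *
        ∏ p ∈ S, ((D.Bp xi p).card : ℝ) / (p : ℝ) ^ 2) = X * ∏ p ∈ S, g p := by
      rw [hX, ← mul_assoc]
    rw [h3] at h1
    refine h1.trans ?_
    have h4 : ∏ p ∈ S, ((D.Bp xi p).card : ℝ) ≤ (z ^ (4 * b + 5)) ^ 2 := by
      have h5 : ∏ p ∈ S, ((D.Bp xi p).card : ℝ) ≤ ∏ p ∈ S, ((p : ℝ) ^ 2) := by
        refine prod_le_prod (fun p _ => Nat.cast_nonneg _) fun p hp => ?_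
        obtain ⟨h1, h2, h3, _⟩ := hP p (hS hp)
        have h6 := (card_Bp_bad hD xi p h2 h1 h3).1
        exact_mod_cast h6
      refine h5.trans ?_
      rw [prod_pow]
      push_cast at hS'
      exact pow_le_pow_left₀ (prod_nonneg fun p _ => Nat.cast_nonneg p) hS' 2
    have h5 : ((D.Bp xi a).card : ℝ) ≤ a := by exact_mod_cast hBa.2
    have h6 : 0 ≤ ∏ p ∈ S, ((D.Bp xi p).card : ℝ) := prod_nonneg fun p _ => Nat.cast_nonneg _
    calc E0 * (((D.Bp xi a).card : ℝ) * ∏ p ∈ S, ((D.Bp xi p).card : ℝ))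
        ≤ E0 * (a * (z ^ (4 * b + 5)) ^ 2) :=
          mul_le_mul_of_nonneg_left (mul_le_mul h5 h4 h6 haR.le) hE0'
      _ = E0 * a * (z ^ (4 * b + 5)) ^ 2 := by ring
  have hs : X * (∏ p ∈ P, (1 - g p)) * (1 - C * Real.exp (-b)) -
      E0 * a * (z ^ (4 * b + 5)) ^ 2 * z ^ (4 * b + 5) ≤
      ((A.filter (fun v => ∀ p ∈ P, ¬ ((v.1 : ZMod p), (v.2 : ZMod p)) ∈ D.Bp xi p)).card : ℝ) := by
    have h := (hC z b P g hz hb hdens (ℤ × ℤ) A (fun p v => ((v.1 : ZMod p), (v.2 : ZMod p)) ∈ D.Bp xi p) X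
      (E0 * a * (z ^ (4 * b + 5)) ^ 2) hX0 (by positivity) (by
        intro S hS hS'
        convert herr S hS hS')).2
    convert h
  -- the sifted set
  have hsub : A.filter (fun v => ∀ p ∈ P, ¬ ((v.1 : ZMod p), (v.2 : ZMod p)) ∈ D.Bp xi p) ⊆ D.Sft Y z xi := by
    intro v hv
    rw [mem_filter, hA, mem_filter] at hv
    obtain ⟨⟨h1, h2, h3⟩, h4⟩ := hv
    have h5 := (mem_Bp_good D xi hap.ne_zero v).1 h3
    unfold Dat.Sft
    rw [mem_filter]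
    refine ⟨h1, h2, h5.1, fun p hp l hl => ?_⟩
    by_cases hpa : p = a
    · subst hpa
      exact h5.2 l hl
    · have h6 : p ∈ P := by
        rw [hPdef, mem_erase]
        exact ⟨hpa, hp⟩
      exact h4 p h6 ((mem_Bp_bad D xi p (mem_Pw.1 hp).1.ne_zero hpa v).2 ⟨l, hl⟩)
  have hcard : ((A.filter (fun v => ∀ p ∈ P, ¬ ((v.1 : ZMod p), (v.2 : ZMod p)) ∈ D.Bp xi p)).card : ℝ) ≤
      ((D.Sft Y z xi).card : ℝ) := by
    exact_mod_cast card_le_card hsub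
  -- comparison of the products
  have hprod := prod_compare k D.w z (CC k) η (by omega) (by omega) (by unfold CC; linarith) hη hkη P
    (by rw [hPdef]; exact erase_subset _ _) g (fun l => D.m xi l) (fun l => m_ne hD hF l) (by
      intro p hp
      obtain ⟨h1, h2, h3, h4⟩ := hP p hp
      have h5 := card_Bp_bad hD xi p h2 h1 h3
      have hpR : (D.w : ℝ) < p := by exact_mod_cast h3
      have hp0 : (0 : ℝ) < p := hwR.trans hpR
      constructor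
      · have h6 : (((D.Bp xi p).card : ℕ) : ℝ) ≤ k * (p + 1) + p := by exact_mod_cast h5.2.1
        have h7 : (k : ℝ) / p + k / (p : ℝ) ^ 2 + 1 / p = (k * (p + 1) + p) / (p : ℝ) ^ 2 := by
          field_simp
        rw [h7]
        exact div_le_div_of_nonneg_right h6 (by positivity)
      · intro hn
        have h6 : (((D.Bp xi p).card : ℕ) : ℝ) ≤ k * (p + 1) := by exact_mod_cast h5.2.2 hn
        have h7 : (k : ℝ) / p + k / (p : ℝ) ^ 2 = (k * (p + 1)) / (p : ℝ) ^ 2 := by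
          field_simp
        rw [h7]
        exact div_le_div_of_nonneg_right h6 (by positivity)) (fun l => hF.good l)
  refine le_trans ?_ (hs.trans hcard)
  have e1 : E0 * a * (z ^ (4 * b + 5)) ^ 2 * z ^ (4 * b + 5) =
      16 * (√((2 * (Y : ℝ) + D.h D.i + a) / 2) + 1) * a * (z ^ (4 * b + 5)) ^ 2 * z ^ (4 * b + 5) := by rw [hE0]
  rw [← e1]
  refine sub_le_sub_right ?_ _
  have v0 : 0 ≤ VV k D.w z := by
    unfold VV
    refine prod_nonneg fun p hp => ?_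
    have h2 := mem_Pw.1 hp
    have h3 : (D.w : ℝ) < p := by exact_mod_cast h2.2.1
    rw [sub_nonneg, div_le_one (by linarith)]
    linarith
  have v1 : 0 ≤ 1 - 2 * k / (D.w : ℝ) := by
    rw [sub_nonneg, div_le_one hwR]
    linarith
  have hXl : mu D.W a * (Y / (4 * D.W : ℕ)) * (1 - 2 * k / (D.w : ℝ)) ≤ X := by
    have h1 : (a : ℝ) - 2 * k ≤ ((D.Bp xi a).card : ℝ) := by
      have : (a : ℝ) ≤ ((D.Bp xi a).card : ℝ) + 2 * k := by exact_mod_cast hBa.1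
      linarith
    have h2 : X = mu D.W a * (Y / (4 * D.W : ℕ)) * (((D.Bp xi a).card : ℝ) / a) := by
      rw [hX, mu]
      push_cast
      field_simp
      ring
    rw [h2]
    have h3 : 0 ≤ mu D.W a * (Y / (4 * D.W : ℕ)) := by
      unfold mu
      positivity
    apply mul_le_mul_of_nonneg_left _ h3
    rw [le_div_iff₀ haR]
    have h4 : 2 * (k : ℝ) ≤ 2 * k / (D.w : ℝ) * a := by
      rw [div_mul_eq_mul_div, le_div_iff₀ hwR]
      apply mul_le_mul_of_nonneg_left hwaR.le (by positivity)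
    linarith
  have c0 : 0 ≤ 1 - C * Real.exp (-b) := by linarith
  have h3 : 0 ≤ mu D.W a * (Y / (4 * D.W : ℕ)) * (1 - 2 * k / (D.w : ℝ)) := by
    unfold mu
    positivity
  have h4 : 0 ≤ VV k D.w z * ((1 - 2 * k / (D.w : ℝ)) * (1 - k * η)) :=
    mul_nonneg v0 (mul_nonneg v1 (by linarith))
  calc (1 - C * Real.exp (-b)) * ((1 - 2 * (k : ℝ) / (D.w : ℝ)) * ((1 - 2 * (k : ℝ) / (D.w : ℝ)) * (1 - k * η))) *
        (mu D.W a * (Y / (4 * D.W : ℕ)) * VV k D.w z)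
      = (mu D.W a * (Y / (4 * D.W : ℕ)) * (1 - 2 * k / (D.w : ℝ))) *
          (VV k D.w z * ((1 - 2 * k / (D.w : ℝ)) * (1 - k * η))) * (1 - C * Real.exp (-b)) := by ring
    _ ≤ X * (∏ p ∈ P, (1 - g p)) * (1 - C * Real.exp (-b)) :=
        mul_le_mul_of_nonneg_right (mul_le_mul hXl hprod h4 hX0) c0

end Pool.Agent.W33f
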