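import Pool.Agent.W_d33b62f_h37.SMb5
import Pool.Agent.W_d33b62f_h37.ZS
import Pool.Agent.W_d33b62f_h37.LL

/-!
# First moment (MP_d33b62, SMb): points which are not primitive (helper47)
-/

set_option autoImplicit false

noncomputable section

open Finset

namespace Pool.Agent.W33f

theorem abs_le_nm (z : ℤ × ℤ) : |z.1| ≤ nm z ∧ |z.2| ≤ nm z := by
  unfold nm
  constructor <;> rw [abs_le] <;> constructor <;>
    nlinarith [sq_nonneg (z.1 - 1), sq_nonneg (z.1 + 1), sq_nonneg (z.2 - 1), sq_nonneg (z.2 + 1), sq_nonneg z.1,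
      sq_nonneg z.2]

/-- The multiples of `d` in a disc, without `0`. -/
theorem mult_count (N d : ℕ) (hd : 0 < d) (T : Finset (ℤ × ℤ))
    (hT : ∀ z ∈ T, (d : ℤ) ∣ z.1 ∧ (d : ℤ) ∣ z.2 ∧ 0 < nm z ∧ nm z ≤ N) :
    (T.card : ℝ) ≤ 9 * N * (1 / (d : ℝ) ^ 2) := by
  classical
  have hdR : (0 : ℝ) < d := by exact_mod_cast hd
  set M := N / d ^ 2 with hM
  set s := Nat.sqrt M with hs
  have hd2 : 0 < d ^ 2 := by positivity
  have key : ∀ z ∈ T, ∃ x y : ℤ, z = (d * x, d * y) ∧ x.natAbs ≤ s ∧ y.natAbs ≤ s ∧ 1 ≤ M := by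
    rintro ⟨z1, z2⟩ hz
    obtain ⟨⟨x, hx⟩, ⟨y, hy⟩, h3, h4⟩ := hT _ hz
    simp only at hx hy
    subst hx hy
    unfold nm at h3 h4
    simp only at h3 h4
    have e : ((d : ℤ) * x) ^ 2 + ((d : ℤ) * y) ^ 2 = ((x.natAbs ^ 2 + y.natAbs ^ 2) * d ^ 2 : ℕ) := by
      push_cast
      rw [sq_abs, sq_abs]
      ring
    rw [e] at h3 h4
    have h5 : (x.natAbs ^ 2 + y.natAbs ^ 2) * d ^ 2 ≤ N := by exact_mod_cast h4
    have h6 : 0 < (x.natAbs ^ 2 + y.natAbs ^ 2) * d ^ 2 := by exact_mod_cast h3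
    have h7 : x.natAbs ^ 2 + y.natAbs ^ 2 ≤ M := (Nat.le_div_iff_mul_le hd2).2 h5
    have h8 : 0 < x.natAbs ^ 2 + y.natAbs ^ 2 := Nat.pos_of_mul_pos_right h6 |> fun h => by
      rcases Nat.eq_zero_or_pos (x.natAbs ^ 2 + y.natAbs ^ 2) with h' | h'
      · rw [h'] at h6
        simp at h6
      · exact h'
    refine ⟨x, y, rfl, ?_, ?_, by omega⟩
    · rw [hs, Nat.le_sqrt, ← pow_two]
      have := Nat.zero_le (y.natAbs ^ 2)
      omega
    · rw [hs, Nat.le_sqrt, ← pow_two]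
      have := Nat.zero_le (x.natAbs ^ 2)
      omega
  rcases T.eq_empty_or_nonempty with h0 | ⟨z0, hz0⟩
  · rw [h0, card_empty, Nat.cast_zero]
    positivity
  · have hM1 : 1 ≤ M := by
      obtain ⟨_, _, _, _, _, h⟩ := key z0 hz0
      exact h
    have hs1 : 1 ≤ s := by
      rw [hs, Nat.le_sqrt]
      omega
    have hsM : s * s ≤ M := Nat.sqrt_le M
    have hsub : T ⊆ ((Icc (-(s : ℤ)) s) ×ˢ (Icc (-(s : ℤ)) s)).image fun v => ((d : ℤ) * v.1, (d : ℤ) * v.2) := by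
      intro z hz
      obtain ⟨x, y, rfl, h1, h2, _⟩ := key z hz
      rw [mem_image]
      refine ⟨(x, y), ?_, rfl⟩
      rw [mem_product, mem_Icc, mem_Icc]
      simp only
      omega
    have h1 : T.card ≤ (2 * s + 1) * (2 * s + 1) := by
      refine (card_le_card hsub).trans (card_image_le.trans ?_)
      rw [card_product, Int.card_Icc]
      apply le_of_eq
      have : (((s : ℤ) + 1 - -(s : ℤ))).toNat = 2 * s + 1 := by omega
      rw [this]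
    have h2 : (2 * s + 1) * (2 * s + 1) ≤ 9 * M := by nlinarith
    have h3 : (T.card : ℝ) ≤ 9 * M := by exact_mod_cast h1.trans h2
    refine h3.trans ?_
    have h4 : (M : ℝ) ≤ N / (d : ℝ) ^ 2 := by
      have := Nat.cast_div_le (α := ℝ) (m := N) (n := d ^ 2)
      rw [← hM] at this
      push_cast at this
      exact this
    have h5 : 9 * (N : ℝ) * (1 / (d : ℝ) ^ 2) = 9 * (N / (d : ℝ) ^ 2) := by ring
    rw [h5]
    linarith

/-- The sifted points: what they satisfy. -/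
theorem Sft_mem {k : ℕ} {D : Dat k} (hD : D.ok) {Y : ℕ} {z : ℝ} {B B' : ℕ} {C η : ℝ} {xi : ℤ × ℤ}
    (hF : D.Fam Y B B' C η xi) (v : ℤ × ℤ) (hv : v ∈ D.Sft Y z xi) :
    v.1 ≡ D.rho.1 [ZMOD D.W] ∧ v.2 ≡ D.rho.2 [ZMOD D.W] ∧ |v.2| < v.1 ∧
      (D.a xi : ℤ) ∣ (xi.1 - xi.2) * v.1 + (xi.1 + xi.2) * v.2 ∧
      ∃ n ∈ D.N1 Y z, 2 * nm v = n + D.h D.i + D.a xi := by
  classical
  unfold Dat.Sft at hv
  rw [mem_filter, Set.Finite.mem_toFinset] at hv
  obtain ⟨⟨_, _, h1, h2, h3⟩, ⟨h4, h5⟩, h6, h7⟩ := hv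
  have h1' : |v.2| < v.1 := by
    rw [one_mul] at h1
    have : ((|v.2| : ℤ) : ℝ) < ((v.1 : ℤ) : ℝ) := by
      rw [Int.cast_abs]
      exact h1
    exact_mod_cast this
  have h2' : (Y : ℤ) + D.h D.i + D.a xi < 2 * nm v := by
    have : (((Y : ℤ) + D.h D.i + D.a xi : ℤ) : ℝ) < ((2 * nm v : ℤ) : ℝ) := by
      unfold nm
      push_cast
      linarith
    exact_mod_cast this
  have h3' : 2 * nm v ≤ 2 * (Y : ℤ) + D.h D.i + D.a xi := by
    have : ((2 * nm v : ℤ) : ℝ) ≤ ((2 * (Y : ℤ) + D.h D.i + D.a xi : ℤ) : ℝ) := by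
      unfold nm
      push_cast
      linarith
    exact_mod_cast this
  refine ⟨h4, h5, h1', h6, ?_⟩
  obtain ⟨n, hn⟩ : ∃ n : ℕ, (n : ℤ) = 2 * nm v - D.h D.i - D.a xi :=
    ⟨(2 * nm v - D.h D.i - D.a xi).toNat, Int.toNat_of_nonneg (by omega)⟩
  refine ⟨n, ?_, by omega⟩
  unfold Dat.N1
  rw [mem_filter, mem_Ioc]
  refine ⟨⟨by omega, by omega⟩, ?_, ?_⟩
  · -- the class modulo `4 W`
    have h8 : ((4 * D.W : ℕ) : ℤ) ∣ 2 * nm v - 2 * nm D.rho := by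
      obtain ⟨s, hs⟩ := (Int.modEq_iff_dvd.1 h4.symm)
      obtain ⟨t, ht⟩ := (Int.modEq_iff_dvd.1 h5.symm)
      obtain ⟨W', hW'⟩ := hD.wok.2.1
      have e1 : v.1 = D.rho.1 + D.W * s := by linarith
      have e2 : v.2 = D.rho.2 + D.W * t := by linarith
      refine ⟨D.rho.1 * s + D.rho.2 * t + 4 * W' * (s ^ 2 + t ^ 2), ?_⟩
      have hWz : (D.W : ℤ) = 8 * W' := by exact_mod_cast hW'
      unfold nm
      rw [e1, e2]
      push_cast
      rw [hWz]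
      ring
    have h9 := hD.hrho
    have h10 := hF.cl
    have h11 : ((n : ℕ) : ℤ) ≡ ((D.b : ℕ) : ℤ) [ZMOD ((4 * D.W : ℕ) : ℤ)] := by
      have h12 : 2 * nm v ≡ 2 * nm D.rho [ZMOD ((4 * D.W : ℕ) : ℤ)] := (Int.modEq_iff_dvd.2 h8).symm
      have h13 := h12.trans h9
      have h14 : ((D.a xi : ℕ) : ℤ) ≡ ((D.al : ℕ) : ℤ) [ZMOD ((4 * D.W : ℕ) : ℤ)] := Int.natCast_modEq_iff.2 h10
      have h15 := (h13.sub_right (D.h D.i : ℤ)).sub h14
      rw [hn]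
      have e3 : ((D.b + D.h D.i + D.al : ℕ) : ℤ) - D.h D.i - D.al = D.b := by
        push_cast
        ring
      rw [e3] at h15
      exact h15
    exact Int.natCast_modEq_iff.1 h11
  · intro p hp l hl
    apply h7 p hp l
    have e : 2 * nm v - D.m xi l = (n : ℤ) + D.h l := by
      unfold Dat.m
      rw [hn]
      ring
    rw [e]
    exact hl

end Pool.Agent.W33f
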