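import Pool.Agent.W_d33b62f_h37.SMb6

/-!
# First moment (MP_d33b62, SMb): the number of the points which are not primitive (helper47)
-/

set_option autoImplicit false

noncomputable section

open Finset

namespace Pool.Agent.W33f

/-- The set of `LL`. -/
def Dat.LS {k : ℕ} (D : Dat k) (Y : ℕ) (z : ℝ) (xi u : ℤ × ℤ) : Set (ℤ × ℤ) :=
  {v : ℤ × ℤ | v.1 ≡ D.rho.1 [ZMOD D.W] ∧ v.2 ≡ D.rho.2 [ZMOD D.W] ∧
    (D.a xi : ℤ) ∣ (xi.1 - xi.2) * v.1 + (xi.1 + xi.2) * v.2 ∧ (∃ z₁, v = gm u z₁) ∧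
    ∃ n ∈ D.N1 Y z, 2 * nm v = n + D.h D.i + D.a xi}

theorem LS_fin {k : ℕ} (D : Dat k) (Y : ℕ) (z : ℝ) (xi u : ℤ × ℤ) : (D.LS Y z xi u).Finite := by
  classical
  refine Set.Finite.subset (Set.finite_Icc
    ((-(2 * Y + D.h D.i + D.a xi : ℤ), -(2 * Y + D.h D.i + D.a xi : ℤ)) : ℤ × ℤ)
    ((2 * Y + D.h D.i + D.a xi : ℤ), (2 * Y + D.h D.i + D.a xi : ℤ))) ?_
  rintro v ⟨_, _, _, _, n, hn, h⟩
  unfold Dat.N1 at hn
  rw [mem_filter, mem_Ioc] at hn
  have h1 := abs_le_nm v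
  have h2 := abs_le.1 h1.1
  have h3 := abs_le.1 h1.2
  have h0 : 0 ≤ nm v := (abs_nonneg _).trans h1.1
  have h4 : (n : ℤ) ≤ 2 * Y := by exact_mod_cast hn.1.2
  have h5 : nm v ≤ 2 * Y + D.h D.i + D.a xi := by linarith
  rw [← Set.Icc_prod_Icc]
  refine ⟨⟨?_, ?_⟩, ⟨?_, ?_⟩⟩ <;> linarith [h2.1, h2.2, h3.1, h3.2]

theorem np_count {k : ℕ} {D : Dat k} (hD : D.ok) {Y B B' : ℕ} {z C η : ℝ} {xi : ℤ × ℤ}
    (hF : D.Fam Y B B' C η xi) (R N : ℕ) (hR : 1 ≤ R) (C₄ M : ℝ) (hC₄ : 0 ≤ C₄) (hM : 0 ≤ M)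
    (hN : 2 * Y + D.h D.i + D.a xi ≤ 2 * N)
    (hLL : ∀ p : ℕ, p.Prime → D.w < p → p ≤ R → ((D.LS Y z xi ((p : ℤ), 0)).ncard : ℝ) ≤
      C₄ * (1 / (p : ℝ) ^ 2) * 2 * (if p = D.a xi then (D.a xi : ℝ) else 1) * M) :
    (((D.Sft Y z xi).filter (fun v => Int.gcd v.1 v.2 ≠ 1)).card : ℝ) ≤
      4 * C₄ / D.w * M + 9 * N * (1 / R) := by
  classical
  have hgt := (a_gt hD hF).1
  have hap := hF.ap
  have hw6 := hD.hw
  set a := D.a xi with ha
  have hwR : (0 : ℝ) < D.w := by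
    have : 0 < D.w := by omega
    exact_mod_cast this
  have haR : (0 : ℝ) < a := by exact_mod_cast hap.pos
  have hwaR : (D.w : ℝ) < a := by exact_mod_cast hgt
  set F : ℕ → Finset (ℤ × ℤ) := fun p => (D.Sft Y z xi).filter (fun v => (p : ℤ) ∣ v.1 ∧ (p : ℤ) ∣ v.2) with hFdef
  set P1 := (Ioc D.w R).filter Nat.Prime with hP1
  set P2 := (Ioc R N).filter Nat.Prime with hP2
  have hnm : ∀ v ∈ D.Sft Y z xi, 0 < nm v ∧ nm v ≤ N := by
    intro v hv
    obtain ⟨_, _, h3, _, n, hn, h5⟩ := Sft_mem hD hF v hv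
    have hn2 : n ≤ 2 * Y := by
      unfold Dat.N1 at hn
      rw [mem_filter, mem_Ioc] at hn
      exact hn.1.2
    constructor
    · have h1 := (abs_nonneg v.2).trans_lt h3
      have h2 := (abs_le_nm v).1
      rw [abs_of_pos h1] at h2
      exact h1.trans_le h2
    · omega
  have hcov : (D.Sft Y z xi).filter (fun v => Int.gcd v.1 v.2 ≠ 1) ⊆ P1.biUnion F ∪ P2.biUnion F := by
    intro v hv
    rw [mem_filter] at hv
    obtain ⟨hv1, hv2⟩ := hv
    obtain ⟨p, hp, hpd⟩ := Nat.exists_prime_and_dvd hv2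
    have h1 : (p : ℤ) ∣ v.1 := (Int.natCast_dvd_natCast.2 hpd).trans (Int.gcd_dvd_left v.1 v.2)
    have h2 : (p : ℤ) ∣ v.2 := (Int.natCast_dvd_natCast.2 hpd).trans (Int.gcd_dvd_right v.1 v.2)
    obtain ⟨h3, _, h4, _, _⟩ := Sft_mem hD hF v hv1
    have hpw : D.w < p := by
      by_contra hcon
      have h5 := (hD.wok.1 p hp).2 (by omega)
      have h6 : (p : ℤ) ∣ D.rho.1 := by
        have h7 : (p : ℤ) ∣ D.rho.1 - v.1 := (Int.natCast_dvd_natCast.2 h5).trans (Int.modEq_iff_dvd.1 h3)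
        have := dvd_add h7 h1
        simpa using this
      have h8 := hD.hrho1
      have h9 : IsUnit ((p : ℤ)) := h8.isUnit_of_dvd' h6 (Int.natCast_dvd_natCast.2 h5)
      rw [Int.isUnit_iff] at h9
      have := hp.two_le
      omega
    have hv0 := hnm v hv1
    have hpN : p ≤ N := by
      have h5 := (abs_nonneg v.2).trans_lt h4
      have h6 := Int.le_of_dvd h5 h1
      have h7 := (abs_le_nm v).1
      rw [abs_of_pos h5] at h7
      have : (p : ℤ) ≤ N := by linarith [hv0.2]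
      exact_mod_cast this
    have hvF : v ∈ F p := by
      simp only [hFdef]
      rw [mem_filter]
      exact ⟨hv1, h1, h2⟩
    rw [mem_union, mem_biUnion, mem_biUnion]
    rcases le_or_gt p R with h | h
    · left
      refine ⟨p, ?_, hvF⟩
      rw [hP1, mem_filter, mem_Ioc]
      exact ⟨⟨hpw, h⟩, hp⟩
    · right
      refine ⟨p, ?_, hvF⟩
      rw [hP2, mem_filter, mem_Ioc]
      exact ⟨⟨h, hpN⟩, hp⟩
  have hc1 : (((D.Sft Y z xi).filter (fun v => Int.gcd v.1 v.2 ≠ 1)).card : ℝ) ≤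
      ∑ p ∈ P1, ((F p).card : ℝ) + ∑ p ∈ P2, ((F p).card : ℝ) := by
    have h1 := (card_le_card hcov).trans ((card_union_le _ _).trans (add_le_add card_biUnion_le card_biUnion_le))
    exact_mod_cast h1
  refine hc1.trans (add_le_add ?_ ?_)
  · have h1 : ∀ p ∈ P1, ((F p).card : ℝ) ≤ 2 * C₄ * M * (1 / (p : ℝ) ^ 2 + if p = a then 1 / (a : ℝ) else 0) := by
      intro p hp
      rw [hP1, mem_filter, mem_Ioc] at hp
      have h2 := hLL p hp.2 hp.1.1 hp.1.2
      have h3 : (F p).card ≤ (D.LS Y z xi ((p : ℤ), 0)).ncard := by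
        rw [← Set.ncard_coe_finset]
        refine Set.ncard_le_ncard ?_ (LS_fin D Y z xi _)
        intro v hv
        rw [mem_coe] at hv
        simp only [hFdef] at hv
        rw [mem_filter] at hv
        obtain ⟨hv1, ⟨x, hx⟩, y, hy⟩ := hv
        obtain ⟨h4, h5, _, h6, h7⟩ := Sft_mem hD hF v hv1
        refine ⟨h4, h5, h6, ⟨(x, y), ?_⟩, h7⟩
        unfold gm
        simp only [zero_mul, sub_zero, add_zero]
        exact Prod.ext hx hy
      have h3' : ((F p).card : ℝ) ≤ ((D.LS Y z xi ((p : ℤ), 0)).ncard : ℝ) := by exact_mod_cast h3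
      refine h3'.trans (h2.trans ?_)
      have hp0 : (0 : ℝ) < p := by exact_mod_cast hp.2.pos
      have hcm : 0 ≤ 2 * C₄ * M := by positivity
      have e : C₄ * (1 / (p : ℝ) ^ 2) * 2 * (if p = a then (a : ℝ) else 1) * M =
          2 * C₄ * M * ((1 / (p : ℝ) ^ 2) * (if p = a then (a : ℝ) else 1)) := by ring
      rw [e]
      apply mul_le_mul_of_nonneg_left _ hcm
      by_cases hpa : p = a
      · rw [if_pos hpa, if_pos hpa, hpa]
        have : 1 / (a : ℝ) ^ 2 * a = 1 / a := by field_simp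
        rw [this]
        have : 0 ≤ 1 / (a : ℝ) ^ 2 := by positivity
        linarith
      · rw [if_neg hpa, if_neg hpa]
        linarith
    refine (sum_le_sum h1).trans ?_
    rw [← mul_sum, sum_add_distrib]
    have h2 := sum_inv_sq_le D.w (by omega) P1 (fun p hp => by
      rw [hP1, mem_filter, mem_Ioc] at hp
      exact hp.1.1)
    have h3 : ∑ p ∈ P1, (if p = a then 1 / (a : ℝ) else 0) ≤ 1 / (D.w : ℝ) := by
      have h4 : 1 / (a : ℝ) ≤ 1 / (D.w : ℝ) := one_div_le_one_div_of_le hwR hwaR.le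
      rw [sum_ite_eq']
      split_ifs
      · exact h4
      · positivity
    have hcm : 0 ≤ 2 * C₄ * M := by positivity
    calc 2 * C₄ * M * (∑ p ∈ P1, 1 / (p : ℝ) ^ 2 + ∑ p ∈ P1, (if p = a then 1 / (a : ℝ) else 0))
        ≤ 2 * C₄ * M * (1 / (D.w : ℝ) + 1 / (D.w : ℝ)) := mul_le_mul_of_nonneg_left (add_le_add h2 h3) hcm
      _ = 4 * C₄ / D.w * M := by ring
  · have h1 : ∀ p ∈ P2, ((F p).card : ℝ) ≤ 9 * N * (1 / (p : ℝ) ^ 2) := by
      intro p hp
      rw [hP2, mem_filter, mem_Ioc] at hp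
      refine mult_count N p hp.2.pos (F p) ?_
      intro v hv
      simp only [hFdef] at hv
      rw [mem_filter] at hv
      exact ⟨hv.2.1, hv.2.2, (hnm v hv.1).1, (hnm v hv.1).2⟩
    refine (sum_le_sum h1).trans ?_
    rw [← mul_sum]
    apply mul_le_mul_of_nonneg_left _ (by positivity)
    exact sum_inv_sq_le R hR P2 (fun p hp => by
      rw [hP2, mem_filter, mem_Ioc] at hp
      exact hp.1.1)

end Pool.Agent.W33f
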