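import Pool.Agent.W_d33b62f_h37.SMb7

/-!
# First moment (MP_d33b62, SMb): the error terms (helper47)
-/

set_option autoImplicit false

noncomputable section

open Finset Filter

namespace Pool.Agent.W33f

theorem err_bound (W B' : ℕ) (hW : 0 < W) (ε : ℝ) (hε : 0 < ε) : ∃ Y₀ : ℕ, ∀ Y : ℕ, Y₀ ≤ Y →
    (10 ^ 6 : ℝ) ≤ Y ∧ (Real.log Y) ^ B' ≤ Y ∧ 1 ≤ ⌊(Y : ℝ) ^ (1 / 200 : ℝ)⌋₊ ∧
    ∀ a : ℝ, 0 < a → a ≤ (Real.log Y) ^ B' → ∀ t : ℝ, 0 ≤ t → t ≤ (Y : ℝ) ^ (1 / 40 : ℝ) →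
      16 * (√(2 * (Y : ℝ)) + 1) * a * t ^ 2 * t + 9 * ((2 * Y : ℕ) : ℝ) * (1 / (⌊(Y : ℝ) ^ (1 / 200 : ℝ)⌋₊ : ℝ)) ≤
        ε * (Real.pi / (8 * (W : ℝ) ^ 2 * a) * Y * (Y : ℝ) ^ (-(1 / 400 : ℝ))) := by
  have hWR : (0 : ℝ) < W := by exact_mod_cast hW
  set c : ℝ := ε * (Real.pi / (8 * (W : ℝ) ^ 2)) / 84 with hc
  have hc0 : 0 < c := by positivity
  have h2 : (fun x : ℝ => Real.log x ^ (2 * B')) =o[atTop] fun x : ℝ => x ^ (1 / 400 : ℝ) := by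
    have := isLittleO_log_rpow_rpow_atTop ((2 * B' : ℕ) : ℝ) (show (0 : ℝ) < 1 / 400 by norm_num)
    refine this.congr_left fun x => ?_
    rw [Real.rpow_natCast]
  have h2' : (fun x : ℝ => Real.log x ^ B') =o[atTop] fun x : ℝ => x ^ (1 : ℝ) := by
    have := isLittleO_log_rpow_rpow_atTop ((B' : ℕ) : ℝ) (show (0 : ℝ) < 1 by norm_num)
    refine this.congr_left fun x => ?_
    rw [Real.rpow_natCast]
  have h3 := h2.bound hc0
  have h3' := h2'.bound one_pos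
  have hcast : Tendsto (fun n : ℕ => (n : ℝ)) atTop atTop := tendsto_natCast_atTop_atTop
  have h4 := hcast.eventually h3
  have h4' := hcast.eventually h3'
  have h5 := hcast.eventually (eventually_ge_atTop (10 ^ 6 : ℝ))
  have h6 := hcast.eventually (eventually_ge_atTop ((2 : ℝ) ^ (200 : ℕ)))
  obtain ⟨Y₀, hY₀⟩ := eventually_atTop.1 (h4.and (h4'.and (h5.and h6)))
  refine ⟨Y₀, fun Y hY => ?_⟩
  obtain ⟨g1, g2, g3, g4⟩ := hY₀ Y hY
  set y : ℝ := (Y : ℝ) with hy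
  have hy1 : (1 : ℝ) ≤ y := by linarith
  have hy0 : (0 : ℝ) < y := by linarith
  have hL1 : 1 ≤ Real.log y := by
    rw [Real.le_log_iff_exp_le hy0]
    have := Real.exp_one_lt_d9
    linarith
  have hL0 : 0 ≤ Real.log y := by linarith
  have hLB : 1 ≤ Real.log y ^ B' := one_le_pow₀ hL1
  rw [Real.norm_of_nonneg (by positivity), Real.norm_of_nonneg (by positivity)] at g1
  rw [Real.norm_of_nonneg (by positivity), Real.norm_of_nonneg (by positivity), Real.rpow_one, one_mul] at g2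
  have hr2 : (2 : ℝ) ≤ y ^ (1 / 200 : ℝ) := by
    have h7 : ((2 : ℝ) ^ (200 : ℕ)) ^ (1 / 200 : ℝ) = 2 := by
      rw [← Real.rpow_natCast, ← Real.rpow_mul (by norm_num)]
      norm_num
    calc (2 : ℝ) = ((2 : ℝ) ^ (200 : ℕ)) ^ (1 / 200 : ℝ) := h7.symm
      _ ≤ y ^ (1 / 200 : ℝ) := Real.rpow_le_rpow (by positivity) g4 (by norm_num)
  set R := ⌊y ^ (1 / 200 : ℝ)⌋₊ with hR
  have hR1 : 1 ≤ R := by
    rw [hR, Nat.one_le_floor_iff]
    linarith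
  have hRR : y ^ (1 / 200 : ℝ) / 2 ≤ R := by
    have := Nat.lt_floor_add_one (y ^ (1 / 200 : ℝ))
    rw [← hR] at this
    linarith
  refine ⟨g3, g2, hR1, ?_⟩
  intro a ha haL t ht htY
  have hs : √(2 * y) + 1 ≤ 3 * y ^ (1 / 2 : ℝ) := by
    rw [Real.sqrt_eq_rpow, Real.mul_rpow (by norm_num) hy0.le]
    have h7 : (2 : ℝ) ^ (1 / 2 : ℝ) ≤ 2 := by
      calc (2 : ℝ) ^ (1 / 2 : ℝ) ≤ (2 : ℝ) ^ (1 : ℝ) := Real.rpow_le_rpow_of_exponent_le (by norm_num) (by norm_num)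
        _ = 2 := Real.rpow_one 2
    have h8 : 1 ≤ y ^ (1 / 2 : ℝ) := Real.one_le_rpow hy1 (by norm_num)
    nlinarith
  have hbase : 0 ≤ y ^ (199 / 200 : ℝ) := by positivity
  have e1 : 16 * (√(2 * y) + 1) * a * t ^ 2 * t ≤ 48 * Real.log y ^ B' * y ^ (199 / 200 : ℝ) := by
    have h7 : t ^ 2 * t ≤ y ^ (3 / 40 : ℝ) := by
      have h8 : t ^ 3 ≤ (y ^ (1 / 40 : ℝ)) ^ 3 := pow_le_pow_left₀ ht htY 3
      have h9 : (y ^ (1 / 40 : ℝ)) ^ 3 = y ^ (3 / 40 : ℝ) := by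
        rw [← Real.rpow_natCast, ← Real.rpow_mul hy0.le]
        norm_num
      rw [h9] at h8
      calc t ^ 2 * t = t ^ 3 := by ring
        _ ≤ _ := h8
    have h8 : y ^ (1 / 2 : ℝ) * y ^ (3 / 40 : ℝ) ≤ y ^ (199 / 200 : ℝ) := by
      rw [← Real.rpow_add hy0]
      exact Real.rpow_le_rpow_of_exponent_le hy1 (by norm_num)
    calc 16 * (√(2 * y) + 1) * a * t ^ 2 * t = 16 * a * ((√(2 * y) + 1) * (t ^ 2 * t)) := by ring
      _ ≤ 16 * Real.log y ^ B' * ((3 * y ^ (1 / 2 : ℝ)) * y ^ (3 / 40 : ℝ)) := by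
          apply mul_le_mul (mul_le_mul_of_nonneg_left haL (by norm_num)) _ (by positivity) (by positivity)
          exact mul_le_mul hs h7 (by positivity) (by positivity)
      _ = 48 * Real.log y ^ B' * (y ^ (1 / 2 : ℝ) * y ^ (3 / 40 : ℝ)) := by ring
      _ ≤ 48 * Real.log y ^ B' * y ^ (199 / 200 : ℝ) := mul_le_mul_of_nonneg_left h8 (by positivity)
  have e2 : 9 * ((2 * Y : ℕ) : ℝ) * (1 / (R : ℝ)) ≤ 36 * Real.log y ^ B' * y ^ (199 / 200 : ℝ) := by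
    have hR0 : (0 : ℝ) < R := by exact_mod_cast hR1
    have h7 : 1 / (R : ℝ) ≤ 2 * y ^ (-(1 / 200) : ℝ) := by
      rw [Real.rpow_neg hy0.le, div_le_iff₀ hR0]
      have h8 : 0 < y ^ (1 / 200 : ℝ) := by positivity
      have h9 : 2 * (y ^ (1 / 200 : ℝ))⁻¹ * R = 2 * R / y ^ (1 / 200 : ℝ) := by
        field_simp
      rw [h9, le_div_iff₀ h8]
      linarith
    have h8 : y * y ^ (-(1 / 200) : ℝ) = y ^ (199 / 200 : ℝ) := by
      nth_rewrite 1 [← Real.rpow_one y]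
      rw [← Real.rpow_add hy0]
      norm_num
    have h9 : ((2 * Y : ℕ) : ℝ) = 2 * y := by push_cast; rfl
    rw [h9]
    calc 9 * (2 * y) * (1 / (R : ℝ)) ≤ 9 * (2 * y) * (2 * y ^ (-(1 / 200) : ℝ)) :=
          mul_le_mul_of_nonneg_left h7 (by positivity)
      _ = 36 * (y * y ^ (-(1 / 200) : ℝ)) := by ring
      _ = 36 * y ^ (199 / 200 : ℝ) := by rw [h8]
      _ ≤ 36 * Real.log y ^ B' * y ^ (199 / 200 : ℝ) := by nlinarith
  have e3 : 84 * Real.log y ^ B' * y ^ (199 / 200 : ℝ) ≤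
      ε * (Real.pi / (8 * (W : ℝ) ^ 2 * a) * y * y ^ (-(1 / 400 : ℝ))) := by
    have h7 : y * y ^ (-(1 / 400) : ℝ) = y ^ (199 / 200 : ℝ) * y ^ (1 / 400 : ℝ) := by
      nth_rewrite 1 [← Real.rpow_one y]
      rw [← Real.rpow_add hy0, ← Real.rpow_add hy0]
      norm_num
    have h8 : ε * (Real.pi / (8 * (W : ℝ) ^ 2 * a) * y * y ^ (-(1 / 400 : ℝ))) =
        (84 * c * y ^ (1 / 400 : ℝ)) * y ^ (199 / 200 : ℝ) / a := by
      rw [mul_assoc (Real.pi / (8 * (W : ℝ) ^ 2 * a)), h7, hc]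
      field_simp
    rw [h8, le_div_iff₀ ha]
    have h9 : Real.log y ^ B' * a ≤ c * y ^ (1 / 400 : ℝ) := by
      calc Real.log y ^ B' * a ≤ Real.log y ^ B' * Real.log y ^ B' := mul_le_mul_of_nonneg_left haL (by positivity)
        _ = Real.log y ^ (2 * B') := by ring
        _ ≤ _ := g1
    calc 84 * Real.log y ^ B' * y ^ (199 / 200 : ℝ) * a = 84 * (Real.log y ^ B' * a) * y ^ (199 / 200 : ℝ) := by ring
      _ ≤ 84 * (c * y ^ (1 / 400 : ℝ)) * y ^ (199 / 200 : ℝ) := by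
          apply mul_le_mul_of_nonneg_right _ hbase
          apply mul_le_mul_of_nonneg_left h9 (by norm_num)
      _ = 84 * c * y ^ (1 / 400 : ℝ) * y ^ (199 / 200 : ℝ) := by ring
  linarith

end Pool.Agent.W33f
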