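import Pool.Agent.W_d33b62f_h37.Sm4
import Pool.Agent.W_d33b62f_h37.LL

/-!
# MP_d33b62_nt, full question: T6, circles of the same curvature (helper53)
-/

set_option autoImplicit false

noncomputable section

open Finset

namespace Pool.Agent.W33f

/-- **SMd.** Circles of the same curvature, upper bound. -/
theorem SMd (k : ℕ) : ∃ (c₁₀ C₃ : ℝ) (B : ℕ), 0 < c₁₀ ∧ 0 < C₃ ∧ ∀ c₁ : ℝ, 0 < c₁ → c₁ ≤ c₁₀ → ∃ w₀ : ℕ,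
    ∀ w ≥ w₀, ∀ W, Wok w W → ∀ B' : ℕ, ∃ Y₀ : ℕ, ∀ Y ≥ Y₀, ∀ D : Dat k, D.w = w → D.W = W → D.ok →
      ∀ xi, D.Fam Y B B' (CC k) 1 xi → ∀ J : Finset (ℤ × ℤ), (∀ xi' ∈ J, D.Fam Y B B' (CC k) 1 xi' ∧ D.a xi' = D.a xi) →
        ((∑ xi' ∈ J, ∑ n ∈ D.N1 Y ((Y : ℝ) ^ c₁), D.R xi n * D.R xi' n : ℕ) : ℝ) ≤
          C₃ * (mu W (D.a xi) * (Y / (4 * W : ℕ)) * VV k w ((Y : ℝ) ^ c₁)) :=
  SMd_of k (LL k)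

end Pool.Agent.W33f
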