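import Pool.Agent.W_d33b62f_h37.Df

/-!
# MP_d33b62_nt, full question (helper37): the second moment, level 2 statements

`μ = mu W a`. Every statement is for one circle or one pair of circles.
-/

set_option autoImplicit false

noncomputable section

open Finset

namespace Pool.Agent.W33f

/-- The number of points is finite (`|z| ≤ nm z`). -/
theorem ZS_fin {k : ℕ} (D : Dat k) (xi : ℤ × ℤ) (n : ℕ) : (D.ZS xi n).Finite := by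
  sorry

/-- `R > 0` gives a point. -/
theorem R_pos {k : ℕ} (D : Dat k) (xi : ℤ × ℤ) (n : ℕ) (h : D.R xi n ≠ 0) : ∃ z, z ∈ D.ZS xi n := by
  sorry

/-- **SMa.** The number of rough `n`. -/
theorem SMa (k : ℕ) : ∃ c₁₀ : ℝ, 0 < c₁₀ ∧ ∀ c₁ : ℝ, 0 < c₁ → c₁ ≤ c₁₀ → ∃ w₀ : ℕ, ∀ w ≥ w₀, ∀ W, Wok w W →
    ∃ Y₀ : ℕ, ∀ Y ≥ Y₀, ∀ D : Dat k, D.w = w → D.W = W → D.ok →
      ((D.N1 Y ((Y : ℝ) ^ c₁)).card : ℝ) ≤ (1 + c₁ ^ (k + 1) / 8) * (Y / (4 * W : ℕ)) * VV k w ((Y : ℝ) ^ c₁) := by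
  sorry

/-- **SMb.** The first moment, lower bound. -/
theorem SMb (k : ℕ) : ∃ (c₁₀ : ℝ) (B : ℕ), 0 < c₁₀ ∧ ∀ c₁ : ℝ, 0 < c₁ → c₁ ≤ c₁₀ → ∃ (η : ℝ) (w₀ : ℕ), 0 < η ∧
    ∀ w ≥ w₀, ∀ W, Wok w W → ∀ B' : ℕ, ∃ Y₀ : ℕ, ∀ Y ≥ Y₀, ∀ D : Dat k, D.w = w → D.W = W → D.ok →
      ∀ xi, D.Fam Y B B' (CC k) η xi →
        (1 - c₁ ^ (k + 1) / 8) * (mu W (D.a xi) * (Y / (4 * W : ℕ)) * VV k w ((Y : ℝ) ^ c₁)) ≤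
          ((∑ n ∈ D.N1 Y ((Y : ℝ) ^ c₁), D.R xi n : ℕ) : ℝ) := by
  sorry

/-- **SMc.** Pairs of circles of different curvatures, upper bound. -/
theorem SMc (k : ℕ) : ∃ (c₁₀ : ℝ) (B : ℕ), 0 < c₁₀ ∧ ∀ c₁ : ℝ, 0 < c₁ → c₁ ≤ c₁₀ → ∃ (η : ℝ) (w₀ : ℕ), 0 < η ∧
    ∀ w ≥ w₀, ∀ W, Wok w W → ∀ B' : ℕ, ∃ Y₀ : ℕ, ∀ Y ≥ Y₀, ∀ D : Dat k, D.w = w → D.W = W → D.ok →
      ∀ xi xi', D.Fam Y B B' (CC k) η xi → D.Fam Y B B' (CC k) η xi' → D.a xi ≠ D.a xi' →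
        ((∑ n ∈ D.N1 Y ((Y : ℝ) ^ c₁), D.R xi n * D.R xi' n : ℕ) : ℝ) ≤
          (1 + c₁ ^ (k + 1) / 8) * (mu W (D.a xi) * mu W (D.a xi') * EE (CC k) w ((D.a xi : ℤ) - D.a xi') *
            (Y / (4 * W : ℕ)) * VV k w ((Y : ℝ) ^ c₁)) := by
  sorry

/-- **SMd.** Circles of the same curvature, upper bound. -/
theorem SMd (k : ℕ) : ∃ (c₁₀ C₃ : ℝ) (B : ℕ), 0 < c₁₀ ∧ 0 < C₃ ∧ ∀ c₁ : ℝ, 0 < c₁ → c₁ ≤ c₁₀ → ∃ w₀ : ℕ,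
    ∀ w ≥ w₀, ∀ W, Wok w W → ∀ B' : ℕ, ∃ Y₀ : ℕ, ∀ Y ≥ Y₀, ∀ D : Dat k, D.w = w → D.W = W → D.ok →
      ∀ xi, D.Fam Y B B' (CC k) 1 xi → ∀ J : Finset (ℤ × ℤ), (∀ xi' ∈ J, D.Fam Y B B' (CC k) 1 xi' ∧ D.a xi' = D.a xi) →
        ((∑ xi' ∈ J, ∑ n ∈ D.N1 Y ((Y : ℝ) ^ c₁), D.R xi n * D.R xi' n : ℕ) : ℝ) ≤
          C₃ * (mu W (D.a xi) * (Y / (4 * W : ℕ)) * VV k w ((Y : ℝ) ^ c₁)) := by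
  sorry

/-- **The second moment theorem**: `SMa` - `SMd`.

Proof. `V = (Y / 4 W) VV`, `e = c₁ ^ (k + 1) / 8`, `μ = ∑ mu`. `∑_{n ∈ N1} (∑_ξ R ξ n - μ) ^ 2
≤ (1 + e) (1 + η) μ ^ 2 V + C₃ μ V - 2 (1 - e) μ ^ 2 V + (1 + e) μ ^ 2 V ≤ (4 e + (1 + e) η) μ ^ 2 V + C₃ μ V`; with
`η ≤ e` and `C₂ ≥ C₃ / e` this is `≤ 8 e μ ^ 2 V` (`μ ≥ C₂`); every `n` of the set contributes `μ ^ 2`. -/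
theorem SM (k : ℕ) (hk : 2 ≤ k) : ∃ c₁₀ : ℝ, 0 < c₁₀ ∧ ∀ c₁ : ℝ, 0 < c₁ → c₁ ≤ c₁₀ →
    ∃ (η C₂ : ℝ) (w₀ B : ℕ), 0 < η ∧ 0 < C₂ ∧ ∀ w ≥ w₀, ∀ W, Wok w W → ∀ B' : ℕ, ∃ Y₀ : ℕ, ∀ Y ≥ Y₀,
      ∀ D : Dat k, D.w = w → D.W = W → D.ok → ∀ J : Finset (ℤ × ℤ), (∀ xi ∈ J, D.Fam Y B B' (CC k) η xi) →
        C₂ ≤ ∑ xi ∈ J, mu W (D.a xi) →
        (∑ xi ∈ J, ∑ xi' ∈ J, (if D.a xi = D.a xi' then 0 else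
          mu W (D.a xi) * mu W (D.a xi') * EE (CC k) w ((D.a xi : ℤ) - D.a xi'))) ≤
            (1 + η) * (∑ xi ∈ J, mu W (D.a xi)) ^ 2 →
        (({n : ℕ | n ∈ D.N1 Y ((Y : ℝ) ^ c₁) ∧ ∀ xi ∈ J, D.R xi n = 0}).ncard : ℝ) ≤
          c₁ ^ (k + 1) * (Y / (4 * W : ℕ)) * VV k w ((Y : ℝ) ^ c₁) := by
  sorry

end Pool.Agent.W33f
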