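import Pool.Agent.W_d33b62f_h37.Gd

/-!
# MP_d33b62_nt, full question: T6, the sum over the divisors of `ξ₁` (helper53)
-/

set_option autoImplicit false

noncomputable section

open Finset

namespace Pool.Agent.W33f

/-- `(1 / d) ∏_{p ∣ d} c p` -/
def Fc (c : ℕ → ℝ) (d : ℕ) : ℝ := 1 / d * ∏ p ∈ d.primeFactors, c p

theorem Fc_mul (c : ℕ → ℝ) {m n : ℕ} (h : Nat.Coprime m n) : Fc c (m * n) = Fc c m * Fc c n := by
  unfold Fc
  rw [Nat.Coprime.primeFactors_mul h, prod_union h.disjoint_primeFactors]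
  push_cast
  rw [one_div, one_div, one_div, mul_inv]
  ring

theorem Fc_nonneg (c : ℕ → ℝ) (hc : ∀ p, 0 ≤ c p) (d : ℕ) : 0 ≤ Fc c d :=
  mul_nonneg (by positivity) (prod_nonneg fun p _ => hc p)

theorem sum_Fc_mul (c : ℕ → ℝ) {m n : ℕ} (h : Nat.Coprime m n) :
    ∑ d ∈ (m * n).divisors, Fc c d = (∑ d ∈ m.divisors, Fc c d) * ∑ d ∈ n.divisors, Fc c d := by
  rw [sum_mul_sum, ← sum_product']
  have h1 : (m * n).divisors = (m.divisors ×ˢ n.divisors).image fun p => p.1 * p.2 := by
    rw [Nat.divisors_mul]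
    rfl
  rw [h1, sum_image h.mul_injOn_divisors]
  apply sum_congr rfl
  intro p hp
  rw [mem_product, Nat.mem_divisors, Nat.mem_divisors] at hp
  exact Fc_mul c (Nat.Coprime.coprime_dvd_left hp.1.1 (Nat.Coprime.coprime_dvd_right hp.2.1 h))

/-- Divisor sum. -/
theorem sum_Fc_le (c : ℕ → ℝ) (hc : ∀ p, 0 ≤ c p) (m : ℕ) (hm : m ≠ 0) :
    ∑ d ∈ m.divisors, Fc c d ≤ ∏ p ∈ m.primeFactors, (1 + c p / (p - 1)) := by
  induction m using Nat.recOnPosPrimePosCoprime with
  | zero => exact absurd rfl hm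
  | one => simp [Fc]
  | prime_pow p n hp hn =>
    rw [Nat.primeFactors_prime_pow hn.ne' hp, prod_singleton, Nat.divisors_prime_pow hp, sum_map]
    rw [sum_range_succ']
    simp only [Function.Embedding.coeFn_mk, pow_zero]
    have h1 : Fc c 1 = 1 := by simp [Fc]
    rw [h1, add_comm]
    have hp2 : (2 : ℝ) ≤ p := by exact_mod_cast hp.two_le
    have hp1 : (0 : ℝ) < (p : ℝ) - 1 := by linarith
    have h2 : ∀ i ∈ range n, Fc c (p ^ (i + 1)) = c p * ((1 / (p : ℝ)) ^ (i + 1)) := by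
      intro i _
      unfold Fc
      rw [Nat.primeFactors_prime_pow (by omega) hp, prod_singleton]
      push_cast
      rw [one_div_pow]
      ring
    rw [sum_congr rfl h2, ← mul_sum]
    have h3 : ∑ i ∈ range n, (1 / (p : ℝ)) ^ (i + 1) ≤ 1 / ((p : ℝ) - 1) := by
      have h4 : ∀ n : ℕ, ∑ i ∈ range n, (1 / (p : ℝ)) ^ (i + 1) = 1 / ((p : ℝ) - 1) * (1 - (1 / (p : ℝ)) ^ n) := by
        intro n
        induction n with
        | zero => simp
        | succ n ih =>
          rw [sum_range_succ, ih]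
          have h5 : (p : ℝ) ≠ 0 := by linarith
          have h6 : (p : ℝ) - 1 ≠ 0 := hp1.ne'
          rw [pow_succ]
          field_simp
          ring
      rw [h4]
      have h5 : 0 ≤ (1 / (p : ℝ)) ^ n := by positivity
      have h6 : 0 ≤ 1 / ((p : ℝ) - 1) := by positivity
      nlinarith
    have h4 := mul_le_mul_of_nonneg_left h3 (hc p)
    calc 1 + c p * ∑ i ∈ range n, (1 / (p : ℝ)) ^ (i + 1) ≤ 1 + c p * (1 / ((p : ℝ) - 1)) := by linarith
      _ = 1 + c p / ((p : ℝ) - 1) := by ring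
  | coprime a b ha hb hab iha ihb =>
    rw [sum_Fc_mul c hab, Nat.Coprime.primeFactors_mul hab, prod_union hab.disjoint_primeFactors]
    apply mul_le_mul (iha (by omega)) (ihb (by omega))
    · exact sum_nonneg fun d _ => Fc_nonneg c hc d
    · apply prod_nonneg
      intro p hp
      have := (Nat.prime_of_mem_primeFactors hp).two_le
      have h2 : (2 : ℝ) ≤ p := by exact_mod_cast this
      have h3 : 0 ≤ c p / ((p : ℝ) - 1) := div_nonneg (hc p) (by linarith)
      linarith

/-- The factorisations of `x`. -/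
def D2 (x : ℤ × ℤ) : Set ((ℤ × ℤ) × (ℤ × ℤ)) := {p | gm p.1 p.2 = x}

theorem D2_finite (x : ℤ × ℤ) (hx : x ≠ 0) : (D2 x).Finite := by
  have h0 := nm_pos hx
  refine ((disc_finite (nm x).toNat).prod (disc_finite (nm x).toNat)).subset ?_
  intro p hp
  have h1 : nm p.1 * nm p.2 = nm x := by rw [← nm_gm, hp]
  have h2 := nm_nonneg p.1
  have h3 := nm_nonneg p.2
  have h4 : 0 < nm p.1 := by
    rcases h2.lt_or_eq with h | h
    · exact h
    · rw [← h] at h1; linarith
  have h5 : 0 < nm p.2 := by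
    rcases h3.lt_or_eq with h | h
    · exact h
    · rw [← h] at h1; linarith
  simp only [Set.mem_prod, Set.mem_ofPred_eq]
  rw [Int.toNat_of_nonneg h0.le]
  constructor <;> nlinarith

/-- Coprime version of `gauss_pair`. -/
theorem gauss_pair_cop (z z' : GaussianInt) (hz : z ≠ 0) (h : z.norm = z'.norm) :
    ∃ g v e : GaussianInt, e.norm = 1 ∧ z = g * v ∧ z' = e * (g * star v) ∧ IsCoprime v (star v) := by
  set g := EuclideanDomain.gcd z z' with hg
  obtain ⟨v, hv⟩ : g ∣ z := EuclideanDomain.gcd_dvd_left z z'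
  obtain ⟨v', hv'⟩ : g ∣ z' := EuclideanDomain.gcd_dvd_right z z'
  have hg0 : g ≠ 0 := by
    intro h0
    apply hz
    rw [hv, h0, zero_mul]
  have hbez := EuclideanDomain.gcd_eq_gcd_ab z z'
  rw [← hg] at hbez
  have hcop : IsCoprime v v' := by
    refine ⟨EuclideanDomain.gcdA z z', EuclideanDomain.gcdB z z', ?_⟩
    apply mul_left_cancel₀ hg0
    calc g * (EuclideanDomain.gcdA z z' * v + EuclideanDomain.gcdB z z' * v')
        = (g * v) * EuclideanDomain.gcdA z z' + (g * v') * EuclideanDomain.gcdB z z' := by ring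
      _ = z * EuclideanDomain.gcdA z z' + z' * EuclideanDomain.gcdB z z' := by rw [← hv, ← hv']
      _ = g * 1 := by rw [← hbez, mul_one]
  have hgn : g.norm ≠ 0 := by
    rw [Ne, GaussianInt.norm_eq_zero]
    exact hg0
  have hvn : v.norm = v'.norm := by
    rw [hv, hv', Zsqrtd.norm_mul, Zsqrtd.norm_mul] at h
    exact mul_left_cancel₀ hgn h
  have hv0 : v ≠ 0 := by
    rintro rfl
    exact hz (by rw [hv, mul_zero])
  have hvn0 : v.norm ≠ 0 := by
    rw [Ne, GaussianInt.norm_eq_zero]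
    exact hv0
  have h1 : v ∣ v' * star v' := by
    rw [← Zsqrtd.norm_eq_mul_conj, ← hvn, Zsqrtd.norm_eq_mul_conj]
    exact Dvd.intro _ rfl
  obtain ⟨e, he⟩ := hcop.dvd_of_dvd_mul_left h1
  have hen : e.norm = 1 := by
    have h2 : (star v').norm = v'.norm := Zsqrtd.norm_conj v'
    rw [he, Zsqrtd.norm_mul, ← hvn] at h2
    have h3 : v.norm * e.norm = v.norm * 1 := by rw [mul_one]; exact h2
    exact mul_left_cancel₀ hvn0 h3
  have h2 : v' = star v * star e := by
    have := congrArg star he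
    rw [star_star, star_mul'] at this
    exact this
  refine ⟨g, v, star e, ?_, hv, ?_, ?_⟩
  · rw [Zsqrtd.norm_conj]; exact hen
  · rw [hv', h2]
    ring
  · rw [h2] at hcop
    exact hcop.of_mul_right_left

/-- Two divisors of a primitive number of the same norm are associated. -/
theorem assoc_of_nm (G V G' V' : ℤ × ℤ) (h : gm G V = gm G' V') (hp : IsCoprime (gm G V).1 (gm G V).2)
    (hn : nm G = nm G') : ∃ e : ℤ × ℤ, nm e = 1 ∧ G' = gm e G ∧ V' = gm (cjg e) V := by
  have hG0 : toG G ≠ 0 := by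
    intro h0
    have : G = 0 := toG_inj (by rw [h0]; rfl)
    subst this
    have : gm 0 V = 0 := by unfold gm; ext <;> simp
    rw [this] at hp
    simp [isCoprime_zero_left] at hp
  obtain ⟨g, v, e, h1, h2, h3, h4⟩ := gauss_pair_cop (toG G) (toG G') hG0 (by rw [toG_norm, toG_norm, hn])
  have h5 : toG G * toG V = toG G' * toG V' := by rw [← toG_gm, ← toG_gm, h]
  have hg0 : g ≠ 0 := by
    rintro rfl
    exact hG0 (by rw [h2, zero_mul])
  -- `v V = e conj v V'`
  have h6 : v * toG V = star v * (e * toG V') := by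
    apply mul_left_cancel₀ hg0
    rw [h2, h3] at h5
    linear_combination h5
  have h7 : star v ∣ toG V := h4.symm.dvd_of_dvd_mul_left (Dvd.intro _ h6.symm)
  obtain ⟨A, hA⟩ := h7
  -- `nm v ∣ G V`
  have h8 : toG (gm G V) = (v.norm : GaussianInt) * (g * A) := by
    rw [toG_gm, h2, hA, Zsqrtd.norm_eq_mul_conj]
    ring
  have h9 : v.norm ∣ (gm G V).1 := by
    have := congrArg Zsqrtd.re h8
    rw [Zsqrtd.re_smul] at this
    exact ⟨_, this⟩
  have h10 : v.norm ∣ (gm G V).2 := by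
    have := congrArg Zsqrtd.im h8
    rw [Zsqrtd.im_smul] at this
    exact ⟨_, this⟩
  have h11 := hp.isUnit_of_dvd' h9 h10
  have h12 : v.norm = 1 := by
    have h13 : 0 ≤ v.norm := GaussianInt.norm_nonneg v
    rcases Int.isUnit_iff.1 h11 with h | h
    · exact h
    · rw [h] at h13; norm_num at h13
  -- `G' = e (conj v) ^ 2 G`
  obtain ⟨f, hf⟩ := exists_toG (e * (star v * star v))
  have hff : nm f = 1 := by
    rw [← toG_norm, hf, Zsqrtd.norm_mul, Zsqrtd.norm_mul, Zsqrtd.norm_conj, h1, h12]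
    norm_num
  have h13 : v * star v = 1 := by
    rw [← Zsqrtd.norm_eq_mul_conj, h12]
    norm_num
  have hGf : G' = gm f G := by
    apply toG_inj
    rw [toG_gm, hf, h2, h3]
    linear_combination (-e * g * star v) * h13
  refine ⟨f, hff, hGf, ?_⟩
  have h14 : toG (cjg f) * toG f = 1 := by
    have : toG f * star (toG f) = 1 := by
      rw [← Zsqrtd.norm_eq_mul_conj, toG_norm, hff]
      norm_num
    rw [toG_cjg, mul_comm]
    exact this
  apply toG_inj
  rw [toG_gm]
  apply mul_left_cancel₀ hG0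
  rw [hGf, toG_gm] at h5
  linear_combination (toG (cjg f)) * (-h5) - (toG G * toG V') * h14

/-- The unit set. -/
def U4 : Finset (ℤ × ℤ) := {(1, 0), (-1, 0), (0, 1), (0, -1)}

theorem mem_U4 {e : ℤ × ℤ} : e ∈ U4 ↔ nm e = 1 := by
  constructor
  · intro h
    unfold U4 at h
    simp only [mem_insert, mem_singleton] at h
    rcases h with rfl | rfl | rfl | rfl <;> simp [nm]
  · intro h
    unfold U4
    simp only [mem_insert, mem_singleton]
    exact unit_cases h

theorem U4_card : U4.card ≤ 4 := card_le_four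

theorem D2_fiber (x : ℤ × ℤ) (hx : IsCoprime x.1 x.2) (S : Finset ((ℤ × ℤ) × (ℤ × ℤ))) (hS : ∀ p ∈ S, gm p.1 p.2 = x)
    (d : ℕ) : (S.filter fun p => (nm p.1).toNat = d).card ≤ 4 := by
  classical
  rcases (S.filter fun p => (nm p.1).toNat = d).eq_empty_or_nonempty with h | ⟨p0, hp0⟩
  · rw [h]; simp
  have hsub : (S.filter fun p => (nm p.1).toNat = d) ⊆ U4.image fun e => (gm e p0.1, gm (cjg e) p0.2) := by
    intro p hp
    rw [mem_filter] at hp hp0
    have h1 : nm p0.1 = nm p.1 := by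
      have h2 := nm_nonneg p0.1
      have h3 := nm_nonneg p.1
      have h4 := hp.2
      have h5 := hp0.2
      omega
    have h2 : gm p0.1 p0.2 = gm p.1 p.2 := by rw [hS _ hp0.1, hS _ hp.1]
    obtain ⟨e, he, h3, h4⟩ := assoc_of_nm p0.1 p0.2 p.1 p.2 h2 (by rw [hS _ hp0.1]; exact hx) h1
    rw [mem_image]
    exact ⟨e, mem_U4.2 he, Prod.ext h3.symm h4.symm⟩
  calc _ ≤ (U4.image fun e => (gm e p0.1, gm (cjg e) p0.2)).card := card_le_card hsub
    _ ≤ U4.card := card_image_le
    _ ≤ 4 := U4_card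

/-- The sum over the factorisations. -/
theorem sum_D2 (x : ℤ × ℤ) (hx : IsCoprime x.1 x.2) (S : Finset ((ℤ × ℤ) × (ℤ × ℤ))) (hS : ∀ p ∈ S, gm p.1 p.2 = x)
    (c : ℕ → ℝ) (hc : ∀ p, 0 ≤ c p) :
    ∑ p ∈ S, Fc c (nm p.1).toNat ≤ 4 * ∏ p ∈ (nm x).toNat.primeFactors, (1 + c p / (p - 1)) := by
  have hx0 : 0 < nm x := by
    apply nm_pos
    rintro rfl
    simp [isCoprime_zero_left] at hx
  have hmaps : ∀ p ∈ S, (nm p.1).toNat ∈ (nm x).toNat.divisors := by
    intro p hp
    rw [Nat.mem_divisors]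
    refine ⟨?_, by omega⟩
    have h1 : nm p.1 * nm p.2 = nm x := by rw [← nm_gm, hS p hp]
    refine ⟨(nm p.2).toNat, ?_⟩
    rw [← h1, Int.toNat_mul (nm_nonneg _) (nm_nonneg _)]
  rw [← sum_fiberwise_of_maps_to hmaps]
  calc ∑ d ∈ (nm x).toNat.divisors, ∑ p ∈ S.filter (fun p => (nm p.1).toNat = d), Fc c (nm p.1).toNat
      ≤ ∑ d ∈ (nm x).toNat.divisors, 4 * Fc c d := by
        apply sum_le_sum
        intro d _
        have h1 : ∀ p ∈ S.filter (fun p => (nm p.1).toNat = d), Fc c (nm p.1).toNat = Fc c d := by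
          intro p hp
          rw [mem_filter] at hp
          rw [hp.2]
        rw [sum_congr rfl h1, sum_const, nsmul_eq_mul]
        apply mul_le_mul_of_nonneg_right _ (Fc_nonneg c hc d)
        exact_mod_cast D2_fiber x hx S hS d
    _ = 4 * ∑ d ∈ (nm x).toNat.divisors, Fc c d := by rw [mul_sum]
    _ ≤ _ := by
        apply mul_le_mul_of_nonneg_left _ (by norm_num)
        exact sum_Fc_le c hc _ (by omega)

end Pool.Agent.W33f
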