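import Pool.Agent.W_d33b62f_h37.Of2
import Pool.Agent.W_d33b62f_h37.Sd

/-!
# MP_d33b62_nt, full question: T6, the covering of the pairs of points (helper53)
-/

set_option autoImplicit false

noncomputable section

open Finset

namespace Pool.Agent.W33f

theorem fam_facts {k : ℕ} (D : Dat k) (hD : D.ok) {Y B B' : ℕ} {C η : ℝ} {xi : ℤ × ℤ} (hF : D.Fam Y B B' C η xi) :
    ∃ x : ℤ × ℤ, xi = gm (1, 1) x ∧ IsCoprime x.1 x.2 ∧ ¬ (2 : ℤ) ∣ nm x ∧ 2 * nm x = D.a xi + D.a0 := by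
  have h8 : 8 ∣ D.W := hD.wok.2.1
  have h1 : D.a xi + D.a0 ≡ 2 [MOD 8] := by
    have h2 : D.a xi ≡ D.al [MOD 8] := hF.cl.of_dvd (dvd_mul_of_dvd_right h8 4)
    exact (h2.add_right _).trans hD.hal2
  have h2 := hF.eq
  have h3 : nm xi % 8 = 2 := by rw [h2]; unfold Nat.ModEq at h1; omega
  have hcop : IsCoprime xi.1 xi.2 := Int.isCoprime_iff_gcd_eq_one.2 hF.gcd
  rcases Int.even_or_odd xi.1 with ⟨m, hm⟩ | ⟨m, hm⟩ <;> rcases Int.even_or_odd xi.2 with ⟨l, hl⟩ | ⟨l, hl⟩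
  · exfalso
    have : nm xi = 4 * (m * m + l * l) := by unfold nm; rw [hm, hl]; ring
    omega
  · exfalso
    have : nm xi = 2 * (2 * (m * m + l * l + l)) + 1 := by unfold nm; rw [hm, hl]; ring
    omega
  · exfalso
    have : nm xi = 2 * (2 * (m * m + l * l + m)) + 1 := by unfold nm; rw [hm, hl]; ring
    omega
  · have hx : xi = gm (1, 1) (m + l + 1, l - m) := by
      unfold gm
      refine Prod.ext ?_ ?_
      · simp only; rw [hm]; ring
      · simp only; rw [hl]; ring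
    have hn : 2 * nm (m + l + 1, l - m) = D.a xi + D.a0 := by
      rw [← h2, hx, nm_gm]
      unfold nm; ring
    refine ⟨(m + l + 1, l - m), hx, ?_, ?_, hn⟩
    · rw [hx] at hcop
      exact coprime_of_gm' hcop
    · intro h
      have : (4 : ℤ) ∣ nm xi := by
        rw [h2, ← hn]
        exact mul_dvd_mul (dvd_refl 2) h
      omega

/-- Exact division. -/
def dv (u z : ℤ × ℤ) : ℤ × ℤ := ((u.1 * z.1 + u.2 * z.2) / nm u, (u.1 * z.2 - u.2 * z.1) / nm u)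

theorem dv_gm (u v : ℤ × ℤ) (hu : nm u ≠ 0) : dv u (gm u v) = v := by
  unfold dv gm
  refine Prod.ext ?_ ?_
  · simp only
    have : u.1 * (u.1 * v.1 - u.2 * v.2) + u.2 * (u.1 * v.2 + u.2 * v.1) = nm u * v.1 := by unfold nm; ring
    rw [this, Int.mul_ediv_cancel_left _ hu]
  · simp only
    have : u.1 * (u.1 * v.2 + u.2 * v.1) - u.2 * (u.1 * v.1 - u.2 * v.2) = nm u * v.2 := by unfold nm; ring
    rw [this, Int.mul_ediv_cancel_left _ hu]

/-- The set of `LL`. -/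
def LLS {k : ℕ} (D : Dat k) (Y : ℕ) (zl : ℝ) (xi u : ℤ × ℤ) : Set (ℤ × ℤ) :=
  {z : ℤ × ℤ | z.1 ≡ D.rho.1 [ZMOD D.W] ∧ z.2 ≡ D.rho.2 [ZMOD D.W] ∧
          (D.a xi : ℤ) ∣ (xi.1 - xi.2) * z.1 + (xi.1 + xi.2) * z.2 ∧ (∃ z₁, z = gm u z₁) ∧
          ∃ n ∈ D.N1 Y zl, 2 * nm z = n + D.h D.i + D.a xi}

theorem LLS_finite {k : ℕ} (D : Dat k) (Y : ℕ) (zl : ℝ) (xi u : ℤ × ℤ) : (LLS D Y zl xi u).Finite := by
  refine (disc_finite (2 * Y + D.h D.i + D.a xi)).subset ?_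
  rintro z ⟨-, -, -, -, n, hn, hz⟩
  unfold Dat.N1 at hn
  simp only [mem_filter, mem_Ioc] at hn
  have h0 := nm_nonneg z
  simp only [Set.mem_ofPred_eq]
  push_cast
  have : (n : ℤ) ≤ 2 * Y := by exact_mod_cast hn.1.2
  linarith

/-- As a finset. -/
def LLF {k : ℕ} (D : Dat k) (Y : ℕ) (zl : ℝ) (xi u : ℤ × ℤ) : Finset (ℤ × ℤ) := (LLS_finite D Y zl xi u).toFinset

theorem mem_LLF {k : ℕ} (D : Dat k) (Y : ℕ) (zl : ℝ) (xi u z : ℤ × ℤ) :
    z ∈ LLF D Y zl xi u ↔ z ∈ LLS D Y zl xi u := by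
  unfold LLF; rw [Set.Finite.mem_toFinset]

theorem card_LLF {k : ℕ} (D : Dat k) (Y : ℕ) (zl : ℝ) (xi u : ℤ × ℤ) :
    (LLF D Y zl xi u).card = (LLS D Y zl xi u).ncard := by
  unfold LLF
  rw [Set.ncard_eq_toFinset_card _ (LLS_finite D Y zl xi u)]

/-- The first covering set. -/
def A1 {k : ℕ} (D : Dat k) (Y : ℕ) (zl : ℝ) (xi : ℤ × ℤ) (S : Finset ((ℤ × ℤ) × (ℤ × ℤ))) :
    Finset ((ℤ × ℤ) × ((ℤ × ℤ) × (ℤ × ℤ))) :=
  (S ×ˢ (U4 ×ˢ U4)).biUnion fun q => (LLF D Y zl xi q.1.1).image fun z =>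
    (gm (1, 1) (gm q.2.1 (gm q.1.1 (cjg q.1.2))), (z, gm q.2.2 (gm q.1.1 (cjg (dv q.1.1 z)))))

/-- The second covering set. -/
def A2 {k : ℕ} (D : Dat k) (Y : ℕ) (zl : ℝ) (xi : ℤ × ℤ) (S : Finset ((ℤ × ℤ) × (ℤ × ℤ))) :
    Finset ((ℤ × ℤ) × ((ℤ × ℤ) × (ℤ × ℤ))) :=
  (S ×ˢ (U4 ×ˢ U4)).biUnion fun q => (LLF D Y zl xi q.1.2).image fun z =>
    (gm (1, 1) (gm q.2.1 (gm q.1.1 (cjg q.1.2))), (z, gm q.2.2 (gm (dv q.1.2 z) (cjg q.1.2))))

theorem U4_card' : (U4 ×ˢ U4).card ≤ 16 := by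
  rw [card_product]
  have := U4_card
  nlinarith

theorem A1_card {k : ℕ} (D : Dat k) (Y : ℕ) (zl : ℝ) (xi : ℤ × ℤ) (S : Finset ((ℤ × ℤ) × (ℤ × ℤ))) :
    (A1 D Y zl xi S).card ≤ 16 * ∑ p ∈ S, (LLF D Y zl xi p.1).card := by
  unfold A1
  refine card_biUnion_le.trans ?_
  calc _ ≤ ∑ q ∈ S ×ˢ (U4 ×ˢ U4), (LLF D Y zl xi q.1.1).card := sum_le_sum fun q _ => card_image_le
    _ = ∑ p ∈ S, (U4 ×ˢ U4).card * (LLF D Y zl xi p.1).card := by
      rw [sum_product]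
      apply sum_congr rfl
      intro p _
      simp only
      rw [sum_const, smul_eq_mul]
    _ ≤ ∑ p ∈ S, 16 * (LLF D Y zl xi p.1).card := sum_le_sum fun p _ => Nat.mul_le_mul_right _ U4_card'
    _ = _ := by rw [mul_sum]

theorem A2_card {k : ℕ} (D : Dat k) (Y : ℕ) (zl : ℝ) (xi : ℤ × ℤ) (S : Finset ((ℤ × ℤ) × (ℤ × ℤ))) :
    (A2 D Y zl xi S).card ≤ 16 * ∑ p ∈ S, (LLF D Y zl xi p.2).card := by
  unfold A2
  refine card_biUnion_le.trans ?_
  calc _ ≤ ∑ q ∈ S ×ˢ (U4 ×ˢ U4), (LLF D Y zl xi q.1.2).card := sum_le_sum fun q _ => card_image_le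
    _ = ∑ p ∈ S, (U4 ×ˢ U4).card * (LLF D Y zl xi p.2).card := by
      rw [sum_product]
      apply sum_congr rfl
      intro p _
      simp only
      rw [sum_const, smul_eq_mul]
    _ ≤ ∑ p ∈ S, 16 * (LLF D Y zl xi p.2).card := sum_le_sum fun p _ => Nat.mul_le_mul_right _ U4_card'
    _ = _ := by rw [mul_sum]

/-- **The covering.** -/
theorem cover {k : ℕ} (D : Dat k) (hD : D.ok) {Y B B' : ℕ} {C η : ℝ} (zl : ℝ) {xi xi' : ℤ × ℤ}
    (hF : D.Fam Y B B' C η xi) (hF' : D.Fam Y B B' C η xi') (haa : D.a xi' = D.a xi) (ha0 : D.a0 < D.a xi)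
    (x : ℤ × ℤ) (hx : xi = gm (1, 1) x) (hxc : IsCoprime x.1 x.2) (hxo : ¬ (2 : ℤ) ∣ nm x)
    (hxn : 2 * nm x = D.a xi + D.a0)
    (S : Finset ((ℤ × ℤ) × (ℤ × ℤ))) (hS : ∀ p, p ∈ S ↔ gm p.1 p.2 = x) (X : ℕ)
    (hX : ∀ n ∈ D.N1 Y zl, n + D.h D.i + D.a xi ≤ 2 * X) :
    ∃ A : Finset ((ℤ × ℤ) × (ℤ × ℤ)), (A.card : ℝ) ≤ 64 * (144 * X * harmonic X / (D.a xi) ^ 2) ∧
      ∀ n ∈ D.N1 Y zl, ∀ z ∈ D.ZS xi n, ∀ z' ∈ D.ZS xi' n,
        (xi', (z, z')) ∈ A1 D Y zl xi S ∨ (xi', (z, z')) ∈ A2 D Y zl xi S ∨ (z, z') ∈ A := by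
  classical
  obtain ⟨x', hx', hxc', hxo', hxn'⟩ := fam_facts D hD hF'
  have hap := hF.ap
  have ha2 : D.a xi ≠ 2 := by have := hD.a05; omega
  have ha0' : 0 < D.a xi := hap.pos
  have hx0 : x ≠ 0 := by
    rintro rfl
    simp [isCoprime_zero_left] at hxc
  have hnn : nm x = nm x' := by
    rw [haa] at hxn'
    have := hxn.trans hxn'.symm
    linarith
  obtain ⟨G, V, e, he, hGV, hx'e⟩ := gauss_pair x x' hx0 hnn
  have hmemS : (G, V) ∈ S := (hS _).2 hGV.symm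
  have hprim : IsCoprime (gm G V).1 (gm G V).2 := by rw [← hGV]; exact hxc
  have hodd : ¬ (2 : ℤ) ∣ nm (gm G V) := by rw [← hGV]; exact hxo
  have hlt : nm (gm G V) < D.a xi := by
    rw [← hGV]
    have : (D.a0 : ℤ) < D.a xi := by exact_mod_cast ha0
    linarith
  have hG := coprime_of_gm hprim
  have hV := coprime_of_gm' hprim
  have hG0 : 0 < nm G := by
    apply nm_pos
    rintro rfl
    simp [isCoprime_zero_left] at hG
  have hV0 : 0 < nm V := by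
    apply nm_pos
    rintro rfl
    simp [isCoprime_zero_left] at hV
  have hGVn : nm G * nm V < D.a xi := by rw [← nm_gm]; exact hlt
  have hGa : nm G < D.a xi := by nlinarith
  have hVa : nm V < D.a xi := by nlinarith
  have hGo : ¬ (2 : ℤ) ∣ nm G := fun h => hodd (by rw [nm_gm]; exact dvd_mul_of_dvd_left h _)
  have hVo : ¬ (2 : ℤ) ∣ nm V := fun h => hodd (by rw [nm_gm]; exact dvd_mul_of_dvd_right h _)
  have hLP : ∀ w ∈ FV G, ∀ w' ∈ FV V, (LP (D.a xi) w w' X).Finite ∧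
      ((LP (D.a xi) w w' X).ncard : ℝ) ≤ 144 * X * harmonic X / (D.a xi) ^ 2 := by
    intro w hw w' hw'
    exact LP_card (D.a xi) ha0' w w' (FV_coprime hG hGo hw) ((FV_nm hw).trans (by linarith))
      (FV_coprime hV hVo hw') ((FV_nm hw').trans (by linarith)) X
  set A : Finset ((ℤ × ℤ) × (ℤ × ℤ)) := ((FV G ×ˢ FV V) ×ˢ U4).attach.biUnion fun q =>
    (hLP q.1.1.1 (mem_product.1 (mem_product.1 q.2).1).1 q.1.1.2 (mem_product.1 (mem_product.1 q.2).1).2).1.toFinset.image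
      fun p => (gm p.1 p.2, gm q.1.2 (gm p.1 (cjg p.2))) with hA
  refine ⟨A, ?_, ?_⟩
  · have hnn : (0 : ℝ) ≤ 144 * X * harmonic X / (D.a xi) ^ 2 := by
      have : (0 : ℝ) ≤ (harmonic X : ℝ) := by
        unfold harmonic
        push_cast
        exact sum_nonneg fun i _ => by positivity
      positivity
    have h1 : (A.card : ℝ) ≤ ∑ q ∈ ((FV G ×ˢ FV V) ×ˢ U4).attach, 144 * X * harmonic X / ((D.a xi : ℝ)) ^ 2 := by
      refine le_trans (Nat.cast_le.2 card_biUnion_le) ?_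
      push_cast
      apply sum_le_sum
      intro q _
      refine le_trans (Nat.cast_le.2 card_image_le) ?_
      have h2 := hLP q.1.1.1 (mem_product.1 (mem_product.1 q.2).1).1 q.1.1.2 (mem_product.1 (mem_product.1 q.2).1).2
      have h3 := h2.2
      rw [Set.ncard_eq_toFinset_card _ h2.1] at h3
      exact h3
    rw [sum_const, card_attach, nsmul_eq_mul, card_product, card_product] at h1
    refine h1.trans (mul_le_mul_of_nonneg_right ?_ hnn)
    have h4 : (FV G).card * (FV V).card * U4.card ≤ 64 := by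
      have := FV_card G
      have := FV_card V
      have := U4_card
      calc (FV G).card * (FV V).card * U4.card ≤ 4 * 4 * 4 := by gcongr
        _ = 64 := by norm_num
    exact_mod_cast h4
  · intro n hn z hz z' hz'
    obtain ⟨z1, z2, z3, z4, z5, z6⟩ := hz
    obtain ⟨y1, y2, y3, y4, y5, y6⟩ := hz'
    have hzc : IsCoprime z.1 z.2 := Int.isCoprime_iff_gcd_eq_one.2 z4
    have hzz : nm z = nm z' := by
      rw [haa] at y6
      have := z6.trans y6.symm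
      linarith
    have hzo : ¬ (2 : ℤ) ∣ nm z := by
      intro h
      have h2W : (2 : ℤ) ∣ D.W := by
        have : 8 ∣ D.W := hD.wok.2.1
        have h3 : (8 : ℤ) ∣ D.W := by exact_mod_cast this
        exact dvd_trans (by norm_num) h3
      have e1 : z.1 ≡ D.rho.1 [ZMOD 2] := z1.of_dvd h2W
      have e2 : z.2 ≡ D.rho.2 [ZMOD 2] := z2.of_dvd h2W
      have e3 : nm z ≡ nm D.rho [ZMOD 2] := (e1.pow 2).add (e2.pow 2)
      have e4 : (2 : ℤ) ∣ nm D.rho := by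
        rw [Int.dvd_iff_emod_eq_zero] at h ⊢
        rw [← h]; exact e3.symm
      have := hD.hrhoN.isUnit_of_dvd' e4 h2W
      exact absurd this (by decide)
    have ha2' : ¬ (D.a xi : ℤ) ∣ 2 := by
      intro h
      have : D.a xi ∣ 2 := by exact_mod_cast h
      exact ha2 ((Nat.prime_dvd_prime_iff_eq hap Nat.prime_two).1 this)
    have hpI : Prime (D.a xi : ℤ) := Nat.prime_iff_prime_int.1 hap
    have c1 : (D.a xi : ℤ) ∣ (gm (cjg (gm G V)) z).2 := by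
      rw [← hGV]
      have : (xi.1 - xi.2) * z.1 + (xi.1 + xi.2) * z.2 = 2 * (gm (cjg x) z).2 := by
        rw [hx]; unfold gm cjg; simp only; ring
      rw [this] at z5
      exact (hpI.dvd_or_dvd z5).resolve_left ha2'
    have c2 : (D.a xi : ℤ) ∣ (gm (cjg (gm e (gm G (cjg V)))) z').2 := by
      rw [← hx'e]
      have : (xi'.1 - xi'.2) * z'.1 + (xi'.1 + xi'.2) * z'.2 = 2 * (gm (cjg x') z').2 := by
        rw [hx']; unfold gm cjg; simp only; ring
      rw [this, haa] at y5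
      exact (hpI.dvd_or_dvd y5).resolve_left ha2'
    have hxi' : xi' = gm (1, 1) (gm e (gm G (cjg V))) := by rw [← hx'e]; exact hx'
    rcases core (D.a xi) hap ha2 G V e z z' he hlt hprim hodd hzc hzz hzo c1 c2 with
      ⟨e2, v, h1, h2, h3⟩ | ⟨e2, g, h1, h2, h3⟩ | ⟨e2, g, v, h1, h2, h3, w, hw, w', hw', d1, d2, d3, d4⟩
    · left
      unfold A1
      rw [mem_biUnion]
      refine ⟨((G, V), (e, e2)), ?_, ?_⟩
      · rw [mem_product, mem_product]
        exact ⟨hmemS, mem_U4.2 he, mem_U4.2 h1⟩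
      · rw [mem_image]
        refine ⟨z, ?_, ?_⟩
        · rw [mem_LLF]
          exact ⟨z1, z2, z5, ⟨v, h2⟩, n, hn, z6⟩
        · simp only
          rw [← hxi', h2, dv_gm _ _ hG0.ne', ← h3]
    · right; left
      unfold A2
      rw [mem_biUnion]
      refine ⟨((G, V), (e, e2)), ?_, ?_⟩
      · rw [mem_product, mem_product]
        exact ⟨hmemS, mem_U4.2 he, mem_U4.2 h1⟩
      · rw [mem_image]
        refine ⟨z, ?_, ?_⟩
        · rw [mem_LLF]
          exact ⟨z1, z2, z5, ⟨g, h2⟩, n, hn, z6⟩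
        · simp only
          rw [← hxi', h2, dv_gm _ _ hV0.ne', ← h3]
    · right; right
      rw [hA, mem_biUnion]
      refine ⟨⟨((w, w'), e2), ?_⟩, mem_attach _ _, ?_⟩
      · rw [mem_product, mem_product]
        exact ⟨⟨hw, hw'⟩, mem_U4.2 h1⟩
      · rw [mem_image]
        refine ⟨(g, v), ?_, ?_⟩
        · rw [Set.Finite.mem_toFinset]
          refine ⟨?_, d1, d2, d3, d4⟩
          simp only
          rw [← nm_gm, ← h2]
          have h5 := hX n hn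
          have h6 : (n : ℤ) + D.h D.i + D.a xi ≤ 2 * X := by exact_mod_cast h5
          linarith
        · simp only
          rw [← h2, ← h3]

end Pool.Agent.W33f
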