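import Pool.Agent.W_d33b62f_h37.Df
import Pool.Agent.W_b58c63_h68.ArB

/-!
# MP_d33b62_nt, full question: a lower bound for the sieve product `VV` (helper53)
-/

set_option autoImplicit false

noncomputable section

open Finset

namespace Pool.Agent.W33f

open Pool.Agent.Wb58c63 in
theorem Pw_eq (w : ℕ) (z : ℝ) : Pw w z = PI ((w : ℝ) + 1) z := by
  unfold Pw PI
  ext p
  simp only [mem_filter]
  have : w < p ↔ (w : ℝ) + 1 ≤ p := by
    constructor
    · intro h; exact_mod_cast h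
    · intro h; exact_mod_cast h
  rw [this]

open Pool.Agent.Wb58c63 in
/-- `VV k w z ≥ c (log z) ^ -(k + 1)`. -/
theorem VV_low53 (k : ℕ) : ∃ c : ℝ, 0 < c ∧ ∀ w : ℕ, 2 * k + k ^ 2 + 2 ≤ w → ∀ z : ℝ, (w : ℝ) + 1 ≤ z →
    c / (Real.log z) ^ (k + 1) ≤ VV k w z := by
  obtain ⟨C, hC, hM⟩ := mertens_two
  refine ⟨Real.exp (-((k + 1) * C)), Real.exp_pos _, ?_⟩
  intro w hw z hz
  have hw2 : (2 : ℝ) ≤ w := by
    have : 2 ≤ w := by nlinarith [sq_nonneg k]
    exact_mod_cast this
  have hlw : 1 ≤ Real.log ((w : ℝ) + 1) := by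
    rw [Real.le_log_iff_exp_le (by linarith)]
    have := Real.exp_one_lt_d9
    linarith
  have hlz : 1 ≤ Real.log z := hlw.trans (Real.log_le_log (by linarith) hz)
  set P := PI ((w : ℝ) + 1) z with hP
  have hPm : ∀ p ∈ P, p.Prime ∧ (w : ℝ) + 1 ≤ p := by
    intro p hp
    rw [hP] at hp
    unfold PI at hp
    rw [mem_filter] at hp
    exact hp.2
  set S := ∑ p ∈ P, (1 : ℝ) / p with hS
  have hS0 : 0 ≤ S := sum_nonneg fun p _ => by positivity
  have hS1 : S ≤ Real.log (Real.log z) + C := by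
    have h1 := hM ((w : ℝ) + 1) z (by linarith) hz
    rw [← hP, ← hS] at h1
    have h2 : Real.log (Real.log z / Real.log ((w : ℝ) + 1)) ≤ Real.log (Real.log z) := by
      apply Real.log_le_log (by positivity)
      exact div_le_self (by linarith) hlw
    have h3 : C / Real.log ((w : ℝ) + 1) ≤ C := div_le_self hC.le hlw
    linarith
  have hV : Real.exp (-((k + 1) * S)) ≤ VV k w z := by
    unfold VV
    rw [Pw_eq, ← hP]
    have h1 : Real.exp (-((k + 1) * S)) = ∏ p ∈ P, Real.exp (-((k + 1) * (1 / (p : ℝ)))) := by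
      rw [← Real.exp_sum, sum_neg_distrib, ← mul_sum]
    rw [h1]
    apply prod_le_prod (fun p _ => (Real.exp_pos _).le)
    intro p hp
    obtain ⟨hpp, hpw⟩ := hPm p hp
    have hp0 : (0 : ℝ) < p := by exact_mod_cast hpp.pos
    set x : ℝ := (k : ℝ) / p with hx
    have hx0 : 0 ≤ x := by positivity
    have hkw : (2 * k + k ^ 2 + 2 : ℝ) ≤ w := by exact_mod_cast hw
    have hk0 : (0 : ℝ) ≤ k := Nat.cast_nonneg k
    have hx1 : x ≤ 1 / 2 := by
      rw [hx, div_le_iff₀ hp0]
      nlinarith [sq_nonneg (k : ℝ)]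
    have hx2 : x ^ 2 ≤ 1 / p := by
      have : x ^ 2 = (k : ℝ) ^ 2 / p * (1 / p) := by rw [hx]; field_simp
      rw [this]
      have h4 : (k : ℝ) ^ 2 / p ≤ 1 := by
        rw [div_le_one hp0]
        nlinarith
      have h5 : 0 ≤ 1 / (p : ℝ) := by positivity
      nlinarith
    have h2 : Real.exp (-((k + 1) * (1 / (p : ℝ)))) ≤ Real.exp (-(x + x ^ 2)) := by
      rw [Real.exp_le_exp, neg_le_neg_iff]
      have : (k + 1) * (1 / (p : ℝ)) = x + 1 / p := by rw [hx]; ring
      rw [this]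
      linarith
    refine h2.trans ?_
    have h3 : 0 < 1 - x := by linarith
    have h5 : 1 / (1 - x) ≤ Real.exp (x + x ^ 2) := by
      have h6 := Real.quadratic_le_exp_of_nonneg (show 0 ≤ x + x ^ 2 by positivity)
      refine le_trans ?_ h6
      rw [div_le_iff₀ h3]
      nlinarith [mul_nonneg hx0 hx0, mul_nonneg (mul_nonneg hx0 hx0) (mul_nonneg hx0 hx0),
        mul_nonneg (mul_nonneg hx0 hx0) hx0, mul_nonneg (mul_nonneg hx0 hx0) (sub_nonneg.2 hx1)]
    rw [Real.exp_neg]
    rw [div_le_iff₀ h3] at h5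
    have h6 := Real.exp_pos (x + x ^ 2)
    rw [inv_le_iff_one_le_mul₀ h6]
    linarith
  refine le_trans ?_ hV
  have h7 : Real.exp (-((k + 1) * C)) / Real.log z ^ (k + 1) = Real.exp (-((k + 1) * (Real.log (Real.log z) + C))) := by
    have h8 : Real.exp (-((k + 1) * (Real.log (Real.log z) + C))) =
        Real.exp (-((k + 1) * C)) * Real.exp (-(((k + 1 : ℕ) : ℝ) * Real.log (Real.log z))) := by
      rw [← Real.exp_add]
      congr 1
      push_cast
      ring
    rw [h8, Real.exp_neg (((k + 1 : ℕ) : ℝ) * Real.log (Real.log z)), Real.exp_nat_mul, Real.exp_log (by linarith)]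
    rw [div_eq_mul_inv]
  rw [h7, Real.exp_le_exp, neg_le_neg_iff]
  exact mul_le_mul_of_nonneg_left hS1 (by positivity)

end Pool.Agent.W33f
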