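import Pool.Agent.W_d33b62f_h37.Sm1
import Pool.Agent.W_d33b62f_h37.Vl

/-!
# MP_d33b62_nt, full question: T6, the assembly of `SMd` from `LL` (helper53)
-/

set_option autoImplicit false

noncomputable section

open Finset

namespace Pool.Agent.W33f

/-- The statement of `LL`. -/
def LLst (k : ℕ) : Prop := ∃ C₄ c₁₀ : ℝ, 0 < C₄ ∧ 0 < c₁₀ ∧ ∀ c₁ : ℝ, 0 < c₁ → c₁ ≤ c₁₀ → ∃ w₀ : ℕ,
    ∀ w ≥ w₀, ∀ W, Wok w W → ∀ B' : ℕ, ∃ Y₀ : ℕ, ∀ Y ≥ Y₀, ∀ D : Dat k, D.w = w → D.W = W → D.ok →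
      ∀ xi, D.Fam Y 1 B' (CC k) 1 xi → ∀ u : ℤ × ℤ, 0 < nm u → (nm u : ℝ) ≤ (Y : ℝ) ^ (1 / 100 : ℝ) →
        (({z : ℤ × ℤ | z.1 ≡ D.rho.1 [ZMOD D.W] ∧ z.2 ≡ D.rho.2 [ZMOD D.W] ∧
          (D.a xi : ℤ) ∣ (xi.1 - xi.2) * z.1 + (xi.1 + xi.2) * z.2 ∧ (∃ z₁, z = gm u z₁) ∧
          ∃ n ∈ D.N1 Y ((Y : ℝ) ^ c₁), 2 * nm z = n + D.h D.i + D.a xi}).ncard : ℝ) ≤
          C₄ * (1 / nm u) * (∏ p ∈ (nm u).natAbs.primeFactors, (1 + 2 * k / (p : ℝ))) *
            (if (D.a xi : ℤ) ∣ nm u then (D.a xi : ℝ) else 1) *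
            (mu W (D.a xi) * (Y / (4 * W : ℕ)) * VV k w ((Y : ℝ) ^ c₁))

theorem ZS_fin53 {k : ℕ} (D : Dat k) (xi : ℤ × ℤ) (n : ℕ) : (D.ZS xi n).Finite := by
  refine (disc_finite (n + D.h D.i + D.a xi)).subset ?_
  rintro z ⟨-, -, -, -, -, hz⟩
  have h0 := nm_nonneg z
  simp only [Set.mem_ofPred_eq]
  push_cast
  linarith

/-- The constants of the local factors. -/
def cw (k w p : ℕ) : ℝ := if w < p then 1 + 2 * k / (p : ℝ) else 0

theorem cw_nonneg (k w p : ℕ) : 0 ≤ cw k w p := by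
  unfold cw
  split_ifs
  · positivity
  · exact le_rfl

theorem prod_cw_le (k w : ℕ) (m : ℕ) (N : ℤ) (hN : N = 2 * m) (hm : m ≠ 0) :
    ∏ p ∈ m.primeFactors, (1 + cw k w p / (p - 1)) ≤ EE (CC k) w N := by
  unfold EE
  have h1 : ∏ p ∈ m.primeFactors, (1 + cw k w p / ((p : ℝ) - 1)) =
      ∏ p ∈ m.primeFactors.filter (w < ·), (1 + cw k w p / ((p : ℝ) - 1)) := by
    rw [prod_filter]
    apply prod_congr rfl
    intro p _
    by_cases h : w < p
    · rw [if_pos h]
    · rw [if_neg h]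
      unfold cw
      rw [if_neg h]
      simp
  rw [h1]
  have hC0 : (0 : ℝ) ≤ CC k := by unfold CC; positivity
  calc ∏ p ∈ m.primeFactors.filter (w < ·), (1 + cw k w p / ((p : ℝ) - 1))
      ≤ ∏ p ∈ m.primeFactors.filter (w < ·), (1 + CC k / p) := by
        apply prod_le_prod
        · intro p hp
          rw [mem_filter] at hp
          have h2 : (2 : ℝ) ≤ p := by exact_mod_cast (Nat.prime_of_mem_primeFactors hp.1).two_le
          have h3 : 0 ≤ cw k w p / ((p : ℝ) - 1) := div_nonneg (cw_nonneg k w p) (by linarith)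
          linarith
        · intro p hp
          rw [mem_filter] at hp
          have h2 : (2 : ℝ) ≤ p := by exact_mod_cast (Nat.prime_of_mem_primeFactors hp.1).two_le
          have h3 : cw k w p / ((p : ℝ) - 1) ≤ CC k / p := by
            unfold cw CC
            rw [if_pos hp.2, div_le_div_iff₀ (by linarith) (by linarith)]
            have hk : (0 : ℝ) ≤ k := Nat.cast_nonneg k
            have h4 : 2 * (k : ℝ) / p * p = 2 * k := by field_simp
            nlinarith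
          linarith
    _ ≤ _ := by
        have hN' : N.natAbs = 2 * m := by omega
        rw [hN']
        apply prod_le_prod_of_subset_of_one_le
        · intro p hp
          rw [mem_filter] at hp ⊢
          refine ⟨?_, hp.2⟩
          rw [Nat.primeFactors_mul two_ne_zero hm, mem_union]
          exact Or.inr hp.1
        · intro p _
          have : 0 ≤ CC k / (p : ℝ) := by positivity
          linarith
        · intro p _ _
          have : 0 ≤ CC k / (p : ℝ) := by positivity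
          linarith

/-- The sum of the bounds of `LL`. -/
theorem sumLL {k : ℕ} (D : Dat k) (hD : D.ok) {Y B B' : ℕ} (zl : ℝ) {xi : ℤ × ℤ} (hF : D.Fam Y B B' (CC k) 1 xi)
    (ha0 : D.a0 < D.a xi) (x : ℤ × ℤ) (hxc : IsCoprime x.1 x.2) (hxn : 2 * nm x = D.a xi + D.a0)
    (hY : (D.a xi : ℝ) ≤ (Y : ℝ) ^ (1 / 100 : ℝ)) (C₄ M : ℝ) (hC : 0 ≤ C₄) (hM : 0 ≤ M)
    (hLL : ∀ u : ℤ × ℤ, 0 < nm u → (nm u : ℝ) ≤ (Y : ℝ) ^ (1 / 100 : ℝ) → ((LLS D Y zl xi u).ncard : ℝ) ≤
      C₄ * (1 / nm u) * (∏ p ∈ (nm u).natAbs.primeFactors, (1 + 2 * k / (p : ℝ))) *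
            (if (D.a xi : ℤ) ∣ nm u then (D.a xi : ℝ) else 1) * M)
    (S : Finset ((ℤ × ℤ) × (ℤ × ℤ))) (hS : ∀ p ∈ S, gm p.1 p.2 = x) :
    ∑ p ∈ S, ((LLF D Y zl xi p.1).card : ℝ) ≤ 8 * C₄ * M := by
  have hx0 : 0 < nm x := by
    apply nm_pos
    rintro rfl
    simp [isCoprime_zero_left] at hxc
  have hlt : nm x < D.a xi := by
    have : (D.a0 : ℤ) < D.a xi := by exact_mod_cast ha0
    linarith
  have hterm : ∀ p ∈ S, ((LLF D Y zl xi p.1).card : ℝ) ≤ C₄ * M * Fc (cw k D.w) (nm p.1).toNat := by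
    intro p hp
    have h1 : nm p.1 * nm p.2 = nm x := by rw [← nm_gm, hS p hp]
    have h2 := nm_nonneg p.1
    have h3 := nm_nonneg p.2
    have h4 : 0 < nm p.1 := by
      rcases h2.lt_or_eq with h | h
      · exact h
      · rw [← h] at h1; linarith
    have h5 : 0 < nm p.2 := by
      rcases h3.lt_or_eq with h | h
      · exact h
      · rw [← h] at h1; linarith
    have h6 : nm p.1 < D.a xi := by nlinarith
    have hrhs : 0 ≤ C₄ * M * Fc (cw k D.w) (nm p.1).toNat :=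
      mul_nonneg (mul_nonneg hC hM) (Fc_nonneg _ (cw_nonneg k D.w) _)
    rw [card_LLF]
    have hnat : (nm p.1).natAbs = (nm p.1).toNat := by omega
    by_cases hall : ∀ q ∈ (nm p.1).toNat.primeFactors, D.w < q
    · have h7 := hLL p.1 h4 ?_
      · rw [if_neg (fun h => absurd (Int.le_of_dvd h4 h) (by omega)), mul_one, hnat] at h7
        refine h7.trans (le_of_eq ?_)
        unfold Fc
        have h8 : ∏ q ∈ (nm p.1).toNat.primeFactors, cw k D.w q =
            ∏ q ∈ (nm p.1).toNat.primeFactors, (1 + 2 * (k : ℝ) / (q : ℝ)) := by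
          apply prod_congr rfl
          intro q hq
          unfold cw
          rw [if_pos (hall q hq)]
        rw [h8]
        have h9 : ((nm p.1).toNat : ℝ) = (nm p.1 : ℝ) := by
          have : ((nm p.1).toNat : ℤ) = nm p.1 := Int.toNat_of_nonneg h2
          exact_mod_cast this
        rw [h9]
        ring
      · have h10 : (nm p.1 : ℝ) ≤ D.a xi := by exact_mod_cast h6.le
        exact h10.trans hY
    · push Not at hall
      obtain ⟨q, hq, hqw⟩ := hall
      have hqp := Nat.prime_of_mem_primeFactors hq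
      have hqd := Nat.dvd_of_mem_primeFactors hq
      have hqW : q ∣ D.W := (hD.wok.1 q hqp).2 hqw
      have hempty : LLS D Y zl xi p.1 = ∅ := by
        rw [Set.eq_empty_iff_forall_notMem]
        rintro z ⟨z1, z2, -, ⟨z3, hz3⟩, -⟩
        have hqW' : (q : ℤ) ∣ D.W := by exact_mod_cast hqW
        have e1 : z.1 ≡ D.rho.1 [ZMOD q] := z1.of_dvd hqW'
        have e2 : z.2 ≡ D.rho.2 [ZMOD q] := z2.of_dvd hqW'
        have e3 : nm z ≡ nm D.rho [ZMOD q] := (e1.pow 2).add (e2.pow 2)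
        have e4 : (q : ℤ) ∣ nm z := by
          rw [hz3, nm_gm]
          apply dvd_mul_of_dvd_left
          have : (q : ℤ) ∣ ((nm p.1).toNat : ℤ) := by exact_mod_cast hqd
          rwa [Int.toNat_of_nonneg h2] at this
        have e5 : (q : ℤ) ∣ nm D.rho := by
          rw [Int.dvd_iff_emod_eq_zero] at e4 ⊢
          rw [← e4]; exact e3.symm
        have e6 := hD.hrhoN.isUnit_of_dvd' e5 hqW'
        exact (Nat.prime_iff_prime_int.1 hqp).not_isUnit e6
      rw [hempty, Set.ncard_empty, Nat.cast_zero]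
      exact hrhs
  calc ∑ p ∈ S, ((LLF D Y zl xi p.1).card : ℝ) ≤ ∑ p ∈ S, C₄ * M * Fc (cw k D.w) (nm p.1).toNat := sum_le_sum hterm
    _ = C₄ * M * ∑ p ∈ S, Fc (cw k D.w) (nm p.1).toNat := by rw [mul_sum]
    _ ≤ C₄ * M * (4 * ∏ p ∈ (nm x).toNat.primeFactors, (1 + cw k D.w p / (p - 1))) :=
        mul_le_mul_of_nonneg_left (sum_D2 x hxc S hS _ (cw_nonneg k D.w)) (mul_nonneg hC hM)
    _ ≤ C₄ * M * (4 * 2) := by
        apply mul_le_mul_of_nonneg_left _ (mul_nonneg hC hM)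
        apply mul_le_mul_of_nonneg_left _ (by norm_num)
        have h1 := prod_cw_le k D.w (nm x).toNat (D.a xi + D.a0 : ℤ) ?_ (by omega)
        · refine h1.trans ?_
          have := hF.good0
          linarith
        · rw [Int.toNat_of_nonneg hx0.le]
          exact hxn.symm
    _ = 8 * C₄ * M := by ring

end Pool.Agent.W33f
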