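import Pool.Agent.W_d33b62f_h37.Sm2

/-!
# MP_d33b62_nt, full question: T6, the assembly of `SMd` from `LL` (helper53)
-/

set_option autoImplicit false

noncomputable section

open Finset

namespace Pool.Agent.W33f

/-- The sum is bounded by the covering sets. -/
theorem count_le {k : ℕ} (D : Dat k) (xi : ℤ × ℤ) (N : Finset ℕ) (J : Finset (ℤ × ℤ))
    (T1 T2 : Finset ((ℤ × ℤ) × ((ℤ × ℤ) × (ℤ × ℤ)))) (A : (ℤ × ℤ) → Finset ((ℤ × ℤ) × (ℤ × ℤ)))
    (h : ∀ xi' ∈ J, ∀ n ∈ N, ∀ z ∈ D.ZS xi n, ∀ z' ∈ D.ZS xi' n,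
        (xi', (z, z')) ∈ T1 ∨ (xi', (z, z')) ∈ T2 ∨ (z, z') ∈ A xi') :
    ∑ xi' ∈ J, ∑ n ∈ N, D.R xi n * D.R xi' n ≤ T1.card + T2.card + ∑ xi' ∈ J, (A xi').card := by
  classical
  set ZF : (ℤ × ℤ) → ℕ → Finset (ℤ × ℤ) := fun y n => (ZS_fin53 D y n).toFinset with hZF
  have hR : ∀ y n, D.R y n = (ZF y n).card := by
    intro y n
    unfold Dat.R
    rw [Set.ncard_eq_toFinset_card _ (ZS_fin53 D y n)]
  set F : (ℤ × ℤ) × ℕ → Finset ((ℤ × ℤ) × ((ℤ × ℤ) × (ℤ × ℤ))) := fun q =>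
    {q.1} ×ˢ (ZF xi q.2 ×ˢ ZF q.1 q.2) with hF
  have hcard : ((J ×ˢ N).biUnion F).card = ∑ xi' ∈ J, ∑ n ∈ N, D.R xi n * D.R xi' n := by
    rw [card_biUnion]
    · rw [sum_product]
      apply sum_congr rfl
      intro y _
      apply sum_congr rfl
      intro n _
      rw [hF]
      simp only [card_product, card_singleton, one_mul]
      rw [hR, hR]
    · intro q _ r _ hqr
      rw [Function.onFun, disjoint_left]
      rintro ⟨y, z, z'⟩ h1 h2
      rw [hF] at h1 h2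
      simp only [mem_product, mem_singleton] at h1 h2
      apply hqr
      obtain ⟨a1, a2, -⟩ := h1
      obtain ⟨b1, b2, -⟩ := h2
      rw [hZF] at a2 b2
      simp only [Set.Finite.mem_toFinset] at a2 b2
      obtain ⟨-, -, -, -, -, a3⟩ := a2
      obtain ⟨-, -, -, -, -, b3⟩ := b2
      refine Prod.ext (a1.symm.trans b1) ?_
      have : (q.2 : ℤ) = r.2 := by linarith
      exact_mod_cast this
  rw [← hcard]
  have hsub : (J ×ˢ N).biUnion F ⊆ T1 ∪ T2 ∪ J.biUnion fun y => {y} ×ˢ A y := by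
    intro t ht
    rw [mem_biUnion] at ht
    obtain ⟨q, hq, ht⟩ := ht
    rw [mem_product] at hq
    rw [hF] at ht
    simp only [mem_product, mem_singleton] at ht
    obtain ⟨a1, a2, a3⟩ := ht
    rw [hZF] at a2 a3
    simp only [Set.Finite.mem_toFinset] at a2 a3
    obtain ⟨y, z, z'⟩ := t
    simp only at a1 a2 a3
    subst a1
    rcases h _ hq.1 _ hq.2 z a2 z' a3 with h1 | h1 | h1
    · exact mem_union_left _ (mem_union_left _ h1)
    · exact mem_union_left _ (mem_union_right _ h1)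
    · refine mem_union_right _ ?_
      rw [mem_biUnion]
      refine ⟨q.1, hq.1, ?_⟩
      rw [mem_product, mem_singleton]
      exact ⟨rfl, h1⟩
  calc ((J ×ˢ N).biUnion F).card ≤ (T1 ∪ T2 ∪ J.biUnion fun y => {y} ×ˢ A y).card := card_le_card hsub
    _ ≤ (T1 ∪ T2).card + (J.biUnion fun y => {y} ×ˢ A y).card := card_union_le _ _
    _ ≤ T1.card + T2.card + ∑ xi' ∈ J, (A xi').card := by
        have h1 := card_union_le T1 T2
        have h2 : (J.biUnion fun y => {y} ×ˢ A y).card ≤ ∑ xi' ∈ J, (A xi').card := by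
          refine card_biUnion_le.trans (sum_le_sum fun y _ => ?_)
          rw [card_product, card_singleton, one_mul]
        omega

/-- The number of `ξ'` of a given norm. -/
theorem card_J (J : Finset (ℤ × ℤ)) (m : ℕ) (h : ∀ y ∈ J, nm y = m) :
    J.card ≤ 2 * (2 * Nat.sqrt m + 1) := by
  classical
  set s := Nat.sqrt m with hs
  have hinj : ∀ y ∈ J, ∀ y' ∈ J, (y.1, decide (0 ≤ y.2)) = (y'.1, decide (0 ≤ y'.2)) → y = y' := by
    intro y hy y' hy' he
    simp only [Prod.mk.injEq, decide_eq_decide] at he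
    obtain ⟨h1, h2⟩ := he
    have h3 := h y hy
    have h4 := h y' hy'
    rw [← h4] at h3
    unfold nm at h3
    rw [h1] at h3
    have h5 : y.2 ^ 2 = y'.2 ^ 2 := by linarith
    rcases sq_eq_sq_iff_eq_or_eq_neg.1 h5 with h6 | h6
    · exact Prod.ext h1 h6
    · refine Prod.ext h1 ?_
      by_cases h7 : 0 ≤ y'.2
      · have := h2.2 h7
        omega
      · have h8 : ¬ 0 ≤ y.2 := fun h => h7 (h2.1 h)
        omega
  have hmaps : ∀ y ∈ J, (y.1, decide (0 ≤ y.2)) ∈ (Finset.Icc (-(s : ℤ)) s) ×ˢ (Finset.univ : Finset Bool) := by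
    intro y hy
    rw [mem_product]
    refine ⟨?_, mem_univ _⟩
    have h3 := h y hy
    unfold nm at h3
    have h4 : y.1.natAbs ≤ s := by
      rw [hs, Nat.le_sqrt']
      have : ((y.1.natAbs : ℤ)) ^ 2 ≤ m := by
        rw [Int.natAbs_sq]
        nlinarith [sq_nonneg y.2]
      exact_mod_cast this
    simp only [Finset.mem_Icc]
    omega
  calc J.card ≤ ((Finset.Icc (-(s : ℤ)) s) ×ˢ (Finset.univ : Finset Bool)).card :=
        card_le_card_of_injOn _ hmaps (fun y hy y' hy' he => hinj y hy y' hy' he)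
    _ = 2 * (2 * s + 1) := by
        rw [card_product, Int.card_Icc, card_univ, Fintype.card_bool]
        omega

/-- The numerical inequality. -/
theorem num_le (k W a Y j : ℕ) (L c₁ cV V : ℝ) (hW : 0 < W) (hY : 1 ≤ Y) (hc1 : 0 < c₁) (hcV : 0 < cV)
    (hL1 : 1 ≤ L) (ha : L ^ (2 * k + 6) ≤ a)
    (hj : (j : ℝ) ≤ 8 * Real.sqrt a) (hh : (harmonic (2 * Y) : ℝ) ≤ 3 * L)
    (hV : cV / (c₁ * L) ^ (k + 1) ≤ V)
    (hLc : 442368 * 8 * W ^ 2 * c₁ ^ (k + 1) / (Real.pi * cV) ≤ L) :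
    (j : ℝ) * (64 * (144 * (2 * Y : ℕ) * (harmonic (2 * Y) : ℝ) / (a : ℝ) ^ 2)) ≤ mu W a * (Y / (4 * W : ℕ)) * V := by
  set r := Real.sqrt a with hr
  have hL0 : 0 < L := by linarith
  have ha0 : (0 : ℝ) < a := lt_of_lt_of_le (by positivity) ha
  have hr0 : 0 < r := Real.sqrt_pos.2 ha0
  have hr2 : r ^ 2 = a := Real.sq_sqrt ha0.le
  have hrL : L ^ (k + 3) ≤ r := by
    apply Real.le_sqrt_of_sq_le
    rw [← pow_mul]
    calc L ^ ((k + 3) * 2) = L ^ (2 * k + 6) := by congr 1; ring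
      _ ≤ a := ha
  have hY0 : (1 : ℝ) ≤ Y := by exact_mod_cast hY
  have hW0 : (0 : ℝ) < W := by exact_mod_cast hW
  have hpi := Real.pi_pos
  have hh0 : (0 : ℝ) ≤ (harmonic (2 * Y) : ℝ) := by
    unfold harmonic
    push_cast
    exact sum_nonneg fun i _ => by positivity
  -- left hand side
  have h1 : (j : ℝ) * (64 * (144 * (2 * Y : ℕ) * (harmonic (2 * Y) : ℝ) / (a : ℝ) ^ 2)) ≤
      442368 * Y * L / r ^ 3 := by
    have h2 : (64 * (144 * (2 * Y : ℕ) * (harmonic (2 * Y) : ℝ) / (a : ℝ) ^ 2)) ≤ 64 * (144 * (2 * Y) * (3 * L) / (a : ℝ) ^ 2) := by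
      push_cast
      gcongr
    calc _ ≤ (8 * r) * (64 * (144 * (2 * Y) * (3 * L) / (a : ℝ) ^ 2)) := by
          apply mul_le_mul hj h2
          · positivity
          · positivity
      _ = 442368 * Y * L / r ^ 3 := by
          rw [← hr2]
          field_simp
          ring
  -- right hand side
  have h2 : Real.pi / (2 * W * a) * (Y / (4 * W)) * (cV / (c₁ * L) ^ (k + 1)) ≤ mu W a * (Y / (4 * W : ℕ)) * V := by
    unfold mu
    push_cast
    gcongr
  refine h1.trans (le_trans ?_ h2)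
  have h3 : 442368 * 8 * W ^ 2 * c₁ ^ (k + 1) ≤ L * (Real.pi * cV) := by
    rwa [div_le_iff₀ (by positivity)] at hLc
  have h4 : 442368 * 8 * W ^ 2 * c₁ ^ (k + 1) * L ^ (k + 2) ≤ Real.pi * cV * r := by
    calc 442368 * 8 * W ^ 2 * c₁ ^ (k + 1) * L ^ (k + 2) ≤ L * (Real.pi * cV) * L ^ (k + 2) := by gcongr
      _ = Real.pi * cV * L ^ (k + 3) := by ring
      _ ≤ Real.pi * cV * r := by gcongr
  rw [← hr2]
  have h5 : Real.pi / (2 * W * r ^ 2) * (Y / (4 * W)) * (cV / (c₁ * L) ^ (k + 1)) =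
      Real.pi * cV * Y / (8 * W ^ 2 * r ^ 2 * (c₁ ^ (k + 1) * L ^ (k + 1))) := by
    rw [mul_pow]
    field_simp
    ring
  rw [h5, div_le_div_iff₀ (by positivity) (by positivity)]
  calc 442368 * Y * L * (8 * W ^ 2 * r ^ 2 * (c₁ ^ (k + 1) * L ^ (k + 1)))
      = Y * r ^ 2 * (442368 * 8 * W ^ 2 * c₁ ^ (k + 1) * L ^ (k + 2)) := by ring
    _ ≤ Y * r ^ 2 * (Real.pi * cV * r) := by gcongr
    _ = Real.pi * cV * Y * r ^ 3 := by ring

end Pool.Agent.W33f
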