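import Pool.Agent.W_d33b62_h36.GD
import Pool.Agent.W_d33b62f_h37.Df

/-!
# MP_d33b62_nt, full question (helper37): the top level statements
-/

set_option autoImplicit false

noncomputable section

open Finset Pool.Agent.Wd33b62

namespace Pool.Agent.W33f

/-- **T2.** Rough Maynard - Pintz theorem for `k = 2000`. -/
theorem T2 (t : Fin 2000 → ℕ) (ht : Function.Injective t) (htp : ∀ l, (t l).Prime ∧ 2000 < t l ∧ t l ≤ 41666) :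
    ∃ c δ : ℝ, 0 < c ∧ c < 1 ∧ 0 < δ ∧ ∃ w₀ : ℕ, ∀ w ≥ w₀, ∀ M : ℕ, (∀ p : ℕ, p.Prime → (p ∣ M ↔ p ≤ w)) →
      ∀ b : ℕ, (∀ l, Nat.Coprime (b + 24 * t l) M) → ∃ Y₀ : ℕ, ∀ Y ≥ Y₀,
        δ * (Y / M) * VV 2000 w ((Y : ℝ) ^ c) ≤
          ({n : ℕ | n ∈ Ioc Y (2 * Y) ∧ n ≡ b [MOD M] ∧ Rou (fun l => 24 * t l) w ((Y : ℝ) ^ c) n ∧
            ∃ i j, i ≠ j ∧ (n + 24 * t i).Prime ∧ (n + 24 * t j).Prime}.ncard : ℝ) := by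
  sorry

/-- **The second moment theorem** (T1, T3 - T7). -/
theorem SM0 (k : ℕ) (hk : 2 ≤ k) : ∃ c₁₀ : ℝ, 0 < c₁₀ ∧ ∀ c₁ : ℝ, 0 < c₁ → c₁ ≤ c₁₀ →
    ∃ (η C₂ : ℝ) (w₀ B : ℕ), 0 < η ∧ 0 < C₂ ∧ ∀ w ≥ w₀, ∀ W, Wok w W → ∀ B' : ℕ, ∃ Y₀ : ℕ, ∀ Y ≥ Y₀,
      ∀ D : Dat k, D.w = w → D.W = W → D.ok → ∀ J : Finset (ℤ × ℤ), (∀ xi ∈ J, D.Fam Y B B' (CC k) η xi) →
        C₂ ≤ ∑ xi ∈ J, mu W (D.a xi) →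
        (∑ xi ∈ J, ∑ xi' ∈ J, (if D.a xi = D.a xi' then 0 else
          mu W (D.a xi) * mu W (D.a xi') * EE (CC k) w ((D.a xi : ℤ) - D.a xi'))) ≤
            (1 + η) * (∑ xi ∈ J, mu W (D.a xi)) ^ 2 →
        (({n : ℕ | n ∈ D.N1 Y ((Y : ℝ) ^ c₁) ∧ ∀ xi ∈ J, D.R xi n = 0}).ncard : ℝ) ≤
          c₁ ^ (k + 1) * (Y / (4 * W : ℕ)) * VV k w ((Y : ℝ) ^ c₁) := by
  sorry

/-- **T8.** The family of circles. -/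
theorem FAM (a₀ : ℕ) (ha : a₀.Prime) (ha5 : 5 ≤ a₀) (v₀ : ℤ × ℤ) (hv : ¬ (a₀ : ℤ) ∣ nm v₀) (zz : ℕ) :
    ∃ E : ℕ, E ≠ 0 ∧ Nat.Coprime E (2 * a₀) ∧ (∀ p : ℕ, p.Prime → p ∣ E → p % 4 = 1 ∧ zz < p) ∧
      ∀ (k : ℕ) (C η : ℝ), 0 < C → 0 < η → ∃ w₀ : ℕ, ∀ w ≥ w₀, ∀ W, Wok w W → (∀ p : ℕ, p.Prime → p ∣ E → p * E ∣ W) →
        ∀ (C₂ : ℝ) (B : ℕ), ∃ B' Y₀ : ℕ, ∀ Y ≥ Y₀, ∀ D : Dat k, D.w = w → D.W = W → D.ok → D.a0 = a₀ →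
          (∃ m₀ : ℕ, Nat.Coprime m₀ W ∧ D.al + a₀ ≡ 2 * E * m₀ [MOD 4 * W]) →
          (∃ s : ℤ, D.al * nm v₀ ≡ s ^ 2 [ZMOD a₀]) →
          ∃ J : Finset (ℤ × ℤ), (∀ xi ∈ J, D.Fam Y B B' C η xi ∧ (a₀ : ℤ) ∣ v₀.1 * xi.2 - v₀.2 * xi.1) ∧
            C₂ ≤ ∑ xi ∈ J, mu W (D.a xi) ∧
            (∑ xi ∈ J, ∑ xi' ∈ J, (if D.a xi = D.a xi' then 0 else
              mu W (D.a xi) * mu W (D.a xi') * EE C w ((D.a xi : ℤ) - D.a xi'))) ≤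
                (1 + η) * (∑ xi ∈ J, mu W (D.a xi)) ^ 2 := by
  sorry

/-- **T9.** The geometry: neighbours of neighbours. -/
theorem GEO {v : Fin 4 → GC} (hv : IsDescartes v) (hI : IsIntegral v) (hP : IsPrimitive v) {C : GC}
    (hC : C ∈ packing v) (hC2 : OddPrimeCurv C) : ∃ (a₀ : ℕ) (v₀ : ℤ × ℤ), a₀.Prime ∧ 5 ≤ a₀ ∧ ¬ (a₀ : ℤ) ∣ nm v₀ ∧
      ∀ xi : ℤ × ℤ, Int.gcd xi.1 xi.2 = 1 → (a₀ : ℤ) ∣ v₀.1 * xi.2 - v₀.2 * xi.1 →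
        ∀ q : ℕ, q.Prime → q ≠ 2 → a₀ < q → nm xi = q + a₀ →
          ∀ ze : ℤ × ℤ, Int.gcd ze.1 ze.2 = 1 → (q : ℤ) ∣ xi.1 * ze.2 - xi.2 * ze.1 →
            ∀ r : ℕ, r.Prime → r ≠ 2 → q < r → nm ze = r + q → r ∈ curvs v C := by
  sorry

/-- **T10a.** The residue data. -/
theorem RES (k : ℕ) (hk : k ≤ 10000) (t : Fin k → ℕ) (htp : ∀ l, (t l).Prime ∧ k < t l ∧ t l ≤ 41666) (a₀ : ℕ)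
    (ha : a₀.Prime) (ha5 : 5 ≤ a₀) (v₀ : ℤ × ℤ) (hv : ¬ (a₀ : ℤ) ∣ nm v₀) (E : ℕ) (hE : E ≠ 0)
    (hEc : Nat.Coprime E (2 * a₀)) (hE4 : ∀ p : ℕ, p.Prime → p ∣ E → p % 4 = 1 ∧ 10 ^ 6 < p) (w W : ℕ) (hW : Wok w W) (hw : 10 ^ 6 ≤ w) (hwa : a₀ ≤ w)
    (hEW : ∀ p : ℕ, p.Prime → p ∣ E → p * E ∣ W) :
    ∃ b : ℕ, (∀ l, Nat.Coprime (b + 24 * t l) (4 * W)) ∧ ∀ i, ∃ (rho : ℤ × ℤ) (al : ℕ),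
      Nat.Coprime al W ∧ al + a₀ ≡ 2 [MOD 8] ∧ 2 * nm rho ≡ (b + 24 * t i + al : ℕ) [ZMOD (4 * W : ℕ)] ∧
      IsCoprime (nm rho) (W : ℤ) ∧ IsCoprime rho.1 (W : ℤ) ∧
      (∃ m₀ : ℕ, Nat.Coprime m₀ W ∧ al + a₀ ≡ 2 * E * m₀ [MOD 4 * W]) ∧
      (∃ s : ℤ, al * nm v₀ ≡ s ^ 2 [ZMOD a₀]) := by
  sorry

/-- **T10b.** The tuple. -/
theorem TUP : ∃ t : Fin 2000 → ℕ, Function.Injective t ∧ ∀ l, (t l).Prime ∧ 2000 < t l ∧ t l ≤ 41666 := by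
  sorry

/-- **M1.** Mertens. -/
theorem VV_ratio (k : ℕ) (c₁ c : ℝ) (h1 : 0 < c₁) (h2 : c₁ < c) (w : ℕ) (hw : 2 * k ≤ w) : ∃ Y₀ : ℕ, ∀ Y ≥ Y₀,
    1 / 2 * (c₁ / c) ^ k * VV k w ((Y : ℝ) ^ c₁) ≤ VV k w ((Y : ℝ) ^ c) := by
  sorry

/-- **Main theorem.** -/
theorem main : ∀ v : Fin 4 → GC, IsDescartes v → IsIntegral v → IsPrimitive v →
    ∀ C ∈ packing v, OddPrimeCurv C → ∀ N : ℕ, ∃ p ∈ curvs v C, ∃ q ∈ curvs v C, N ≤ p ∧ p < q ∧ q ≤ p + 10 ^ 6 := by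
  sorry

end Pool.Agent.W33f
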