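import Mathlib

/-!
# The tuple: many primes in `(2000, 41666]` (MP_d33b62, section T10; helper47)
-/

set_option autoImplicit false

open Finset

namespace Pool.Agent.W33f

/-- The product of the primes below `211`. -/
def primorialM : ℕ :=
  2 * 3 * 5 * 7 * 11 * 13 * 17 * 19 * 23 * 29 * 31 * 37 * 41 * 43 * 47 * 53 * 59 * 61 * 67 * 71 * 73 * 79 * 83 *
  89 * 97 * 101 * 103 * 107 * 109 * 113 * 127 * 131 * 137 * 139 * 149 * 151 * 157 * 163 * 167 * 173 * 179 * 181 *
  191 * 193 * 197 * 199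

/-- Number of `n` in `[a, a + 2 ^ k)` prime to `primorialM`. -/
def cntM : ℕ → ℕ → ℕ
  | 0, a => if Nat.gcd a primorialM = 1 then 1 else 0
  | k + 1, a => cntM k a + cntM k (a + 2 ^ k)

theorem cntM_eq (k a : ℕ) :
    cntM k a = ((Ico a (a + 2 ^ k)).filter (fun n => Nat.gcd n primorialM = 1)).card := by
  induction k generalizing a with
  | zero =>
    rw [cntM, pow_zero, Nat.Ico_succ_singleton, filter_singleton]
    split_ifs <;> simp
  | succ k ih =>
    rw [cntM, ih, ih]
    have h1 : Ico a (a + 2 ^ (k + 1)) = Ico a (a + 2 ^ k) ∪ Ico (a + 2 ^ k) (a + 2 ^ k + 2 ^ k) := by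
      rw [Ico_union_Ico_eq_Ico (Nat.le_add_right _ _) (Nat.le_add_right _ _)]
      congr 1
      rw [pow_succ]
      omega
    rw [h1, filter_union, card_union_of_disjoint]
    refine disjoint_filter_filter ?_
    exact Ico_disjoint_Ico_consecutive _ _ _

theorem prime_of_gcd (n : ℕ) (h1 : 1 < n) (h2 : n < 211 * 211) (h3 : Nat.gcd n primorialM = 1) : n.Prime := by
  by_contra h
  have h4 := Nat.minFac_prime (show n ≠ 1 by omega)
  have h5 := Nat.minFac_sq_le_self (by omega) h
  have h6 : n.minFac < 211 := by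
    by_contra h7
    nlinarith
  have h8 : n.minFac ∣ primorialM := by
    have h9 : ∀ p < 211, p.Prime → p ∣ primorialM := by
      decide +kernel
    exact h9 _ h6 h4
  have h10 := Nat.dvd_gcd (Nat.minFac_dvd n) h8
  rw [h3] at h10
  exact h4.one_lt.ne' (Nat.dvd_one.1 h10)

theorem cntM_big : 2000 ≤ cntM 15 2001 := by
  decide +kernel

/-- There are `2000` primes in `(2000, 41666]`. -/
theorem exists_tuple : ∃ t : Fin 2000 → ℕ, StrictMono t ∧ ∀ i, (t i).Prime ∧ 2000 < t i ∧ t i ≤ 41666 := by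
  have h1 := cntM_big
  rw [cntM_eq] at h1
  obtain ⟨s, hs, hc⟩ := exists_subset_card_eq h1
  refine ⟨s.orderEmbOfFin hc, (s.orderEmbOfFin hc).strictMono, fun i => ?_⟩
  have h2 := hs (s.orderEmbOfFin_mem hc i)
  rw [mem_filter, mem_Ico] at h2
  obtain ⟨⟨a1, a2⟩, a3⟩ := h2
  norm_num at a2
  exact ⟨prime_of_gcd _ (by omega) (by omega) a3, by omega, by omega⟩

end Pool.Agent.W33f
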